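import Pool.Agent.Lib.MP_021685_agTQ.ML

/-! Block HB: the second derivative of a regular member.

PROOF.  `H(√q (ζ + 1/ζ)) = √q ^ g ζ ^ (-g) PP θ ζ`.  `PP θ` is palindromic, so the maximum principle on the disc of radius `1/r`, `r = exp (-1/(10 g))`, bounds `PP θ` on the unit disc by `exp (1/5)` times its maximum on the disc of radius `r` (`HB_disc`).
`|w - 2| + |w + 2| = 2 (|ζ| + 1/|ζ|)` for `w = ζ + 1/ζ`, so for `w` at distance at most `1/g²` from a point of `[-2, 2]` there is `ζ` with `|ζ| ≤ 1`, `1/|ζ| ≤ 1 + 2/g` (`HB_jou`).  Cauchy's estimate for the second derivative with radius `√q / g²`. -/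

namespace TQ

open Polynomial TI

private theorem HB_palin {g : ℕ} (θ : Fin g → ℝ) {ζ : ℂ} (h : ζ ≠ 0) : ζ ^ (2 * g) * PP θ ζ⁻¹ = PP θ ζ := by
  unfold PP
  have h1 : ζ ^ (2 * g) = ∏ _j : Fin g, ζ ^ 2 := by
    rw [Finset.prod_const, Finset.card_univ, Fintype.card_fin, ← pow_mul]
  rw [h1, ← Finset.prod_mul_distrib]
  refine Finset.prod_congr rfl fun j _ => ?_
  field_simp
  ring

private theorem HB_diff {g : ℕ} (θ : Fin g → ℝ) : Differentiable ℂ (PP θ) := by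
  unfold PP
  refine Differentiable.fun_finsetProd fun j _ => ?_
  fun_prop

private theorem HB_disc {g : ℕ} (hg : 1 ≤ g) (θ : Fin g → ℝ) {M : ℝ}
    (hM : ∀ ζ : ℂ, ‖ζ‖ ≤ Real.exp (-(1 / (10 * (g : ℝ)))) → ‖PP θ ζ‖ ≤ M) {ζ : ℂ} (hζ : ‖ζ‖ ≤ 1) :
    ‖PP θ ζ‖ ≤ Real.exp (1 / 5) * M := by
  have hg0 : (0 : ℝ) < g := by exact_mod_cast hg
  obtain ⟨R, hR⟩ : ∃ R : ℝ, R = Real.exp (1 / (10 * (g : ℝ))) := ⟨_, rfl⟩
  have hR1 : 1 < R := by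
    rw [hR]
    exact Real.one_lt_exp_iff.2 (by positivity)
  have hR0 : R ≠ 0 := by linarith
  refine Complex.norm_le_of_forall_mem_frontier_norm_le (U := Metric.ball 0 R) Metric.isBounded_ball
    (HB_diff θ).diffContOnCl ?_ (subset_closure ?_)
  · intro z hz
    rw [frontier_ball 0 hR0, mem_sphere_zero_iff_norm] at hz
    have hz0 : z ≠ 0 := by
      rintro rfl
      rw [norm_zero] at hz
      exact hR0 hz.symm
    rw [← HB_palin θ hz0, norm_mul, norm_pow, hz]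
    have h2 : R ^ (2 * g) = Real.exp (1 / 5) := by
      rw [hR, ← Real.exp_nat_mul]
      congr 1
      push_cast
      field_simp
      norm_num
    rw [h2]
    refine mul_le_mul_of_nonneg_left (hM _ ?_) (Real.exp_pos _).le
    rw [norm_inv, hz, hR, Real.exp_neg]
  · rw [Metric.mem_ball, dist_zero_right]
    exact hζ.trans_lt hR1

private theorem HB_root (w : ℂ) : ∃ ζ : ℂ, ζ ≠ 0 ∧ ‖ζ‖ ≤ 1 ∧ ζ + ζ⁻¹ = w := by
  obtain ⟨d, hd⟩ := IsAlgClosed.exists_pow_nat_eq (w ^ 2 - 4) (n := 2) (by norm_num)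
  have h1 : (w + d) / 2 * ((w - d) / 2) = 1 := by
    have : (w + d) / 2 * ((w - d) / 2) = (w ^ 2 - d ^ 2) / 4 := by ring
    rw [this, hd]
    ring
  have ha : (w + d) / 2 ≠ 0 := left_ne_zero_of_mul_eq_one h1
  have hb : (w - d) / 2 ≠ 0 := right_ne_zero_of_mul_eq_one h1
  have hn : ‖(w + d) / 2‖ * ‖(w - d) / 2‖ = 1 := by rw [← norm_mul, h1, norm_one]
  rcases le_total ‖(w + d) / 2‖ 1 with h | h
  · refine ⟨_, ha, h, ?_⟩
    rw [← eq_inv_of_mul_eq_one_right h1]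
    ring
  · refine ⟨(w - d) / 2, hb, ?_, ?_⟩
    · by_contra hc
      push Not at hc
      nlinarith
    · rw [← eq_inv_of_mul_eq_one_left h1]
      ring

private theorem HB_jou {w : ℂ} {t δ : ℝ} (ht : |t| ≤ 2) (hδ0 : 0 ≤ δ) (hδ : δ ≤ 1) (hw : ‖w - t‖ ≤ δ ^ 2) :
    ∃ ζ : ℂ, ζ ≠ 0 ∧ ‖ζ‖ ≤ 1 ∧ ζ + ζ⁻¹ = w ∧ ‖ζ‖⁻¹ ≤ 1 + 2 * δ := by
  obtain ⟨ζ, h0, h1, h2⟩ := HB_root w
  refine ⟨ζ, h0, h1, h2, ?_⟩
  have hn0 : 0 < ‖ζ‖ := norm_pos_iff.2 h0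
  have e1 : w - 2 = (1 - ζ) ^ 2 * ζ⁻¹ := by
    rw [← h2]
    field_simp
    ring
  have e2 : w + 2 = (1 + ζ) ^ 2 * ζ⁻¹ := by
    rw [← h2]
    field_simp
    ring
  have e3 : ‖1 - ζ‖ ^ 2 + ‖1 + ζ‖ ^ 2 = 2 + 2 * ‖ζ‖ ^ 2 := by
    have h5 := parallelogram_law_with_norm ℝ (1 : ℂ) ζ
    rw [norm_one] at h5
    nlinarith
  have e4 : ‖w - 2‖ + ‖w + 2‖ = 2 * (‖ζ‖⁻¹ + ‖ζ‖) := by
    rw [e1, e2, norm_mul, norm_mul, norm_pow, norm_pow, norm_inv, ← add_mul, e3]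
    field_simp
  have e5 : ‖w - 2‖ ≤ δ ^ 2 + (2 - t) := by
    have h6 : w - 2 = (w - t) + ((t - 2 : ℝ) : ℂ) := by
      push_cast
      ring
    rw [h6]
    refine (norm_add_le _ _).trans ?_
    rw [Complex.norm_real, Real.norm_eq_abs, abs_of_nonpos (by linarith [(abs_le.1 ht).2])]
    linarith
  have e6 : ‖w + 2‖ ≤ δ ^ 2 + (2 + t) := by
    have h6 : w + 2 = (w - t) + ((t + 2 : ℝ) : ℂ) := by
      push_cast
      ring
    rw [h6]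
    refine (norm_add_le _ _).trans ?_
    rw [Complex.norm_real, Real.norm_eq_abs, abs_of_nonneg (by linarith [(abs_le.1 ht).1])]
    linarith
  have e7 : ‖ζ‖⁻¹ + ‖ζ‖ ≤ 2 + δ ^ 2 := by linarith
  obtain ⟨b, hb⟩ : ∃ b : ℝ, b = ‖ζ‖⁻¹ := ⟨_, rfl⟩
  have hbz : ‖ζ‖ = b⁻¹ := by rw [hb, inv_inv]
  have hb1 : 1 ≤ b := by
    rw [hb]
    exact (one_le_inv₀ hn0).2 h1
  rw [← hb, hbz] at e7
  rw [← hb]
  have hb0 : 0 < b := by linarith
  have e8 : b * b + 1 ≤ (2 + δ ^ 2) * b := by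
    have h7 := mul_le_mul_of_nonneg_right e7 hb0.le
    rw [add_mul, inv_mul_cancel₀ hb0.ne'] at h7
    exact h7
  by_contra hc
  push Not at hc
  have hδ2 : δ ^ 2 ≤ 1 := by nlinarith
  have hb3 : b ≤ 3 := by nlinarith
  nlinarith

private theorem HB_poly {q g : ℕ} {h : ℤ[X]} {θ : Fin g → ℝ} (hθ : IsAngles q h θ) {ζ : ℂ} (h0 : ζ ≠ 0) :
    (h.map (Int.castRingHom ℂ)).eval ((Real.sqrt q : ℂ) * (ζ + ζ⁻¹)) =
      (Real.sqrt q : ℂ) ^ g * ζ⁻¹ ^ g * PP θ ζ := by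
  have h1 : h.map (Int.castRingHom ℂ) = (h.map (Int.castRingHom ℝ)).map Complex.ofRealHom := by
    rw [Polynomial.map_map]
    congr 1
  unfold IsAngles at hθ
  rw [h1, hθ, Polynomial.map_prod, eval_prod]
  unfold PP
  have h2 : (Real.sqrt q : ℂ) ^ g * ζ⁻¹ ^ g = ∏ _j : Fin g, ((Real.sqrt q : ℂ) * ζ⁻¹) := by
    rw [Finset.prod_const, Finset.card_univ, Fintype.card_fin, mul_pow]
  rw [h2, ← Finset.prod_mul_distrib]
  refine Finset.prod_congr rfl fun j _ => ?_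
  rw [Polynomial.map_sub, Polynomial.map_X, Polynomial.map_C, eval_sub, eval_X, eval_C, Complex.ofRealHom_eq_coe]
  push_cast
  field_simp
  ring

private theorem HB_num : ∃ g₀ : ℕ, ∀ g : ℕ, g₀ ≤ g →
    2 * Real.exp (11 / 5) * (g : ℝ) ^ 4 * Real.exp ((g : ℝ) ^ (17 / 20 : ℝ)) ≤
      Real.exp ((g : ℝ) ^ (9 / 10 : ℝ)) := by
  have t0 : Filter.Tendsto (fun g : ℕ => (g : ℝ)) Filter.atTop Filter.atTop := tendsto_natCast_atTop_atTop
  have a1 : ∀ᶠ x : ℝ in Filter.atTop, 2 ≤ x ^ (1 / 20 : ℝ) :=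
    (tendsto_rpow_atTop (by norm_num : (0 : ℝ) < 1 / 20)).eventually_ge_atTop _
  have a2 : ∀ᶠ x : ℝ in Filter.atTop, ‖Real.log x‖ ≤ 1 / 16 * ‖x ^ (9 / 10 : ℝ)‖ :=
    (isLittleO_log_rpow_atTop (by norm_num : (0 : ℝ) < 9 / 10)).bound (by norm_num)
  have a3 : ∀ᶠ x : ℝ in Filter.atTop, 4 * (Real.log 2 + 11 / 5) ≤ x ^ (9 / 10 : ℝ) :=
    (tendsto_rpow_atTop (by norm_num : (0 : ℝ) < 9 / 10)).eventually_ge_atTop _
  have a4 := (a1.and (a2.and (a3.and (Filter.eventually_ge_atTop (1 : ℝ)))))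
  obtain ⟨g₀, hg₀⟩ := Filter.eventually_atTop.1 (t0.eventually a4)
  refine ⟨g₀, fun g hg => ?_⟩
  obtain ⟨b1, b2, b3, b4⟩ := hg₀ g hg
  have hx0 : (0 : ℝ) < g := by linarith
  have b5 : (g : ℝ) ^ (9 / 10 : ℝ) = (g : ℝ) ^ (17 / 20 : ℝ) * (g : ℝ) ^ (1 / 20 : ℝ) := by
    rw [← Real.rpow_add hx0]
    norm_num
  have b6 : (g : ℝ) ^ (17 / 20 : ℝ) * 2 ≤ (g : ℝ) ^ (9 / 10 : ℝ) := by
    rw [b5]
    exact mul_le_mul_of_nonneg_left b1 (Real.rpow_nonneg hx0.le _)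
  rw [Real.norm_of_nonneg (Real.rpow_nonneg hx0.le _), Real.norm_of_nonneg (Real.log_nonneg b4)] at b2
  have h1 : (2 : ℝ) = Real.exp (Real.log 2) := (Real.exp_log (by norm_num)).symm
  have h2 : (g : ℝ) ^ 4 = Real.exp (4 * Real.log g) := by
    rw [mul_comm, Real.exp_mul, Real.exp_log hx0]
    norm_cast
  have h3 : 2 * Real.exp (11 / 5) * (g : ℝ) ^ 4 * Real.exp ((g : ℝ) ^ (17 / 20 : ℝ)) =
      Real.exp (Real.log 2 + 11 / 5 + 4 * Real.log g + (g : ℝ) ^ (17 / 20 : ℝ)) := by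
    rw [Real.exp_add, Real.exp_add, Real.exp_add, ← h1, ← h2]
  rw [h3]
  exact Real.exp_le_exp.2 (by linarith)

theorem second_deriv (q : ℕ) (hq : 1 ≤ q) : ∃ g₀ : ℕ, ∀ g : ℕ, g₀ ≤ g → ∀ h ∈ Weil q g, Reg q g h →
    ∀ x : ℝ, |x| ≤ 2 * Real.sqrt q →
      |((h.derivative.derivative).map (Int.castRingHom ℝ)).eval x| ≤
        Real.exp ((g : ℝ) ^ (9 / 10 : ℝ)) * Real.sqrt q ^ g := by
  obtain ⟨g₁, hg₁⟩ := reg_bound
  obtain ⟨g₂, hg₂⟩ := HB_num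
  refine ⟨g₁ + g₂ + 1, fun g hg h _ hr x hx => ?_⟩
  have hg1 : 1 ≤ g := by omega
  have hgr : (0 : ℝ) < g := by exact_mod_cast hg1
  obtain ⟨θ, hθ, hE⟩ := hr
  have hM := fun ζ hζ => (hg₁ g (by omega) θ hE ζ hζ).2
  have hdisc := fun ζ hζ => HB_disc hg1 θ hM (ζ := ζ) hζ
  have hsq : 1 ≤ Real.sqrt q := by
    rw [← Real.sqrt_one]
    exact Real.sqrt_le_sqrt (by exact_mod_cast hq)
  have hs0 : 0 < Real.sqrt q := by linarith
  obtain ⟨F, hF⟩ : ∃ F : ℂ → ℂ, F = fun z => (h.map (Int.castRingHom ℂ)).eval z := ⟨_, rfl⟩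
  have hFd : Differentiable ℂ F := by
    rw [hF]
    exact Polynomial.differentiable _
  have hF2 : iteratedDeriv 2 F (x : ℂ) = ((((h.derivative.derivative).map (Int.castRingHom ℝ)).eval x : ℝ) : ℂ) := by
    have h1 : deriv F = fun z => ((h.derivative).map (Int.castRingHom ℂ)).eval z := by
      funext z
      rw [hF, Polynomial.deriv, Polynomial.derivative_map]
    have h2 : deriv (deriv F) = fun z => ((h.derivative.derivative).map (Int.castRingHom ℂ)).eval z := by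
      rw [h1]
      funext z
      rw [Polynomial.deriv, Polynomial.derivative_map]
    rw [show (2 : ℕ) = 1 + 1 from rfl, iteratedDeriv_succ, iteratedDeriv_one, h2]
    have h3 : (h.derivative.derivative).map (Int.castRingHom ℂ) =
        ((h.derivative.derivative).map (Int.castRingHom ℝ)).map Complex.ofRealHom := by
      rw [Polynomial.map_map]
      congr 1
    simp only
    rw [h3]
    exact Polynomial.eval_map_apply Complex.ofRealHom x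
  have hρ : 0 < Real.sqrt q * ((g : ℝ)⁻¹) ^ 2 := by positivity
  have hC : ∀ z ∈ Metric.sphere (x : ℂ) (Real.sqrt q * ((g : ℝ)⁻¹) ^ 2), ‖F z‖ ≤
      Real.sqrt q ^ g * (Real.exp (11 / 5) * Real.exp ((g : ℝ) ^ (17 / 20 : ℝ))) := by
    intro z hz
    rw [mem_sphere_iff_norm] at hz
    have hsc : (Real.sqrt q : ℂ) ≠ 0 := by exact_mod_cast hs0.ne'
    have ht : |x / Real.sqrt q| ≤ 2 := by
      rw [abs_div, abs_of_pos hs0, div_le_iff₀ hs0]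
      exact hx
    have hw : ‖z / (Real.sqrt q : ℂ) - ((x / Real.sqrt q : ℝ) : ℂ)‖ ≤ ((g : ℝ)⁻¹) ^ 2 := by
      have h4 : z / (Real.sqrt q : ℂ) - ((x / Real.sqrt q : ℝ) : ℂ) = (z - x) / (Real.sqrt q : ℂ) := by
        push_cast
        ring
      rw [h4, norm_div, hz, Complex.norm_real, Real.norm_of_nonneg hs0.le, mul_div_assoc, mul_comm,
        div_mul_cancel₀ _ hs0.ne']
    have hδ1 : (g : ℝ)⁻¹ ≤ 1 := inv_le_one_of_one_le₀ (by exact_mod_cast hg1)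
    obtain ⟨ζ, z0, z1, z2, z3⟩ := HB_jou ht (by positivity) hδ1 hw
    have hzz : z = (Real.sqrt q : ℂ) * (ζ + ζ⁻¹) := by
      rw [z2]
      field_simp
    rw [hF]
    simp only
    rw [hzz, HB_poly hθ z0, norm_mul, norm_mul, norm_pow, norm_pow, Complex.norm_real,
      Real.norm_of_nonneg hs0.le, norm_inv, mul_assoc]
    refine mul_le_mul_of_nonneg_left ?_ (by positivity)
    have h5 : (‖ζ‖⁻¹) ^ g ≤ Real.exp 2 := by
      calc (‖ζ‖⁻¹) ^ g ≤ (1 + 2 * (g : ℝ)⁻¹) ^ g := pow_le_pow_left₀ (by positivity) z3 g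
        _ ≤ (Real.exp (2 * (g : ℝ)⁻¹)) ^ g :=
          pow_le_pow_left₀ (by positivity) (by linarith [Real.add_one_le_exp (2 * (g : ℝ)⁻¹)]) g
        _ = Real.exp 2 := by
          rw [← Real.exp_nat_mul]
          congr 1
          field_simp
    calc (‖ζ‖⁻¹) ^ g * ‖PP θ ζ‖ ≤ Real.exp 2 * (Real.exp (1 / 5) * Real.exp ((g : ℝ) ^ (17 / 20 : ℝ))) :=
          mul_le_mul h5 (hdisc ζ z1) (norm_nonneg _) (Real.exp_pos _).le
      _ = Real.exp (11 / 5) * Real.exp ((g : ℝ) ^ (17 / 20 : ℝ)) := by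
          rw [← mul_assoc, ← Real.exp_add]
          norm_num
  have hmain := Complex.norm_iteratedDeriv_le_of_forall_mem_sphere_norm_le 2 hρ hFd.diffContOnCl hC
  rw [hF2, Complex.norm_real, Real.norm_eq_abs] at hmain
  refine hmain.trans ?_
  rw [div_le_iff₀ (by positivity)]
  have h6 := hg₂ g (by omega)
  have h7 : ((2 : ℕ).factorial : ℝ) = 2 := by norm_num [Nat.factorial]
  rw [h7]
  have h8 : (Real.sqrt q * ((g : ℝ)⁻¹) ^ 2) ^ 2 * (g : ℝ) ^ 4 = Real.sqrt q ^ 2 := by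
    field_simp
  have h9 : 1 ≤ Real.sqrt q ^ 2 := one_le_pow₀ hsq
  have h10 : (g : ℝ)⁻¹ ^ 4 ≤ (Real.sqrt q * ((g : ℝ)⁻¹) ^ 2) ^ 2 := by
    have h11 : (Real.sqrt q * ((g : ℝ)⁻¹) ^ 2) ^ 2 = Real.sqrt q ^ 2 * (g : ℝ)⁻¹ ^ 4 := by ring
    rw [h11]
    exact le_mul_of_one_le_left (by positivity) h9
  have h12 : 2 * Real.exp (11 / 5) * Real.exp ((g : ℝ) ^ (17 / 20 : ℝ)) ≤
      Real.exp ((g : ℝ) ^ (9 / 10 : ℝ)) * (g : ℝ)⁻¹ ^ 4 := by
    have h13 : 2 * Real.exp (11 / 5) * Real.exp ((g : ℝ) ^ (17 / 20 : ℝ)) =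
        2 * Real.exp (11 / 5) * (g : ℝ) ^ 4 * Real.exp ((g : ℝ) ^ (17 / 20 : ℝ)) * (g : ℝ)⁻¹ ^ 4 := by
      field_simp
    rw [h13]
    exact mul_le_mul_of_nonneg_right h6 (by positivity)
  calc 2 * (Real.sqrt q ^ g * (Real.exp (11 / 5) * Real.exp ((g : ℝ) ^ (17 / 20 : ℝ))))
      = Real.sqrt q ^ g * (2 * Real.exp (11 / 5) * Real.exp ((g : ℝ) ^ (17 / 20 : ℝ))) := by ring
    _ ≤ Real.sqrt q ^ g * (Real.exp ((g : ℝ) ^ (9 / 10 : ℝ)) * (g : ℝ)⁻¹ ^ 4) :=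
        mul_le_mul_of_nonneg_left h12 (by positivity)
    _ ≤ Real.sqrt q ^ g * (Real.exp ((g : ℝ) ^ (9 / 10 : ℝ)) * (Real.sqrt q * ((g : ℝ)⁻¹) ^ 2) ^ 2) :=
        mul_le_mul_of_nonneg_left (mul_le_mul_of_nonneg_left h10 (Real.exp_pos _).le) (by positivity)
    _ = Real.exp ((g : ℝ) ^ (9 / 10 : ℝ)) * Real.sqrt q ^ g * (Real.sqrt q * ((g : ℝ)⁻¹) ^ 2) ^ 2 := by ring

end TQ
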