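import Pool.Agent.Lib.MP_021685_agTJ.JB1
import Pool.Agent.Lib.MP_021685_agTJ.JB2

/-! LEAF L3 (medium).  Rounding.  Adaptation of `MP_021685_agTJ/JB7.lean` (`round_mem`).

PROOF.  `s = √q > 1`, `b_i = round (x i)`.  As there: it is enough that `|∑_i (b_i - x_i) EE q g i j| < e s^g ≤ vv q g x j` for `j ≤ g` (`alt_mem`).  For `i = g - k`, `1 ≤ k ≤ J0`: `|x_i| ≤ d s^k ≤ d s^J0 < 1/2`, so `b_i = 0` (`round_eq_zero_iff` or `round_eq`, `abs_sub_round`) and
`|(b_i - x_i) EE q g i j| ≤ d s^k * 2 s^(g-k) = 2 d s^g` (`i ≥ 1` as `J0 < g`); these are `J0` indices, together at most `2 J0 d s^g ≤ (e/4) s^g`.  For `i < g - J0`: `|b_i - x_i| ≤ 1/2`, together at most `(1/2) (1 + ∑_(1≤i<g-J0) 2 s^i) < s^(g-J0)/(s-1) ≤ (e/4) s^g`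
(`JB7_geo` with `g - J0 ≥ 1` in place of `g`; `h1`).  The sum is less than `e s^g` (`e > 0` by `h1`). -/

namespace TQ

open Polynomial TI TJ

private theorem L3_geo (s : ℝ) : ∀ g : ℕ, 1 ≤ g →
    (s - 1) * ∑ i ∈ Finset.range g, (if i = 0 then (1 : ℝ) else 2 * s ^ i) = 2 * s ^ g - s - 1 := by
  intro g hg
  induction g, hg using Nat.le_induction with
  | base =>
    rw [Finset.sum_range_one, if_pos rfl]
    ring
  | succ g hg ih =>
    rw [Finset.sum_range_succ, mul_add, ih, if_neg (by omega)]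
    ring

private theorem L3_EE (q g i j : ℕ) : |EE q g i j| ≤ if i = 0 then (1 : ℝ) else 2 * Real.sqrt q ^ i := by
  split_ifs with h
  · rw [h, EE_zero, abs_one]
  · rw [EE_pos q g (Nat.pos_of_ne_zero h) j, abs_mul, abs_of_nonneg (by positivity : (0 : ℝ) ≤ 2 * Real.sqrt q ^ i)]
    exact mul_le_of_le_one_right (by positivity) (Real.abs_cos_le_one _)

theorem LB_round {q g J0 : ℕ} {e d : ℝ} (hq : 2 ≤ q) (hJ : J0 < g) (hd : 0 ≤ d)
    (h1 : 1 / (Real.sqrt q - 1) ≤ e / 4 * Real.sqrt q ^ J0) (h2 : Real.sqrt q ^ J0 * d < 1 / 2)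
    (h3 : 2 * (J0 : ℝ) * d ≤ e / 4) (x : Fin g → ℝ) (hx : ∀ j ≤ g, e * Real.sqrt q ^ g ≤ vv q g x j)
    (hp : ∀ (k : ℕ) (_ : 1 ≤ k) (_ : k ≤ J0), |x ⟨g - k, by omega⟩| ≤ d * Real.sqrt q ^ k) :
    bas q g + ∑ i : Fin g, C (round (x i)) * bas q i ∈ Weil q g := by
  have hs : 1 < Real.sqrt q := by
    rw [Real.lt_sqrt zero_le_one]
    have h2 : (2 : ℝ) ≤ (q : ℝ) := by exact_mod_cast hq
    linarith
  have hs0 : 0 < Real.sqrt q := by linarith
  have hs1 : 0 < Real.sqrt q - 1 := sub_pos.2 hs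
  have he : 0 < e := by
    have h3 : 0 < 1 / (Real.sqrt q - 1) := by positivity
    have h4 : 0 < e / 4 * Real.sqrt q ^ J0 := lt_of_lt_of_le h3 h1
    have h5 := (pos_iff_pos_of_mul_pos h4).2 (by positivity)
    linarith
  have hsg : 0 < Real.sqrt q ^ g := by positivity
  refine alt_mem (by omega) (by omega) _ ?_ ?_
  · rw [← Polynomial.mem_degreeLT]
    refine Submodule.sum_mem _ fun i _ => ?_
    rw [Polynomial.mem_degreeLT]
    refine lt_of_le_of_lt Polynomial.degree_le_natDegree ?_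
    have h1 : (C (round (x i)) * bas q i).natDegree ≤ i := by
      have h2 := natDegree_C_mul_le (round (x i)) (bas q i)
      rwa [(bas_monic q i).2] at h2
    exact_mod_cast lt_of_le_of_lt h1 i.2
  · intro j hj
    have hval : ((bas q g + ∑ i : Fin g, C (round (x i)) * bas q i).map (Int.castRingHom ℝ)).eval (node q g j) =
        EE q g g j + ∑ i : Fin g, (round (x i) : ℝ) * EE q g i j := by
      rw [Polynomial.map_add, eval_add, Polynomial.map_sum, eval_finsetSum]
      congr 1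
      refine Finset.sum_congr rfl fun i _ => ?_
      rw [Polynomial.map_mul, eval_mul, map_C, eval_C]
      rfl
    have hdec : (-1 : ℝ) ^ j * (EE q g g j + ∑ i : Fin g, (round (x i) : ℝ) * EE q g i j) =
        vv q g x j + (-1) ^ j * ∑ i : Fin g, ((round (x i) : ℝ) - x i) * EE q g i j := by
      unfold vv
      rw [← mul_add]
      congr 1
      rw [add_assoc, ← Finset.sum_add_distrib]
      congr 1
      refine Finset.sum_congr rfl fun i _ => ?_
      ring
    have hterm : ∀ i : Fin g, |((round (x i) : ℝ) - x i) * EE q g i j| ≤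
        if (i : ℕ) < g - J0 then 1 / 2 * (if (i : ℕ) = 0 then (1 : ℝ) else 2 * Real.sqrt q ^ (i : ℕ)) else
          2 * d * Real.sqrt q ^ g := by
      intro i
      by_cases hi : (i : ℕ) < g - J0
      · rw [if_pos hi, abs_mul, abs_sub_comm]
        exact mul_le_mul (abs_sub_round (x i)) (L3_EE q g i j) (abs_nonneg _) (by norm_num)
      · rw [if_neg hi]
        have hk1 : 1 ≤ g - (i : ℕ) := by omega
        have hk2 : g - (i : ℕ) ≤ J0 := by omega
        have hx1 := hp (g - (i : ℕ)) hk1 hk2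
        have hidx : (⟨g - (g - (i : ℕ)), by omega⟩ : Fin g) = i := Fin.ext (by simp only; omega)
        rw [hidx] at hx1
        have hpw : Real.sqrt q ^ (g - (i : ℕ)) ≤ Real.sqrt q ^ J0 := pow_le_pow_right₀ hs.le hk2
        have hx2 : |x i| < 1 / 2 := by
          refine lt_of_le_of_lt hx1 (lt_of_le_of_lt ?_ h2)
          rw [mul_comm]
          exact mul_le_mul_of_nonneg_right hpw hd
        have hr : round (x i) = 0 := by
          rw [round_eq_zero_iff]
          exact ⟨(neg_lt_of_abs_lt hx2).le, lt_of_abs_lt hx2⟩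
        rw [hr, Int.cast_zero, zero_sub, abs_mul, abs_neg]
        have hE := L3_EE q g i j
        rw [if_neg (by omega)] at hE
        have h3 := mul_le_mul hx1 hE (abs_nonneg _) (by positivity)
        refine h3.trans (le_of_eq ?_)
        have h4 : Real.sqrt q ^ g = Real.sqrt q ^ (g - (i : ℕ)) * Real.sqrt q ^ (i : ℕ) := by
          rw [← pow_add]
          congr 1
          omega
        rw [h4]
        ring
    have hb : |∑ i : Fin g, ((round (x i) : ℝ) - x i) * EE q g i j| ≤
        1 / 2 * ∑ i ∈ Finset.range (g - J0), (if i = 0 then (1 : ℝ) else 2 * Real.sqrt q ^ i) +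
          (J0 : ℝ) * (2 * d * Real.sqrt q ^ g) := by
      refine (Finset.abs_sum_le_sum_abs _ _).trans ((Finset.sum_le_sum fun i _ => hterm i).trans (le_of_eq ?_))
      rw [Fin.sum_univ_eq_sum_range (fun i : ℕ => if i < g - J0 then
        1 / 2 * (if i = 0 then (1 : ℝ) else 2 * Real.sqrt q ^ i) else 2 * d * Real.sqrt q ^ g) g]
      have hgJ : Finset.range g = Finset.range (g - J0 + J0) := by
        congr 1
        omega
      rw [hgJ, Finset.sum_range_add]
      congr 1
      · rw [Finset.mul_sum]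
        refine Finset.sum_congr rfl fun i hi => ?_
        rw [if_pos (Finset.mem_range.1 hi)]
      · rw [Finset.sum_congr rfl (fun i _ => if_neg (by omega)), Finset.sum_const, Finset.card_range, nsmul_eq_mul]
    have hlt : 1 / 2 * ∑ i ∈ Finset.range (g - J0), (if i = 0 then (1 : ℝ) else 2 * Real.sqrt q ^ i) <
        e / 4 * Real.sqrt q ^ g := by
      have h3 : 1 / 2 * ∑ i ∈ Finset.range (g - J0), (if i = 0 then (1 : ℝ) else 2 * Real.sqrt q ^ i) <
          Real.sqrt q ^ (g - J0) / (Real.sqrt q - 1) := by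
        rw [lt_div_iff₀ hs1]
        have h1 := L3_geo (Real.sqrt q) (g - J0) (by omega)
        nlinarith [h1, hs]
      refine lt_of_lt_of_le h3 ?_
      have h4 := mul_le_mul_of_nonneg_left h1 (by positivity : 0 ≤ Real.sqrt q ^ (g - J0))
      have h5 : Real.sqrt q ^ g = Real.sqrt q ^ (g - J0) * Real.sqrt q ^ J0 := by
        rw [← pow_add]
        congr 1
        omega
      rw [h5]
      calc Real.sqrt q ^ (g - J0) / (Real.sqrt q - 1) = Real.sqrt q ^ (g - J0) * (1 / (Real.sqrt q - 1)) := by ring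
        _ ≤ Real.sqrt q ^ (g - J0) * (e / 4 * Real.sqrt q ^ J0) := h4
        _ = e / 4 * (Real.sqrt q ^ (g - J0) * Real.sqrt q ^ J0) := by ring
    have hlt2 : (J0 : ℝ) * (2 * d * Real.sqrt q ^ g) ≤ e / 4 * Real.sqrt q ^ g := by
      have h4 := mul_le_mul_of_nonneg_right h3 hsg.le
      linarith
    rw [hval, hdec]
    have h1 : |(-1 : ℝ) ^ j * ∑ i : Fin g, ((round (x i) : ℝ) - x i) * EE q g i j| < e * Real.sqrt q ^ g := by
      rw [abs_mul, abs_pow, abs_neg, abs_one, one_pow, one_mul]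
      have h5 : 0 < e * Real.sqrt q ^ g := mul_pos he hsg
      linarith
    have h2 := neg_lt_of_abs_lt h1
    have h3 := hx j hj
    linarith

end TQ
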