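import Pool.Agent.Lib.MP_021685_agTJ.JB2

/-! LEAF L2 (medium).  Discrete orthogonality (inverse cosine transform).  Copy the private lemmas `JB2_tel, JB2_zero, JB2_W, JB2_W_congr, JB2_W_add, JB2_W_mul, JB2_W_sum, JB2_W_cos, JB2_sign` of `MP_021685_agTJ/JB2.lean` with the prefix `L2_`.

PROOF.  `θ_j = π j / g`, `s = √q`, `W f = f 0 / 2 + ∑_(0<j<g) f j + f g / 2`.
`LB_cos` is `JB2_W_cos`.  `LB_cos_sum`: the sum is `W (cos (k θ)) + (1 + cos (k π))/2 = (1 + (-1)^k)/2`.
`LB_dct`: as in the proof of `vv_sum`: `vv q g x j = 2 s^g + ∑_i x_i (-1)^j EE q g i j`, `(-1)^j = cos (g θ_j)`, `(-1)^j EE q g 0 j = cos (g θ_j)` and `(-1)^j EE q g i j = s^i (cos ((g+i) θ_j) + cos ((g-i) θ_j))` for `i ≥ 1`.  Multiply by `cos (k θ_j)`: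
`2 s^g cos (k θ)`: `W = 0`; `i = 0`: `(cos ((g+k)θ) + cos ((g-k)θ))/2`: `W = 0`; `i ≥ 1`: `cos ((g+i) θ) cos (kθ) = (cos ((g+i+k)θ) + cos ((g+i-k)θ))/2`, `cos ((g-i)θ) cos (kθ) = (cos ((g-i+k)θ) + cos ((g-i-k)θ))/2`, and
`cos ((g+i+k) θ_j) = cos ((g-i-k) θ_j)` because `(g+i+k) θ_j + (g-i-k) θ_j = 2 π j`.  `W` is zero for the frequencies `g+i-k`, `g-i+k` (strictly between `0` and `2g`) and for `g-i-k`, unless `i = g-k`, when `W = g`. -/

namespace TQ

open Polynomial TI TJ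

private theorem L2_tel (a : ℝ) (m : ℕ) :
    2 * Real.sin (a / 2) * ∑ j ∈ Finset.range m, Real.cos (a * j) =
      Real.sin (a * m - a / 2) + Real.sin (a / 2) := by
  induction m with
  | zero => simp [Real.sin_neg]
  | succ m ih =>
    rw [Finset.sum_range_succ, mul_add, ih]
    have h1 : Real.sin (a * ((m + 1 : ℕ) : ℝ) - a / 2) = Real.sin (a * m + a / 2) := by
      congr 1
      push_cast
      ring
    rw [h1, Real.sin_add, Real.sin_sub]
    ring

private theorem L2_zero {g : ℕ} (hg : 1 ≤ g) (n : ℤ) (hn : n ≠ 0) (hn1 : |n| < 2 * g) :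
    ∑ j ∈ Finset.range (2 * g), Real.cos (n * (Real.pi * j / g)) = 0 := by
  have hg0 : (g : ℝ) ≠ 0 := by positivity
  have h1 := L2_tel (n * Real.pi / g) (2 * g)
  have h2 : (n * Real.pi / g : ℝ) * ((2 * g : ℕ) : ℝ) - n * Real.pi / g / 2 =
      n * (2 * Real.pi) - n * Real.pi / g / 2 := by
    push_cast
    field_simp
  rw [h2, Real.sin_int_mul_two_pi_sub, neg_add_cancel] at h1
  have h3 : Real.sin (n * Real.pi / g / 2) ≠ 0 := by
    intro h
    rw [Real.sin_eq_zero_iff] at h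
    obtain ⟨k, hk⟩ := h
    have h4 : (k : ℝ) * (2 * g) = n := by
      have h5 := Real.pi_ne_zero
      field_simp at hk
      linarith
    have h5 : k * (2 * (g : ℤ)) = n := by exact_mod_cast h4
    have h6 : k = 0 := by
      by_contra hk0
      have h7 : 1 ≤ |k| := Int.one_le_abs hk0
      rw [← h5, abs_mul, abs_of_nonneg (by positivity : (0 : ℤ) ≤ 2 * g)] at hn1
      nlinarith
    rw [h6, zero_mul] at h5
    exact hn h5.symm
  have h4 : ∑ j ∈ Finset.range (2 * g), Real.cos (n * Real.pi / g * j) = 0 := by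
    rcases mul_eq_zero.1 h1 with h5 | h5
    · rcases mul_eq_zero.1 h5 with h6 | h6
      · norm_num at h6
      · exact absurd h6 h3
    · exact h5
  rw [← h4]
  refine Finset.sum_congr rfl fun j _ => ?_
  congr 1
  ring

private noncomputable def L2_W (g : ℕ) (f : ℕ → ℝ) : ℝ :=
  f 0 / 2 + ∑ j ∈ Finset.Ioo 0 g, f j + f g / 2

private theorem L2_W_congr {g : ℕ} {f h : ℕ → ℝ} (e : ∀ j, f j = h j) : L2_W g f = L2_W g h := by
  rw [show f = h from funext e]

private theorem L2_W_add (g : ℕ) (f h : ℕ → ℝ) :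
    L2_W g (fun j => f j + h j) = L2_W g f + L2_W g h := by
  unfold L2_W
  rw [Finset.sum_add_distrib]
  ring

private theorem L2_W_mul (g : ℕ) (c : ℝ) (f : ℕ → ℝ) :
    L2_W g (fun j => c * f j) = c * L2_W g f := by
  unfold L2_W
  rw [← Finset.mul_sum]
  ring

private theorem L2_W_sum (g : ℕ) {ι : Type} (s : Finset ι) (F : ι → ℕ → ℝ) :
    L2_W g (fun j => ∑ i ∈ s, F i j) = ∑ i ∈ s, L2_W g (F i) := by
  unfold L2_W
  rw [Finset.sum_comm, Finset.sum_add_distrib, Finset.sum_add_distrib, Finset.sum_div, Finset.sum_div]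

private theorem L2_W_cos {g : ℕ} (hg : 1 ≤ g) (n : ℤ) (hn : n ≠ 0) (hn1 : |n| < 2 * g) :
    L2_W g (fun j => Real.cos (n * (Real.pi * j / g))) = 0 := by
  have hg0 : (g : ℝ) ≠ 0 := by positivity
  obtain ⟨v, hv⟩ : ∃ v : ℕ → ℝ, ∀ j, v j = Real.cos (n * (Real.pi * j / g)) := ⟨_, fun _ => rfl⟩
  have h0 := L2_zero hg n hn hn1
  rw [Finset.sum_congr rfl fun j _ => (hv j).symm] at h0
  rw [L2_W_congr (h := v) fun j => (hv j).symm]
  have h4 : ∑ j ∈ Finset.Ioo g (2 * g), v j = ∑ j ∈ Finset.Ioo 0 g, v j := by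
    refine Finset.sum_nbij' (fun j => 2 * g - j) (fun j => 2 * g - j) ?_ ?_ ?_ ?_ ?_
    · intro j hj
      rw [Finset.mem_Ioo] at hj ⊢
      omega
    · intro j hj
      rw [Finset.mem_Ioo] at hj ⊢
      omega
    · intro j hj
      rw [Finset.mem_Ioo] at hj
      show 2 * g - (2 * g - j) = j
      omega
    · intro j hj
      rw [Finset.mem_Ioo] at hj
      show 2 * g - (2 * g - j) = j
      omega
    · intro j hj
      rw [Finset.mem_Ioo] at hj
      rw [hv, hv]
      rw [Nat.cast_sub (by omega)]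
      have h6 : (n : ℝ) * (Real.pi * (((2 * g : ℕ) : ℝ) - j) / g) =
          n * (2 * Real.pi) - n * (Real.pi * j / g) := by
        push_cast
        field_simp
      rw [h6, Real.cos_int_mul_two_pi_sub]
  have h5 : ∑ j ∈ Finset.range (2 * g), v j =
      v 0 + ∑ j ∈ Finset.Ioo 0 g, v j + v g + ∑ j ∈ Finset.Ioo g (2 * g), v j := by
    have e1 : Finset.range (2 * g) =
        insert 0 (insert g (Finset.Ioo 0 g ∪ Finset.Ioo g (2 * g))) := by
      ext j
      rw [Finset.mem_range, Finset.mem_insert, Finset.mem_insert, Finset.mem_union, Finset.mem_Ioo,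
        Finset.mem_Ioo]
      omega
    rw [e1, Finset.sum_insert, Finset.sum_insert, Finset.sum_union]
    · ring
    · rw [Finset.disjoint_left]
      intro j h6 h7
      rw [Finset.mem_Ioo] at h6 h7
      omega
    · rw [Finset.mem_union, Finset.mem_Ioo, Finset.mem_Ioo]
      omega
    · rw [Finset.mem_insert, Finset.mem_union, Finset.mem_Ioo, Finset.mem_Ioo]
      omega
  rw [h4] at h5
  rw [h5] at h0
  unfold L2_W
  linarith

private theorem L2_sign {g : ℕ} (hg : 1 ≤ g) (j : ℕ) :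
    ((-1) ^ j : ℝ) = Real.cos (g * (Real.pi * j / g)) := by
  have hg0 : (g : ℝ) ≠ 0 := by positivity
  rw [← Real.cos_nat_mul_pi]
  congr 1
  field_simp

private theorem L2_W_one {g : ℕ} (hg : 1 ≤ g) : L2_W g (fun _ => 1) = g := by
  unfold L2_W
  rw [Finset.sum_const, Nat.card_Ioo, nsmul_eq_mul, mul_one, Nat.sub_zero, Nat.cast_sub hg]
  push_cast
  ring

private theorem L2_four {q g i k : ℕ} (hg : 1 ≤ g) (hi : 1 ≤ i) (j : ℕ) :
    (-1) ^ j * EE q g i j * Real.cos (((k : ℤ) : ℝ) * (Real.pi * j / g)) = Real.sqrt q ^ i *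
      (Real.cos ((((g : ℤ) - (i : ℤ) - (k : ℤ) : ℤ) : ℝ) * (Real.pi * j / g)) +
        (1 / 2) * (Real.cos ((((g : ℤ) + (i : ℤ) - (k : ℤ) : ℤ) : ℝ) * (Real.pi * j / g)) +
          Real.cos ((((g : ℤ) - (i : ℤ) + (k : ℤ) : ℤ) : ℝ) * (Real.pi * j / g)))) := by
  have hg0 : (g : ℝ) ≠ 0 := by positivity
  obtain ⟨t, ht⟩ : ∃ t : ℝ, t = Real.pi * j / g := ⟨_, rfl⟩
  have hs : Real.sin (g * t) = 0 := by
    have h1 : (g * t : ℝ) = j * Real.pi := by
      rw [ht]
      field_simp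
    rw [h1, Real.sin_nat_mul_pi]
  rw [EE_pos q g hi j, L2_sign hg j, ← ht]
  push_cast
  rw [sub_mul, sub_mul, sub_mul, add_mul, add_mul, sub_mul]
  simp only [Real.cos_sub, Real.cos_add, Real.sin_sub, Real.sin_add, hs]
  ring

theorem LB_cos {g n : ℕ} (hg : 1 ≤ g) (hn : 0 < n) (hn2 : n < 2 * g) :
    1 / 2 + ∑ j ∈ Finset.Ioo 0 g, Real.cos (n * (Real.pi * j / g)) + Real.cos (n * Real.pi) / 2 = 0 := by
  have hg0 : (g : ℝ) ≠ 0 := by positivity
  have h1 := L2_W_cos hg (n : ℤ) (by omega) (by rw [abs_of_nonneg (by omega)]; omega)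
  unfold L2_W at h1
  beta_reduce at h1
  have h2 : Real.pi * ((g : ℕ) : ℝ) / g = Real.pi := by
    field_simp
  rw [h2, Nat.cast_zero, mul_zero, zero_div, mul_zero, Real.cos_zero] at h1
  rw [Int.cast_natCast] at h1
  exact h1

theorem LB_cos_sum {g k : ℕ} (hk : 0 < k) (hkg : k < g) :
    0 ≤ ∑ j ∈ Finset.range (g + 1), Real.cos (k * (Real.pi * j / g)) ∧
      ∑ j ∈ Finset.range (g + 1), Real.cos (k * (Real.pi * j / g)) ≤ 1 := by
  have hg : 1 ≤ g := by omega
  have h1 := LB_cos hg hk (by omega)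
  have hg0 : (g : ℝ) ≠ 0 := by positivity
  have h2 : ∑ j ∈ Finset.range (g + 1), Real.cos (k * (Real.pi * j / g)) =
      1 + ∑ j ∈ Finset.Ioo 0 g, Real.cos (k * (Real.pi * j / g)) + Real.cos (k * Real.pi) := by
    have e1 : Finset.range (g + 1) = insert 0 (insert g (Finset.Ioo 0 g)) := by
      ext j
      rw [Finset.mem_range, Finset.mem_insert, Finset.mem_insert, Finset.mem_Ioo]
      omega
    have e2 : Real.pi * ((g : ℕ) : ℝ) / g = Real.pi := by
      field_simp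
    rw [e1, Finset.sum_insert, Finset.sum_insert, e2]
    · rw [Nat.cast_zero, mul_zero, zero_div, mul_zero, Real.cos_zero]
      ring
    · rw [Finset.mem_Ioo]
      omega
    · rw [Finset.mem_insert, Finset.mem_Ioo]
      omega
  have h3 := Real.neg_one_le_cos (k * Real.pi)
  have h4 := Real.cos_le_one (k * Real.pi)
  rw [h2]
  constructor <;> linarith

theorem LB_dct {q g k : ℕ} (hk : 0 < k) (hkg : k < g) (x : Fin g → ℝ) :
    vv q g x 0 / 2 + ∑ j ∈ Finset.Ioo 0 g, vv q g x j * Real.cos (k * (Real.pi * j / g)) +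
      vv q g x g * Real.cos (k * Real.pi) / 2 = g * Real.sqrt q ^ (g - k) * x ⟨g - k, by omega⟩ := by
  have hg : 1 ≤ g := by omega
  have hg0 : (g : ℝ) ≠ 0 := by positivity
  have h0 : L2_W g (fun j => vv q g x j * Real.cos (((k : ℤ) : ℝ) * (Real.pi * j / g))) =
      g * Real.sqrt q ^ (g - k) * x ⟨g - k, by omega⟩ := by
    have e1 : ∀ j : ℕ, vv q g x j * Real.cos (((k : ℤ) : ℝ) * (Real.pi * j / g)) =
        2 * Real.sqrt q ^ g * Real.cos (((k : ℤ) : ℝ) * (Real.pi * j / g)) +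
          ∑ i : Fin g, x i * (((-1) ^ j * EE q g i j) * Real.cos (((k : ℤ) : ℝ) * (Real.pi * j / g))) := by
      intro j
      unfold vv
      rw [mul_add, add_mul, Finset.mul_sum, Finset.sum_mul]
      congr 1
      · rw [EE_pos q g hg j, ← L2_sign hg j]
        have h1 : ((-1 : ℝ) ^ j) * (-1) ^ j = 1 := by
          rw [← mul_pow]
          norm_num
        calc (-1) ^ j * (2 * Real.sqrt q ^ g * (-1) ^ j) * Real.cos (((k : ℤ) : ℝ) * (Real.pi * j / g)) =
            2 * Real.sqrt q ^ g * ((-1 : ℝ) ^ j * (-1) ^ j) * Real.cos (((k : ℤ) : ℝ) * (Real.pi * j / g)) := by ring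
          _ = 2 * Real.sqrt q ^ g * Real.cos (((k : ℤ) : ℝ) * (Real.pi * j / g)) := by rw [h1, mul_one]
      · refine Finset.sum_congr rfl fun i _ => ?_
        ring
    rw [L2_W_congr e1, L2_W_add, L2_W_mul, L2_W_sum,
      L2_W_cos hg (k : ℤ) (by omega) (by rw [abs_of_nonneg (by omega)]; omega), mul_zero, zero_add]
    rw [Finset.sum_eq_single (⟨g - k, by omega⟩ : Fin g)]
    · rw [L2_W_mul]
      have e2 : ∀ j : ℕ, (-1) ^ j * EE q g ((⟨g - k, by omega⟩ : Fin g) : ℕ) j *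
            Real.cos (((k : ℤ) : ℝ) * (Real.pi * j / g)) = Real.sqrt q ^ (g - k) *
            (1 + (1 / 2) * (Real.cos ((((g : ℤ) + ((g - k : ℕ) : ℤ) - (k : ℤ) : ℤ) : ℝ) * (Real.pi * j / g)) +
              Real.cos ((((g : ℤ) - ((g - k : ℕ) : ℤ) + (k : ℤ) : ℤ) : ℝ) * (Real.pi * j / g)))) := by
        intro j
        rw [L2_four hg (by show 1 ≤ g - k; omega) j]
        have h3 : (((g : ℤ) - ((g - k : ℕ) : ℤ) - (k : ℤ) : ℤ) : ℝ) = 0 := by
          have h4 : ((g : ℤ) - ((g - k : ℕ) : ℤ) - (k : ℤ) : ℤ) = 0 := by omega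
          rw [h4, Int.cast_zero]
        show Real.sqrt q ^ (g - k) * (Real.cos ((((g : ℤ) - ((g - k : ℕ) : ℤ) - (k : ℤ) : ℤ) : ℝ) *
          (Real.pi * j / g)) + _) = _
        rw [h3, zero_mul, Real.cos_zero]
      rw [L2_W_congr e2, L2_W_mul, L2_W_add, L2_W_one hg, L2_W_mul, L2_W_add,
        L2_W_cos hg _ (by omega) (by rw [abs_lt]; omega), L2_W_cos hg _ (by omega) (by rw [abs_lt]; omega)]
      ring
    · intro i _ hi
      have hi2 : (i : ℕ) ≠ g - k := fun h => hi (Fin.ext h)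
      have hi3 := i.2
      rw [L2_W_mul]
      by_cases hi0 : (i : ℕ) = 0
      · have e2 : ∀ j : ℕ, (-1) ^ j * EE q g i j * Real.cos (((k : ℤ) : ℝ) * (Real.pi * j / g)) =
            (1 / 2) * (Real.cos ((((g : ℤ) + (k : ℤ) : ℤ) : ℝ) * (Real.pi * j / g)) +
              Real.cos ((((g : ℤ) - (k : ℤ) : ℤ) : ℝ) * (Real.pi * j / g))) := by
          intro j
          rw [hi0, EE_zero, mul_one, L2_sign hg j]
          push_cast
          rw [sub_mul, add_mul, Real.cos_sub, Real.cos_add]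
          ring
        rw [L2_W_congr e2, L2_W_mul, L2_W_add,
          L2_W_cos hg _ (by omega) (by rw [abs_lt]; omega), L2_W_cos hg _ (by omega) (by rw [abs_lt]; omega)]
        ring
      · rw [L2_W_congr (L2_four hg (by omega)), L2_W_mul, L2_W_add, L2_W_mul, L2_W_add,
          L2_W_cos hg _ (by omega) (by rw [abs_lt]; omega), L2_W_cos hg _ (by omega) (by rw [abs_lt]; omega),
          L2_W_cos hg _ (by omega) (by rw [abs_lt]; omega)]
        ring
    · intro h
      exact absurd (Finset.mem_univ _) h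
  rw [← h0]
  unfold L2_W
  beta_reduce
  have e2 : Real.pi * ((g : ℕ) : ℝ) / g = Real.pi := by
    field_simp
  rw [e2, Nat.cast_zero, mul_zero, zero_div, mul_zero, Real.cos_zero, mul_one, Int.cast_natCast]

end TQ
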