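import Pool.Agent.Lib.MP_021685_agTQ.L1b
import Pool.Agent.Lib.MP_021685_agTQ.L2
import Pool.Agent.Lib.MP_021685_agTJ.JB4

/-! LEAF L4 (medium).  The volume of the good points of the simplex.

PROOF.  `volume (Sx g 1) ≥ ofReal (1/g!)` (`TJ.simplex_vol`).  For `1 ≤ k ≤ J0` (so `k < g`) let `c i = 2 cos (k π (i+1)/g)`, `F = Lc 1 2 c`, `Bad_k = {x ∈ Sx g 1 | δ < |F x|}`.  `2 + ∑ c i = 2 ∑_(j ≤ g) cos (k π j/g)` is in `[0, 2]` (`LB_cos_sum`, the term `j = 0` is `1`), and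
`2² + ∑ c i² ≤ 4 (g + 1)`, so `∫_(Sx g 1) F² ≤ (4 + 4 (g+1))/(g+2)! = 4/(g+1)!` (`LB_moments`), and by Markov's inequality (`mul_meas_ge_le_lintegral`, `ofReal_integral_eq_lintegral_ofReal`; `F` is continuous, `Sx g 1` compact) `volume Bad_k ≤ ofReal (4/(δ² (g+1)!))`.
`Sx g 1 ⊆ Gd g J0 δ ∪ ⋃_(k ∈ Icc 1 J0) Bad_k`, and `J0 * 4/(δ² (g+1)!) ≤ 1/(2 g!)` by `h`.  So `ofReal (1/g!) ≤ volume (Gd g J0 δ) + ofReal (1/(2 g!))`. -/

namespace TQ

open MeasureTheory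

private theorem L4_cont {n : ℕ} (c₀ : ℝ) (c : Fin n → ℝ) : Continuous (Lc 1 c₀ c) := by
  unfold Lc
  fun_prop

/-- Markov's inequality on the simplex -/
private theorem L4_markov {n : ℕ} (c : Fin n → ℝ) {δ M : ℝ} (hδ : 0 < δ)
    (hM : (∫ x in Sx n 1, Lc 1 2 c x ^ 2) ≤ M) :
    volume {x | x ∈ Sx n 1 ∧ δ < |Lc 1 2 c x|} ≤ ENNReal.ofReal (M / δ ^ 2) := by
  have hc : Continuous fun x => Lc 1 2 c x ^ 2 := (L4_cont 2 c).pow 2
  have hint : Integrable (fun x => Lc 1 2 c x ^ 2) (volume.restrict (Sx n 1)) :=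
    hc.continuousOn.integrableOn_compact (LB_compact n 1)
  have h1 := mul_meas_ge_le_integral_of_nonneg (μ := volume.restrict (Sx n 1))
    (f := fun x => Lc 1 2 c x ^ 2) (Filter.Eventually.of_forall fun x => sq_nonneg _) hint (δ ^ 2)
  have hms : MeasurableSet {x : Fin n → ℝ | δ ^ 2 ≤ Lc 1 2 c x ^ 2} :=
    measurableSet_le measurable_const hc.measurable
  have hfin : volume ({x : Fin n → ℝ | δ ^ 2 ≤ Lc 1 2 c x ^ 2} ∩ Sx n 1) ≠ ⊤ :=
    ((measure_mono Set.inter_subset_right).trans_lt (LB_compact n 1).measure_lt_top).ne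
  have h2 : (volume ({x : Fin n → ℝ | δ ^ 2 ≤ Lc 1 2 c x ^ 2} ∩ Sx n 1)).toReal ≤ M / δ ^ 2 := by
    rw [le_div_iff₀ (by positivity), mul_comm]
    refine le_trans (le_of_eq ?_) (h1.trans hM)
    rw [measureReal_def, Measure.restrict_apply hms]
  refine (measure_mono ?_).trans ((ENNReal.le_ofReal_iff_toReal_le hfin ?_).2 h2)
  · rintro x ⟨hx1, hx2⟩
    refine ⟨?_, hx1⟩
    show δ ^ 2 ≤ Lc 1 2 c x ^ 2
    rw [← sq_abs (Lc 1 2 c x)]
    exact pow_le_pow_left₀ hδ.le hx2.le 2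
  · exact le_trans ENNReal.toReal_nonneg h2

/-- the second moment of one cosine sum -/
private theorem L4_second {g k : ℕ} (hk : 0 < k) (hkg : k < g) :
    (∫ x in Sx g 1, Lc 1 2 (fun i : Fin g =>
      2 * Real.cos (k * (Real.pi * (((i : ℕ) + 1 : ℕ) : ℝ) / g))) x ^ 2) ≤
        4 / ((g + 1).factorial : ℝ) := by
  obtain ⟨_, _, h3⟩ := LB_moments g (zero_le_one) 2 (fun i : Fin g =>
      2 * Real.cos (k * (Real.pi * (((i : ℕ) + 1 : ℕ) : ℝ) / g)))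
  rw [h3, one_pow, one_mul]
  have hsum : 2 + ∑ i : Fin g, 2 * Real.cos (k * (Real.pi * (((i : ℕ) + 1 : ℕ) : ℝ) / g)) =
      2 * ∑ j ∈ Finset.range (g + 1), Real.cos (k * (Real.pi * j / g)) := by
    rw [Finset.sum_range_succ', ← Finset.mul_sum,
      Fin.sum_univ_eq_sum_range (fun i => Real.cos (k * (Real.pi * ((i + 1 : ℕ) : ℝ) / g))) g]
    simp
    ring
  obtain ⟨h4, h5⟩ := LB_cos_sum hk hkg
  have h6 : (2 + ∑ i : Fin g, 2 * Real.cos (k * (Real.pi * (((i : ℕ) + 1 : ℕ) : ℝ) / g))) ^ 2 ≤ 4 := by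
    rw [hsum]
    nlinarith
  have h7 : ∑ i : Fin g, (2 * Real.cos (k * (Real.pi * (((i : ℕ) + 1 : ℕ) : ℝ) / g))) ^ 2 ≤
      4 * (g : ℝ) := by
    calc ∑ i : Fin g, (2 * Real.cos (k * (Real.pi * (((i : ℕ) + 1 : ℕ) : ℝ) / g))) ^ 2
        ≤ ∑ _i : Fin g, (4 : ℝ) := by
          refine Finset.sum_le_sum fun i _ => ?_
          have := Real.cos_sq_le_one (k * (Real.pi * (((i : ℕ) + 1 : ℕ) : ℝ) / g))
          rw [mul_pow]
          linarith
      _ = 4 * g := by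
          rw [Finset.sum_const, Finset.card_univ, Fintype.card_fin, nsmul_eq_mul, mul_comm]
  have hf1 : ((g + 2).factorial : ℝ) = ((g : ℝ) + 2) * ((g + 1).factorial : ℝ) := by
    rw [Nat.factorial_succ (g + 1)]
    push_cast
    ring
  have hf0 : (0 : ℝ) < ((g + 1).factorial : ℝ) := by exact_mod_cast (g + 1).factorial_pos
  have hg2 : (0 : ℝ) < (g : ℝ) + 2 := by positivity
  rw [hf1, div_le_div_iff₀ (mul_pos hg2 hf0) hf0]
  have h8 : (2 + ∑ i : Fin g, 2 * Real.cos (k * (Real.pi * (((i : ℕ) + 1 : ℕ) : ℝ) / g))) ^ 2 +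
      (2 ^ 2 + ∑ i : Fin g, (2 * Real.cos (k * (Real.pi * (((i : ℕ) + 1 : ℕ) : ℝ) / g))) ^ 2) ≤
        4 * ((g : ℝ) + 2) := by linarith
  calc _ ≤ 4 * ((g : ℝ) + 2) * ((g + 1).factorial : ℝ) := mul_le_mul_of_nonneg_right h8 hf0.le
    _ = 4 * (((g : ℝ) + 2) * ((g + 1).factorial : ℝ)) := by ring

theorem LB_good {g J0 : ℕ} {δ : ℝ} (hJ : J0 < g) (hδ : 0 < δ) (h : 8 * (J0 : ℝ) ≤ δ ^ 2 * ((g : ℝ) + 1)) :
    ENNReal.ofReal (1 / (2 * (g.factorial : ℝ))) ≤ volume (Gd g J0 δ) := by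
  classical
  have hf0 : (0 : ℝ) < (g.factorial : ℝ) := by exact_mod_cast g.factorial_pos
  have hf1 : ((g + 1).factorial : ℝ) = ((g : ℝ) + 1) * (g.factorial : ℝ) := by
    rw [Nat.factorial_succ g]
    push_cast
    ring
  have hg1 : (0 : ℝ) < (g : ℝ) + 1 := by positivity
  let Bad : ℕ → Set (Fin g → ℝ) := fun k => {x | x ∈ Sx g 1 ∧ δ < |Lc 1 2 (fun i : Fin g =>
      2 * Real.cos (k * (Real.pi * (((i : ℕ) + 1 : ℕ) : ℝ) / g))) x|}
  have hBad : ∀ k ∈ Finset.Icc 1 J0, volume (Bad k) ≤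
      ENNReal.ofReal (4 / ((g + 1).factorial : ℝ) / δ ^ 2) := by
    intro k hk
    rw [Finset.mem_Icc] at hk
    exact L4_markov _ hδ (L4_second (by omega) (by omega))
  have hsub : Sx g 1 ⊆ Gd g J0 δ ∪ ⋃ k ∈ Finset.Icc 1 J0, Bad k := by
    intro x hx
    by_cases hgd : x ∈ Gd g J0 δ
    · exact Or.inl hgd
    · right
      by_contra hcon
      apply hgd
      refine ⟨hx, fun k hk1 hk2 => ?_⟩
      by_contra hlt
      apply hcon
      exact Set.mem_iUnion₂.2 ⟨k, Finset.mem_Icc.2 ⟨hk1, hk2⟩, hx, not_le.1 hlt⟩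
  have h1 : ENNReal.ofReal (1 ^ g / (g.factorial : ℝ)) ≤ volume (Sx g 1) :=
    TJ.simplex_vol g zero_le_one
  have h2 : volume (Sx g 1) ≤ volume (Gd g J0 δ) +
      ∑ k ∈ Finset.Icc 1 J0, volume (Bad k) :=
    (measure_mono hsub).trans ((measure_union_le _ _).trans
      (add_le_add le_rfl (measure_biUnion_finset_le _ _)))
  have h3 : ∑ k ∈ Finset.Icc 1 J0, volume (Bad k) ≤
      ENNReal.ofReal (1 / (2 * (g.factorial : ℝ))) := by
    refine (Finset.sum_le_sum hBad).trans ?_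
    rw [Finset.sum_const, Nat.card_Icc, Nat.add_sub_cancel, nsmul_eq_mul, ← ENNReal.ofReal_natCast,
      ← ENNReal.ofReal_mul (Nat.cast_nonneg _)]
    refine ENNReal.ofReal_le_ofReal ?_
    rw [hf1, div_div, mul_div_assoc', div_le_div_iff₀ (by positivity) (by positivity)]
    nlinarith [mul_le_mul_of_nonneg_right h hf0.le]
  have h4 : ENNReal.ofReal (1 ^ g / (g.factorial : ℝ)) =
      ENNReal.ofReal (1 / (2 * (g.factorial : ℝ))) + ENNReal.ofReal (1 / (2 * (g.factorial : ℝ))) := by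
    rw [← ENNReal.ofReal_add (by positivity) (by positivity), one_pow]
    congr 1
    field_simp
    norm_num
  rw [h4] at h1
  have h5 := (h1.trans h2).trans (add_le_add le_rfl h3)
  exact (ENNReal.add_le_add_iff_right ENNReal.ofReal_ne_top).1 h5

end TQ
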