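import Mathlib

/-! LEAF L5 (easy+, Mathlib only).  The volume of an affine preimage.  Adaptation of `MP_021685_agTJ/JB5.lean` (`vol_preimage`).

PROOF.  `MeasureTheory.Measure.addHaar_preimage_linearMap`, `MeasureTheory.measure_preimage_add_right`, `LinearMap.det_toLin'`: the volume of the preimage is `ofReal |(det A)⁻¹| * volume T`, and `D⁻¹ ≤ |det A|⁻¹`. -/

namespace TQ

theorem LB_pre {n : ℕ} (A : Matrix (Fin n) (Fin n) ℝ) (hA : A.det ≠ 0) (c : Fin n → ℝ) (T : Set (Fin n → ℝ)) {D : ℝ}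
    (hD : |A.det| ≤ D) :
    ENNReal.ofReal (1 / D) * MeasureTheory.volume T ≤
      MeasureTheory.volume {x : Fin n → ℝ | (fun i => A.mulVec x i + c i) ∈ T} := by
  have hS : {x : Fin n → ℝ | (fun i => A.mulVec x i + c i) ∈ T} =
      (Matrix.toLin' A) ⁻¹' ((fun y : Fin n → ℝ => y + c) ⁻¹' T) := by
    ext x
    simp only [Set.mem_ofPred_eq, Set.mem_preimage, Matrix.toLin'_apply]
    rfl
  have hdet : LinearMap.det (Matrix.toLin' A) ≠ 0 := by
    rw [LinearMap.det_toLin']
    exact hA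
  rw [hS, MeasureTheory.Measure.addHaar_preimage_linearMap _ hdet,
    MeasureTheory.measure_preimage_add_right, LinearMap.det_toLin']
  have h0 : 0 < |A.det| := abs_pos.2 hA
  refine mul_le_mul' (ENNReal.ofReal_le_ofReal ?_) le_rfl
  rw [abs_inv, one_div]
  exact inv_anti₀ h0 hD

end TQ
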