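import Mathlib

/-! LEAF L7 (easy+, Mathlib only).  The parameters.

PROOF.  `LB_params`: `s = √q > 1`, `s^J → ∞` gives `J0`; `d = min (1/(4 s^J0)) (1/(480 (J0 + 1)))` or so.
`LB_num`: `(g+1)/g ≤ 6/5` for `g ≥ 5`, so `r (g+1) ≤ 1/100`.
`LB_final`: with `D = √(2g)^g s^(g(g-1)/2)`: `(2 g s^g ρ)^g/(g! D) = ρ^g √(2g)^g s^(g(g+1)/2)/g!` (`(2g)^g = √(2g)^g √(2g)^g`, `g² = g(g-1)/2 + g(g+1)/2`; model: `JB9_eq` in `MP_021685_agTJ/JB9.lean`), and `ρ ≥ 99/100`. -/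

namespace TQ

theorem LB_params (q : ℕ) (hq : 2 ≤ q) : ∃ (J0 : ℕ) (d : ℝ), 0 < d ∧
    1 / (Real.sqrt q - 1) ≤ (1 / 60 : ℝ) / 4 * Real.sqrt q ^ J0 ∧ Real.sqrt q ^ J0 * d < 1 / 2 ∧
    2 * (J0 : ℝ) * d ≤ (1 / 60 : ℝ) / 4 := by
  have hs : 1 < Real.sqrt q := by
    rw [Real.lt_sqrt (by norm_num), one_pow]
    have : (2 : ℝ) ≤ q := by exact_mod_cast hq
    linarith
  obtain ⟨J0, hJ⟩ := pow_unbounded_of_one_lt (240 * (1 / (Real.sqrt q - 1))) hs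
  have hP : 0 < Real.sqrt q ^ J0 := pow_pos (by linarith) _
  have hJ0 : (0 : ℝ) ≤ J0 := Nat.cast_nonneg _
  refine ⟨J0, min (1 / (4 * Real.sqrt q ^ J0)) (1 / (480 * ((J0 : ℝ) + 1))), ?_, ?_, ?_, ?_⟩
  · exact lt_min (by positivity) (by positivity)
  · linarith
  · have h1 : Real.sqrt q ^ J0 * min (1 / (4 * Real.sqrt q ^ J0)) (1 / (480 * ((J0 : ℝ) + 1))) ≤
        Real.sqrt q ^ J0 * (1 / (4 * Real.sqrt q ^ J0)) :=
      mul_le_mul_of_nonneg_left (min_le_left _ _) hP.le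
    have h2 : Real.sqrt q ^ J0 * (1 / (4 * Real.sqrt q ^ J0)) = 1 / 4 := by
      field_simp
    rw [h2] at h1
    linarith
  · have h1 : 2 * (J0 : ℝ) * min (1 / (4 * Real.sqrt q ^ J0)) (1 / (480 * ((J0 : ℝ) + 1))) ≤
        2 * (J0 : ℝ) * (1 / (480 * ((J0 : ℝ) + 1))) :=
      mul_le_mul_of_nonneg_left (min_le_right _ _) (by linarith)
    refine h1.trans ?_
    rw [mul_one_div, div_le_iff₀ (by positivity)]
    linarith

theorem LB_num {g : ℕ} (hg : 5 ≤ g) : (99 / 100 : ℝ) ≤ 1 - ((g : ℝ) + 1) * ((1 / 60 : ℝ) / (2 * g)) := by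
  have h1 : (5 : ℝ) ≤ g := by exact_mod_cast hg
  have h2 : ((g : ℝ) + 1) * ((1 / 60 : ℝ) / (2 * g)) ≤ 1 / 100 := by
    rw [← mul_div_assoc, div_le_iff₀ (by linarith)]
    linarith
  linarith

theorem LB_final {g : ℕ} (hg : 1 ≤ g) {s ρ : ℝ} (hs : 0 < s) (hρ : 99 / 100 ≤ ρ) :
    s ^ (g * (g + 1) / 2) * (99 / 100 * Real.sqrt (2 * g)) ^ g / (g.factorial : ℝ) ≤
      1 / (Real.sqrt (2 * g) ^ g * s ^ (g * (g - 1) / 2) / (2 * (2 * g * s ^ g * ρ) ^ g)) *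
        (1 / (2 * (g.factorial : ℝ))) := by
  have hg0 : (0 : ℝ) < g := by exact_mod_cast hg
  have hw0 : 0 < Real.sqrt (2 * g) := Real.sqrt_pos.2 (by linarith)
  have hww : Real.sqrt (2 * g) ^ g * Real.sqrt (2 * g) ^ g = (2 * (g : ℝ)) ^ g := by
    rw [← mul_pow, Real.mul_self_sqrt (by linarith)]
  have hf : (0 : ℝ) < (g.factorial : ℝ) := by exact_mod_cast Nat.factorial_pos g
  have hexp : g * (g - 1) / 2 + g * (g + 1) / 2 = g * g := by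
    obtain ⟨m, rfl⟩ : ∃ m, g = m + 1 := ⟨g - 1, by omega⟩
    obtain ⟨a, ha⟩ := Nat.even_mul_succ_self m
    obtain ⟨b, hb⟩ := Nat.even_mul_succ_self (m + 1)
    have e1 : (m + 1) * (m + 1 - 1) = a + a := by rw [Nat.add_sub_cancel, ← ha, mul_comm]
    rw [e1, hb]
    have e2 : a + a + (b + b) = 2 * ((m + 1) * (m + 1)) := by rw [← ha, ← hb]; ring
    omega
  have hss : (s ^ g) ^ g = s ^ (g * (g - 1) / 2) * s ^ (g * (g + 1) / 2) := by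
    rw [← pow_mul, ← pow_add, hexp]
  have hD1 : 0 < s ^ (g * (g - 1) / 2) := pow_pos hs _
  have hD2 : 0 < Real.sqrt (2 * g) ^ g := pow_pos hw0 _
  have hρ0 : 0 < ρ := by linarith
  have hρg : 0 < ρ ^ g := pow_pos hρ0 _
  have hN : (2 * (g : ℝ) * s ^ g * ρ) ^ g = Real.sqrt (2 * g) ^ g * Real.sqrt (2 * g) ^ g *
      (s ^ (g * (g - 1) / 2) * s ^ (g * (g + 1) / 2)) * ρ ^ g := by
    rw [mul_pow, mul_pow, hww, hss]
  have hS2 : 0 < s ^ (g * (g + 1) / 2) := pow_pos hs _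
  have hR : 1 / (Real.sqrt (2 * g) ^ g * s ^ (g * (g - 1) / 2) / (2 * (2 * g * s ^ g * ρ) ^ g)) *
        (1 / (2 * (g.factorial : ℝ))) =
      s ^ (g * (g + 1) / 2) * (ρ ^ g * Real.sqrt (2 * g) ^ g) / (g.factorial : ℝ) := by
    rw [hN]
    generalize s ^ (g * (g - 1) / 2) = A at *
    generalize s ^ (g * (g + 1) / 2) = B at *
    generalize Real.sqrt (2 * g) ^ g = D at *
    generalize ρ ^ g = R at *
    field_simp
  rw [hR]
  refine div_le_div_of_nonneg_right ?_ hf.le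
  refine mul_le_mul_of_nonneg_left ?_ (pow_pos hs _).le
  rw [mul_pow]
  exact mul_le_mul_of_nonneg_right (pow_le_pow_left₀ (by norm_num) hρ g) hD2.le

end TQ
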