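import Pool.Agent.Lib.MP_021685_agTQ.L0
import Pool.Agent.Lib.MP_021685_agTQ.L2

/-! LEAF L8 (medium).  The preimage of the good points.

PROOF.  `s = √q > 0`, `τ j = vv q g x (j+1)/al q g ρ j - r/ρ` (`j : Fin g`).  So `vv q g x j = 2 g s^g (r + ρ τ (j-1))` for `0 < j < g` and `vv q g x g = 4 g s^g (r + ρ τ (g-1))`.  Put `τ₀ = 1 - ∑ τ j ≥ 0`.
By `vv_sum`: `vv q g x 0 / 2 = 2 g s^g (1 - ∑_j (r + ρ τ j)) = 2 g s^g (r + ρ τ₀)` (`1 - g r = ρ + r`).  As `τ j ≥ 0`, `τ₀ ≥ 0`, `ρ > 0`: all `vv q g x j ≥ 2 g s^g r = e s^g`.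
By `LB_dct`, for `1 ≤ k ≤ J0` (so `k < g`): `g s^(g-k) x_(g-k) = 2 g s^g (∑_(j=0)^g (r + ρ τ_j) cos (k π j/g))`, so `x_(g-k) = s^k (2 r ∑_(j ≤ g) cos (k π j/g) + ρ * Lc 1 2 (..) τ)`, of absolute value at most `s^k (2 r + ρ d/2) ≤ s^k d` (`LB_cos_sum`, `0 ≤ ρ ≤ 1`). -/

namespace TQ

open Polynomial TI TJ

private theorem L8_sum (f : ℕ → ℝ) {g : ℕ} (hg : 1 ≤ g) :
    ∑ j ∈ Finset.Ioo 0 g, f j + f g / 2 = ∑ j : Fin g, f ((j : ℕ) + 1) / (if (j : ℕ) + 1 = g then 2 else 1) := by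
  obtain ⟨n, rfl⟩ : ∃ n, g = n + 1 := ⟨g - 1, by omega⟩
  have h1 : Finset.Ioo 0 (n + 1) = (Finset.range n).image (fun j => j + 1) := by
    ext j
    simp only [Finset.mem_Ioo, Finset.mem_image, Finset.mem_range]
    constructor
    · rintro ⟨h1, h2⟩
      exact ⟨j - 1, by omega, by omega⟩
    · rintro ⟨i, hi, rfl⟩
      omega
  rw [h1, Finset.sum_image (fun a _ b _ h => by simpa using h), Fin.sum_univ_castSucc]
  have h2 : ((Fin.last n : Fin (n + 1)) : ℕ) + 1 = n + 1 := rfl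
  rw [h2, if_pos rfl, ← Fin.sum_univ_eq_sum_range (fun j => f (j + 1)) n]
  congr 1
  refine Finset.sum_congr rfl fun j _ => ?_
  have h3 : ((Fin.castSucc j : Fin (n + 1)) : ℕ) + 1 ≠ n + 1 := by
    have := j.2
    simp only [Fin.val_castSucc]
    omega
  rw [if_neg h3, div_one, Fin.val_castSucc]

theorem LB_incl {q g J0 : ℕ} {e d r ρ : ℝ} (hq : 2 ≤ q) (hJ : J0 < g) (he : 0 < e) (hr : r = e / (2 * g))
    (hρ : ρ = 1 - ((g : ℝ) + 1) * r) (hρ0 : 0 < ρ) (hd : 2 * r ≤ d / 2) (x : Fin g → ℝ)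
    (hx : (fun j : Fin g => vv q g x ((j : ℕ) + 1) / al q g ρ j - r / ρ) ∈ Gd g J0 (d / 2)) :
    (∀ j ≤ g, e * Real.sqrt q ^ g ≤ vv q g x j) ∧
      ∀ (k : ℕ) (_ : 1 ≤ k) (_ : k ≤ J0), |x ⟨g - k, by omega⟩| ≤ d * Real.sqrt q ^ k := by
  have hg : 1 ≤ g := by omega
  have hg0 : (0 : ℝ) < g := by exact_mod_cast hg
  have hs : 0 < Real.sqrt q := Real.sqrt_pos.2 (by exact_mod_cast (show 0 < q by omega))
  have hS : 0 < Real.sqrt q ^ g := pow_pos hs g
  have hr0 : 0 < r := by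
    rw [hr]
    positivity
  have her : e = 2 * g * r := by
    rw [hr]
    field_simp
  have hρ1 : ρ ≤ 1 := by
    rw [hρ]
    nlinarith
  obtain ⟨⟨hτ0, hτ1⟩, hcos⟩ := hx
  obtain ⟨τ, hτ⟩ : ∃ τ : Fin g → ℝ, τ = fun j : Fin g => vv q g x ((j : ℕ) + 1) / al q g ρ j - r / ρ := ⟨_, rfl⟩
  rw [← hτ] at hτ0 hτ1 hcos
  have hm : ∀ j : Fin g, (0 : ℝ) < (if (j : ℕ) + 1 = g then 2 else 1) := fun j => by
    split_ifs
    · norm_num
    · norm_num
  have hvv : ∀ j : Fin g, vv q g x ((j : ℕ) + 1) =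
      2 * g * Real.sqrt q ^ g * (r + ρ * τ j) * (if (j : ℕ) + 1 = g then 2 else 1) := by
    intro j
    have h1 : al q g ρ j ≠ 0 := by
      unfold al
      have := hm j
      positivity
    have h2 : vv q g x ((j : ℕ) + 1) = al q g ρ j * (τ j + r / ρ) := by
      rw [hτ]
      simp only
      rw [sub_add_cancel, mul_div_cancel₀ _ h1]
    rw [h2]
    unfold al
    field_simp
    ring
  -- the sum
  have hτs : ∀ c : Fin g → ℝ, ∑ j : Fin g, (2 * g * Real.sqrt q ^ g * (r + ρ * τ j)) * c j =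
      2 * g * Real.sqrt q ^ g * (r * ∑ j, c j + ρ * ∑ j, c j * τ j) := by
    intro c
    rw [Finset.mul_sum, Finset.mul_sum, ← Finset.sum_add_distrib, Finset.mul_sum]
    exact Finset.sum_congr rfl fun j _ => by ring
  have hdiv : ∀ (j : Fin g) (c : ℝ), vv q g x ((j : ℕ) + 1) * c / (if (j : ℕ) + 1 = g then 2 else 1) =
      (2 * g * Real.sqrt q ^ g * (r + ρ * τ j)) * c := by
    intro j c
    rw [hvv j]
    have := (hm j).ne'
    field_simp
  have h0 : vv q g x 0 / 2 = 2 * g * Real.sqrt q ^ g * (r + ρ * (1 - ∑ j, τ j)) := by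
    have h1 := vv_sum (q := q) hg x
    rw [add_assoc, L8_sum (fun j => vv q g x j) hg] at h1
    have h2 : ∑ j : Fin g, vv q g x ((j : ℕ) + 1) / (if (j : ℕ) + 1 = g then 2 else 1) =
        2 * g * Real.sqrt q ^ g * (r * g + ρ * ∑ j, τ j) := by
      have h3 := hτs (fun _ => 1)
      simp only [one_mul, Finset.sum_const, Finset.card_univ, Fintype.card_fin, nsmul_eq_mul, mul_one] at h3
      rw [← h3]
      refine Finset.sum_congr rfl fun j _ => ?_
      have h4 := hdiv j 1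
      rwa [mul_one, mul_one] at h4
    rw [h2] at h1
    have h5 : ρ + r = 1 - g * r := by
      rw [hρ]
      ring
    have h6 : vv q g x 0 / 2 = 2 * g * Real.sqrt q ^ g - 2 * g * Real.sqrt q ^ g * (r * g + ρ * ∑ j, τ j) := by linarith
    rw [h6]
    have h7 : r + ρ * (1 - ∑ j, τ j) = 1 - g * r - ρ * ∑ j, τ j := by
      rw [← h5]
      ring
    rw [h7]
    ring
  have hτ00 : 0 ≤ 1 - ∑ j, τ j := sub_nonneg.2 hτ1
  refine ⟨fun j hj => ?_, fun k hk1 hk2 => ?_⟩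
  · rcases Nat.eq_zero_or_pos j with rfl | hj0
    · have h1 : 0 ≤ 2 * (g : ℝ) * Real.sqrt q ^ g * (ρ * (1 - ∑ j, τ j)) := by positivity
      have h2 : 0 ≤ 2 * (g : ℝ) * Real.sqrt q ^ g * r := by positivity
      have h3 : vv q g x 0 = 2 * (2 * g * Real.sqrt q ^ g * r + 2 * g * Real.sqrt q ^ g * (ρ * (1 - ∑ j, τ j))) := by
        rw [← mul_add, ← h0]
        ring
      have h4 : e * Real.sqrt q ^ g = 2 * g * Real.sqrt q ^ g * r := by
        rw [her]
        ring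
      rw [h3, h4]
      linarith
    · obtain ⟨i, rfl⟩ : ∃ i, j = i + 1 := ⟨j - 1, by omega⟩
      have h1 := hvv ⟨i, by omega⟩
      simp only at h1
      rw [h1]
      have h2 : (1 : ℝ) ≤ (if i + 1 = g then 2 else 1) := by
        split_ifs
        · norm_num
        · norm_num
      have h3 : 0 ≤ ρ * τ ⟨i, by omega⟩ := mul_nonneg hρ0.le (hτ0 _)
      have h4 : e * Real.sqrt q ^ g ≤ 2 * g * Real.sqrt q ^ g * (r + ρ * τ ⟨i, by omega⟩) := by
        have h5 : e * Real.sqrt q ^ g = 2 * g * Real.sqrt q ^ g * r := by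
          rw [her]
          ring
        rw [h5]
        exact mul_le_mul_of_nonneg_left (by linarith) (by positivity)
      exact h4.trans (le_mul_of_one_le_right (by positivity) h2)
  · have hkg : k < g := by omega
    have h1 := LB_dct (q := q) (show 0 < k by omega) hkg x
    have h2 := L8_sum (fun j => vv q g x j * Real.cos (k * (Real.pi * j / g))) hg
    have h3 : Real.cos (k * (Real.pi * g / g)) = Real.cos (k * Real.pi) := by
      rw [mul_div_assoc, div_self hg0.ne', mul_one]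
    simp only [h3] at h2
    rw [add_assoc, h2] at h1
    have h4 := hτs (fun j : Fin g => Real.cos (k * (Real.pi * (((j : ℕ) + 1 : ℕ) : ℝ) / g)))
    have h5 : ∑ j : Fin g, vv q g x ((j : ℕ) + 1) * Real.cos (k * (Real.pi * (((j : ℕ) + 1 : ℕ) : ℝ) / g)) /
        (if (j : ℕ) + 1 = g then 2 else 1) = ∑ j : Fin g, (2 * g * Real.sqrt q ^ g * (r + ρ * τ j)) *
          Real.cos (k * (Real.pi * (((j : ℕ) + 1 : ℕ) : ℝ) / g)) :=
      Finset.sum_congr rfl fun j _ => hdiv j _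
    rw [h5, h4, h0] at h1
    obtain ⟨hc0, hc1⟩ := LB_cos_sum (show 0 < k by omega) hkg
    have h6 : ∑ j ∈ Finset.range (g + 1), Real.cos (k * (Real.pi * j / g)) =
        1 + ∑ j : Fin g, Real.cos (k * (Real.pi * (((j : ℕ) + 1 : ℕ) : ℝ) / g)) := by
      rw [Finset.sum_range_succ', add_comm, ← Fin.sum_univ_eq_sum_range (fun j => Real.cos (k * (Real.pi * ((j + 1 : ℕ) : ℝ) / g))) g]
      congr 1
      rw [Nat.cast_zero, mul_zero, zero_div, mul_zero, Real.cos_zero]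
    rw [h6] at hc0 hc1
    have h7 := hcos k hk1 hk2
    obtain ⟨cs, hcs⟩ : ∃ cs : ℝ, cs = ∑ j : Fin g, Real.cos (k * (Real.pi * (((j : ℕ) + 1 : ℕ) : ℝ) / g)) := ⟨_, rfl⟩
    obtain ⟨ct, hct⟩ : ∃ ct : ℝ, ct = ∑ j : Fin g, Real.cos (k * (Real.pi * (((j : ℕ) + 1 : ℕ) : ℝ) / g)) * τ j := ⟨_, rfl⟩
    have h8 : Lc 1 2 (fun i : Fin g => 2 * Real.cos (k * (Real.pi * (((i : ℕ) + 1 : ℕ) : ℝ) / g))) τ =
        2 * (1 - ∑ j, τ j) + 2 * ct := by
      unfold Lc
      rw [hct, Finset.mul_sum (s := Finset.univ) (a := (2 : ℝ))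
        (f := fun j : Fin g => Real.cos (k * (Real.pi * (((j : ℕ) + 1 : ℕ) : ℝ) / g)) * τ j)]
      congr 1
      exact Finset.sum_congr rfl fun j _ => mul_assoc _ _ _
    rw [h8] at h7
    rw [← hcs] at h1 hc0 hc1
    rw [← hct] at h1
    have h9 : Real.sqrt q ^ g = Real.sqrt q ^ (g - k) * Real.sqrt q ^ k := by
      rw [← pow_add]
      congr 1
      omega
    have hsk : 0 < Real.sqrt q ^ k := pow_pos hs k
    have hsgk : 0 < Real.sqrt q ^ (g - k) := pow_pos hs (g - k)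
    have h10 : x ⟨g - k, by omega⟩ =
        Real.sqrt q ^ k * (2 * r * (1 + cs) + ρ * (2 * (1 - ∑ j, τ j) + 2 * ct)) := by
      have h11 : (g * Real.sqrt q ^ (g - k)) * x ⟨g - k, by omega⟩ = (g * Real.sqrt q ^ (g - k)) *
          (Real.sqrt q ^ k * (2 * r * (1 + cs) + ρ * (2 * (1 - ∑ j, τ j) + 2 * ct))) := by
        rw [← h1, h9]
        ring
      exact mul_left_cancel₀ (by positivity) h11
    rw [h10, abs_mul, abs_of_pos hsk, mul_comm]
    refine mul_le_mul_of_nonneg_right ?_ hsk.le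
    have h12 : |2 * r * (1 + cs)| ≤ 2 * r := by
      rw [abs_of_nonneg (by positivity)]
      exact mul_le_of_le_one_right (by positivity) hc1
    have h13 : |ρ * (2 * (1 - ∑ j, τ j) + 2 * ct)| ≤ d / 2 := by
      rw [abs_mul, abs_of_pos hρ0]
      exact (mul_le_of_le_one_left (abs_nonneg _) hρ1).trans h7
    refine (abs_add_le _ _).trans ?_
    linarith

end TQ
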