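import Pool.Agent.Lib.MP_021685_agTQ.Defs
import Pool.Agent.Lib.MP_021685_agTQ.L3
import Pool.Agent.Lib.MP_021685_agTQ.L4
import Pool.Agent.Lib.MP_021685_agTQ.L5
import Pool.Agent.Lib.MP_021685_agTQ.L6
import Pool.Agent.Lib.MP_021685_agTQ.L7
import Pool.Agent.Lib.MP_021685_agTQ.L8
import Pool.Agent.Lib.MP_021685_agTJ.JB6

/-! INTERFACE of block LB: the lower bound for all `q ≥ 2`. -/

namespace TQ

open Polynomial TI

private theorem LB_prod_al (q : ℕ) {g : ℕ} (hg : 1 ≤ g) (ρ : ℝ) :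
    ∏ j : Fin g, al q g ρ j = 2 * (2 * g * Real.sqrt q ^ g * ρ) ^ g := by
  obtain ⟨m, rfl⟩ : ∃ m, g = m + 1 := ⟨g - 1, by omega⟩
  rw [Fin.prod_univ_castSucc]
  have h1 : ∀ i : Fin m, al q (m + 1) ρ (Fin.castSucc i) =
      2 * ((m + 1 : ℕ) : ℝ) * Real.sqrt q ^ (m + 1) * ρ := by
    intro i
    have h : ¬ ((Fin.castSucc i : Fin (m + 1)) : ℕ) + 1 = m + 1 := by
      have := i.isLt
      rw [Fin.val_castSucc]
      omega
    simp only [al]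
    rw [if_neg h, mul_one]
  have h2 : al q (m + 1) ρ (Fin.last m) =
      2 * ((m + 1 : ℕ) : ℝ) * Real.sqrt q ^ (m + 1) * ρ * 2 := by
    have h : ((Fin.last m : Fin (m + 1)) : ℕ) + 1 = m + 1 := by rw [Fin.val_last]
    simp only [al]
    rw [if_pos h]
  rw [Finset.prod_congr rfl fun i _ => h1 i, h2, Finset.prod_const, Finset.card_univ, Fintype.card_fin,
    pow_succ]
  ring

private theorem LB_mulVec {q g : ℕ} (a : Fin g → ℝ) (x : Fin g → ℝ) (r : ℝ) (j : Fin g) :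
    (Matrix.of fun j i : Fin g => (a j)⁻¹ * TJ.Am q g j i).mulVec x j +
      ((a j)⁻¹ * ((-1) ^ ((j : ℕ) + 1) * TJ.EE q g g ((j : ℕ) + 1)) - r) =
      TJ.vv q g x ((j : ℕ) + 1) / a j - r := by
  have h : (Matrix.of fun j i : Fin g => (a j)⁻¹ * TJ.Am q g j i).mulVec x j =
      (a j)⁻¹ * ((-1) ^ ((j : ℕ) + 1) * ∑ i : Fin g, x i * TJ.EE q g i ((j : ℕ) + 1)) := by
    rw [Finset.mul_sum, Finset.mul_sum]
    simp only [Matrix.mulVec, dotProduct, TJ.Am, Matrix.of_apply]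
    apply Finset.sum_congr rfl
    intro i _
    ring
  rw [h]
  unfold TJ.vv
  rw [div_eq_mul_inv]
  ring

theorem lower (q : ℕ) (hq : 2 ≤ q) : ∃ g₀ : ℕ, ∀ g : ℕ, g₀ ≤ g →
    Real.sqrt q ^ (g * (g + 1) / 2) * (99 / 100 * Real.sqrt (2 * g)) ^ g / (g.factorial : ℝ) ≤
      2 * ((Weil q g).ncard : ℝ) := by
  obtain ⟨J0, d, hd, h1, h2, h3⟩ := LB_params q hq
  refine ⟨5 + (J0 + 1) + ⌈8 * (J0 : ℝ) / (d / 2) ^ 2⌉₊ + ⌈(1 / 60 : ℝ) * 2 / d⌉₊, ?_⟩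
  intro g hg
  have hg5 : 5 ≤ g := by omega
  have hJ : J0 < g := by omega
  have hg1 : 1 ≤ g := by omega
  have hg0 : (0 : ℝ) < g := by exact_mod_cast hg1
  have hs : (0 : ℝ) < Real.sqrt q := Real.sqrt_pos.2 (by exact_mod_cast (by omega : 0 < q))
  have hd2 : (0 : ℝ) < (d / 2) ^ 2 := by positivity
  have hA : 8 * (J0 : ℝ) ≤ (d / 2) ^ 2 * ((g : ℝ) + 1) := by
    have h : 8 * (J0 : ℝ) / (d / 2) ^ 2 ≤ g :=
      (Nat.le_ceil _).trans (by exact_mod_cast (by omega : ⌈8 * (J0 : ℝ) / (d / 2) ^ 2⌉₊ ≤ g))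
    rw [div_le_iff₀ hd2] at h
    nlinarith
  obtain ⟨r, hr⟩ : ∃ r : ℝ, r = (1 / 60 : ℝ) / (2 * g) := ⟨_, rfl⟩
  obtain ⟨ρ, hρ⟩ : ∃ ρ : ℝ, ρ = 1 - ((g : ℝ) + 1) * r := ⟨_, rfl⟩
  have hρ1 : 99 / 100 ≤ ρ := by
    rw [hρ, hr]
    exact LB_num hg5
  have hρ0 : 0 < ρ := by linarith
  have hrd : 2 * r ≤ d / 2 := by
    have h : (1 / 60 : ℝ) * 2 / d ≤ g :=
      (Nat.le_ceil _).trans (by exact_mod_cast (by omega : ⌈(1 / 60 : ℝ) * 2 / d⌉₊ ≤ g))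
    rw [div_le_iff₀ hd] at h
    have h' : 2 * r = (1 / 60 : ℝ) / g := by
      rw [hr]
      field_simp
    rw [h', div_le_iff₀ hg0]
    linarith
  obtain ⟨hdet, hD⟩ := TJ.Am_det (q := q) (g := g) (by omega) hg1
  have hal : ∀ j : Fin g, al q g ρ j ≠ 0 := by
    intro j
    simp only [al]
    split_ifs <;> positivity
  have hdet' : (Matrix.of fun j i : Fin g => (al q g ρ j)⁻¹ * TJ.Am q g j i).det =
      (∏ j : Fin g, al q g ρ j)⁻¹ * (TJ.Am q g).det := by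
    rw [← Finset.prod_inv_distrib]
    exact Matrix.det_mul_column (fun j => (al q g ρ j)⁻¹) (TJ.Am q g)
  have hne : (Matrix.of fun j i : Fin g => (al q g ρ j)⁻¹ * TJ.Am q g j i).det ≠ 0 := by
    rw [hdet']
    exact mul_ne_zero (inv_ne_zero (Finset.prod_ne_zero_iff.2 fun j _ => hal j)) hdet
  have hle : |(Matrix.of fun j i : Fin g => (al q g ρ j)⁻¹ * TJ.Am q g j i).det| ≤
      Real.sqrt (2 * g) ^ g * Real.sqrt q ^ (g * (g - 1) / 2) /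
        (2 * (2 * g * Real.sqrt q ^ g * ρ) ^ g) := by
    rw [hdet', LB_prod_al q hg1 ρ, abs_mul, abs_inv,
      abs_of_pos (by positivity : (0 : ℝ) < 2 * (2 * g * Real.sqrt q ^ g * ρ) ^ g), inv_mul_eq_div]
    exact div_le_div_of_nonneg_right hD (by positivity)
  have hvol := LB_pre _ hne
    (fun j : Fin g => (al q g ρ j)⁻¹ * ((-1) ^ ((j : ℕ) + 1) * TJ.EE q g g ((j : ℕ) + 1)) - r / ρ)
    (Gd g J0 (d / 2)) hle
  have hcnt := LB_count (q := q)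
    {x : Fin g → ℝ | (fun i => (Matrix.of fun j i : Fin g => (al q g ρ j)⁻¹ * TJ.Am q g j i).mulVec x i +
      ((al q g ρ i)⁻¹ * ((-1) ^ ((i : ℕ) + 1) * TJ.EE q g g ((i : ℕ) + 1)) - r / ρ)) ∈ Gd g J0 (d / 2)}
    (by
      intro x hx
      have hx' : (fun j : Fin g => TJ.vv q g x ((j : ℕ) + 1) / al q g ρ j - r / ρ) ∈ Gd g J0 (d / 2) := by
        have h : (fun i => (Matrix.of fun j i : Fin g => (al q g ρ j)⁻¹ * TJ.Am q g j i).mulVec x i +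
            ((al q g ρ i)⁻¹ * ((-1) ^ ((i : ℕ) + 1) * TJ.EE q g g ((i : ℕ) + 1)) - r / ρ)) =
            (fun j : Fin g => TJ.vv q g x ((j : ℕ) + 1) / al q g ρ j - r / ρ) := by
          funext j
          exact LB_mulVec (al q g ρ) x (r / ρ) j
        rw [← h]
        exact hx
      obtain ⟨ha, hb⟩ := LB_incl hq hJ (by norm_num : (0 : ℝ) < 1 / 60) hr hρ hρ0 hrd x hx'
      exact LB_round hq hJ hd.le h1 h2 h3 x ha hb)
  have hgood := LB_good hJ (by positivity : (0 : ℝ) < d / 2) hA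
  have hfin := ((mul_le_mul' (le_refl (ENNReal.ofReal (1 / (Real.sqrt (2 * g) ^ g *
    Real.sqrt q ^ (g * (g - 1) / 2) / (2 * (2 * g * Real.sqrt q ^ g * ρ) ^ g))))) hgood).trans hvol).trans hcnt
  rw [← ENNReal.ofReal_mul (by positivity), ← ENNReal.ofReal_natCast] at hfin
  have hfin' := (ENNReal.ofReal_le_ofReal_iff (by positivity)).1 hfin
  have hlf := LB_final hg1 hs hρ1
  have hn : (0 : ℝ) ≤ ((Weil q g).ncard : ℝ) := Nat.cast_nonneg _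
  linarith [hlf.trans hfin']

end TQ
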