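import Pool.Agent.Lib.MP_021685_agTQ.Defs

/-! LEAF M17 (medium).  Numerical inequality for the regularity bound.

PROOF.  Let `E = exp(-(1/(10 g)))`, `ta g = (1 - 1/g²) E`, `ρ² ≤ E²`, so `ρ²/ta g ≤ E/(1 - 1/g²)`.  `E ≤ 1 - 1/(10g) + 1/(200 g²)` (`Real.exp_neg` bounds: `exp(-x) ≤ 1 - x + x²/2`, or `E ≤ 1/(1 + 1/(10 g))`), so `E/(1-1/g²) ≤ 1 - 1/(20 g) < 1` for `g ≥ 30`, in particular `ρ² < ta g`.
`1 - ρ²/ta g ≥ 1/(20 g)`, so `-log(1 - ρ²/ta g) ≤ log(20 g)`, and `2 g^(8/5) log(20 g) ≤ g^(17/10) = (g^(17/20))²` for large `g` (`log(20 g) = o(g^(1/10))`). -/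

namespace TQ

open Polynomial TI

private theorem M17_log : ∃ g₀ : ℕ, ∀ g : ℕ, g₀ ≤ g → 2 * Real.log (20 * (g : ℝ)) ≤ (g : ℝ) ^ (1 / 10 : ℝ) := by
  have h1 : ∀ᶠ x : ℝ in Filter.atTop, 2 * Real.log (20 * x) ≤ x ^ (1 / 10 : ℝ) := by
    have h2 := (isLittleO_log_rpow_atTop (by norm_num : (0 : ℝ) < 1 / 10)).bound
      (by norm_num : (0 : ℝ) < 1 / 4)
    have h3 := (tendsto_rpow_atTop (by norm_num : (0 : ℝ) < 1 / 10)).eventually_ge_atTop (4 * Real.log 20)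
    filter_upwards [h2, h3, Filter.eventually_ge_atTop 1] with x hx1 hx2 hx3
    have hx0 : 0 < x := by linarith
    rw [Real.norm_of_nonneg (Real.log_nonneg hx3), Real.norm_of_nonneg (Real.rpow_nonneg hx0.le _)] at hx1
    rw [Real.log_mul (by norm_num) hx0.ne']
    linarith
  obtain ⟨g₀, hg⟩ := Filter.eventually_atTop.1 (tendsto_natCast_atTop_atTop.eventually h1)
  exact ⟨g₀, hg⟩

theorem reg_num : ∃ g₀ : ℕ, ∀ g : ℕ, g₀ ≤ g → ∀ ρ : ℝ, 0 ≤ ρ → ρ ≤ Real.exp (-(1 / (10 * (g : ℝ)))) →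
    ρ ^ 2 < ta g ∧ 0 ≤ -(Real.log (1 - ρ ^ 2 / ta g)) ∧
      2 * (g : ℝ) ^ (8 / 5 : ℝ) * -(Real.log (1 - ρ ^ 2 / ta g)) ≤ ((g : ℝ) ^ (17 / 20 : ℝ)) ^ 2 := by
  obtain ⟨g₀, hg₀⟩ := M17_log
  refine ⟨max g₀ 30, fun g hg ρ hρ0 hρ => ?_⟩
  have hga : g₀ ≤ g := (le_max_left _ _).trans hg
  have hgb : 30 ≤ g := (le_max_right _ _).trans hg
  have hlog := hg₀ g hga
  have hgr : (30 : ℝ) ≤ (g : ℝ) := by exact_mod_cast hgb
  unfold ta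
  obtain ⟨x, hx⟩ : ∃ x : ℝ, x = (g : ℝ) := ⟨_, rfl⟩
  rw [← hx] at hρ hlog hgr ⊢
  have hx0 : 0 < x := by linarith
  obtain ⟨E, hE⟩ : ∃ E : ℝ, E = Real.exp (-(1 / (10 * x))) := ⟨_, rfl⟩
  rw [← hE] at hρ ⊢
  have hE0 : 0 < E := by rw [hE]; exact Real.exp_pos _
  -- the bound of `E`
  have hE1 : E * (1 + 1 / (10 * x)) ≤ 1 := by
    have h1 : 1 / (10 * x) + 1 ≤ Real.exp (1 / (10 * x)) := Real.add_one_le_exp _
    have h2 : E * Real.exp (1 / (10 * x)) = 1 := by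
      rw [hE, ← Real.exp_add, neg_add_cancel, Real.exp_zero]
    exact (mul_le_mul_of_nonneg_left (by linarith) hE0.le).trans h2.le
  have hE2 : E * (10 * x + 1) ≤ 10 * x := by
    have h1 : E * (10 * x + 1) = E * (1 + 1 / (10 * x)) * (10 * x) := by
      field_simp
    rw [h1]
    have := mul_le_mul_of_nonneg_right hE1 (by positivity : (0 : ℝ) ≤ 10 * x)
    linarith
  have hx2 : 0 < x ^ 2 := by positivity
  have hE3 : E ≤ (1 - 1 / (20 * x)) * (1 - 1 / x ^ 2) := by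
    have h1 : 0 < 10 * x + 1 := by linarith
    have h2 : E ≤ 10 * x / (10 * x + 1) := by
      rw [le_div_iff₀ h1]
      exact hE2
    refine h2.trans ?_
    rw [div_le_iff₀ h1]
    have h3 : (1 - 1 / (20 * x)) * (1 - 1 / x ^ 2) * (10 * x + 1) - 10 * x =
        (10 * x ^ 3 - 201 * x ^ 2 - 10 * x + 1) / (20 * x ^ 3) := by
      field_simp
      ring
    have h4 : 0 ≤ (10 * x ^ 3 - 201 * x ^ 2 - 10 * x + 1) / (20 * x ^ 3) := by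
      refine div_nonneg ?_ (by positivity)
      nlinarith [mul_nonneg hx2.le (by linarith : (0 : ℝ) ≤ x - 30), mul_nonneg hx0.le (by linarith : (0 : ℝ) ≤ x - 30)]
    linarith
  have hc : 0 < 1 - 1 / x ^ 2 := by
    have h1 : 1 / x ^ 2 < 1 := by
      rw [div_lt_one hx2]
      nlinarith
    linarith
  have hta : 0 < (1 - 1 / x ^ 2) * E := mul_pos hc hE0
  have hr : ρ ^ 2 / ((1 - 1 / x ^ 2) * E) ≤ 1 - 1 / (20 * x) := by
    rw [div_le_iff₀ hta]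
    have h1 : ρ ^ 2 ≤ E * E := by
      rw [pow_two]
      exact mul_le_mul hρ hρ hρ0 hE0.le
    have h2 := mul_le_mul_of_nonneg_right hE3 hE0.le
    calc ρ ^ 2 ≤ E * E := h1
      _ ≤ (1 - 1 / (20 * x)) * (1 - 1 / x ^ 2) * E := h2
      _ = (1 - 1 / (20 * x)) * ((1 - 1 / x ^ 2) * E) := by ring
  have h20 : 0 < 1 / (20 * x) := by positivity
  have hr0 : 0 ≤ ρ ^ 2 / ((1 - 1 / x ^ 2) * E) := by positivity
  obtain ⟨r, hrd⟩ : ∃ r : ℝ, r = ρ ^ 2 / ((1 - 1 / x ^ 2) * E) := ⟨_, rfl⟩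
  have hlt : ρ ^ 2 < (1 - 1 / x ^ 2) * E := by
    have h1 : ρ ^ 2 / ((1 - 1 / x ^ 2) * E) < 1 := by linarith
    rwa [div_lt_one hta] at h1
  rw [← hrd] at hr hr0 ⊢
  have h1r : 1 / (20 * x) ≤ 1 - r := by linarith
  have hL0 : 0 ≤ -(Real.log (1 - r)) := by
    have := Real.log_nonpos (by linarith : (0 : ℝ) ≤ 1 - r) (by linarith)
    linarith
  have hL1 : -(Real.log (1 - r)) ≤ Real.log (20 * x) := by
    have h1 := Real.log_le_log h20 h1r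
    rw [one_div, Real.log_inv] at h1
    linarith
  refine ⟨hlt, hL0, ?_⟩
  have h3 : (x ^ (17 / 20 : ℝ)) ^ 2 = x ^ (8 / 5 : ℝ) * x ^ (1 / 10 : ℝ) := by
    rw [pow_two, ← Real.rpow_add hx0, ← Real.rpow_add hx0]
    norm_num
  rw [h3]
  have h4 : 0 ≤ x ^ (8 / 5 : ℝ) := Real.rpow_nonneg hx0.le _
  calc 2 * x ^ (8 / 5 : ℝ) * -(Real.log (1 - r)) = x ^ (8 / 5 : ℝ) * (2 * -(Real.log (1 - r))) := by ring
    _ ≤ x ^ (8 / 5 : ℝ) * x ^ (1 / 10 : ℝ) := mul_le_mul_of_nonneg_left (by linarith) h4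

end TQ
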