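import Pool.Agent.Lib.MP_021685_agTQ.M16
import Pool.Agent.Lib.MP_021685_agTQ.M17

/-! LEAF M18 (easy+, assembly).  The two-sided bound.

PROOF.  `g₀` = the maximum of that of `reg_num` and `2`.  `ρ = ‖ζ‖`: `reg_num` gives `ρ² < ta g`, so `log_PP_sq` applies; `-(2 log (En θ)) ≤ 2 g^(8/5)` (`Real.le_log_iff_exp_le`, `En_pos`), so `(log ‖PP θ ζ‖)² ≤ 2 g^(8/5) * -(log(..)) ≤ (g^(17/20))²`, `|log ‖PP θ ζ‖| ≤ g^(17/20)` (`abs_le_of_sq_le_sq`).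
`‖PP θ ζ‖ > 0` by `PP_ne_zero` (`ρ < 1` as `ρ ≤ exp(-(1/(10 g))) < 1`); `Real.log_le_iff_le_exp`, `Real.le_log_iff_exp_le`. -/

namespace TQ

open Polynomial TI

/-- two-sided bound in the disc of radius `exp (-1/(10 g))` -/
theorem reg_bound : ∃ g₀ : ℕ, ∀ g : ℕ, g₀ ≤ g → ∀ θ : Fin g → ℝ,
    Real.exp (-((g : ℝ) ^ (8 / 5 : ℝ))) ≤ En θ → ∀ ζ : ℂ, ‖ζ‖ ≤ Real.exp (-(1 / (10 * (g : ℝ)))) →
      Real.exp (-((g : ℝ) ^ (17 / 20 : ℝ))) ≤ ‖PP θ ζ‖ ∧ ‖PP θ ζ‖ ≤ Real.exp ((g : ℝ) ^ (17 / 20 : ℝ)) := by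
  obtain ⟨g₀, h0⟩ := reg_num
  refine ⟨max g₀ 2, fun g hg θ hE ζ hζ => ?_⟩
  have hg2 : 2 ≤ g := le_trans (le_max_right _ _) hg
  obtain ⟨h1, h2, h3⟩ := h0 g (le_trans (le_max_left _ _) hg) ‖ζ‖ (norm_nonneg _) hζ
  have hgR : (0 : ℝ) < g := by positivity
  have hz1 : ‖ζ‖ < 1 := lt_of_le_of_lt hζ (by rw [Real.exp_lt_one_iff]; simp; positivity)
  have hp : 0 < ‖PP θ ζ‖ := norm_pos_iff.2 (PP_ne_zero θ hz1)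
  have hE2 : -(2 * Real.log (En θ)) ≤ 2 * (g : ℝ) ^ (8 / 5 : ℝ) := by
    have := (Real.le_log_iff_exp_le (En_pos (by omega) θ)).2 hE
    linarith
  have h4 := log_PP_sq hg2 θ h1
  have h5 : (Real.log ‖PP θ ζ‖) ^ 2 ≤ ((g : ℝ) ^ (17 / 20 : ℝ)) ^ 2 :=
    h4.trans ((mul_le_mul_of_nonneg_right hE2 h2).trans h3)
  have h6 := abs_le_of_sq_le_sq' h5 (by positivity)
  exact ⟨(Real.le_log_iff_exp_le hp).1 h6.1, (Real.log_le_iff_le_exp hp).1 h6.2⟩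

end TQ
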