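import Pool.Agent.Lib.MP_021685_agTQ.M13
import Pool.Agent.Lib.MP_021685_agTQ.M18

/-! Block ML: macroscopic regularity (`TQ.irregular_count`, `TQ.reg_bound`). -/
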