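import Pool.Agent.Lib.MP_021685_agTQ.F0

/-!
LEAF F10.  Hadamard's inequality for the Gram matrix.
`G = (Gm i j)` is symmetric and positive semidefinite: `∑ x_i x_j Gm i j = ∫ (∑ x_i A_i)² sin t ≥ 0` (`sin t ≥ 0` on `[0, π]`).  `det G ≥ 0` (`Matrix.PosSemidef.det_nonneg`) and `det G ≤ ∏ G_ii`.  For the last inequality:
write `G = Bᵀ B` (`Matrix.posSemidef_iff_eq_conjTranspose_mul_self` or the current name) and use Hadamard's inequality for `B`, or: if some `G_ii = 0` the row is zero; otherwise scale to `G_ii = 1` and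
`det G = ∏ λ_i ≤ (∑ λ_i / n)^n = 1` by the arithmetic-geometric mean inequality for the eigenvalues (`Matrix.IsHermitian.det_eq_prod_eigenvalues`, `Matrix.IsHermitian.trace_eq_sum_eigenvalues`, `Real.inner_le_nnorm_mul_nnorm`..,
`Real.geom_mean_le_arith_mean_weighted`); or search Mathlib for a Hadamard inequality.
-/

set_option autoImplicit false

namespace TQ

private theorem F10_had {n : ℕ} (A : Matrix (Fin n) (Fin n) ℝ) :
    |A.det| ≤ ∏ j, Real.sqrt (∑ i, A i j ^ 2) := by
  classical
  have : Fact (Module.finrank ℝ (EuclideanSpace ℝ (Fin n)) = n) := ⟨by simp⟩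
  let b : OrthonormalBasis (Fin n) ℝ (EuclideanSpace ℝ (Fin n)) := EuclideanSpace.basisFun (Fin n) ℝ
  rcases Nat.eq_zero_or_pos n with hn | hn
  · subst hn
    simp
  have : NeZero n := ⟨hn.ne'⟩
  let o : Orientation ℝ (EuclideanSpace ℝ (Fin n)) (Fin n) := b.toBasis.orientation
  let v : Fin n → EuclideanSpace ℝ (Fin n) := fun j => WithLp.toLp 2 (fun i => A i j)
  have h1 := o.abs_volumeForm_apply_le v
  have h2 : o.volumeForm = b.toBasis.det := o.volumeForm_robust b rfl
  rw [h2, Module.Basis.det_apply] at h1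
  have h3 : b.toBasis.toMatrix v = A := by
    ext i j
    simp [Module.Basis.toMatrix_apply, b, v]
  rw [h3] at h1
  refine h1.trans (le_of_eq ?_)
  refine Finset.prod_congr rfl fun j _ => ?_
  rw [EuclideanSpace.norm_eq]
  simp [v]

open scoped MatrixOrder in
private theorem F10_psd {n : ℕ} {M : Matrix (Fin n) (Fin n) ℝ} (hM : M.PosSemidef) :
    0 ≤ M.det ∧ M.det ≤ ∏ i, M i i := by
  refine ⟨hM.det_nonneg, ?_⟩
  obtain ⟨B, rfl⟩ := CStarAlgebra.nonneg_iff_eq_star_mul_self.mp hM.nonneg
  have h1 : ∀ j, (star B * B) j j = ∑ i, B i j ^ 2 := by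
    intro j
    rw [Matrix.mul_apply]
    refine Finset.sum_congr rfl fun i _ => ?_
    rw [Matrix.star_apply, star_trivial, sq]
  have h2 : (star B * B).det = |B.det| ^ 2 := by
    rw [Matrix.det_mul, Matrix.star_eq_conjTranspose, Matrix.det_conjTranspose, star_trivial, sq_abs, sq]
  rw [h2, Finset.prod_congr rfl fun j _ => h1 j]
  have h3 : ∏ j, ∑ i, B i j ^ 2 = (∏ j, Real.sqrt (∑ i, B i j ^ 2)) ^ 2 := by
    rw [← Finset.prod_pow]
    refine Finset.prod_congr rfl fun j _ => ?_
    rw [Real.sq_sqrt]
    exact Finset.sum_nonneg fun i _ => sq_nonneg _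
  rw [h3]
  exact pow_le_pow_left₀ (abs_nonneg _) (F10_had B) 2

private theorem F10_cont (i : ℕ) : Continuous (Aa i) := by
  unfold Aa ff
  split_ifs <;> fun_prop

theorem Gm_det (m : ℕ) : 0 ≤ (Matrix.of fun i j : Fin m => Gm (i : ℕ) (j : ℕ)).det ∧
    (Matrix.of fun i j : Fin m => Gm (i : ℕ) (j : ℕ)).det ≤ ∏ i : Fin m, Gm (i : ℕ) (i : ℕ) := by
  have hsym : ∀ i j, Gm i j = Gm j i := by
    intro i j
    unfold Gm
    congr 1
    funext t
    ring
  have hpsd : (Matrix.of fun i j : Fin m => Gm (i : ℕ) (j : ℕ)).PosSemidef := by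
    rw [Matrix.posSemidef_iff_dotProduct_mulVec]
    constructor
    · ext i j
      rw [Matrix.conjTranspose_apply, Matrix.of_apply, Matrix.of_apply, star_trivial]
      exact hsym _ _
    · intro x
      have h1 : star x ⬝ᵥ ((Matrix.of fun i j : Fin m => Gm (i : ℕ) (j : ℕ)).mulVec x) =
          ∫ t in (0 : ℝ)..Real.pi, (∑ i, x i * Aa (i : ℕ) t) ^ 2 * Real.sin t := by
        have h2 : ∀ t : ℝ, (∑ i, x i * Aa (i : ℕ) t) ^ 2 * Real.sin t =
            ∑ i : Fin m, ∑ j : Fin m, (x i * x j) * (Aa (i : ℕ) t * Aa (j : ℕ) t * Real.sin t) := by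
          intro t
          rw [sq, Finset.sum_mul_sum, Finset.sum_mul]
          refine Finset.sum_congr rfl fun i _ => ?_
          rw [Finset.sum_mul]
          refine Finset.sum_congr rfl fun j _ => ?_
          ring
        have h3 : ∀ i j : Fin m, IntervalIntegrable
            (fun t => (x i * x j) * (Aa (i : ℕ) t * Aa (j : ℕ) t * Real.sin t)) MeasureTheory.volume 0 Real.pi := by
          intro i j
          refine Continuous.intervalIntegrable ?_ _ _
          have h4 := F10_cont (i : ℕ)
          have h5 := F10_cont (j : ℕ)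
          fun_prop
        have h6 : ∀ i : Fin m, IntervalIntegrable
            (fun t => ∑ j : Fin m, (x i * x j) * (Aa (i : ℕ) t * Aa (j : ℕ) t * Real.sin t))
              MeasureTheory.volume 0 Real.pi := by
          intro i
          refine Continuous.intervalIntegrable ?_ _ _
          refine continuous_finsetSum _ fun j _ => ?_
          have h4 := F10_cont (i : ℕ)
          have h5 := F10_cont (j : ℕ)
          fun_prop
        simp_rw [h2]
        rw [intervalIntegral.integral_finsetSum fun i _ => h6 i]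
        rw [dotProduct]
        refine Finset.sum_congr rfl fun i _ => ?_
        rw [intervalIntegral.integral_finsetSum fun j _ => h3 i j, Pi.star_apply, star_trivial, Matrix.mulVec,
          dotProduct, Finset.mul_sum]
        refine Finset.sum_congr rfl fun j _ => ?_
        rw [intervalIntegral.integral_const_mul, Matrix.of_apply, Gm]
        ring
      rw [h1]
      refine intervalIntegral.integral_nonneg Real.pi_nonneg fun t ht => ?_
      exact mul_nonneg (sq_nonneg _) (Real.sin_nonneg_of_mem_Icc ht)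
  exact F10_psd hpsd

end TQ
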