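import Pool.Agent.Lib.MP_021685_agTQ.F0

/-!
LEAF F11.  The diagonal entries.
`∫_0^π cos(2kt) sin t dt = 2/(1 - 4k²)`, so `∫ sin²(at) sin t = 1 + 1/(4a²-1)` and `∫ sin(at) sin((a-2)t) sin t = -1/3 + 1/(4(a-1)²-1)`.  With `a = 2i+1`, `A_i = 2 sin(at) + (2/3) sin((a-2)t)` (`i ≥ 1`):
`G_ii = 4(8/9 + 1/(4a²-1) + 1/(9(4(a-2)²-1)) + (2/3)/(16i²-1)) ≤ (32/9)(1 + 1/i²)` (the three fractions are at most `1/(16 i²)`, `1/(27 i²)`, `1/(15 i²)`·(2/3)..: much less than `(8/9)/i²`), `G_00 = 16/3`.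
`∏_(0<i<m) (1 + 1/i²) ≤ exp(∑ 1/i²) ≤ exp 2`, so `∏_(i<m) G_ii ≤ (16/3)(32/9)^(m-1) exp 2 ≤ 16 exp 2 (32/9)^m` (also for `m = 0`).
-/

set_option autoImplicit false

namespace TQ

open Real in
private theorem F11_sin (l : ℕ) : ∫ t in (0 : ℝ)..Real.pi, Real.sin ((2 * (l : ℝ) + 1) * t) = 2 / (2 * (l : ℝ) + 1) := by
  have hc : (2 * (l : ℝ) + 1) ≠ 0 := by positivity
  have h1 : Real.cos ((2 * (l : ℝ) + 1) * Real.pi) = -1 := by
    rw [show (2 * (l : ℝ) + 1) * Real.pi = Real.pi + (l : ℝ) * (2 * Real.pi) by ring, Real.cos_add_nat_mul_two_pi,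
      Real.cos_pi]
  rw [intervalIntegral.integral_comp_mul_left (fun x => Real.sin x) hc, integral_sin, mul_zero, Real.cos_zero, h1,
    smul_eq_mul]
  field_simp
  norm_num

private theorem F11_cont (l : ℕ) (c : ℝ) :
    IntervalIntegrable (fun t : ℝ => c * Real.sin ((2 * (l : ℝ) + 1) * t)) MeasureTheory.volume 0 Real.pi :=
  (continuous_const.mul (Real.continuous_sin.comp (continuous_const.mul continuous_id))).intervalIntegrable _ _

private theorem F11_id (y t : ℝ) :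
    (2 * Real.sin (y + t) + 1 / 3 * (2 * Real.sin (y - t))) * (2 * Real.sin (y + t) + 1 / 3 * (2 * Real.sin (y - t))) *
      Real.sin t = 14 / 9 * Real.sin t + 2 / 3 * Real.sin (3 * t) + (-1) * Real.sin (2 * y + 3 * t) +
        1 / 3 * Real.sin (2 * y + t) + 5 / 9 * Real.sin (2 * y - t) + 1 / 9 * Real.sin (2 * y - 3 * t) := by
  have e1 : Real.sin (y + t) * Real.sin (y + t) = (1 - Real.cos (2 * y + 2 * t)) / 2 := by
    have h := Real.cos_sub (y + t) (y + t)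
    have h' := Real.cos_add (y + t) (y + t)
    rw [sub_self, Real.cos_zero] at h
    rw [show y + t + (y + t) = 2 * y + 2 * t by ring] at h'
    rw [h']
    linarith
  have e2 : Real.sin (y + t) * Real.sin (y - t) = (Real.cos (2 * t) - Real.cos (2 * y)) / 2 := by
    have h := Real.cos_sub (y + t) (y - t)
    have h' := Real.cos_add (y + t) (y - t)
    rw [show y + t - (y - t) = 2 * t by ring] at h
    rw [show y + t + (y - t) = 2 * y by ring] at h'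
    rw [h, h']
    ring
  have e3 : Real.sin (y - t) * Real.sin (y - t) = (1 - Real.cos (2 * y - 2 * t)) / 2 := by
    have h := Real.cos_sub (y - t) (y - t)
    have h' := Real.cos_add (y - t) (y - t)
    rw [sub_self, Real.cos_zero] at h
    rw [show y - t + (y - t) = 2 * y - 2 * t by ring] at h'
    rw [h']
    linarith
  have hm : ∀ A B : ℝ, Real.cos A * Real.sin B = (Real.sin (A + B) - Real.sin (A - B)) / 2 := by
    intro A B
    rw [Real.sin_add, Real.sin_sub]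
    ring
  have e4 : Real.cos (2 * y + 2 * t) * Real.sin t = (Real.sin (2 * y + 3 * t) - Real.sin (2 * y + t)) / 2 := by
    have h := hm (2 * y + 2 * t) t
    rw [show 2 * y + 2 * t + t = 2 * y + 3 * t by ring, show 2 * y + 2 * t - t = 2 * y + t by ring] at h
    exact h
  have e5 : Real.cos (2 * t) * Real.sin t = (Real.sin (3 * t) - Real.sin t) / 2 := by
    have h := hm (2 * t) t
    rw [show 2 * t + t = 3 * t by ring, show 2 * t - t = t by ring] at h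
    exact h
  have e6 : Real.cos (2 * y) * Real.sin t = (Real.sin (2 * y + t) - Real.sin (2 * y - t)) / 2 := hm (2 * y) t
  have e7 : Real.cos (2 * y - 2 * t) * Real.sin t = (Real.sin (2 * y - t) - Real.sin (2 * y - 3 * t)) / 2 := by
    have h := hm (2 * y - 2 * t) t
    rw [show 2 * y - 2 * t + t = 2 * y - t by ring, show 2 * y - 2 * t - t = 2 * y - 3 * t by ring] at h
    exact h
  linear_combination (4 * Real.sin t) * e1 + (8 / 3 * Real.sin t) * e2 + (4 / 9 * Real.sin t) * e3 - 2 * e4 +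
    (4 / 3) * e5 - (4 / 3) * e6 - (2 / 9) * e7

private theorem F11_succ (k : ℕ) : Gm (k + 1) (k + 1) = 32 / 9 + 2 / 3 / (4 * (k : ℝ) + 5) - 2 / (4 * (k : ℝ) + 7) +
    10 / 9 / (4 * (k : ℝ) + 3) + 2 / 9 / (4 * (k : ℝ) + 1) := by
  have h1 : ∀ t : ℝ, Aa (k + 1) t * Aa (k + 1) t * Real.sin t =
      14 / 9 * Real.sin ((2 * ((0 : ℕ) : ℝ) + 1) * t) + 2 / 3 * Real.sin ((2 * ((1 : ℕ) : ℝ) + 1) * t) +
      (-1) * Real.sin ((2 * ((2 * k + 3 : ℕ) : ℝ) + 1) * t) + 1 / 3 * Real.sin ((2 * ((2 * k + 2 : ℕ) : ℝ) + 1) * t) +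
      5 / 9 * Real.sin ((2 * ((2 * k + 1 : ℕ) : ℝ) + 1) * t) + 1 / 9 * Real.sin ((2 * ((2 * k : ℕ) : ℝ) + 1) * t) := by
    intro t
    have h2 := F11_id ((2 * (k : ℝ) + 2) * t) t
    have h3 : Aa (k + 1) t = 2 * Real.sin ((2 * (k : ℝ) + 2) * t + t) + 1 / 3 * (2 * Real.sin ((2 * (k : ℝ) + 2) * t - t)) := by
      unfold Aa ff
      rw [if_neg (Nat.succ_ne_zero k), show 2 * (k + 1) - 2 = 2 * k by omega]
      push_cast
      rw [show (2 * ((k : ℝ) + 1) + 1) * t = (2 * (k : ℝ) + 2) * t + t by ring,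
        show (2 * (k : ℝ) + 1) * t = (2 * (k : ℝ) + 2) * t - t by ring]
    rw [h3, h2]
    push_cast
    rw [show (2 * (0 : ℝ) + 1) * t = t by ring, show (2 * (1 : ℝ) + 1) * t = 3 * t by ring,
      show (2 * (2 * (k : ℝ) + 3) + 1) * t = 2 * ((2 * (k : ℝ) + 2) * t) + 3 * t by ring,
      show (2 * (2 * (k : ℝ) + 2) + 1) * t = 2 * ((2 * (k : ℝ) + 2) * t) + t by ring,
      show (2 * (2 * (k : ℝ) + 1) + 1) * t = 2 * ((2 * (k : ℝ) + 2) * t) - t by ring,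
      show (2 * (2 * (k : ℝ)) + 1) * t = 2 * ((2 * (k : ℝ) + 2) * t) - 3 * t by ring]
  unfold Gm
  rw [intervalIntegral.integral_congr (g := fun t : ℝ =>
      14 / 9 * Real.sin ((2 * ((0 : ℕ) : ℝ) + 1) * t) + 2 / 3 * Real.sin ((2 * ((1 : ℕ) : ℝ) + 1) * t) +
      (-1) * Real.sin ((2 * ((2 * k + 3 : ℕ) : ℝ) + 1) * t) + 1 / 3 * Real.sin ((2 * ((2 * k + 2 : ℕ) : ℝ) + 1) * t) +
      5 / 9 * Real.sin ((2 * ((2 * k + 1 : ℕ) : ℝ) + 1) * t) + 1 / 9 * Real.sin ((2 * ((2 * k : ℕ) : ℝ) + 1) * t))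
    (fun t _ => h1 t)]
  rw [intervalIntegral.integral_add ?_ (F11_cont _ _), intervalIntegral.integral_add ?_ (F11_cont _ _),
    intervalIntegral.integral_add ?_ (F11_cont _ _), intervalIntegral.integral_add ?_ (F11_cont _ _),
    intervalIntegral.integral_add (F11_cont _ _) (F11_cont _ _)]
  · simp only [intervalIntegral.integral_const_mul, F11_sin]
    push_cast
    rw [show (2 * (2 * (k : ℝ) + 3) + 1) = 4 * (k : ℝ) + 7 by ring,
      show (2 * (2 * (k : ℝ) + 2) + 1) = 4 * (k : ℝ) + 5 by ring,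
      show (2 * (2 * (k : ℝ) + 1) + 1) = 4 * (k : ℝ) + 3 by ring,
      show (2 * (2 * (k : ℝ)) + 1) = 4 * (k : ℝ) + 1 by ring]
    ring
  · exact (F11_cont _ _).add (F11_cont _ _)
  · exact ((F11_cont _ _).add (F11_cont _ _)).add (F11_cont _ _)
  · exact (((F11_cont _ _).add (F11_cont _ _)).add (F11_cont _ _)).add (F11_cont _ _)
  · exact ((((F11_cont _ _).add (F11_cont _ _)).add (F11_cont _ _)).add (F11_cont _ _)).add (F11_cont _ _)

private theorem F11_zero : Gm 0 0 = 16 / 3 := by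
  have h1 : ∀ t : ℝ, Aa 0 t * Aa 0 t * Real.sin t =
      3 * Real.sin ((2 * ((0 : ℕ) : ℝ) + 1) * t) + (-1) * Real.sin ((2 * ((1 : ℕ) : ℝ) + 1) * t) := by
    intro t
    have h3 : Aa 0 t = 2 * Real.sin t := by
      unfold Aa ff
      simp
    rw [h3]
    push_cast
    rw [show (2 * (0 : ℝ) + 1) * t = t by ring, show (2 * (1 : ℝ) + 1) * t = 3 * t by ring, Real.sin_three_mul]
    ring
  unfold Gm
  rw [intervalIntegral.integral_congr (g := fun t : ℝ =>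
      3 * Real.sin ((2 * ((0 : ℕ) : ℝ) + 1) * t) + (-1) * Real.sin ((2 * ((1 : ℕ) : ℝ) + 1) * t))
    (fun t _ => h1 t), intervalIntegral.integral_add (F11_cont _ _) (F11_cont _ _)]
  simp only [intervalIntegral.integral_const_mul, F11_sin]
  push_cast
  norm_num

private theorem F11_nonneg (i : ℕ) : 0 ≤ Gm i i := by
  unfold Gm
  refine intervalIntegral.integral_nonneg Real.pi_pos.le fun t ht => ?_
  exact mul_nonneg (mul_self_nonneg _) (Real.sin_nonneg_of_nonneg_of_le_pi ht.1 ht.2)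

private theorem F11_bound (k : ℕ) : Gm (k + 1) (k + 1) ≤ 32 / 9 * Real.exp (1 / (((k : ℝ) + 1) * ((k : ℝ) + 2))) := by
  have hk : (0 : ℝ) ≤ k := Nat.cast_nonneg k
  have h1 : Gm (k + 1) (k + 1) ≤ 32 / 9 * (1 / (((k : ℝ) + 1) * ((k : ℝ) + 2)) + 1) := by
    rw [F11_succ]
    have h2 : 32 / 9 * (1 / (((k : ℝ) + 1) * ((k : ℝ) + 2)) + 1) - (32 / 9 + 2 / 3 / (4 * (k : ℝ) + 5) -
        2 / (4 * (k : ℝ) + 7) + 10 / 9 / (4 * (k : ℝ) + 3) + 2 / 9 / (4 * (k : ℝ) + 1)) =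
        (7168 * (k : ℝ) ^ 4 + 28160 * (k : ℝ) ^ 3 + 36960 * (k : ℝ) ^ 2 + 18208 * (k : ℝ) + 2528) / (9 * (((k : ℝ) + 1) * ((k : ℝ) + 2)) * ((4 * (k : ℝ) + 1) * (4 * (k : ℝ) + 3) *
          (4 * (k : ℝ) + 5) * (4 * (k : ℝ) + 7))) := by
      field_simp
      ring
    have h3 : (0 : ℝ) ≤ (7168 * (k : ℝ) ^ 4 + 28160 * (k : ℝ) ^ 3 + 36960 * (k : ℝ) ^ 2 + 18208 * (k : ℝ) + 2528) / (9 * (((k : ℝ) + 1) * ((k : ℝ) + 2)) * ((4 * (k : ℝ) + 1) * (4 * (k : ℝ) + 3) *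
          (4 * (k : ℝ) + 5) * (4 * (k : ℝ) + 7))) := by positivity
    rw [← h2] at h3
    linarith
  refine h1.trans (mul_le_mul_of_nonneg_left (Real.add_one_le_exp _) (by norm_num))

private theorem F11_prod (m : ℕ) : ∏ i ∈ Finset.range (m + 1), Gm i i ≤
    16 / 3 * (32 / 9) ^ m * Real.exp (1 - 1 / ((m : ℝ) + 1)) := by
  induction m with
  | zero =>
    rw [Finset.prod_range_one, F11_zero]
    norm_num
  | succ m ih =>
    rw [Finset.prod_range_succ]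
    have h1 := F11_bound m
    have hm : (0 : ℝ) ≤ m := Nat.cast_nonneg m
    have h2 : (0 : ℝ) ≤ 16 / 3 * (32 / 9) ^ m * Real.exp (1 - 1 / ((m : ℝ) + 1)) := by positivity
    refine (mul_le_mul ih h1 (F11_nonneg _) h2).trans (le_of_eq ?_)
    have h3 : Real.exp (1 - 1 / ((m : ℝ) + 1)) * Real.exp (1 / (((m : ℝ) + 1) * ((m : ℝ) + 2))) =
        Real.exp (1 - 1 / (((m + 1 : ℕ) : ℝ) + 1)) := by
      rw [← Real.exp_add]
      congr 1
      push_cast
      field_simp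
      ring
    calc 16 / 3 * (32 / 9) ^ m * Real.exp (1 - 1 / ((m : ℝ) + 1)) *
          (32 / 9 * Real.exp (1 / (((m : ℝ) + 1) * ((m : ℝ) + 2))))
        = 16 / 3 * (32 / 9) ^ (m + 1) * (Real.exp (1 - 1 / ((m : ℝ) + 1)) *
          Real.exp (1 / (((m : ℝ) + 1) * ((m : ℝ) + 2)))) := by ring
      _ = _ := by rw [h3]

theorem Gm_prod (m : ℕ) : ∏ i : Fin m, Gm (i : ℕ) (i : ℕ) ≤ 16 * Real.exp 2 * (32 / 9) ^ m := by
  have hm1 : (1 : ℝ) ≤ Real.exp 2 := Real.one_le_exp (by norm_num)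
  rcases m with _ | m
  · simp only [Finset.univ_eq_empty, Finset.prod_empty, pow_zero, mul_one]
    linarith
  · rw [Fin.prod_univ_eq_prod_range (fun i => Gm i i) (m + 1)]
    refine (F11_prod m).trans ?_
    have h0 : Real.exp (1 - 1 / ((m : ℝ) + 1)) ≤ Real.exp 2 := by
      refine Real.exp_le_exp.2 ?_
      have : (0 : ℝ) ≤ 1 / ((m : ℝ) + 1) := by positivity
      linarith
    have h1 : (0 : ℝ) ≤ (32 / 9 : ℝ) ^ m := by positivity
    calc 16 / 3 * (32 / 9 : ℝ) ^ m * Real.exp (1 - 1 / ((m : ℝ) + 1)) ≤ 16 / 3 * (32 / 9 : ℝ) ^ m * Real.exp 2 :=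
          mul_le_mul_of_nonneg_left h0 (by positivity)
      _ ≤ 16 * Real.exp 2 * (32 / 9) ^ (m + 1) := by
          rw [pow_succ]
          nlinarith [mul_nonneg h1 (Real.exp_pos 2).le]

end TQ
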