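import Pool.Agent.Lib.MP_021685_agTQ.F0

/-!
LEAF F2.  `S(B w Bᵀ) = det B · S(w)`.
Expand: `∏_k ∑_(c,d) B(s(k,0),c) B(s(k,1),d) w(c,d) = ∑_(φ : Fin m × Fin 2 → Fin m × Fin 2) ∏_x B(s x, φ x) ∏_k w(φ(k,0), φ(k,1))` (`Finset.prod_univ_sum` / `Fintype.piFinset`; it may help to index the inner sum by functions
`Fin 2 → Fin m × Fin 2` and to use `Equiv.curry`; `Fintype.prod_prod_type`, `Fin.prod_univ_two`).  Exchange the sums: `∑_φ (∏_k w(φ(k,0),φ(k,1))) ∑_s sgn s ∏_x B(s x, φ x)` and the inner sum is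
`(B.submatrix id φ).det` (`Matrix.det_apply'`).  If `φ` is not injective two columns are equal: `Matrix.det_zero_of_column_eq`; if it is a permutation it is `sgn φ * B.det` (`Matrix.det_permute'`); the sum over the bijective `φ` is the
sum over `Equiv.Perm` (as in Mathlib's proof of `Matrix.det_mul`: `Matrix.det_mul_aux`, `Finset.sum_bij`).
-/

set_option autoImplicit false

namespace TQ

private def F2_e (m : ℕ) : (Fin m → (Fin m × Fin 2) × (Fin m × Fin 2)) ≃ (Fin m × Fin 2 → Fin m × Fin 2) where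
  toFun φ := fun x => if x.2 = 0 then (φ x.1).1 else (φ x.1).2
  invFun ψ := fun k => (ψ (k, 0), ψ (k, 1))
  left_inv φ := by
    funext k
    simp
  right_inv ψ := by
    funext x
    obtain ⟨k, e⟩ := x
    fin_cases e <;> simp

private lemma F2_inner {m : ℕ} (B : Matrix (Fin m × Fin 2) (Fin m × Fin 2) ℝ)
    (φ : Fin m → (Fin m × Fin 2) × (Fin m × Fin 2)) :
    ∑ s : Equiv.Perm (Fin m × Fin 2), ((Equiv.Perm.sign s : ℤ) : ℝ) *
      ∏ k : Fin m, (B (s (k, 0)) (φ k).1 * B (s (k, 1)) (φ k).2) =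
    (B.submatrix id (F2_e m φ)).det := by
  rw [Matrix.det_apply']
  refine Finset.sum_congr rfl fun s _ => ?_
  rw [Fintype.prod_prod_type]
  simp [Fin.prod_univ_two, F2_e]

private lemma F2_zero {m : ℕ} (B : Matrix (Fin m × Fin 2) (Fin m × Fin 2) ℝ)
    (ψ : Fin m × Fin 2 → Fin m × Fin 2) (h : ¬ Function.Bijective ψ) :
    (B.submatrix id ψ).det = 0 := by
  have hinj : ¬ Function.Injective ψ := fun hi => h (Finite.injective_iff_bijective.1 hi)
  simp only [Function.Injective, not_forall] at hinj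
  obtain ⟨a, b, hab, hne⟩ := hinj
  refine Matrix.det_zero_of_column_eq hne fun k => ?_
  simp [Matrix.submatrix_apply, hab]

private lemma F2_sum {m : ℕ} (B : Matrix (Fin m × Fin 2) (Fin m × Fin 2) ℝ)
    (w : Fin m × Fin 2 → Fin m × Fin 2 → ℝ) :
    ∑ ψ : Fin m × Fin 2 → Fin m × Fin 2,
      (∏ k : Fin m, w (ψ (k, 0)) (ψ (k, 1))) * (B.submatrix id ψ).det =
    ∑ t : Equiv.Perm (Fin m × Fin 2),
      (∏ k : Fin m, w (t (k, 0)) (t (k, 1))) * (B.submatrix id t).det := by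
  classical
  have h1 : ∑ ψ : Fin m × Fin 2 → Fin m × Fin 2,
      (∏ k : Fin m, w (ψ (k, 0)) (ψ (k, 1))) * (B.submatrix id ψ).det =
      ∑ ψ ∈ Finset.univ.filter (fun ψ : Fin m × Fin 2 → Fin m × Fin 2 => Function.Bijective ψ),
      (∏ k : Fin m, w (ψ (k, 0)) (ψ (k, 1))) * (B.submatrix id ψ).det := by
    refine (Finset.sum_subset (Finset.filter_subset _ _) fun ψ _ hψ => ?_).symm
    rw [F2_zero B ψ (by simpa using hψ), mul_zero]
  rw [h1]
  exact Finset.sum_bij (fun p h => Equiv.ofBijective p (Finset.mem_filter.1 h).2)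
    (fun _ _ => Finset.mem_univ _)
    (fun _ _ _ _ h => by injection h)
    (fun b _ => ⟨b, Finset.mem_filter.2 ⟨Finset.mem_univ _, b.bijective⟩,
      Equiv.coe_fn_injective rfl⟩) fun _ _ => rfl

theorem SS_mul {m : ℕ} (B : Matrix (Fin m × Fin 2) (Fin m × Fin 2) ℝ) (w : Fin m × Fin 2 → Fin m × Fin 2 → ℝ) :
    SS (fun a b => ∑ c, ∑ d, B a c * B b d * w c d) = B.det * SS w := by
  have key : SS (fun a b => ∑ c, ∑ d, B a c * B b d * w c d) =
      ∑ φ : Fin m → (Fin m × Fin 2) × (Fin m × Fin 2),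
        (∏ k : Fin m, w (φ k).1 (φ k).2) * (B.submatrix id (F2_e m φ)).det := by
    unfold SS
    have h1 : ∀ s : Equiv.Perm (Fin m × Fin 2),
        ∏ k : Fin m, (∑ c, ∑ d, B (s (k, 0)) c * B (s (k, 1)) d * w c d) =
        ∑ φ : Fin m → (Fin m × Fin 2) × (Fin m × Fin 2),
          ∏ k : Fin m, (B (s (k, 0)) (φ k).1 * B (s (k, 1)) (φ k).2 * w (φ k).1 (φ k).2) := by
      intro s
      have h2 : ∀ k : Fin m, (∑ c, ∑ d, B (s (k, 0)) c * B (s (k, 1)) d * w c d) =
          ∑ p : (Fin m × Fin 2) × (Fin m × Fin 2), B (s (k, 0)) p.1 * B (s (k, 1)) p.2 * w p.1 p.2 := by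
        intro k
        exact (Fintype.sum_prod_type (fun p : (Fin m × Fin 2) × (Fin m × Fin 2) =>
          B (s (k, 0)) p.1 * B (s (k, 1)) p.2 * w p.1 p.2)).symm
      rw [Finset.prod_congr rfl fun k _ => h2 k, Finset.prod_univ_sum, Fintype.piFinset_univ]
    simp only [h1]
    simp only [Finset.mul_sum]
    rw [Finset.sum_comm]
    refine Finset.sum_congr rfl fun φ _ => ?_
    rw [← F2_inner B φ, Finset.mul_sum]
    refine Finset.sum_congr rfl fun s _ => ?_
    rw [Finset.prod_mul_distrib]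
    ring
  rw [key]
  have h3 : ∑ φ : Fin m → (Fin m × Fin 2) × (Fin m × Fin 2),
        (∏ k : Fin m, w (φ k).1 (φ k).2) * (B.submatrix id (F2_e m φ)).det =
      ∑ ψ : Fin m × Fin 2 → Fin m × Fin 2,
      (∏ k : Fin m, w (ψ (k, 0)) (ψ (k, 1))) * (B.submatrix id ψ).det := by
    refine Fintype.sum_equiv (F2_e m) _ _ fun φ => ?_
    simp [F2_e]
  rw [h3, F2_sum]
  unfold SS
  rw [Finset.mul_sum]
  refine Finset.sum_congr rfl fun t _ => ?_
  rw [Matrix.det_permute']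
  ring

end TQ
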