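import Pool.Agent.Lib.MP_021685_agTQ.F0

/-!
LEAF F4.  `S(w) = m! det b` if `w((i,0),(j,1)) = b i j` and all other values are `0`.
`b i j = ∑_l [i = l] b l j`, so with `w((i,e),(j,e')) = ∑_l (if (i,e) = (l,0) then 1 else 0) * (if e' = 1 then b l j else 0)` and `Finset.prod_univ_sum`:
`S(w) = ∑_(l : Fin m → Fin m) ∑_s sgn s ∏_k [s(k,0) = (l k, 0)] * (if (s(k,1)).2 = 1 then b (l k) (s(k,1)).1 else 0)`; the inner sum is the determinant (`Matrix.det_apply'`, transposed) of the block diagonal matrix
`Matrix.blockDiagonal (fun e : Fin 2 => if e = 0 then (1 : Matrix).submatrix l id else b.submatrix l id)` (rows `(k,e)`), which is `det ((1).submatrix l id) * det (b.submatrix l id)` (`Matrix.det_blockDiagonal`, `Fin.prod_univ_two`):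
`0` if `l` is not injective (`Matrix.det_zero_of_row_eq`), `sgn² det b = det b` for the `m!` permutations (`Matrix.det_permute`, `Fintype.card_perm`; the sum over the bijective functions is the sum over `Equiv.Perm`,
see `Matrix.det_mul` in Mathlib).
-/

set_option autoImplicit false

namespace TQ

private noncomputable def F4_M {m : ℕ} (b : Matrix (Fin m) (Fin m) ℝ) (l : Fin m → Fin m) :
    Matrix (Fin m × Fin 2) (Fin m × Fin 2) ℝ :=
  Matrix.blockDiagonal fun e : Fin 2 =>
    if e = 0 then (1 : Matrix (Fin m) (Fin m) ℝ).submatrix id l else b.transpose.submatrix id l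

private theorem F4_det {m : ℕ} (b : Matrix (Fin m) (Fin m) ℝ) (l : Fin m → Fin m) :
    (F4_M b l).det = ((1 : Matrix (Fin m) (Fin m) ℝ).submatrix id l).det * (b.transpose.submatrix id l).det := by
  unfold F4_M
  rw [Matrix.det_blockDiagonal, Fin.prod_univ_two, if_pos rfl, if_neg (by decide)]

private theorem F4_term {m : ℕ} (b : Matrix (Fin m) (Fin m) ℝ) (x y : Fin m × Fin 2) (k : Fin m) :
    (if x.2 = 0 ∧ y.2 = 1 then b x.1 y.1 else 0) =
      ∑ l : Fin m, F4_M b (fun _ => l) x (k, 0) * F4_M b (fun _ => l) y (k, 1) := by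
  obtain ⟨i, e⟩ := x
  obtain ⟨j, e'⟩ := y
  have h0 : ∀ l : Fin m, F4_M b (fun _ => l) (i, e) (k, 0) = if e = 0 then (if i = l then 1 else 0) else 0 := by
    intro l
    unfold F4_M
    rw [Matrix.blockDiagonal_apply']
    by_cases he : e = 0
    · rw [if_pos he, if_pos he, if_pos he, Matrix.submatrix_apply, id, Matrix.one_apply]
    · rw [if_neg he, if_neg he]
  have h1 : ∀ l : Fin m, F4_M b (fun _ => l) (j, e') (k, 1) = if e' = 1 then b l j else 0 := by
    intro l
    unfold F4_M
    rw [Matrix.blockDiagonal_apply']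
    by_cases he : e' = 1
    · have he0 : e' ≠ 0 := by
        rw [he]
        exact one_ne_zero
      rw [if_pos he, if_neg he0, if_pos he, Matrix.submatrix_apply, id, Matrix.transpose_apply]
    · rw [if_neg he, if_neg he]
  rw [Finset.sum_congr rfl fun l _ => by rw [h0 l, h1 l]]
  by_cases he : e = 0
  · by_cases he' : e' = 1
    · rw [if_pos ⟨he, he'⟩, Finset.sum_eq_single i]
      · rw [if_pos he, if_pos rfl, if_pos he', one_mul]
      · intro l _ hl
        rw [if_pos he, if_neg hl.symm, zero_mul]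
      · exact fun h => absurd (Finset.mem_univ _) h
    · rw [if_neg fun h => he' h.2]
      refine (Finset.sum_eq_zero fun l _ => ?_).symm
      rw [if_neg he', mul_zero]
  · rw [if_neg fun h => he h.1]
    refine (Finset.sum_eq_zero fun l _ => ?_).symm
    rw [if_neg he, zero_mul]

private theorem F4_entry {m : ℕ} (b : Matrix (Fin m) (Fin m) ℝ) (l : Fin m → Fin m) (x : Fin m × Fin 2) (k : Fin m)
    (e : Fin 2) : F4_M b (fun _ => l k) x (k, e) = F4_M b l x (k, e) := by
  obtain ⟨i, e'⟩ := x
  unfold F4_M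
  rw [Matrix.blockDiagonal_apply', Matrix.blockDiagonal_apply']
  split_ifs <;> rfl

private theorem F4_sum {m : ℕ} (b : Matrix (Fin m) (Fin m) ℝ) :
    SS (fun x y : Fin m × Fin 2 => if x.2 = 0 ∧ y.2 = 1 then b x.1 y.1 else 0) =
      ∑ l : Fin m → Fin m, (F4_M b l).det := by
  unfold SS
  calc ∑ s : Equiv.Perm (Fin m × Fin 2), ((Equiv.Perm.sign s : ℤ) : ℝ) *
        ∏ k : Fin m, (if (s (k, 0)).2 = 0 ∧ (s (k, 1)).2 = 1 then b (s (k, 0)).1 (s (k, 1)).1 else 0)
      = ∑ s : Equiv.Perm (Fin m × Fin 2), ∑ l : Fin m → Fin m, ((Equiv.Perm.sign s : ℤ) : ℝ) *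
          ∏ k : Fin m, (F4_M b l (s (k, 0)) (k, 0) * F4_M b l (s (k, 1)) (k, 1)) := by
        refine Finset.sum_congr rfl fun s _ => ?_
        rw [Finset.prod_congr rfl fun k _ => F4_term b (s (k, 0)) (s (k, 1)) k, Finset.prod_univ_sum,
          Finset.mul_sum, Fintype.piFinset_univ]
        refine Finset.sum_congr rfl fun l _ => ?_
        congr 1
        refine Finset.prod_congr rfl fun k _ => ?_
        rw [F4_entry, F4_entry]
    _ = ∑ l : Fin m → Fin m, (F4_M b l).det := by
        rw [Finset.sum_comm]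
        refine Finset.sum_congr rfl fun l _ => ?_
        rw [Matrix.det_apply']
        refine Finset.sum_congr rfl fun s _ => ?_
        congr 1
        rw [Fintype.prod_prod_type]
        refine Finset.prod_congr rfl fun k _ => ?_
        rw [Fin.prod_univ_two]

theorem SS_block {m : ℕ} (b : Matrix (Fin m) (Fin m) ℝ) :
    SS (fun x y : Fin m × Fin 2 => if x.2 = 0 ∧ y.2 = 1 then b x.1 y.1 else 0) = (m.factorial : ℝ) * b.det := by
  rw [F4_sum]
  have h1 : ∑ σ : Equiv.Perm (Fin m), b.det = ∑ l : Fin m → Fin m, (F4_M b l).det := by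
    refine Finset.sum_of_injOn (fun σ : Equiv.Perm (Fin m) => (σ : Fin m → Fin m))
      (fun σ _ τ _ h => DFunLike.coe_injective h) (fun σ _ => Finset.mem_coe.2 (Finset.mem_univ _)) ?_ ?_
    · intro l _ hl
      have h2 : ¬ Function.Injective l := by
        intro hinj
        refine hl ⟨Equiv.ofBijective l (Finite.injective_iff_bijective.1 hinj), Finset.mem_coe.2 (Finset.mem_univ _), ?_⟩
        rfl
      obtain ⟨i, j, hij, hne⟩ : ∃ i j, l i = l j ∧ i ≠ j := by
        by_contra hcon
        refine h2 fun i j hij => ?_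
        by_contra hne
        exact hcon ⟨i, j, hij, hne⟩
      rw [F4_det, Matrix.det_zero_of_column_eq hne, zero_mul]
      intro t
      rw [Matrix.submatrix_apply, Matrix.submatrix_apply, hij]
    · intro σ _
      rw [F4_det, Matrix.det_permute', Matrix.det_permute', Matrix.det_one, Matrix.det_transpose, mul_one,
        ← mul_assoc, ← Int.cast_mul, Int.units_coe_mul_self, Int.cast_one, one_mul]
  rw [← h1, Finset.sum_const, Finset.card_univ, Fintype.card_perm, Fintype.card_fin, nsmul_eq_mul]

end TQ
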