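import Pool.Agent.Lib.MP_021685_agTQ.F0

/-!
LEAF F5.  The change of basis is unitriangular.
`Matrix.det_blockDiagonal`, `Fin.prod_univ_two`, `Matrix.det_of_lowerTriangular` for `T0`, `T1` (the diagonal entries are `1`; `BlockTriangular` with `OrderDual.toDual`).
-/

set_option autoImplicit false

namespace TQ

private theorem F5_T0 (m : ℕ) : (T0 m).det = 1 := by
  rw [Matrix.det_of_isLowerTriangular (T0 m) (fun i j hij => ?_)]
  · refine Finset.prod_eq_one fun i _ => ?_
    simp [T0]
  · have h1 : (i : ℕ) < (j : ℕ) := hij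
    show (if (i : ℕ) = j then (1 : ℝ) else if (i : ℕ) = j + 1 then 1 / 3 else 0) = 0
    rw [if_neg (by omega), if_neg (by omega)]

private theorem F5_T1 (m : ℕ) : (T1 m).det = 1 := by
  rw [Matrix.det_of_isLowerTriangular (T1 m) (fun i j hij => ?_)]
  · refine Finset.prod_eq_one fun i _ => ?_
    simp [T1]
  · have h1 : (i : ℕ) < (j : ℕ) := hij
    show (if (i : ℕ) = j then (1 : ℝ)
      else if (i : ℕ) = j + 1 then -(2 * (i : ℕ) / (3 * ((i : ℕ) + 1)) : ℝ)
      else if (i : ℕ) = j + 2 then -(((i : ℕ) - 1) / (3 * ((i : ℕ) + 1)) : ℝ) else 0) = 0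
    rw [if_neg (by omega), if_neg (by omega), if_neg (by omega)]

theorem TT_det (m : ℕ) : (TT m).det = 1 := by
  unfold TT
  rw [Matrix.det_blockDiagonal, Fin.prod_univ_two, if_pos rfl, if_neg one_ne_zero, F5_T0, F5_T1, one_mul]

end TQ
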