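import Pool.Agent.Lib.MP_021685_agTQ.F0

/-!
LEAF F7.  The rows `(j, 1)` of the change of basis: primitive `sin t A_j(t)/(j+1)`.
row1_F: only `(l, 1)` with `l = j, j-1, j-2` contribute, `idx (l,1) = 2 l + 1`, `FF (2l+1) t = (1 - cos((2l+2)t))/(l+1)`.  The sum is
`(1/(j+1)) (1 - cos((2j+2)t) - (2/3)(1 - cos(2jt)) - (1/3)(1 - cos((2j-2)t)))` (for `j = 1` the last coefficient is `0` and the last term is `0` too; for `j = 0` only the first term), and
`sin t A_j(t) = cos(2jt) - cos((2j+2)t) + (1/3)(cos((2j-2)t) - cos(2jt))` (product formula `2 sin a sin b = cos(a-b) - cos(a+b)`, from `Real.cos_sub`, `Real.cos_add`).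
row1_f: both sides of row1_F have derivatives; `FF k` has derivative `ff k`.
-/

set_option autoImplicit false

namespace TQ

private theorem F7_sum {m : ℕ} (j : Fin m) (k : ℕ) (g : ℕ → ℝ) :
    ∑ x : Fin m, (if (j : ℕ) = (x : ℕ) + k then g (x : ℕ) else 0) =
      if k ≤ (j : ℕ) then g ((j : ℕ) - k) else 0 := by
  by_cases hk : k ≤ (j : ℕ)
  · have hlt : (j : ℕ) - k < m := lt_of_le_of_lt (Nat.sub_le _ _) j.isLt
    rw [if_pos hk, Finset.sum_eq_single (⟨(j : ℕ) - k, hlt⟩ : Fin m)]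
    · rw [if_pos]
      show (j : ℕ) = ((j : ℕ) - k) + k
      omega
    · intro x _ hx
      rw [if_neg]
      intro h
      apply hx
      apply Fin.ext
      show (x : ℕ) = (j : ℕ) - k
      omega
    · intro h
      exact absurd (Finset.mem_univ _) h
  · rw [if_neg hk]
    refine Finset.sum_eq_zero fun x _ => ?_
    rw [if_neg]
    omega

private theorem F7_entry {m : ℕ} (j x : Fin m) (h : ℕ → ℝ) : T1 m j x * h (2 * (x : ℕ) + 1) =
    (if (j : ℕ) = (x : ℕ) + 0 then h (2 * (x : ℕ) + 1) else 0) +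
    (if (j : ℕ) = (x : ℕ) + 1 then
      -(2 * ((j : ℕ) : ℝ) / (3 * (((j : ℕ) : ℝ) + 1))) * h (2 * (x : ℕ) + 1) else 0) +
    (if (j : ℕ) = (x : ℕ) + 2 then
      -((((j : ℕ) : ℝ) - 1) / (3 * (((j : ℕ) : ℝ) + 1))) * h (2 * (x : ℕ) + 1) else 0) := by
  unfold T1
  rw [Matrix.of_apply]
  by_cases h0 : (j : ℕ) = (x : ℕ)
  · rw [if_pos h0, if_pos (by omega), if_neg (by omega), if_neg (by omega)]
    ring
  · by_cases h1 : (j : ℕ) = (x : ℕ) + 1
    · rw [if_neg h0, if_pos h1, if_neg (by omega), if_pos h1, if_neg (by omega)]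
      ring
    · by_cases h2 : (j : ℕ) = (x : ℕ) + 2
      · rw [if_neg h0, if_neg h1, if_pos h2, if_neg (by omega), if_neg h1, if_pos h2]
        ring
      · rw [if_neg h0, if_neg h1, if_neg h2, if_neg (by omega), if_neg h1, if_neg h2]
        ring

private theorem F7_row {m : ℕ} (j : Fin m) (h : ℕ → ℝ) : ∑ c, TT m (j, 1) c * h (idx c) =
    h (2 * (j : ℕ) + 1) +
    (if 1 ≤ (j : ℕ) then
      -(2 * ((j : ℕ) : ℝ) / (3 * (((j : ℕ) : ℝ) + 1))) * h (2 * ((j : ℕ) - 1) + 1) else 0) +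
    (if 2 ≤ (j : ℕ) then
      -((((j : ℕ) : ℝ) - 1) / (3 * (((j : ℕ) : ℝ) + 1))) * h (2 * ((j : ℕ) - 2) + 1) else 0) := by
  have e1 : ∀ x : Fin m, ∑ e : Fin 2, TT m (j, 1) (x, e) * h (idx (x, e)) =
      T1 m j x * h (2 * (x : ℕ) + 1) := by
    intro x
    rw [Fin.sum_univ_two]
    have h0 : TT m (j, 1) (x, 0) = 0 := by
      unfold TT
      rw [Matrix.blockDiagonal_apply, if_neg]
      exact one_ne_zero
    have h1 : TT m (j, 1) (x, 1) = T1 m j x := by
      unfold TT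
      rw [Matrix.blockDiagonal_apply, if_pos rfl, if_neg]
      exact one_ne_zero
    rw [h0, h1, zero_mul, zero_add]
    rfl
  rw [Fintype.sum_prod_type, Finset.sum_congr rfl (fun x _ => (e1 x).trans (F7_entry j x h)),
    Finset.sum_add_distrib, Finset.sum_add_distrib, F7_sum j 0 (fun x => h (2 * x + 1)),
    F7_sum j 1 (fun x => -(2 * ((j : ℕ) : ℝ) / (3 * (((j : ℕ) : ℝ) + 1))) * h (2 * x + 1)),
    F7_sum j 2 (fun x => -((((j : ℕ) : ℝ) - 1) / (3 * (((j : ℕ) : ℝ) + 1))) * h (2 * x + 1)),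
    if_pos (Nat.zero_le _), Nat.sub_zero]

private theorem F7_prod (c t : ℝ) : 2 * (Real.sin t * Real.sin (c * t)) =
    Real.cos ((c - 1) * t) - Real.cos ((c + 1) * t) := by
  have h1 : (c - 1) * t = c * t - t := by ring
  have h2 : (c + 1) * t = c * t + t := by ring
  rw [h1, h2, Real.cos_sub, Real.cos_add]
  ring

private theorem F7_deriv (k : ℕ) (t : ℝ) : HasDerivAt (fun x => FF k x) (ff k t) t := by
  unfold FF ff
  have hk : ((k : ℝ) + 1) ≠ 0 := by positivity
  have h1 : HasDerivAt (fun x : ℝ => ((k : ℝ) + 1) * x) ((k : ℝ) + 1) t := by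
    have h := (hasDerivAt_id t).const_mul ((k : ℝ) + 1)
    rw [mul_one] at h
    exact h
  have h2 := ((h1.cos.const_sub 1).const_mul 2).div_const ((k : ℝ) + 1)
  refine h2.congr_deriv ?_
  field_simp

theorem row1_F (m : ℕ) (j : Fin m) (t : ℝ) : ∑ c, TT m (j, 1) c * FF (idx c) t = Real.sin t * Aa (j : ℕ) t / ((j : ℕ) + 1) := by
  rw [F7_row j (fun k => FF k t)]
  have hgen : ∀ n : ℕ, FF (2 * n + 1) t +
      (if 1 ≤ n then -(2 * (n : ℝ) / (3 * ((n : ℝ) + 1))) * FF (2 * (n - 1) + 1) t else 0) +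
      (if 2 ≤ n then -(((n : ℝ) - 1) / (3 * ((n : ℝ) + 1))) * FF (2 * (n - 2) + 1) t else 0) =
      Real.sin t * Aa n t / ((n : ℝ) + 1) := by
    intro n
    rcases Nat.lt_or_ge n 1 with h0 | h0
    · have hn : n = 0 := by omega
      subst hn
      rw [if_neg (by norm_num), if_neg (by norm_num)]
      unfold Aa FF ff
      rw [if_pos rfl]
      have h := F7_prod 1 t
      have e1 : (1 - 1 : ℝ) * t = 0 := by ring
      rw [e1, Real.cos_zero] at h
      have e2 : (((2 * 0 + 1 : ℕ) : ℝ) + 1) * t = (1 + 1) * t := by push_cast; ring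
      have e3 : (((2 * 0 : ℕ) : ℝ) + 1) * t = 1 * t := by push_cast; ring
      rw [e2, e3]
      push_cast
      linear_combination -h
    · rcases Nat.lt_or_ge n 2 with h1 | h1
      · have hn : n = 1 := by omega
        subst hn
        rw [if_pos le_rfl, if_neg (by norm_num)]
        unfold Aa FF ff
        rw [if_neg (by norm_num)]
        have hA := F7_prod 3 t
        have hB := F7_prod 1 t
        have e0 : (1 - 1 : ℝ) * t = 0 := by ring
        rw [e0, Real.cos_zero] at hB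
        have e1 : (((2 * 1 + 1 : ℕ) : ℝ) + 1) * t = (3 + 1) * t := by push_cast; ring
        have e2 : (((2 * (1 - 1) + 1 : ℕ) : ℝ) + 1) * t = (1 + 1) * t := by push_cast; ring
        have e3 : (((2 * 1 : ℕ) : ℝ) + 1) * t = 3 * t := by push_cast; ring
        have e4 : (((2 * 1 - 2 : ℕ) : ℝ) + 1) * t = 1 * t := by push_cast; ring
        have e5 : (3 - 1 : ℝ) * t = (1 + 1) * t := by ring
        rw [e5] at hA
        rw [e1, e2, e3, e4]
        push_cast
        linear_combination (-1 / 2 : ℝ) * hA - (1 / 6 : ℝ) * hB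
      · obtain ⟨k, rfl⟩ : ∃ k, n = k + 2 := ⟨n - 2, by omega⟩
        rw [if_pos h0, if_pos h1]
        unfold Aa FF ff
        rw [if_neg (by omega)]
        have hA := F7_prod (2 * (k : ℝ) + 5) t
        have hB := F7_prod (2 * (k : ℝ) + 3) t
        have e1 : (((2 * (k + 2) + 1 : ℕ) : ℝ) + 1) * t = (2 * (k : ℝ) + 5 + 1) * t := by push_cast; ring
        have e2 : (((2 * (k + 2 - 1) + 1 : ℕ) : ℝ) + 1) * t = (2 * (k : ℝ) + 3 + 1) * t := by
          have h : 2 * (k + 2 - 1) + 1 = 2 * k + 3 := by omega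
          rw [h]; push_cast; ring
        have e3 : (((2 * (k + 2 - 2) + 1 : ℕ) : ℝ) + 1) * t = (2 * (k : ℝ) + 3 - 1) * t := by
          have h : 2 * (k + 2 - 2) + 1 = 2 * k + 1 := by omega
          rw [h]; push_cast; ring
        have e4 : (((2 * (k + 2) : ℕ) : ℝ) + 1) * t = (2 * (k : ℝ) + 5) * t := by push_cast; ring
        have e5 : (((2 * (k + 2) - 2 : ℕ) : ℝ) + 1) * t = (2 * (k : ℝ) + 3) * t := by
          have h : 2 * (k + 2) - 2 = 2 * k + 2 := by omega
          rw [h]; push_cast; ring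
        have e6 : (2 * (k : ℝ) + 5 - 1) * t = (2 * (k : ℝ) + 3 + 1) * t := by ring
        have f1 : (((2 * (k + 2) + 1 : ℕ) : ℝ) + 1) = 2 * (k : ℝ) + 6 := by push_cast; ring
        have f2 : (((2 * (k + 2 - 1) + 1 : ℕ) : ℝ) + 1) = 2 * (k : ℝ) + 4 := by
          have h : 2 * (k + 2 - 1) + 1 = 2 * k + 3 := by omega
          rw [h]; push_cast; ring
        have f3 : (((2 * (k + 2 - 2) + 1 : ℕ) : ℝ) + 1) = 2 * (k : ℝ) + 2 := by
          have h : 2 * (k + 2 - 2) + 1 = 2 * k + 1 := by omega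
          rw [h]; push_cast; ring
        have f4 : ((k + 2 : ℕ) : ℝ) = (k : ℝ) + 2 := by push_cast; ring
        rw [e6] at hA
        rw [e1, e2, e3, e4, e5, f1, f2, f3, f4]
        have k0 : (k : ℝ) + 2 + 1 ≠ 0 := by positivity
        have k1 : 2 * (k : ℝ) + 6 ≠ 0 := by positivity
        have k2 : 2 * (k : ℝ) + 4 ≠ 0 := by positivity
        have k3 : 2 * (k : ℝ) + 2 ≠ 0 := by positivity
        have g1 : Real.sin t * (2 * Real.sin ((2 * (k : ℝ) + 5) * t) + 1 / 3 *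
            (2 * Real.sin ((2 * (k : ℝ) + 3) * t))) =
            (Real.cos ((2 * (k : ℝ) + 3 + 1) * t) - Real.cos ((2 * (k : ℝ) + 5 + 1) * t)) + 1 / 3 *
            (Real.cos ((2 * (k : ℝ) + 3 - 1) * t) - Real.cos ((2 * (k : ℝ) + 3 + 1) * t)) := by
          linear_combination hA + (1 / 3 : ℝ) * hB
        rw [g1]
        generalize Real.cos ((2 * (k : ℝ) + 3 + 1) * t) = c2
        generalize Real.cos ((2 * (k : ℝ) + 5 + 1) * t) = c1
        generalize Real.cos ((2 * (k : ℝ) + 3 - 1) * t) = c3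
        field_simp
        ring
  exact hgen (j : ℕ)

theorem row1_f (m : ℕ) (j : Fin m) (t : ℝ) :
    HasDerivAt (fun x => Real.sin x * Aa (j : ℕ) x / ((j : ℕ) + 1)) (∑ c, TT m (j, 1) c * ff (idx c) t) t := by
  have e : (fun x => Real.sin x * Aa (j : ℕ) x / ((j : ℕ) + 1)) =
      fun x => ∑ c, TT m (j, 1) c * FF (idx c) x := by
    funext x
    exact (row1_F m j x).symm
  rw [e]
  exact HasDerivAt.fun_sum fun c _ => (F7_deriv (idx c) t).const_mul _

end TQ
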