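import Pool.Agent.Lib.MP_021685_agTQ.F0

/-!
LEAF F8.  `∫ F_a f_b` is symmetric for indices of the same parity.
With `K = idx a + 1`, `L = idx b + 1`: `∫_0^π F_a f_b = (4/K) ∫ (1 - cos K t) sin L t`, `∫_0^π sin L t = (1 - (-1)^L)/L`, and `∫_0^π cos K t sin L t = 0` for `K + L` even
(`cos K t sin L t = (sin((L+K)t) + sin((L-K)t))/2`, both frequencies even, so both integrals are `0`).  So the integral is `4 (1 - (-1)^L)/(K L)`, symmetric because `K` and `L` have the same parity.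
-/

set_option autoImplicit false

namespace TQ

private theorem F8_sin (L : ℕ) : ∫ t in (0 : ℝ)..Real.pi, Real.sin (((L : ℕ) + 1 : ℝ) * t) =
    (1 - (-1) ^ (L + 1)) / ((L : ℝ) + 1) := by
  have hL : ((L : ℝ) + 1) ≠ 0 := by positivity
  rw [intervalIntegral.integral_comp_mul_left (fun x => Real.sin x) hL, integral_sin, mul_zero, Real.cos_zero]
  have h1 : Real.cos (((L : ℝ) + 1) * Real.pi) = (-1) ^ (L + 1) := by
    have h2 := Real.cos_nat_mul_pi (L + 1)
    push_cast at h2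
    exact h2
  rw [h1, smul_eq_mul]
  field_simp

private theorem F8_cos (K L : ℕ) (h : Even (K + L)) :
    ∫ t in (0 : ℝ)..Real.pi, Real.cos (((K : ℕ) + 1 : ℝ) * t) * Real.sin (((L : ℕ) + 1 : ℝ) * t) = 0 := by
  have h1 := intervalIntegral.integral_comp_sub_left (a := (0 : ℝ)) (b := Real.pi)
    (fun t : ℝ => Real.cos (((K : ℕ) + 1 : ℝ) * t) * Real.sin (((L : ℕ) + 1 : ℝ) * t)) Real.pi
  rw [sub_self, sub_zero] at h1
  have hc : ∀ n : ℕ, Real.cos (((n : ℝ) + 1) * Real.pi) = (-1) ^ (n + 1) := by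
    intro n
    have h2 := Real.cos_nat_mul_pi (n + 1)
    push_cast at h2
    exact h2
  have hs : ∀ n : ℕ, Real.sin (((n : ℝ) + 1) * Real.pi) = 0 := by
    intro n
    have h2 := Real.sin_nat_mul_pi (n + 1)
    push_cast at h2
    exact h2
  have hsign : (-1 : ℝ) ^ (K + 1) * (-1) ^ (L + 1) = 1 := by
    rw [← pow_add]
    have h2 : K + 1 + (L + 1) = K + L + 2 := by ring
    rw [h2, pow_add, h.neg_one_pow]
    norm_num
  have h2 : ∀ t : ℝ, Real.cos (((K : ℕ) + 1 : ℝ) * (Real.pi - t)) * Real.sin (((L : ℕ) + 1 : ℝ) * (Real.pi - t)) =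
      -(Real.cos (((K : ℕ) + 1 : ℝ) * t) * Real.sin (((L : ℕ) + 1 : ℝ) * t)) := by
    intro t
    rw [mul_sub, mul_sub, Real.cos_sub, Real.sin_sub, hc, hs, hc, hs]
    linear_combination (-Real.cos (((K : ℕ) + 1 : ℝ) * t) * Real.sin (((L : ℕ) + 1 : ℝ) * t)) * hsign
  have h3 : ∫ t in (0 : ℝ)..Real.pi, Real.cos (((K : ℕ) + 1 : ℝ) * (Real.pi - t)) *
      Real.sin (((L : ℕ) + 1 : ℝ) * (Real.pi - t)) =
      -∫ t in (0 : ℝ)..Real.pi, Real.cos (((K : ℕ) + 1 : ℝ) * t) * Real.sin (((L : ℕ) + 1 : ℝ) * t) := by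
    rw [← intervalIntegral.integral_neg]
    exact intervalIntegral.integral_congr fun t _ => h2 t
  rw [h3] at h1
  linarith

private theorem F8_ww (K L : ℕ) (h : Even (K + L)) :
    ∫ t in (0 : ℝ)..Real.pi, FF K t * ff L t = 4 * (1 - (-1) ^ (L + 1)) / (((K : ℝ) + 1) * ((L : ℝ) + 1)) := by
  have hK : ((K : ℝ) + 1) ≠ 0 := by positivity
  have hL : ((L : ℝ) + 1) ≠ 0 := by positivity
  have h1 : ∀ t : ℝ, FF K t * ff L t = 4 / ((K : ℝ) + 1) * (Real.sin (((L : ℕ) + 1 : ℝ) * t) -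
      Real.cos (((K : ℕ) + 1 : ℝ) * t) * Real.sin (((L : ℕ) + 1 : ℝ) * t)) := by
    intro t
    unfold FF ff
    ring
  rw [intervalIntegral.integral_congr fun t _ => h1 t, intervalIntegral.integral_const_mul,
    intervalIntegral.integral_sub, F8_sin, F8_cos K L h, sub_zero]
  · field_simp
  · apply Continuous.intervalIntegrable
    fun_prop
  · apply Continuous.intervalIntegrable
    fun_prop

theorem ww_symm {m : ℕ} (a b : Fin m × Fin 2) (h : a.2 = b.2) : ww a b = ww b a := by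
  unfold ww
  have he : Even (idx a + idx b) := by
    unfold idx
    rw [h]
    exact ⟨(a.1 : ℕ) + (b.1 : ℕ) + (b.2 : ℕ), by ring⟩
  have he' : Even (idx b + idx a) := by
    rw [add_comm]
    exact he
  rw [F8_ww _ _ he, F8_ww _ _ he']
  have hs : (-1 : ℝ) ^ (idx b + 1) = (-1) ^ (idx a + 1) := by
    have h1 : Even (idx a + 1 + (idx b + 1)) := by
      obtain ⟨c, hc⟩ := he
      exact ⟨c + 1, by omega⟩
    have h2 : (-1 : ℝ) ^ (idx a + 1) * (-1) ^ (idx b + 1) = 1 := by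
      rw [← pow_add, h1.neg_one_pow]
    rcases neg_one_pow_eq_or ℝ (idx a + 1) with h3 | h3 <;> rw [h3] at h2 ⊢ <;> linarith
  rw [hs, mul_comm ((idx a : ℝ) + 1)]

end TQ
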