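import Pool.Agent.Lib.MP_021685_agTQ.F6
import Pool.Agent.Lib.MP_021685_agTQ.F7
import Pool.Agent.Lib.MP_021685_agTQ.F8

/-!
LEAF F9.  The matrix of the test functions.
UU_same: in the sum only `c` with `c.2 = a.2` and `d` with `d.2 = b.2 = a.2` contribute (`Matrix.blockDiagonal_apply`), `ww_symm`.
UU_mixed: by linearity of the integral (continuous functions) the sum is `∫ (FA i)(t) B_j(t) - ∫ (sin t A_j(t)/(j+1)) A_i(t)`, `B_j(t) = ∑ TT (j,1) d ff (idx d) t` (row0_f, row0_F, row1_F, row1_f); integration by parts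
(`intervalIntegral.integral_mul_deriv_eq_deriv_mul`; `FA i` has derivative `Aa i`; the boundary terms vanish because `sin 0 = sin π = 0`): the first integral is `- ∫ A_i(t) sin t A_j(t)/(j+1)`.
-/

set_option autoImplicit false

namespace TQ

private theorem F9_ff_cont (k : ℕ) : Continuous (ff k) := by
  unfold ff
  fun_prop

private theorem F9_FF_cont (k : ℕ) : Continuous (FF k) := by
  unfold FF
  fun_prop

private theorem F9_sum {m : ℕ} (α β : Fin m × Fin 2 → ℝ) :
    ∑ c, ∑ d, α c * β d * ww c d =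
      ∫ t in (0 : ℝ)..Real.pi, (∑ c, α c * FF (idx c) t) * (∑ d, β d * ff (idx d) t) := by
  have h1 : ∀ t : ℝ, (∑ c, α c * FF (idx c) t) * (∑ d, β d * ff (idx d) t) =
      ∑ c, ∑ d, α c * β d * (FF (idx c) t * ff (idx d) t) := by
    intro t
    rw [Finset.sum_mul_sum]
    exact Finset.sum_congr rfl fun c _ => Finset.sum_congr rfl fun d _ => by ring
  simp only [h1]
  have hc : ∀ c d : Fin m × Fin 2, Continuous fun t : ℝ => α c * β d * (FF (idx c) t * ff (idx d) t) := fun c d =>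
    continuous_const.mul ((F9_FF_cont _).mul (F9_ff_cont _))
  rw [intervalIntegral.integral_finsetSum
    fun c _ => (continuous_finsetSum _ fun d _ => hc c d).intervalIntegrable 0 Real.pi]
  refine Finset.sum_congr rfl fun c _ => ?_
  rw [intervalIntegral.integral_finsetSum fun d _ => (hc c d).intervalIntegrable 0 Real.pi]
  refine Finset.sum_congr rfl fun d _ => ?_
  rw [intervalIntegral.integral_const_mul]
  rfl

private theorem F9_FF_deriv (k : ℕ) (t : ℝ) : HasDerivAt (FF k) (ff k t) t := by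
  have hk : ((k : ℕ) + 1 : ℝ) ≠ 0 := by positivity
  have h1 : HasDerivAt (fun t : ℝ => ((k : ℕ) + 1 : ℝ) * t) ((k : ℕ) + 1 : ℝ) t := by
    have h := (hasDerivAt_id t).const_mul ((k : ℕ) + 1 : ℝ)
    rw [mul_one] at h
    exact h
  have h2 := ((h1.cos.const_sub 1).const_mul 2).div_const ((k : ℝ) + 1)
  have h3 : 2 * -(-Real.sin (((k : ℕ) + 1 : ℝ) * t) * ((k : ℕ) + 1 : ℝ)) / ((k : ℝ) + 1) = ff k t := by
    unfold ff
    field_simp
  rw [h3] at h2
  exact h2

private theorem F9_FA_deriv (i : ℕ) (t : ℝ) : HasDerivAt (FA i) (Aa i t) t := by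
  unfold FA Aa
  by_cases hi : i = 0
  · simp only [hi, if_true]
    exact (F9_FF_deriv _ t).add_const 0 |>.congr_deriv (by ring)
  · simp only [hi, if_false]
    exact (F9_FF_deriv _ t).add ((F9_FF_deriv _ t).const_mul (1 / 3))

private theorem F9_Aa_cont (i : ℕ) : Continuous (Aa i) := by
  unfold Aa
  by_cases hi : i = 0
  · simp only [hi, if_true]
    exact (F9_ff_cont _).add continuous_const
  · simp only [hi, if_false]
    exact (F9_ff_cont _).add (continuous_const.mul (F9_ff_cont _))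

theorem UU_same (m : ℕ) (a b : Fin m × Fin 2) (h : a.2 = b.2) :
    ∑ c, ∑ d, TT m a c * TT m b d * (ww c d - ww d c) = 0 := by
  refine Finset.sum_eq_zero fun c _ => Finset.sum_eq_zero fun d _ => ?_
  by_cases hc : a.2 = c.2
  · by_cases hd : b.2 = d.2
    · rw [ww_symm c d (by rw [← hc, ← hd, h]), sub_self, mul_zero]
    · have h1 : TT m b d = 0 := by
        unfold TT
        rw [Matrix.blockDiagonal_apply, if_neg hd]
      rw [h1, mul_zero, zero_mul]
  · have h1 : TT m a c = 0 := by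
      unfold TT
      rw [Matrix.blockDiagonal_apply, if_neg hc]
    rw [h1, zero_mul, zero_mul]

theorem UU_mixed (m : ℕ) (i j : Fin m) :
    ∑ c, ∑ d, TT m (i, 0) c * TT m (j, 1) d * (ww c d - ww d c) = -(2 / ((j : ℕ) + 1 : ℝ)) * Gm (i : ℕ) (j : ℕ) := by
  have h1 : ∑ c, ∑ d, TT m (i, 0) c * TT m (j, 1) d * (ww c d - ww d c) =
      (∑ c, ∑ d, TT m (i, 0) c * TT m (j, 1) d * ww c d) -
        ∑ d, ∑ c, TT m (j, 1) d * TT m (i, 0) c * ww d c := by
    have h2 : ∑ d, ∑ c, TT m (j, 1) d * TT m (i, 0) c * ww d c = ∑ c, ∑ d, TT m (j, 1) d * TT m (i, 0) c * ww d c :=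
      Finset.sum_comm
    rw [h2, ← Finset.sum_sub_distrib]
    refine Finset.sum_congr rfl fun c _ => ?_
    rw [← Finset.sum_sub_distrib]
    exact Finset.sum_congr rfl fun d _ => by ring
  have hj : ((j : ℕ) + 1 : ℝ) ≠ 0 := by positivity
  rw [h1, F9_sum, F9_sum]
  simp only [row0_F, row0_f, row1_F]
  have h3 : ∫ t in (0 : ℝ)..Real.pi, Real.sin t * Aa (j : ℕ) t / ((j : ℕ) + 1) * Aa (i : ℕ) t =
      Gm (i : ℕ) (j : ℕ) / ((j : ℕ) + 1) := by
    unfold Gm
    rw [← intervalIntegral.integral_div]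
    refine intervalIntegral.integral_congr fun t _ => ?_
    show Real.sin t * Aa (j : ℕ) t / ((j : ℕ) + 1) * Aa (i : ℕ) t = Aa (i : ℕ) t * Aa (j : ℕ) t * Real.sin t / ((j : ℕ) + 1)
    ring
  have hcB : Continuous fun t : ℝ => ∑ d, TT m (j, 1) d * ff (idx d) t :=
    continuous_finsetSum _ fun d _ => continuous_const.mul (F9_ff_cont _)
  have h4 : ∫ t in (0 : ℝ)..Real.pi, FA (i : ℕ) t * (∑ d, TT m (j, 1) d * ff (idx d) t) =
      -(Gm (i : ℕ) (j : ℕ) / ((j : ℕ) + 1)) := by
    rw [intervalIntegral.integral_mul_deriv_eq_deriv_mul (u := FA (i : ℕ))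
      (v := fun x => Real.sin x * Aa (j : ℕ) x / ((j : ℕ) + 1)) (u' := Aa (i : ℕ))
      (v' := fun t => ∑ d, TT m (j, 1) d * ff (idx d) t) (fun x _ => F9_FA_deriv _ x) (fun x _ => row1_f m j x)
      ((F9_Aa_cont _).intervalIntegrable _ _) (hcB.intervalIntegrable _ _), ← h3]
    simp only [Real.sin_pi, Real.sin_zero, zero_mul, zero_div, mul_zero, sub_self, zero_sub]
    congr 1
    exact intervalIntegral.integral_congr fun t _ => mul_comm _ _
  rw [h3, h4]
  field_simp
  ring

end TQ
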