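import Pool.Agent.Lib.MP_021685_agTQ.PA8
import Pool.Agent.Lib.MP_021685_agTQ.F2
import Pool.Agent.Lib.MP_021685_agTQ.F4
import Pool.Agent.Lib.MP_021685_agTQ.F5
import Pool.Agent.Lib.MP_021685_agTQ.F9
import Pool.Agent.Lib.MP_021685_agTQ.F10
import Pool.Agent.Lib.MP_021685_agTQ.F11

/-!
LEAF F12.  The assembly.
`KK (2m) ≤ |S(br)|/(2^m m!)` (`kk_le_br`, PA8).  `S(br) = S(T br Tᵀ)` (`SS_mul`, `TT_det`).  By `UU_same`, `UU_mixed` (and antisymmetry for the places `((j,1),(i,0))`)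
the last matrix is `w - wᵀ` with `w((i,0),(j,1)) = b i j = -(2/(j+1)) G_ij`, `0` otherwise, so `S = 2^m m! det b` (`ss_anti` of PA9, `SS_block`).  `|det b| = ∏_j (2/(j+1)) det G = (2^m/m!) det G` (`Matrix.det_mul_row` or
`Matrix.det_mul` with `Matrix.diagonal`; `∏_(j : Fin m) (j+1) = m!`: `Fin.prod_univ_eq_prod_range`, `Finset.prod_range_add_one_eq_factorial`).  So `KK (2m) ≤ (2^m/m!) ∏ G_ii ≤ 16 e² (64/9)^m/m!`.
-/

set_option autoImplicit false

namespace TQ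

private theorem F12_fin2 (e : Fin 2) : e = 0 ∨ e = 1 := by
  fin_cases e
  · exact Or.inl rfl
  · exact Or.inr rfl

private noncomputable def F12_b (m : ℕ) : Matrix (Fin m) (Fin m) ℝ :=
  Matrix.of fun i j => (-(2 / ((j : ℕ) + 1 : ℝ))) * Gm (i : ℕ) (j : ℕ)

private noncomputable def F12_w (m : ℕ) (x y : Fin m × Fin 2) : ℝ :=
  if x.2 = 0 ∧ y.2 = 1 then F12_b m x.1 y.1 else 0

private theorem F12_U (m : ℕ) (a b : Fin m × Fin 2) :
    ∑ c, ∑ d, TT m a c * TT m b d * (ww c d - ww d c) = F12_w m a b - F12_w m b a := by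
  obtain ⟨i, e⟩ := a
  obtain ⟨j, e'⟩ := b
  have h10 : ¬ ((1 : Fin 2) = 0) := by decide
  have h01 : ¬ ((0 : Fin 2) = 1) := by decide
  rcases F12_fin2 e with rfl | rfl <;> rcases F12_fin2 e' with rfl | rfl
  · rw [UU_same m (i, 0) (j, 0) rfl]
    simp only [F12_w, h01, and_false, if_false, sub_zero]
  · rw [UU_mixed m i j]
    simp only [F12_w, F12_b, h10, h01, and_self, if_true, if_false, Matrix.of_apply, sub_zero]
  · have h : ∑ c, ∑ d, TT m (i, 1) c * TT m (j, 0) d * (ww c d - ww d c) =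
        -∑ c, ∑ d, TT m (j, 0) c * TT m (i, 1) d * (ww c d - ww d c) := by
      rw [Finset.sum_comm, ← Finset.sum_neg_distrib]
      refine Finset.sum_congr rfl fun c _ => ?_
      rw [← Finset.sum_neg_distrib]
      refine Finset.sum_congr rfl fun d _ => ?_
      ring
    rw [h, UU_mixed m j i]
    simp only [F12_w, F12_b, h10, h01, and_self, if_true, if_false, Matrix.of_apply, zero_sub]
  · rw [UU_same m (i, 1) (j, 1) rfl]
    simp only [F12_w, h10, false_and, if_false, sub_zero]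

private theorem F12_SS (m : ℕ) : SS (fun a b : Fin m × Fin 2 => br a b) =
    2 ^ m * ((m.factorial : ℝ) * (F12_b m).det) := by
  have h1 := SS_mul (TT m) (fun c d : Fin m × Fin 2 => ww c d - ww d c)
  rw [TT_det, one_mul] at h1
  have h2 : (fun a b : Fin m × Fin 2 => ∑ c, ∑ d, TT m a c * TT m b d * (ww c d - ww d c)) =
      fun a b => F12_w m a b - F12_w m b a := by
    funext a b
    exact F12_U m a b
  rw [h2, ss_anti] at h1
  have h3 : SS (F12_w m) = (m.factorial : ℝ) * (F12_b m).det := SS_block (F12_b m)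
  rw [h3] at h1
  exact h1.symm

private theorem F12_det (m : ℕ) : |(F12_b m).det| =
    2 ^ m / (m.factorial : ℝ) * (Matrix.of fun i j : Fin m => Gm (i : ℕ) (j : ℕ)).det := by
  have h1 : (F12_b m).det = (∏ j : Fin m, (-(2 / ((j : ℕ) + 1 : ℝ)))) *
      (Matrix.of fun i j : Fin m => Gm (i : ℕ) (j : ℕ)).det :=
    Matrix.det_mul_row (fun j : Fin m => (-(2 / ((j : ℕ) + 1 : ℝ)))) (Matrix.of fun i j : Fin m => Gm (i : ℕ) (j : ℕ))
  have h2 : ∏ j : Fin m, |(-(2 / ((j : ℕ) + 1 : ℝ)))| = 2 ^ m / (m.factorial : ℝ) := by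
    have h3 : ∀ j : Fin m, |(-(2 / ((j : ℕ) + 1 : ℝ)))| = 2 / ((j : ℕ) + 1 : ℝ) := fun j => by
      rw [abs_neg, abs_of_nonneg (by positivity)]
    rw [Finset.prod_congr rfl fun j _ => h3 j, Finset.prod_div_distrib, Finset.prod_const, Finset.card_univ,
      Fintype.card_fin, Fin.prod_univ_eq_prod_range (fun j : ℕ => ((j : ℝ) + 1)) m]
    congr 1
    rw [← Finset.prod_range_add_one_eq_factorial]
    push_cast
    rfl
  rw [h1, abs_mul, Finset.abs_prod, h2, abs_of_nonneg (Gm_det m).1]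

theorem KK_even_F : ∃ C : ℝ, 0 ≤ C ∧ ∀ m : ℕ, KK (2 * m) ≤ C * (64 / 9) ^ m / (m.factorial : ℝ) := by
  refine ⟨16 * Real.exp 2, by positivity, fun m => ?_⟩
  have hf : (0 : ℝ) < (m.factorial : ℝ) := by exact_mod_cast m.factorial_pos
  have h2 : (0 : ℝ) < 2 ^ m := by positivity
  refine (kk_le_br m).trans ?_
  rw [F12_SS, abs_mul, abs_mul, abs_of_pos h2, abs_of_pos hf, F12_det]
  have h3 : (2 : ℝ) ^ m * ((m.factorial : ℝ) * (2 ^ m / (m.factorial : ℝ) *
      (Matrix.of fun i j : Fin m => Gm (i : ℕ) (j : ℕ)).det)) / (2 ^ m * (m.factorial : ℝ)) =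
      2 ^ m * (Matrix.of fun i j : Fin m => Gm (i : ℕ) (j : ℕ)).det / (m.factorial : ℝ) := by
    field_simp
  rw [h3]
  refine div_le_div_of_nonneg_right ?_ hf.le
  calc (2 : ℝ) ^ m * (Matrix.of fun i j : Fin m => Gm (i : ℕ) (j : ℕ)).det
      ≤ 2 ^ m * (16 * Real.exp 2 * (32 / 9) ^ m) :=
        mul_le_mul_of_nonneg_left ((Gm_det m).2.trans (Gm_prod m)) h2.le
    _ = 16 * Real.exp 2 * (2 ^ m * (32 / 9) ^ m) := by ring
    _ = 16 * Real.exp 2 * (64 / 9) ^ m := by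
        rw [← mul_pow]
        norm_num

end TQ
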