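import Pool.Agent.Lib.MP_021685_agTQ.F3
import Pool.Agent.Lib.MP_021685_agTQ.F12

/-! Block PF (Pfaffian): the integral `KK`. -/

namespace TQ

/-- Cauchy-Schwarz -/
theorem KK_le (n : ℕ) : KK n ≤ (Real.sqrt 2 * Real.pi) ^ n / Real.sqrt (n.factorial) := KK_le_F n

/-- Pfaffian and test polynomials -/
theorem KK_even : ∃ C : ℝ, 0 ≤ C ∧ ∀ m : ℕ, KK (2 * m) ≤ C * (64 / 9) ^ m / (m.factorial : ℝ) := KK_even_F

end TQ
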