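import Mathlib

/-! LEAF P10a (easy, Mathlib only).  Counting integer points in a rhombus.

PROOF.  `x = N / (8 s) ≥ 0`.  Take `S` = the `(d, c)` with `d ∈ Finset.Icc (-⌊x⌋) ⌊x⌋` and `c ∈ Finset.Ioo ⌊-a - (N/2 - 2 s |d|)⌋ ⌈-a + (N/2 - 2 s |d|)⌉` (a `Finset.sigma`, or `Finset.biUnion` / `Finset.card_sigma`; or the product of the `d`s with a large interval, filtered).  For such `d`: `|d| ≤ x`, so `2 s |d| ≤ N/4` and the open interval has length `≥ N/2`,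
so it contains at least `N/2 - 1` integers.  The number of the `d` is `2 ⌊x⌋ + 1 ≥ x` (`x < 1`: it is `≥ 1`; `x ≥ 1`: `⌊x⌋ > x - 1`).  So `64 s * card ≥ 64 s * (N / (8 s)) * (N/2 - 1) = 4 N^2 - 8 N ≥ (N + 1)^2` for `N ≥ 63`. -/

namespace TQ

theorem count_rhombus {s N a : ℝ} (hs : 1 ≤ s) (hN : 63 ≤ N) :
    ∃ S : Finset (ℤ × ℤ), (∀ p ∈ S, |(p.2 : ℝ) + a| < N / 2 - 2 * s * |(p.1 : ℝ)|) ∧
      (N + 1) ^ 2 ≤ 64 * s * (S.card : ℝ) := by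
  have hs0 : 0 < s := by linarith
  have hx0 : 0 ≤ N / (8 * s) := by positivity
  have hk0 : 0 ≤ ⌊N / (8 * s)⌋ := Int.floor_nonneg.2 hx0
  have hkx : (⌊N / (8 * s)⌋ : ℝ) ≤ N / (8 * s) := Int.floor_le _
  have hxk : N / (8 * s) < (⌊N / (8 * s)⌋ : ℝ) + 1 := Int.lt_floor_add_one _
  refine ⟨(Finset.Icc (-⌊N / (8 * s)⌋) ⌊N / (8 * s)⌋) ×ˢ
    (Finset.Ioo ⌊-a - N / 4⌋ ⌈-a + N / 4⌉), ?_, ?_⟩
  · intro p hp
    rw [Finset.mem_product, Finset.mem_Icc, Finset.mem_Ioo] at hp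
    obtain ⟨⟨h1, h2⟩, h3, h4⟩ := hp
    have h5 : |(p.1 : ℝ)| ≤ N / (8 * s) := by
      have h1' : (-(⌊N / (8 * s)⌋ : ℝ)) ≤ (p.1 : ℝ) := by exact_mod_cast h1
      have h2' : (p.1 : ℝ) ≤ (⌊N / (8 * s)⌋ : ℝ) := by exact_mod_cast h2
      exact abs_le.2 ⟨by linarith, by linarith⟩
    have h6 : 2 * s * |(p.1 : ℝ)| ≤ N / 4 := by
      have h7 : 2 * s * |(p.1 : ℝ)| ≤ 2 * s * (N / (8 * s)) :=
        mul_le_mul_of_nonneg_left h5 (by positivity)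
      have h8 : 2 * s * (N / (8 * s)) = N / 4 := by
        field_simp
        ring
      linarith
    have h9 : -a - N / 4 < (p.2 : ℝ) := Int.floor_lt.1 h3
    have h10 : (p.2 : ℝ) < -a + N / 4 := Int.lt_ceil.1 h4
    have h11 : |(p.2 : ℝ) + a| < N / 4 := abs_lt.2 ⟨by linarith, by linarith⟩
    linarith
  · rw [Finset.card_product, Int.card_Icc, Int.card_Ioo]
    push_cast
    have h1 : N / (8 * s) ≤ (((⌊N / (8 * s)⌋ + 1 - -⌊N / (8 * s)⌋).toNat : ℕ) : ℝ) := by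
      have h2 : ((⌊N / (8 * s)⌋ + 1 - -⌊N / (8 * s)⌋ : ℤ) : ℝ) ≤
          (((⌊N / (8 * s)⌋ + 1 - -⌊N / (8 * s)⌋).toNat : ℕ) : ℝ) := by
        exact_mod_cast Int.self_le_toNat _
      push_cast at h2
      have h3 : (0 : ℝ) ≤ (⌊N / (8 * s)⌋ : ℝ) := by exact_mod_cast hk0
      linarith
    have h4 : N / 2 - 1 ≤ (((⌈-a + N / 4⌉ - ⌊-a - N / 4⌋ - 1).toNat : ℕ) : ℝ) := by
      have h5 : ((⌈-a + N / 4⌉ - ⌊-a - N / 4⌋ - 1 : ℤ) : ℝ) ≤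
          (((⌈-a + N / 4⌉ - ⌊-a - N / 4⌋ - 1).toNat : ℕ) : ℝ) := by
        exact_mod_cast Int.self_le_toNat _
      push_cast at h5
      have h6 : -a + N / 4 ≤ (⌈-a + N / 4⌉ : ℝ) := Int.le_ceil _
      have h7 : (⌊-a - N / 4⌋ : ℝ) ≤ -a - N / 4 := Int.floor_le _
      linarith
    have h8 : (N / (8 * s)) * (N / 2 - 1) ≤
        (((⌊N / (8 * s)⌋ + 1 - -⌊N / (8 * s)⌋).toNat : ℕ) : ℝ) *
          (((⌈-a + N / 4⌉ - ⌊-a - N / 4⌋ - 1).toNat : ℕ) : ℝ) :=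
      mul_le_mul h1 h4 (by linarith) (by positivity)
    have h9 : 64 * s * ((N / (8 * s)) * (N / 2 - 1)) = 4 * N ^ 2 - 8 * N := by
      field_simp
      ring
    calc (N + 1) ^ 2 ≤ 4 * N ^ 2 - 8 * N := by nlinarith
      _ = 64 * s * ((N / (8 * s)) * (N / 2 - 1)) := h9.symm
      _ ≤ _ := mul_le_mul_of_nonneg_left h8 (by positivity)

end TQ
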