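import Pool.Agent.Lib.MP_021685_agTQ.P6b
import Pool.Agent.Lib.MP_021685_agTQ.P10a

/-! LEAF P10 (medium-): the plane of a long line is fat.

PROOF.  `exists_dat` (P4), `line_facts` (P6b) for `h₀`: `M`, `m`, `N = M - m`, `LN ≤ N + 1` (the strict members of the line are Weil members).  If `LN ≤ 64 √q`: the strict members of the line are in the plane, so `LN² ≤ 64 √q * card`.  Otherwise `N ≥ 63`; the polynomials `h₀ + C d * X + C c` for `(d, c)` in the rhombus
of `count_rhombus` (P10a, with `a = (M + m)/2`) are different members of the plane by `move_strict` (P6a). -/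

namespace TQ

open Polynomial TI

theorem fat_plane {q g : ℕ} (hq : 1 ≤ q) (hg : 3 ≤ g) {h₀ : ℤ[X]} (h0 : h₀ ∈ Weil q g) :
    (LN q g h₀ : ℝ) ^ 2 ≤ 64 * Real.sqrt q *
      (({h | h ∈ Weil q g ∧ pre g (g - 2) h = pre g (g - 2) h₀} : Set ℤ[X]).ncard : ℝ) := by
  classical
  have hg2 : 2 ≤ g := by omega
  obtain ⟨zz, hz, hD⟩ := exists_dat hq hg2 h0
  obtain ⟨w, K, K', D, hK, hK', he, ho, hM, hm, -, hW⟩ := line_facts hg2 hz hD h0 rfl
  obtain ⟨S, hS⟩ : ∃ S : Set ℤ[X], S = {h | h ∈ Weil q g ∧ pre g (g - 2) h = pre g (g - 2) h₀} := ⟨_, rfl⟩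
  have hSm : ∀ h, h ∈ S ↔ h ∈ Weil q g ∧ pre g (g - 2) h = pre g (g - 2) h₀ := by
    intro h
    rw [hS]
    rfl
  have hfin : S.Finite := (Weil_finite q g).subset fun h hh => ((hSm h).1 hh).1
  rw [← hS]
  have hsq : 1 ≤ Real.sqrt q := by
    rw [← Real.sqrt_one]
    exact Real.sqrt_le_sqrt (by exact_mod_cast hq)
  -- the line
  have hL1 : (LN q g h₀ : ℝ) ≤
      (({h' | h' ∈ Weil q g ∧ pre g (g - 1) h' = pre g (g - 1) h₀} : Set ℤ[X]).ncard : ℝ) := by
    refine Nat.cast_le.2 (Set.ncard_le_ncard ?_ ((Weil_finite q g).subset fun h hh => hh.1))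
    intro h hh
    exact ⟨hh.1.1, hh.2⟩
  have hL2 : (({h' | h' ∈ Weil q g ∧ pre g (g - 1) h' = pre g (g - 1) h₀} : Set ℤ[X]).ncard : ℝ) ≤ (S.ncard : ℝ) := by
    refine Nat.cast_le.2 (Set.ncard_le_ncard ?_ hfin)
    intro h hh
    refine (hSm h).2 ⟨hh.1, ?_⟩
    funext i
    have h1 := congrFun hh.2 ⟨(i : ℕ), by omega⟩
    exact h1
  obtain ⟨N, hN⟩ : ∃ N : ℝ, N = (h₀.map (Int.castRingHom ℝ)).eval (w K) - (h₀.map (Int.castRingHom ℝ)).eval (w K') :=
    ⟨_, rfl⟩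
  rw [← hN] at hW
  have hLN : (LN q g h₀ : ℝ) ≤ N + 1 := hL1.trans hW
  have hLN0 : (0 : ℝ) ≤ LN q g h₀ := Nat.cast_nonneg _
  rcases le_or_gt ((LN q g h₀ : ℝ)) (64 * Real.sqrt q) with hc | hc
  · rw [sq]
    exact mul_le_mul hc (hL1.trans hL2) hLN0 (by linarith)
  · have hN63 : 63 ≤ N := by linarith
    obtain ⟨R, hR1, hR2⟩ := count_rhombus (a := ((h₀.map (Int.castRingHom ℝ)).eval (w K) +
      (h₀.map (Int.castRingHom ℝ)).eval (w K')) / 2) hsq hN63
    have hinj : Function.Injective (fun p : ℤ × ℤ => h₀ + C p.1 * X + C p.2) := by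
      intro p p' hpp
      simp only at hpp
      have c1 := congrArg (fun h : ℤ[X] => h.coeff 1) hpp
      have c0 := congrArg (fun h : ℤ[X] => h.coeff 0) hpp
      simp only [coeff_add, coeff_C_mul, coeff_X_one, coeff_C_succ, coeff_X_zero, coeff_C_zero, mul_one, mul_zero,
        add_zero, add_right_inj] at c1 c0
      exact Prod.ext c1 c0
    have hsub : (fun p : ℤ × ℤ => h₀ + C p.1 * X + C p.2) '' (R : Set (ℤ × ℤ)) ⊆ S := by
      rintro _ ⟨p, hp, rfl⟩
      have h1 := hR1 p hp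
      rw [abs_lt] at h1
      have h2 := move_strict hg2 hz h0.1 h0.2.1 D hM hm p.1 p.2 (by linarith [h1.1]) (by linarith [h1.2])
      refine (hSm _).2 ⟨h2.1, ?_⟩
      funext i
      have hi := i.2
      unfold pre
      rw [coeff_add, coeff_add, coeff_C_mul, coeff_X_of_ne_one (by omega), coeff_C_of_ne_zero (by omega), mul_zero,
        add_zero, add_zero]
    have hcard : (R.card : ℝ) ≤ (S.ncard : ℝ) := by
      have h3 := Set.ncard_le_ncard hsub hfin
      rw [Set.ncard_image_of_injective _ hinj, Set.ncard_coe_finset] at h3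
      exact_mod_cast h3
    calc (LN q g h₀ : ℝ) ^ 2 ≤ (N + 1) ^ 2 := by
          exact pow_le_pow_left₀ hLN0 hLN 2
      _ ≤ 64 * Real.sqrt q * (R.card : ℝ) := hR2
      _ ≤ 64 * Real.sqrt q * (S.ncard : ℝ) := mul_le_mul_of_nonneg_left hcard (by linarith)

end TQ
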