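import Pool.Agent.Lib.MP_021685_agTQ.P0

/-! LEAF P2 (medium).  The data of a polynomial with sorted real roots `r`, critical points `y` and zeros `z` of the second derivative.

PROOF.  Put `w K = -2s` for `K = 0`, `w K = y (K-1)` for `1 ≤ K ≤ n + 1`, `w K = 2s` for `K ≥ n + 2`.  The nodes are `zz 0 = -2s`, `zz (i+1) = z i` for `i < n`, `zz (n+1) = zz (n+2) = 2s` (`Nodes.z1` with `g = n + 2`).
SIGN LEMMA: if `v : Fin m → ℝ` has `0 ≤ v j` for `j < k` and `v j ≤ 0` for `j ≥ k` (`k ≤ m`), then `0 ≤ (-1)^(m-k) * ∏ v j` (induction on `m`; model `L1_sign` in Lib/MP_021685_agTI/L1.lean, the strict form).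
`mem`: `K = 0` and `K = n + 2`: both ends are the same point.  `1 ≤ K ≤ n + 1`: `zz (K-1) ≤ y (K-1)` is `z (K-2) ≤ y (K-1)` (`hyz`, second part) for `K ≥ 2` and `-2s ≤ r 0 ≤ y 0` for `K = 1`; `y (K-1) ≤ zz K` is `y (K-1) ≤ z (K-1)` for `K ≤ n` and `y n ≤ r (n+1) ≤ 2s` for `K = n + 1`.
`nonneg`: value `∏ (w K - r j)`; for `1 ≤ K ≤ n + 1` the factors with `j ≤ K - 1` are `≥ 0` and those with `j ≥ K` are `≤ 0` (`hry`, `hr`): sign lemma with `k = K`.  `K = 0`: all factors `≤ 0`; `K = n + 2`: all `≥ 0`.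
`crit`: `e1`.
`anti`: `K = 0` and `K = n + 2`: then `x = y`.  `1 ≤ K ≤ n + 1`: the function `(-1)^(n+2-K) H'` has the derivative `(-1)^(n+2-K) a b ∏ (x - z j)`; for `zz (K-1) ≤ x ≤ zz K` the factors with `j < K - 1` are `≥ 0` (`z j ≤ z (K-2) = zz (K-1) ≤ x`; there are none for `K = 1`)
and those with `j ≥ K - 1` are `≤ 0`, so `0 ≤ (-1)^(n-(K-1)) ∏ (x - z j)` and the derivative is `≤ 0` (`antitoneOn_of_deriv_nonpos` on `Icc (zz (K-1)) (zz K)`).
`top`: `K = 0` and `K = n + 2`: then `x = w K`.  `1 ≤ K ≤ n + 1`: `E = (-1)^(n+2-K) H` has the derivative `(-1)^(n+2-K) H'`, which is `0` at `w K`, so by `anti` it is `≥ 0` on `[zz (K-1), w K]` and `≤ 0` on `[w K, zz K]`: `E` is monotone on the first and antitone on the second interval. -/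

namespace TQ

open Polynomial TI

private theorem P2_sign : ∀ {m : ℕ} (v : Fin m → ℝ) (k : ℕ), k ≤ m → (∀ j : Fin m, (j : ℕ) < k → 0 ≤ v j) →
    (∀ j : Fin m, k ≤ (j : ℕ) → v j ≤ 0) → 0 ≤ (-1 : ℝ) ^ (m - k) * ∏ j, v j := by
  intro m
  induction m with
  | zero =>
    intro v k _ _ _
    simp
  | succ m ih =>
    intro v k hk h1 h2
    rcases Nat.lt_or_ge m k with h | h
    · have h3 : m + 1 - k = 0 := by omega
      rw [h3, pow_zero, one_mul]
      exact Finset.prod_nonneg fun j _ => h1 j (by omega)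
    · have h3 : m + 1 - k = (m - k) + 1 := by omega
      have h4 := ih (fun j => v j.castSucc) k h (fun j hj => h1 _ hj) (fun j hj => h2 _ hj)
      have h5 : v (Fin.last m) ≤ 0 := h2 _ (by simpa using h)
      rw [h3, Fin.prod_univ_castSucc, pow_succ]
      have h6 : (-1 : ℝ) ^ (m - k) * (-1) * ((∏ j : Fin m, v j.castSucc) * v (Fin.last m)) =
          ((-1 : ℝ) ^ (m - k) * ∏ j : Fin m, v j.castSucc) * (-v (Fin.last m)) := by ring
      rw [h6]
      exact mul_nonneg h4 (by linarith)

private theorem P2_eval {m : ℕ} (v : Fin m → ℝ) (x : ℝ) :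
    (∏ i, (X - C (v i)) : ℝ[X]).eval x = ∏ i, (x - v i) := by
  rw [eval_prod]
  exact Finset.prod_congr rfl fun i _ => by rw [eval_sub, eval_X, eval_C]

theorem dat_of_roots {n : ℕ} {s a b : ℝ} {r : Fin (n + 2) → ℝ} {y : Fin (n + 1) → ℝ} {z : Fin n → ℝ} {zz : ℕ → ℝ}
    (hz : Nodes s (n + 2) zz) (hzz : ∀ i : Fin n, zz ((i : ℕ) + 1) = z i)
    (hr : Monotone r) (hrs : ∀ i, -(2 * s) ≤ r i ∧ r i ≤ 2 * s)
    (hry : ∀ i : Fin (n + 1), r i.castSucc ≤ y i ∧ y i ≤ r i.succ)
    (hyz : ∀ i : Fin n, y i.castSucc ≤ z i ∧ z i ≤ y i.succ)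
    (ha : 0 < a) (hb : 0 < b)
    (e1 : derivative (∏ i, (X - C (r i))) = C a * ∏ i, (X - C (y i)))
    (e2 : derivative (∏ i, (X - C (y i))) = C b * ∏ i, (X - C (z i))) :
    ∃ w : ℕ → ℝ, Dat (n + 2) zz (∏ i, (X - C (r i))) w := by
  obtain ⟨w, hw0, hw1, hw2⟩ : ∃ w : ℕ → ℝ, w 0 = -(2 * s) ∧ (∀ (k : ℕ) (hk : k < n + 1), w (k + 1) = y ⟨k, hk⟩) ∧
      w (n + 2) = 2 * s := by
    refine ⟨fun K => if K = 0 then -(2 * s) else if h : K - 1 < n + 1 then y ⟨K - 1, h⟩ else 2 * s, ?_, ?_, ?_⟩
    · simp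
    · intro k hk
      have h1 : k + 1 - 1 = k := rfl
      simp [hk]
    · have h1 : ¬ (n + 2 - 1 < n + 1) := by omega
      simp
  have hend : ∀ j, n + 1 ≤ j → zz j = 2 * s := fun j hj => hz.z1 j (by omega)
  have hmid : ∀ (k : ℕ) (hk : k < n), zz (k + 1) = z ⟨k, hk⟩ := fun k hk => hzz ⟨k, hk⟩
  -- the three kinds of indices
  have hcase : ∀ K ≤ n + 2, K = 0 ∨ K = n + 2 ∨ ∃ k, k < n + 1 ∧ K = k + 1 := by
    intro K hK
    rcases Nat.eq_zero_or_pos K with h | h
    · exact Or.inl h
    · rcases Nat.lt_or_ge K (n + 2) with h1 | h1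
      · exact Or.inr (Or.inr ⟨K - 1, by omega, by omega⟩)
      · exact Or.inr (Or.inl (by omega))
  have hmem : ∀ K ≤ n + 2, zz (K - 1) ≤ w K ∧ w K ≤ zz K := by
    intro K hK
    rcases hcase K hK with rfl | rfl | ⟨k, hk, rfl⟩
    · rw [hw0, Nat.zero_sub, hz.z0]
      exact ⟨le_rfl, le_rfl⟩
    · rw [hw2, hend (n + 2 - 1) (by omega), hend (n + 2) (by omega)]
      exact ⟨le_rfl, le_rfl⟩
    · rw [hw1 k hk, Nat.add_sub_cancel]
      constructor
      · rcases k with _ | k
        · rw [hz.z0]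
          exact (hrs _).1.trans (hry ⟨0, hk⟩).1
        · rw [hmid k (by omega)]
          exact (hyz ⟨k, by omega⟩).2
      · rcases Nat.lt_or_ge k n with h | h
        · rw [hmid k h]
          exact (hyz ⟨k, h⟩).1
        · rw [hend (k + 1) (by omega)]
          exact (hry ⟨k, hk⟩).2.trans (hrs _).2
  have hcrit : ∀ K, 0 < K → K < n + 2 → (derivative (∏ i, (X - C (r i)))).eval (w K) = 0 := by
    intro K hK1 hK2
    obtain ⟨k, rfl⟩ : ∃ k, K = k + 1 := ⟨K - 1, by omega⟩
    have hk : k < n + 1 := by omega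
    rw [e1, eval_mul, P2_eval, hw1 k hk, Finset.prod_eq_zero (Finset.mem_univ (⟨k, hk⟩ : Fin (n + 1))) (sub_self _),
      mul_zero]
  have hanti : ∀ K, K ≤ n + 2 → ∀ x y', zz (K - 1) ≤ x → x ≤ y' → y' ≤ zz K →
      (-1 : ℝ) ^ (n + 2 - K) * (derivative (∏ i, (X - C (r i)))).eval y' ≤
        (-1 : ℝ) ^ (n + 2 - K) * (derivative (∏ i, (X - C (r i)))).eval x := by
    intro K hK x y' h1 h2 h3
    rcases hcase K hK with rfl | rfl | ⟨k, hk, rfl⟩
    · have h4 : x = y' := le_antisymm h2 (h3.trans h1)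
      rw [h4]
    · rw [hend (n + 2 - 1) (by omega)] at h1
      rw [hend (n + 2) (by omega)] at h3
      have h4 : x = y' := le_antisymm h2 (h3.trans h1)
      rw [h4]
    · rw [Nat.add_sub_cancel] at h1
      have hA : AntitoneOn (fun t : ℝ => (-1 : ℝ) ^ (n + 2 - (k + 1)) *
          (derivative (∏ i, (X - C (r i)))).eval t) (Set.Icc (zz k) (zz (k + 1))) := by
        refine antitoneOn_of_deriv_nonpos (convex_Icc _ _) ?_ ?_ ?_
        · exact (continuous_const.mul (Polynomial.continuous _)).continuousOn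
        · exact ((Polynomial.differentiable _).const_mul _).differentiableOn
        · intro t ht
          rw [interior_Icc] at ht
          rw [deriv_const_mul _ (Polynomial.differentiable _).differentiableAt, Polynomial.deriv, e1,
            derivative_C_mul, e2, eval_mul, eval_mul, eval_C, eval_C, P2_eval]
          have h5 := P2_sign (fun j : Fin n => t - z j) k (by omega)
            (fun j hj => by
              have h6 : z j ≤ t := by
                rw [← hzz j]
                exact (hz.mono (by omega)).trans ht.1.le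
              linarith)
            (fun j hj => by
              have h6 : t ≤ z j := by
                rw [← hzz j]
                exact ht.2.le.trans (hz.mono (by omega))
              linarith)
          have h7 : n + 2 - (k + 1) = (n - k) + 1 := by omega
          rw [h7, pow_succ]
          have h8 : (-1 : ℝ) ^ (n - k) * (-1) * (a * (b * ∏ i, (t - z i))) =
              -(a * b * ((-1 : ℝ) ^ (n - k) * ∏ i, (t - z i))) := by ring
          rw [h8]
          have h9 : 0 ≤ a * b * ((-1 : ℝ) ^ (n - k) * ∏ i, (t - z i)) := mul_nonneg (mul_pos ha hb).le h5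
          linarith
      exact hA ⟨h1, h2.trans h3⟩ ⟨h1.trans h2, h3⟩ h2
  refine ⟨w, hmem, ?_, ?_, hcrit, hanti⟩
  · intro K hK
    rw [P2_eval]
    refine P2_sign (fun j : Fin (n + 2) => w K - r j) K hK ?_ ?_
    · intro j hj
      rcases hcase K hK with rfl | rfl | ⟨k, hk, rfl⟩
      · omega
      · rw [hw2]
        linarith [(hrs j).2]
      · rw [hw1 k hk]
        have h1 : r j ≤ r (Fin.castSucc ⟨k, hk⟩) := hr (by
          rw [Fin.le_def]
          simp only [Fin.val_castSucc]
          omega)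
        linarith [(hry ⟨k, hk⟩).1]
    · intro j hj
      rcases hcase K hK with rfl | rfl | ⟨k, hk, rfl⟩
      · rw [hw0]
        linarith [(hrs j).1]
      · exact absurd j.2 (by omega)
      · rw [hw1 k hk]
        have h1 : r (Fin.succ ⟨k, hk⟩) ≤ r j := hr (by
          rw [Fin.le_def]
          simp only [Fin.val_succ]
          omega)
        linarith [(hry ⟨k, hk⟩).2]
  · intro K hK x h1 h2
    rcases hcase K hK with rfl | rfl | ⟨k, hk, rfl⟩
    · rw [Nat.zero_sub, hz.z0] at h1
      rw [hz.z0] at h2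
      rw [hw0, le_antisymm h2 h1]
    · rw [hend (n + 2 - 1) (by omega)] at h1
      rw [hend (n + 2) (by omega)] at h2
      rw [hw2, le_antisymm h2 h1]
    · have hm := hmem (k + 1) hK
      have hc := hcrit (k + 1) (Nat.succ_pos k) (by omega)
      rcases le_total x (w (k + 1)) with hx | hx
      · have hA : MonotoneOn (fun t : ℝ => (-1 : ℝ) ^ (n + 2 - (k + 1)) *
            (∏ i, (X - C (r i)) : ℝ[X]).eval t) (Set.Icc (zz (k + 1 - 1)) (w (k + 1))) := by
          refine monotoneOn_of_deriv_nonneg (convex_Icc _ _) ?_ ?_ ?_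
          · exact (continuous_const.mul (Polynomial.continuous _)).continuousOn
          · exact ((Polynomial.differentiable _).const_mul _).differentiableOn
          · intro t ht
            rw [interior_Icc] at ht
            rw [deriv_const_mul _ (Polynomial.differentiable _).differentiableAt, Polynomial.deriv]
            have h3 := hanti (k + 1) hK t (w (k + 1)) ht.1.le ht.2.le hm.2
            rw [hc, mul_zero] at h3
            exact h3
        exact hA ⟨h1, hx⟩ ⟨hm.1, le_rfl⟩ hx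
      · have hA : AntitoneOn (fun t : ℝ => (-1 : ℝ) ^ (n + 2 - (k + 1)) *
            (∏ i, (X - C (r i)) : ℝ[X]).eval t) (Set.Icc (w (k + 1)) (zz (k + 1))) := by
          refine antitoneOn_of_deriv_nonpos (convex_Icc _ _) ?_ ?_ ?_
          · exact (continuous_const.mul (Polynomial.continuous _)).continuousOn
          · exact ((Polynomial.differentiable _).const_mul _).differentiableOn
          · intro t ht
            rw [interior_Icc] at ht
            rw [deriv_const_mul _ (Polynomial.differentiable _).differentiableAt, Polynomial.deriv]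
            have h3 := hanti (k + 1) hK (w (k + 1)) t hm.1 ht.1.le ht.2.le
            rw [hc, mul_zero] at h3
            exact h3
        exact hA ⟨le_rfl, hm.2⟩ ⟨hx, h2⟩ hx

end TQ
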