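import Mathlib

/-! LEAF P3 (easy, Mathlib only).  Sorted roots are determined by the polynomial.

PROOF.  The multiset of the roots of `∏ (X - C (y i))` is `Finset.univ.val.map y` (`Polynomial.roots_prod_X_sub_C`-style: `roots_multiset_prod_X_sub_C`), so `univ.val.map y = univ.val.map y'` as multisets, that is `List.ofFn y` is a permutation of `List.ofFn y'`.  Both lists are sorted (`Monotone.ofFn_sorted`, or in the current Mathlib the
`List.Pairwise` / `SortedLE` form), so they are equal (`List.Perm.eq_of_pairwise`/`List.eq_of_perm_of_sorted`) and `y = y'` (`List.ofFn_injective`).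
(Other way: induction on `n`: the largest root is `y (Fin.last n)`; if `y (last) ≠ y' (last)`, say `<`, then the value of the first product at `y' (last)` is positive and that of the second is zero; then cancel the factor.) -/

namespace TQ

open Polynomial

theorem mono_prod_inj {n : ℕ} {y y' : Fin n → ℝ} (h : Monotone y) (h' : Monotone y')
    (e : (∏ i, (X - C (y i)) : ℝ[X]) = ∏ i, (X - C (y' i))) : y = y' := by
  have hr : ∀ z : Fin n → ℝ, (∏ i, (X - C (z i)) : ℝ[X]).roots = (List.ofFn z : Multiset ℝ) := by
    intro z
    have h1 : (∏ i, (X - C (z i)) : ℝ[X]) = ((Finset.univ.val.map z).map fun a => X - C a).prod := by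
      rw [Multiset.map_map]
      rfl
    rw [h1, roots_multiset_prod_X_sub_C, Fin.univ_val_map]
  have h1 : (List.ofFn y : Multiset ℝ) = (List.ofFn y' : Multiset ℝ) := by
    rw [← hr y, ← hr y', e]
  have h2 : (List.ofFn y).Perm (List.ofFn y') := Multiset.coe_eq_coe.1 h1
  exact List.ofFn_injective (h2.eq_of_sortedLE h.sortedLE_ofFn h'.sortedLE_ofFn)

end TQ
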