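import Pool.Agent.Lib.MP_021685_agTQ.P1
import Pool.Agent.Lib.MP_021685_agTQ.P2
import Pool.Agent.Lib.MP_021685_agTQ.P3

/-! LEAF P4 (medium).  All members of a plane have data with the same nodes.

PROOF.  `g = n + 2`, `s = √q`.
(1) ROOTS: for `h ∈ Weil q g` there is `r : Fin g → ℝ` monotone, in `[-2s, 2s]`, with `h.map = ∏ (X - C (r i))`: `TI.exists_angles` (file TI/A3a, imported by P0) gives `θ` with `h.map (Int.castRingHom ℝ) = ∏ (X - C (2 √q cos θ_j))` (`IsAngles`); sort the values with `Tuple.sort` (`Tuple.monotone_sort`, `Equiv.prod_comp`).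
(2) `sorted_rolle` (P1) for `r` gives `y : Fin (n+1) → ℝ` with `h.map' = C (n+1+1) * ∏ (X - C (y i))`, and for `y` gives `z : Fin n → ℝ`, `(∏ (X - C (y i)))' = C (n+1) * ∏ (X - C (z i))`.  So `h.map'' = C ((n+2)(n+1)) * ∏ (X - C (z i))`.
(3) Take `z` from `h₀` and `zz 0 = -2s`, `zz (j+1) = z j` for `j < n`, `zz (j+1) = 2s` for `j ≥ n`; `Nodes s (n+2) zz` (monotone: `z` is monotone and in `[-2s, 2s]`: `r i.castSucc ≤ y i`, `y i.castSucc ≤ z i` ...).
(4) For another member `h` with `pre g (g-2) h = pre g (g-2) h₀`: `h` and `h₀` are monic of degree `g` with the same coefficients at `X^(g-1), .., X^2` (`pre g k h i = h.coeff (g - 1 - i)`), so the second derivatives are equal (`Polynomial.ext`, `coeff_derivative`), so by P3 (`mono_prod_inj`, after cancelling the constant) the sorted zeros `z` are the same.  P2 (`dat_of_roots`) gives the data. -/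

namespace TQ

open Polynomial TI

private theorem P4_roots {q n : ℕ} (hq : 1 ≤ q) {h : ℤ[X]} (hh : h ∈ Weil q (n + 2)) :
    ∃ r : Fin (n + 2) → ℝ, Monotone r ∧ (∀ i, -(2 * Real.sqrt q) ≤ r i ∧ r i ≤ 2 * Real.sqrt q) ∧
      h.map (Int.castRingHom ℝ) = ∏ i, (X - C (r i)) := by
  obtain ⟨θ, hθ⟩ := exists_angles hq hh
  let f : Fin (n + 2) → ℝ := fun j => 2 * Real.sqrt q * Real.cos (θ j)
  refine ⟨f ∘ Tuple.sort f, Tuple.monotone_sort f, ?_, ?_⟩
  · intro i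
    have h1 := Real.neg_one_le_cos (θ (Tuple.sort f i))
    have h2 := Real.cos_le_one (θ (Tuple.sort f i))
    have h3 := Real.sqrt_nonneg (q : ℝ)
    show -(2 * Real.sqrt q) ≤ 2 * Real.sqrt q * Real.cos (θ (Tuple.sort f i)) ∧
      2 * Real.sqrt q * Real.cos (θ (Tuple.sort f i)) ≤ 2 * Real.sqrt q
    constructor <;> nlinarith
  · have h1 : h.map (Int.castRingHom ℝ) = ∏ j, (X - C (f j)) := hθ
    rw [h1]
    exact (Equiv.prod_comp (Tuple.sort f) fun j => (X - C (f j) : ℝ[X])).symm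

private theorem P4_data {q n : ℕ} (hq : 1 ≤ q) {h : ℤ[X]} (hh : h ∈ Weil q (n + 2)) :
    ∃ (r : Fin (n + 2) → ℝ) (y : Fin (n + 1) → ℝ) (z : Fin n → ℝ), Monotone r ∧
      (∀ i, -(2 * Real.sqrt q) ≤ r i ∧ r i ≤ 2 * Real.sqrt q) ∧ Monotone z ∧
      (∀ i : Fin (n + 1), r i.castSucc ≤ y i ∧ y i ≤ r i.succ) ∧
      (∀ i : Fin n, y i.castSucc ≤ z i ∧ z i ≤ y i.succ) ∧
      h.map (Int.castRingHom ℝ) = ∏ i, (X - C (r i)) ∧
      derivative (∏ i, (X - C (r i))) = C (((n + 1 : ℕ) : ℝ) + 1) * ∏ i, (X - C (y i)) ∧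
      derivative (∏ i, (X - C (y i))) = C ((n : ℝ) + 1) * ∏ i, (X - C (z i)) := by
  obtain ⟨r, hr, hrs, e0⟩ := P4_roots hq hh
  obtain ⟨y, hy, hry, e1⟩ := sorted_rolle r hr
  obtain ⟨z, hz, hyz, e2⟩ := sorted_rolle y hy
  exact ⟨r, y, z, hr, hrs, hz, hry, hyz, e0, e1, e2⟩

private theorem P4_deriv {q n : ℕ} {h h₀ : ℤ[X]} (hh : h ∈ Weil q (n + 2)) (h0 : h₀ ∈ Weil q (n + 2))
    (he : pre (n + 2) (n + 2 - 2) h = pre (n + 2) (n + 2 - 2) h₀) :
    derivative (derivative (h.map (Int.castRingHom ℝ))) = derivative (derivative (h₀.map (Int.castRingHom ℝ))) := by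
  have hc : ∀ m, 2 ≤ m → h.coeff m = h₀.coeff m := by
    intro m hm
    rcases lt_trichotomy m (n + 2) with h1 | h1 | h1
    · have h2 := congrFun he ⟨n + 1 - m, by omega⟩
      have h3 : n + 2 - 1 - (n + 1 - m) = m := by omega
      unfold pre at h2
      simp only [h3] at h2
      exact h2
    · have h2 := hh.1.coeff_natDegree
      have h3 := h0.1.coeff_natDegree
      rw [hh.2.1] at h2
      rw [h0.2.1] at h3
      rw [h1, h2, h3]
    · rw [coeff_eq_zero_of_natDegree_lt (by rw [hh.2.1]; exact h1),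
        coeff_eq_zero_of_natDegree_lt (by rw [h0.2.1]; exact h1)]
  ext k
  rw [coeff_derivative, coeff_derivative, coeff_derivative, coeff_derivative, coeff_map, coeff_map,
    hc (k + 1 + 1) (by omega)]

theorem exists_dat {q g : ℕ} (hq : 1 ≤ q) (hg : 2 ≤ g) {h₀ : ℤ[X]} (h0 : h₀ ∈ Weil q g) :
    ∃ zz : ℕ → ℝ, Nodes (Real.sqrt q) g zz ∧ ∀ h ∈ Weil q g, pre g (g - 2) h = pre g (g - 2) h₀ →
      ∃ w : ℕ → ℝ, Dat g zz (h.map (Int.castRingHom ℝ)) w := by
  obtain ⟨n, rfl⟩ : ∃ n, g = n + 2 := ⟨g - 2, by omega⟩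
  obtain ⟨r, y, z, hr, hrs, hz, hry, hyz, e0, e1, e2⟩ := P4_data hq h0
  have hrb : ∀ i, -(2 * Real.sqrt q) ≤ r i ∧ r i ≤ 2 * Real.sqrt q := hrs
  have hyb : ∀ i : Fin (n + 1), -(2 * Real.sqrt q) ≤ y i ∧ y i ≤ 2 * Real.sqrt q := fun i =>
    ⟨(hrb _).1.trans (hry i).1, (hry i).2.trans (hrb _).2⟩
  have hzb : ∀ i : Fin n, -(2 * Real.sqrt q) ≤ z i ∧ z i ≤ 2 * Real.sqrt q := fun i =>
    ⟨(hyb _).1.trans (hyz i).1, (hyz i).2.trans (hyb _).2⟩
  have hs := Real.sqrt_nonneg (q : ℝ)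
  let zz : ℕ → ℝ := fun j => if j = 0 then -(2 * Real.sqrt q) else
    if hj : j - 1 < n then z ⟨j - 1, hj⟩ else 2 * Real.sqrt q
  have zz0 : zz 0 = -(2 * Real.sqrt q) := if_pos rfl
  have zz1 : ∀ (j : ℕ) (hj : j < n), zz (j + 1) = z ⟨j, hj⟩ := by
    intro j hj
    have h1 : j + 1 ≠ 0 := by omega
    have h2 : j + 1 - 1 < n := by omega
    show (if j + 1 = 0 then -(2 * Real.sqrt q) else
      if hj : j + 1 - 1 < n then z ⟨j + 1 - 1, hj⟩ else 2 * Real.sqrt q) = _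
    rw [if_neg h1, dif_pos h2]
    rfl
  have zz2 : ∀ j : ℕ, n ≤ j → zz (j + 1) = 2 * Real.sqrt q := by
    intro j hj
    have h1 : j + 1 ≠ 0 := by omega
    have h2 : ¬ j + 1 - 1 < n := by omega
    show (if j + 1 = 0 then -(2 * Real.sqrt q) else
      if hj : j + 1 - 1 < n then z ⟨j + 1 - 1, hj⟩ else 2 * Real.sqrt q) = _
    rw [if_neg h1, dif_neg h2]
  have hN : Nodes (Real.sqrt q) (n + 2) zz := by
    refine ⟨monotone_nat_of_le_succ fun j => ?_, zz0, ?_⟩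
    · rcases j with - | j
      · rw [zz0]
        rcases Nat.lt_or_ge 0 n with h1 | h1
        · rw [zz1 0 h1]
          exact (hzb _).1
        · rw [zz2 0 h1]
          linarith
      · rcases Nat.lt_or_ge j n with h1 | h1
        · rw [zz1 j h1]
          rcases Nat.lt_or_ge (j + 1) n with h2 | h2
          · rw [zz1 (j + 1) h2]
            exact hz (Fin.mk_le_mk.mpr (Nat.le_succ j))
          · rw [zz2 (j + 1) h2]
            exact (hzb _).2
        · rw [zz2 j h1, zz2 (j + 1) (by omega)]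
    · intro j hj
      obtain ⟨i, rfl⟩ : ∃ i, j = i + 1 := ⟨j - 1, by omega⟩
      exact zz2 i (by omega)
  refine ⟨zz, hN, fun h hh he => ?_⟩
  obtain ⟨r', y', z', hr', hrs', hz', hry', hyz', e0', e1', e2'⟩ := P4_data hq hh
  have hd := P4_deriv hh h0 he
  rw [e0, e0', e1, e1', derivative_C_mul, derivative_C_mul, e2, e2'] at hd
  have ha : (0 : ℝ) < ((n + 1 : ℕ) : ℝ) + 1 := by positivity
  have hb : (0 : ℝ) < (n : ℝ) + 1 := by positivity
  have hzz : z' = z := by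
    have h1 := mul_left_cancel₀ (C_ne_zero.mpr ha.ne') hd
    have h2 := mul_left_cancel₀ (C_ne_zero.mpr hb.ne') h1
    exact mono_prod_inj hz' hz h2
  rw [hzz] at hyz' e2'
  obtain ⟨w, hw⟩ := dat_of_roots hN (fun i => zz1 i i.2) hr' hrs' hry' hyz' ha hb e1' e2'
  refine ⟨w, ?_⟩
  rw [e0']
  exact hw

end TQ
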