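import Pool.Agent.Lib.MP_021685_agTQ.P6a
import Pool.Agent.Lib.MP_021685_agTQ.P4

/-! LEAF P6b (medium).  The number of members of a line.

PROOF.  `hD` gives the data `w` of `h`, `line_pair` (P6a) the pair `K`, `K'`; `M = H(w K)`, `m = H(w K')`.
(1) LOWER BOUND for `LN`: the integers `c` with `-M < c < -m` give different elements `h + C c` of `Strict q g` (`move_strict` with `d = 0`: `h + C 0 * X + C c`) on the line of `h` (`pre g (g-1) h i = h.coeff (g-1-i)` with `g - 1 - i ≥ 1`).  These integers are the finset `Finset.Ioo ⌊-M⌋ ⌈-m⌉` (`Int.floor_lt`, `Int.lt_ceil`),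
of cardinality `(⌈-m⌉ - ⌊-M⌋ - 1).toNat ≥ M - m - 1`.  The set in the definition of `LN` is finite (subset of `Weil_finite`, `TI.Weil_finite q g`), so `M - m - 1 ≤ LN q g h`.
(2) UPPER BOUND: an element `h'` of `Weil q g` with `pre g (g-1) h' = pre g (g-1) h` is `h + C c` with `c = h'.coeff 0 - h.coeff 0` (all other coefficients are equal: monic of degree `g`, and `pre`; the model is in the proof of `TI.line_card`, file TI/L1.lean, the step `h4`).  It is in the plane (`pre g (g-2)` is a part of `pre g (g-1)`: both say `coeff` equal at the indices `g-1-i`),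
so it has data `w'` with the same nodes and `line_weil` gives `-M ≤ c ≤ -m`: `c ∈ Finset.Icc ⌈-M⌉ ⌊-m⌋`, which has at most `M - m + 1` elements (`M - m ≥ 0` because `0 ≤ M` and `m ≤ 0` by `Dat.nonneg`). -/

namespace TQ

open Polynomial TI

private theorem P6b_line {q g : ℕ} {h h' : ℤ[X]} (hh : h ∈ Weil q g) (hh' : h' ∈ Weil q g)
    (hpre : pre g (g - 1) h' = pre g (g - 1) h) : h' = h + C (h'.coeff 0 - h.coeff 0) := by
  obtain ⟨hm, hd, -⟩ := hh
  obtain ⟨hm', hd', -⟩ := hh'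
  ext i
  rcases Nat.eq_zero_or_pos i with rfl | hi
  · rw [coeff_add, coeff_C_zero]
    ring
  · rw [coeff_add, coeff_C_of_ne_zero hi.ne', add_zero]
    rcases Nat.lt_or_ge i g with h5 | h5
    · have h6 := congrFun hpre ⟨g - 1 - i, by omega⟩
      unfold pre at h6
      simp only at h6
      have h7 : g - 1 - (g - 1 - i) = i := by omega
      rw [h7] at h6
      exact h6
    · rcases Nat.eq_or_lt_of_le h5 with h6 | h6
      · have e1 := hm'.coeff_natDegree
        rw [hd'] at e1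
        have e2 := hm.coeff_natDegree
        rw [hd] at e2
        rw [← h6, e1, e2]
      · rw [coeff_eq_zero_of_natDegree_lt (by rw [hd']; exact h6),
          coeff_eq_zero_of_natDegree_lt (by rw [hd]; exact h6)]

private theorem P6b_inj (h : ℤ[X]) : Function.Injective (fun c : ℤ => h + C c) := fun _ _ e =>
  C_injective (add_left_cancel e)

private theorem P6b_pre {g : ℕ} (h : ℤ[X]) (c : ℤ) : pre g (g - 1) (h + C c) = pre g (g - 1) h := by
  funext i
  unfold pre
  have hi := i.2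
  rw [coeff_add, coeff_C_of_ne_zero (by omega), add_zero]

theorem line_facts {q g : ℕ} (hg : 2 ≤ g) {zz : ℕ → ℝ} (hz : Nodes (Real.sqrt q) g zz) {h₀ : ℤ[X]}
    (hD : ∀ h ∈ Weil q g, pre g (g - 2) h = pre g (g - 2) h₀ →
      ∃ w : ℕ → ℝ, Dat g zz (h.map (Int.castRingHom ℝ)) w)
    {h : ℤ[X]} (hh : h ∈ Weil q g) (hp : pre g (g - 2) h = pre g (g - 2) h₀) :
    ∃ (w : ℕ → ℝ) (K K' : ℕ), Dat g zz (h.map (Int.castRingHom ℝ)) w ∧
      K ≤ g ∧ K' ≤ g ∧ Even (g - K) ∧ Odd (g - K') ∧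
      (∀ J ≤ g, Even (g - J) → (h.map (Int.castRingHom ℝ)).eval (w K) ≤ (h.map (Int.castRingHom ℝ)).eval (w J)) ∧
      (∀ J ≤ g, Odd (g - J) → (h.map (Int.castRingHom ℝ)).eval (w J) ≤ (h.map (Int.castRingHom ℝ)).eval (w K')) ∧
      (h.map (Int.castRingHom ℝ)).eval (w K) - (h.map (Int.castRingHom ℝ)).eval (w K') ≤ (LN q g h : ℝ) + 1 ∧
      (({h' | h' ∈ Weil q g ∧ pre g (g - 1) h' = pre g (g - 1) h} : Set ℤ[X]).ncard : ℝ) ≤
        (h.map (Int.castRingHom ℝ)).eval (w K) - (h.map (Int.castRingHom ℝ)).eval (w K') + 1 := by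
  obtain ⟨w, D⟩ := hD h hh hp
  obtain ⟨K, K', hK, hK', eK, oK, hmin, hmax⟩ := line_pair (by omega : 1 ≤ g) (h.map (Int.castRingHom ℝ)) w
  refine ⟨w, K, K', D, hK, hK', eK, oK, hmin, hmax, ?_, ?_⟩
  · have hT : ∀ c ∈ Finset.Ioo ⌊-(h.map (Int.castRingHom ℝ)).eval (w K)⌋ ⌈-(h.map (Int.castRingHom ℝ)).eval (w K')⌉,
        h + C c ∈ ({h' | h' ∈ Strict q g ∧ pre g (g - 1) h' = pre g (g - 1) h} : Set ℤ[X]) := by
      intro c hc
      rw [Finset.mem_Ioo, Int.floor_lt, Int.lt_ceil] at hc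
      have h1 := move_strict hg hz hh.1 hh.2.1 D hmin hmax 0 c
        (by rw [Int.cast_zero, abs_zero, mul_zero, add_zero]; exact hc.1)
        (by rw [Int.cast_zero, abs_zero, mul_zero, sub_zero]; exact hc.2)
      rw [C_0, zero_mul, add_zero] at h1
      exact ⟨h1, P6b_pre h c⟩
    have hfin : ({h' | h' ∈ Strict q g ∧ pre g (g - 1) h' = pre g (g - 1) h} : Set ℤ[X]).Finite :=
      (Weil_finite q g).subset fun h' h1 => h1.1.1
    have h2 : ((fun c : ℤ => h + C c) '' (Finset.Ioo ⌊-(h.map (Int.castRingHom ℝ)).eval (w K)⌋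
        ⌈-(h.map (Int.castRingHom ℝ)).eval (w K')⌉ : Set ℤ)).ncard ≤ LN q g h := by
      refine Set.ncard_le_ncard ?_ hfin
      rintro _ ⟨c, hc, rfl⟩
      exact hT c (Finset.mem_coe.1 hc)
    rw [Set.ncard_image_of_injective _ (P6b_inj h), Set.ncard_coe_finset, Int.card_Ioo] at h2
    have h3 : (((⌈-(h.map (Int.castRingHom ℝ)).eval (w K')⌉ - ⌊-(h.map (Int.castRingHom ℝ)).eval (w K)⌋ - 1 : ℤ)) : ℝ) ≤
        (LN q g h : ℝ) := by
      have h4 : (⌈-(h.map (Int.castRingHom ℝ)).eval (w K')⌉ - ⌊-(h.map (Int.castRingHom ℝ)).eval (w K)⌋ - 1 : ℤ) ≤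
          (LN q g h : ℤ) := (Int.self_le_toNat _).trans (by exact_mod_cast h2)
      exact_mod_cast h4
    push_cast at h3
    have h5 := Int.le_ceil (-(h.map (Int.castRingHom ℝ)).eval (w K'))
    have h6 := Int.floor_le (-(h.map (Int.castRingHom ℝ)).eval (w K))
    linarith
  · have hsub : ({h' | h' ∈ Weil q g ∧ pre g (g - 1) h' = pre g (g - 1) h} : Set ℤ[X]) ⊆
        (fun c : ℤ => h + C c) '' (Finset.Icc ⌈-(h.map (Int.castRingHom ℝ)).eval (w K)⌉
          ⌊-(h.map (Int.castRingHom ℝ)).eval (w K')⌋ : Set ℤ) := by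
      rintro h' ⟨h1, h2⟩
      have h3 := P6b_line hh h1 h2
      refine ⟨h'.coeff 0 - h.coeff 0, ?_, h3.symm⟩
      have h4 : pre g (g - 2) h' = pre g (g - 2) h₀ := by
        rw [← hp]
        funext i
        have hi := i.2
        exact congrFun h2 ⟨(i : ℕ), by omega⟩
      obtain ⟨w', D'⟩ := hD h' h1 h4
      have h5 : h'.map (Int.castRingHom ℝ) =
          h.map (Int.castRingHom ℝ) + C (((h'.coeff 0 - h.coeff 0 : ℤ)) : ℝ) := by
        conv_lhs => rw [h3]
        rw [Polynomial.map_add, Polynomial.map_C]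
        rfl
      rw [h5] at D'
      have h6 := line_weil D D' hK hK' eK oK
      rw [Finset.mem_coe, Finset.mem_Icc, Int.ceil_le, Int.le_floor]
      exact h6
    have h2 := Set.ncard_le_ncard hsub ((Finset.finite_toSet _).image _)
    rw [Set.ncard_image_of_injective _ (P6b_inj h), Set.ncard_coe_finset, Int.card_Icc] at h2
    have h3 : (({h' | h' ∈ Weil q g ∧ pre g (g - 1) h' = pre g (g - 1) h} : Set ℤ[X]).ncard : ℝ) ≤
        (((⌊-(h.map (Int.castRingHom ℝ)).eval (w K')⌋ + 1 - ⌈-(h.map (Int.castRingHom ℝ)).eval (w K)⌉).toNat : ℕ) : ℝ) := by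
      exact_mod_cast h2
    refine h3.trans ?_
    have hM := D.nonneg K hK
    rw [eK.neg_one_pow, one_mul] at hM
    have hm := D.nonneg K' hK'
    rw [oK.neg_one_pow] at hm
    have h5 := Int.floor_le (-(h.map (Int.castRingHom ℝ)).eval (w K'))
    have h6 := Int.le_ceil (-(h.map (Int.castRingHom ℝ)).eval (w K))
    rcases le_total 0 (⌊-(h.map (Int.castRingHom ℝ)).eval (w K')⌋ + 1 - ⌈-(h.map (Int.castRingHom ℝ)).eval (w K)⌉)
      with h7 | h7
    · have h8 : (((⌊-(h.map (Int.castRingHom ℝ)).eval (w K')⌋ + 1 -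
          ⌈-(h.map (Int.castRingHom ℝ)).eval (w K)⌉).toNat : ℤ) : ℝ) =
          ((⌊-(h.map (Int.castRingHom ℝ)).eval (w K')⌋ + 1 -
          ⌈-(h.map (Int.castRingHom ℝ)).eval (w K)⌉ : ℤ) : ℝ) := by
        rw [Int.toNat_of_nonneg h7]
      rw [Int.cast_natCast] at h8
      rw [h8]
      push_cast
      linarith
    · rw [Int.toNat_of_nonpos h7, Nat.cast_zero]
      linarith

end TQ
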