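import Pool.Agent.Lib.MP_021685_agTQ.P4
import Pool.Agent.Lib.MP_021685_agTQ.P6b

/-! Block PL (planes): at most two members of a line are not strict. -/

namespace TQ

open Polynomial TI

/-- at most two members of a line are not strict -/
theorem line_le {q g : ℕ} (hq : 1 ≤ q) (hg : 3 ≤ g) {h₀ : ℤ[X]} (h0 : h₀ ∈ Weil q g) :
    ({h | h ∈ Weil q g ∧ pre g (g - 1) h = pre g (g - 1) h₀} : Set ℤ[X]).ncard ≤ LN q g h₀ + 2 := by
  obtain ⟨zz, hz, hD⟩ := exists_dat hq (by omega) h0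
  obtain ⟨w, K, K', -, -, -, -, -, -, -, h1, h2⟩ := line_facts (by omega) hz hD h0 rfl
  have h3 : (({h | h ∈ Weil q g ∧ pre g (g - 1) h = pre g (g - 1) h₀} : Set ℤ[X]).ncard : ℝ) ≤
      (LN q g h₀ : ℝ) + 2 := by linarith
  exact_mod_cast h3

end TQ
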