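import Pool.Agent.Lib.MP_021685_agTQ.P9
import Pool.Agent.Lib.MP_021685_agTQ.P10
import Pool.Agent.Lib.MP_021685_agTQ.P11

/-! Block PL (planes): `TQ.short_in_plane` (file P9), `TQ.fat_plane` (file P10) and `TQ.line_le` (file P11). -/
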