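import Pool.Agent.Lib.MP_021685_agTQ.N7

/-! Block VOL: the number of planes which contain a regular member. -/

namespace TQ

open Polynomial TI

theorem planes_le (q : ℕ) (hq : 2 ≤ q) : ∃ g₀ : ℕ, ∀ g : ℕ, g₀ ≤ g →
    ((pre g (g - 2) '' {h | h ∈ Weil q g ∧ Reg q g h}).ncard : ℝ) * Real.sqrt q ^ (2 * g) ≤
      Real.exp ((g : ℝ) ^ (19 / 20 : ℝ)) * Real.exp ((g : ℝ) / 200) * Real.sqrt q ^ (g * (g + 1) / 2) *
        KK (g - JJ g) := planes_le' q hq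

end TQ
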