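import Pool.Agent.Lib.MP_021685_agTQ.AD
import Pool.Agent.Lib.MP_021685_agTQ.ML
import Pool.Agent.Lib.MP_021685_agTQ.VOL
import Pool.Agent.Lib.MP_021685_agTQ.PF
import Pool.Agent.Lib.MP_021685_agTQ.PL
import Pool.Agent.Lib.MP_021685_agTQ.HB
import Pool.Agent.Lib.MP_021685_agTQ.LB
import Pool.Agent.Lib.MP_021685_agTI.E1
import Pool.Agent.Lib.MP_021685_agTI.S0
import Pool.Agent.Lib.MP_021685_agTI.Fi

/-! LEAF A1 (medium).  Short lines: splitting.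

PROOF.  Let `U = {h ∈ Weil q g | LN < L}`, `R = {h ∈ Weil q g | Reg}`, `f = pre g (g - 2)`.  `U ⊆ {h ∈ Weil | ¬ Reg} ∪ U'`, `U'` the elements `h` of `U` with `f h ∈ f '' R` (take `h` itself if it is regular).
For `w = f h₀ ∈ f '' R`, `h₀ ∈ R`: the elements of `U` over `w` are at most `10 (g+1)² (L+3)² √A` (`short_in_plane` with `h₀`, bound `hd`).  Sum over `w ∈ f '' R` (finite: `Weil_finite`), e.g. `U' ⊆ ⋃ w ∈ f '' R` and `Finset.card_biUnion_le`. -/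

namespace TQ

open Polynomial TI

private theorem A1_biUnion {α β : Type*} [DecidableEq β] (s : Finset β) (F : β → Set α) :
    (⋃ w ∈ s, F w).ncard ≤ ∑ w ∈ s, (F w).ncard := by
  induction s using Finset.induction_on with
  | empty => simp
  | insert a s ha ih =>
    rw [Finset.sum_insert ha, Finset.set_biUnion_insert]
    exact (Set.ncard_union_le _ _).trans (Nat.add_le_add_left ih _)

theorem short_split {q g : ℕ} (hq : 2 ≤ q) (hg : 3 ≤ g) {A L : ℝ} (hA : 1 ≤ A) (hL : 1 ≤ L)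
    (hd : ∀ h ∈ Weil q g, Reg q g h → ∀ x : ℝ, |x| ≤ 2 * Real.sqrt q →
      |((h.derivative.derivative).map (Int.castRingHom ℝ)).eval x| ≤ A) :
    (({h | h ∈ Weil q g ∧ (LN q g h : ℝ) < L} : Set ℤ[X]).ncard : ℝ) ≤
      (({h | h ∈ Weil q g ∧ ¬ Reg q g h} : Set ℤ[X]).ncard : ℝ) +
        ((pre g (g - 2) '' {h | h ∈ Weil q g ∧ Reg q g h}).ncard : ℝ) *
          (10 * ((g : ℝ) + 1) ^ 2 * (L + 3) ^ 2 * Real.sqrt A) := by
  classical
  have hfin : (Weil q g).Finite := Weil_finite q g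
  obtain ⟨f, hf⟩ : ∃ f : ℤ[X] → (Fin (g - 2) → ℤ), f = pre g (g - 2) := ⟨_, rfl⟩
  rw [← hf]
  have hRfin : ({h | h ∈ Weil q g ∧ Reg q g h} : Set ℤ[X]).Finite := hfin.subset fun h hh => hh.1
  have hIfin : (f '' {h | h ∈ Weil q g ∧ Reg q g h}).Finite := hRfin.image f
  obtain ⟨C, hC⟩ : ∃ C : ℝ, C = 10 * ((g : ℝ) + 1) ^ 2 * (L + 3) ^ 2 * Real.sqrt A := ⟨_, rfl⟩
  rw [← hC]
  -- the members over one value
  have hone : ∀ w ∈ hIfin.toFinset,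
      (({h | h ∈ Weil q g ∧ f h = w ∧ (LN q g h : ℝ) < L} : Set ℤ[X]).ncard : ℝ) ≤ C := by
    intro w hw
    rw [Set.Finite.mem_toFinset] at hw
    obtain ⟨h₀, ⟨h0, h0r⟩, rfl⟩ := hw
    have h1 := short_in_plane (by omega) hg h0 hA hL (hd h₀ h0 h0r)
    rw [hC, hf]
    exact h1
  -- the union
  have hsub : ({h | h ∈ Weil q g ∧ (LN q g h : ℝ) < L} : Set ℤ[X]) ⊆
      {h | h ∈ Weil q g ∧ ¬ Reg q g h} ∪
        ⋃ w ∈ hIfin.toFinset, {h | h ∈ Weil q g ∧ f h = w ∧ (LN q g h : ℝ) < L} := by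
    intro h hh
    by_cases hr : Reg q g h
    · right
      simp only [Set.mem_iUnion, Set.Finite.mem_toFinset]
      exact ⟨f h, ⟨h, ⟨hh.1, hr⟩, rfl⟩, hh.1, rfl, hh.2⟩
    · left
      exact ⟨hh.1, hr⟩
  have hNfin : ({h | h ∈ Weil q g ∧ ¬ Reg q g h} : Set ℤ[X]).Finite := hfin.subset fun h hh => hh.1
  have hUfin : (⋃ w ∈ hIfin.toFinset, {h | h ∈ Weil q g ∧ f h = w ∧ (LN q g h : ℝ) < L} : Set ℤ[X]).Finite := by
    apply hfin.subset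
    intro h hh
    simp only [Set.mem_iUnion] at hh
    obtain ⟨w, _, hh⟩ := hh
    exact hh.1
  have h2 : ({h | h ∈ Weil q g ∧ (LN q g h : ℝ) < L} : Set ℤ[X]).ncard ≤
      ({h | h ∈ Weil q g ∧ ¬ Reg q g h} : Set ℤ[X]).ncard +
        (⋃ w ∈ hIfin.toFinset, {h | h ∈ Weil q g ∧ f h = w ∧ (LN q g h : ℝ) < L} : Set ℤ[X]).ncard :=
    (Set.ncard_le_ncard hsub (hNfin.union hUfin)).trans (Set.ncard_union_le _ _)
  have h3 : (⋃ w ∈ hIfin.toFinset, {h | h ∈ Weil q g ∧ f h = w ∧ (LN q g h : ℝ) < L} : Set ℤ[X]).ncard ≤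
      ∑ w ∈ hIfin.toFinset, ({h | h ∈ Weil q g ∧ f h = w ∧ (LN q g h : ℝ) < L} : Set ℤ[X]).ncard :=
    A1_biUnion hIfin.toFinset _
  have h4 : (∑ w ∈ hIfin.toFinset,
      (({h | h ∈ Weil q g ∧ f h = w ∧ (LN q g h : ℝ) < L} : Set ℤ[X]).ncard : ℝ)) ≤
        ∑ _w ∈ hIfin.toFinset, C := Finset.sum_le_sum hone
  rw [Finset.sum_const, nsmul_eq_mul, ← Set.ncard_eq_toFinset_card _ hIfin] at h4
  have h5 : (({h | h ∈ Weil q g ∧ (LN q g h : ℝ) < L} : Set ℤ[X]).ncard : ℝ) ≤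
      (({h | h ∈ Weil q g ∧ ¬ Reg q g h} : Set ℤ[X]).ncard : ℝ) +
        ∑ w ∈ hIfin.toFinset, (({h | h ∈ Weil q g ∧ f h = w ∧ (LN q g h : ℝ) < L} : Set ℤ[X]).ncard : ℝ) := by
    exact_mod_cast h2.trans (Nat.add_le_add_left h3 _)
  linarith

end TQ
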