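import Pool.Agent.Lib.MP_021685_agTQ.AD
import Pool.Agent.Lib.MP_021685_agTQ.ML
import Pool.Agent.Lib.MP_021685_agTQ.VOL
import Pool.Agent.Lib.MP_021685_agTQ.PF
import Pool.Agent.Lib.MP_021685_agTQ.PL
import Pool.Agent.Lib.MP_021685_agTQ.HB
import Pool.Agent.Lib.MP_021685_agTQ.LB
import Pool.Agent.Lib.MP_021685_agTI.E1
import Pool.Agent.Lib.MP_021685_agTJ.JA7

/-! LEAF A9 (medium).  Crude upper bound for all `q ≥ 2` (compare `MP_021685_agTJ/JC1.lean`, `q ≥ 25`).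

PROOF.  `TJ.pre_card_le` with `k = g = i` (`pre i i` is injective on monic polynomials of degree `i`, so `ncard (Weil q i) = ncard (pre i i '' Weil q i)`): `N_i ≤ (2i + √i)^i ∏_(j<i) ((1789/1000) s^(j+1)/((j+1) √(i-j-1/5)) + 1/√i)`, `s = √q`.  As in JC1 each factor is
`≤ (1789/1000) s^(j+1)/((j+1) √(i-j-1/5)) (1 + (j+1)/s^(j+1))`, `∏ (1 + (j+1)/s^(j+1)) ≤ exp (∑_(n ≥ 1) n/s^n) =: C_q < ∞` (`s > 1`), `∏ √(i-j-1/5) ≥ √(i!)/√(i+1)`.  `(2i + √i)^i ≤ (2i)^i e^(√i/2)`, `i^i ≤ i! e^i`.  So `N_i ≤ C_q √(i+1) e^(√i/2) (2 * 1.789 e)^i s^(i(i+1)/2)/√(i!)`, `2 * 1.789 e ≤ 9.727`,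
and `√(i+1) e^(√i/2) (9.727)^i ≤ C 10^i`. -/

namespace TQ

open Polynomial TI

private theorem A9_sqrt (k : ℕ) :
    Real.sqrt (k.factorial) ≤ Real.sqrt ((k : ℝ) + 1) *
      ∏ j ∈ Finset.range k, Real.sqrt ((k : ℝ) - j - 1 / 5) := by
  induction k with
  | zero => simp
  | succ k ih =>
    rw [Finset.prod_range_succ']
    have h1 : ∏ j ∈ Finset.range k, Real.sqrt (((k + 1 : ℕ) : ℝ) - ((j + 1 : ℕ) : ℝ) - 1 / 5) =
        ∏ j ∈ Finset.range k, Real.sqrt ((k : ℝ) - j - 1 / 5) := by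
      apply Finset.prod_congr rfl
      intro j _
      congr 1
      push_cast
      ring
    rw [h1, Nat.factorial_succ]
    push_cast
    rw [Real.sqrt_mul (by positivity)]
    have hA : 0 ≤ ∏ j ∈ Finset.range k, Real.sqrt ((k : ℝ) - j - 1 / 5) :=
      Finset.prod_nonneg fun j _ => Real.sqrt_nonneg _
    have hk0 : (0 : ℝ) ≤ k := Nat.cast_nonneg k
    have h2 : Real.sqrt ((k : ℝ) + 1) * Real.sqrt ((k : ℝ) + 1) = (k : ℝ) + 1 :=
      Real.mul_self_sqrt (by positivity)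
    have h3 : (k : ℝ) + 1 ≤ Real.sqrt ((k : ℝ) + 1 + 1) * Real.sqrt ((k : ℝ) + 1 - 0 - 1 / 5) := by
      rw [← Real.sqrt_mul (by positivity)]
      apply Real.le_sqrt_of_sq_le
      nlinarith
    calc Real.sqrt ((k : ℝ) + 1) * Real.sqrt (k.factorial)
        ≤ Real.sqrt ((k : ℝ) + 1) * (Real.sqrt ((k : ℝ) + 1) *
          ∏ j ∈ Finset.range k, Real.sqrt ((k : ℝ) - j - 1 / 5)) :=
          mul_le_mul_of_nonneg_left ih (Real.sqrt_nonneg _)
      _ = ((k : ℝ) + 1) * ∏ j ∈ Finset.range k, Real.sqrt ((k : ℝ) - j - 1 / 5) := by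
          rw [← mul_assoc, h2]
      _ ≤ (Real.sqrt ((k : ℝ) + 1 + 1) * Real.sqrt ((k : ℝ) + 1 - 0 - 1 / 5)) *
          ∏ j ∈ Finset.range k, Real.sqrt ((k : ℝ) - j - 1 / 5) :=
          mul_le_mul_of_nonneg_right h3 hA
      _ = _ := by ring

private theorem A9_pow (s : ℝ) (k : ℕ) :
    ∏ j ∈ Finset.range k, ((1789 / 1000) * s ^ (j + 1) / ((j : ℝ) + 1)) =
      (1789 / 1000) ^ k * s ^ (k * (k + 1) / 2) / (k.factorial : ℝ) := by
  induction k with
  | zero => simp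
  | succ k ih =>
    rw [Finset.prod_range_succ, ih]
    have h : (k + 1) * (k + 1 + 1) / 2 = k * (k + 1) / 2 + (k + 1) := by
      have := Nat.triangle_succ (k + 1)
      simp only [Nat.add_sub_cancel] at this
      rw [mul_comm (k + 1) (k + 1 + 1), this, mul_comm (k + 1) k]
    rw [h, Nat.factorial_succ]
    push_cast
    have h1 : (k.factorial : ℝ) ≠ 0 := by positivity
    have h2 : (k : ℝ) + 1 ≠ 0 := by positivity
    rw [pow_add s (k * (k + 1) / 2) (k + 1), pow_succ (1789 / 1000 : ℝ) k]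
    field_simp

/-- the product of the `1 + (j + 1) / (1.789 s ^ (j + 1))` is bounded -/
private theorem A9_small {s : ℝ} (hs : 1 < s) (k : ℕ) :
    ∏ j ∈ Finset.range k, (1 + ((j : ℝ) + 1) / ((1789 / 1000) * s ^ (j + 1))) ≤
      Real.exp (∑' n : ℕ, (n : ℝ) * (s⁻¹) ^ n) := by
  have hs0 : 0 < s := by linarith
  have hr : ‖s⁻¹‖ < 1 := by
    rw [Real.norm_eq_abs, abs_of_pos (inv_pos.mpr hs0)]
    exact inv_lt_one_of_one_lt₀ hs
  have hsum : Summable fun n : ℕ => (n : ℝ) * (s⁻¹) ^ n := (hasSum_coe_mul_geometric_of_norm_lt_one hr).summable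
  have h1 : ∏ j ∈ Finset.range k, (1 + ((j : ℝ) + 1) / ((1789 / 1000) * s ^ (j + 1))) ≤
      Real.exp (∑ j ∈ Finset.range k, ((j : ℝ) + 1) * (s⁻¹) ^ (j + 1)) := by
    rw [Real.exp_sum]
    refine Finset.prod_le_prod (fun j _ => by positivity) fun j _ => ?_
    have h2 : ((j : ℝ) + 1) / ((1789 / 1000) * s ^ (j + 1)) ≤ ((j : ℝ) + 1) * (s⁻¹) ^ (j + 1) := by
      rw [inv_pow, ← div_eq_mul_inv]
      apply div_le_div_of_nonneg_left (by positivity) (by positivity)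
      have : 0 < s ^ (j + 1) := by positivity
      linarith
    have h3 := Real.add_one_le_exp (((j : ℝ) + 1) * (s⁻¹) ^ (j + 1))
    linarith
  refine h1.trans (Real.exp_le_exp.mpr ?_)
  have h4 : ∑ j ∈ Finset.range k, ((j : ℝ) + 1) * (s⁻¹) ^ (j + 1) ≤ ∑ n ∈ Finset.range (k + 1), (n : ℝ) * (s⁻¹) ^ n := by
    rw [Finset.sum_range_succ']
    simp
  refine h4.trans (hsum.sum_le_tsum _ fun n _ => ?_)
  positivity

/-- numerics -/
private theorem A9_num (i : ℕ) (hi : 1 ≤ i) :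
    (2 * (i : ℝ) + Real.sqrt i) ^ i * (1789 / 1000) ^ i * Real.sqrt ((i : ℝ) + 1) / (i.factorial : ℝ) ≤
      Real.exp (45 / 2) * 10 ^ i := by
  have hi0 : (0 : ℝ) < i := by exact_mod_cast hi
  obtain ⟨r, hr⟩ : ∃ r, r = Real.sqrt i := ⟨_, rfl⟩
  have hr0 : 0 < r := by
    rw [hr]
    exact Real.sqrt_pos.mpr hi0
  have hrr : r * r = i := by
    rw [hr]
    exact Real.mul_self_sqrt hi0.le
  have h1 : 2 * (i : ℝ) + r = 2 * i * (1 + 1 / (2 * r)) := by
    rw [← hrr]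
    field_simp
  have h2 : (1 + 1 / (2 * r)) ^ i ≤ Real.exp (r / 2) := by
    have h3 : 1 + 1 / (2 * r) ≤ Real.exp (1 / (2 * r)) := by
      have := Real.add_one_le_exp (1 / (2 * r))
      linarith
    refine (pow_le_pow_left₀ (by positivity) h3 i).trans ?_
    rw [← Real.exp_nat_mul]
    apply Real.exp_le_exp.mpr
    rw [← hrr]
    have : r * r * (1 / (2 * r)) = r / 2 := by field_simp
    linarith
  have h3 : (i : ℝ) ^ i ≤ i.factorial * Real.exp 1 ^ i := by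
    have h4 := Real.pow_div_factorial_le_exp (i : ℝ) hi0.le i
    rw [div_le_iff₀ (by positivity)] at h4
    rw [← Real.exp_nat_mul, mul_one, mul_comm]
    exact h4
  have h4 : Real.sqrt ((i : ℝ) + 1) ≤ Real.exp r := by
    rw [Real.sqrt_le_left (Real.exp_pos _).le, sq, ← Real.exp_add, ← hrr]
    have h5 := Real.quadratic_le_exp_of_nonneg (x := r + r) (by positivity)
    nlinarith
  have h5 : Real.exp (r / 2) * Real.exp r ≤ Real.exp (45 / 2) * Real.exp (1 / 40) ^ i := by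
    rw [← Real.exp_nat_mul, ← Real.exp_add, ← Real.exp_add]
    apply Real.exp_le_exp.mpr
    rw [← hrr]
    nlinarith [sq_nonneg (r - 30)]
  have h6 : 2 * Real.exp 1 * (1789 / 1000) * Real.exp (1 / 40) ≤ 10 := by
    have h7 : Real.exp (1 / 40) ≤ 40 / 39 := by
      have h8 : Real.exp (-(1 / 40)) ≥ 39 / 40 := by
        have := Real.add_one_le_exp (-(1 / 40 : ℝ))
        linarith
      have h9 : Real.exp (1 / 40) * Real.exp (-(1 / 40)) = 1 := by
        rw [← Real.exp_add]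
        simp
      have h10 : 0 < Real.exp (1 / 40) := Real.exp_pos _
      nlinarith
    have h8 := Real.exp_one_lt_d9
    have h9 : 0 < Real.exp 1 := Real.exp_pos _
    have h10 : 0 < Real.exp (1 / 40) := Real.exp_pos _
    calc 2 * Real.exp 1 * (1789 / 1000) * Real.exp (1 / 40) ≤ 2 * 2.7182818286 * (1789 / 1000) * (40 / 39) := by
          gcongr
      _ ≤ 10 := by norm_num
  rw [← hr, div_le_iff₀ (by positivity), h1, mul_pow]
  calc (2 * (i : ℝ)) ^ i * (1 + 1 / (2 * r)) ^ i * (1789 / 1000) ^ i * Real.sqrt ((i : ℝ) + 1)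
      ≤ (2 ^ i * (i.factorial * Real.exp 1 ^ i)) * Real.exp (r / 2) * (1789 / 1000) ^ i * Real.exp r := by
        rw [mul_pow]
        gcongr
    _ = (2 ^ i * Real.exp 1 ^ i * (1789 / 1000) ^ i) * i.factorial * (Real.exp (r / 2) * Real.exp r) := by ring
    _ ≤ (2 ^ i * Real.exp 1 ^ i * (1789 / 1000) ^ i) * i.factorial * (Real.exp (45 / 2) * Real.exp (1 / 40) ^ i) := by
        gcongr
    _ = Real.exp (45 / 2) * (2 * Real.exp 1 * (1789 / 1000) * Real.exp (1 / 40)) ^ i * i.factorial := by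
        rw [mul_pow, mul_pow, mul_pow]
        ring
    _ ≤ Real.exp (45 / 2) * 10 ^ i * i.factorial := by
        gcongr

private theorem A9_inj (q i : ℕ) : Set.InjOn (pre i i) (Weil q i) := by
  intro h hh h' hh' he
  ext n
  rcases lt_trichotomy n i with hn | hn | hn
  · have h1 := congrFun he ⟨i - 1 - n, by omega⟩
    unfold pre at h1
    dsimp only at h1
    have h2 : i - 1 - (i - 1 - n) = n := by omega
    rwa [h2] at h1
  · subst hn
    have h1 := hh.1.coeff_natDegree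
    have h2 := hh'.1.coeff_natDegree
    rw [hh.2.1] at h1
    rw [hh'.2.1] at h2
    rw [h1, h2]
  · rw [coeff_eq_zero_of_natDegree_lt (by rw [hh.2.1]; exact hn), coeff_eq_zero_of_natDegree_lt (by rw [hh'.2.1]; exact hn)]

theorem crude (q : ℕ) (hq : 2 ≤ q) : ∃ C : ℝ, 0 ≤ C ∧ ∀ i : ℕ, 1 ≤ i →
    ((Weil q i).ncard : ℝ) ≤ C * 10 ^ i * Real.sqrt q ^ (i * (i + 1) / 2) / Real.sqrt (i.factorial) := by
  obtain ⟨s, hs⟩ : ∃ s, s = Real.sqrt q := ⟨_, rfl⟩
  have hs1 : 1 < s := by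
    rw [hs]
    apply Real.lt_sqrt_of_sq_lt
    have : (2 : ℝ) ≤ q := by exact_mod_cast hq
    linarith
  have hs0 : 0 < s := by linarith
  obtain ⟨B, hB⟩ : ∃ B, B = Real.exp (∑' n : ℕ, (n : ℝ) * (s⁻¹) ^ n) := ⟨_, rfl⟩
  have hB0 : 0 < B := by
    rw [hB]
    exact Real.exp_pos _
  refine ⟨B * Real.exp (45 / 2), by positivity, fun i hi => ?_⟩
  have hi0 : (0 : ℝ) < i := by exact_mod_cast hi
  have hf0 : 0 < Real.sqrt (i.factorial) := Real.sqrt_pos.2 (by positivity)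
  have h1 := TJ.pre_card_le (q := q) (g := i) (k := i) (by omega) hi le_rfl
  rw [(A9_inj q i).ncard_image, ← hs] at h1
  have hpos' : ∀ j ∈ Finset.range i, 0 < (i : ℝ) - j - 1 / 5 := by
    intro j hj
    have hjk : j + 1 ≤ i := Finset.mem_range.1 hj
    have hjk' : (j : ℝ) + 1 ≤ i := by exact_mod_cast hjk
    linarith
  have hstep : ∏ j ∈ Finset.range i,
        ((1789 / 1000) * s ^ (j + 1) / (((j : ℝ) + 1) * Real.sqrt ((i : ℝ) - j - 1 / 5)) + 1 / Real.sqrt i) ≤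
      ∏ j ∈ Finset.range i, ((Real.sqrt ((i : ℝ) - j - 1 / 5))⁻¹ *
        (((1789 / 1000) * s ^ (j + 1) / ((j : ℝ) + 1)) *
        (1 + ((j : ℝ) + 1) / ((1789 / 1000) * s ^ (j + 1))))) := by
    apply Finset.prod_le_prod
    · intro j _
      positivity
    · intro j hj
      have hr0 : 0 < Real.sqrt ((i : ℝ) - j - 1 / 5) := Real.sqrt_pos.2 (hpos' j hj)
      have hr1 : Real.sqrt ((i : ℝ) - j - 1 / 5) ≤ Real.sqrt i :=
        Real.sqrt_le_sqrt (by have : (0 : ℝ) ≤ j := by positivity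
                              linarith)
      have h1 : 1 / Real.sqrt i ≤ 1 / Real.sqrt ((i : ℝ) - j - 1 / 5) :=
        one_div_le_one_div_of_le hr0 hr1
      have h2 : (Real.sqrt ((i : ℝ) - j - 1 / 5))⁻¹ * (((1789 / 1000) * s ^ (j + 1) / ((j : ℝ) + 1)) *
          (1 + ((j : ℝ) + 1) / ((1789 / 1000) * s ^ (j + 1)))) =
          (1789 / 1000) * s ^ (j + 1) / (((j : ℝ) + 1) * Real.sqrt ((i : ℝ) - j - 1 / 5)) +
            1 / Real.sqrt ((i : ℝ) - j - 1 / 5) := by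
        have h3 : s ^ (j + 1) ≠ 0 := by positivity
        have h4 : (j : ℝ) + 1 ≠ 0 := by positivity
        have h5 : Real.sqrt ((i : ℝ) - j - 1 / 5) ≠ 0 := hr0.ne'
        field_simp
      rw [h2]
      linarith
  have hA0 : 0 < ∏ j ∈ Finset.range i, Real.sqrt ((i : ℝ) - j - 1 / 5) :=
    Finset.prod_pos fun j hj => Real.sqrt_pos.2 (hpos' j hj)
  have hA : (∏ j ∈ Finset.range i, Real.sqrt ((i : ℝ) - j - 1 / 5))⁻¹ ≤
      Real.sqrt ((i : ℝ) + 1) / Real.sqrt (i.factorial) := by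
    rw [le_div_iff₀ hf0, inv_mul_le_iff₀ hA0, mul_comm]
    exact A9_sqrt i
  have hprod : ∏ j ∈ Finset.range i, ((Real.sqrt ((i : ℝ) - j - 1 / 5))⁻¹ *
        (((1789 / 1000) * s ^ (j + 1) / ((j : ℝ) + 1)) *
        (1 + ((j : ℝ) + 1) / ((1789 / 1000) * s ^ (j + 1))))) ≤
      (Real.sqrt ((i : ℝ) + 1) / Real.sqrt (i.factorial)) *
        (((1789 / 1000) ^ i * s ^ (i * (i + 1) / 2) / (i.factorial : ℝ)) * B) := by
    rw [Finset.prod_mul_distrib, Finset.prod_mul_distrib, Finset.prod_inv_distrib, A9_pow]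
    have h1 := A9_small hs1 i
    rw [← hB] at h1
    gcongr
  have hpos : 0 ≤ (2 * (i : ℝ) + Real.sqrt i) ^ i := by positivity
  rw [← hs]
  calc ((Weil q i).ncard : ℝ) ≤ (2 * (i : ℝ) + Real.sqrt i) ^ i *
        ((Real.sqrt ((i : ℝ) + 1) / Real.sqrt (i.factorial)) *
        (((1789 / 1000) ^ i * s ^ (i * (i + 1) / 2) / (i.factorial : ℝ)) * B)) :=
        h1.trans (mul_le_mul_of_nonneg_left (hstep.trans hprod) hpos)
    _ = ((2 * (i : ℝ) + Real.sqrt i) ^ i * (1789 / 1000) ^ i * Real.sqrt ((i : ℝ) + 1) / (i.factorial : ℝ)) *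
        (B * s ^ (i * (i + 1) / 2) / Real.sqrt (i.factorial)) := by
        ring
    _ ≤ (Real.exp (45 / 2) * 10 ^ i) * (B * s ^ (i * (i + 1) / 2) / Real.sqrt (i.factorial)) := by
        refine mul_le_mul_of_nonneg_right (A9_num i hi) (by positivity)
    _ = _ := by ring

end TQ
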