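import Pool.Agent.Lib.MP_021685_agTQ.AD
import Pool.Agent.Lib.MP_021685_agTQ.ML
import Pool.Agent.Lib.MP_021685_agTQ.VOL
import Pool.Agent.Lib.MP_021685_agTQ.PF
import Pool.Agent.Lib.MP_021685_agTQ.PL
import Pool.Agent.Lib.MP_021685_agTQ.HB
import Pool.Agent.Lib.MP_021685_agTQ.LB
import Pool.Agent.Lib.MP_021685_agTI.E1
import Pool.Agent.Lib.MP_021685_agTQ.A9

/-! LEAF A10 (medium).  Products of two factors of degree at least 10.

PROOF.  `crude`: `N_i N_(g-i) ≤ C² 10^g s^(i(i+1)/2 + (g-i)(g-i+1)/2)/√(i! (g-i)!)`, `i(i+1)/2 + (g-i)(g-i+1)/2 = g(g+1)/2 - i(g-i)`.  `Low q g ≥ s^(g(g+1)/2) (99/100)^g (√2)^g/√(g!)` because `g^g ≥ g!`, so `√g^g/g! ≥ 1/√(g!)`.  `√(g!/(i!(g-i)!)) = √(choose) ≤ √(2^g)`.  For `10 ≤ i ≤ g - 10`: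
`i(g-i) ≥ 10(g-10)`, `s ≥ √2`, so `s^(-i(g-i)) ≤ 2^50 32^(-g)`.  The quotient of one term by `Low` is `≤ C² 2^50 (10 √2/(32 (99/100) √2))^g = C² 2^50 (1000/3168)^g`; there are at most `g` terms, `Low ≤ 2N` for `g ≥ g₀` (`lower`), and `2 g C² 2^50 (1000/3168)^g ≤ (99/100)^g` for large `g`. -/

namespace TQ

open Polynomial TI

private theorem A10_tri (i j : ℕ) :
    i * (i + 1) / 2 + j * (j + 1) / 2 + i * j = (i + j) * (i + j + 1) / 2 := by
  obtain ⟨a, ha⟩ := (Nat.even_mul_succ_self i).two_dvd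
  obtain ⟨b, hb⟩ := (Nat.even_mul_succ_self j).two_dvd
  obtain ⟨c, hc⟩ := (Nat.even_mul_succ_self (i + j)).two_dvd
  rw [ha, hb, hc, Nat.mul_div_cancel_left _ two_pos, Nat.mul_div_cancel_left _ two_pos,
    Nat.mul_div_cancel_left _ two_pos]
  have h1 : 2 * (a + b + i * j) = 2 * c := by
    rw [← hc, mul_add, mul_add, ← ha, ← hb]
    ring
  omega

private theorem A10_pow {s : ℝ} (hs : Real.sqrt 2 ≤ s) {i j g : ℕ} (hi : 10 ≤ i) (hj : 10 ≤ j) (hg : i + j = g) :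
    s ^ (i * (i + 1) / 2 + j * (j + 1) / 2) ≤ s ^ (g * (g + 1) / 2) * (2 ^ 50 / 32 ^ g) := by
  have h2 : (0 : ℝ) < Real.sqrt 2 := Real.sqrt_pos.2 two_pos
  have hs0 : 0 < s := h2.trans_le hs
  have h21 : (1 : ℝ) ≤ Real.sqrt 2 := Real.one_le_sqrt.2 one_le_two
  have h3 : g * (g + 1) / 2 = i * (i + 1) / 2 + j * (j + 1) / 2 + i * j := by
    rw [A10_tri, hg]
  have hij : 10 * (g - 10) ≤ i * j := by
    obtain ⟨a, rfl⟩ := Nat.exists_eq_add_of_le hi
    obtain ⟨b, rfl⟩ := Nat.exists_eq_add_of_le hj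
    have e1 : g - 10 = 10 + a + b := by omega
    rw [e1]
    nlinarith [Nat.zero_le (a * b)]
  have h4 : (32 : ℝ) ^ g ≤ 2 ^ 50 * s ^ (i * j) := by
    have h5 : (32 : ℝ) ^ g = 2 ^ 50 * Real.sqrt 2 ^ (10 * (g - 10)) := by
      have e1 : Real.sqrt 2 ^ (10 * (g - 10)) = 2 ^ (5 * (g - 10)) := by
        rw [show 10 * (g - 10) = 2 * (5 * (g - 10)) by ring, pow_mul, Real.sq_sqrt zero_le_two]
      rw [e1, ← pow_add, show (32 : ℝ) = 2 ^ 5 by norm_num, ← pow_mul]
      congr 1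
      omega
    rw [h5]
    refine mul_le_mul_of_nonneg_left ?_ (by positivity)
    exact (pow_le_pow_right₀ h21 hij).trans (pow_le_pow_left₀ h2.le hs _)
  rw [h3, pow_add _ _ (i * j), mul_assoc, ← mul_div_assoc]
  refine le_mul_of_one_le_right (by positivity) ?_
  rw [one_le_div (by positivity), mul_comm]
  exact h4

private theorem A10_fac {i j g : ℕ} (hg : i + j = g) :
    1 / (Real.sqrt (i.factorial) * Real.sqrt (j.factorial)) ≤ Real.sqrt (2 * g) ^ g / (g.factorial : ℝ) := by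
  have h1 : (g.factorial) ^ 2 ≤ (2 * g) ^ g * (i.factorial * j.factorial) := by
    have h2 : g.choose i * i.factorial * (g - i).factorial = g.factorial :=
      Nat.choose_mul_factorial_mul_factorial (by omega)
    have h3 : g - i = j := by omega
    rw [h3] at h2
    have h4 : g.choose i ≤ 2 ^ g := Nat.choose_le_two_pow g i
    have h5 : g.factorial ≤ g ^ g := Nat.factorial_le_pow g
    calc (g.factorial) ^ 2 = g.factorial * (g.choose i * i.factorial * j.factorial) := by rw [h2, sq]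
      _ ≤ g ^ g * (2 ^ g * i.factorial * j.factorial) :=
          Nat.mul_le_mul h5 (Nat.mul_le_mul_right _ (Nat.mul_le_mul_right _ h4))
      _ = (2 * g) ^ g * (i.factorial * j.factorial) := by
          rw [mul_pow]
          ring
  have h6 : (g.factorial : ℝ) ≤ Real.sqrt (2 * g) ^ g * (Real.sqrt (i.factorial) * Real.sqrt (j.factorial)) := by
    have h7 : (Real.sqrt (2 * g) ^ g * (Real.sqrt (i.factorial) * Real.sqrt (j.factorial))) ^ 2 =
        (2 * g) ^ g * (i.factorial * j.factorial) := by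
      rw [mul_pow, mul_pow, ← pow_mul, mul_comm g 2, pow_mul, Real.sq_sqrt (by positivity),
        Real.sq_sqrt (by positivity), Real.sq_sqrt (by positivity)]
    refine le_of_sq_le_sq ?_ (by positivity)
    rw [h7]
    exact_mod_cast h1
  have hi0 : (0 : ℝ) < i.factorial := by exact_mod_cast Nat.factorial_pos i
  have hj0 : (0 : ℝ) < j.factorial := by exact_mod_cast Nat.factorial_pos j
  have hg0 : (0 : ℝ) < g.factorial := by exact_mod_cast Nat.factorial_pos g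
  have hij : 0 < Real.sqrt (i.factorial) * Real.sqrt (j.factorial) :=
    mul_pos (Real.sqrt_pos.2 hi0) (Real.sqrt_pos.2 hj0)
  rw [div_le_div_iff₀ hij hg0, one_mul]
  exact h6

theorem high_factor (q : ℕ) (hq : 2 ≤ q) : ∃ g₀ : ℕ, ∀ g : ℕ, g₀ ≤ g →
    ∑ i ∈ Finset.Icc 10 (g - 10), ((Weil q i).ncard : ℝ) * ((Weil q (g - i)).ncard : ℝ) ≤
      (99 / 100) ^ g * ((Weil q g).ncard : ℝ) := by
  obtain ⟨C, hC0, hC⟩ := crude q hq
  obtain ⟨g₁, hg₁⟩ := lower q hq
  have hs : Real.sqrt 2 ≤ Real.sqrt q := Real.sqrt_le_sqrt (by exact_mod_cast hq)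
  have hs0 : 0 < Real.sqrt q := (Real.sqrt_pos.2 two_pos).trans_le hs
  -- the geometric factor
  have hlim : Filter.Tendsto (fun n : ℕ => (n : ℝ) * (1000 / 3168 * (100 / 99)) ^ n) Filter.atTop (nhds 0) :=
    tendsto_self_mul_const_pow_of_lt_one (by norm_num) (by norm_num)
  have hlim2 := hlim.const_mul (2 * (C ^ 2 * 2 ^ 50))
  rw [mul_zero] at hlim2
  have hev := hlim2.eventually (gt_mem_nhds (show (0 : ℝ) < 1 by norm_num))
  obtain ⟨g₂, hg₂⟩ := Filter.eventually_atTop.1 hev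
  refine ⟨max 20 (max g₁ g₂), fun g hg => ?_⟩
  have hg20 : 20 ≤ g := (le_max_left _ _).trans hg
  have hgg1 : g₁ ≤ g := ((le_max_left _ _).trans (le_max_right _ _)).trans hg
  have hgg2 : g₂ ≤ g := ((le_max_right _ _).trans (le_max_right _ _)).trans hg
  have hLow := hg₁ g hgg1
  have hN0 : (0 : ℝ) ≤ (Weil q g).ncard := Nat.cast_nonneg _
  have hterm : ∀ i ∈ Finset.Icc 10 (g - 10), ((Weil q i).ncard : ℝ) * ((Weil q (g - i)).ncard : ℝ) ≤
      C ^ 2 * 2 ^ 50 * (1000 / 3168) ^ g * (2 * ((Weil q g).ncard : ℝ)) := by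
    intro i hi
    obtain ⟨hi1, hi2⟩ := Finset.mem_Icc.1 hi
    have hj1 : 10 ≤ g - i := by omega
    have hij : i + (g - i) = g := by omega
    have a1 := hC i (by omega)
    have a2 := hC (g - i) (by omega)
    have a3 := A10_pow hs hi1 hj1 hij
    have a4 := A10_fac hij
    have b1 : ((Weil q i).ncard : ℝ) * ((Weil q (g - i)).ncard : ℝ) ≤
        (C * 10 ^ i * Real.sqrt q ^ (i * (i + 1) / 2) / Real.sqrt (i.factorial)) *
        (C * 10 ^ (g - i) * Real.sqrt q ^ ((g - i) * (g - i + 1) / 2) / Real.sqrt ((g - i).factorial)) :=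
      mul_le_mul a1 a2 (Nat.cast_nonneg _) ((Nat.cast_nonneg _).trans a1)
    have b2 : (C * 10 ^ i * Real.sqrt q ^ (i * (i + 1) / 2) / Real.sqrt (i.factorial)) *
        (C * 10 ^ (g - i) * Real.sqrt q ^ ((g - i) * (g - i + 1) / 2) / Real.sqrt ((g - i).factorial)) =
        C ^ 2 * 10 ^ g * Real.sqrt q ^ (i * (i + 1) / 2 + (g - i) * (g - i + 1) / 2) *
          (1 / (Real.sqrt (i.factorial) * Real.sqrt ((g - i).factorial))) := by
      have e1 : (10 : ℝ) ^ g = 10 ^ i * 10 ^ (g - i) := by rw [← pow_add, hij]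
      rw [e1, pow_add]
      ring
    have b3 : C ^ 2 * 10 ^ g * Real.sqrt q ^ (i * (i + 1) / 2 + (g - i) * (g - i + 1) / 2) *
          (1 / (Real.sqrt (i.factorial) * Real.sqrt ((g - i).factorial))) ≤
        C ^ 2 * 10 ^ g * (Real.sqrt q ^ (g * (g + 1) / 2) * (2 ^ 50 / 32 ^ g)) *
          (Real.sqrt (2 * g) ^ g / (g.factorial : ℝ)) :=
      mul_le_mul (mul_le_mul_of_nonneg_left a3 (by positivity)) a4 (by positivity) (by positivity)
    have b4 : C ^ 2 * 10 ^ g * (Real.sqrt q ^ (g * (g + 1) / 2) * (2 ^ 50 / 32 ^ g)) *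
          (Real.sqrt (2 * g) ^ g / (g.factorial : ℝ)) =
        C ^ 2 * 2 ^ 50 * (1000 / 3168) ^ g * (Real.sqrt q ^ (g * (g + 1) / 2) *
          (99 / 100 * Real.sqrt (2 * g)) ^ g / (g.factorial : ℝ)) := by
      have e2 : (10 : ℝ) ^ g / 32 ^ g = (1000 / 3168) ^ g * (99 / 100) ^ g := by
        rw [← mul_pow, ← div_pow]
        congr 1
        norm_num
      rw [mul_pow]
      calc C ^ 2 * 10 ^ g * (Real.sqrt q ^ (g * (g + 1) / 2) * (2 ^ 50 / 32 ^ g)) *
          (Real.sqrt (2 * g) ^ g / (g.factorial : ℝ))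
          = C ^ 2 * 2 ^ 50 * (10 ^ g / 32 ^ g) * (Real.sqrt q ^ (g * (g + 1) / 2) *
            Real.sqrt (2 * g) ^ g / (g.factorial : ℝ)) := by ring
        _ = _ := by
            rw [e2]
            ring
    rw [b2] at b1
    rw [b4] at b3
    exact b1.trans (b3.trans (mul_le_mul_of_nonneg_left hLow (by positivity)))
  have hcard : ((Finset.Icc 10 (g - 10)).card : ℝ) ≤ g := by
    have h1 : (Finset.Icc 10 (g - 10)).card ≤ g := by
      rw [Nat.card_Icc]
      omega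
    exact_mod_cast h1
  have hsum := Finset.sum_le_card_nsmul _ _ _ hterm
  rw [nsmul_eq_mul] at hsum
  refine hsum.trans ?_
  have hfin : 2 * (C ^ 2 * 2 ^ 50) * ((g : ℝ) * (1000 / 3168 * (100 / 99)) ^ g) ≤ 1 := (hg₂ g hgg2).le
  have hpow : ((1000 : ℝ) / 3168 * (100 / 99)) ^ g * (99 / 100) ^ g = (1000 / 3168) ^ g := by
    rw [← mul_pow]
    congr 1
    norm_num
  calc ((Finset.Icc 10 (g - 10)).card : ℝ) * (C ^ 2 * 2 ^ 50 * (1000 / 3168) ^ g * (2 * ((Weil q g).ncard : ℝ)))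
      ≤ g * (C ^ 2 * 2 ^ 50 * (1000 / 3168) ^ g * (2 * ((Weil q g).ncard : ℝ))) :=
        mul_le_mul_of_nonneg_right hcard (by positivity)
    _ = (2 * (C ^ 2 * 2 ^ 50) * ((g : ℝ) * (1000 / 3168 * (100 / 99)) ^ g)) *
        ((99 / 100) ^ g * ((Weil q g).ncard : ℝ)) := by
        rw [← hpow]
        ring
    _ ≤ 1 * ((99 / 100) ^ g * ((Weil q g).ncard : ℝ)) :=
        mul_le_mul_of_nonneg_right hfin (by positivity)
    _ = (99 / 100) ^ g * ((Weil q g).ncard : ℝ) := one_mul _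

end TQ
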