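import Pool.Agent.Lib.MP_021685_agTQ.AD
import Pool.Agent.Lib.MP_021685_agTQ.ML
import Pool.Agent.Lib.MP_021685_agTQ.VOL
import Pool.Agent.Lib.MP_021685_agTQ.PF
import Pool.Agent.Lib.MP_021685_agTQ.PL
import Pool.Agent.Lib.MP_021685_agTQ.HB
import Pool.Agent.Lib.MP_021685_agTQ.LB
import Pool.Agent.Lib.MP_021685_agTI.E1

/-! LEAF A2 (medium).  The integral `KK (g - JJ g)` in terms of `g`.

PROOF.  `J = JJ g`, `⌈g^(9/10)⌉ ≤ J ≤ g^(9/10) + 2 ≤ g/2` for large `g`, and `g - J = 2m` is even (definition of `JJ`: if `g - ⌈..⌉` is not even then `g - (⌈..⌉ + 1)` is).  `KK_even`: `KK (2m) ≤ C (64/9)^m/m!`, `(64/9)^m = (8/3)^(2m) ≤ (8/3)^g`.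
`g! ≤ e √g ... `: we use `g! ≤ e g (g/e)^g` (induction, or `Nat.factorial` bounds) and `m! ≥ (m/e)^m` (`Real.pow_div_factorial_le_exp`): `g!/m! ≤ e g g^g e^(-g) (e/m)^m`, `(e/m)^m = (2e)^m/(g-J)^((g-J)/2)` (write squares: `((g-J) : ℝ)^m`), `(2e)^m ≤ (2e)^(g/2) = √(2e)^g`,
`(g-J)^m ≥ g^m (1 - J/g)^m ≥ g^m e^(-J)` (`1 - x ≥ e^(-2x)` for `0 ≤ x ≤ 1/2`, `2 m J/g ≤ J`), `g^m = √g^g / √g^J`.  So `g!/m! ≤ e g √g^J e^J (√(2g) e^(-1/2))^g`, and `C e g √g^J e^J ≤ exp (g^(19/20))` for large `g` (`J log g ≤ (g^(9/10) + 2) log g`). -/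

namespace TQ

open Polynomial TI

private theorem A2_fact (n : ℕ) (hn : 1 ≤ n) :
    Real.log (n.factorial : ℝ) ≤ 1 + Real.log n + n * Real.log n - n := by
  induction n, hn using Nat.le_induction with
  | base => simp
  | succ n hn ih =>
    have hn0 : (0 : ℝ) < n := by exact_mod_cast hn
    have hf : (0 : ℝ) < (n.factorial : ℝ) := by exact_mod_cast Nat.factorial_pos n
    have h1 : Real.log ((n + 1).factorial : ℝ) = Real.log ((n : ℝ) + 1) + Real.log (n.factorial : ℝ) := by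
      rw [Nat.factorial_succ, Nat.cast_mul, Nat.cast_add, Nat.cast_one]
      exact Real.log_mul (by positivity) hf.ne'
    have h2 : 1 / ((n : ℝ) + 1) ≤ Real.log ((n : ℝ) + 1) - Real.log n := by
      rw [← Real.log_div (by positivity) hn0.ne']
      have h3 := Real.one_sub_inv_le_log_of_pos (show (0 : ℝ) < ((n : ℝ) + 1) / n by positivity)
      have h4 : 1 - (((n : ℝ) + 1) / n)⁻¹ = 1 / ((n : ℝ) + 1) := by
        field_simp
        ring
      rw [h4] at h3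
      exact h3
    have h5 : 1 ≤ ((n : ℝ) + 1) * (Real.log ((n : ℝ) + 1) - Real.log n) := by
      have h6 := mul_le_mul_of_nonneg_left h2 (show (0 : ℝ) ≤ (n : ℝ) + 1 by positivity)
      rwa [mul_one_div_cancel (by positivity)] at h6
    rw [h1, Nat.cast_add, Nat.cast_one]
    nlinarith [h5, ih]

private theorem A2_log {x : ℝ} (h0 : 0 ≤ x) (h1 : x ≤ 1 / 2) : -(2 * x) ≤ Real.log (1 - x) := by
  have h2 : 0 < 1 - x := by linarith
  have h3 := Real.one_sub_inv_le_log_of_pos h2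
  have h4 : (1 - x)⁻¹ ≤ 1 + 2 * x := by
    rw [inv_le_comm₀ h2 (by linarith), ← one_div, div_le_iff₀ (by linarith)]
    nlinarith
  linarith

private theorem A2_pow {u c : ℝ} (hc : 0 ≤ c) (hu : c + 10 ≤ u) :
    c + (u ^ 36 + 2) + 1 + u + (u ^ 36 + 2) * u / 2 ≤ u ^ 38 ∧ 2 * (u ^ 36 + 2) ≤ u ^ 40 := by
  have h1 : 1 ≤ u := by linarith
  have h0 : 0 ≤ u := by linarith
  have h36 : 1 ≤ u ^ 36 := one_le_pow₀ h1
  have h37 : u ^ 37 = u ^ 36 * u := pow_succ u 36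
  have h38 : u ^ 38 = u ^ 36 * u * u := by rw [pow_succ, pow_succ]
  have h40 : u ^ 40 = u ^ 36 * u ^ 4 := by rw [← pow_add]
  generalize u ^ 36 = v at *
  have hv : 0 ≤ v := by linarith
  have a1 : v ≤ v * u := le_mul_of_one_le_right hv h1
  have a2 : u ≤ v * u := le_mul_of_one_le_left h0 h36
  have a3 : 1 ≤ v * u := by linarith
  have a4 : (c + 10) * (v * u) ≤ u * (v * u) := mul_le_mul_of_nonneg_right hu (by linarith)
  have a5 : c ≤ c * (v * u) := le_mul_of_one_le_right hc a3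
  constructor
  · rw [h38]
    nlinarith
  · rw [h40]
    have a6 : (10 : ℝ) ≤ u ^ 4 := by
      have : u ^ 1 ≤ u ^ 4 := pow_le_pow_right₀ h1 (by norm_num)
      rw [pow_one] at this
      linarith
    nlinarith

private theorem A2_J {g : ℕ} {u : ℝ} (h36 : (g : ℝ) ^ (9 / 10 : ℝ) = u ^ 36) (h : 2 * (u ^ 36 + 2) ≤ g) :
    (JJ g : ℝ) ≤ u ^ 36 + 2 ∧ Even (g - JJ g) := by
  have h0 : 0 ≤ (g : ℝ) ^ (9 / 10 : ℝ) := by positivity
  have h1 : (⌈(g : ℝ) ^ (9 / 10 : ℝ)⌉₊ : ℝ) < (g : ℝ) ^ (9 / 10 : ℝ) + 1 := Nat.ceil_lt_add_one h0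
  rw [h36] at h0
  unfold JJ
  split_ifs with he
  · refine ⟨?_, he⟩
    rw [h36] at h1 ⊢
    linarith
  · rw [Nat.cast_add, Nat.cast_one]
    rw [h36] at h1 he ⊢
    refine ⟨by linarith, ?_⟩
    have h2 : (⌈u ^ 36⌉₊ : ℝ) < g := by linarith
    have h3 : ⌈u ^ 36⌉₊ < g := by exact_mod_cast h2
    rw [Nat.not_even_iff_odd] at he
    obtain ⟨m, hm⟩ := he
    exact ⟨m, by omega⟩

theorem KK_num : ∃ g₀ : ℕ, ∀ g : ℕ, g₀ ≤ g →
    KK (g - JJ g) * (g.factorial : ℝ) ≤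
      Real.exp ((g : ℝ) ^ (19 / 20 : ℝ)) * (8 / 3 * Real.exp (-(1 / 2)) * Real.sqrt (2 * g)) ^ g := by
  obtain ⟨C, hC0, hC⟩ := KK_even
  have hc1 : 1 ≤ max C 1 := le_max_right _ _
  have hCc : C ≤ max C 1 := le_max_left _ _
  generalize max C 1 = c at hc1 hCc
  have hc0 : 0 < c := by linarith
  have hlc : 0 ≤ Real.log c := Real.log_nonneg hc1
  have hu : Filter.Tendsto (fun x : ℝ => x ^ (1 / 40 : ℝ)) Filter.atTop Filter.atTop :=
    tendsto_rpow_atTop (by norm_num)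
  have hl : ∀ᶠ x : ℝ in Filter.atTop, Real.log x ≤ x ^ (1 / 40 : ℝ) := by
    have h1 := (isLittleO_log_rpow_atTop (show (0 : ℝ) < 1 / 40 by norm_num)).bound one_pos
    filter_upwards [h1, Filter.eventually_ge_atTop 1] with x hx hx1
    rw [one_mul] at hx
    refine (le_abs_self _).trans (hx.trans ?_)
    rw [Real.norm_of_nonneg (by positivity)]
  have hev : ∀ᶠ g : ℕ in Filter.atTop, Real.log (g : ℝ) ≤ (g : ℝ) ^ (1 / 40 : ℝ) ∧
      Real.log c + 10 ≤ (g : ℝ) ^ (1 / 40 : ℝ) :=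
    tendsto_natCast_atTop_atTop.eventually (hl.and (hu.eventually_ge_atTop _))
  obtain ⟨g₀, hg₀⟩ := Filter.eventually_atTop.1 hev
  refine ⟨max g₀ 1, fun g hg => ?_⟩
  obtain ⟨hlg, hug⟩ := hg₀ g ((le_max_left _ _).trans hg)
  have hg1 : 1 ≤ g := (le_max_right _ _).trans hg
  have hgp : (0 : ℝ) < g := by exact_mod_cast hg1
  have p36 : (g : ℝ) ^ (9 / 10 : ℝ) = ((g : ℝ) ^ (1 / 40 : ℝ)) ^ 36 := by
    rw [← Real.rpow_natCast, ← Real.rpow_mul hgp.le]
    norm_num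
  have p38 : (g : ℝ) ^ (19 / 20 : ℝ) = ((g : ℝ) ^ (1 / 40 : ℝ)) ^ 38 := by
    rw [← Real.rpow_natCast, ← Real.rpow_mul hgp.le]
    norm_num
  have p40 : (g : ℝ) = ((g : ℝ) ^ (1 / 40 : ℝ)) ^ 40 := by
    rw [← Real.rpow_natCast, ← Real.rpow_mul hgp.le]
    norm_num
  obtain ⟨q1, q2⟩ := A2_pow hlc hug
  rw [← p40] at q2
  obtain ⟨hJ, m, hm⟩ := A2_J p36 q2
  rw [p38]
  have hJg : JJ g ≤ g := by
    have h1 : (JJ g : ℝ) ≤ g := by
      have : 0 ≤ ((g : ℝ) ^ (1 / 40 : ℝ)) ^ 36 := by positivity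
      linarith
    exact_mod_cast h1
  generalize (g : ℝ) ^ (1 / 40 : ℝ) = u at *
  have hJ0 : (0 : ℝ) ≤ (JJ g : ℝ) := Nat.cast_nonneg _
  generalize hJJ : JJ g = J at *
  have hm2 : 2 * (m : ℝ) = (g : ℝ) - J := by
    have h1 : g = 2 * m + J := by omega
    have h2 : (g : ℝ) = 2 * (m : ℝ) + J := by exact_mod_cast h1
    linarith
  have hmg : g - J = 2 * m := by omega
  have hJh : (J : ℝ) ≤ g / 2 := by linarith
  have hm0 : (0 : ℝ) < m := by linarith
  have hmf : (0 : ℝ) < (m.factorial : ℝ) := by exact_mod_cast Nat.factorial_pos m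
  have hgf : (0 : ℝ) < (g.factorial : ℝ) := by exact_mod_cast Nat.factorial_pos g
  have hlm : Real.log (m : ℝ) * m - m ≤ Real.log (m.factorial : ℝ) := by
    have h1 := Real.pow_div_factorial_le_exp (m : ℝ) hm0.le m
    have h2 := Real.log_le_log (by positivity) h1
    rw [Real.log_div (by positivity) hmf.ne', Real.log_pow, Real.log_exp] at h2
    linarith
  have hlgf := A2_fact g hg1
  have hlm2 : Real.log (g : ℝ) - 2 * (J / g) - Real.log 2 ≤ Real.log (m : ℝ) := by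
    have h1 : (m : ℝ) = g * (1 - J / g) / 2 := by
      field_simp
      linarith
    have h2 : (J : ℝ) / g ≤ 1 / 2 := by
      rw [div_le_iff₀ hgp]
      linarith
    have h3 : (0 : ℝ) ≤ J / g := by positivity
    have h4 := A2_log h3 h2
    rw [h1, Real.log_div (mul_ne_zero hgp.ne' (by linarith)) two_ne_zero,
      Real.log_mul hgp.ne' (by linarith)]
    linarith
  have hmJ : (m : ℝ) * (2 * (J / g)) ≤ J := by
    have h1 : (m : ℝ) * (2 * (J / g)) = J * (2 * m / g) := by ring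
    rw [h1]
    refine mul_le_of_le_one_right hJ0 ?_
    rw [div_le_one hgp]
    linarith
  have hl2 : 0 ≤ Real.log 2 := Real.log_nonneg (by norm_num)
  have ha : 0 ≤ Real.log (8 / 3 : ℝ) := Real.log_nonneg (by norm_num)
  have hlg0 : 0 ≤ Real.log (g : ℝ) := Real.log_nonneg (by exact_mod_cast hg1)
  -- the bound in exponential form
  have hB : KK (g - J) * (g.factorial : ℝ) ≤
      Real.exp (Real.log c + 2 * m * Real.log (8 / 3) - Real.log (m.factorial : ℝ) +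
        Real.log (g.factorial : ℝ)) := by
    have h1 : KK (g - J) ≤ c * (64 / 9) ^ m / (m.factorial : ℝ) := by
      rw [hmg]
      refine (hC m).trans ?_
      gcongr
    refine (mul_le_mul_of_nonneg_right h1 hgf.le).trans (le_of_eq ?_)
    have h2 : 2 * (m : ℝ) * Real.log (8 / 3) = Real.log ((64 / 9 : ℝ) ^ m) := by
      rw [Real.log_pow]
      have h3 : (64 / 9 : ℝ) = (8 / 3) ^ 2 := by norm_num
      rw [h3, Real.log_pow]
      push_cast
      ring
    rw [h2, Real.exp_add, Real.exp_sub, Real.exp_add, Real.exp_log hc0, Real.exp_log (by positivity),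
      Real.exp_log hmf, Real.exp_log hgf]
  have hR : (8 / 3 * Real.exp (-(1 / 2)) * Real.sqrt (2 * g)) ^ g =
      Real.exp (g * (Real.log (8 / 3) - 1 / 2 + (Real.log 2 + Real.log g) / 2)) := by
    have h1 : (0 : ℝ) < 8 / 3 * Real.exp (-(1 / 2)) * Real.sqrt (2 * g) := by positivity
    have h2 : Real.log (8 / 3 * Real.exp (-(1 / 2)) * Real.sqrt (2 * g)) =
        Real.log (8 / 3) - 1 / 2 + (Real.log 2 + Real.log g) / 2 := by
      rw [Real.log_mul (by positivity) (by positivity), Real.log_mul (by positivity) (by positivity), Real.log_exp,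
        Real.log_sqrt (by positivity), Real.log_mul two_ne_zero hgp.ne']
      ring
    rw [← h2, ← Real.log_pow, Real.exp_log (pow_pos h1 g)]
  refine hB.trans ?_
  rw [hR, ← Real.exp_add]
  refine Real.exp_le_exp.2 ?_
  have k1 : (m : ℝ) * (Real.log (g : ℝ) - 2 * (J / g) - Real.log 2) ≤ m * Real.log (m : ℝ) :=
    mul_le_mul_of_nonneg_left hlm2 hm0.le
  have k2 : 2 * (m : ℝ) * Real.log (8 / 3) ≤ g * Real.log (8 / 3) :=
    mul_le_mul_of_nonneg_right (by linarith) ha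
  have k3 : (m : ℝ) * Real.log 2 ≤ g / 2 * Real.log 2 := mul_le_mul_of_nonneg_right (by linarith) hl2
  have k4 : (m : ℝ) * Real.log (g : ℝ) = (g : ℝ) * Real.log (g : ℝ) / 2 - J * Real.log (g : ℝ) / 2 := by
    have : (m : ℝ) = (g - J) / 2 := by linarith
    rw [this]
    ring
  have k5 : (J : ℝ) * Real.log (g : ℝ) ≤ (u ^ 36 + 2) * u :=
    mul_le_mul hJ hlg hlg0 (by linarith)
  nlinarith [k1, k2, k3, k4, k5, hmJ, hlm, hlgf, q1, hJ, hlg]

end TQ
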