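import Pool.Agent.Lib.MP_021685_agTQ.AD
import Pool.Agent.Lib.MP_021685_agTQ.ML
import Pool.Agent.Lib.MP_021685_agTQ.VOL
import Pool.Agent.Lib.MP_021685_agTQ.PF
import Pool.Agent.Lib.MP_021685_agTQ.PL
import Pool.Agent.Lib.MP_021685_agTQ.HB
import Pool.Agent.Lib.MP_021685_agTQ.LB
import Pool.Agent.Lib.MP_021685_agTI.E1

/-! LEAF A3 (medium).  The final numerical inequality for the planes.

PROOF.  `s = √q ≥ √2`.  Divide by the positive `√q^(g(g+1)/2) √(2g)^g/g!` (`Low`): by `KK_num` (leaf A2, hypothesis `hK`) it is enough that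
`exp(2 g^(19/20)) e^(g/200) (8/3 e^(-1/2))^g 10 (g+1)² (Lam g + 3)² exp(g^(9/10)/2) s^(g/2) ≤ (1/4) (99/100)^(2g) s^(2g)` (`√(exp(g^(9/10)) s^g) = exp(g^(9/10)/2) √(s^g)`, and `√(s^g) ^ 4 = s^(2g)`; so one needs the number `X = e^(1/200) (8/3) e^(-1/2) (1001/1000)^8 / ((99/100)^2 2^(3/4))`, `s^(3/2) ≥ 2^(3/4)`).
Numerically `e^(1/200) ≤ 1.00502`, `e^(-1/2) ≤ 0.60654`, `(1.001)^8 ≤ 1.00803`, `2^(3/4) ≥ 1.68179`: `X ≤ 0.9942 < 1`.  `(Lam g + 3)² ≤ 16 g⁴ (1001/1000)^(8g)`.  `X^g exp(2 g^(19/20) + g^(9/10)/2) 160 (g+1)² g⁴ → 0`. -/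

namespace TQ

open Polynomial TI

private theorem A3_exp : Real.exp (1 / 200) * (8 / 3 * Real.exp (-(1 / 2))) * (1001 / 1000 : ℝ) ^ 8 ≤
    995 / 1000 * ((99 / 100) ^ 2 * (1681 / 1000)) := by
  have h1 : Real.exp (1 / 200) * Real.exp (-(1 / 2)) = (Real.exp (99 / 200))⁻¹ := by
    rw [← Real.exp_neg, ← Real.exp_add]
    norm_num
  have h2 : (164 / 100 : ℝ) ≤ Real.exp (99 / 200) := by
    refine le_trans ?_ (Real.sum_le_exp_of_nonneg (by norm_num : (0 : ℝ) ≤ 99 / 200) 6)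
    norm_num [Finset.sum_range_succ, Nat.factorial]
  have h3 : (Real.exp (99 / 200))⁻¹ ≤ (164 / 100 : ℝ)⁻¹ := inv_anti₀ (by norm_num) h2
  have h4 : Real.exp (1 / 200) * (8 / 3 * Real.exp (-(1 / 2))) * (1001 / 1000 : ℝ) ^ 8 =
      (Real.exp (99 / 200))⁻¹ * (8 / 3 * (1001 / 1000 : ℝ) ^ 8) := by
    rw [← h1]
    ring
  rw [h4]
  refine (mul_le_mul_of_nonneg_right h3 (by positivity)).trans ?_
  norm_num

private theorem A3_pow {G : ℝ} (hG : (2000 : ℝ) ^ 20 ≤ G) : G ^ (19 / 20 : ℝ) ≤ G / 2000 ∧ G ^ (9 / 10 : ℝ) ≤ G / 2000 := by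
  have hG0 : 0 < G := lt_of_lt_of_le (by positivity) hG
  have hG1 : 1 ≤ G := le_trans (by norm_num) hG
  have h20 : (2000 : ℝ) ≤ G ^ (1 / 20 : ℝ) := by
    have e : (2000 : ℝ) = ((2000 : ℝ) ^ 20) ^ (1 / 20 : ℝ) := by
      rw [← Real.rpow_natCast, ← Real.rpow_mul (by norm_num)]
      norm_num
    calc (2000 : ℝ) = ((2000 : ℝ) ^ 20) ^ (1 / 20 : ℝ) := e
      _ ≤ G ^ (1 / 20 : ℝ) := Real.rpow_le_rpow (by positivity) hG (by norm_num)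
  have h1 : G ^ (19 / 20 : ℝ) * G ^ (1 / 20 : ℝ) = G := by
    rw [← Real.rpow_add hG0]
    norm_num
  have h2 : 0 ≤ G ^ (19 / 20 : ℝ) := by positivity
  have h3 : G ^ (19 / 20 : ℝ) ≤ G / 2000 := by
    rw [le_div_iff₀ (by norm_num)]
    calc G ^ (19 / 20 : ℝ) * 2000 ≤ G ^ (19 / 20 : ℝ) * G ^ (1 / 20 : ℝ) := mul_le_mul_of_nonneg_left h20 h2
      _ = G := h1
  exact ⟨h3, (Real.rpow_le_rpow_of_exponent_le hG1 (by norm_num)).trans h3⟩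

private theorem A3_poly {G : ℝ} (hG : (2000 : ℝ) ^ 20 ≤ G) :
    640 * ((G + 1) ^ 2 * G ^ 4) ≤ Real.exp (G / 1000) := by
  have hG1 : 1 ≤ G := le_trans (by norm_num) hG
  have h1 : (G / 1000) ^ 7 / (Nat.factorial 7 : ℝ) ≤ Real.exp (G / 1000) :=
    Real.pow_div_factorial_le_exp (G / 1000) (by positivity) 7
  refine le_trans ?_ h1
  have h2 : (G + 1) ^ 2 ≤ (2 * G) ^ 2 := pow_le_pow_left₀ (by positivity) (by linarith) 2
  have h3 : (0 : ℝ) ≤ G ^ 4 := by positivity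
  have h4 : 640 * ((G + 1) ^ 2 * G ^ 4) ≤ 640 * ((2 * G) ^ 2 * G ^ 4) :=
    mul_le_mul_of_nonneg_left (mul_le_mul_of_nonneg_right h2 h3) (by norm_num)
  refine h4.trans ?_
  have h5 : (G / 1000) ^ 7 / (Nat.factorial 7 : ℝ) = G ^ 6 * (G / (1000 ^ 7 * 5040)) := by
    norm_num [Nat.factorial]
    ring
  have h6 : 640 * ((2 * G) ^ 2 * G ^ 4) = G ^ 6 * 2560 := by ring
  rw [h5, h6]
  refine mul_le_mul_of_nonneg_left ?_ (by positivity)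
  rw [le_div_iff₀ (by positivity)]
  refine le_trans ?_ hG
  norm_num

private theorem A3_main {g : ℕ} (hG : (2000 : ℝ) ^ 20 ≤ (g : ℝ)) :
    Real.exp ((g : ℝ) ^ (19 / 20 : ℝ)) * Real.exp ((g : ℝ) ^ (19 / 20 : ℝ)) *
      Real.exp ((g : ℝ) ^ (9 / 10 : ℝ) / 2) * (160 * (((g : ℝ) + 1) ^ 2 * (g : ℝ) ^ 4)) * (995 / 1000 : ℝ) ^ g ≤ 1 / 4 := by
  obtain ⟨h1, h2⟩ := A3_pow hG
  have h3 := A3_poly hG
  have hG0 : (0 : ℝ) ≤ g := Nat.cast_nonneg g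
  have h4 : (995 / 1000 : ℝ) ^ g ≤ Real.exp (-((g : ℝ) / 200)) := by
    have e1 : (995 / 1000 : ℝ) ≤ Real.exp (-(1 / 200)) := by
      refine le_trans ?_ (Real.one_sub_le_exp_neg (1 / 200))
      norm_num
    refine (pow_le_pow_left₀ (by norm_num) e1 g).trans (le_of_eq ?_)
    rw [← Real.exp_nat_mul]
    congr 1
    ring
  have h5 : 160 * (((g : ℝ) + 1) ^ 2 * (g : ℝ) ^ 4) ≤ 1 / 4 * Real.exp ((g : ℝ) / 1000) := by linarith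
  have h6 : Real.exp ((g : ℝ) ^ (19 / 20 : ℝ)) * Real.exp ((g : ℝ) ^ (19 / 20 : ℝ)) *
      Real.exp ((g : ℝ) ^ (9 / 10 : ℝ) / 2) ≤ Real.exp ((g : ℝ) / 800) := by
    rw [← Real.exp_add, ← Real.exp_add, Real.exp_le_exp]
    linarith
  calc _ ≤ Real.exp ((g : ℝ) / 800) * (1 / 4 * Real.exp ((g : ℝ) / 1000)) * Real.exp (-((g : ℝ) / 200)) := by
        gcongr
    _ = 1 / 4 * Real.exp ((g : ℝ) / 800 + (g : ℝ) / 1000 + -((g : ℝ) / 200)) := by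
        rw [Real.exp_add, Real.exp_add]
        ring
    _ ≤ 1 / 4 * 1 := by
        refine mul_le_mul_of_nonneg_left ?_ (by norm_num)
        rw [Real.exp_le_one_iff]
        linarith
    _ = 1 / 4 := mul_one _

private theorem A3_core {q g : ℕ} (hq : 2 ≤ q) (hG : (2000 : ℝ) ^ 20 ≤ (g : ℝ)) :
    Real.exp ((g : ℝ) ^ (19 / 20 : ℝ)) * Real.exp ((g : ℝ) / 200) *
      (Real.exp ((g : ℝ) ^ (19 / 20 : ℝ)) * (8 / 3 * Real.exp (-(1 / 2))) ^ g) *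
        (10 * ((g : ℝ) + 1) ^ 2 * (Lam g + 3) ^ 2 *
          Real.sqrt (Real.exp ((g : ℝ) ^ (9 / 10 : ℝ)) * Real.sqrt q ^ g)) ≤
      1 / 4 * (99 / 100) ^ g * Real.sqrt q ^ (2 * g) * (99 / 100) ^ g := by
  have hG1 : (1 : ℝ) ≤ g := le_trans (by norm_num) hG
  obtain ⟨r, hr⟩ : ∃ r : ℝ, r = Real.sqrt (Real.sqrt q) := ⟨_, rfl⟩
  have hr0 : 0 ≤ r := by
    rw [hr]
    exact Real.sqrt_nonneg _
  have hr2 : r ^ 2 = Real.sqrt q := by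
    rw [hr]
    exact Real.sq_sqrt (Real.sqrt_nonneg _)
  have hr4 : r ^ 4 = q := by
    have e : r ^ 4 = (r ^ 2) ^ 2 := by ring
    rw [e, hr2]
    exact Real.sq_sqrt (Nat.cast_nonneg q)
  have hq2 : (2 : ℝ) ≤ q := by exact_mod_cast hq
  have hr3 : (1681 / 1000 : ℝ) ≤ r ^ 3 := by
    by_contra hlt
    push Not at hlt
    have e1 : (r ^ 3) ^ 4 < (1681 / 1000 : ℝ) ^ 4 := pow_lt_pow_left₀ hlt (by positivity) (by norm_num)
    have e2 : (r ^ 3) ^ 4 = (r ^ 4) ^ 3 := by ring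
    rw [e2, hr4] at e1
    have e3 : (2 : ℝ) ^ 3 ≤ (q : ℝ) ^ 3 := pow_le_pow_left₀ (by norm_num) hq2 3
    have e4 : (2 : ℝ) ^ 3 < (1681 / 1000 : ℝ) ^ 4 := lt_of_le_of_lt e3 e1
    norm_num at e4
  have hsq : Real.sqrt (Real.exp ((g : ℝ) ^ (9 / 10 : ℝ)) * Real.sqrt q ^ g) =
      Real.exp ((g : ℝ) ^ (9 / 10 : ℝ) / 2) * r ^ g := by
    rw [← hr2]
    have e : Real.exp ((g : ℝ) ^ (9 / 10 : ℝ)) * (r ^ 2) ^ g =
        (Real.exp ((g : ℝ) ^ (9 / 10 : ℝ) / 2) * r ^ g) ^ 2 := by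
      rw [mul_pow, ← Real.exp_nat_mul, ← pow_mul, ← pow_mul, mul_comm g 2]
      congr 2
      push_cast
      ring
    rw [e, Real.sqrt_sq (by positivity)]
  have hL : (Lam g + 3) ^ 2 ≤ 16 * (g : ℝ) ^ 4 * ((1001 / 1000 : ℝ) ^ 8) ^ g := by
    have e1 : 1 ≤ Lam g := by
      unfold Lam
      exact one_le_mul_of_one_le_of_one_le (one_le_pow₀ hG1) (one_le_pow₀ (by norm_num))
    have e2 : (Lam g + 3) ^ 2 ≤ (4 * Lam g) ^ 2 := pow_le_pow_left₀ (by linarith) (by linarith) 2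
    refine e2.trans (le_of_eq ?_)
    unfold Lam
    rw [← pow_mul]
    have e3 : (1001 / 1000 : ℝ) ^ (8 * g) = ((1001 / 1000 : ℝ) ^ (4 * g)) ^ 2 := by
      rw [← pow_mul]
      congr 1
      ring
    rw [e3]
    ring
  have hE : Real.exp ((g : ℝ) / 200) = Real.exp (1 / 200) ^ g := by
    rw [← Real.exp_nat_mul]
    congr 1
    ring
  have hZ : (Real.exp (1 / 200) * (8 / 3 * Real.exp (-(1 / 2))) * (1001 / 1000 : ℝ) ^ 8) ^ g ≤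
      (995 / 1000 : ℝ) ^ g * (((99 / 100) ^ 2) ^ g * (r ^ 3) ^ g) := by
    rw [← mul_pow, ← mul_pow]
    refine pow_le_pow_left₀ (by positivity) (A3_exp.trans ?_) g
    gcongr
  have hm := A3_main hG
  rw [hsq, hE]
  obtain ⟨A, hA⟩ : ∃ A : ℝ, A = Real.exp ((g : ℝ) ^ (19 / 20 : ℝ)) := ⟨_, rfl⟩
  obtain ⟨D, hD⟩ : ∃ D : ℝ, D = Real.exp ((g : ℝ) ^ (9 / 10 : ℝ) / 2) := ⟨_, rfl⟩
  have hA0 : 0 < A := by
    rw [hA]
    exact Real.exp_pos _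
  have hD0 : 0 < D := by
    rw [hD]
    exact Real.exp_pos _
  rw [← hA, ← hD] at hm ⊢
  calc A * Real.exp (1 / 200) ^ g * (A * (8 / 3 * Real.exp (-(1 / 2))) ^ g) *
        (10 * ((g : ℝ) + 1) ^ 2 * (Lam g + 3) ^ 2 * (D * r ^ g))
      ≤ A * Real.exp (1 / 200) ^ g * (A * (8 / 3 * Real.exp (-(1 / 2))) ^ g) *
        (10 * ((g : ℝ) + 1) ^ 2 * (16 * (g : ℝ) ^ 4 * ((1001 / 1000 : ℝ) ^ 8) ^ g) * (D * r ^ g)) := by
        gcongr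
    _ = A * A * D * (160 * (((g : ℝ) + 1) ^ 2 * (g : ℝ) ^ 4)) *
        (Real.exp (1 / 200) * (8 / 3 * Real.exp (-(1 / 2))) * (1001 / 1000 : ℝ) ^ 8) ^ g * r ^ g := by
        rw [mul_pow (Real.exp (1 / 200) * (8 / 3 * Real.exp (-(1 / 2)))), mul_pow (Real.exp (1 / 200))]
        ring
    _ ≤ A * A * D * (160 * (((g : ℝ) + 1) ^ 2 * (g : ℝ) ^ 4)) *
        ((995 / 1000 : ℝ) ^ g * (((99 / 100) ^ 2) ^ g * (r ^ 3) ^ g)) * r ^ g := by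
        gcongr
    _ = (A * A * D * (160 * (((g : ℝ) + 1) ^ 2 * (g : ℝ) ^ 4)) * (995 / 1000 : ℝ) ^ g) *
        (((99 / 100) ^ 2) ^ g * ((r ^ 3) ^ g * r ^ g)) := by ring
    _ ≤ 1 / 4 * (((99 / 100) ^ 2) ^ g * ((r ^ 3) ^ g * r ^ g)) :=
        mul_le_mul_of_nonneg_right hm (by positivity)
    _ = 1 / 4 * (99 / 100) ^ g * Real.sqrt q ^ (2 * g) * (99 / 100) ^ g := by
        rw [← hr2, ← pow_mul, ← pow_mul, ← pow_mul, ← pow_add]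
        have e1 : (99 / 100 : ℝ) ^ (2 * g) = (99 / 100) ^ g * (99 / 100) ^ g := by
          rw [← pow_add]
          congr 1
          ring
        have e2 : 3 * g + g = 2 * (2 * g) := by ring
        rw [e1, e2]
        ring

theorem planes_num (q : ℕ) (hq : 2 ≤ q) : ∃ g₀ : ℕ, ∀ g : ℕ, g₀ ≤ g →
    KK (g - JJ g) * (g.factorial : ℝ) ≤
      Real.exp ((g : ℝ) ^ (19 / 20 : ℝ)) * (8 / 3 * Real.exp (-(1 / 2)) * Real.sqrt (2 * g)) ^ g →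
    Real.exp ((g : ℝ) ^ (19 / 20 : ℝ)) * Real.exp ((g : ℝ) / 200) * Real.sqrt q ^ (g * (g + 1) / 2) *
        KK (g - JJ g) * (10 * ((g : ℝ) + 1) ^ 2 * (Lam g + 3) ^ 2 *
          Real.sqrt (Real.exp ((g : ℝ) ^ (9 / 10 : ℝ)) * Real.sqrt q ^ g)) ≤
      1 / 4 * (99 / 100) ^ g * Real.sqrt q ^ (2 * g) * Low q g := by
  refine ⟨2000 ^ 20, fun g hg hK => ?_⟩
  have hG : (2000 : ℝ) ^ 20 ≤ (g : ℝ) := by exact_mod_cast hg
  have hcore := A3_core (q := q) (g := g) hq hG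
  obtain ⟨A, hA⟩ : ∃ A : ℝ, A = Real.exp ((g : ℝ) ^ (19 / 20 : ℝ)) := ⟨_, rfl⟩
  obtain ⟨W, hW⟩ : ∃ W : ℝ, W = 10 * ((g : ℝ) + 1) ^ 2 * (Lam g + 3) ^ 2 *
          Real.sqrt (Real.exp ((g : ℝ) ^ (9 / 10 : ℝ)) * Real.sqrt q ^ g) := ⟨_, rfl⟩
  have hA0 : 0 < A := by
    rw [hA]
    exact Real.exp_pos _
  have hW0 : 0 ≤ W := by
    rw [hW]
    positivity
  have hf : (0 : ℝ) < (g.factorial : ℝ) := by exact_mod_cast Nat.factorial_pos g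
  rw [← hA, ← hW] at hcore ⊢
  rw [← hA] at hK
  have hKK : KK (g - JJ g) ≤ A * ((8 / 3 * Real.exp (-(1 / 2))) ^ g * Real.sqrt (2 * g) ^ g) / (g.factorial : ℝ) := by
    rw [le_div_iff₀ hf, ← mul_pow]
    exact hK
  unfold Low
  calc A * Real.exp ((g : ℝ) / 200) * Real.sqrt q ^ (g * (g + 1) / 2) * KK (g - JJ g) * W
      ≤ A * Real.exp ((g : ℝ) / 200) * Real.sqrt q ^ (g * (g + 1) / 2) *
        (A * ((8 / 3 * Real.exp (-(1 / 2))) ^ g * Real.sqrt (2 * g) ^ g) / (g.factorial : ℝ)) * W := by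
        gcongr
    _ = (A * Real.exp ((g : ℝ) / 200) * (A * (8 / 3 * Real.exp (-(1 / 2))) ^ g) * W) *
        (Real.sqrt q ^ (g * (g + 1) / 2) * Real.sqrt (2 * g) ^ g / (g.factorial : ℝ)) := by ring
    _ ≤ (1 / 4 * (99 / 100) ^ g * Real.sqrt q ^ (2 * g) * (99 / 100) ^ g) *
        (Real.sqrt q ^ (g * (g + 1) / 2) * Real.sqrt (2 * g) ^ g / (g.factorial : ℝ)) :=
        mul_le_mul_of_nonneg_right hcore (by positivity)
    _ = _ := by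
        rw [mul_pow (99 / 100 : ℝ)]
        ring

end TQ
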