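import Pool.Agent.Lib.MP_021685_agTQ.AD
import Pool.Agent.Lib.MP_021685_agTQ.ML
import Pool.Agent.Lib.MP_021685_agTQ.VOL
import Pool.Agent.Lib.MP_021685_agTQ.PF
import Pool.Agent.Lib.MP_021685_agTQ.PL
import Pool.Agent.Lib.MP_021685_agTQ.HB
import Pool.Agent.Lib.MP_021685_agTQ.LB
import Pool.Agent.Lib.MP_021685_agTI.E1
import Pool.Agent.Lib.MP_021685_agTQ.A1
import Pool.Agent.Lib.MP_021685_agTQ.A2
import Pool.Agent.Lib.MP_021685_agTQ.A3
import Pool.Agent.Lib.MP_021685_agTQ.A4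

/-! LEAF A5 (easy+, assembly).  The members on short lines.

PROOF.  `g` large.  `short_split` with `A = exp(g^(9/10)) √q^g ≥ 1` (`second_deriv`), `L = Lam g ≥ 1`; `irregular_count`, `irr_num`: the first term is `≤ (1/4)(99/100)^g Low`; `planes_le` times the bracket, `KK_num`, `planes_num`: (second term) `* √q^(2g) ≤ (1/4)(99/100)^g √q^(2g) Low`.  `lower`: `Low q g ≤ 2 N`. -/

namespace TQ

open Polynomial TI

theorem short_count (q : ℕ) (hq : 2 ≤ q) : ∃ g₀ : ℕ, ∀ g : ℕ, g₀ ≤ g →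
    (({h | h ∈ Weil q g ∧ (LN q g h : ℝ) < Lam g} : Set ℤ[X]).ncard : ℝ) ≤
      (99 / 100) ^ g * ((Weil q g).ncard : ℝ) := by
  obtain ⟨g1, h1⟩ := second_deriv q (by omega)
  obtain ⟨g2, h2⟩ := irregular_count q hq
  obtain ⟨g3, h3⟩ := irr_num q hq
  obtain ⟨g4, h4⟩ := planes_le q hq
  obtain ⟨g5, h5⟩ := KK_num
  obtain ⟨g6, h6⟩ := planes_num q hq
  obtain ⟨g7, h7⟩ := lower q hq
  refine ⟨g1 + g2 + g3 + g4 + g5 + g6 + g7 + 3, fun g hg => ?_⟩
  have hs : (1 : ℝ) ≤ Real.sqrt q := by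
    rw [Real.one_le_sqrt]
    exact_mod_cast (by omega : 1 ≤ q)
  have hs0 : (0 : ℝ) < Real.sqrt q ^ (2 * g) := by positivity
  have hA : (1 : ℝ) ≤ Real.exp ((g : ℝ) ^ (9 / 10 : ℝ)) * Real.sqrt q ^ g := by
    have e1 : (1 : ℝ) ≤ Real.exp ((g : ℝ) ^ (9 / 10 : ℝ)) := Real.one_le_exp (by positivity)
    exact one_le_mul_of_one_le_of_one_le e1 (one_le_pow₀ hs)
  have hg1 : (1 : ℝ) ≤ (g : ℝ) := by exact_mod_cast (by omega : 1 ≤ g)
  have hL : (1 : ℝ) ≤ Lam g := by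
    unfold Lam
    exact one_le_mul_of_one_le_of_one_le (one_le_pow₀ hg1) (one_le_pow₀ (by norm_num))
  have hsp := short_split hq (by omega : 3 ≤ g) hA hL (h1 g (by omega))
  have hi := (h2 g (by omega)).trans (h3 g (by omega))
  have hp := h4 g (by omega)
  have hn := h6 g (by omega) (h5 g (by omega))
  have hlow := h7 g (by omega)
  set B : ℝ := 10 * ((g : ℝ) + 1) ^ 2 * (Lam g + 3) ^ 2 *
    Real.sqrt (Real.exp ((g : ℝ) ^ (9 / 10 : ℝ)) * Real.sqrt q ^ g) with hB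
  have hB0 : 0 ≤ B := by positivity
  set P : ℝ := ((pre g (g - 2) '' {h | h ∈ Weil q g ∧ Reg q g h}).ncard : ℝ) with hP
  have key : P * B ≤ 1 / 4 * (99 / 100) ^ g * Low q g := by
    have e1 := mul_le_mul_of_nonneg_right hp hB0
    have e2 : Real.sqrt q ^ (2 * g) * (P * B) ≤
        Real.sqrt q ^ (2 * g) * (1 / 4 * (99 / 100) ^ g * Low q g) := by
      calc Real.sqrt q ^ (2 * g) * (P * B) = P * Real.sqrt q ^ (2 * g) * B := by ring
        _ ≤ _ := e1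
        _ ≤ _ := hn
        _ = _ := by ring
    exact le_of_mul_le_mul_left e2 hs0
  have hlow' : Low q g ≤ 2 * ((Weil q g).ncard : ℝ) := hlow
  have h99 : (0 : ℝ) ≤ (99 / 100) ^ g := by positivity
  calc (({h | h ∈ Weil q g ∧ (LN q g h : ℝ) < Lam g} : Set ℤ[X]).ncard : ℝ)
      ≤ (({h | h ∈ Weil q g ∧ ¬ Reg q g h} : Set ℤ[X]).ncard : ℝ) + P * B := hsp
    _ ≤ 1 / 4 * (99 / 100) ^ g * Low q g + 1 / 4 * (99 / 100) ^ g * Low q g := add_le_add hi key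
    _ = 1 / 2 * ((99 / 100) ^ g * Low q g) := by ring
    _ ≤ 1 / 2 * ((99 / 100) ^ g * (2 * ((Weil q g).ncard : ℝ))) := by gcongr
    _ = _ := by ring

end TQ
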