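import Pool.Agent.Lib.MP_021685_agTQ.AD
import Pool.Agent.Lib.MP_021685_agTQ.ML
import Pool.Agent.Lib.MP_021685_agTQ.VOL
import Pool.Agent.Lib.MP_021685_agTQ.PF
import Pool.Agent.Lib.MP_021685_agTQ.PL
import Pool.Agent.Lib.MP_021685_agTQ.HB
import Pool.Agent.Lib.MP_021685_agTQ.LB
import Pool.Agent.Lib.MP_021685_agTI.E1
import Pool.Agent.Lib.MP_021685_agTI.S0
import Pool.Agent.Lib.MP_021685_agTI.Fi

/-! LEAF A8 (medium).  Members on long lines with a factor of small degree.

PROOF.  `W = ⋃_(1 ≤ i ≤ 9) Weil q i`, a finite set (`Weil_finite`) with `K` elements.  In one line (`pre g (g-1)` fixed) and for one `p ∈ W` at most one member is divisible by `p`: if `p ∣ h` and `p ∣ h'`, `h' = h + C c` (same `pre g (g-1)`, both monic of degree `g`), then `p ∣ C c`, `p` monic of degree `≥ 1`, so `c = 0`.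
So at most `K` members of the line are in the set, and the line has at least `LN ≥ Lam g` members: `K ≤ (K/Lam g) * (number of the members of the line)`.  `sum_fibers` with `f = pre g (g-1)`, `a = K/Lam g`, `b = 0`. -/

namespace TQ

open Polynomial TI

/-- Two members of one line with a common monic factor of positive degree are equal. -/
private theorem A8_eq {q g : ℕ} (hg : 3 ≤ g) {h h' p : ℤ[X]} (hh : h ∈ Weil q g) (hh' : h' ∈ Weil q g)
    (he : pre g (g - 1) h = pre g (g - 1) h') (hp : 1 ≤ p.natDegree) (h1 : p ∣ h) (h2 : p ∣ h') :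
    h = h' := by
  obtain ⟨hm, hd, _⟩ := hh
  obtain ⟨hm', hd', _⟩ := hh'
  have h3 : h - h' = C ((h - h').coeff 0) := by
    refine Polynomial.ext fun n => ?_
    rw [coeff_C]
    split_ifs with hn
    · rw [hn]
    · rw [coeff_sub]
      rcases lt_trichotomy n g with h4 | h4 | h4
      · have h5 := congrFun he ⟨g - 1 - n, by omega⟩
        unfold pre at h5
        have h6 : g - 1 - (g - 1 - n) = n := by omega
        dsimp only at h5
        rw [h6] at h5
        rw [h5, sub_self]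
      · have h5 : h.coeff g = 1 := by
          rw [← hd]
          exact hm.coeff_natDegree
        have h6 : h'.coeff g = 1 := by
          rw [← hd']
          exact hm'.coeff_natDegree
        rw [h4, h5, h6, sub_self]
      · rw [coeff_eq_zero_of_natDegree_lt (by omega), coeff_eq_zero_of_natDegree_lt (by omega), sub_zero]
  have h4 : p ∣ C ((h - h').coeff 0) := by
    rw [← h3]
    exact dvd_sub h1 h2
  have h5 : (h - h').coeff 0 = 0 := by
    by_contra hne
    have h6 := natDegree_le_of_dvd h4 (C_ne_zero.2 hne)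
    rw [natDegree_C] at h6
    omega
  rw [h5, C_0] at h3
  exact sub_eq_zero.1 h3

theorem low_factor (q : ℕ) (hq : 1 ≤ q) : ∃ K : ℝ, 0 ≤ K ∧ ∀ g : ℕ, 3 ≤ g →
    (({h | h ∈ Weil q g ∧ (∃ i : ℕ, 1 ≤ i ∧ i ≤ 9 ∧ ∃ p ∈ Weil q i, p ∣ h) ∧ Lam g ≤ (LN q g h : ℝ)} :
      Set ℤ[X]).ncard : ℝ) ≤ K / Lam g * ((Weil q g).ncard : ℝ) := by
  classical
  obtain ⟨W, hWdef⟩ : ∃ W : Set ℤ[X], W = ⋃ i ∈ Set.Icc 1 9, Weil q i := ⟨_, rfl⟩
  have hW : W.Finite := by
    rw [hWdef]
    exact (Set.finite_Icc 1 9).biUnion fun i _ => Weil_finite q i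
  refine ⟨W.ncard, Nat.cast_nonneg _, fun g hg => ?_⟩
  obtain ⟨A, hA⟩ : ∃ A : Set ℤ[X], A = {h | h ∈ Weil q g ∧
      (∃ i : ℕ, 1 ≤ i ∧ i ≤ 9 ∧ ∃ p ∈ Weil q i, p ∣ h) ∧ Lam g ≤ (LN q g h : ℝ)} := ⟨_, rfl⟩
  rw [← hA]
  have hL : 0 < Lam g := by
    unfold Lam
    have : (0 : ℝ) < g := by
      have : 0 < g := by omega
      exact_mod_cast this
    positivity
  have hAX : A ⊆ Weil q g := by
    rw [hA]
    exact fun h hh => hh.1
  have key := sum_fibers (a := (W.ncard : ℝ) / Lam g) (b := 0) (Weil_finite q g) hAX (pre g (g - 1)) ?_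
  · rw [zero_mul, add_zero] at key
    exact key
  · intro w hw
    have hnn : (0 : ℝ) ≤ (W.ncard : ℝ) / Lam g := by positivity
    rcases Set.eq_empty_or_nonempty (A ∩ pre g (g - 1) ⁻¹' {w}) with hne | hne
    · rw [hne, Set.ncard_empty, Nat.cast_zero, add_zero]
      positivity
    · obtain ⟨h0, h0A, h0w⟩ := hne
      have h0w' : pre g (g - 1) h0 = w := h0w
      have h0L : Lam g ≤ (LN q g h0 : ℝ) := by
        rw [hA] at h0A
        exact h0A.2.2
      have hch : ∀ h : ℤ[X], ∃ p : ℤ[X], h ∈ A → (p ∈ W ∧ 1 ≤ p.natDegree ∧ p ∣ h) := by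
        intro h
        by_cases hh : h ∈ A
        · have hh' := hh
          rw [hA] at hh'
          obtain ⟨_, ⟨i, hi1, hi9, p, hp, hpd⟩, _⟩ := hh'
          refine ⟨p, fun _ => ⟨?_, ?_, hpd⟩⟩
          · rw [hWdef]
            exact Set.mem_biUnion (Set.mem_Icc.2 ⟨hi1, hi9⟩) hp
          · rw [hp.2.1]
            exact hi1
        · exact ⟨0, fun h => absurd h hh⟩
      choose P hP using hch
      have h1 : (A ∩ pre g (g - 1) ⁻¹' {w}).ncard ≤ W.ncard := by
        refine Set.ncard_le_ncard_of_injOn P (fun h hh => (hP h hh.1).1) ?_ hW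
        intro h hh h' hh' hPP
        have hw1 : pre g (g - 1) h = w := hh.2
        have hw2 : pre g (g - 1) h' = w := hh'.2
        refine A8_eq hg (hAX hh.1) (hAX hh'.1) (hw1.trans hw2.symm) (hP h hh.1).2.1 (hP h hh.1).2.2 ?_
        rw [hPP]
        exact (hP h' hh'.1).2.2
      have h2 : LN q g h0 ≤ (Weil q g ∩ pre g (g - 1) ⁻¹' {w}).ncard := by
        unfold LN
        refine Set.ncard_le_ncard ?_ ((Weil_finite q g).subset Set.inter_subset_left)
        rintro h ⟨hs, hpre⟩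
        exact ⟨hs.1, hpre.trans h0w'⟩
      have h3 : Lam g ≤ ((Weil q g ∩ pre g (g - 1) ⁻¹' {w}).ncard : ℝ) :=
        h0L.trans (by exact_mod_cast h2)
      calc ((A ∩ pre g (g - 1) ⁻¹' {w}).ncard : ℝ) ≤ (W.ncard : ℝ) := by exact_mod_cast h1
        _ = (W.ncard : ℝ) / Lam g * Lam g := (div_mul_cancel₀ _ hL.ne').symm
        _ ≤ (W.ncard : ℝ) / Lam g * ((Weil q g ∩ pre g (g - 1) ⁻¹' {w}).ncard : ℝ) :=
          mul_le_mul_of_nonneg_left h3 hnn
        _ = _ := (add_zero _).symm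

end TQ
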