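import Pool.Agent.Lib.MP_021685_agTQ.AD
import Pool.Agent.Lib.MP_021685_agTQ.ML
import Pool.Agent.Lib.MP_021685_agTQ.VOL
import Pool.Agent.Lib.MP_021685_agTQ.PF
import Pool.Agent.Lib.MP_021685_agTQ.PL
import Pool.Agent.Lib.MP_021685_agTQ.HB
import Pool.Agent.Lib.MP_021685_agTQ.LB
import Pool.Agent.Lib.MP_021685_agTI.E1
import Pool.Agent.Lib.MP_021685_agTQ.A5
import Pool.Agent.Lib.MP_021685_agTQ.A8
import Pool.Agent.Lib.MP_021685_agTQ.A10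
import Pool.Agent.Lib.MP_021685_agTI.R1

/-! LEAF A11 (medium).  Reducible members.

PROOF.  `h ∈ Weil q g` reducible, `g` large: `h = p r`, `p ∈ Weil q i`, `r ∈ Weil q (g - i)`, `1 ≤ i ≤ g - 1` (see the proof of `TI.red_count`, file `MP_021685_agTI/R1.lean`).  If `i ≤ 9` or `g - i ≤ 9` then `h` is in the set of `low_factor` or on a short line (`short_count`); otherwise `10 ≤ i ≤ g - 10` and these `h` are at most `∑ N_i N_(g-i)` (image of the products; `high_factor`).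
Total `≤ (2 (99/100)^g + K/Lam g) N`, and `(99/100)^g ≤ C'/g²`, `Lam g ≥ g²`. -/

namespace TQ

open Polynomial TI

/-- the union bound -/
private theorem A11_split {q g : ℕ} (hg : 1 ≤ g) :
    ({h | h ∈ Weil q g ∧ ¬ Irreducible h} : Set ℤ[X]).ncard ≤
      ({h | h ∈ Weil q g ∧ (LN q g h : ℝ) < Lam g} : Set ℤ[X]).ncard +
      ({h | h ∈ Weil q g ∧ (∃ i : ℕ, 1 ≤ i ∧ i ≤ 9 ∧ ∃ p ∈ Weil q i, p ∣ h) ∧ Lam g ≤ (LN q g h : ℝ)} :
        Set ℤ[X]).ncard +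
      ∑ i ∈ Finset.Icc 10 (g - 10), (Weil q i).ncard * (Weil q (g - i)).ncard := by
  have hfin : ∀ i : ℕ, ((fun p : ℤ[X] × ℤ[X] => p.1 * p.2) '' (Weil q i ×ˢ Weil q (g - i))).Finite := fun i =>
    ((Weil_finite q i).prod (Weil_finite q (g - i))).image _
  have hsub : ({h | h ∈ Weil q g ∧ ¬ Irreducible h} : Set ℤ[X]) ⊆
      ({h | h ∈ Weil q g ∧ (LN q g h : ℝ) < Lam g} ∪
      {h | h ∈ Weil q g ∧ (∃ i : ℕ, 1 ≤ i ∧ i ≤ 9 ∧ ∃ p ∈ Weil q i, p ∣ h) ∧ Lam g ≤ (LN q g h : ℝ)}) ∪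
      ⋃ i ∈ Finset.Icc 10 (g - 10), (fun p : ℤ[X] × ℤ[X] => p.1 * p.2) '' (Weil q i ×ˢ Weil q (g - i)) := by
    rintro h ⟨hW, hi⟩
    obtain ⟨hm, hd, hr⟩ := id hW
    have h1 : h ≠ 1 := by
      rintro rfl
      rw [natDegree_one] at hd
      omega
    rw [hm.irreducible_iff_natDegree] at hi
    push Not at hi
    obtain ⟨a, b, ha, hb, hab, hda, hdb⟩ := hi h1
    have h2 : a.natDegree + b.natDegree = g := by
      rw [← hd, ← hab, ha.natDegree_mul hb]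
    have h3 : b.natDegree = g - a.natDegree := by omega
    have hWa : a ∈ Weil q a.natDegree := ⟨ha, rfl, fun z hz => hr z (by rw [← hab, map_mul, hz, zero_mul])⟩
    have hWb : b ∈ Weil q b.natDegree := ⟨hb, rfl, fun z hz => hr z (by rw [← hab, map_mul, hz, mul_zero])⟩
    by_cases hsm : ∃ i : ℕ, 1 ≤ i ∧ i ≤ 9 ∧ ∃ p ∈ Weil q i, p ∣ h
    · left
      rcases lt_or_ge (LN q g h : ℝ) (Lam g) with hl | hl
      · exact Or.inl ⟨hW, hl⟩
      · exact Or.inr ⟨hW, hsm, hl⟩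
    · right
      have ha10 : 10 ≤ a.natDegree := by
        by_contra hlt
        exact hsm ⟨a.natDegree, by omega, by omega, a, hWa, ⟨b, hab.symm⟩⟩
      have hb10 : 10 ≤ b.natDegree := by
        by_contra hlt
        exact hsm ⟨b.natDegree, by omega, by omega, b, hWb, ⟨a, by rw [mul_comm]; exact hab.symm⟩⟩
      refine Set.mem_biUnion (x := a.natDegree) (Finset.mem_coe.2 (Finset.mem_Icc.2 ⟨ha10, by omega⟩)) ?_
      exact ⟨(a, b), ⟨hWa, h3 ▸ hWb⟩, hab⟩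
  have hf1 : ({h | h ∈ Weil q g ∧ (LN q g h : ℝ) < Lam g} : Set ℤ[X]).Finite :=
    (Weil_finite q g).subset fun h hh => hh.1
  have hf2 : ({h | h ∈ Weil q g ∧ (∃ i : ℕ, 1 ≤ i ∧ i ≤ 9 ∧ ∃ p ∈ Weil q i, p ∣ h) ∧ Lam g ≤ (LN q g h : ℝ)} :
      Set ℤ[X]).Finite := (Weil_finite q g).subset fun h hh => hh.1
  refine (Set.ncard_le_ncard hsub ((hf1.union hf2).union
    (Set.Finite.biUnion (Finset.finite_toSet _) fun i _ => hfin i))).trans ?_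
  refine (Set.ncard_union_le _ _).trans (Nat.add_le_add (Set.ncard_union_le _ _) ?_)
  refine (Finset.set_ncard_biUnion_le _ _).trans (Finset.sum_le_sum fun i _ => ?_)
  rw [← Set.ncard_prod]
  exact Set.ncard_image_le ((Weil_finite q i).prod (Weil_finite q (g - i)))

/-- `(99/100)^g ≤ 1/g²` for large `g` -/
private theorem A11_num : ∃ g₀ : ℕ, ∀ g : ℕ, g₀ ≤ g → (g : ℝ) ^ 2 * (99 / 100 : ℝ) ^ g ≤ 1 := by
  have h1 := tendsto_pow_const_mul_const_pow_of_abs_lt_one 2 (r := (99 / 100 : ℝ)) (by rw [abs_of_pos] <;> norm_num)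
  have h2 := h1.eventually (gt_mem_nhds (zero_lt_one : (0 : ℝ) < 1))
  obtain ⟨g₀, h3⟩ := Filter.eventually_atTop.1 h2
  exact ⟨g₀, fun g hg => (h3 g hg).le⟩

theorem reducible_count (q : ℕ) (hq : 2 ≤ q) : ∃ C : ℝ, 0 ≤ C ∧ ∃ g₀ : ℕ, 3 ≤ g₀ ∧ ∀ g : ℕ, g₀ ≤ g →
    (({h | h ∈ Weil q g ∧ ¬ Irreducible h} : Set ℤ[X]).ncard : ℝ) ≤
      C / (g : ℝ) ^ 2 * ((Weil q g).ncard : ℝ) := by
  obtain ⟨g1, h1⟩ := short_count q hq
  obtain ⟨K, hK, h2⟩ := low_factor q (by omega)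
  obtain ⟨g3, h3⟩ := high_factor q hq
  obtain ⟨g4, h4⟩ := A11_num
  refine ⟨K + 2, by linarith, max (max g1 3) (max g3 g4), le_trans (le_max_right g1 3) (le_max_left _ _),
    fun g hg => ?_⟩
  have hg1 : g1 ≤ g := ((le_max_left g1 3).trans (le_max_left _ _)).trans hg
  have hg2 : 3 ≤ g := ((le_max_right g1 3).trans (le_max_left _ _)).trans hg
  have hg3 : g3 ≤ g := ((le_max_left g3 g4).trans (le_max_right _ _)).trans hg
  have hg4 : g4 ≤ g := ((le_max_right g3 g4).trans (le_max_right _ _)).trans hg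
  have e1 := h1 g hg1
  have e2 := h2 g hg2
  have e3 := h3 g hg3
  have e4 := h4 g hg4
  have hsp : (({h | h ∈ Weil q g ∧ ¬ Irreducible h} : Set ℤ[X]).ncard : ℝ) ≤
      (({h | h ∈ Weil q g ∧ (LN q g h : ℝ) < Lam g} : Set ℤ[X]).ncard : ℝ) +
      (({h | h ∈ Weil q g ∧ (∃ i : ℕ, 1 ≤ i ∧ i ≤ 9 ∧ ∃ p ∈ Weil q i, p ∣ h) ∧ Lam g ≤ (LN q g h : ℝ)} :
        Set ℤ[X]).ncard : ℝ) +
      ∑ i ∈ Finset.Icc 10 (g - 10), ((Weil q i).ncard : ℝ) * ((Weil q (g - i)).ncard : ℝ) := by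
    exact_mod_cast A11_split (q := q) (g := g) (by omega)
  set N : ℝ := ((Weil q g).ncard : ℝ) with hN
  have hN0 : 0 ≤ N := Nat.cast_nonneg _
  have hg0 : (0 : ℝ) < g := by
    have : 0 < g := by omega
    exact_mod_cast this
  have hgg : (0 : ℝ) < (g : ℝ) ^ 2 := by positivity
  have hpow : (99 / 100 : ℝ) ^ g ≤ 1 / (g : ℝ) ^ 2 := by
    rw [le_div_iff₀ hgg, mul_comm]
    exact e4
  have hLam : (g : ℝ) ^ 2 ≤ Lam g := by
    have h5 : (1 : ℝ) ≤ (1001 / 1000) ^ (4 * g) := one_le_pow₀ (by norm_num)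
    unfold Lam
    nlinarith
  have hKL : K / Lam g ≤ K / (g : ℝ) ^ 2 := div_le_div_of_nonneg_left hK hgg hLam
  have a1 : (99 / 100 : ℝ) ^ g * N ≤ 1 / (g : ℝ) ^ 2 * N := mul_le_mul_of_nonneg_right hpow hN0
  have a2 : K / Lam g * N ≤ K / (g : ℝ) ^ 2 * N := mul_le_mul_of_nonneg_right hKL hN0
  have a3 : (K + 2) / (g : ℝ) ^ 2 * N = 1 / (g : ℝ) ^ 2 * N + K / (g : ℝ) ^ 2 * N + 1 / (g : ℝ) ^ 2 * N := by
    ring
  rw [a3]
  linarith

end TQ
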