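import Pool.Agent.Lib.MP_021685_agTQ.AD
import Pool.Agent.Lib.MP_021685_agTQ.ML
import Pool.Agent.Lib.MP_021685_agTQ.VOL
import Pool.Agent.Lib.MP_021685_agTQ.PF
import Pool.Agent.Lib.MP_021685_agTQ.PL
import Pool.Agent.Lib.MP_021685_agTQ.HB
import Pool.Agent.Lib.MP_021685_agTQ.LB
import Pool.Agent.Lib.MP_021685_agTI.E1
import Pool.Agent.Lib.MP_021685_agTQ.A5
import Pool.Agent.Lib.MP_021685_agTI.L2
import Pool.Agent.Lib.MP_021685_agTI.S0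
import Pool.Agent.Lib.MP_021685_agTI.Fi

/-! LEAF A12 (easy+).  The fiber principle for long lines.

PROOF.  The set is contained in `{reducible} ∪ {short} ∪ B`, `B = {h ∈ Strict q g | Lam g ≤ LN, P h}` (irreducible members are strict: `irreducible_strict`, `3 ≤ g`).  `B`: `sum_fibers` with `X = Weil q g`, `f = pre g (g-1)`, `b = 0`: over `w = pre g (g-1) h₀` with `h₀ ∈ B` (otherwise the fiber of `B` is empty) the elements of `B` are at most `a LN(h₀)` by `hP`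
and `LN(h₀) ≤` the number of the members over `w` (`Strict ⊆ Weil`). -/

namespace TQ

open Polynomial TI

theorem fiber_principle {q g : ℕ} (hq : 1 ≤ q) (hg : 3 ≤ g) (P : ℤ[X] → Prop) {a : ℝ} (ha : 0 ≤ a)
    (hP : ∀ h₀ ∈ Weil q g, Lam g ≤ (LN q g h₀ : ℝ) → P h₀ →
      (({h | h ∈ Strict q g ∧ pre g (g - 1) h = pre g (g - 1) h₀ ∧ P h} : Set ℤ[X]).ncard : ℝ) ≤
        a * (LN q g h₀ : ℝ)) :
    (({h | h ∈ Weil q g ∧ P h} : Set ℤ[X]).ncard : ℝ) ≤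
      (({h | h ∈ Weil q g ∧ ¬ Irreducible h} : Set ℤ[X]).ncard : ℝ) +
        (({h | h ∈ Weil q g ∧ (LN q g h : ℝ) < Lam g} : Set ℤ[X]).ncard : ℝ) +
          a * ((Weil q g).ncard : ℝ) := by
  have _ := hq
  have hfin := Weil_finite q g
  have hsub : ({h | h ∈ Weil q g ∧ P h} : Set ℤ[X]) ⊆
      ({h | h ∈ Weil q g ∧ ¬ Irreducible h} ∪ {h | h ∈ Weil q g ∧ (LN q g h : ℝ) < Lam g}) ∪
        {h | h ∈ Strict q g ∧ Lam g ≤ (LN q g h : ℝ) ∧ P h} := by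
    rintro f ⟨hf, hP⟩
    by_cases hi : Irreducible f
    · by_cases hl : (LN q g f : ℝ) < Lam g
      · exact Or.inl (Or.inr ⟨hf, hl⟩)
      · exact Or.inr ⟨irreducible_strict hg hf hi, not_lt.mp hl, hP⟩
    · exact Or.inl (Or.inl ⟨hf, hi⟩)
  have hf1 : ({h | h ∈ Weil q g ∧ ¬ Irreducible h} : Set ℤ[X]).Finite := hfin.subset fun f hf => hf.1
  have hf2 : ({h | h ∈ Weil q g ∧ (LN q g h : ℝ) < Lam g} : Set ℤ[X]).Finite := hfin.subset fun f hf => hf.1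
  have hf3 : ({h | h ∈ Strict q g ∧ Lam g ≤ (LN q g h : ℝ) ∧ P h} : Set ℤ[X]).Finite :=
    hfin.subset fun f hf => hf.1.1
  have h1 : ({h | h ∈ Weil q g ∧ P h} : Set ℤ[X]).ncard ≤
      ({h | h ∈ Weil q g ∧ ¬ Irreducible h} : Set ℤ[X]).ncard +
        ({h | h ∈ Weil q g ∧ (LN q g h : ℝ) < Lam g} : Set ℤ[X]).ncard +
          ({h | h ∈ Strict q g ∧ Lam g ≤ (LN q g h : ℝ) ∧ P h} : Set ℤ[X]).ncard :=
    (Set.ncard_le_ncard hsub ((hf1.union hf2).union hf3)).trans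
      ((Set.ncard_union_le _ _).trans (Nat.add_le_add (Set.ncard_union_le _ _) le_rfl))
  have h1' : (({h | h ∈ Weil q g ∧ P h} : Set ℤ[X]).ncard : ℝ) ≤
      (({h | h ∈ Weil q g ∧ ¬ Irreducible h} : Set ℤ[X]).ncard : ℝ) +
        (({h | h ∈ Weil q g ∧ (LN q g h : ℝ) < Lam g} : Set ℤ[X]).ncard : ℝ) +
          (({h | h ∈ Strict q g ∧ Lam g ≤ (LN q g h : ℝ) ∧ P h} : Set ℤ[X]).ncard : ℝ) := by exact_mod_cast h1
  refine h1'.trans (add_le_add le_rfl ?_)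
  have h2 := sum_fibers (X := Weil q g) (A := {h | h ∈ Strict q g ∧ Lam g ≤ (LN q g h : ℝ) ∧ P h}) hfin
    (fun f hf => hf.1.1) (pre g (g - 1)) (a := a) (b := 0) ?_
  · rw [zero_mul, add_zero] at h2
    exact h2
  · intro w _
    rw [add_zero]
    rcases Set.eq_empty_or_nonempty (({h | h ∈ Strict q g ∧ Lam g ≤ (LN q g h : ℝ) ∧ P h} : Set ℤ[X]) ∩
      pre g (g - 1) ⁻¹' {w}) with he | ⟨h₀, ⟨hs₀, hl₀, hP₀⟩, hw₀⟩
    · rw [he, Set.ncard_empty, Nat.cast_zero]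
      exact mul_nonneg ha (Nat.cast_nonneg _)
    · have hw : pre g (g - 1) h₀ = w := hw₀
      subst hw
      have h3 : ({h | h ∈ Strict q g ∧ Lam g ≤ (LN q g h : ℝ) ∧ P h} : Set ℤ[X]) ∩
          pre g (g - 1) ⁻¹' {pre g (g - 1) h₀} ⊆
            {h | h ∈ Strict q g ∧ pre g (g - 1) h = pre g (g - 1) h₀ ∧ P h} := by
        rintro f ⟨⟨hs, _, hP'⟩, he⟩
        exact ⟨hs, he, hP'⟩
      have h4 : ((({h | h ∈ Strict q g ∧ Lam g ≤ (LN q g h : ℝ) ∧ P h} : Set ℤ[X]) ∩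
          pre g (g - 1) ⁻¹' {pre g (g - 1) h₀}).ncard : ℝ) ≤
            (({h | h ∈ Strict q g ∧ pre g (g - 1) h = pre g (g - 1) h₀ ∧ P h} : Set ℤ[X]).ncard : ℝ) := by
        exact_mod_cast Set.ncard_le_ncard h3 (hfin.subset fun f hf => hf.1.1)
      refine (h4.trans (hP h₀ hs₀.1 hl₀ hP₀)).trans (mul_le_mul_of_nonneg_left ?_ ha)
      have h5 : LN q g h₀ ≤ (Weil q g ∩ pre g (g - 1) ⁻¹' {pre g (g - 1) h₀}).ncard := by
        refine Set.ncard_le_ncard ?_ (hfin.subset Set.inter_subset_left)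
        rintro f ⟨hs, he⟩
        exact ⟨hs.1, he⟩
      exact_mod_cast h5

end TQ
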