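import Pool.Agent.Lib.MP_021685_agTQ.AD
import Pool.Agent.Lib.MP_021685_agTQ.ML
import Pool.Agent.Lib.MP_021685_agTQ.VOL
import Pool.Agent.Lib.MP_021685_agTQ.PF
import Pool.Agent.Lib.MP_021685_agTQ.PL
import Pool.Agent.Lib.MP_021685_agTQ.HB
import Pool.Agent.Lib.MP_021685_agTQ.LB
import Pool.Agent.Lib.MP_021685_agTI.E1
import Pool.Agent.Lib.MP_021685_agTI.E2

/-! LEAF A6 (medium).  Bad lines of one plane.  This is the local form of `TI.bad_lines` (file `MP_021685_agTI/E2.lean`, proved there for all planes at once; copy the proof: it estimates the lines over each value of `pre g (g - 2)` by `2 g`). -/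

namespace TQ

open Polynomial TI

private theorem A6_sep {P : ℝ[X]} (m : ℝ) {g : ℕ} (hg : 2 ≤ g) (hd : P.natDegree = g) :
    ∃ T : Finset ℂ, T.card ≤ g - 1 ∧ ∀ a : ℝ, (a : ℂ) ∉ T →
      ((X - C m) * (P /ₘ (X - C m) + C a)).Separable := by
  classical
  set W : ℝ[X] := P /ₘ (X - C m) with hW
  have hWd : W.natDegree = g - 1 := by
    rw [hW, natDegree_divByMonic P (monic_X_sub_C m), natDegree_X_sub_C, hd]
  have hW0 : derivative W ≠ 0 := by
    intro h0
    have h1 := Polynomial.derivative_eq_zero.1 h0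
    omega
  have hcard : ((derivative W).aroots ℂ).card ≤ g - 2 := by
    have h1 : ((derivative W).aroots ℂ).card ≤ ((derivative W).map (algebraMap ℝ ℂ)).natDegree :=
      card_roots' _
    rw [natDegree_map] at h1
    have h2 := natDegree_derivative_le W
    omega
  refine ⟨insert ((-(W.eval m) : ℝ) : ℂ) ((((derivative W).aroots ℂ).toFinset).image
    fun y => -(aeval y W)), ?_, ?_⟩
  · refine (Finset.card_insert_le _ _).trans ?_
    have h1 := Finset.card_image_le (s := (((derivative W).aroots ℂ).toFinset))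
      (f := fun y => -(aeval y W))
    have h2 := Multiset.toFinset_card_le ((derivative W).aroots ℂ)
    omega
  · intro a ha
    rw [Finset.mem_insert, not_or] at ha
    obtain ⟨h1, h2⟩ := ha
    have h1' : (W + C a).eval m ≠ 0 := by
      intro h3
      apply h1
      rw [eval_add, eval_C] at h3
      have h4 : a = -(W.eval m) := by linarith
      rw [h4]
    refine Separable.mul separable_X_sub_C ?_ ?_
    · rw [separable_def]
      refine (Polynomial.isCoprime_iff_aeval_ne_zero_of_isAlgClosed (k := ℝ) ℂ _ _).2 ?_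
      intro y
      by_contra hcon
      push Not at hcon
      obtain ⟨h5, h6⟩ := hcon
      rw [derivative_add, derivative_C, add_zero] at h6
      apply h2
      rw [Finset.mem_image]
      refine ⟨y, ?_, ?_⟩
      · rw [Multiset.mem_toFinset, mem_aroots]
        exact ⟨hW0, h6⟩
      · rw [map_add, aeval_C] at h5
        have h7 : (a : ℂ) = algebraMap ℝ ℂ a := rfl
        rw [h7]
        linear_combination -h5
    · rw [(irreducible_X_sub_C m).coprime_iff_not_dvd, dvd_iff_isRoot]
      exact h1'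

private theorem A6_shape {q g : ℕ} (hg : 2 ≤ g) {H h : ℤ[X]} (hH : H ∈ Weil q g) (hh : h ∈ Weil q g)
    (hv : pre g (g - 2) h = pre g (g - 2) H) :
    h = H + C (h.coeff 1 - H.coeff 1) * X + C (h.coeff 0 - H.coeff 0) := by
  ext i
  rw [coeff_add, coeff_add, coeff_C_mul, coeff_X, coeff_C]
  rcases Nat.lt_or_ge g i with hi | hi
  · have h1 : h.coeff i = 0 := coeff_eq_zero_of_natDegree_lt (by rw [hh.2.1]; exact hi)
    have h2 : H.coeff i = 0 := coeff_eq_zero_of_natDegree_lt (by rw [hH.2.1]; exact hi)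
    rw [h1, h2, if_neg (by omega), if_neg (by omega)]
    ring
  · rcases Nat.lt_or_ge i g with hi2 | hi2
    · rcases Nat.lt_or_ge i 2 with hi3 | hi3
      · interval_cases i
        · simp
        · simp
      · have h1 := congrFun hv ⟨g - 1 - i, by omega⟩
        unfold pre at h1
        have h2 : g - 1 - (g - 1 - i) = i := by omega
        simp only [h2] at h1
        rw [h1, if_neg (by omega), if_neg (by omega)]
        ring
    · have h3 : i = g := by omega
      have h1 : h.coeff i = 1 := by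
        rw [h3, ← hh.2.1]
        exact hh.1
      have h2 : H.coeff i = 1 := by
        rw [h3, ← hH.2.1]
        exact hH.1
      rw [h1, h2, if_neg (by omega), if_neg (by omega)]
      ring

private theorem A6_evB {q g : ℕ} (hg : 2 ≤ g) {H h : ℤ[X]} (hH : H ∈ Weil q g) (hh : h ∈ Weil q g)
    (hv : pre g (g - 2) h = pre g (g - 2) H) :
    evB q h = evB q H + (h.coeff 1 - H.coeff 1) := by
  have hs := A6_shape hg hH hh hv
  unfold evB
  rw [hh.2.1, hH.2.1]
  have h1 : ∀ i ∈ Finset.range (g + 1),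
      (if Even i then 0 else h.coeff i * (4 * (q : ℤ)) ^ (i / 2)) =
      (if Even i then 0 else H.coeff i * (4 * (q : ℤ)) ^ (i / 2)) +
        (if i = 1 then (h.coeff 1 - H.coeff 1) else 0) := by
    intro i _
    by_cases hi : Even i
    · have h2 : i ≠ 1 := by
        rintro rfl
        exact absurd hi (by decide)
      rw [if_pos hi, if_pos hi, if_neg h2, add_zero]
    · rw [if_neg hi, if_neg hi]
      by_cases h2 : i = 1
      · subst h2
        simp
      · have h3 : i ≠ 0 := by
          rintro rfl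
          exact hi (by decide)
        have h4 : h.coeff i = H.coeff i := by
          rw [hs, coeff_add, coeff_add, coeff_C_mul, coeff_X, coeff_C, if_neg (by omega), if_neg h3]
          ring
        rw [h4, if_neg h2, add_zero]
  rw [Finset.sum_congr rfl h1, Finset.sum_add_distrib, Finset.sum_ite_eq', if_pos]
  rw [Finset.mem_range]
  omega

private theorem A6_prod {q g : ℕ} (hg : 2 ≤ g) {H h : ℤ[X]} (hH : H ∈ Weil q g) (hh : h ∈ Weil q g)
    (hv : pre g (g - 2) h = pre g (g - 2) H) (m : ℝ) :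
    h.map (Int.castRingHom ℝ) - C ((h.map (Int.castRingHom ℝ)).eval m) =
      (X - C m) * ((H.map (Int.castRingHom ℝ)) /ₘ (X - C m) +
        C (((h.coeff 1 - H.coeff 1 : ℤ)) : ℝ)) := by
  have hs := A6_shape hg hH hh hv
  rw [mul_add, X_sub_C_mul_divByMonic_eq_sub_modByMonic, modByMonic_X_sub_C_eq_C_eval]
  generalize h.coeff 1 - H.coeff 1 = a at hs ⊢
  generalize h.coeff 0 - H.coeff 0 = c at hs
  have h1 : h.map (Int.castRingHom ℝ) = H.map (Int.castRingHom ℝ) + C (a : ℝ) * X + C (c : ℝ) := by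
    rw [hs, Polynomial.map_add, Polynomial.map_add, Polynomial.map_mul, Polynomial.map_C,
      Polynomial.map_C, Polynomial.map_X, eq_intCast, eq_intCast]
  rw [h1, eval_add, eval_add, eval_mul, eval_C, eval_X, eval_C, C_add, C_add, C_mul]
  ring

theorem bad_plane {q g : ℕ} (hq : 1 ≤ q) (hg : 2 ≤ g) {h₀ : ℤ[X]} (h0 : h₀ ∈ Weil q g) :
    (pre g (g - 1) '' {h | h ∈ Weil q g ∧ pre g (g - 2) h = pre g (g - 2) h₀ ∧ ¬ OKline q h}).ncard ≤
      2 * g := by
  classical
  have hf1 : (pre g (g - 1) '' {h | h ∈ Weil q g ∧ pre g (g - 2) h = pre g (g - 2) h₀ ∧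
      ¬ OKline q h}).Finite :=
    ((Weil_finite q g).subset fun h hh => hh.1).image _
  rw [Set.ncard_eq_toFinset_card _ hf1]
  have hdeg : (h₀.map (Int.castRingHom ℝ)).natDegree = g := by
    rw [h0.1.natDegree_map, h0.2.1]
  obtain ⟨T1, hT1, hT1'⟩ := A6_sep (2 * Real.sqrt q) hg hdeg
  obtain ⟨T2, hT2, hT2'⟩ := A6_sep (-(2 * Real.sqrt q)) hg hdeg
  have hcard : (insert ((-(evB q h₀) : ℤ) : ℂ) (T1 ∪ T2)).card ≤ 2 * g := by
    have h1 := Finset.card_insert_le ((-(evB q h₀) : ℤ) : ℂ) (T1 ∪ T2)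
    have h2 := Finset.card_union_le T1 T2
    omega
  refine le_trans (Finset.card_le_card_of_injOn
    (fun x : Fin (g - 1) → ℤ => ((x ⟨g - 2, by omega⟩ - h₀.coeff 1 : ℤ) : ℂ)) ?_ ?_) hcard
  · intro x hx
    rw [Finset.mem_coe, Set.Finite.mem_toFinset] at hx
    obtain ⟨h, ⟨hW, hvh, hbad⟩, rfl⟩ := hx
    have hco : pre g (g - 1) h ⟨g - 2, by omega⟩ = h.coeff 1 := by
      unfold pre
      have : g - 1 - (g - 2) = 1 := by omega
      simp only [this]
    simp only [hco]
    by_contra hcon
    rw [Finset.mem_coe, Finset.mem_insert, Finset.mem_union, not_or, not_or] at hcon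
    obtain ⟨c1, c2, c3⟩ := hcon
    apply hbad
    refine ⟨?_, ?_, ?_⟩
    · intro h1
      apply c1
      rw [A6_evB hg h0 hW hvh] at h1
      have h2 : h.coeff 1 - h₀.coeff 1 = -(evB q h₀) := by linarith
      rw [h2]
    · unfold SepAt
      rw [A6_prod hg h0 hW hvh]
      apply hT1'
      rw [Complex.ofReal_intCast]
      exact c2
    · unfold SepAt
      rw [A6_prod hg h0 hW hvh]
      apply hT2'
      rw [Complex.ofReal_intCast]
      exact c3
  · intro x hx y hy hxy
    rw [Finset.mem_coe, Set.Finite.mem_toFinset] at hx hy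
    have h1 : x ⟨g - 2, by omega⟩ = y ⟨g - 2, by omega⟩ := by
      have h2 : (x ⟨g - 2, by omega⟩ - h₀.coeff 1 : ℤ) = y ⟨g - 2, by omega⟩ - h₀.coeff 1 := by
        have h3 : ((x ⟨g - 2, by omega⟩ - h₀.coeff 1 : ℤ) : ℂ) =
          ((y ⟨g - 2, by omega⟩ - h₀.coeff 1 : ℤ) : ℂ) := hxy
        exact_mod_cast h3
      linarith
    obtain ⟨h, ⟨-, hv, -⟩, rfl⟩ := hx
    obtain ⟨h', ⟨-, hv', -⟩, rfl⟩ := hy
    funext i
    rcases Nat.lt_or_ge (i : ℕ) (g - 2) with hi | hi
    · have h3 := congrFun (hv.trans hv'.symm) ⟨(i : ℕ), hi⟩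
      exact h3
    · have h5 : i = ⟨g - 2, by omega⟩ := by
        apply Fin.ext
        have := i.2
        simp only
        omega
      rw [h5]
      exact h1

end TQ
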