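import Pool.Agent.Lib.MP_021685_agTQ.AD
import Pool.Agent.Lib.MP_021685_agTQ.ML
import Pool.Agent.Lib.MP_021685_agTQ.VOL
import Pool.Agent.Lib.MP_021685_agTQ.PF
import Pool.Agent.Lib.MP_021685_agTQ.PL
import Pool.Agent.Lib.MP_021685_agTQ.HB
import Pool.Agent.Lib.MP_021685_agTQ.LB
import Pool.Agent.Lib.MP_021685_agTI.E1
import Pool.Agent.Lib.MP_021685_agTQ.A6
import Pool.Agent.Lib.MP_021685_agTI.S0

/-! LEAF A7 (medium).  Members on long bad lines.

PROOF.  `g ≥ 3`, `Λ = Lam g ≥ 9`, `s = √q`.  `sum_fibers` with `X = Weil q g`, `f = pre g (g - 2)`, `b = 0`, `a = 256 g s/Λ`.  In the plane of `h₀`, `T` = number of its members: if the set of its long bad members is empty, trivial.  The members of one long bad line are at most `LN + 2 ≤ 2 LN` (`line_le`; `LN` depends only on `pre g (g-1)`),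
`LN² ≤ 64 s T` (`fat_plane`, for a member `h` of the line; the plane is the same), and there are at most `2g` bad lines (`bad_plane`): in total at most `2g * 2 * 8 √(s T) = 32 g √s √T`.  If there is a long line then `Λ² ≤ LN² ≤ 64 s T`, so `1 ≤ 8 √s √T/Λ`, and `32 g √s √T ≤ 32 g √s √T * 8 √s √T/Λ = 256 g s T/Λ`.
(`pre g (g-1) h = pre g (g-1) h'` implies `pre g (g-2) h = pre g (g-2) h'`.) -/

namespace TQ

open Polynomial TI

private theorem A7_Lam {g : ℕ} (hg : 3 ≤ g) : 9 ≤ Lam g := by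
  unfold Lam
  have h1 : (1 : ℝ) ≤ (1001 / 1000 : ℝ) ^ (4 * g) := one_le_pow₀ (by norm_num)
  have h2 : (3 : ℝ) ≤ g := by exact_mod_cast hg
  have h3 : (9 : ℝ) ≤ (g : ℝ) ^ 2 := by nlinarith
  nlinarith

theorem bad_count {q g : ℕ} (hq : 1 ≤ q) (hg : 3 ≤ g) :
    (({h | h ∈ Weil q g ∧ ¬ OKline q h ∧ Lam g ≤ (LN q g h : ℝ)} : Set ℤ[X]).ncard : ℝ) ≤
      256 * g * Real.sqrt q / Lam g * ((Weil q g).ncard : ℝ) := by
  have hΛ := A7_Lam hg
  have hΛ0 : 0 < Lam g := by linarith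
  have hs0 : 0 ≤ Real.sqrt q := Real.sqrt_nonneg _
  have hX := Weil_finite q g
  have hAX : ({h | h ∈ Weil q g ∧ ¬ OKline q h ∧ Lam g ≤ (LN q g h : ℝ)} : Set ℤ[X]) ⊆ Weil q g :=
    fun h hh => hh.1
  have ha0 : 0 ≤ 256 * g * Real.sqrt q / Lam g := by positivity
  have key := sum_fibers hX hAX (pre g (g - 2)) (a := 256 * g * Real.sqrt q / Lam g) (b := 0) ?_
  · simpa using key
  rintro _ ⟨h₀, h0, rfl⟩
  rw [add_zero]
  set B : Set ℤ[X] := {h | h ∈ Weil q g ∧ ¬ OKline q h ∧ Lam g ≤ (LN q g h : ℝ)} ∩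
    pre g (g - 2) ⁻¹' {pre g (g - 2) h₀} with hB
  have hXX : Weil q g ∩ pre g (g - 2) ⁻¹' {pre g (g - 2) h₀} =
      {h | h ∈ Weil q g ∧ pre g (g - 2) h = pre g (g - 2) h₀} := by
    ext h
    rfl
  rw [hXX]
  set T : ℝ := (({h | h ∈ Weil q g ∧ pre g (g - 2) h = pre g (g - 2) h₀} : Set ℤ[X]).ncard : ℝ) with hT
  have hT0 : 0 ≤ T := Nat.cast_nonneg _
  have hBfin : B.Finite := hX.subset fun h hh => hh.1.1
  rcases B.eq_empty_or_nonempty with he | ⟨h₁, h1⟩
  · rw [he, Set.ncard_empty, Nat.cast_zero]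
    positivity
  have hst0 : 0 ≤ Real.sqrt q * T := by positivity
  -- the length of the lines
  have hLN : ∀ h ∈ B, (LN q g h : ℝ) ≤ 8 * Real.sqrt (Real.sqrt q * T) := by
    intro h hh
    have h2 := fat_plane hq hg hh.1.1
    have h3 : pre g (g - 2) h = pre g (g - 2) h₀ := hh.2
    rw [h3] at h2
    have h4 : (LN q g h : ℝ) ^ 2 ≤ (8 * Real.sqrt (Real.sqrt q * T)) ^ 2 := by
      rw [mul_pow, Real.sq_sqrt hst0]
      calc (LN q g h : ℝ) ^ 2 ≤ 64 * Real.sqrt q * T := h2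
        _ = 8 ^ 2 * (Real.sqrt q * T) := by ring
    exact le_of_sq_le_sq h4 (by positivity)
  have hline : (B.ncard : ℝ) ≤ 16 * Real.sqrt (Real.sqrt q * T) * (2 * g) := by
    have h2 := sum_fibers hBfin le_rfl (pre g (g - 1)) (a := 0)
      (b := 16 * Real.sqrt (Real.sqrt q * T)) ?_
    · rw [zero_mul, zero_add] at h2
      refine h2.trans (mul_le_mul_of_nonneg_left ?_ (by positivity))
      have h3 := bad_plane hq (by omega) h0 (g := g)
      have h4 : (pre g (g - 1) '' B).ncard ≤ 2 * g := by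
        refine (Set.ncard_le_ncard (Set.image_mono ?_) ?_).trans h3
        · intro h hh
          exact ⟨hh.1.1, hh.2, hh.1.2.1⟩
        · exact (hX.subset fun h hh => hh.1).image _
      exact_mod_cast h4
    · rintro _ ⟨h, hh, rfl⟩
      rw [zero_mul, zero_add]
      have h3 : (B ∩ pre g (g - 1) ⁻¹' {pre g (g - 1) h}).ncard ≤ LN q g h + 2 := by
        refine (Set.ncard_le_ncard ?_ ?_).trans (line_le hq hg hh.1.1)
        · intro h' hh'
          exact ⟨hh'.1.1.1, hh'.2⟩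
        · exact hX.subset fun h hh => hh.1
      have h4 : ((B ∩ pre g (g - 1) ⁻¹' {pre g (g - 1) h}).ncard : ℝ) ≤ (LN q g h : ℝ) + 2 := by
        exact_mod_cast h3
      have h5 := hLN h hh
      have h6 : Lam g ≤ (LN q g h : ℝ) := hh.1.2.2
      linarith
  have h5 : Lam g ≤ 8 * Real.sqrt (Real.sqrt q * T) := h1.1.2.2.trans (hLN h₁ h1)
  refine hline.trans ?_
  have h6 : Real.sqrt (Real.sqrt q * T) * Real.sqrt (Real.sqrt q * T) = Real.sqrt q * T :=
    Real.mul_self_sqrt hst0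
  have h7 : 256 * g * Real.sqrt q / Lam g * T =
      32 * g * Real.sqrt (Real.sqrt q * T) * (8 * Real.sqrt (Real.sqrt q * T)) / Lam g := by
    calc 256 * g * Real.sqrt q / Lam g * T = 256 * g * (Real.sqrt q * T) / Lam g := by ring
      _ = 256 * g * (Real.sqrt (Real.sqrt q * T) * Real.sqrt (Real.sqrt q * T)) / Lam g := by rw [h6]
      _ = _ := by ring
  rw [h7, le_div_iff₀ hΛ0]
  have h8 : 16 * Real.sqrt (Real.sqrt q * T) * (2 * g) = 32 * g * Real.sqrt (Real.sqrt q * T) := by ring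
  rw [h8]
  exact mul_le_mul_of_nonneg_left h5 (by positivity)

end TQ
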