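import Pool.Agent.Lib.MP_021685_agTQ.AD
import Pool.Agent.Lib.MP_021685_agTQ.ML
import Pool.Agent.Lib.MP_021685_agTQ.VOL
import Pool.Agent.Lib.MP_021685_agTQ.PF
import Pool.Agent.Lib.MP_021685_agTQ.PL
import Pool.Agent.Lib.MP_021685_agTQ.HB
import Pool.Agent.Lib.MP_021685_agTQ.LB
import Pool.Agent.Lib.MP_021685_agTI.E1
import Pool.Agent.Lib.MP_021685_agTQ.A5
import Pool.Agent.Lib.MP_021685_agTQ.A11
import Pool.Agent.Lib.MP_021685_agTQ.A12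
import Pool.Agent.Lib.MP_021685_agTI.L4

/-! LEAF A14 (medium).  Divisibility by one prime of the sieve, and ordinary members.  (Compare `MP_021685_agTJ/JG2.lean`, `q ≥ 25`.)

PROOF.  (`mod_count`) `ℓ ∈ PgJ q g`: prime, `ℓ > g³ ≥ g`.  `fiber_principle` with `P h` = the condition, `a = C/g`: `line_mod`: at most `(g+1)(LN/ℓ + 1) ≤ (g+1)(1/g³ + 1/Lam g) LN ≤ (4/g) LN` on a long line.  `reducible_count`, `short_count`.
(`ord_count`) `P h = (p ∣ h.coeff 0)`: `line_ord`: at most `LN/2 + 1 ≤ (1/2 + 1/Lam g) LN`; so the members with `p ∣ h(0)` are at most `(1/2 + 1/g² + C/g² + (99/100)^g) N ≤ (2/3) N` for large `g`, the others at least `N/3`. -/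

namespace TQ

open Polynomial TI TJ

private theorem A14_pow : ∃ C : ℝ, 0 ≤ C ∧ ∀ g : ℕ, 1 ≤ g → ((99 : ℝ) / 100) ^ g ≤ C / (g : ℝ) ^ 2 := by
  have h : Filter.Tendsto (fun n : ℕ => (n : ℝ) ^ 2 * ((99 : ℝ) / 100) ^ n) Filter.atTop (nhds 0) :=
    tendsto_pow_const_mul_const_pow_of_abs_lt_one 2 (by rw [abs_of_pos] <;> norm_num)
  obtain ⟨C, hC⟩ := h.bddAbove_range
  refine ⟨C, ?_, fun g hg => ?_⟩
  · have := hC ⟨0, rfl⟩
    norm_num at this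
    exact this
  · have hg0 : (0 : ℝ) < g := by exact_mod_cast hg
    rw [le_div_iff₀ (by positivity), mul_comm]
    exact hC ⟨g, rfl⟩

private theorem A14_lam (g : ℕ) : (g : ℝ) ^ 2 ≤ Lam g := by
  unfold Lam
  exact le_mul_of_one_le_right (by positivity) (one_le_pow₀ (by norm_num))

private theorem A14_num {g : ℕ} (hg : 1 ≤ g) {ℓ L : ℝ} (hℓ : (g : ℝ) ^ 3 ≤ ℓ) (hL : (g : ℝ) ^ 2 ≤ L) :
    ((g : ℝ) + 1) * (L / ℓ + 1) ≤ 4 / g * L := by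
  have hg0 : (0 : ℝ) < g := by exact_mod_cast hg
  have hg1 : (1 : ℝ) ≤ g := by exact_mod_cast hg
  have hℓ0 : (0 : ℝ) < ℓ := lt_of_lt_of_le (pow_pos hg0 3) hℓ
  have hL0 : (0 : ℝ) ≤ L := le_trans (by positivity) hL
  have ha : ((g : ℝ) + 1) / ℓ ≤ 2 / g := by
    rw [div_le_div_iff₀ hℓ0 hg0]
    nlinarith [mul_nonneg hg0.le (sub_nonneg.2 hg1), pow_pos hg0 2, pow_pos hg0 3]
  have h1 : ((g : ℝ) + 1) * (L / ℓ) ≤ 2 / g * L := by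
    calc ((g : ℝ) + 1) * (L / ℓ) = ((g : ℝ) + 1) / ℓ * L := by ring
      _ ≤ 2 / g * L := mul_le_mul_of_nonneg_right ha hL0
  have h2 : ((g : ℝ) + 1) ≤ 2 / g * L := by
    rw [div_mul_eq_mul_div, le_div_iff₀ hg0]
    nlinarith [mul_nonneg hg0.le (sub_nonneg.2 hg1)]
  calc ((g : ℝ) + 1) * (L / ℓ + 1) = ((g : ℝ) + 1) * (L / ℓ) + ((g : ℝ) + 1) := by ring
    _ ≤ 2 / g * L + 2 / g * L := add_le_add h1 h2
    _ = 4 / g * L := by ring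

theorem mod_count (q : ℕ) (hq : 2 ≤ q) : ∃ C : ℝ, 0 ≤ C ∧ ∃ g₀ : ℕ, 3 ≤ g₀ ∧ ∀ g : ℕ, g₀ ≤ g →
    ∀ ℓ ∈ PgJ q g,
    (({h | h ∈ Weil q g ∧ ((ℓ : ℤ) ∣ resq q h ∨
      ¬ (h.map (Int.castRingHom (ZMod ℓ))).Separable)} : Set ℤ[X]).ncard : ℝ) ≤
      C / g * ((Weil q g).ncard : ℝ) := by
  obtain ⟨C₃, hC₃, g₃, hg₃, h₃⟩ := reducible_count q hq
  obtain ⟨g₄, h₄⟩ := short_count q hq
  obtain ⟨C', hC', h'⟩ := A14_pow
  refine ⟨C₃ + C' + 4, by positivity, max g₃ g₄, hg₃.trans (le_max_left _ _), fun g hg ℓ hℓ => ?_⟩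
  have hgr : g₃ ≤ g := (le_max_left _ _).trans hg
  have hgs : g₄ ≤ g := (le_max_right _ _).trans hg
  have hg3 : 3 ≤ g := hg₃.trans hgr
  have hg0 : (0 : ℝ) < g := by exact_mod_cast (by omega : 0 < g)
  have hg1 : (1 : ℝ) ≤ g := by exact_mod_cast (by omega : 1 ≤ g)
  unfold PgJ at hℓ
  simp only [Finset.mem_filter] at hℓ
  obtain ⟨_, hp, hgl, _⟩ := hℓ
  have hgl' : (g : ℝ) ^ 3 ≤ ℓ := by exact_mod_cast hgl.le
  have hgl2 : g < ℓ := lt_of_le_of_lt (Nat.le_self_pow (by norm_num) g) hgl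
  have hset := fiber_principle (q := q) (g := g) (by omega) hg3
    (fun h => (ℓ : ℤ) ∣ resq q h ∨ ¬ (h.map (Int.castRingHom (ZMod ℓ))).Separable)
    (a := 4 / (g : ℝ)) (by positivity) (fun h₀ hh₀ hlam _ => by
      refine (line_mod (by omega) hh₀ hp hgl2).trans ?_
      exact A14_num (by omega) hgl' ((A14_lam g).trans hlam))
  have hN : (0 : ℝ) ≤ ((Weil q g).ncard : ℝ) := Nat.cast_nonneg _
  have hr := h₃ g hgr
  have hs := h₄ g hgs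
  have hdiv : ∀ D : ℝ, 0 ≤ D → D / (g : ℝ) ^ 2 ≤ D / g := by
    intro D hD
    rw [div_le_div_iff₀ (by positivity) hg0]
    nlinarith [mul_nonneg hD (mul_nonneg hg0.le (sub_nonneg.2 hg1))]
  have t1 : C₃ / (g : ℝ) ^ 2 * ((Weil q g).ncard : ℝ) ≤ C₃ / g * ((Weil q g).ncard : ℝ) :=
    mul_le_mul_of_nonneg_right (hdiv C₃ hC₃) hN
  have t2 : ((99 : ℝ) / 100) ^ g * ((Weil q g).ncard : ℝ) ≤ C' / g * ((Weil q g).ncard : ℝ) :=
    mul_le_mul_of_nonneg_right ((h' g (by omega)).trans (hdiv C' hC')) hN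
  calc _ ≤ C₃ / g * ((Weil q g).ncard : ℝ) + C' / g * ((Weil q g).ncard : ℝ) +
        4 / g * ((Weil q g).ncard : ℝ) :=
        hset.trans (add_le_add (add_le_add (hr.trans t1) (hs.trans t2)) le_rfl)
    _ = (C₃ + C' + 4) / g * ((Weil q g).ncard : ℝ) := by ring

theorem ord_count (q : ℕ) (hq : 2 ≤ q) (p : ℕ) (hp : 2 ≤ p) : ∃ g₀ : ℕ, 3 ≤ g₀ ∧ ∀ g : ℕ, g₀ ≤ g →
    (Weil q g).ncard ≤ 3 * ({h | h ∈ Weil q g ∧ ¬ (p : ℤ) ∣ h.coeff 0} : Set ℤ[X]).ncard := by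
  obtain ⟨C₃, hC₃, g₃, hg₃, h₃⟩ := reducible_count q hq
  obtain ⟨g₄, h₄⟩ := short_count q hq
  obtain ⟨C', hC', h'⟩ := A14_pow
  have hK : 0 ≤ C₃ + C' + 1 := by positivity
  refine ⟨max (max g₃ g₄) (⌈6 * (C₃ + C' + 1)⌉₊ + 1),
    (hg₃.trans (le_max_left _ _)).trans (le_max_left _ _), fun g hg => ?_⟩
  have hgm : max g₃ g₄ ≤ g := (le_max_left _ _).trans hg
  have hgK : ⌈6 * (C₃ + C' + 1)⌉₊ + 1 ≤ g := (le_max_right _ _).trans hg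
  have hgr : g₃ ≤ g := (le_max_left _ _).trans hgm
  have hgs : g₄ ≤ g := (le_max_right _ _).trans hgm
  have hg3 : 3 ≤ g := hg₃.trans hgr
  have hg0 : (0 : ℝ) < g := by exact_mod_cast (by omega : 0 < g)
  have hg1 : (1 : ℝ) ≤ g := by exact_mod_cast (by omega : 1 ≤ g)
  have hgK' : 6 * (C₃ + C' + 1) ≤ g := by
    refine (Nat.le_ceil _).trans ?_
    exact_mod_cast (by omega : ⌈6 * (C₃ + C' + 1)⌉₊ ≤ g)
  have hset := fiber_principle (q := q) (g := g) (by omega) hg3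
    (fun h => (p : ℤ) ∣ h.coeff 0) (a := 1 / 2 + 1 / (g : ℝ) ^ 2) (by positivity)
    (fun h₀ hh₀ hlam _ => by
      refine (line_ord (by omega) hh₀ hp).trans ?_
      have hL : (g : ℝ) ^ 2 ≤ (LN q g h₀ : ℝ) := (A14_lam g).trans hlam
      have h1 : (1 : ℝ) ≤ 1 / (g : ℝ) ^ 2 * (LN q g h₀ : ℝ) := by
        rw [div_mul_eq_mul_div, le_div_iff₀ (by positivity), one_mul, one_mul]
        exact hL
      change (LN q g h₀ : ℝ) / 2 + 1 ≤ _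
      linarith)
  have hN : (0 : ℝ) ≤ ((Weil q g).ncard : ℝ) := Nat.cast_nonneg _
  have hr := h₃ g hgr
  have hs := h₄ g hgs
  have hsmall : C₃ / (g : ℝ) ^ 2 + ((99 : ℝ) / 100) ^ g + 1 / (g : ℝ) ^ 2 ≤ 1 / 6 := by
    calc C₃ / (g : ℝ) ^ 2 + ((99 : ℝ) / 100) ^ g + 1 / (g : ℝ) ^ 2
        ≤ C₃ / (g : ℝ) ^ 2 + C' / (g : ℝ) ^ 2 + 1 / (g : ℝ) ^ 2 :=
          add_le_add (add_le_add le_rfl (h' g (by omega))) le_rfl
      _ = (C₃ + C' + 1) / (g : ℝ) ^ 2 := by ring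
      _ ≤ 1 / 6 := by
          rw [div_le_div_iff₀ (by positivity) (by norm_num)]
          nlinarith [mul_nonneg hg0.le (sub_nonneg.2 hg1)]
  have hsplit : (Weil q g).ncard = ({h | h ∈ Weil q g ∧ (p : ℤ) ∣ h.coeff 0} : Set ℤ[X]).ncard +
      ({h | h ∈ Weil q g ∧ ¬ (p : ℤ) ∣ h.coeff 0} : Set ℤ[X]).ncard := by
    have hfin := Weil_finite q g
    rw [← Set.ncard_union_eq (Set.disjoint_left.2 fun f hf hf' => hf'.2 hf.2)
      (hfin.subset fun f hf => hf.1) (hfin.subset fun f hf => hf.1)]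
    refine congrArg Set.ncard (Set.ext fun f => ?_)
    constructor
    · intro hf
      by_cases hd : (p : ℤ) ∣ f.coeff 0
      · exact Or.inl ⟨hf, hd⟩
      · exact Or.inr ⟨hf, hd⟩
    · rintro (hf | hf)
      · exact hf.1
      · exact hf.1
  have hsplit' : ((Weil q g).ncard : ℝ) =
      (({h | h ∈ Weil q g ∧ (p : ℤ) ∣ h.coeff 0} : Set ℤ[X]).ncard : ℝ) +
      (({h | h ∈ Weil q g ∧ ¬ (p : ℤ) ∣ h.coeff 0} : Set ℤ[X]).ncard : ℝ) := by exact_mod_cast hsplit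
  have t : (C₃ / (g : ℝ) ^ 2 + ((99 : ℝ) / 100) ^ g + 1 / (g : ℝ) ^ 2) * ((Weil q g).ncard : ℝ) ≤
      1 / 6 * ((Weil q g).ncard : ℝ) := mul_le_mul_of_nonneg_right hsmall hN
  have hfinal : ((Weil q g).ncard : ℝ) ≤
      3 * (({h | h ∈ Weil q g ∧ ¬ (p : ℤ) ∣ h.coeff 0} : Set ℤ[X]).ncard : ℝ) := by
    have e : (C₃ / (g : ℝ) ^ 2 + ((99 : ℝ) / 100) ^ g + 1 / (g : ℝ) ^ 2) * ((Weil q g).ncard : ℝ) =
        C₃ / (g : ℝ) ^ 2 * ((Weil q g).ncard : ℝ) + ((99 : ℝ) / 100) ^ g * ((Weil q g).ncard : ℝ) +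
          1 / (g : ℝ) ^ 2 * ((Weil q g).ncard : ℝ) := by ring
    rw [e] at t
    have e2 : (1 / 2 + 1 / (g : ℝ) ^ 2) * ((Weil q g).ncard : ℝ) =
        ((Weil q g).ncard : ℝ) / 2 + 1 / (g : ℝ) ^ 2 * ((Weil q g).ncard : ℝ) := by ring
    rw [e2] at hset
    linarith
  exact_mod_cast hfinal

end TQ
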