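import Pool.Agent.Lib.MP_021685_agTQ.AD
import Pool.Agent.Lib.MP_021685_agTQ.ML
import Pool.Agent.Lib.MP_021685_agTQ.VOL
import Pool.Agent.Lib.MP_021685_agTQ.PF
import Pool.Agent.Lib.MP_021685_agTQ.PL
import Pool.Agent.Lib.MP_021685_agTQ.HB
import Pool.Agent.Lib.MP_021685_agTQ.LB
import Pool.Agent.Lib.MP_021685_agTI.E1

/-! LEAF A4 (easy+).  The irregular members are negligible.

PROOF.  `g! ≤ g^g`, `√(2g)^g/g! ≥ √(2g)^g/g^g ≥ g^(-g/2)`-like `= exp(-(g/2) log g)` (`√g^g/g^g = 1/√g^g`), so it is enough that `exp(-g^(11/10)) ≤ (1/4) (99/100)^(2g) (√2)^g exp(-(g/2) log g)`, true for large `g` because `g log g = o(g^(11/10))`. -/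

namespace TQ

open Polynomial TI

private theorem A4_exp : ∃ g₀ : ℕ, ∀ g : ℕ, g₀ ≤ g → 3 ≤ g ∧
    Real.exp (-((g : ℝ) ^ (11 / 10 : ℝ))) ≤ 1 / 4 * (1 / (2 * (g : ℝ))) ^ g := by
  have h0 := (isLittleO_log_rpow_atTop (r := (1 / 10 : ℝ)) (by norm_num)).bound (c := (1 / 4 : ℝ)) (by norm_num)
  obtain ⟨x, hx⟩ := Filter.eventually_atTop.1 h0
  refine ⟨max 3 ⌈x⌉₊, fun g hg => ?_⟩
  have h3 : 3 ≤ g := le_trans (le_max_left _ _) hg
  refine ⟨h3, ?_⟩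
  have h3' : (3 : ℝ) ≤ g := by exact_mod_cast h3
  have hg0 : (0 : ℝ) < g := by linarith
  have hxg : x ≤ 2 * (g : ℝ) := by
    have h4 : x ≤ (g : ℝ) := le_trans (Nat.le_ceil x) (by exact_mod_cast le_trans (le_max_right 3 ⌈x⌉₊) hg)
    linarith
  have h5 := hx (2 * (g : ℝ)) hxg
  rw [Real.norm_eq_abs, Real.norm_eq_abs, abs_of_nonneg (Real.rpow_nonneg (by linarith) _),
    Real.mul_rpow (by norm_num) hg0.le] at h5
  have h6 : (2 : ℝ) ^ (1 / 10 : ℝ) ≤ 2 := by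
    have h7 := Real.rpow_le_rpow_of_exponent_le (x := (2 : ℝ)) (by norm_num) (show (1 / 10 : ℝ) ≤ 1 by norm_num)
    rw [Real.rpow_one] at h7
    exact h7
  have h8 : (g : ℝ) ^ (11 / 10 : ℝ) = g * (g : ℝ) ^ (1 / 10 : ℝ) := by
    rw [show (11 / 10 : ℝ) = 1 + 1 / 10 by norm_num, Real.rpow_add hg0, Real.rpow_one]
  have h9 : (1 : ℝ) ≤ (g : ℝ) ^ (1 / 10 : ℝ) := Real.one_le_rpow (by linarith) (by norm_num)
  have h10 : Real.log (2 * (g : ℝ)) ≤ 1 / 2 * (g : ℝ) ^ (1 / 10 : ℝ) := by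
    have h11 := le_abs_self (Real.log (2 * (g : ℝ)))
    have h12 : (2 : ℝ) ^ (1 / 10 : ℝ) * (g : ℝ) ^ (1 / 10 : ℝ) ≤ 2 * (g : ℝ) ^ (1 / 10 : ℝ) :=
      mul_le_mul_of_nonneg_right h6 (by linarith)
    linarith
  have h13 : Real.log 4 ≤ 3 / 2 := by
    have h14 : Real.log 4 = 2 * Real.log 2 := by
      rw [show (4 : ℝ) = 2 ^ 2 by norm_num, Real.log_pow]
      norm_num
    have h15 := Real.log_two_lt_d9
    rw [h14]
    linarith
  have h16 : Real.log 4 + g * Real.log (2 * (g : ℝ)) ≤ (g : ℝ) ^ (11 / 10 : ℝ) := by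
    rw [h8]
    have h17 : (g : ℝ) * Real.log (2 * (g : ℝ)) ≤ g * (1 / 2 * (g : ℝ) ^ (1 / 10 : ℝ)) :=
      mul_le_mul_of_nonneg_left h10 hg0.le
    have h18 : (3 : ℝ) * 1 ≤ g * (g : ℝ) ^ (1 / 10 : ℝ) := mul_le_mul h3' h9 (by norm_num) hg0.le
    linarith
  have h19 : (1 / 4 : ℝ) * (1 / (2 * (g : ℝ))) ^ g = Real.exp (-(Real.log 4 + g * Real.log (2 * (g : ℝ)))) := by
    rw [neg_add, Real.exp_add, Real.exp_neg, Real.exp_log (by norm_num), ← mul_neg, ← Real.log_inv, mul_comm (g : ℝ),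
      Real.exp_mul, Real.exp_log (by positivity), Real.rpow_natCast, one_div, one_div]
  rw [h19]
  exact Real.exp_le_exp.2 (neg_le_neg h16)

theorem irr_num (q : ℕ) (hq : 2 ≤ q) : ∃ g₀ : ℕ, ∀ g : ℕ, g₀ ≤ g →
    Real.exp (-((g : ℝ) ^ (11 / 10 : ℝ))) * Real.sqrt q ^ (g * (g + 1) / 2) ≤
      1 / 4 * (99 / 100) ^ g * Low q g := by
  obtain ⟨g₀, hg₀⟩ := A4_exp
  refine ⟨g₀, fun g hg => ?_⟩
  obtain ⟨h3, h4⟩ := hg₀ g hg
  have h3' : (3 : ℝ) ≤ g := by exact_mod_cast h3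
  have hg0 : (0 : ℝ) < g := by linarith
  have hq0 : 0 ≤ Real.sqrt q ^ (g * (g + 1) / 2) := pow_nonneg (Real.sqrt_nonneg _) _
  have hf : (g.factorial : ℝ) ≤ (g : ℝ) ^ g := by exact_mod_cast Nat.factorial_le_pow g
  have hf0 : (0 : ℝ) < g.factorial := by exact_mod_cast Nat.factorial_pos g
  have hs : (1 : ℝ) ≤ Real.sqrt (2 * g) := by
    rw [Real.one_le_sqrt]
    linarith
  have h5 : (1 / (2 * (g : ℝ))) ^ g ≤ (99 / 100) ^ g * ((99 / 100 * Real.sqrt (2 * g)) ^ g / (g.factorial : ℝ)) := by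
    have h6 : (1 / (2 * (g : ℝ))) ^ g = (1 / 2) ^ g / (g : ℝ) ^ g := by
      rw [← div_pow, div_div]
    have h7 : (1 / 2 : ℝ) ^ g ≤ (99 / 100 * (99 / 100 * Real.sqrt (2 * g))) ^ g := by
      refine pow_le_pow_left₀ (by norm_num) ?_ g
      linarith
    rw [h6, ← mul_div_assoc, ← mul_pow]
    exact div_le_div₀ (le_trans (by positivity) h7) h7 hf0 hf
  calc Real.exp (-((g : ℝ) ^ (11 / 10 : ℝ))) * Real.sqrt q ^ (g * (g + 1) / 2)
      ≤ 1 / 4 * (1 / (2 * (g : ℝ))) ^ g * Real.sqrt q ^ (g * (g + 1) / 2) := mul_le_mul_of_nonneg_right h4 hq0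
    _ ≤ 1 / 4 * ((99 / 100) ^ g * ((99 / 100 * Real.sqrt (2 * g)) ^ g / (g.factorial : ℝ))) *
          Real.sqrt q ^ (g * (g + 1) / 2) :=
        mul_le_mul_of_nonneg_right (mul_le_mul_of_nonneg_left h5 (by norm_num)) hq0
    _ = 1 / 4 * (99 / 100) ^ g * Low q g := by
        unfold Low
        ring

end TQ
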