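import Pool.Agent.Lib.MP_021685_agTQ.Defs

/-! Definitions of block AS (assembly). -/

namespace TQ

open Polynomial TI

/-- lines with at least `Lam g` strict members are long -/
noncomputable def Lam (g : ℕ) : ℝ := (g : ℝ) ^ 2 * (1001 / 1000) ^ (4 * g)

/-- the expression of the lower bound -/
noncomputable def Low (q g : ℕ) : ℝ :=
  Real.sqrt q ^ (g * (g + 1) / 2) * (99 / 100 * Real.sqrt (2 * g)) ^ g / (g.factorial : ℝ)

end TQ
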