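import Pool.Agent.Lib.MP_021685_agTI.L0
import Pool.Agent.Lib.MP_021685_agTI.A0
import Pool.Agent.Lib.MP_021685_agTI.B0
import Pool.Agent.Lib.MP_021685_agTJ.J0

/-! T-INF for every finite field: definitions and interface. -/

namespace TQ

open Polynomial TI

/-- `∏_j (1 - 2 cos θ_j ζ + ζ²)` -/
noncomputable def PP {g : ℕ} (θ : Fin g → ℝ) (ζ : ℂ) : ℂ :=
  ∏ j, (1 - 2 * ((Real.cos (θ j) : ℝ) : ℂ) * ζ + ζ ^ 2)

/-- the radius `(1 - 1/g²) exp(-1/(10 g))` -/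
noncomputable def ta (g : ℕ) : ℝ := (1 - 1 / (g : ℝ) ^ 2) * Real.exp (-(1 / (10 * (g : ℝ))))

/-- `∏_j |PP θ (τ e^(i θ_j))|`, so that `- 2 log` of it is `∑_k τ^k σ_k² / k` -/
noncomputable def En {g : ℕ} (θ : Fin g → ℝ) : ℝ :=
  ∏ j, ‖PP θ ((ta g : ℂ) * Complex.exp ((θ j : ℂ) * Complex.I))‖

/-- the roots of `h` are macroscopically regular -/
def Reg (q g : ℕ) (h : ℤ[X]) : Prop :=
  ∃ θ : Fin g → ℝ, IsAngles q h θ ∧ Real.exp (-((g : ℝ) ^ (8 / 5 : ℝ))) ≤ En θ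

/-- the number of strict members of the line of `h` -/
noncomputable def LN (q g : ℕ) (h : ℤ[X]) : ℕ :=
  ({h' | h' ∈ Strict q g ∧ pre g (g - 1) h' = pre g (g - 1) h} : Set ℤ[X]).ncard

/-- the integral of `|det (2 sin ((k+1) θ_j))|` over `0 < θ_0 < .. < θ_(n-1) < π` -/
noncomputable def KK (n : ℕ) : ℝ :=
  (∫⁻ θ in {θ : Fin n → ℝ | StrictMono θ ∧ ∀ j, θ j ∈ Set.Ioo 0 Real.pi},
    ENNReal.ofReal |(Matrix.of fun k j : Fin n => 2 * Real.sin (((k : ℕ) + 1 : ℝ) * θ j)).det|).toReal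

open Classical in
/-- the number of coordinates which are treated separately, about `g ^ (9/10)`, of the same parity as `g` -/
noncomputable def JJ (g : ℕ) : ℕ :=
  if Even (g - ⌈(g : ℝ) ^ (9 / 10 : ℝ)⌉₊) then ⌈(g : ℝ) ^ (9 / 10 : ℝ)⌉₊ else ⌈(g : ℝ) ^ (9 / 10 : ℝ)⌉₊ + 1

end TQ
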