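import Pool.Agent.Lib.MP_021685_agTQ.PA0

/-! T-INF for every finite field, block PF (Pfaffian), second half: definitions. -/

set_option autoImplicit false

namespace TQ

/-- coefficients of the test functions `A_i` -/
noncomputable def T0 (m : ℕ) : Matrix (Fin m) (Fin m) ℝ := Matrix.of fun i j =>
  if (i : ℕ) = j then 1 else if (i : ℕ) = j + 1 then 1 / 3 else 0

/-- coefficients of the test functions `B_j` -/
noncomputable def T1 (m : ℕ) : Matrix (Fin m) (Fin m) ℝ := Matrix.of fun i j =>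
  if (i : ℕ) = j then 1
  else if (i : ℕ) = j + 1 then -(2 * (i : ℕ) / (3 * ((i : ℕ) + 1)) : ℝ)
  else if (i : ℕ) = j + 2 then -(((i : ℕ) - 1) / (3 * ((i : ℕ) + 1)) : ℝ) else 0

/-- the change of basis -/
noncomputable def TT (m : ℕ) : Matrix (Fin m × Fin 2) (Fin m × Fin 2) ℝ :=
  Matrix.blockDiagonal fun e : Fin 2 => if e = 0 then T0 m else T1 m

/-- `A_0 = f_0`, `A_i = f_(2i) + (1/3) f_(2i-2)` -/
noncomputable def Aa (i : ℕ) (t : ℝ) : ℝ := ff (2 * i) t + (if i = 0 then 0 else 1 / 3 * ff (2 * i - 2) t)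

/-- the primitive of `A_i` -/
noncomputable def FA (i : ℕ) (t : ℝ) : ℝ := FF (2 * i) t + (if i = 0 then 0 else 1 / 3 * FF (2 * i - 2) t)

/-- the Gram matrix of the `A_i` in `L²(sin t dt)` -/
noncomputable def Gm (i j : ℕ) : ℝ := ∫ t in (0 : ℝ)..Real.pi, Aa i t * Aa j t * Real.sin t

end TQ
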