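import Pool.Agent.Lib.MP_021685_agTQ.F0

/-!
LEAF F1.  `∫_cube det(f_k(θ_j))² = n! (2 π)^n`.
`Matrix.det_apply` twice: `det² = ∑_(s,t) sgn s sgn t ∏_j f_(s j)(θ_j) f_(t j)(θ_j)` (`det_apply` is `∑_σ sign σ • ∏_i M (σ i) i`).  The integral over the cube (a restriction of the product measure,
`MeasureTheory.Measure.restrict_pi_pi`, `Set.pi univ`; `MeasureTheory.integral_fintype_prod_eq_prod`) of `∏_j g_j(θ_j)` is `∏_j ∫_(0,π) g_j`.  `∫_0^π f_k f_l = 2 π` if `k = l`, else `0`
(`2 sin a t * 2 sin b t = 2 cos ((a-b) t) - 2 cos ((a+b) t)`), so only `s = t` contributes: `n!` terms `(2 π)^n`.  Then `ofReal_integral_eq_lintegral_ofReal` (the function is continuous and bounded, so integrable on the cube).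
-/

set_option autoImplicit false

namespace TQ

open MeasureTheory in
private theorem F1_cos (c : ℤ) (hc : c ≠ 0) : ∫ t in (0 : ℝ)..Real.pi, Real.cos ((c : ℝ) * t) = 0 := by
  have h : (c : ℝ) ≠ 0 := by exact_mod_cast hc
  rw [intervalIntegral.integral_comp_mul_left (fun x => Real.cos x) h, integral_cos, mul_zero, Real.sin_zero,
    Real.sin_int_mul_pi, sub_zero, smul_zero]

open MeasureTheory in
private theorem F1_ff (k l : ℕ) :
    ∫ t in Set.Ioo 0 Real.pi, ff k t * ff l t = if k = l then 2 * Real.pi else 0 := by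
  rw [← integral_Ioc_eq_integral_Ioo, ← intervalIntegral.integral_of_le Real.pi_pos.le]
  have h1 : ∀ t : ℝ, ff k t * ff l t =
      2 * Real.cos ((((k : ℤ) - (l : ℤ) : ℤ) : ℝ) * t) - 2 * Real.cos ((((k : ℤ) + (l : ℤ) + 2 : ℤ) : ℝ) * t) := by
    intro t
    have h2 : (((k : ℤ) - (l : ℤ) : ℤ) : ℝ) * t = ((k : ℝ) + 1) * t - ((l : ℝ) + 1) * t := by push_cast; ring
    have h3 : (((k : ℤ) + (l : ℤ) + 2 : ℤ) : ℝ) * t = ((k : ℝ) + 1) * t + ((l : ℝ) + 1) * t := by push_cast; ring
    rw [h2, h3, Real.cos_sub, Real.cos_add]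
    unfold ff
    ring
  simp_rw [h1]
  have hc : ∀ c : ℤ, IntervalIntegrable (fun t : ℝ => 2 * Real.cos ((c : ℝ) * t)) volume 0 Real.pi := by
    intro c
    apply Continuous.intervalIntegrable
    fun_prop
  rw [intervalIntegral.integral_sub (hc _) (hc _), intervalIntegral.integral_const_mul,
    intervalIntegral.integral_const_mul, F1_cos ((k : ℤ) + (l : ℤ) + 2) (by positivity), mul_zero, sub_zero]
  by_cases hkl : k = l
  · rw [if_pos hkl, hkl]
    simp
  · rw [if_neg hkl, F1_cos ((k : ℤ) - (l : ℤ)) (by omega), mul_zero]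

private theorem F1_cont (k : ℕ) : Continuous (ff k) := by
  unfold ff
  fun_prop

private theorem F1_det (n : ℕ) (θ : Fin n → ℝ) :
    (Matrix.of fun k j : Fin n => ff (k : ℕ) (θ j)).det ^ 2 =
      ∑ s : Equiv.Perm (Fin n), ∑ t : Equiv.Perm (Fin n),
        (((Equiv.Perm.sign s : ℤ) : ℝ) * ((Equiv.Perm.sign t : ℤ) : ℝ)) *
          ∏ j : Fin n, (ff (s j : ℕ) (θ j) * ff (t j : ℕ) (θ j)) := by
  rw [sq, Matrix.det_apply', Finset.sum_mul_sum]
  refine Finset.sum_congr rfl fun s _ => Finset.sum_congr rfl fun t _ => ?_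
  rw [Finset.prod_mul_distrib]
  simp only [Matrix.of_apply]
  ring

open MeasureTheory in
private theorem F1_meas (n : ℕ) : (volume : Measure (Fin n → ℝ)).restrict (Cube n) =
    Measure.pi fun _ : Fin n => (volume : Measure ℝ).restrict (Set.Ioo 0 Real.pi) := by
  have h : Cube n = Set.pi Set.univ fun _ : Fin n => Set.Ioo (0 : ℝ) Real.pi := by
    ext θ
    simp [Cube, Set.mem_pi]
  rw [h, volume_pi, Measure.restrict_pi_pi]

open MeasureTheory in
private theorem F1_int (k l : ℕ) :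
    Integrable (fun t => ff k t * ff l t) ((volume : Measure ℝ).restrict (Set.Ioo 0 Real.pi)) := by
  have h : IntegrableOn (fun t => ff k t * ff l t) (Set.Icc 0 Real.pi) volume :=
    ((F1_cont k).mul (F1_cont l)).continuousOn.integrableOn_Icc
  exact h.mono_set Set.Ioo_subset_Icc_self

open MeasureTheory in
theorem det_sq (n : ℕ) : ∫⁻ θ in Cube n, ENNReal.ofReal ((Matrix.of fun k j : Fin n => ff (k : ℕ) (θ j)).det ^ 2) =
    ENNReal.ofReal ((n.factorial : ℝ) * (2 * Real.pi) ^ n) := by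
  have hI : ∀ s t : Equiv.Perm (Fin n), Integrable (fun θ : Fin n → ℝ =>
      ∏ j : Fin n, (ff (s j : ℕ) (θ j) * ff (t j : ℕ) (θ j))) (volume.restrict (Cube n)) := by
    intro s t
    rw [F1_meas]
    exact Integrable.fintype_prod (f := fun (j : Fin n) (x : ℝ) => ff (s j : ℕ) x * ff (t j : ℕ) x)
      fun j => F1_int _ _
  have hV : ∀ s t : Equiv.Perm (Fin n), ∫ θ in Cube n, ∏ j : Fin n, (ff (s j : ℕ) (θ j) * ff (t j : ℕ) (θ j)) =
      if s = t then (2 * Real.pi) ^ n else 0 := by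
    intro s t
    rw [F1_meas, integral_fintype_prod_eq_prod (fun (j : Fin n) (x : ℝ) => ff (s j : ℕ) x * ff (t j : ℕ) x)]
    simp_rw [F1_ff]
    by_cases hst : s = t
    · rw [if_pos hst, hst]
      simp
    · rw [if_neg hst]
      obtain ⟨j, hj⟩ : ∃ j, s j ≠ t j := by
        by_contra hcon
        push Not at hcon
        exact hst (Equiv.ext hcon)
      refine Finset.prod_eq_zero (Finset.mem_univ j) ?_
      rw [if_neg]
      exact fun h => hj (Fin.ext h)
  have hint : Integrable (fun θ : Fin n → ℝ => (Matrix.of fun k j : Fin n => ff (k : ℕ) (θ j)).det ^ 2)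
      (volume.restrict (Cube n)) := by
    simp_rw [F1_det]
    exact integrable_finsetSum _ fun s _ => integrable_finsetSum _ fun t _ => (hI s t).const_mul _
  rw [← ofReal_integral_eq_lintegral_ofReal hint (Filter.Eventually.of_forall fun θ => sq_nonneg _)]
  congr 1
  simp_rw [F1_det]
  rw [integral_finsetSum _ fun s _ => integrable_finsetSum _ fun t _ => (hI s t).const_mul _]
  have h1 : ∀ s : Equiv.Perm (Fin n), ∫ θ in Cube n, ∑ t : Equiv.Perm (Fin n),
      (((Equiv.Perm.sign s : ℤ) : ℝ) * ((Equiv.Perm.sign t : ℤ) : ℝ)) *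
        ∏ j : Fin n, (ff (s j : ℕ) (θ j) * ff (t j : ℕ) (θ j)) = (2 * Real.pi) ^ n := by
    intro s
    rw [integral_finsetSum _ fun t _ => (hI s t).const_mul _]
    simp_rw [integral_const_mul, hV]
    simp only [mul_ite, mul_zero, Finset.sum_ite_eq, Finset.mem_univ, if_true]
    have h2 : ((Equiv.Perm.sign s : ℤ) : ℝ) * ((Equiv.Perm.sign s : ℤ) : ℝ) = 1 := by
      rw [← Int.cast_mul, ← sq, ← Units.val_pow_eq_pow_val, Int.units_sq]
      simp
    rw [h2, one_mul]
  simp_rw [h1]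
  rw [Finset.sum_const, Finset.card_univ, Fintype.card_perm, Fintype.card_fin, nsmul_eq_mul]

end TQ
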