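import Pool.Agent.Lib.MP_021685_agTQ.PA6
import Pool.Agent.Lib.MP_021685_agTQ.F1

/-!
LEAF F3.  Cauchy-Schwarz.
`KK n = (∫⁻_(Ch n) |D|).toReal`, `D θ = det (f_k(θ_j))` (the matrix of `KK` is this one, `ff` unfolds; the region of `KK` is `Ch n`).  `ENNReal.lintegral_mul_le_Lp_mul_Lq` with `p = q = 2` and the functions `1`, `ofReal |D|`:
`∫⁻_(Ch n) |D| ≤ (∫⁻_(Ch n) 1)^(1/2) (∫⁻_(Ch n) D²)^(1/2)`.  By `chamber` (`1` and `D²` are symmetric: a permutation of the columns changes the sign of `D`, `Matrix.det_permute'`) and `det_sq`: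
`n! ∫⁻_(Ch n) 1 ≤ volume (Cube n) = π^n` (`Real.volume_pi_Ioo` or `volume_pi_pi`), `∫⁻_(Ch n) D² ≤ (2 π)^n`.  So `KK n ≤ sqrt (π^n/n!) sqrt ((2 π)^n) = (sqrt 2 π)^n / sqrt n!`.
-/

set_option autoImplicit false

namespace TQ

open MeasureTheory in
private noncomputable def f3D (n : ℕ) (θ : Fin n → ℝ) : ℝ :=
  (Matrix.of fun k j : Fin n => ff (k : ℕ) (θ j)).det

private lemma f3D_cont (n : ℕ) : Continuous (f3D n) := by
  unfold f3D
  apply Continuous.matrix_det
  apply continuous_matrix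
  intro k j
  simp only [Matrix.of_apply, ff]
  fun_prop

private lemma f3D_sym (n : ℕ) (p : Equiv.Perm (Fin n)) (s : Fin n → ℝ) :
    (f3D n (s ∘ p)) ^ 2 = (f3D n s) ^ 2 := by
  have h : f3D n (s ∘ p) = ((Equiv.Perm.sign p : ℤ) : ℝ) * f3D n s := by
    unfold f3D
    rw [← Matrix.det_permute']
    rfl
  have h2 : (((Equiv.Perm.sign p : ℤ) : ℝ)) ^ 2 = 1 := by
    rcases Int.units_eq_one_or (Equiv.Perm.sign p) with h | h <;> simp [h]
  rw [h, mul_pow, h2, one_mul]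

open MeasureTheory in
private lemma f3_vol (n : ℕ) : volume (Cube n) = ENNReal.ofReal (Real.pi ^ n) := by
  have h : Cube n = Set.pi Set.univ (fun _ : Fin n => Set.Ioo 0 Real.pi) := by
    ext s
    simp [Cube]
  rw [h, Real.volume_pi_Ioo]
  simp [ENNReal.ofReal_pow Real.pi_pos.le]

private lemma f3_div (n : ℕ) (x : ENNReal) (y : ℝ) (h : (n.factorial : ENNReal) * x ≤ ENNReal.ofReal y) :
    x ≤ ENNReal.ofReal (y / (n.factorial : ℝ)) := by
  have hp : (0 : ℝ) < (n.factorial : ℝ) := by exact_mod_cast Nat.factorial_pos n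
  rw [ENNReal.ofReal_div_of_pos hp, ENNReal.ofReal_natCast]
  rw [ENNReal.le_div_iff_mul_le]
  · rw [mul_comm]
    exact h
  · left
    exact_mod_cast (Nat.factorial_pos n).ne'
  · left
    exact ENNReal.natCast_ne_top _

open MeasureTheory in
theorem KK_le_F (n : ℕ) : KK n ≤ (Real.sqrt 2 * Real.pi) ^ n / Real.sqrt (n.factorial) := by
  have hpi := Real.pi_pos
  have hp : (0 : ℝ) < (n.factorial : ℝ) := by exact_mod_cast Nat.factorial_pos n
  have hA : ∫⁻ _ in Ch n, (1 : ENNReal) ≤ ENNReal.ofReal (Real.pi ^ n / (n.factorial : ℝ)) := by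
    apply f3_div
    have h := chamber (m := n) (fun _ => (1 : ENNReal)) measurable_const (fun _ _ => rfl)
    refine h.trans ?_
    rw [setLIntegral_one, f3_vol]
  have hB : ∫⁻ θ in Ch n, ENNReal.ofReal ((f3D n θ) ^ 2) ≤ ENNReal.ofReal ((2 * Real.pi) ^ n) := by
    have h0 : (2 * Real.pi) ^ n = ((n.factorial : ℝ) * (2 * Real.pi) ^ n) / (n.factorial : ℝ) := by
      field_simp
    rw [h0]
    apply f3_div
    have h := chamber (m := n) (fun θ => ENNReal.ofReal ((f3D n θ) ^ 2))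
      (((f3D_cont n).pow 2).measurable.ennreal_ofReal) (fun p s => by rw [f3D_sym])
    refine h.trans ?_
    exact le_of_eq (det_sq n)
  have hKK : KK n = (∫⁻ θ in Ch n, ENNReal.ofReal |f3D n θ|).toReal := rfl
  have hCS : ∫⁻ θ in Ch n, ENNReal.ofReal |f3D n θ| ≤
      (∫⁻ _ in Ch n, (1 : ENNReal)) ^ (1 / 2 : ℝ) *
        (∫⁻ θ in Ch n, ENNReal.ofReal ((f3D n θ) ^ 2)) ^ (1 / 2 : ℝ) := by
    have hpq : (2 : ℝ).HolderConjugate 2 := Real.HolderConjugate.two_two
    have h := ENNReal.lintegral_mul_le_Lp_mul_Lq (volume.restrict (Ch n)) hpq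
      (f := fun _ => (1 : ENNReal)) (g := fun θ => ENNReal.ofReal |f3D n θ|)
      aemeasurable_const ((f3D_cont n).abs.measurable.ennreal_ofReal.aemeasurable)
    have h1 : ∀ θ : Fin n → ℝ, (ENNReal.ofReal |f3D n θ|) ^ (2 : ℝ) = ENNReal.ofReal ((f3D n θ) ^ 2) := by
      intro θ
      rw [ENNReal.rpow_two, ← ENNReal.ofReal_pow (abs_nonneg _), sq_abs]
    simpa only [Pi.mul_apply, one_mul, ENNReal.one_rpow, h1] using h
  have hfin : ∫⁻ θ in Ch n, ENNReal.ofReal |f3D n θ| ≤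
      ENNReal.ofReal (Real.sqrt (Real.pi ^ n / (n.factorial : ℝ)) * Real.sqrt ((2 * Real.pi) ^ n)) := by
    refine hCS.trans ?_
    rw [ENNReal.ofReal_mul (Real.sqrt_nonneg _)]
    apply mul_le_mul'
    · rw [Real.sqrt_eq_rpow, ← ENNReal.ofReal_rpow_of_nonneg (by positivity) (by norm_num)]
      exact ENNReal.rpow_le_rpow hA (by norm_num)
    · rw [Real.sqrt_eq_rpow, ← ENNReal.ofReal_rpow_of_nonneg (by positivity) (by norm_num)]
      exact ENNReal.rpow_le_rpow hB (by norm_num)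
  have hlast : Real.sqrt (Real.pi ^ n / (n.factorial : ℝ)) * Real.sqrt ((2 * Real.pi) ^ n) =
      (Real.sqrt 2 * Real.pi) ^ n / Real.sqrt (n.factorial) := by
    rw [← Real.sqrt_mul (by positivity)]
    have h2 : Real.pi ^ n / (n.factorial : ℝ) * (2 * Real.pi) ^ n =
        ((Real.sqrt 2 * Real.pi) ^ n) ^ 2 / (n.factorial : ℝ) := by
      have h3 : ((Real.sqrt 2 * Real.pi) ^ n) ^ 2 = (2 * Real.pi ^ 2) ^ n := by
        rw [← pow_mul, mul_comm n 2, pow_mul, mul_pow, Real.sq_sqrt (by norm_num)]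
      rw [h3, mul_pow, mul_pow, ← pow_mul, mul_comm 2 n, pow_mul]
      ring
    rw [h2, Real.sqrt_div (by positivity), Real.sqrt_sq (by positivity)]
  rw [hKK, ← hlast]
  exact ENNReal.toReal_le_of_le_ofReal (by positivity) hfin

end TQ
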