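import Pool.Agent.Lib.MP_021685_agTQ.F0

/-!
LEAF F6.  The rows `(i, 0)` of the change of basis are the functions `A_i`.
The sum over `Fin m × Fin 2` (`Fintype.sum_prod_type`, `Fin.sum_univ_two`, `Matrix.blockDiagonal_apply`): only `(j, 0)` with `j = i` and `j = i - 1` contribute, with the coefficients `1`, `1/3`, `idx (j,0) = 2 j`.
-/

set_option autoImplicit false

namespace TQ

private theorem F6_T0 (m : ℕ) (i : Fin m) (φ : ℕ → ℝ) :
    ∑ j : Fin m, T0 m i j * φ (2 * (j : ℕ)) =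
      φ (2 * (i : ℕ)) + (if (i : ℕ) = 0 then 0 else 1 / 3 * φ (2 * (i : ℕ) - 2)) := by
  have h1 : ∀ j : Fin m, T0 m i j * φ (2 * (j : ℕ)) =
      (if (i : ℕ) = (j : ℕ) then φ (2 * (j : ℕ)) else 0) +
        (if (i : ℕ) = (j : ℕ) + 1 then 1 / 3 * φ (2 * (j : ℕ)) else 0) := by
    intro j
    unfold T0
    rw [Matrix.of_apply]
    split_ifs with h2 h3
    · omega
    · ring
    · ring
    · ring
  rw [Finset.sum_congr rfl fun j _ => h1 j, Finset.sum_add_distrib]
  congr 1
  · rw [Finset.sum_eq_single i]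
    · rw [if_pos rfl]
    · intro j _ hj
      rw [if_neg fun h => hj (Fin.ext h.symm)]
    · intro h
      exact absurd (Finset.mem_univ _) h
  · by_cases hi : (i : ℕ) = 0
    · rw [if_pos hi]
      refine Finset.sum_eq_zero fun j _ => ?_
      rw [if_neg (by omega)]
    · rw [if_neg hi, Finset.sum_eq_single ⟨(i : ℕ) - 1, by omega⟩]
      · rw [if_pos (by show (i : ℕ) = (i : ℕ) - 1 + 1; omega)]
        have h2 : 2 * ((i : ℕ) - 1) = 2 * (i : ℕ) - 2 := by omega
        show 1 / 3 * φ (2 * ((i : ℕ) - 1)) = _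
        rw [h2]
      · intro j _ hj
        rw [if_neg]
        intro h
        apply hj
        apply Fin.ext
        show (j : ℕ) = (i : ℕ) - 1
        omega
      · intro h
        exact absurd (Finset.mem_univ _) h

private theorem F6_row (m : ℕ) (i : Fin m) (φ : ℕ → ℝ) : ∑ c, TT m (i, 0) c * φ (idx c) =
    φ (2 * (i : ℕ)) + (if (i : ℕ) = 0 then 0 else 1 / 3 * φ (2 * (i : ℕ) - 2)) := by
  rw [Fintype.sum_prod_type, ← F6_T0]
  refine Finset.sum_congr rfl fun j _ => ?_
  rw [Fin.sum_univ_two]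
  unfold TT
  rw [Matrix.blockDiagonal_apply, Matrix.blockDiagonal_apply]
  simp [idx]

theorem row0_f (m : ℕ) (i : Fin m) (t : ℝ) : ∑ c, TT m (i, 0) c * ff (idx c) t = Aa (i : ℕ) t := by
  have h := F6_row m i (fun k => ff k t)
  unfold Aa
  exact h

theorem row0_F (m : ℕ) (i : Fin m) (t : ℝ) : ∑ c, TT m (i, 0) c * FF (idx c) t = FA (i : ℕ) t := by
  have h := F6_row m i (fun k => FF k t)
  unfold FA
  exact h

end TQ
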