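import Mathlib

/-! Definitions for block LB (lower bound, `q ≥ 2`). -/

namespace TQ

/-- the simplex of size `t` -/
def Sx (n : ℕ) (t : ℝ) : Set (Fin n → ℝ) := {x | (∀ i, 0 ≤ x i) ∧ ∑ i, x i ≤ t}

/-- the linear form with the coefficients `c₀` (of `t - ∑ x i`) and `c i` -/
noncomputable def Lc {n : ℕ} (t c₀ : ℝ) (c : Fin n → ℝ) (x : Fin n → ℝ) : ℝ := c₀ * (t - ∑ i, x i) + ∑ i, c i * x i

/-- the points of the simplex with small cosine sums -/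
def Gd (g J0 : ℕ) (δ : ℝ) : Set (Fin g → ℝ) :=
  {x | x ∈ Sx g 1 ∧ ∀ k : ℕ, 1 ≤ k → k ≤ J0 →
    |Lc 1 2 (fun i : Fin g => 2 * Real.cos (k * (Real.pi * (((i : ℕ) + 1 : ℕ) : ℝ) / g))) x| ≤ δ}

/-- the scaling factors -/
noncomputable def al (q g : ℕ) (ρ : ℝ) (j : Fin g) : ℝ :=
  2 * g * Real.sqrt q ^ g * ρ * (if (j : ℕ) + 1 = g then 2 else 1)

end TQ
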