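import Pool.Agent.Lib.MP_021685_agTQ.L0

/-! LEAF L1a (medium, only Mathlib).  Fubini for the simplex.

PROOF.  As in `MP_021685_agTJ/JB4.lean` (`simplex_vol`): `MeasureTheory.volume_preserving_piFinSuccAbove (fun _ => ℝ) 0` identifies `Fin (n+1) → ℝ` with `ℝ × (Fin n → ℝ)`, and `Sx (n+1) t` with `T = {p | 0 ≤ p.1, p.2 ∈ Sx n (t - p.1)}`.
`T` is closed and bounded (all coordinates are in `[0, t]`), so compact, and `f` is integrable on it.  `MeasureTheory.integral_prod` (for the indicator) or `setIntegral_prod`-like; the slice of `T` over `y` is `Sx n (t - y)` if `0 ≤ y ≤ t` and empty otherwise (`Sx n u` is empty for `u < 0`).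
`intervalIntegral.integral_of_le`, `integral_Icc_eq_integral_Ioc`. -/

namespace TQ

open MeasureTheory

private theorem L1a_compact (n : ℕ) (t : ℝ) : IsCompact (Sx n t) := by
  have h1 : Sx n t ⊆ Set.Icc (0 : Fin n → ℝ) (fun _ => t) := by
    rintro x ⟨hx0, hx1⟩
    exact ⟨hx0, fun i => (Finset.single_le_sum (fun j _ => hx0 j) (Finset.mem_univ i)).trans hx1⟩
  have h2 : IsClosed (Sx n t) := by
    have e : Sx n t = (⋂ i, {x : Fin n → ℝ | 0 ≤ x i}) ∩ {x : Fin n → ℝ | ∑ i, x i ≤ t} := by
      ext x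
      simp [Sx]
    rw [e]
    exact (isClosed_iInter fun i => isClosed_le continuous_const (continuous_apply i)).inter
      (isClosed_le (by fun_prop) continuous_const)
  exact isCompact_Icc.of_isClosed_subset h2 h1

private def L1a_T (n : ℕ) (t : ℝ) : Set (ℝ × (Fin n → ℝ)) :=
  {p | 0 ≤ p.1 ∧ (∀ i, 0 ≤ p.2 i) ∧ p.1 + ∑ i, p.2 i ≤ t}

private theorem L1a_Tcompact (n : ℕ) (t : ℝ) : IsCompact (L1a_T n t) := by
  have h1 : L1a_T n t ⊆ Set.Icc ((0 : ℝ), (0 : Fin n → ℝ)) (t, fun _ => t) := by
    rintro p ⟨hy, hx0, hx1⟩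
    have h0 : 0 ≤ ∑ i, p.2 i := Finset.sum_nonneg fun i _ => hx0 i
    refine ⟨⟨hy, hx0⟩, ⟨?_, fun i => ?_⟩⟩
    · show p.1 ≤ t
      linarith
    · show p.2 i ≤ t
      have h2 : p.2 i ≤ ∑ i, p.2 i := Finset.single_le_sum (fun j _ => hx0 j) (Finset.mem_univ i)
      linarith
  have h2 : IsClosed (L1a_T n t) := by
    have e : L1a_T n t = {p : ℝ × (Fin n → ℝ) | 0 ≤ p.1} ∩ ((⋂ i, {p : ℝ × (Fin n → ℝ) | 0 ≤ p.2 i}) ∩
        {p : ℝ × (Fin n → ℝ) | p.1 + ∑ i, p.2 i ≤ t}) := by
      ext p
      simp [L1a_T]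
    rw [e]
    exact (isClosed_le continuous_const continuous_fst).inter
      ((isClosed_iInter fun i => isClosed_le continuous_const (by fun_prop)).inter
        (isClosed_le (by fun_prop) continuous_const))
  exact isCompact_Icc.of_isClosed_subset h2 h1

theorem LB_fubini (n : ℕ) {f : (Fin (n + 1) → ℝ) → ℝ} (hf : Continuous f) {t : ℝ} (ht : 0 ≤ t) :
    ∫ x in Sx (n + 1) t, f x = ∫ y in (0 : ℝ)..t, ∫ x in Sx n (t - y), f (Fin.cons y x) := by
  classical
  let g : ℝ × (Fin n → ℝ) → ℝ := fun p => f (Fin.cons p.1 p.2)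
  have hg : Continuous g := hf.comp (by
    refine continuous_pi fun i => ?_
    refine Fin.cases ?_ (fun j => ?_) i
    · simp only [Fin.cons_zero]
      exact continuous_fst
    · simp only [Fin.cons_succ]
      exact (continuous_apply j).comp continuous_snd)
  have hTm : MeasurableSet (L1a_T n t) := (L1a_Tcompact n t).measurableSet
  have he := volume_preserving_piFinSuccAbove (fun _ : Fin (n + 1) => ℝ) 0
  have hS : Sx (n + 1) t = (MeasurableEquiv.piFinSuccAbove (fun _ : Fin (n + 1) => ℝ) 0) ⁻¹' (L1a_T n t) := by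
    ext x
    simp only [Sx, L1a_T, Set.mem_ofPred_eq, Set.mem_preimage, Fin.forall_fin_succ, Fin.sum_univ_succ,
      MeasurableEquiv.piFinSuccAbove_apply, Fin.insertNthEquiv_symm_apply, Fin.removeNth_apply,
      Fin.zero_succAbove, and_assoc]
  have hfg : ∀ x : Fin (n + 1) → ℝ, f x = g (MeasurableEquiv.piFinSuccAbove (fun _ : Fin (n + 1) => ℝ) 0 x) := by
    intro x
    show f x = f _
    congr 1
    funext i
    refine Fin.cases ?_ (fun j => ?_) i
    · rfl
    · rfl
  have h1 : ∫ x in Sx (n + 1) t, f x = ∫ p in L1a_T n t, g p := by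
    rw [hS]
    have h2 := he.setIntegral_preimage_emb
      (MeasurableEquiv.piFinSuccAbove (fun _ : Fin (n + 1) => ℝ) 0).measurableEmbedding g (L1a_T n t)
    rw [← h2]
    exact integral_congr_ae (Filter.Eventually.of_forall fun x => hfg x)
  have hgi : Integrable ((L1a_T n t).indicator g) (volume.prod volume) := by
    rw [integrable_indicator_iff hTm, ← Measure.volume_eq_prod]
    exact hg.continuousOn.integrableOn_compact (L1a_Tcompact n t)
  rw [h1, ← integral_indicator hTm, Measure.volume_eq_prod, integral_prod _ hgi]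
  have h3 : ∀ y : ℝ, ∫ x : Fin n → ℝ, (L1a_T n t).indicator g (y, x) =
      (Set.Icc 0 t).indicator (fun y => ∫ x in Sx n (t - y), f (Fin.cons y x)) y := by
    intro y
    by_cases hy : y ∈ Set.Icc 0 t
    · rw [Set.indicator_of_mem hy, ← integral_indicator (L1a_compact n (t - y)).measurableSet]
      refine integral_congr_ae (Filter.Eventually.of_forall fun x => ?_)
      show (L1a_T n t).indicator g (y, x) = (Sx n (t - y)).indicator (fun x => f (Fin.cons y x)) x
      by_cases hx : x ∈ Sx n (t - y)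
      · have hx' : (y, x) ∈ L1a_T n t := ⟨hy.1, hx.1, by
          have := hx.2
          show y + ∑ i, x i ≤ t
          linarith⟩
        rw [Set.indicator_of_mem hx, Set.indicator_of_mem hx']
      · have hx' : (y, x) ∉ L1a_T n t := by
          rintro ⟨-, h4, h5⟩
          refine hx ⟨h4, ?_⟩
          have h6 : y + ∑ i, x i ≤ t := h5
          linarith
        rw [Set.indicator_of_notMem hx, Set.indicator_of_notMem hx']
    · rw [Set.indicator_of_notMem hy]
      refine (integral_congr_ae (Filter.Eventually.of_forall fun x => ?_)).trans (integral_zero _ _)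
      show (L1a_T n t).indicator g (y, x) = 0
      refine Set.indicator_of_notMem ?_ _
      rintro ⟨h4, h5, h6⟩
      have h7 : 0 ≤ ∑ i, x i := Finset.sum_nonneg fun i _ => h5 i
      have h8 : y + ∑ i, x i ≤ t := h6
      exact hy ⟨h4, by linarith⟩
  rw [integral_congr_ae (Filter.Eventually.of_forall h3), integral_indicator measurableSet_Icc,
    integral_Icc_eq_integral_Ioc, ← intervalIntegral.integral_of_le ht]

theorem LB_compact (n : ℕ) (t : ℝ) : IsCompact (Sx n t) := by
  exact L1a_compact n t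

end TQ
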