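import Mathlib

/-! LEAF L1c (easy+, Mathlib only).  Three integrals.

PROOF.  `y = t - (t - y)`, so `y (t-y)^n = t (t-y)^n - (t-y)^(n+1)` and `y² (t-y)^n = t² (t-y)^n - 2t (t-y)^(n+1) + (t-y)^(n+2)`; `intervalIntegral.integral_comp_sub_left (fun y => y ^ n) t`, `integral_pow`; `field_simp; ring`. -/

namespace TQ

theorem LB_int0 (n : ℕ) (t : ℝ) : ∫ y in (0 : ℝ)..t, (t - y) ^ n = t ^ (n + 1) / ((n : ℝ) + 1) := by
  have h := intervalIntegral.integral_comp_sub_left (a := 0) (b := t) (fun y => y ^ n) t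
  rw [h, integral_pow]
  simp

private theorem L1c_ii (a : ℝ) (n : ℕ) (t : ℝ) :
    IntervalIntegrable (fun y : ℝ => a * (t - y) ^ n) MeasureTheory.volume 0 t :=
  Continuous.intervalIntegrable (by fun_prop) _ _

theorem LB_int1 (n : ℕ) (t : ℝ) : ∫ y in (0 : ℝ)..t, y * (t - y) ^ n = t ^ (n + 2) / (((n : ℝ) + 1) * ((n : ℝ) + 2)) := by
  have h1 : ∀ y : ℝ, y * (t - y) ^ n = t * (t - y) ^ n - 1 * (t - y) ^ (n + 1) := by
    intro y
    ring
  have h2 : ∫ y in (0 : ℝ)..t, y * (t - y) ^ n =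
      ∫ y in (0 : ℝ)..t, (t * (t - y) ^ n - 1 * (t - y) ^ (n + 1)) := by
    congr 1
    funext y
    exact h1 y
  rw [h2, intervalIntegral.integral_sub (L1c_ii t n t) (L1c_ii 1 (n + 1) t),
    intervalIntegral.integral_const_mul, intervalIntegral.integral_const_mul, LB_int0, LB_int0]
  push_cast
  have e1 : (n : ℝ) + 1 ≠ 0 := by positivity
  have e2 : (n : ℝ) + 2 ≠ 0 := by positivity
  have e3 : (n : ℝ) + 1 + 1 ≠ 0 := by positivity
  field_simp
  ring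

theorem LB_int2 (n : ℕ) (t : ℝ) :
    ∫ y in (0 : ℝ)..t, y ^ 2 * (t - y) ^ n = 2 * t ^ (n + 3) / (((n : ℝ) + 1) * ((n : ℝ) + 2) * ((n : ℝ) + 3)) := by
  have h2 : ∫ y in (0 : ℝ)..t, y ^ 2 * (t - y) ^ n =
      ∫ y in (0 : ℝ)..t, ((t ^ 2 * (t - y) ^ n - (2 * t) * (t - y) ^ (n + 1)) + 1 * (t - y) ^ (n + 2)) := by
    congr 1
    funext y
    ring
  rw [h2, intervalIntegral.integral_add ((L1c_ii _ n t).sub (L1c_ii _ (n + 1) t)) (L1c_ii 1 (n + 2) t),
    intervalIntegral.integral_sub (L1c_ii _ n t) (L1c_ii _ (n + 1) t),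
    intervalIntegral.integral_const_mul, intervalIntegral.integral_const_mul, intervalIntegral.integral_const_mul,
    LB_int0, LB_int0, LB_int0]
  push_cast
  have e1 : (n : ℝ) + 1 ≠ 0 := by positivity
  have e2 : (n : ℝ) + 2 ≠ 0 := by positivity
  have e3 : (n : ℝ) + 3 ≠ 0 := by positivity
  have e4 : (n : ℝ) + 1 + 1 ≠ 0 := by positivity
  have e5 : (n : ℝ) + 2 + 1 ≠ 0 := by positivity
  field_simp
  ring

end TQ
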