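import Pool.Agent.Lib.MP_021685_agTQ.L1a
import Pool.Agent.Lib.MP_021685_agTQ.L1c

/-! LEAF L1b (medium).  The moments of a linear form on the simplex.

PROOF.  Induction on `n`, all three at once (generalizing `t`, `c₀`, `c`).  `n = 0`: the space is one point of volume `1`, `Sx 0 t` is everything, `Lc t c₀ c x = c₀ t`.
STEP: `LB_fubini`.  For `0 ≤ y ≤ t`, `u = t - y`, `a = c 0`, `c' i = c i.succ`, `x = Fin.cons y x'`: `Lc t c₀ c x = a y + Lc u c₀ c' x'` (`Fin.sum_univ_succ`).  Put `S = c₀ + ∑ c' i`, `R = c₀² + ∑ c' i²`.  By the induction hypothesis (all functions are continuous, hence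
integrable on the compact set `Sx n u`, `LB_compact`; `integral_add`, `integral_const_mul`) the inner integrals are `u^n/n!`, `a y u^n/n! + u^(n+1) S/(n+1)!` and `a² y² u^n/n! + 2 a y u^(n+1) S/(n+1)! + u^(n+2) (S² + R)/(n+2)!`.
Integrate over `y` with `LB_int0, LB_int1, LB_int2`: `t^(n+1)/(n+1)!`, `t^(n+2) (a + S)/(n+2)!`, `t^(n+3) (2 a² + 2 a S + S² + R)/(n+3)! = t^(n+3) ((a + S)² + a² + R)/(n+3)!`. -/

namespace TQ

open MeasureTheory

private theorem L1b_cont {n : ℕ} (t c₀ : ℝ) (c : Fin n → ℝ) : Continuous fun x => Lc t c₀ c x := by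
  unfold Lc
  fun_prop

private theorem L1b_cons {n : ℕ} (t c₀ : ℝ) (c : Fin (n + 1) → ℝ) (y : ℝ) (x : Fin n → ℝ) :
    Lc t c₀ c (Fin.cons y x : Fin (n + 1) → ℝ) = c 0 * y + Lc (t - y) c₀ (fun i => c i.succ) x := by
  unfold Lc
  rw [Fin.sum_univ_succ, Fin.sum_univ_succ]
  simp only [Fin.cons_zero, Fin.cons_succ]
  ring

private theorem L1b_cont2 {n : ℕ} (t c₀ : ℝ) (c : Fin n → ℝ) : Continuous fun x => Lc t c₀ c x ^ 2 :=
  (L1b_cont t c₀ c).pow 2

private theorem L1b_contm {n : ℕ} (t c₀ b : ℝ) (c : Fin n → ℝ) : Continuous fun x => b * Lc t c₀ c x :=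
  continuous_const.mul (L1b_cont t c₀ c)

private theorem L1b_conta {n : ℕ} (t c₀ a b : ℝ) (c : Fin n → ℝ) : Continuous fun x => a * 1 + b * Lc t c₀ c x :=
  continuous_const.add (L1b_contm t c₀ b c)

theorem LB_moments (n : ℕ) {t : ℝ} (ht : 0 ≤ t) (c₀ : ℝ) (c : Fin n → ℝ) :
    (∫ _ in Sx n t, (1 : ℝ)) = t ^ n / (n.factorial : ℝ) ∧
    (∫ x in Sx n t, Lc t c₀ c x) = t ^ (n + 1) * (c₀ + ∑ i, c i) / ((n + 1).factorial : ℝ) ∧
    (∫ x in Sx n t, Lc t c₀ c x ^ 2) =
      t ^ (n + 2) * ((c₀ + ∑ i, c i) ^ 2 + (c₀ ^ 2 + ∑ i, c i ^ 2)) / ((n + 2).factorial : ℝ) := by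
  induction n generalizing t with
  | zero =>
    have hS : Sx 0 t = Set.univ := by
      ext x
      simp [Sx, ht]
    have hv : (volume : Measure (Fin 0 → ℝ)) = Measure.dirac (fun i => i.elim0) :=
      Measure.volume_pi_eq_dirac _
    rw [hS, Measure.restrict_univ, hv]
    refine ⟨?_, ?_, ?_⟩
    · rw [integral_dirac]
      simp
    · rw [integral_dirac]
      simp [Lc]
      ring
    · rw [integral_dirac]
      simp [Lc]
      ring
  | succ n ih =>
    have hint : ∀ (u : ℝ) (f : (Fin n → ℝ) → ℝ), Continuous f → IntegrableOn f (Sx n u) := fun u f hf =>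
      hf.continuousOn.integrableOn_compact (LB_compact n u)
    have hS1 : ∑ i, c i = c 0 + ∑ i : Fin n, c i.succ := Fin.sum_univ_succ _
    have hR1 : ∑ i, c i ^ 2 = c 0 ^ 2 + ∑ i : Fin n, c i.succ ^ 2 := Fin.sum_univ_succ _
    rw [hS1, hR1]
    set a := c 0 with ha
    set c' : Fin n → ℝ := fun i => c i.succ with hc'
    set S : ℝ := c₀ + ∑ i : Fin n, c i.succ with hS
    set R : ℝ := c₀ ^ 2 + ∑ i : Fin n, c i.succ ^ 2 with hR
    have i0 : ∀ u : ℝ, 0 ≤ u → (∫ _ in Sx n u, (1 : ℝ)) = u ^ n / (n.factorial : ℝ) := fun u hu => (ih hu c').1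
    have i1 : ∀ u : ℝ, 0 ≤ u → (∫ x in Sx n u, Lc u c₀ c' x) = u ^ (n + 1) * S / ((n + 1).factorial : ℝ) :=
      fun u hu => (ih hu c').2.1
    have i2 : ∀ u : ℝ, 0 ≤ u → (∫ x in Sx n u, Lc u c₀ c' x ^ 2) =
        u ^ (n + 2) * (S ^ 2 + R) / ((n + 2).factorial : ℝ) := fun u hu => (ih hu c').2.2
    have f0 : ((n.factorial : ℕ) : ℝ) ≠ 0 := by exact_mod_cast n.factorial_ne_zero
    have g1 : (((n + 1).factorial : ℕ) : ℝ) = ((n : ℝ) + 1) * (n.factorial : ℝ) := by
      rw [Nat.factorial_succ]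
      push_cast
      ring
    have g2 : (((n + 2).factorial : ℕ) : ℝ) = ((n : ℝ) + 2) * (((n : ℝ) + 1) * (n.factorial : ℝ)) := by
      rw [Nat.factorial_succ (n + 1), Nat.cast_mul, g1]
      push_cast
      ring
    have g3 : (((n + 3).factorial : ℕ) : ℝ) =
        ((n : ℝ) + 3) * (((n : ℝ) + 2) * (((n : ℝ) + 1) * (n.factorial : ℝ))) := by
      rw [Nat.factorial_succ (n + 2), Nat.cast_mul, g2]
      push_cast
      ring
    have p1 : ((n : ℝ) + 1) ≠ 0 := by positivity
    have p2 : ((n : ℝ) + 2) ≠ 0 := by positivity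
    have p3 : ((n : ℝ) + 3) ≠ 0 := by positivity
    refine ⟨?_, ?_, ?_⟩
    · rw [LB_fubini n continuous_const ht]
      have e : ∀ y ∈ Set.uIcc (0 : ℝ) t, (∫ _ in Sx n (t - y), (1 : ℝ)) = (1 / (n.factorial : ℝ)) * (t - y) ^ n := by
        intro y hy
        rw [Set.uIcc_of_le ht] at hy
        rw [i0 (t - y) (sub_nonneg.2 hy.2)]
        ring
      rw [intervalIntegral.integral_congr e, intervalIntegral.integral_const_mul, LB_int0, g1]
      field_simp
    · rw [LB_fubini n (L1b_cont t c₀ c) ht]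
      have e : ∀ y ∈ Set.uIcc (0 : ℝ) t, (∫ x in Sx n (t - y), Lc t c₀ c (Fin.cons y x : Fin (n + 1) → ℝ)) =
          (a / (n.factorial : ℝ)) * (y * (t - y) ^ n) + (S / ((n + 1).factorial : ℝ)) * (t - y) ^ (n + 1) := by
        intro y hy
        rw [Set.uIcc_of_le ht] at hy
        have hu : 0 ≤ t - y := sub_nonneg.2 hy.2
        have e1 : (∫ x in Sx n (t - y), Lc t c₀ c (Fin.cons y x : Fin (n + 1) → ℝ)) =
            ∫ x in Sx n (t - y), ((a * y) * 1 + Lc (t - y) c₀ c' x) := by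
          congr 1
          funext x
          rw [L1b_cons, mul_one]
        rw [e1, integral_add (hint _ _ (by fun_prop)) (hint _ _ (L1b_cont _ _ _)), integral_const_mul, i0 _ hu,
          i1 _ hu]
        ring
      rw [intervalIntegral.integral_congr e, intervalIntegral.integral_add
        (Continuous.intervalIntegrable (by fun_prop) _ _) (Continuous.intervalIntegrable (by fun_prop) _ _),
        intervalIntegral.integral_const_mul, intervalIntegral.integral_const_mul, LB_int0, LB_int1]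
      push_cast
      have e3 : c₀ + (a + ∑ i : Fin n, c i.succ) = a + S := by
        rw [hS]
        ring
      rw [e3]
      have e4 : n + 1 + 1 = n + 2 := rfl
      rw [e4, g2, g1]
      field_simp
      ring
    · rw [LB_fubini n (L1b_cont2 t c₀ c) ht]
      have e : ∀ y ∈ Set.uIcc (0 : ℝ) t, (∫ x in Sx n (t - y), Lc t c₀ c (Fin.cons y x : Fin (n + 1) → ℝ) ^ 2) =
          (a ^ 2 / (n.factorial : ℝ)) * (y ^ 2 * (t - y) ^ n) +
            (2 * a * S / ((n + 1).factorial : ℝ)) * (y * (t - y) ^ (n + 1)) +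
            ((S ^ 2 + R) / ((n + 2).factorial : ℝ)) * (t - y) ^ (n + 2) := by
        intro y hy
        rw [Set.uIcc_of_le ht] at hy
        have hu : 0 ≤ t - y := sub_nonneg.2 hy.2
        have e1 : (∫ x in Sx n (t - y), Lc t c₀ c (Fin.cons y x : Fin (n + 1) → ℝ) ^ 2) =
            ∫ x in Sx n (t - y), ((a ^ 2 * y ^ 2) * 1 + (2 * a * y) * Lc (t - y) c₀ c' x +
              Lc (t - y) c₀ c' x ^ 2) := by
          congr 1
          funext x
          rw [L1b_cons]
          ring
        rw [e1, integral_add (hint _ _ (L1b_conta _ _ _ _ _)) (hint _ _ (L1b_cont2 _ _ _)),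
          integral_add (hint _ _ (by fun_prop)) (hint _ _ (L1b_contm _ _ _ _)),
          integral_const_mul, integral_const_mul, i0 _ hu, i1 _ hu, i2 _ hu]
        ring
      rw [intervalIntegral.integral_congr e, intervalIntegral.integral_add
        (Continuous.intervalIntegrable (by fun_prop) _ _) (Continuous.intervalIntegrable (by fun_prop) _ _),
        intervalIntegral.integral_add
        (Continuous.intervalIntegrable (by fun_prop) _ _) (Continuous.intervalIntegrable (by fun_prop) _ _),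
        intervalIntegral.integral_const_mul, intervalIntegral.integral_const_mul,
        intervalIntegral.integral_const_mul, LB_int0, LB_int1, LB_int2]
      push_cast
      have e3 : (c₀ + (a + ∑ i : Fin n, c i.succ)) ^ 2 + (c₀ ^ 2 + (a ^ 2 + ∑ i : Fin n, c i.succ ^ 2)) =
          (a + S) ^ 2 + (a ^ 2 + R) := by
        rw [hS, hR]
        ring
      rw [e3]
      have e4 : n + 1 + 2 = n + 3 := rfl
      rw [e4, g3, g2, g1]
      field_simp
      ring

end TQ
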