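import Pool.Agent.Lib.MP_021685_agTQ.MD

/-! LEAF M1 (easy+).  The modulus of `PP` at `r exp(i t)`.

PROOF.  `‖∏‖² = ∏ ‖·‖²` (`Complex.norm_prod` or `norm_prod`, `Finset.prod_pow`).  For one factor put `x = cos t`, `v = sin t`, `y = cos θ_j`, `ζ = r (x + i v)` (`Complex.exp_mul_I`): the real part of `1 - 2 y ζ + ζ²` is `1 - 2 y r x + r² (x² - v²)`,
the imaginary part is `-2 y r v + 2 r² x v`; the sum of the squares is `WW r x y` by `v² = 1 - x²` (`Complex.sq_norm`, `Complex.normSq_apply`; then `nlinarith`/`linear_combination (..) * (sin² + cos² = 1)`). -/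

namespace TQ

open Polynomial TI

private theorem M1_factor (y r t : ℝ) :
    ‖(1 : ℂ) - 2 * (y : ℂ) * ((r : ℂ) * Complex.exp ((t : ℂ) * Complex.I)) +
      ((r : ℂ) * Complex.exp ((t : ℂ) * Complex.I)) ^ 2‖ ^ 2 = WW r (Real.cos t) y := by
  have h1 : Complex.exp ((t : ℂ) * Complex.I) = ((Real.cos t : ℝ) : ℂ) + ((Real.sin t : ℝ) : ℂ) * Complex.I := by
    rw [Complex.exp_mul_I, ← Complex.ofReal_cos, ← Complex.ofReal_sin]
  have h2 : (1 : ℂ) - 2 * (y : ℂ) * ((r : ℂ) * Complex.exp ((t : ℂ) * Complex.I)) +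
      ((r : ℂ) * Complex.exp ((t : ℂ) * Complex.I)) ^ 2 =
      ((1 - 2 * y * r * Real.cos t + r ^ 2 * (Real.cos t ^ 2 - Real.sin t ^ 2) : ℝ) : ℂ) +
        ((-2 * y * r * Real.sin t + 2 * r ^ 2 * Real.cos t * Real.sin t : ℝ) : ℂ) * Complex.I := by
    rw [h1]
    push_cast
    linear_combination (-(r : ℂ) ^ 2 * Complex.sin (t : ℂ) ^ 2) * (Complex.I_sq).symm
  rw [h2, Complex.sq_norm, Complex.normSq_add_mul_I]
  unfold WW
  have h3 := Real.sin_sq_add_cos_sq t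
  have h4 : Real.sin t ^ 2 = 1 - Real.cos t ^ 2 := by linarith
  generalize Real.cos t = x at *
  generalize Real.sin t = v at *
  have h5 : (-2 * y * r * v + 2 * r ^ 2 * x * v) ^ 2 = (-2 * y * r + 2 * r ^ 2 * x) ^ 2 * v ^ 2 := by ring
  rw [h5, h4]
  ring

theorem norm_sq_PP {g : ℕ} (θ : Fin g → ℝ) (r t : ℝ) :
    ‖PP θ ((r : ℂ) * Complex.exp ((t : ℂ) * Complex.I))‖ ^ 2 = ∏ j, WW r (Real.cos t) (Real.cos (θ j)) := by
  unfold PP
  rw [norm_prod, ← Finset.prod_pow]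
  exact Finset.prod_congr rfl fun j _ => M1_factor _ _ _

end TQ
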