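import Mathlib

/-! LEAF M10a (medium, Mathlib only).  The gain on one level.

PROOF.  Put `γ = g^(3/5)`, `M = ⌊γ / (20 log g)⌋₊`.  For large `g`: `log g ≥ 1`, `log g ≥ log q`, `γ ≥ 40`, `γ ≤ g/4`, and (as `√q ≥ √2`) `√q^(g/2) ≥ exp(γ/4)`, i.e. `(g/2) log √2 ≥ γ/4`.  `M ≤ γ/20 ≤ g/2`.
Let `m < M`, so `m ≤ γ/(20 log g)`.  (1) `6 (2 g⁸)^m ≤ exp(γ/2)`: the logarithm is `m (log 2 + 8 log g) + log 6 ≤ γ/(20 log g) * 9 log g + 2 ≤ 9γ/20 + γ/20`.  (2) `√q^m ≤ exp(γ/4)`: `m log √q ≤ m log g ≤ γ/20`, so `√q^g exp(-γ/2) = √q^(g-m) √q^m exp(-γ/2) ≤ √q^(g-m) exp(-γ/4)`.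
(3) `1 ≤ √q^(g-m) exp(-γ/4)` as `g - m ≥ g/2`.  So the left side is `≤ 2 √q^(g-m) exp(-γ/4)`. -/

namespace TQ



theorem level_num (q : ℕ) (hq : 2 ≤ q) : ∃ g₀ : ℕ, ∀ g : ℕ, g₀ ≤ g →
    ⌊(g : ℝ) ^ (3 / 5 : ℝ) / (20 * Real.log g)⌋₊ ≤ g ∧
    ∀ m < ⌊(g : ℝ) ^ (3 / 5 : ℝ) / (20 * Real.log g)⌋₊,
      1 + 6 * (2 * (g : ℝ) ^ 8) ^ m * Real.sqrt q ^ g * Real.exp (-((g : ℝ) ^ (3 / 5 : ℝ))) ≤
        5 * (g : ℝ) * Real.sqrt q ^ (g - m) * Real.exp (-((g : ℝ) ^ (3 / 5 : ℝ) / 4)) := by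
  refine ⟨max 1024 q, fun g hg => ?_⟩
  have hg1 : (1024 : ℝ) ≤ g := by exact_mod_cast (le_max_left 1024 q).trans hg
  have hgq : (q : ℝ) ≤ g := by exact_mod_cast (le_max_right 1024 q).trans hg
  have hq' : (2 : ℝ) ≤ q := by exact_mod_cast hq
  have hg0 : (0 : ℝ) < g := by linarith
  have hγ1 : (64 : ℝ) ≤ (g : ℝ) ^ (3 / 5 : ℝ) := by
    have h1 : (64 : ℝ) = (1024 : ℝ) ^ (3 / 5 : ℝ) := by
      rw [show (1024 : ℝ) = (2 : ℝ) ^ (10 : ℝ) by norm_num, ← Real.rpow_mul (by norm_num)]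
      norm_num
    rw [h1]
    exact Real.rpow_le_rpow (by norm_num) hg1 (by norm_num)
  have hγ2 : (g : ℝ) ^ (3 / 5 : ℝ) ≤ g / 16 := by
    have h1 : (16 : ℝ) ≤ (g : ℝ) ^ (2 / 5 : ℝ) := by
      have h2 : (16 : ℝ) = (1024 : ℝ) ^ (2 / 5 : ℝ) := by
        rw [show (1024 : ℝ) = (2 : ℝ) ^ (10 : ℝ) by norm_num, ← Real.rpow_mul (by norm_num)]
        norm_num
      rw [h2]
      exact Real.rpow_le_rpow (by norm_num) hg1 (by norm_num)
    have h3 : (g : ℝ) ^ (3 / 5 : ℝ) * (g : ℝ) ^ (2 / 5 : ℝ) = g := by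
      rw [← Real.rpow_add hg0]
      norm_num
    have h4 : (g : ℝ) ^ (3 / 5 : ℝ) * 16 ≤ (g : ℝ) ^ (3 / 5 : ℝ) * (g : ℝ) ^ (2 / 5 : ℝ) :=
      mul_le_mul_of_nonneg_left h1 (by linarith)
    rw [h3] at h4
    linarith
  set γ : ℝ := (g : ℝ) ^ (3 / 5 : ℝ) with hγ
  have hL : (1 : ℝ) ≤ Real.log g := by
    rw [Real.le_log_iff_exp_le hg0]
    have := Real.exp_one_lt_d9
    linarith
  have hexpL : Real.exp (Real.log g) = g := Real.exp_log hg0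
  set L : ℝ := Real.log g with hLdef
  have hx0 : 0 ≤ γ / (20 * L) := by positivity
  have hx1 : γ / (20 * L) ≤ g := by
    rw [div_le_iff₀ (by positivity)]
    have : (g : ℝ) * 1 ≤ g * L := mul_le_mul_of_nonneg_left hL hg0.le
    linarith
  refine ⟨Nat.floor_le_of_le hx1, fun m hm => ?_⟩
  have hm1 : (m : ℝ) ≤ γ / (20 * L) := by
    have h1 : ((m : ℕ) : ℝ) ≤ (⌊γ / (20 * L)⌋₊ : ℝ) := by exact_mod_cast hm.le
    exact h1.trans (Nat.floor_le hx0)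
  have hm2 : (m : ℝ) * L ≤ γ / 20 := by
    rw [le_div_iff₀ (by positivity)] at hm1
    linarith
  have hm0 : (0 : ℝ) ≤ m := Nat.cast_nonneg m
  have hm3 : (m : ℝ) ≤ γ / 20 := by
    have : (m : ℝ) * 1 ≤ m * L := mul_le_mul_of_nonneg_left hL hm0
    linarith
  have hmg : m ≤ g := by
    have : (m : ℝ) ≤ g := by linarith
    exact_mod_cast this
  have hsub : ((g - m : ℕ) : ℝ) = (g : ℝ) - m := Nat.cast_sub hmg
  -- the first factor
  have e1 : 6 * (2 * (g : ℝ) ^ 8) ^ m ≤ Real.exp (γ / 2) := by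
    have h1 : 2 * (g : ℝ) ^ 8 ≤ Real.exp (9 * L) := by
      have h2 : Real.exp (9 * L) = (g : ℝ) ^ 9 := by
        rw [show (9 : ℝ) * L = ((9 : ℕ) : ℝ) * L by norm_num, Real.exp_nat_mul, hexpL]
      rw [h2]
      have h3 : (0 : ℝ) ≤ (g : ℝ) ^ 8 := by positivity
      have h4 : (2 : ℝ) * (g : ℝ) ^ 8 ≤ g * (g : ℝ) ^ 8 := mul_le_mul_of_nonneg_right (by linarith) h3
      calc (2 : ℝ) * (g : ℝ) ^ 8 ≤ g * (g : ℝ) ^ 8 := h4
        _ = (g : ℝ) ^ 9 := by ring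
    have h5 : (2 * (g : ℝ) ^ 8) ^ m ≤ Real.exp (9 * γ / 20) := by
      calc (2 * (g : ℝ) ^ 8) ^ m ≤ (Real.exp (9 * L)) ^ m := pow_le_pow_left₀ (by positivity) h1 m
        _ = Real.exp ((m : ℝ) * (9 * L)) := (Real.exp_nat_mul _ _).symm
        _ ≤ Real.exp (9 * γ / 20) := Real.exp_le_exp.2 (by linarith)
    have h6 : (6 : ℝ) ≤ Real.exp 2 := by
      have h7 : Real.exp 2 = Real.exp 1 * Real.exp 1 := by
        rw [← Real.exp_add]
        norm_num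
      have h8 := Real.exp_one_gt_d9
      rw [h7]
      nlinarith
    calc 6 * (2 * (g : ℝ) ^ 8) ^ m ≤ Real.exp 2 * Real.exp (9 * γ / 20) :=
          mul_le_mul h6 h5 (by positivity) (Real.exp_pos _).le
      _ = Real.exp (2 + 9 * γ / 20) := (Real.exp_add _ _).symm
      _ ≤ Real.exp (γ / 2) := Real.exp_le_exp.2 (by linarith)
  have hs0 : (0 : ℝ) ≤ Real.sqrt q := Real.sqrt_nonneg _
  -- the second factor
  have e2 : Real.sqrt q ^ m ≤ Real.exp (γ / 4) := by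
    have h1 : Real.sqrt q ≤ Real.exp L := by
      rw [hexpL]
      refine le_trans ?_ hgq
      rw [Real.sqrt_le_iff]
      exact ⟨by linarith, by nlinarith⟩
    calc Real.sqrt q ^ m ≤ (Real.exp L) ^ m := pow_le_pow_left₀ hs0 h1 m
      _ = Real.exp ((m : ℝ) * L) := (Real.exp_nat_mul _ _).symm
      _ ≤ Real.exp (γ / 4) := Real.exp_le_exp.2 (by linarith)
  -- the constant one
  have e3 : Real.exp (γ / 4) ≤ Real.sqrt q ^ (g - m) := by
    have h1 : Real.exp (1 / 4) ≤ Real.sqrt q := by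
      rw [Real.le_sqrt' (Real.exp_pos _)]
      have h2 : Real.exp (1 / 4) ^ 2 = Real.exp (1 / 2) := by
        rw [← Real.exp_nat_mul]
        norm_num
      have h3 : Real.exp (1 / 2) ≤ 2 := by
        rw [← Real.le_log_iff_exp_le (by norm_num)]
        have := Real.log_two_gt_d9
        linarith
      rw [h2]
      linarith
    calc Real.exp (γ / 4) ≤ Real.exp (((g - m : ℕ) : ℝ) * (1 / 4)) := by
          refine Real.exp_le_exp.2 ?_
          rw [hsub]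
          linarith
      _ = Real.exp (1 / 4) ^ (g - m) := Real.exp_nat_mul _ _
      _ ≤ Real.sqrt q ^ (g - m) := pow_le_pow_left₀ (Real.exp_pos _).le h1 _
  have hsplit : Real.sqrt q ^ g = Real.sqrt q ^ (g - m) * Real.sqrt q ^ m := by
    rw [← pow_add, Nat.sub_add_cancel hmg]
  set W : ℝ := Real.sqrt q ^ (g - m) with hW
  have hW0 : 0 < W := lt_of_lt_of_le (Real.exp_pos _) e3
  have e4 : 1 ≤ W * Real.exp (-(γ / 4)) := by
    rw [Real.exp_neg, ← div_eq_mul_inv, one_le_div (Real.exp_pos _)]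
    exact e3
  have e5 : 6 * (2 * (g : ℝ) ^ 8) ^ m * Real.sqrt q ^ g * Real.exp (-γ) ≤ W * Real.exp (-(γ / 4)) := by
    rw [hsplit]
    calc 6 * (2 * (g : ℝ) ^ 8) ^ m * (W * Real.sqrt q ^ m) * Real.exp (-γ)
        ≤ Real.exp (γ / 2) * (W * Real.exp (γ / 4)) * Real.exp (-γ) := by
          refine mul_le_mul_of_nonneg_right ?_ (Real.exp_pos _).le
          exact mul_le_mul e1 (mul_le_mul_of_nonneg_left e2 hW0.le) (by positivity) (Real.exp_pos _).le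
      _ = W * (Real.exp (γ / 2) * Real.exp (γ / 4) * Real.exp (-γ)) := by ring
      _ = W * Real.exp (-(γ / 4)) := by
          rw [← Real.exp_add, ← Real.exp_add]
          congr 2
          ring
  have hg5 : (5 : ℝ) * g * W * Real.exp (-(γ / 4)) = 5 * g * (W * Real.exp (-(γ / 4))) := by ring
  rw [hg5]
  have h9 : (0 : ℝ) ≤ W * Real.exp (-(γ / 4)) := by positivity
  have h10 : 2 * (W * Real.exp (-(γ / 4))) ≤ 5 * g * (W * Real.exp (-(γ / 4))) :=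
    mul_le_mul_of_nonneg_right (by linarith) h9
  linarith

end TQ
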