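import Pool.Agent.Lib.MP_021685_agTQ.MD
import Pool.Agent.Lib.MP_021685_agTI.A3b

/-! LEAF M4 (easy+).  The trivial bound for the first different coefficient.

PROOF.  `TI.newton` with `k = g - 1 - m` (`i < k` gives `g - 1 - i > m`; `g - 1 - k = m`, `k + 1 = g - m`): `(√q)^(g-m) (mom θ (g-m) - mom θ' (g-m)) = -(g - m) (h.coeff m - h'.coeff m)`; `|mom θ n| ≤ 2 g` (`|cos| ≤ 1`), and `g - m ≥ 1`. -/

namespace TQ

open Polynomial TI

private theorem M4_mom {g : ℕ} (θ : Fin g → ℝ) (k : ℕ) : |mom θ k| ≤ 2 * (g : ℝ) := by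
  unfold mom
  refine (Finset.abs_sum_le_sum_abs _ _).trans ?_
  refine (Finset.sum_le_card_nsmul _ _ 2 fun j _ => ?_).trans ?_
  · rw [abs_mul, abs_two]
    have := Real.abs_cos_le_one (k * θ j)
    linarith
  · rw [Finset.card_univ, Fintype.card_fin, nsmul_eq_mul]
    linarith

theorem coeff_diff {q g : ℕ} (hq : 1 ≤ q) {h h' : ℤ[X]} {θ θ' : Fin g → ℝ} (hθ : IsAngles q h θ)
    (hθ' : IsAngles q h' θ') {m : ℕ} (hm : m < g) (he : ∀ i, m < i → h.coeff i = h'.coeff i) :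
    |((h.coeff m : ℤ) : ℝ) - ((h'.coeff m : ℤ) : ℝ)| ≤ 4 * (g : ℝ) * Real.sqrt q ^ (g - m) := by
  obtain ⟨-, hn⟩ := newton hq hθ hθ' (k := g - 1 - m) (by omega) fun i hi => he _ (by omega)
  have e1 : g - 1 - (g - 1 - m) = m := by omega
  have e2 : g - 1 - m + 1 = g - m := by omega
  rw [e1, e2] at hn
  have h1 := M4_mom θ (g - m)
  have h2 := M4_mom θ' (g - m)
  have h3 : |mom θ (g - m) - mom θ' (g - m)| ≤ 4 * (g : ℝ) := by
    rw [abs_le] at h1 h2 ⊢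
    constructor <;> linarith
  have h4 : (0 : ℝ) ≤ Real.sqrt q ^ (g - m) := pow_nonneg (Real.sqrt_nonneg _) _
  have h5 := congrArg abs hn
  rw [abs_mul, abs_mul, abs_of_nonneg h4, abs_neg] at h5
  have h6 : (0 : ℝ) ≤ ((g - 1 - m : ℕ) : ℝ) := Nat.cast_nonneg _
  rw [abs_of_nonneg (by linarith : (0 : ℝ) ≤ ((g - 1 - m : ℕ) : ℝ) + 1)] at h5
  have h7 := abs_nonneg (((h.coeff m : ℤ) : ℝ) - ((h'.coeff m : ℤ) : ℝ))
  have h8 : |((h.coeff m : ℤ) : ℝ) - ((h'.coeff m : ℤ) : ℝ)| ≤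
      (((g - 1 - m : ℕ) : ℝ) + 1) * |((h.coeff m : ℤ) : ℝ) - ((h'.coeff m : ℤ) : ℝ)| := by
    nlinarith
  refine h8.trans ?_
  rw [← h5]
  nlinarith [mul_le_mul_of_nonneg_left h3 h4]

end TQ
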