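import Pool.Agent.Lib.MP_021685_agTQ.MD

/-! LEAF M6 (easy).  The value of a real Weil polynomial at `2√q c`.

PROOF.  By `hθ` the value is `∏_j (2√q c - 2√q cos θ_j)` (`Polynomial.eval_prod`), its square is `∏_j q * 4 (c - cos θ_j)²` (`Real.sq_sqrt`, `Finset.prod_pow`, `Finset.prod_mul_distrib`, `Finset.prod_const`, `Finset.card_fin`). -/

namespace TQ

open Polynomial TI

theorem eval_sq {q g : ℕ} {h : ℤ[X]} {θ : Fin g → ℝ} (hθ : IsAngles q h θ) (c : ℝ) :
    ((h.map (Int.castRingHom ℝ)).eval (2 * Real.sqrt q * c)) ^ 2 =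
      (q : ℝ) ^ g * ∏ j, 4 * (c - Real.cos (θ j)) ^ 2 := by
  have h1 : h.map (Int.castRingHom ℝ) = ∏ j, (X - C (2 * Real.sqrt q * Real.cos (θ j))) := hθ
  rw [h1, eval_prod, ← Finset.prod_pow]
  have h2 : ∀ j, (eval (2 * Real.sqrt q * c) (X - C (2 * Real.sqrt q * Real.cos (θ j)))) ^ 2 =
      (q : ℝ) * (4 * (c - Real.cos (θ j)) ^ 2) := by
    intro j
    rw [eval_sub, eval_X, eval_C, ← mul_sub, mul_pow, mul_pow, Real.sq_sqrt (Nat.cast_nonneg q)]
    ring
  rw [Finset.prod_congr rfl fun j _ => h2 j, Finset.prod_mul_distrib, Finset.prod_const,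
    Finset.card_univ, Fintype.card_fin]

end TQ
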