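import Pool.Agent.Lib.MP_021685_agTQ.M2

/-! LEAF M7 (medium).  The products over two nearby lists of roots.

PROOF.  `r = ta g = (1 - 1/g²) exp(-1/(10g))`; for large `g`: `1/2 ≤ r ≤ 1` and `1 - r ≥ 1 - exp(-1/(10g)) ≥ 1/(20 g)` (`exp(-x) ≤ 1 - x/2` for `0 ≤ x ≤ 1`), so `(1-r)⁴ ≥ 1/(160000 g⁴)`.  `WW_near` with `η = 1/g`, `δ = 1/g⁴`: its hypothesis is `4 (1 + g)/g⁸ ≤ 1/(160000 g⁴)`, true for `g ≥ 100`.
By `WW_lip` and `WW_lower` (`WW r c₀ y ≥ (1-r)⁴`): `WW r c y ≤ WW r c₀ y + 18/g⁷ ≤ (1 + 2880000/g³) WW r c₀ y`.  So each factor satisfies `4 (c - y')² ≤ (1 + 1/g) / r² * (1 + 2880000/g³) * WW r c₀ y`, `Finset.prod_le_prod`, `Finset.prod_mul_distrib`, `Finset.prod_const`: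
the constant is `((1 + 1/g) r⁻² (1 + 2880000/g³))^g ≤ exp(1) * exp(1/5 + 4/g) * exp(2880000/g²) ≤ exp 2` for `g ≥ 6000` (`1 + x ≤ exp x`; `r⁻² = (1 - 1/g²)⁻² exp(1/(5g))`, `1/(1-x) ≤ exp(2x)` for `0 ≤ x ≤ 1/2`). -/

namespace TQ

open Polynomial TI

private theorem m7_bounds {G : ℝ} (hG : 6000 ≤ G) :
    1 / 2 ≤ (1 - 1 / G ^ 2) * Real.exp (-(1 / (10 * G))) ∧
    (1 - 1 / G ^ 2) * Real.exp (-(1 / (10 * G))) ≤ 1 - 1 / (20 * G) ∧
    1 ≤ Real.exp (2 / G ^ 2 + 1 / (10 * G)) * ((1 - 1 / G ^ 2) * Real.exp (-(1 / (10 * G)))) := by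
  have hG0 : 0 < G := by linarith
  have hG2 : 0 < G ^ 2 := by positivity
  have hu : 1 / G ^ 2 ≤ 1 / 4 := by
    rw [div_le_div_iff₀ hG2 (by norm_num)]
    nlinarith
  have hu0 : 0 ≤ 1 / G ^ 2 := by positivity
  set u : ℝ := 1 / G ^ 2 with hu_def
  set x : ℝ := 1 / (10 * G) with hx_def
  have hx0 : 0 ≤ x := by rw [hx_def]; positivity
  have hx1 : x ≤ 1 / 4 := by
    rw [hx_def, div_le_div_iff₀ (by positivity) (by norm_num)]
    linarith
  have he1 : 1 - x ≤ Real.exp (-x) := by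
    have := Real.add_one_le_exp (-x)
    linarith
  have he2 : Real.exp (-x) ≤ 1 - x / 2 := by
    have h1 : 1 + x ≤ Real.exp x := by
      have := Real.add_one_le_exp x
      linarith
    have h2 : Real.exp (-x) * Real.exp x = 1 := by
      rw [← Real.exp_add]
      simp
    have h3 : 0 < Real.exp (-x) := Real.exp_pos _
    have h4 : Real.exp (-x) * (1 + x) ≤ 1 :=
      le_trans (mul_le_mul_of_nonneg_left h1 h3.le) h2.le
    nlinarith
  refine ⟨?_, ?_, ?_⟩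
  · have : (1 - 1 / 4) * (1 - 1 / 4) ≤ (1 - u) * Real.exp (-x) := by
      apply mul_le_mul _ _ (by norm_num) (by linarith)
      · linarith
      · linarith
    linarith
  · have h20 : 1 / (20 * G) = x / 2 := by
      rw [hx_def]
      field_simp
      norm_num
    rw [h20]
    have : (1 - u) * Real.exp (-x) ≤ 1 * Real.exp (-x) :=
      mul_le_mul_of_nonneg_right (by linarith) (Real.exp_pos _).le
    linarith
  · have h2u : 2 / G ^ 2 = 2 * u := by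
      rw [hu_def]
      ring
    rw [h2u, Real.exp_add]
    have h2 : Real.exp x * Real.exp (-x) = 1 := by
      rw [← Real.exp_add]
      simp
    have h3 : 1 + 2 * u ≤ Real.exp (2 * u) := by
      have := Real.add_one_le_exp (2 * u)
      linarith
    have h4 : Real.exp (2 * u) * Real.exp x * ((1 - u) * Real.exp (-x)) = Real.exp (2 * u) * (1 - u) := by
      calc Real.exp (2 * u) * Real.exp x * ((1 - u) * Real.exp (-x))
          = Real.exp (2 * u) * (1 - u) * (Real.exp x * Real.exp (-x)) := by ring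
        _ = _ := by rw [h2, mul_one]
    rw [h4]
    have h5 : (1 + 2 * u) * (1 - u) ≤ Real.exp (2 * u) * (1 - u) :=
      mul_le_mul_of_nonneg_right h3 (by linarith)
    nlinarith

private theorem m7_const {G r : ℝ} {g : ℕ} (hg : (g : ℝ) = G) (hG : 6000 ≤ G) (hr : 0 < r)
    (h : 1 ≤ Real.exp (2 / G ^ 2 + 1 / (10 * G)) * r) :
    ((1 + 1 / G) / r ^ 2 * (1 + 2880000 / G ^ 3)) ^ g ≤ Real.exp 2 := by
  have hG0 : 0 < G := by linarith
  have h1 : 1 + 1 / G ≤ Real.exp (1 / G) := by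
    have := Real.add_one_le_exp (1 / G)
    linarith
  have h2 : 1 + 2880000 / G ^ 3 ≤ Real.exp (2880000 / G ^ 3) := by
    have := Real.add_one_le_exp (2880000 / G ^ 3)
    linarith
  have h3 : 1 / r ^ 2 ≤ Real.exp (2 / G ^ 2 + 1 / (10 * G)) ^ 2 := by
    rw [div_le_iff₀ (by positivity), ← mul_pow]
    exact one_le_pow₀ h
  have h4 : (1 + 1 / G) / r ^ 2 * (1 + 2880000 / G ^ 3) ≤
      Real.exp (1 / G) * Real.exp (2 / G ^ 2 + 1 / (10 * G)) ^ 2 * Real.exp (2880000 / G ^ 3) := by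
    apply mul_le_mul _ h2 (by positivity) (by positivity)
    calc (1 + 1 / G) / r ^ 2 = (1 + 1 / G) * (1 / r ^ 2) := by ring
      _ ≤ _ := mul_le_mul h1 h3 (by positivity) (by positivity)
  have h5 : Real.exp (1 / G) * Real.exp (2 / G ^ 2 + 1 / (10 * G)) ^ 2 * Real.exp (2880000 / G ^ 3) =
      Real.exp (1 / G + 2 * (2 / G ^ 2 + 1 / (10 * G)) + 2880000 / G ^ 3) := by
    have e2 : Real.exp (2 / G ^ 2 + 1 / (10 * G)) ^ 2 = Real.exp (2 * (2 / G ^ 2 + 1 / (10 * G))) := by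
      rw [← Real.exp_nat_mul]
      norm_num
    rw [e2, ← Real.exp_add, ← Real.exp_add]
  calc ((1 + 1 / G) / r ^ 2 * (1 + 2880000 / G ^ 3)) ^ g
      ≤ (Real.exp (1 / G + 2 * (2 / G ^ 2 + 1 / (10 * G)) + 2880000 / G ^ 3)) ^ g := by
        rw [← h5]
        exact pow_le_pow_left₀ (by positivity) h4 g
    _ = Real.exp ((g : ℝ) * (1 / G + 2 * (2 / G ^ 2 + 1 / (10 * G)) + 2880000 / G ^ 3)) := by
        rw [← Real.exp_nat_mul]
    _ ≤ Real.exp 2 := by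
        apply Real.exp_le_exp.mpr
        rw [hg]
        have e : G * (1 / G + 2 * (2 / G ^ 2 + 1 / (10 * G)) + 2880000 / G ^ 3) =
            6 / 5 + 4 / G + 2880000 / G ^ 2 := by
          field_simp
          ring
        rw [e]
        have e1 : 4 / G ≤ 1 / 10 := by
          rw [div_le_div_iff₀ hG0 (by norm_num)]
          linarith
        have e2 : 2880000 / G ^ 2 ≤ 1 / 10 := by
          rw [div_le_div_iff₀ (by positivity) (by norm_num)]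
          nlinarith
        linarith

theorem near_prod : ∃ g₀ : ℕ, ∀ g : ℕ, g₀ ≤ g → ∀ y y' : Fin g → ℝ, (∀ j, |y j| ≤ 1) →
    (∀ j, |y j - y' j| ≤ 1 / (g : ℝ) ^ 4) → ∀ c₀ c : ℝ, |c₀| ≤ 1 → |c| ≤ 1 → |c - c₀| ≤ 1 / (g : ℝ) ^ 7 →
      ∏ j, 4 * (c - y' j) ^ 2 ≤ Real.exp 2 * ∏ j, WW (ta g) c₀ (y j) := by
  refine ⟨6000, fun g hg y y' hy hyy c₀ c hc₀ hc hcc => ?_⟩
  have hG : (6000 : ℝ) ≤ (g : ℝ) := by exact_mod_cast hg
  have hG0 : (0 : ℝ) < (g : ℝ) := by linarith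
  obtain ⟨hr, hr2, hr3⟩ := m7_bounds hG
  have hta : ta g = (1 - 1 / (g : ℝ) ^ 2) * Real.exp (-(1 / (10 * (g : ℝ)))) := rfl
  rw [← hta] at hr hr2 hr3
  set r : ℝ := ta g with hr_def
  have hr0 : 0 < r := by linarith
  have hx0 : 0 < 1 / (20 * (g : ℝ)) := by positivity
  have hr1 : r ≤ 1 := by linarith
  have h4 : 1 / (160000 * (g : ℝ) ^ 4) ≤ (1 - r) ^ 4 := by
    have e : 1 / (160000 * (g : ℝ) ^ 4) = (1 / (20 * (g : ℝ))) ^ 4 := by
      field_simp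
      norm_num
    rw [e]
    exact pow_le_pow_left₀ hx0.le (by linarith) 4
  have hδ2 : 4 * (1 + 1 / (1 / (g : ℝ))) * (1 / (g : ℝ) ^ 4) ^ 2 ≤ (1 - r) ^ 4 := by
    refine le_trans ?_ h4
    have e : 4 * (1 + 1 / (1 / (g : ℝ))) * (1 / (g : ℝ) ^ 4) ^ 2 = 4 * (1 + (g : ℝ)) / (g : ℝ) ^ 8 := by
      field_simp
    rw [e, div_le_div_iff₀ (by positivity) (by positivity)]
    have hg3 : (640000 : ℝ) * (1 + (g : ℝ)) ≤ (g : ℝ) ^ 4 := by
      have a1 : (6000 : ℝ) ^ 3 ≤ (g : ℝ) ^ 3 := pow_le_pow_left₀ (by norm_num) hG 3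
      nlinarith
    calc 4 * (1 + (g : ℝ)) * (160000 * (g : ℝ) ^ 4) = (640000 * (1 + (g : ℝ))) * (g : ℝ) ^ 4 := by ring
      _ ≤ (g : ℝ) ^ 4 * (g : ℝ) ^ 4 := mul_le_mul_of_nonneg_right hg3 (by positivity)
      _ = 1 * (g : ℝ) ^ 8 := by ring
  have hfac : ∀ j, 4 * (c - y' j) ^ 2 ≤
      ((1 + 1 / (g : ℝ)) / r ^ 2 * (1 + 2880000 / (g : ℝ) ^ 3)) * WW r c₀ (y j) := by
    intro j
    have a1 := WW_near (r := r) (c := c) (y := y j) (y' := y' j) (η := 1 / (g : ℝ))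
      (δ := 1 / (g : ℝ) ^ 4) hr hr1 hc (hy j) (by positivity) (hyy j) hδ2
    have a2 := WW_lip (r := r) (c := c) (c' := c₀) (y := y j) hr0.le hr1 hc hc₀ (hy j)
    have a3 := WW_lower (r := r) (c := c₀) (y := y j) hr hr1 hc₀ (hy j)
    have a4 : 1 / (160000 * (g : ℝ) ^ 4) ≤ WW r c₀ (y j) := by
      have : 0 ≤ 4 * r ^ 2 * (c₀ - y j) ^ 2 := by positivity
      linarith
    have a5 : 18 * |c - c₀| ≤ 2880000 / (g : ℝ) ^ 3 * WW r c₀ (y j) := by
      calc 18 * |c - c₀| ≤ 18 * (1 / (g : ℝ) ^ 7) := by linarith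
        _ = 2880000 / (g : ℝ) ^ 3 * (1 / (160000 * (g : ℝ) ^ 4)) := by
            field_simp
            norm_num
        _ ≤ _ := mul_le_mul_of_nonneg_left a4 (by positivity)
    calc 4 * (c - y' j) ^ 2 ≤ (1 + 1 / (g : ℝ)) / r ^ 2 * WW r c (y j) := a1
      _ ≤ (1 + 1 / (g : ℝ)) / r ^ 2 * ((1 + 2880000 / (g : ℝ) ^ 3) * WW r c₀ (y j)) := by
          apply mul_le_mul_of_nonneg_left _ (by positivity)
          linarith
      _ = _ := by ring
  have hW : 0 ≤ ∏ j, WW r c₀ (y j) := by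
    apply Finset.prod_nonneg
    intro j _
    have a3 := WW_lower (r := r) (c := c₀) (y := y j) hr hr1 hc₀ (hy j)
    have : 0 ≤ 4 * r ^ 2 * (c₀ - y j) ^ 2 + (1 - r) ^ 4 := by positivity
    linarith
  calc ∏ j, 4 * (c - y' j) ^ 2
      ≤ ∏ j, ((1 + 1 / (g : ℝ)) / r ^ 2 * (1 + 2880000 / (g : ℝ) ^ 3)) * WW r c₀ (y j) :=
        Finset.prod_le_prod (fun j _ => by positivity) (fun j _ => hfac j)
    _ = ((1 + 1 / (g : ℝ)) / r ^ 2 * (1 + 2880000 / (g : ℝ) ^ 3)) ^ g * ∏ j, WW r c₀ (y j) := by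
        rw [Finset.prod_mul_distrib]
        simp
    _ ≤ Real.exp 2 * ∏ j, WW r c₀ (y j) :=
        mul_le_mul_of_nonneg_right (m7_const rfl hG hr0 hr3) hW

end TQ
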