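import Pool.Agent.Lib.MP_021685_agTQ.M5
import Pool.Agent.Lib.MP_021685_agTQ.M6
import Pool.Agent.Lib.MP_021685_agTQ.M7

/-! LEAF M9 (medium+).  The first different coefficient in a class with a low point.

PROOF.  `g₀` from `near_prod` (and `g₀ ≥ 1`).  Let `s = √q ≥ 1`, `ε = 1` if `c₀ ≥ 0`, `ε = -1` otherwise, `c_i = c₀ - ε i / g⁸` for `i ≤ m < g`: `|c_i| ≤ 1` (as `i/g⁸ ≤ 1`, one moves towards `0`) and `|c_i - c₀| ≤ 1/g⁷`.  By `eval_sq` and `near_prod` (with `y`, `y' = cos ∘ θ`):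
`h(2 s c_i)² ≤ q^g exp(2) exp(-2 g^(3/5))`, so `|h(2 s c_i)| ≤ s^g exp(1) exp(-g^(3/5))` (`abs_le_of_sq_le_sq`), the same for `h'`.  `u = (h - h').map (Int.castRingHom ℝ)` has degree `≤ m` (all coefficients of index `> m` vanish), `|u| ≤ 2 exp(1) s^g exp(-g^(3/5)) ≤ 6 s^g exp(-g^(3/5))` at
`2 s c_i = 2 s c₀ + i σ`, `σ = -2 s ε / g⁸`, `|σ| ≥ 1/g⁸`.  `lead_le`: `|u.coeff m| |σ|^m ≤ 2^m * 6 s^g exp(-g^(3/5))`, and `1 ≤ |σ|^m (g⁸)^m`. -/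

namespace TQ

open Polynomial TI

theorem class_coeff : ∃ g₀ : ℕ, ∀ g : ℕ, g₀ ≤ g → ∀ q : ℕ, 1 ≤ q → ∀ y : Fin g → ℝ, (∀ j, |y j| ≤ 1) →
    ∀ c₀ : ℝ, |c₀| ≤ 1 → ∏ i, WW (ta g) c₀ (y i) ≤ Real.exp (-(2 * (g : ℝ) ^ (3 / 5 : ℝ))) →
    ∀ (h h' : ℤ[X]) (θ θ' : Fin g → ℝ), IsAngles q h θ → IsAngles q h' θ' →
      (∀ j, |y j - Real.cos (θ j)| ≤ 1 / (g : ℝ) ^ 4) → (∀ j, |y j - Real.cos (θ' j)| ≤ 1 / (g : ℝ) ^ 4) →
      ∀ m < g, (∀ i, m < i → h.coeff i = h'.coeff i) →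
        |((h.coeff m : ℤ) : ℝ) - ((h'.coeff m : ℤ) : ℝ)| ≤
          6 * (2 * (g : ℝ) ^ 8) ^ m * Real.sqrt q ^ g * Real.exp (-((g : ℝ) ^ (3 / 5 : ℝ))) := by
  obtain ⟨g₁, hg₁⟩ := near_prod
  refine ⟨max g₁ 1, ?_⟩
  intro g hg q hq y hy c₀ hc₀ hprod h h' θ θ' hθ hθ' hyθ hyθ' m hm hcoef
  have hg1 : g₁ ≤ g := le_trans (le_max_left _ _) hg
  have hg2 : 1 ≤ g := le_trans (le_max_right _ _) hg
  have hgR : (1 : ℝ) ≤ (g : ℝ) := by exact_mod_cast hg2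
  have hgpos : (0 : ℝ) < (g : ℝ) := by linarith
  have hg8 : (1 : ℝ) ≤ (g : ℝ) ^ 8 := one_le_pow₀ hgR
  have hg8pos : (0 : ℝ) < (g : ℝ) ^ 8 := by linarith
  have hqR : (1 : ℝ) ≤ (q : ℝ) := by exact_mod_cast hq
  obtain ⟨s, hs⟩ : ∃ s : ℝ, Real.sqrt (q : ℝ) = s := ⟨_, rfl⟩
  have hs1 : 1 ≤ s := by
    rw [← hs, Real.one_le_sqrt]
    exact hqR
  have hs2 : s ^ 2 = (q : ℝ) := by
    rw [← hs]
    exact Real.sq_sqrt (by linarith)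
  obtain ⟨E, hE⟩ : ∃ E : ℝ, Real.exp (-((g : ℝ) ^ (3 / 5 : ℝ))) = E := ⟨_, rfl⟩
  have hEpos : 0 < E := by
    rw [← hE]
    exact Real.exp_pos _
  have hE2 : Real.exp (-(2 * (g : ℝ) ^ (3 / 5 : ℝ))) = E ^ 2 := by
    rw [← hE, ← Real.exp_nat_mul]
    congr 1
    push_cast
    ring
  obtain ⟨ε, hε, hεc⟩ : ∃ ε : ℝ, |ε| = 1 ∧ ∀ t : ℝ, 0 ≤ t → t ≤ 1 → |c₀ - ε * t| ≤ 1 := by
    rcases le_total 0 c₀ with h0 | h0
    · refine ⟨1, abs_one, fun t ht ht1 => ?_⟩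
      rw [abs_le] at hc₀ ⊢
      constructor <;> linarith [hc₀.1, hc₀.2]
    · refine ⟨-1, by rw [abs_neg, abs_one], fun t ht ht1 => ?_⟩
      rw [abs_le] at hc₀ ⊢
      constructor <;> linarith [hc₀.1, hc₀.2]
  have hi : ∀ i : ℕ, i ≤ m → (0 : ℝ) ≤ (i : ℝ) / (g : ℝ) ^ 8 ∧ (i : ℝ) / (g : ℝ) ^ 8 ≤ 1 / (g : ℝ) ^ 7 ∧
      (i : ℝ) / (g : ℝ) ^ 8 ≤ 1 := by
    intro i him
    have h1 : (i : ℝ) ≤ (g : ℝ) := by
      have : i ≤ g := by omega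
      exact_mod_cast this
    have h2 : (0 : ℝ) ≤ (i : ℝ) := Nat.cast_nonneg i
    have h3 : (i : ℝ) / (g : ℝ) ^ 8 ≤ 1 / (g : ℝ) ^ 7 := by
      rw [div_le_div_iff₀ hg8pos (by positivity)]
      calc (i : ℝ) * (g : ℝ) ^ 7 ≤ (g : ℝ) * (g : ℝ) ^ 7 := mul_le_mul_of_nonneg_right h1 (by positivity)
        _ = 1 * (g : ℝ) ^ 8 := by ring
    have h4 : 1 / (g : ℝ) ^ 7 ≤ 1 := by
      rw [div_le_one (by positivity)]
      exact one_le_pow₀ hgR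
    exact ⟨by positivity, h3, le_trans h3 h4⟩
  have key : ∀ (f : ℤ[X]) (φ : Fin g → ℝ), IsAngles q f φ → (∀ j, |y j - Real.cos (φ j)| ≤ 1 / (g : ℝ) ^ 4) →
      ∀ i : ℕ, i ≤ m →
        |(f.map (Int.castRingHom ℝ)).eval (2 * s * (c₀ - ε * ((i : ℝ) / (g : ℝ) ^ 8)))| ≤ s ^ g * Real.exp 1 * E := by
    intro f φ hφ hyφ i him
    obtain ⟨h1, h2, h3⟩ := hi i him
    have h4 := hg₁ g hg1 y (fun j => Real.cos (φ j)) hy hyφ c₀ (c₀ - ε * ((i : ℝ) / (g : ℝ) ^ 8)) hc₀ (hεc _ h1 h3) (by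
      have h5 : c₀ - ε * ((i : ℝ) / (g : ℝ) ^ 8) - c₀ = -(ε * ((i : ℝ) / (g : ℝ) ^ 8)) := by ring
      rw [h5, abs_neg, abs_mul, hε, one_mul, abs_of_nonneg h1]
      exact h2)
    have h6 := eval_sq hφ (c₀ - ε * ((i : ℝ) / (g : ℝ) ^ 8))
    rw [hs] at h6
    refine abs_le_of_sq_le_sq ?_ (by positivity)
    rw [h6]
    have h7 : (s ^ g * Real.exp 1 * E) ^ 2 = (q : ℝ) ^ g * (Real.exp 2 * E ^ 2) := by
      have h8 : (Real.exp 1) ^ 2 = Real.exp 2 := by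
        rw [← Real.exp_nat_mul]
        norm_num
      rw [mul_pow, mul_pow, h8, ← pow_mul, mul_comm g 2, pow_mul, hs2]
      ring
    rw [h7]
    refine mul_le_mul_of_nonneg_left ?_ (by positivity)
    refine le_trans h4 (mul_le_mul_of_nonneg_left ?_ (Real.exp_pos _).le)
    rw [← hE2]
    exact hprod
  have hu : ((h - h').map (Int.castRingHom ℝ)).natDegree ≤ m := by
    rw [Polynomial.natDegree_le_iff_coeff_eq_zero]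
    intro n hn
    rw [Polynomial.coeff_map, Polynomial.coeff_sub, hcoef n hn, sub_self, map_zero]
  have hlead := lead_le ((h - h').map (Int.castRingHom ℝ)) hu (2 * s * c₀) (-(2 * s * ε / (g : ℝ) ^ 8))
    (A := 6 * s ^ g * E) (by
      intro i him
      have h1 : 2 * s * c₀ + (i : ℝ) * (-(2 * s * ε / (g : ℝ) ^ 8)) = 2 * s * (c₀ - ε * ((i : ℝ) / (g : ℝ) ^ 8)) := by
        ring
      rw [h1, Polynomial.map_sub, Polynomial.eval_sub]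
      refine le_trans (abs_sub _ _) ?_
      have h2 := key h θ hθ hyθ i him
      have h3 := key h' θ' hθ' hyθ' i him
      have h4 : Real.exp 1 ≤ 3 := by
        have := Real.exp_one_lt_d9
        linarith
      have h5 : 0 ≤ s ^ g * E := by positivity
      nlinarith [mul_le_mul_of_nonneg_left h4 h5])
  rw [Polynomial.coeff_map, Polynomial.coeff_sub, map_sub] at hlead
  have hσ : 1 ≤ |(-(2 * s * ε / (g : ℝ) ^ 8))| * (g : ℝ) ^ 8 := by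
    rw [abs_neg, abs_div, abs_mul, hε, mul_one, abs_of_pos (by linarith : (0 : ℝ) < 2 * s), abs_of_pos hg8pos,
      div_mul_cancel₀ _ hg8pos.ne']
    linarith
  have hσm : 1 ≤ |(-(2 * s * ε / (g : ℝ) ^ 8))| ^ m * ((g : ℝ) ^ 8) ^ m := by
    rw [← mul_pow]
    exact one_le_pow₀ hσ
  have hX : (0 : ℝ) ≤ |(Int.castRingHom ℝ) (h.coeff m) - (Int.castRingHom ℝ) (h'.coeff m)| := abs_nonneg _
  change |(Int.castRingHom ℝ) (h.coeff m) - (Int.castRingHom ℝ) (h'.coeff m)| ≤ _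
  rw [hs, hE]
  calc |(Int.castRingHom ℝ) (h.coeff m) - (Int.castRingHom ℝ) (h'.coeff m)|
      ≤ |(Int.castRingHom ℝ) (h.coeff m) - (Int.castRingHom ℝ) (h'.coeff m)| *
        (|(-(2 * s * ε / (g : ℝ) ^ 8))| ^ m * ((g : ℝ) ^ 8) ^ m) := le_mul_of_one_le_right hX hσm
    _ = |(Int.castRingHom ℝ) (h.coeff m) - (Int.castRingHom ℝ) (h'.coeff m)| *
        |(-(2 * s * ε / (g : ℝ) ^ 8))| ^ m * ((g : ℝ) ^ 8) ^ m := by ring
    _ ≤ 2 ^ m * (6 * s ^ g * E) * ((g : ℝ) ^ 8) ^ m := mul_le_mul_of_nonneg_right hlead (by positivity)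
    _ = 6 * (2 * (g : ℝ) ^ 8) ^ m * s ^ g * E := by
        rw [mul_pow]
        ring

end TQ
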