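import Pool.Agent.Lib.MP_021685_agTQ.M3
import Pool.Agent.Lib.MP_021685_agTQ.M4
import Pool.Agent.Lib.MP_021685_agTQ.M9
import Pool.Agent.Lib.MP_021685_agTQ.M10a

/-! LEAF M10 (medium).  The number of members of a class with a low point.

PROOF.  `g₀` = the maximum of those of `class_coeff` and `level_num`, and `1`.  Let `M = ⌊g^(3/5)/(20 log g)⌋₊`.  `chain_card` for `S` with `B m = 6 (2 g⁸)^m √q^g exp(-g^(3/5))` for `m < M` and `B m = 4 g √q^(g-m)` for `m ≥ M`: the hypothesis on the differences is `class_coeff` resp. `coeff_diff`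
(members of `Weil q g` are monic of degree `g`).  By `level_num`: `1 + B m ≤ 5 g √q^(g-m) exp(-g^(3/5)/4)` for `m < M`; `1 + B m ≤ 5 g √q^(g-m)` for `m ≥ M` (`g, √q ≥ 1`).  So the product over `m < g` is at most `(5g)^g √q^(∑_{m<g} (g-m)) exp(-g^(3/5)/4)^M`
(`∏_{m<g} (if m < M then e else 1) = e^M` as `M ≤ g`), `∑_{m<g} (g - m) = g(g+1)/2` (`Finset.sum_range_reflect`, `Finset.sum_range_id`, `Finset.range_id_eq_sum_of_...`; or induction on `g`). -/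

namespace TQ

open Polynomial TI

private theorem M10_sum (g : ℕ) : ∑ m ∈ Finset.range g, (g - m) = g * (g + 1) / 2 := by
  have h1 : ∑ m ∈ Finset.range g, (g - m) = ∑ m ∈ Finset.range (g + 1), m := by
    rw [Finset.sum_range_succ', add_zero, ← Finset.sum_range_reflect]
    refine Finset.sum_congr rfl fun m hm => ?_
    have := Finset.mem_range.1 hm
    omega
  rw [h1, Finset.sum_range_id, Nat.add_sub_cancel, mul_comm]

private theorem M10_prod {g M : ℕ} (hM : M ≤ g) (e : ℝ) :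
    ∏ m ∈ Finset.range g, (if m < M then e else 1) = e ^ M := by
  rw [← Finset.prod_subset (Finset.range_subset_range.2 hM)]
  · rw [Finset.prod_congr rfl fun m hm => if_pos (Finset.mem_range.1 hm), Finset.prod_const, Finset.card_range]
  · intro m _ hm
    rw [if_neg fun h => hm (Finset.mem_range.2 h)]

theorem class_card (q : ℕ) (hq : 2 ≤ q) : ∃ g₀ : ℕ, ∀ g : ℕ, g₀ ≤ g → ∀ y : Fin g → ℝ, (∀ j, |y j| ≤ 1) →
    ∀ c₀ : ℝ, |c₀| ≤ 1 → ∏ i, WW (ta g) c₀ (y i) ≤ Real.exp (-(2 * (g : ℝ) ^ (3 / 5 : ℝ))) →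
    ∀ S : Finset ℤ[X], (∀ h ∈ S, h ∈ Weil q g ∧ ∃ θ : Fin g → ℝ, IsAngles q h θ ∧
      ∀ j, |y j - Real.cos (θ j)| ≤ 1 / (g : ℝ) ^ 4) →
      (S.card : ℝ) ≤ (5 * (g : ℝ)) ^ g * Real.sqrt q ^ (g * (g + 1) / 2) *
        Real.exp (-((g : ℝ) ^ (3 / 5 : ℝ) / 4 * (⌊(g : ℝ) ^ (3 / 5 : ℝ) / (20 * Real.log g)⌋₊ : ℝ))) := by
  obtain ⟨g₁, h₁⟩ := class_coeff
  obtain ⟨g₂, h₂⟩ := level_num q hq
  refine ⟨max (max g₁ g₂) 1, fun g hg y hy c₀ hc₀ hlow S hS => ?_⟩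
  have hg1 : g₁ ≤ g := le_trans (le_trans (le_max_left _ _) (le_max_left _ _)) hg
  have hg2 : g₂ ≤ g := le_trans (le_trans (le_max_right _ _) (le_max_left _ _)) hg
  have hg3 : 1 ≤ g := le_trans (le_max_right _ _) hg
  obtain ⟨hMg, hlev⟩ := h₂ g hg2
  obtain ⟨M, hM⟩ : ∃ M : ℕ, M = ⌊(g : ℝ) ^ (3 / 5 : ℝ) / (20 * Real.log g)⌋₊ := ⟨_, rfl⟩
  rw [← hM] at hMg hlev ⊢
  have hgR : (1 : ℝ) ≤ (g : ℝ) := by exact_mod_cast hg3
  have hs : (1 : ℝ) ≤ Real.sqrt q := by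
    rw [Real.one_le_sqrt]
    exact_mod_cast (by omega : 1 ≤ q)
  have hs0 : (0 : ℝ) ≤ Real.sqrt q := Real.sqrt_nonneg _
  have hB0 : ∀ m, 0 ≤ (if m < M then 6 * (2 * (g : ℝ) ^ 8) ^ m * Real.sqrt q ^ g * Real.exp (-((g : ℝ) ^ (3 / 5 : ℝ)))
      else 4 * (g : ℝ) * Real.sqrt q ^ (g - m)) := by
    intro m
    split_ifs <;> positivity
  have hch := chain_card g S (fun m => if m < M then
    6 * (2 * (g : ℝ) ^ 8) ^ m * Real.sqrt q ^ g * Real.exp (-((g : ℝ) ^ (3 / 5 : ℝ)))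
      else 4 * (g : ℝ) * Real.sqrt q ^ (g - m)) hB0 (fun h hh => ⟨(hS h hh).1.1, (hS h hh).1.2.1⟩) ?_
  · refine hch.trans ?_
    have hle : ∀ m ∈ Finset.range g, 1 + (if m < M then
        6 * (2 * (g : ℝ) ^ 8) ^ m * Real.sqrt q ^ g * Real.exp (-((g : ℝ) ^ (3 / 5 : ℝ)))
          else 4 * (g : ℝ) * Real.sqrt q ^ (g - m)) ≤
        5 * (g : ℝ) * Real.sqrt q ^ (g - m) * (if m < M then Real.exp (-((g : ℝ) ^ (3 / 5 : ℝ) / 4)) else 1) := by
      intro m _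
      by_cases hm : m < M
      · rw [if_pos hm, if_pos hm]
        exact hlev m hm
      · rw [if_neg hm, if_neg hm, mul_one]
        have h3 : (1 : ℝ) ≤ Real.sqrt q ^ (g - m) := one_le_pow₀ hs
        have h4 : (1 : ℝ) ≤ (g : ℝ) * Real.sqrt q ^ (g - m) := one_le_mul_of_one_le_of_one_le hgR h3
        linarith
    refine (Finset.prod_le_prod (fun m _ => add_nonneg zero_le_one (hB0 m)) hle).trans (le_of_eq ?_)
    rw [Finset.prod_mul_distrib, Finset.prod_mul_distrib, M10_prod hMg, Finset.prod_const, Finset.card_range,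
      Finset.prod_pow_eq_pow_sum, M10_sum, ← Real.exp_nat_mul,
      show (M : ℝ) * -((g : ℝ) ^ (3 / 5 : ℝ) / 4) = -((g : ℝ) ^ (3 / 5 : ℝ) / 4 * M) by ring]
  · intro h hh h' hh' m hm he
    obtain ⟨-, θ, hθ, hyθ⟩ := hS h hh
    obtain ⟨-, θ', hθ', hyθ'⟩ := hS h' hh'
    split_ifs
    · exact h₁ g hg1 q (by omega) y hy c₀ hc₀ hlow h h' θ θ' hθ hθ' hyθ hyθ' m hm he
    · exact coeff_diff (by omega) hθ hθ' hm he

end TQ
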