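import Mathlib

/-! LEAF M11 (medium, Mathlib only).  The number of classes.

PROOF.  Class of `h`: `F h : Fin g → ℕ`, `F h j = ⌊(y h j + 1) g⁴⌋₊`; for `h ∈ S` it is at most `2 g⁴` (`0 ≤ y + 1 ≤ 2`), so `F` maps `S` into `Fintype.piFinset (fun _ => Finset.range (2 g⁴ + 1))`, which has `(2 g⁴ + 1)^g ≤ (3 g⁴)^g` elements.  If `F h₀ = F h` then `|y h₀ j - y h j| < 1/g⁴` for all `j`
(`Nat.floor_le`, `Nat.lt_floor_add_one`).  Every nonempty fibre is a `T` as in `hc` (`h₀` a member of it), so it has at most `K` elements; sum over the fibres (`Finset.card_eq_sum_card_fiberwise`, `Finset.sum_le_card_nsmul`). -/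

namespace TQ



theorem classes_card {g : ℕ} (hg : 1 ≤ g) {α : Type} (S : Finset α) (y : α → Fin g → ℝ)
    (hy : ∀ h ∈ S, ∀ j, |y h j| ≤ 1) {K : ℝ} (hK : 0 ≤ K)
    (hc : ∀ h₀ ∈ S, ∀ T ⊆ S, (∀ h ∈ T, ∀ j, |y h₀ j - y h j| ≤ 1 / (g : ℝ) ^ 4) → (T.card : ℝ) ≤ K) :
    (S.card : ℝ) ≤ (3 * (g : ℝ) ^ 4) ^ g * K := by
  classical
  have hg0 : (0 : ℝ) < (g : ℝ) ^ 4 := by positivity
  let F : α → Fin g → ℕ := fun h j => ⌊(y h j + 1) * (g : ℝ) ^ 4⌋₊
  have hmap : ∀ h ∈ S, F h ∈ Fintype.piFinset (fun _ : Fin g => Finset.range (2 * g ^ 4 + 1)) := by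
    intro h hh
    rw [Fintype.mem_piFinset]
    intro j
    rw [Finset.mem_range, Nat.lt_succ_iff]
    refine Nat.floor_le_of_le ?_
    have h1 := (abs_le.1 (hy h hh j)).2
    push_cast
    exact mul_le_mul_of_nonneg_right (by linarith) hg0.le
  have hcard : S.card = ∑ b ∈ Fintype.piFinset (fun _ : Fin g => Finset.range (2 * g ^ 4 + 1)),
      (S.filter fun h => F h = b).card :=
    Finset.card_eq_sum_card_fiberwise hmap
  have hfib : ∀ b ∈ Fintype.piFinset (fun _ : Fin g => Finset.range (2 * g ^ 4 + 1)),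
      (((S.filter fun h => F h = b).card : ℕ) : ℝ) ≤ K := by
    intro b _
    rcases (S.filter fun h => F h = b).eq_empty_or_nonempty with he | ⟨h₀, hh₀⟩
    · rw [he, Finset.card_empty, Nat.cast_zero]
      exact hK
    · obtain ⟨hS₀, hF₀⟩ := Finset.mem_filter.1 hh₀
      refine hc h₀ hS₀ _ (Finset.filter_subset _ _) ?_
      intro h hh j
      obtain ⟨hS1, hF1⟩ := Finset.mem_filter.1 hh
      have e : ⌊(y h₀ j + 1) * (g : ℝ) ^ 4⌋₊ = ⌊(y h j + 1) * (g : ℝ) ^ 4⌋₊ := by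
        have := congrFun (hF₀.trans hF1.symm) j
        exact this
      have p0 : 0 ≤ (y h₀ j + 1) * (g : ℝ) ^ 4 :=
        mul_nonneg (by linarith [(abs_le.1 (hy h₀ hS₀ j)).1]) hg0.le
      have p1 : 0 ≤ (y h j + 1) * (g : ℝ) ^ 4 :=
        mul_nonneg (by linarith [(abs_le.1 (hy h hS1 j)).1]) hg0.le
      have a0 := Nat.floor_le p0
      have a1 := Nat.floor_le p1
      have b0 := Nat.lt_floor_add_one ((y h₀ j + 1) * (g : ℝ) ^ 4)
      have b1 := Nat.lt_floor_add_one ((y h j + 1) * (g : ℝ) ^ 4)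
      rw [e] at a0 b0
      have c1 : (y h₀ j - y h j) * (g : ℝ) ^ 4 ≤ 1 := by nlinarith
      have c2 : -1 ≤ (y h₀ j - y h j) * (g : ℝ) ^ 4 := by nlinarith
      rw [abs_le]
      constructor
      · rw [← neg_div, div_le_iff₀ hg0]
        exact c2
      · rw [le_div_iff₀ hg0]
        exact c1
  have h3 : ((S.card : ℕ) : ℝ) ≤
      ((Fintype.piFinset (fun _ : Fin g => Finset.range (2 * g ^ 4 + 1))).card : ℝ) * K := by
    rw [hcard, Nat.cast_sum]
    refine (Finset.sum_le_card_nsmul _ _ _ hfib).trans_eq ?_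
    rw [nsmul_eq_mul]
  refine h3.trans (mul_le_mul_of_nonneg_right ?_ hK)
  rw [Fintype.card_piFinset, Finset.prod_const, Finset.card_range, Finset.card_univ, Fintype.card_fin, Nat.cast_pow]
  refine pow_le_pow_left₀ (by positivity) ?_ g
  push_cast
  have h4 : (1 : ℝ) ≤ (g : ℝ) ^ 4 := one_le_pow₀ (by exact_mod_cast hg)
  linarith

end TQ
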