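import Mathlib

/-! LEAF M12 (medium, Mathlib only).  The final numerical inequality.

PROOF.  Let `γ = g^(3/5)`, `M = ⌊γ/(20 log g)⌋₊ ≥ γ/(20 log g) - 1 ≥ γ/(40 log g)` for large `g` (`γ/log g → ∞`: `isLittleO_log_rpow_atTop`), so `γ/4 * M ≥ g^(6/5)/(160 log g)`.  `(3 g⁴)^g (5 g)^g = exp(g log(15 g⁵)) ≤ exp(6 g log g)` for `g ≥ 15`.
It is enough that `6 g log g + g^(11/10) ≤ g^(6/5)/(160 log g)` for large `g`: divide by `g^(11/10)`: `160 log g (6 g^(-1/10) log g + 1) ≤ g^(1/10)` (`log g = o(g^(1/30))`). -/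

namespace TQ



theorem final_num : ∃ g₀ : ℕ, ∀ g : ℕ, g₀ ≤ g →
    (3 * (g : ℝ) ^ 4) ^ g * ((5 * (g : ℝ)) ^ g *
      Real.exp (-((g : ℝ) ^ (3 / 5 : ℝ) / 4 * (⌊(g : ℝ) ^ (3 / 5 : ℝ) / (20 * Real.log g)⌋₊ : ℝ)))) ≤
        Real.exp (-((g : ℝ) ^ (11 / 10 : ℝ))) := by
  have h1 : ∀ᶠ x : ℝ in Filter.atTop, ‖Real.log x‖ ≤ (1 / 2000) * ‖x ^ (1 / 20 : ℝ)‖ :=
    (isLittleO_log_rpow_atTop (by norm_num : (0 : ℝ) < 1 / 20)).def (by norm_num)
  obtain ⟨g1, hg1⟩ := Filter.eventually_atTop.1 ((tendsto_natCast_atTop_atTop (R := ℝ)).eventually h1)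
  refine ⟨max g1 15, fun g hg => ?_⟩
  have hgg : g1 ≤ g := le_trans (le_max_left _ _) hg
  have hg15 : 15 ≤ g := le_trans (le_max_right _ _) hg
  have x15 : (15 : ℝ) ≤ (g : ℝ) := by exact_mod_cast hg15
  have x0 : (0 : ℝ) < (g : ℝ) := by linarith
  have hL0 : 0 < Real.log (g : ℝ) := Real.log_pos (by linarith)
  obtain ⟨t, ht⟩ : ∃ t : ℝ, t = (g : ℝ) ^ (1 / 20 : ℝ) := ⟨_, rfl⟩
  have hL : Real.log (g : ℝ) ≤ (1 / 2000) * t := by
    have h2 := hg1 g hgg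
    rw [Real.norm_of_nonneg hL0.le, Real.norm_of_nonneg (Real.rpow_nonneg x0.le _)] at h2
    rw [ht]
    exact h2
  have t1 : 1 ≤ t := by
    rw [ht]
    exact Real.one_le_rpow (by linarith) (by norm_num)
  have htk : ∀ k : ℕ, t ^ k = (g : ℝ) ^ ((k : ℝ) / 20) := by
    intro k
    rw [ht, ← Real.rpow_natCast, ← Real.rpow_mul x0.le]
    exact congrArg (fun s => (g : ℝ) ^ s) (by ring)
  have e1 : (g : ℝ) = t ^ 20 := by
    rw [htk 20]
    norm_num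
  have e2 : (g : ℝ) ^ (3 / 5 : ℝ) = t ^ 12 := by
    rw [htk 12]
    norm_num
  have e3 : (g : ℝ) ^ (11 / 10 : ℝ) = t ^ 22 := by
    rw [htk 22]
    norm_num
  rw [e2, e3]
  have h3 : (3 * (g : ℝ) ^ 4) ^ g * (5 * (g : ℝ)) ^ g ≤ Real.exp ((g : ℝ) * (6 * Real.log g)) := by
    rw [← mul_pow, Real.exp_nat_mul]
    refine pow_le_pow_left₀ (by positivity) ?_ g
    have h4 : Real.exp (6 * Real.log (g : ℝ)) = (g : ℝ) ^ 6 := by
      have h5 := Real.exp_nat_mul (Real.log (g : ℝ)) 6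
      rw [Real.exp_log x0] at h5
      rw [← h5]
      norm_num
    rw [h4]
    have h6 : 0 ≤ ((g : ℝ) - 15) * (g : ℝ) ^ 5 := mul_nonneg (by linarith) (by positivity)
    nlinarith [h6]
  obtain ⟨M, hM⟩ : ∃ M : ℕ, M = ⌊t ^ 12 / (20 * Real.log g)⌋₊ := ⟨_, rfl⟩
  rw [← hM]
  have h7 : t ^ 12 / (20 * Real.log g) < (M : ℝ) + 1 := by
    rw [hM]
    exact Nat.lt_floor_add_one _
  have h8 : t ^ 12 / (40 * Real.log g) ≤ M := by
    have h9 : 1 ≤ t ^ 12 / (40 * Real.log g) := by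
      rw [le_div_iff₀ (by positivity)]
      have : t ≤ t ^ 12 := le_self_pow₀ t1 (by norm_num)
      linarith
    have h10 : t ^ 12 / (20 * Real.log g) = 2 * (t ^ 12 / (40 * Real.log g)) := by
      field_simp
      norm_num
    linarith
  have h11 : t ^ 24 / (160 * Real.log g) ≤ t ^ 12 / 4 * M := by
    have h12 : t ^ 24 / (160 * Real.log g) = t ^ 12 / 4 * (t ^ 12 / (40 * Real.log g)) := by
      field_simp
      norm_num
    rw [h12]
    exact mul_le_mul_of_nonneg_left h8 (by positivity)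
  have h13 : t ^ 20 * (6 * Real.log g) + t ^ 22 ≤ t ^ 24 / (160 * Real.log g) := by
    rw [le_div_iff₀ (by positivity)]
    have t0 : 0 ≤ t := by linarith
    have b1 : Real.log (g : ℝ) ^ 2 ≤ ((1 / 2000) * t) ^ 2 := pow_le_pow_left₀ hL0.le hL 2
    have b2 : t ^ 20 * (960 * Real.log (g : ℝ) ^ 2) ≤ t ^ 20 * (960 * ((1 / 2000) * t) ^ 2) :=
      mul_le_mul_of_nonneg_left (by linarith) (by positivity)
    have b3 : t ^ 22 * (160 * Real.log (g : ℝ)) ≤ t ^ 22 * (160 * ((1 / 2000) * t)) :=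
      mul_le_mul_of_nonneg_left (by linarith) (by positivity)
    have b4 : t ^ 22 ≤ t ^ 24 := pow_le_pow_right₀ t1 (by norm_num)
    have b5 : t ^ 23 ≤ t ^ 24 := pow_le_pow_right₀ t1 (by norm_num)
    have b6 : 0 ≤ t ^ 24 := by positivity
    have b7 : t ^ 20 * (960 * ((1 / 2000) * t) ^ 2) = 960 / 4000000 * t ^ 22 := by ring
    have b8 : t ^ 22 * (160 * ((1 / 2000) * t)) = 160 / 2000 * t ^ 23 := by ring
    have b9 : (t ^ 20 * (6 * Real.log (g : ℝ)) + t ^ 22) * (160 * Real.log (g : ℝ)) =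
        t ^ 20 * (960 * Real.log (g : ℝ) ^ 2) + t ^ 22 * (160 * Real.log (g : ℝ)) := by ring
    rw [b9]
    linarith
  rw [← mul_assoc]
  refine (mul_le_mul_of_nonneg_right h3 (Real.exp_nonneg _)).trans ?_
  rw [← Real.exp_add, Real.exp_le_exp]
  have h14 : (g : ℝ) * (6 * Real.log g) = t ^ 20 * (6 * Real.log g) := congrArg (fun s => s * (6 * Real.log (g : ℝ))) e1
  rw [h14]
  linarith

end TQ
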