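import Pool.Agent.Lib.MP_021685_agTQ.M8
import Pool.Agent.Lib.MP_021685_agTQ.M10
import Pool.Agent.Lib.MP_021685_agTQ.M11
import Pool.Agent.Lib.MP_021685_agTQ.M12
import Pool.Agent.Lib.MP_021685_agTI.A3a
import Pool.Agent.Lib.MP_021685_agTI.Fi

/-! LEAF M13 (medium, assembly).  The irregular members are few.

PROOF.  `S` = the finite set of the irregular members (`Weil_finite`).  For `h ∈ S` choose angles `θ_h` (`exists_angles`), `y h j = cos (θ_h j)`, `|y h j| ≤ 1`; as `h` is not regular, `En θ_h < exp(-g^(8/5))`, so by `low_point` there is `j` with `c₀ = y h j` and `∏_i WW (ta g) c₀ (y h i) ≤ exp(-2 g^(3/5))`.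
`classes_card` with `K = (5g)^g √q^(g(g+1)/2) exp(-(g^(3/5)/4 ⌊g^(3/5)/(20 log g)⌋₊))`: for `h₀ ∈ S` and `T ⊆ S` as there, `class_card` for `y h₀` gives `T.card ≤ K`.  Then `final_num` times `√q^(g(g+1)/2)`. -/

namespace TQ

open Polynomial TI

/-- all but very few members are regular -/
theorem irregular_count (q : ℕ) (hq : 2 ≤ q) : ∃ g₀ : ℕ, ∀ g : ℕ, g₀ ≤ g →
    (({h | h ∈ Weil q g ∧ ¬ Reg q g h} : Set ℤ[X]).ncard : ℝ) ≤
      Real.exp (-((g : ℝ) ^ (11 / 10 : ℝ))) * Real.sqrt q ^ (g * (g + 1) / 2) := by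
  classical
  obtain ⟨g1, h1⟩ := class_card q hq
  obtain ⟨g2, h2⟩ := final_num
  refine ⟨max (max g1 g2) 1, fun g hg => ?_⟩
  have hg1 : g1 ≤ g := ((le_max_left _ _).trans (le_max_left _ _)).trans hg
  have hg2 : g2 ≤ g := ((le_max_right _ _).trans (le_max_left _ _)).trans hg
  have hg0 : 1 ≤ g := (le_max_right _ _).trans hg
  have hfin : ({h | h ∈ Weil q g ∧ ¬ Reg q g h} : Set ℤ[X]).Finite := (Weil_finite q g).subset fun h hh => hh.1
  have hex : ∀ h : ℤ[X], ∃ θ : Fin g → ℝ, h ∈ Weil q g → IsAngles q h θ := by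
    intro h
    by_cases hh : h ∈ Weil q g
    · obtain ⟨θ, hθ⟩ := exists_angles (by omega) hh
      exact ⟨θ, fun _ => hθ⟩
    · exact ⟨0, fun h' => absurd h' hh⟩
  choose θ hθ using hex
  have hS : ∀ h ∈ hfin.toFinset, h ∈ Weil q g ∧ ¬ Reg q g h := fun h hh => hfin.mem_toFinset.1 hh
  have key := classes_card hg0 hfin.toFinset (fun h j => Real.cos (θ h j)) (fun h _ j => Real.abs_cos_le_one _)
    (K := (5 * (g : ℝ)) ^ g * Real.sqrt q ^ (g * (g + 1) / 2) *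
        Real.exp (-((g : ℝ) ^ (3 / 5 : ℝ) / 4 * (⌊(g : ℝ) ^ (3 / 5 : ℝ) / (20 * Real.log g)⌋₊ : ℝ))))
    (by positivity) (by
      intro h₀ hh₀ T hT hc
      have h3 : En (θ h₀) < Real.exp (-((g : ℝ) ^ (8 / 5 : ℝ))) := by
        by_contra h4
        exact (hS h₀ hh₀).2 ⟨θ h₀, hθ h₀ (hS h₀ hh₀).1, not_lt.1 h4⟩
      obtain ⟨j, hj⟩ := low_point (θ h₀) h3
      exact h1 g hg1 (fun j => Real.cos (θ h₀ j)) (fun j => Real.abs_cos_le_one _) (Real.cos (θ h₀ j))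
        (Real.abs_cos_le_one _) hj T fun h hh =>
          ⟨(hS h (hT hh)).1, θ h, hθ h (hS h (hT hh)).1, fun j => hc h hh j⟩)
  rw [Set.ncard_eq_toFinset_card _ hfin]
  refine key.trans ?_
  have h5 := mul_le_mul_of_nonneg_right (h2 g hg2)
    (show (0 : ℝ) ≤ Real.sqrt q ^ (g * (g + 1) / 2) by positivity)
  refine le_trans (le_of_eq ?_) h5
  ring

end TQ
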