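import Pool.Agent.Lib.MP_021685_agTQ.Defs

/-! LEAF M14 (medium).  The power series of `log |PP|`.

PROOF.  For `‖ζ‖ < 1`: `1 - 2 cos θ ζ + ζ² = (1 - w ζ)(1 - w' ζ)`, `w = exp(iθ)`, `w' = exp(-iθ)` (`w + w' = 2 cos θ`, `w w' = 1`); both factors are nonzero (`‖w ζ‖ < 1`), so `PP_ne_zero`.  `log ‖1 - z‖ = Re log(1 - z)` and `Complex.hasSum_taylorSeries_neg_log` (`∑ z^n/n`, real part by `Complex.hasSum_re` / `HasSum.mapL`);
for `z = w ζ` and `z = w' ζ` together: `∑_{n ≥ 1} -(Re((w^n + w'^n) ζ^n))/n = ∑_{n ≥ 1} -(2 cos(n θ) Re(ζ^n))/n` (`w^n + w'^n = 2 cos(nθ)` is real).  The term `n = 0` is `0`; shift the index (`hasSum_nat_add_iff' 1` or `(hasSum_nat_add_iff 1)`).  `log ‖∏‖ = ∑_j log ‖·‖` (`Real.log_prod`, factors nonzero), `hasSum_sum`;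
`∑_j 2 cos((k+1) θ_j) = mom θ (k+1)` (definition of `TI.mom`). -/

namespace TQ

open Polynomial TI

private theorem M14_fac (t : ℝ) (ζ : ℂ) :
    1 - 2 * ((Real.cos t : ℝ) : ℂ) * ζ + ζ ^ 2 =
      (1 - Complex.exp ((t : ℂ) * Complex.I) * ζ) * (1 - Complex.exp (-(t : ℂ) * Complex.I) * ζ) := by
  have h1 : Complex.exp ((t : ℂ) * Complex.I) * Complex.exp (-(t : ℂ) * Complex.I) = 1 := by
    rw [← Complex.exp_add, ← add_mul, add_neg_cancel, zero_mul, Complex.exp_zero]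
  have h2 : Complex.exp ((t : ℂ) * Complex.I) + Complex.exp (-(t : ℂ) * Complex.I) =
      2 * ((Real.cos t : ℝ) : ℂ) := by
    rw [Complex.ofReal_cos, Complex.cos]
    ring
  linear_combination ζ * h2 - ζ ^ 2 * h1

private theorem M14_norm (t : ℝ) {ζ : ℂ} (hζ : ‖ζ‖ < 1) :
    ‖Complex.exp ((t : ℂ) * Complex.I) * ζ‖ < 1 ∧ ‖Complex.exp (-(t : ℂ) * Complex.I) * ζ‖ < 1 := by
  constructor
  · rw [norm_mul, Complex.norm_exp_ofReal_mul_I, one_mul]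
    exact hζ
  · have h1 : ‖Complex.exp (-(t : ℂ) * Complex.I)‖ = 1 := by
      have h2 := Complex.norm_exp_ofReal_mul_I (-t)
      rwa [Complex.ofReal_neg] at h2
    rw [norm_mul, h1, one_mul]
    exact hζ

private theorem M14_ne {z : ℂ} (hz : ‖z‖ < 1) : 1 - z ≠ 0 := by
  intro h
  have h1 : z = 1 := by
    linear_combination -h
  rw [h1, norm_one] at hz
  exact lt_irrefl _ hz

private theorem M14_ne1 (t : ℝ) {ζ : ℂ} (hζ : ‖ζ‖ < 1) :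
    1 - 2 * ((Real.cos t : ℝ) : ℂ) * ζ + ζ ^ 2 ≠ 0 := by
  rw [M14_fac]
  exact mul_ne_zero (M14_ne (M14_norm t hζ).1) (M14_ne (M14_norm t hζ).2)

/-- the real part of the series of the logarithm, index shifted -/
private theorem M14_log {z : ℂ} (hz : ‖z‖ < 1) :
    HasSum (fun k : ℕ => -((z ^ (k + 1)).re / ((k : ℝ) + 1))) (Real.log ‖1 - z‖) := by
  have h1 := Complex.hasSum_taylorSeries_neg_log hz
  have h2 := Complex.hasSum_re h1
  rw [Complex.neg_re, Complex.log_re] at h2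
  have h3 := (hasSum_nat_add_iff' (f := fun n : ℕ => (z ^ n / (n : ℂ)).re) 1).2 h2
  rw [Finset.sum_range_one] at h3
  have h4 := h3.neg
  have h5 : (z ^ 0 / ((0 : ℕ) : ℂ)).re = 0 := by
    rw [Nat.cast_zero, div_zero, Complex.zero_re]
  rw [h5, sub_zero, neg_neg] at h4
  have h6 : (fun k : ℕ => -((z ^ (k + 1)).re / ((k : ℝ) + 1))) =
      fun n : ℕ => -(z ^ (n + 1) / ((n + 1 : ℕ) : ℂ)).re := by
    funext k
    have h7 : ((k + 1 : ℕ) : ℂ) = (((k : ℝ) + 1 : ℝ) : ℂ) := by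
      push_cast
      rfl
    rw [h7, Complex.div_ofReal_re]
  rw [h6]
  exact h4

private theorem M14_one (t : ℝ) {ζ : ℂ} (hζ : ‖ζ‖ < 1) :
    HasSum (fun k : ℕ => -(2 * Real.cos (((k + 1 : ℕ) : ℝ) * t) * (ζ ^ (k + 1)).re / ((k : ℝ) + 1)))
      (Real.log ‖1 - 2 * ((Real.cos t : ℝ) : ℂ) * ζ + ζ ^ 2‖) := by
  have hn := M14_norm t hζ
  have h1 := (M14_log hn.1).add (M14_log hn.2)
  have h2 : Real.log ‖1 - 2 * ((Real.cos t : ℝ) : ℂ) * ζ + ζ ^ 2‖ =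
      Real.log ‖1 - Complex.exp ((t : ℂ) * Complex.I) * ζ‖ +
        Real.log ‖1 - Complex.exp (-(t : ℂ) * Complex.I) * ζ‖ := by
    rw [M14_fac, norm_mul, Real.log_mul (norm_ne_zero_iff.2 (M14_ne hn.1)) (norm_ne_zero_iff.2 (M14_ne hn.2))]
  rw [h2]
  have h3 : (fun k : ℕ => -(2 * Real.cos (((k + 1 : ℕ) : ℝ) * t) * (ζ ^ (k + 1)).re / ((k : ℝ) + 1))) =
      fun k : ℕ => -(((Complex.exp ((t : ℂ) * Complex.I) * ζ) ^ (k + 1)).re / ((k : ℝ) + 1)) +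
        -(((Complex.exp (-(t : ℂ) * Complex.I) * ζ) ^ (k + 1)).re / ((k : ℝ) + 1)) := by
    funext k
    have h4 : (Complex.exp ((t : ℂ) * Complex.I) * ζ) ^ (k + 1) +
        (Complex.exp (-(t : ℂ) * Complex.I) * ζ) ^ (k + 1) =
        ((2 * Real.cos (((k + 1 : ℕ) : ℝ) * t) : ℝ) : ℂ) * ζ ^ (k + 1) := by
      rw [mul_pow, mul_pow, ← Complex.exp_nat_mul, ← Complex.exp_nat_mul, ← add_mul]
      congr 1
      push_cast
      rw [Complex.cos]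
      have e1 : ((k : ℂ) + 1) * ((t : ℂ) * Complex.I) = ((k : ℂ) + 1) * (t : ℂ) * Complex.I := by ring
      have e2 : ((k : ℂ) + 1) * (-(t : ℂ) * Complex.I) = -(((k : ℂ) + 1) * (t : ℂ)) * Complex.I := by ring
      rw [e1, e2]
      ring
    have h5 : ((Complex.exp ((t : ℂ) * Complex.I) * ζ) ^ (k + 1)).re +
        ((Complex.exp (-(t : ℂ) * Complex.I) * ζ) ^ (k + 1)).re =
        2 * Real.cos (((k + 1 : ℕ) : ℝ) * t) * (ζ ^ (k + 1)).re := by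
      rw [← Complex.add_re, h4, Complex.re_ofReal_mul]
    rw [← h5]
    ring
  rw [h3]
  exact h1

theorem PP_ne_zero {g : ℕ} (θ : Fin g → ℝ) {ζ : ℂ} (hζ : ‖ζ‖ < 1) : PP θ ζ ≠ 0 := by
  unfold PP
  exact Finset.prod_ne_zero_iff.2 fun j _ => M14_ne1 (θ j) hζ

theorem hasSum_log_PP {g : ℕ} (θ : Fin g → ℝ) {ζ : ℂ} (hζ : ‖ζ‖ < 1) :
    HasSum (fun k : ℕ => -(mom θ (k + 1) * (ζ ^ (k + 1)).re / ((k : ℝ) + 1))) (Real.log ‖PP θ ζ‖) := by
  have h1 := hasSum_sum (s := Finset.univ) fun (j : Fin g) _ => M14_one (θ j) hζ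
  have h2 : Real.log ‖PP θ ζ‖ =
      ∑ j : Fin g, Real.log ‖1 - 2 * ((Real.cos (θ j) : ℝ) : ℂ) * ζ + ζ ^ 2‖ := by
    unfold PP
    rw [norm_prod, Real.log_prod fun j _ => norm_ne_zero_iff.2 (M14_ne1 (θ j) hζ)]
  rw [h2]
  have h3 : (fun k : ℕ => -(mom θ (k + 1) * (ζ ^ (k + 1)).re / ((k : ℝ) + 1))) =
      fun k : ℕ => ∑ j : Fin g, -(2 * Real.cos (((k + 1 : ℕ) : ℝ) * θ j) * (ζ ^ (k + 1)).re / ((k : ℝ) + 1)) := by
    funext k
    unfold mom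
    rw [Finset.sum_neg_distrib, Finset.sum_mul, Finset.sum_div]
  rw [h3]
  exact h1

end TQ
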