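import Pool.Agent.Lib.MP_021685_agTQ.M14

/-! LEAF M15 (medium).  The energy.

PROOF.  `0 ≤ ta g < 1` for `g ≥ 1`.  `ζ_j = ta g * exp(i θ_j)` has norm `< 1`, so `PP θ ζ_j ≠ 0` and `log (En θ) = ∑_j log ‖PP θ ζ_j‖` (`Real.log_prod`).  `hasSum_log_PP` at `ζ_j`: `(ζ_j^(k+1)).re = ta g^(k+1) cos((k+1) θ_j)` (`Complex.exp_nat_mul`, `mul_pow`).
Sum over `j` (`hasSum_sum`): the term of index `k` is `- mom θ (k+1) ta^(k+1) (∑_j cos((k+1) θ_j))/(k+1) = - ta^(k+1) mom θ (k+1)²/(2 (k+1))`; multiply by `-2` (`HasSum.mul_left`). -/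

namespace TQ

open Polynomial TI

private theorem M15_ta {g : ℕ} (hg : 1 ≤ g) : 0 ≤ ta g ∧ ta g < 1 := by
  have h1 : (1 : ℝ) ≤ (g : ℝ) := by exact_mod_cast hg
  have h2 : (1 : ℝ) ≤ (g : ℝ) ^ 2 := one_le_pow₀ h1
  have h3 : 1 / (g : ℝ) ^ 2 ≤ 1 := by
    rw [div_le_one (by linarith)]
    exact h2
  have h4 : 0 < 1 / (g : ℝ) ^ 2 := by positivity
  have h5 : Real.exp (-(1 / (10 * (g : ℝ)))) ≤ 1 := by
    rw [Real.exp_le_one_iff]
    have : 0 ≤ 1 / (10 * (g : ℝ)) := by positivity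
    linarith
  have h6 := Real.exp_pos (-(1 / (10 * (g : ℝ))))
  unfold ta
  constructor
  · exact mul_nonneg (by linarith) h6.le
  · calc (1 - 1 / (g : ℝ) ^ 2) * Real.exp (-(1 / (10 * (g : ℝ)))) ≤ (1 - 1 / (g : ℝ) ^ 2) * 1 :=
          mul_le_mul_of_nonneg_left h5 (by linarith)
      _ < 1 := by linarith

private theorem M15_norm {g : ℕ} (hg : 1 ≤ g) (x : ℝ) :
    ‖(ta g : ℂ) * Complex.exp ((x : ℂ) * Complex.I)‖ < 1 := by
  rw [norm_mul, Complex.norm_exp_ofReal_mul_I, mul_one, Complex.norm_real, Real.norm_eq_abs,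
    abs_of_nonneg (M15_ta hg).1]
  exact (M15_ta hg).2

private theorem M15_re (t x : ℝ) (k : ℕ) :
    (((t : ℂ) * Complex.exp ((x : ℂ) * Complex.I)) ^ (k + 1)).re =
      t ^ (k + 1) * Real.cos (((k + 1 : ℕ) : ℝ) * x) := by
  rw [mul_pow, ← Complex.exp_nat_mul, ← Complex.ofReal_pow, Complex.re_ofReal_mul]
  have h1 : ((k + 1 : ℕ) : ℂ) * ((x : ℂ) * Complex.I) = ((((k + 1 : ℕ) : ℝ) * x : ℝ) : ℂ) * Complex.I := by
    push_cast
    ring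
  rw [h1, Complex.exp_ofReal_mul_I_re]

theorem log_En {g : ℕ} (hg : 1 ≤ g) (θ : Fin g → ℝ) :
    HasSum (fun k : ℕ => ta g ^ (k + 1) * mom θ (k + 1) ^ 2 / ((k : ℝ) + 1)) (-(2 * Real.log (En θ))) := by
  have h1 : Real.log (En θ) = ∑ j, Real.log ‖PP θ ((ta g : ℂ) * Complex.exp ((θ j : ℂ) * Complex.I))‖ := by
    unfold En
    rw [Real.log_prod]
    intro j _
    rw [norm_ne_zero_iff]
    exact PP_ne_zero θ (M15_norm hg (θ j))
  have h2 := hasSum_sum (s := (Finset.univ : Finset (Fin g)))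
    (fun j _ => hasSum_log_PP θ (M15_norm hg (θ j)))
  rw [← h1] at h2
  have h3 := h2.mul_left (-2)
  have h4 : (-2 : ℝ) * Real.log (En θ) = -(2 * Real.log (En θ)) := by ring
  rw [h4] at h3
  refine h3.congr_fun ?_
  intro k
  have h5 : mom θ (k + 1) = 2 * ∑ j, Real.cos (((k + 1 : ℕ) : ℝ) * θ j) := by
    unfold mom
    rw [Finset.mul_sum]
  have h6 : ∀ j : Fin g, -(mom θ (k + 1) * ((((ta g : ℝ) : ℂ) * Complex.exp ((θ j : ℂ) * Complex.I)) ^ (k + 1)).re / ((k : ℝ) + 1)) =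
      -(mom θ (k + 1) * ta g ^ (k + 1) / ((k : ℝ) + 1)) * Real.cos (((k + 1 : ℕ) : ℝ) * θ j) := by
    intro j
    rw [M15_re]
    ring
  rw [Finset.sum_congr rfl fun j _ => h6 j, ← Finset.mul_sum]
  have h7 : ∑ j, Real.cos (((k + 1 : ℕ) : ℝ) * θ j) = mom θ (k + 1) / 2 := by
    rw [h5]
    ring
  rw [h7]
  ring

theorem En_pos {g : ℕ} (hg : 1 ≤ g) (θ : Fin g → ℝ) : 0 < En θ := by
  unfold En
  refine Finset.prod_pos fun j _ => ?_
  rw [norm_pos_iff]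
  exact PP_ne_zero θ (M15_norm hg (θ j))

end TQ
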