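import Pool.Agent.Lib.MP_021685_agTQ.M15

/-! LEAF M16 (medium).  Cauchy-Schwarz.

PROOF.  `τ = ta g > 0` (`g ≥ 2`), `ρ = ‖ζ‖`, `ρ² < τ < 1`, so `ρ < 1`.  For every `N` (`Finset.sum_mul_sq_le_sq_mul_sq` over `range N` with `a_k = √(τ^(k+1)/(k+1)) mom θ (k+1)`, `b_k = (ζ^(k+1)).re / √(τ^(k+1) (k+1))`):
`(∑_{k<N} mom θ (k+1) (ζ^(k+1)).re/(k+1))² ≤ (∑_{k<N} τ^(k+1) mom²/(k+1)) (∑_{k<N} (ρ²/τ)^(k+1)/(k+1))` as `(ζ^(k+1)).re² ≤ ρ^(2(k+1))`.  Both sums on the right are at most their limits: `-(2 log En)` by `log_En` and `-log(1 - ρ²/τ)` by `Real.hasSum_pow_div_log_of_abs_lt_one` (nonnegative terms, `sum_le_hasSum`).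
Let `N → ∞` on the left (`hasSum_log_PP`, `HasSum.tendsto_sum_nat`, `le_of_tendsto`). -/

namespace TQ

open Polynomial TI

private theorem M16_ta {g : ℕ} (hg : 2 ≤ g) : 0 < ta g ∧ ta g < 1 := by
  have hg2 : (2 : ℝ) ≤ g := by exact_mod_cast hg
  have h0 : 0 < 1 / (g : ℝ) ^ 2 := by positivity
  have h1 : 1 / (g : ℝ) ^ 2 < 1 := by
    rw [div_lt_one (by positivity)]
    nlinarith
  have h2 : Real.exp (-(1 / (10 * (g : ℝ)))) < 1 := by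
    rw [Real.exp_lt_one_iff]
    have : 0 < 1 / (10 * (g : ℝ)) := by positivity
    linarith
  have h3 := Real.exp_pos (-(1 / (10 * (g : ℝ))))
  unfold ta
  constructor
  · exact mul_pos (by linarith) h3
  · nlinarith

theorem log_PP_sq {g : ℕ} (hg : 2 ≤ g) (θ : Fin g → ℝ) {ζ : ℂ} (hζ : ‖ζ‖ ^ 2 < ta g) :
    (Real.log ‖PP θ ζ‖) ^ 2 ≤ -(2 * Real.log (En θ)) * -(Real.log (1 - ‖ζ‖ ^ 2 / ta g)) := by
  obtain ⟨hτ0, hτ1⟩ := M16_ta hg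
  have hρ0 : 0 ≤ ‖ζ‖ := norm_nonneg _
  have hρ1 : ‖ζ‖ < 1 := by
    by_contra h
    rw [not_lt] at h
    nlinarith
  have hx0 : 0 ≤ ‖ζ‖ ^ 2 / ta g := by positivity
  have hx1 : ‖ζ‖ ^ 2 / ta g < 1 := (div_lt_one hτ0).2 hζ
  have hA := log_En (show 1 ≤ g by omega) θ
  have hB := Real.hasSum_pow_div_log_of_abs_lt_one (x := ‖ζ‖ ^ 2 / ta g) (by rw [abs_of_nonneg hx0]; exact hx1)
  have hC := hasSum_log_PP θ hρ1
  have hA0 : ∀ k : ℕ, 0 ≤ ta g ^ (k + 1) * mom θ (k + 1) ^ 2 / ((k : ℝ) + 1) := fun k => by positivity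
  have hB0 : ∀ k : ℕ, 0 ≤ (‖ζ‖ ^ 2 / ta g) ^ (k + 1) / ((k : ℝ) + 1) := fun k => by positivity
  refine le_of_tendsto (hC.tendsto_sum_nat.pow 2) (Filter.Eventually.of_forall fun N => ?_)
  have h1 : (∑ k ∈ Finset.range N, -(mom θ (k + 1) * (ζ ^ (k + 1)).re / ((k : ℝ) + 1))) ^ 2 ≤
      (∑ k ∈ Finset.range N, ta g ^ (k + 1) * mom θ (k + 1) ^ 2 / ((k : ℝ) + 1)) *
      ∑ k ∈ Finset.range N, (‖ζ‖ ^ 2 / ta g) ^ (k + 1) / ((k : ℝ) + 1) := by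
    refine Finset.sum_sq_le_sum_mul_sum_of_sq_le_mul _ (fun k _ => hA0 k) (fun k _ => hB0 k) (fun k _ => ?_)
    have e1 : (ζ ^ (k + 1)).re ^ 2 ≤ (‖ζ‖ ^ 2) ^ (k + 1) := by
      have h := Complex.abs_re_le_norm (ζ ^ (k + 1))
      rw [norm_pow] at h
      rw [← sq_abs, ← pow_mul, mul_comm 2, pow_mul]
      exact pow_le_pow_left₀ (abs_nonneg _) h 2
    have hk : (0 : ℝ) < (k : ℝ) + 1 := by positivity
    have hτk : 0 < ta g ^ (k + 1) := by positivity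
    rw [div_pow, show ta g ^ (k + 1) * mom θ (k + 1) ^ 2 / ((k : ℝ) + 1) * ((‖ζ‖ ^ 2) ^ (k + 1) / ta g ^ (k + 1) / ((k : ℝ) + 1)) =
      mom θ (k + 1) ^ 2 * (‖ζ‖ ^ 2) ^ (k + 1) / ((k : ℝ) + 1) ^ 2 by field_simp, neg_sq, div_pow, mul_pow]
    gcongr
  refine h1.trans (mul_le_mul (sum_le_hasSum _ (fun k _ => hA0 k) hA) (sum_le_hasSum _ (fun k _ => hB0 k) hB)
    (Finset.sum_nonneg fun k _ => hB0 k) (hA.nonneg hA0))

end TQ
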