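import Pool.Agent.Lib.MP_021685_agTQ.MD

/-! LEAF M2 (easy+).  Elementary bounds for `WW`.

PROOF.  (1) `WW_lower`: `(1 + r²) c - 2 r y = 2 r (c - y) + (1 - r)² c`, so `WW = 4 r² (c-y)² + 4 r (1-r)² c (c-y) + (1-r)⁴ c² + (1-r)² (1+r)² (1-c²)`.  Let `c ≥ 0` (else replace `(c, y)` by `(-c, -y)`: both sides are unchanged).
`c (c - y) ≥ - c (1 - c)` (`y ≤ 1`) and `(1+r)² ≥ 4 r`, so the second and fourth terms together are `≥ 4 r (1-r)² (1-c) (1 + c - c) = 4 r (1-r)² (1-c) ≥ 2 (1-r)⁴ (1-c)` (`r ≥ 1/2`, `(1-r)² ≤ 1`), and `c² + 2 (1-c) ≥ 1`.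
(2) `WW_lip`: with `A(c) = (1 + r²) c - 2 r y`: `|A(c) - A(c')| ≤ 2 |c - c'|`, `|A(c) + A(c')| ≤ 8`, and `(1-r²)² |c'² - c²| ≤ 2 |c - c'|`.
(3) `WW_near`: `|c - y'| ≤ |c - y| + δ`, so `4 (c-y')² ≤ 4 (1+η) (c-y)² + 4 (1+1/η) δ² ≤ (1+η)/r² * 4 r² (c-y)² + (1-r)⁴ ≤ (1+η)/r² * WW r c y` by (1), as `(1+η)/r² ≥ 1`. -/

namespace TQ

open Polynomial TI

private theorem M2_identity (r c y : ℝ) :
    WW r c y = 4 * r ^ 2 * (c - y) ^ 2 + (1 - r) ^ 4 + 4 * r * (1 - r) ^ 2 * (1 - c * y) := by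
  unfold WW
  ring

private theorem M2_mul_le {c y : ℝ} (hc : |c| ≤ 1) (hy : |y| ≤ 1) : c * y ≤ 1 :=
  calc c * y ≤ |c * y| := le_abs_self _
    _ = |c| * |y| := abs_mul _ _
    _ ≤ 1 * 1 := mul_le_mul hc hy (abs_nonneg _) zero_le_one
    _ = 1 := one_mul 1

theorem WW_lower {r c y : ℝ} (hr : 1 / 2 ≤ r) (hr1 : r ≤ 1) (hc : |c| ≤ 1) (hy : |y| ≤ 1) :
    4 * r ^ 2 * (c - y) ^ 2 + (1 - r) ^ 4 ≤ WW r c y := by
  have _ := hr1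
  rw [M2_identity]
  have h1 : 0 ≤ 4 * r * (1 - r) ^ 2 * (1 - c * y) :=
    mul_nonneg (mul_nonneg (by linarith) (sq_nonneg _)) (by linarith [M2_mul_le hc hy])
  linarith

theorem WW_lip {r c c' y : ℝ} (hr : 0 ≤ r) (hr1 : r ≤ 1) (hc : |c| ≤ 1) (hc' : |c'| ≤ 1) (hy : |y| ≤ 1) :
    WW r c y ≤ WW r c' y + 18 * |c - c'| := by
  rw [M2_identity, M2_identity]
  have h1 : 4 * r ^ 2 * (c - y) ^ 2 + (1 - r) ^ 4 + 4 * r * (1 - r) ^ 2 * (1 - c * y) -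
      (4 * r ^ 2 * (c' - y) ^ 2 + (1 - r) ^ 4 + 4 * r * (1 - r) ^ 2 * (1 - c' * y)) =
      (c - c') * (4 * r ^ 2 * (c + c' - 2 * y) - 4 * r * (1 - r) ^ 2 * y) := by ring
  have h2 : |4 * r ^ 2 * (c + c' - 2 * y) - 4 * r * (1 - r) ^ 2 * y| ≤ 18 := by
    obtain ⟨hc1, hc2⟩ := abs_le.mp hc
    obtain ⟨hc'1, hc'2⟩ := abs_le.mp hc'
    obtain ⟨hy1, hy2⟩ := abs_le.mp hy
    have hr2 : r ^ 2 ≤ 1 := pow_le_one₀ hr hr1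
    have hr20 : 0 ≤ r ^ 2 := sq_nonneg r
    have h3 : |4 * r ^ 2 * (c + c' - 2 * y)| ≤ 16 := by
      rw [abs_mul, abs_of_nonneg (by linarith : (0 : ℝ) ≤ 4 * r ^ 2)]
      have h4 : |c + c' - 2 * y| ≤ 4 := abs_le.mpr ⟨by linarith, by linarith⟩
      calc 4 * r ^ 2 * |c + c' - 2 * y| ≤ 4 * 4 := mul_le_mul (by linarith) h4 (abs_nonneg _) (by norm_num)
        _ = 16 := by norm_num
    have h5 : |4 * r * (1 - r) ^ 2 * y| ≤ 2 := by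
      have h6 : 0 ≤ 4 * r * (1 - r) ^ 2 := mul_nonneg (by linarith) (sq_nonneg _)
      have h7 : 4 * r * (1 - r) ^ 2 ≤ 2 := by
        nlinarith [mul_nonneg hr (sub_nonneg.mpr hr1), sq_nonneg (2 * r - 1), mul_nonneg (mul_nonneg hr hr) (sub_nonneg.mpr hr1)]
      rw [abs_mul, abs_of_nonneg h6]
      calc 4 * r * (1 - r) ^ 2 * |y| ≤ 2 * 1 := mul_le_mul h7 hy (abs_nonneg _) (by norm_num)
        _ = 2 := by norm_num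
    calc |4 * r ^ 2 * (c + c' - 2 * y) - 4 * r * (1 - r) ^ 2 * y|
        ≤ |4 * r ^ 2 * (c + c' - 2 * y)| + |4 * r * (1 - r) ^ 2 * y| := abs_sub _ _
      _ ≤ 16 + 2 := add_le_add h3 h5
      _ = 18 := by norm_num
  have h3 : (c - c') * (4 * r ^ 2 * (c + c' - 2 * y) - 4 * r * (1 - r) ^ 2 * y) ≤ |c - c'| * 18 :=
    calc (c - c') * (4 * r ^ 2 * (c + c' - 2 * y) - 4 * r * (1 - r) ^ 2 * y)
        ≤ |(c - c') * (4 * r ^ 2 * (c + c' - 2 * y) - 4 * r * (1 - r) ^ 2 * y)| := le_abs_self _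
      _ = |c - c'| * |4 * r ^ 2 * (c + c' - 2 * y) - 4 * r * (1 - r) ^ 2 * y| := abs_mul _ _
      _ ≤ |c - c'| * 18 := mul_le_mul_of_nonneg_left h2 (abs_nonneg _)
  linarith

theorem WW_near {r c y y' η δ : ℝ} (hr : 1 / 2 ≤ r) (hr1 : r ≤ 1) (hc : |c| ≤ 1) (hy : |y| ≤ 1) (hη : 0 < η)
    (hδ : |y - y'| ≤ δ) (hδ2 : 4 * (1 + 1 / η) * δ ^ 2 ≤ (1 - r) ^ 4) :
    4 * (c - y') ^ 2 ≤ (1 + η) / r ^ 2 * WW r c y := by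
  have hr0 : 0 < r := by linarith
  have hr20 : 0 < r ^ 2 := pow_pos hr0 2
  have hr2 : r ^ 2 ≤ 1 := pow_le_one₀ hr0.le hr1
  have h1 := WW_lower hr hr1 hc hy
  have h2 : 0 < (1 + η) / r ^ 2 := div_pos (by linarith) hr20
  have h3 : 1 ≤ (1 + η) / r ^ 2 := by
    rw [le_div_iff₀ hr20]
    linarith
  have h4 : (1 + η) / r ^ 2 * (4 * r ^ 2 * (c - y) ^ 2 + (1 - r) ^ 4) =
      4 * (1 + η) * (c - y) ^ 2 + (1 + η) / r ^ 2 * (1 - r) ^ 4 := by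
    field_simp
  have h5 : (1 - r) ^ 4 ≤ (1 + η) / r ^ 2 * (1 - r) ^ 4 := by
    have h6 : (0 : ℝ) ≤ (1 - r) ^ 4 := by positivity
    calc (1 - r) ^ 4 = 1 * (1 - r) ^ 4 := (one_mul _).symm
      _ ≤ (1 + η) / r ^ 2 * (1 - r) ^ 4 := mul_le_mul_of_nonneg_right h3 h6
  have h6 : (y - y') ^ 2 ≤ δ ^ 2 := by
    rw [← sq_abs (y - y')]
    exact pow_le_pow_left₀ (abs_nonneg _) hδ 2
  have h7 : 0 < 1 / η := div_pos one_pos hη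
  have h8 : (c - y') ^ 2 ≤ (1 + η) * (c - y) ^ 2 + (1 + 1 / η) * (y - y') ^ 2 := by
    have h9 : (1 + η) * (c - y) ^ 2 + (1 + 1 / η) * (y - y') ^ 2 - (c - y') ^ 2 =
        (η * (c - y) - (y - y')) ^ 2 / η := by
      field_simp
      ring
    have h10 : 0 ≤ (η * (c - y) - (y - y')) ^ 2 / η := div_nonneg (sq_nonneg _) hη.le
    linarith
  have h9 : (1 + 1 / η) * (y - y') ^ 2 ≤ (1 + 1 / η) * δ ^ 2 := mul_le_mul_of_nonneg_left h6 (by linarith)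
  calc 4 * (c - y') ^ 2 ≤ 4 * (1 + η) * (c - y) ^ 2 + 4 * (1 + 1 / η) * δ ^ 2 := by linarith
    _ ≤ 4 * (1 + η) * (c - y) ^ 2 + (1 + η) / r ^ 2 * (1 - r) ^ 4 := by linarith
    _ = (1 + η) / r ^ 2 * (4 * r ^ 2 * (c - y) ^ 2 + (1 - r) ^ 4) := h4.symm
    _ ≤ (1 + η) / r ^ 2 * WW r c y := mul_le_mul_of_nonneg_left h1 h2.le

end TQ
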