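import Mathlib

/-! LEAF M3 (medium, Mathlib only).  Counting along the coefficients.

PROOF.  CLAIM: for `n ≤ g` and every `T ⊆ S` all of whose members have the same coefficients of index `≥ n`: `T.card ≤ ∏_{m < n} (1 + B m)`.  `n = 0`: all members of `T` are equal (`Polynomial.ext`), so `T.card ≤ 1`.
STEP `n → n + 1` (`n < g`): all members of `T` have the same coefficients of index `> n`, so the integers `h.coeff n`, `h ∈ T`, differ pairwise by at most `B n`; if `T` is not empty and `a` is the smallest of them, all lie in `{a, .., a + ⌊B n⌋}`, so there are at most `1 + B n`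
different values (`Finset.min'`, `Int.card_Icc`, `Int.floor_le`).  Each fibre `{h ∈ T | h.coeff n = v}` is a `T` for `n`, so it has at most `∏_{m < n} (1 + B m)` members; sum over the values (`Finset.card_eq_sum_card_image` or `Finset.card_le_mul_card_image`).
Finally `n = g`, `T = S`: all members are monic of degree `g`, so the coefficients of index `≥ g` agree. -/

namespace TQ

open Polynomial

theorem chain_card (g : ℕ) (S : Finset ℤ[X]) (B : ℕ → ℝ) (hB : ∀ m, 0 ≤ B m)
    (hS : ∀ h ∈ S, h.Monic ∧ h.natDegree = g)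
    (hd : ∀ h ∈ S, ∀ h' ∈ S, ∀ m < g, (∀ i, m < i → h.coeff i = h'.coeff i) →
      |((h.coeff m : ℤ) : ℝ) - ((h'.coeff m : ℤ) : ℝ)| ≤ B m) :
    (S.card : ℝ) ≤ ∏ m ∈ Finset.range g, (1 + B m) := by
  classical
  have claim : ∀ n ≤ g, ∀ T ⊆ S, (∀ h ∈ T, ∀ h' ∈ T, ∀ i, n ≤ i → h.coeff i = h'.coeff i) →
      (T.card : ℝ) ≤ ∏ m ∈ Finset.range n, (1 + B m) := by
    intro n
    induction n with
    | zero =>
      intro _ T _ hT
      have h1 : T.card ≤ 1 := Finset.card_le_one.2 fun a ha b hb =>
        Polynomial.ext fun i => hT a ha b hb i (Nat.zero_le i)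
      rw [Finset.range_zero, Finset.prod_empty]
      exact_mod_cast h1
    | succ n ih =>
      intro hn T hTS hT
      have hP : (0 : ℝ) ≤ ∏ m ∈ Finset.range n, (1 + B m) :=
        Finset.prod_nonneg fun m _ => by linarith [hB m]
      obtain ⟨V, hV⟩ : ∃ V, V = T.image fun h => h.coeff n := ⟨_, rfl⟩
      have hfib : ∀ v ∈ V, ((T.filter fun h => h.coeff n = v).card : ℝ) ≤
          ∏ m ∈ Finset.range n, (1 + B m) := by
        intro v _
        refine ih (by omega) _ ((Finset.filter_subset _ _).trans hTS) ?_
        intro h hh h' hh' i hi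
        rw [Finset.mem_filter] at hh hh'
        rcases Nat.eq_or_lt_of_le hi with rfl | hlt
        · rw [hh.2, hh'.2]
        · exact hT h hh.1 h' hh'.1 i hlt
      have hcard : (T.card : ℝ) ≤ V.card * ∏ m ∈ Finset.range n, (1 + B m) := by
        have e1 : T.card = ∑ v ∈ V, (T.filter fun h => h.coeff n = v).card := by
          rw [hV]
          exact Finset.card_eq_sum_card_image _ _
        rw [e1]
        push_cast
        calc ∑ v ∈ V, ((T.filter fun h => h.coeff n = v).card : ℝ)
            ≤ ∑ _v ∈ V, ∏ m ∈ Finset.range n, (1 + B m) := Finset.sum_le_sum hfib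
          _ = V.card * ∏ m ∈ Finset.range n, (1 + B m) := by
              rw [Finset.sum_const, nsmul_eq_mul]
      have hVc : (V.card : ℝ) ≤ 1 + B n := by
        rcases V.eq_empty_or_nonempty with hV0 | hVn
        · rw [hV0, Finset.card_empty, Nat.cast_zero]
          linarith [hB n]
        · obtain ⟨a, ha⟩ : ∃ a, a = V.min' hVn := ⟨_, rfl⟩
          have haV : a ∈ V := ha ▸ V.min'_mem hVn
          have hsub : V ⊆ Finset.Icc a (a + ⌊B n⌋) := by
            intro v hv
            have h1 : a ≤ v := ha ▸ V.min'_le v hv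
            have hv' := hv
            have ha' := haV
            rw [hV, Finset.mem_image] at hv' ha'
            obtain ⟨h, hh, hhv⟩ := hv'
            obtain ⟨h', hh', hha⟩ := ha'
            have h2 := hd h (hTS hh) h' (hTS hh') n (by omega)
              (fun i hi => hT h hh h' hh' i hi)
            rw [hhv, hha] at h2
            have h3 : ((v - a : ℤ) : ℝ) ≤ B n := by
              push_cast
              exact (le_abs_self _).trans h2
            have h4 : v - a ≤ ⌊B n⌋ := Int.le_floor.2 h3
            rw [Finset.mem_Icc]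
            exact ⟨h1, by omega⟩
          have h1 := Finset.card_le_card hsub
          rw [Int.card_Icc] at h1
          have h0 : 0 ≤ ⌊B n⌋ := Int.floor_nonneg.2 (hB n)
          have h2 : ((a + ⌊B n⌋ + 1 - a).toNat : ℤ) = ⌊B n⌋ + 1 := by omega
          have h3 : (V.card : ℤ) ≤ ⌊B n⌋ + 1 := by
            rw [← h2]
            exact_mod_cast h1
          have h4 : (V.card : ℝ) ≤ (⌊B n⌋ : ℝ) + 1 := by exact_mod_cast h3
          linarith [Int.floor_le (B n)]
      rw [Finset.prod_range_succ, mul_comm]
      exact hcard.trans (mul_le_mul_of_nonneg_right hVc hP)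
  refine claim g le_rfl S (Finset.Subset.refl S) ?_
  intro h hh h' hh' i hi
  obtain ⟨h1, h2⟩ := hS h hh
  obtain ⟨h3, h4⟩ := hS h' hh'
  rcases Nat.eq_or_lt_of_le hi with rfl | hlt
  · have e1 : h.coeff g = 1 := by
      rw [← h2]
      exact h1
    have e2 : h'.coeff g = 1 := by
      rw [← h4]
      exact h3
    rw [e1, e2]
  · rw [coeff_eq_zero_of_natDegree_lt (h2 ▸ hlt), coeff_eq_zero_of_natDegree_lt (h4 ▸ hlt)]

end TQ
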