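import Mathlib

/-! LEAF M5 (medium, Mathlib only).  The leading coefficient and the values at equally spaced points.

PROOF.  The `m`-th forward difference with step `σ` of a polynomial of degree `≤ m` is the constant `m! (u.coeff m) σ^m` (Mathlib: `fwdDiff_iter_eq_sum_shift`, `fwdDiff_iter_pow_lt`, `fwdDiff_iter_eq_factorial`, `Polynomial.fwdDiff_iter_degree_eq_factorial`; or apply them to `u.comp (C x + C σ * X)`, whose coefficient of index `m` is `u.coeff m * σ^m`;
or by induction on `m`: `v = u.comp (X + C σ) - u` has degree `≤ m - 1` and coefficient `m σ u.coeff m` of index `m - 1`, and `|v| ≤ 2 A` at `x + i σ`, `i ≤ m - 1`, which gives at once `m |u.coeff m| |σ|^m ≤ 2^(m-1) * 2 A`).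
On the other side it is `∑_{k ≤ m} (-1)^(m-k) (m choose k) u(x + k σ)`, at most `2^m A` in absolute value, and `m! ≥ 1`. -/

namespace TQ

open Polynomial

private theorem M5_coeff (m j : ℕ) (u : ℝ[X]) (hu : u.natDegree ≤ m + j) (σ : ℝ) :
    (taylor σ u).coeff m = ∑ i ∈ Finset.range (j + 1), ((i + m).choose m : ℝ) * u.coeff (i + m) * σ ^ i := by
  rw [taylor_coeff]
  have h1 : (hasseDeriv m u).natDegree < j + 1 := by
    have h2 := natDegree_hasseDeriv_le u m
    omega
  rw [eval_eq_sum_range' h1]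
  refine Finset.sum_congr rfl fun i _ => ?_
  rw [hasseDeriv_coeff]

private theorem M5_aux (σ : ℝ) (m : ℕ) : ∀ (u : ℝ[X]), u.natDegree ≤ m → ∀ (x A : ℝ),
    (∀ i : ℕ, i ≤ m → |u.eval (x + i * σ)| ≤ A) → |u.coeff m| * |σ| ^ m ≤ 2 ^ m * A := by
  induction m with
  | zero =>
    intro u hu x A hA
    have h1 := hA 0 le_rfl
    have h2 : u = C (u.coeff 0) := eq_C_of_natDegree_le_zero hu
    rw [h2, eval_C] at h1
    rw [pow_zero, pow_zero, mul_one, one_mul]
    exact h1
  | succ m ih =>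
    intro u hu x A hA
    have hv : (taylor σ u - u).natDegree ≤ m := by
      rw [natDegree_le_iff_coeff_eq_zero]
      intro N hN
      rw [coeff_sub]
      rcases Nat.lt_or_ge (m + 1) N with h1 | h1
      · rw [coeff_eq_zero_of_natDegree_lt (by rw [natDegree_taylor]; omega), coeff_eq_zero_of_natDegree_lt (by omega),
          sub_zero]
      · have h2 : N = m + 1 := by omega
        rw [h2, M5_coeff (m + 1) 0 u (by omega) σ]
        simp
    have hc : (taylor σ u - u).coeff m = ((m : ℝ) + 1) * u.coeff (m + 1) * σ := by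
      rw [coeff_sub, M5_coeff m 1 u (by omega) σ, Finset.sum_range_succ, Finset.sum_range_one]
      have h3 : (1 + m).choose m = m + 1 := by
        rw [add_comm 1 m, Nat.choose_succ_self_right]
      rw [h3, zero_add, Nat.choose_self, add_comm 1 m]
      push_cast
      ring
    have hA0 : 0 ≤ A := (abs_nonneg _).trans (hA 0 (Nat.zero_le _))
    have h1 := ih (taylor σ u - u) hv x (2 * A) (by
      intro i hi
      rw [eval_sub, taylor_eval]
      have h4 := hA (i + 1) (by omega)
      have h5 := hA i (by omega)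
      have h6 : x + (i : ℝ) * σ + σ = x + ((i + 1 : ℕ) : ℝ) * σ := by
        push_cast
        ring
      rw [h6]
      calc |eval (x + ((i + 1 : ℕ) : ℝ) * σ) u - eval (x + (i : ℝ) * σ) u|
          ≤ |eval (x + ((i + 1 : ℕ) : ℝ) * σ) u| + |eval (x + (i : ℝ) * σ) u| := abs_sub _ _
        _ ≤ 2 * A := by linarith)
    rw [hc, abs_mul, abs_mul] at h1
    have hm : |(m : ℝ) + 1| = (m : ℝ) + 1 := abs_of_nonneg (by positivity)
    rw [hm] at h1
    have h7 : |u.coeff (m + 1)| * |σ| ^ (m + 1) ≤ ((m : ℝ) + 1) * (|u.coeff (m + 1)| * |σ| ^ (m + 1)) := by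
      have h8 : 0 ≤ |u.coeff (m + 1)| * |σ| ^ (m + 1) := by positivity
      have h9 : (0 : ℝ) ≤ m := Nat.cast_nonneg m
      nlinarith
    calc |u.coeff (m + 1)| * |σ| ^ (m + 1) ≤ ((m : ℝ) + 1) * (|u.coeff (m + 1)| * |σ| ^ (m + 1)) := h7
      _ = ((m : ℝ) + 1) * |u.coeff (m + 1)| * |σ| * |σ| ^ m := by ring
      _ ≤ 2 ^ m * (2 * A) := h1
      _ = 2 ^ (m + 1) * A := by ring

theorem lead_le {m : ℕ} (u : ℝ[X]) (hu : u.natDegree ≤ m) (x σ : ℝ) {A : ℝ}
    (hA : ∀ i : ℕ, i ≤ m → |u.eval (x + i * σ)| ≤ A) : |u.coeff m| * |σ| ^ m ≤ 2 ^ m * A := by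
  exact M5_aux σ m u hu x A hA

end TQ
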