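import Pool.Agent.Lib.MP_021685_agTQ.M1

/-! LEAF M8 (easy+).  An irregular list has a low point.

PROOF.  For `g = 0` the hypothesis is `1 < exp 0`, false (`Real.zero_rpow`).  Let `g ≥ 1` and suppose that `exp(-g^(3/5)) < ‖PP θ (ta g * exp(i θ_j))‖` for all `j`.  Then `En θ ≥ ∏_j exp(-g^(3/5)) = exp(-g * g^(3/5)) = exp(-g^(8/5))` (`Finset.prod_le_prod`, `Finset.prod_const`,
`Real.rpow_add` / `Real.rpow_one`), a contradiction.  So some `j` has `‖PP ..‖ ≤ exp(-g^(3/5))`; square and use `norm_sq_PP`. -/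

namespace TQ

open Polynomial TI

theorem low_point {g : ℕ} (θ : Fin g → ℝ) (h : En θ < Real.exp (-((g : ℝ) ^ (8 / 5 : ℝ)))) :
    ∃ j, ∏ i, WW (ta g) (Real.cos (θ j)) (Real.cos (θ i)) ≤ Real.exp (-(2 * (g : ℝ) ^ (3 / 5 : ℝ))) := by
  by_contra hcon
  push Not at hcon
  rcases Nat.eq_zero_or_pos g with hg | hg
  · subst hg
    have h1 : ((0 : ℕ) : ℝ) ^ (8 / 5 : ℝ) = 0 := by
      rw [Nat.cast_zero]
      exact Real.zero_rpow (by norm_num)
    rw [h1, neg_zero, Real.exp_zero] at h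
    unfold En at h
    simp at h
  · have hg0 : (0 : ℝ) < (g : ℝ) := by exact_mod_cast hg
    have key : ∀ j, Real.exp (-((g : ℝ) ^ (3 / 5 : ℝ))) ≤
        ‖PP θ ((ta g : ℂ) * Complex.exp ((θ j : ℂ) * Complex.I))‖ := by
      intro j
      have h1 := hcon j
      rw [← norm_sq_PP θ (ta g) (θ j)] at h1
      have h2 : Real.exp (-(2 * (g : ℝ) ^ (3 / 5 : ℝ))) = Real.exp (-((g : ℝ) ^ (3 / 5 : ℝ))) ^ 2 := by
        rw [← Real.exp_nat_mul]
        congr 1
        push_cast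
        ring
      rw [h2] at h1
      exact le_of_lt (lt_of_pow_lt_pow_left₀ 2 (norm_nonneg _) h1)
    have h3 : Real.exp (-((g : ℝ) ^ (8 / 5 : ℝ))) ≤ En θ := by
      have h4 : Real.exp (-((g : ℝ) ^ (8 / 5 : ℝ))) =
          ∏ _j : Fin g, Real.exp (-((g : ℝ) ^ (3 / 5 : ℝ))) := by
        rw [Finset.prod_const, Finset.card_univ, Fintype.card_fin, ← Real.exp_nat_mul]
        congr 1
        have h5 : (g : ℝ) ^ (8 / 5 : ℝ) = (g : ℝ) * (g : ℝ) ^ (3 / 5 : ℝ) := by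
          have h6 : (8 / 5 : ℝ) = 1 + 3 / 5 := by norm_num
          rw [h6, Real.rpow_add hg0, Real.rpow_one]
        rw [h5]
        ring
      rw [h4]
      unfold En
      exact Finset.prod_le_prod (fun j _ => (Real.exp_pos _).le) (fun j _ => key j)
    exact absurd h (not_lt.mpr h3)

end TQ
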