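import Pool.Agent.Lib.MP_021685_agTQ.Defs

/-! Definitions for block ML. -/

namespace TQ

open Polynomial TI

/-- `|exp(-i t) - 2 r y + r² exp(i t)|²` for `c = cos t`: the square of the modulus of `1 - 2 y ζ + ζ²` at `ζ = r exp(i t)` -/
noncomputable def WW (r c y : ℝ) : ℝ :=
  ((1 + r ^ 2) * c - 2 * r * y) ^ 2 + (1 - r ^ 2) ^ 2 * (1 - c ^ 2)

end TQ
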