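import Pool.Agent.Lib.MP_021685_agTQ.V8

/-! LEAF N0 (easy+).  The slab with `g` instead of `n + J`.

PROOF.  `obtain ⟨n, rfl⟩ : ∃ n, g = n + J`, `n + J - J = n`; `slab_vol` with `β l = β' (Fin.natAdd n l)`, `e l = η (Fin.natAdd n l)`.  The sets: `(i : Fin (n + J))` with `n ≤ i` is `Fin.natAdd n l`, `l = ⟨i - n, _⟩`.  The product: `Fin.prod_univ_add`, the first `n` factors are `1` (`if_neg`), the others `2 * e l` (`if_pos`). -/

namespace TQ

open Polynomial TI

theorem slab_vol' {q g J : ℕ} (hq : 1 ≤ q) (hJ : 1 ≤ J) (hJg : J < g) (β η : Fin g → ℝ) (hη : ∀ i, 0 < η i) :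
    MeasureTheory.volume {b : Fin g → ℝ | b ∈ Rg q g ∧ ∀ i : Fin g, g - J ≤ (i : ℕ) → |b i - β i| < η i} ≤
      ENNReal.ofReal ((g.choose J : ℝ) * (4 * (g : ℝ)) ^ J * Real.sqrt q ^ (J * (g - J)) *
        (∏ i : Fin g, if g - J ≤ (i : ℕ) then 2 * η i else 1) *
        Real.sqrt q ^ ((g - J) * (g - J + 1) / 2) * KK (g - J)) := by
  obtain ⟨n, rfl⟩ : ∃ n, g = n + J := ⟨g - J, by omega⟩
  have hn : 1 ≤ n := by omega
  simp only [Nat.add_sub_cancel]
  have h1 := slab_vol (q := q) (n := n) (J := J) hq hn hJ (fun l => β (Fin.natAdd n l))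
    (fun l => η (Fin.natAdd n l)) (fun l => (hη _).le)
  have hset : {b : Fin (n + J) → ℝ | b ∈ Rg q (n + J) ∧ ∀ i : Fin (n + J), n ≤ (i : ℕ) → |b i - β i| < η i} =
      {b : Fin (n + J) → ℝ | b ∈ Rg q (n + J) ∧
        ∀ l : Fin J, |b (Fin.natAdd n l) - β (Fin.natAdd n l)| < η (Fin.natAdd n l)} := by
    refine Set.ext fun b => and_congr_right fun _ => ⟨fun h l => h _ ?_, fun h i hi => ?_⟩
    · rw [Fin.val_natAdd]
      omega
    · have h2 : i = Fin.natAdd n ⟨(i : ℕ) - n, by omega⟩ := by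
        apply Fin.ext
        rw [Fin.val_natAdd]
        show (i : ℕ) = n + ((i : ℕ) - n)
        omega
      rw [h2]
      exact h _
  have hprod : (∏ i : Fin (n + J), if n ≤ (i : ℕ) then 2 * η i else 1) = ∏ l : Fin J, (2 * η (Fin.natAdd n l)) := by
    rw [Fin.prod_univ_add]
    have h3 : (∏ i : Fin n, if n ≤ ((Fin.castAdd J i : Fin (n + J)) : ℕ) then 2 * η (Fin.castAdd J i) else 1) = 1 := by
      refine Finset.prod_eq_one fun i _ => if_neg ?_
      rw [Fin.val_castAdd]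
      have := i.2
      omega
    rw [h3, one_mul]
    refine Finset.prod_congr rfl fun l _ => if_pos ?_
    rw [Fin.val_natAdd]
    omega
  rw [hset, hprod]
  refine h1.trans (le_of_eq (congrArg ENNReal.ofReal ?_))
  push_cast
  ring

end TQ
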