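import Pool.Agent.Lib.MP_021685_agTQ.VD

/-! LEAF N1 (easy+).  Coordinates.

PROOF.  (1) `exists_coord`: for every `m` and every `p : ℤ[X]` of degree `< m` there is `b` with `p = ∑_{i<m} C (b i) bas_i`: induction on `m` (subtract `C (p.coeff m) * bas q m`, which is monic of degree `m` by `TI.bas_monic`; the difference has degree `< m`;
`Polynomial.degree_lt_iff_coeff_zero`).  Apply it to `p = h - bas q g`.
(2) `map_coord`: `Polynomial.map_add, map_sum, map_mul, map_C`, `Finset.sum_range`.
(3) `pre_coord`: `(g - k ≤ i → coefficient i equal)` iff `(g - k ≤ i → coordinate i equal)`: `pre g k h = pre g k h'` means that `h.coeff i = h'.coeff i` for `g - k ≤ i < g`.  `h - h' = ∑_{i<g} C (b i - b' i) bas_i`; if the coordinates `≥ g - k` agree the sum runs over `i < g - k` and has no coefficients of index `≥ g - k`.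
Conversely take the largest `i` with `b i ≠ b' i`; the coefficient of `X ^ i` of the difference is `b i - b' i ≠ 0`, so `i < g - k`. -/

namespace TQ

open Polynomial TI

private theorem N1_top (q m : ℕ) : (bas q m).coeff m = 1 := by
  have h1 := (bas_monic q m).1.coeff_natDegree
  rwa [(bas_monic q m).2] at h1

private theorem N1_low (q : ℕ) {m n : ℕ} (h : m < n) : (bas q m).coeff n = 0 := by
  refine coeff_eq_zero_of_natDegree_lt ?_
  rw [(bas_monic q m).2]
  exact h

private theorem N1_ex (q : ℕ) : ∀ (m : ℕ) (p : ℤ[X]), (∀ n, m ≤ n → p.coeff n = 0) →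
    ∃ b : ℕ → ℤ, p = ∑ i ∈ Finset.range m, C (b i) * bas q i := by
  intro m
  induction m with
  | zero =>
    intro p hp
    refine ⟨fun _ => 0, ?_⟩
    rw [Finset.range_zero, Finset.sum_empty]
    ext n
    rw [hp n (Nat.zero_le n), coeff_zero]
  | succ m ih =>
    intro p hp
    obtain ⟨b, hb⟩ := ih (p - C (p.coeff m) * bas q m) (by
      intro n hn
      rw [coeff_sub, coeff_C_mul]
      rcases hn.eq_or_lt with h | h
      · rw [← h, N1_top, mul_one, sub_self]
      · rw [N1_low q h, mul_zero, sub_zero]
        exact hp n h)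
    refine ⟨fun i => if i = m then p.coeff m else b i, ?_⟩
    rw [Finset.sum_range_succ]
    beta_reduce
    rw [if_pos rfl]
    have h2 : ∑ i ∈ Finset.range m, C (if i = m then p.coeff m else b i) * bas q i =
        ∑ i ∈ Finset.range m, C (b i) * bas q i := by
      refine Finset.sum_congr rfl fun i hi => ?_
      rw [if_neg (Finset.mem_range.1 hi).ne]
    rw [h2, ← hb, sub_add_cancel]

private theorem N1_coeff (q g n : ℕ) (b : ℕ → ℤ) :
    (bas q g + ∑ i ∈ Finset.range g, C (b i) * bas q i).coeff n =
      (bas q g).coeff n + ∑ i ∈ Finset.range g, b i * (bas q i).coeff n := by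
  rw [coeff_add, finsetSum_coeff]
  congr 1
  exact Finset.sum_congr rfl fun i _ => coeff_C_mul _

theorem exists_coord (q g : ℕ) {h : ℤ[X]} (hm : h.Monic) (hd : h.natDegree = g) :
    ∃ b : ℕ → ℤ, h = bas q g + ∑ i ∈ Finset.range g, C (b i) * bas q i := by
  obtain ⟨b, hb⟩ := N1_ex q g (h - bas q g) (by
    intro n hn
    rw [coeff_sub]
    rcases hn.eq_or_lt with h1 | h1
    · rw [← h1, N1_top]
      have h2 := hm.coeff_natDegree
      rw [hd] at h2
      rw [h2, sub_self]
    · rw [N1_low q h1, coeff_eq_zero_of_natDegree_lt (by rw [hd]; exact h1), sub_zero])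
  refine ⟨b, ?_⟩
  rw [← hb, add_sub_cancel]

theorem map_coord (q g : ℕ) (b : ℕ → ℤ) :
    (bas q g + ∑ i ∈ Finset.range g, C (b i) * bas q i).map (Int.castRingHom ℝ) =
      PE q (fun i : Fin g => ((b i : ℤ) : ℝ)) := by
  unfold PE DD
  rw [Polynomial.map_add, Polynomial.map_sum, Finset.sum_range]
  congr 1
  refine Finset.sum_congr rfl fun i _ => ?_
  rw [Polynomial.map_mul, map_C]
  rfl

theorem pre_coord (q : ℕ) {g k : ℕ} (hk : k ≤ g) (b b' : ℕ → ℤ) :
    pre g k (bas q g + ∑ i ∈ Finset.range g, C (b i) * bas q i) =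
        pre g k (bas q g + ∑ i ∈ Finset.range g, C (b' i) * bas q i) ↔
      ∀ i, g - k ≤ i → i < g → b i = b' i := by
  constructor
  · intro h
    have key : ∀ j, j < k → b (g - 1 - j) = b' (g - 1 - j) := by
      intro j
      induction j using Nat.strong_induction_on with
      | _ j ih =>
        intro hj
        have h1 : (bas q g + ∑ i ∈ Finset.range g, C (b i) * bas q i).coeff (g - 1 - j) =
            (bas q g + ∑ i ∈ Finset.range g, C (b' i) * bas q i).coeff (g - 1 - j) := congrFun h ⟨j, hj⟩
        rw [N1_coeff, N1_coeff, add_right_inj, ← sub_eq_zero, ← Finset.sum_sub_distrib] at h1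
        rw [Finset.sum_eq_single (g - 1 - j)] at h1
        · rw [N1_top, mul_one, mul_one, sub_eq_zero] at h1
          exact h1
        · intro i hi hne
          have hig := Finset.mem_range.1 hi
          rcases Nat.lt_or_ge i (g - 1 - j) with h2 | h2
          · rw [N1_low q h2, mul_zero, mul_zero, sub_zero]
          · have h3 : b i = b' i := by
              have h4 := ih (g - 1 - i) (by omega) (by omega)
              have h5 : g - 1 - (g - 1 - i) = i := by omega
              rwa [h5] at h4
            rw [h3, sub_self]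
        · intro h2
          exact absurd (Finset.mem_range.2 (by omega)) h2
    intro i hi1 hi2
    have h4 := key (g - 1 - i) (by omega)
    have h5 : g - 1 - (g - 1 - i) = i := by omega
    rwa [h5] at h4
  · intro h
    funext j
    show (bas q g + ∑ i ∈ Finset.range g, C (b i) * bas q i).coeff (g - 1 - (j : ℕ)) =
      (bas q g + ∑ i ∈ Finset.range g, C (b' i) * bas q i).coeff (g - 1 - (j : ℕ))
    rw [N1_coeff, N1_coeff]
    congr 1
    refine Finset.sum_congr rfl fun i hi => ?_
    have hig := Finset.mem_range.1 hi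
    have hj := j.2
    rcases Nat.lt_or_ge i (g - k) with h2 | h2
    · rw [N1_low q (show i < g - 1 - (j : ℕ) by omega), mul_zero, mul_zero]
    · rw [h i h2 hig]

end TQ
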