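import Mathlib

/-! LEAF N2 (medium, Mathlib only).  Disjoint boxes with the same image box.

PROOF.  The open boxes `Q_a = {x | ∀ i, |x i - a i| < η i}`, `a ∈ S`, are measurable (open), pairwise disjoint (`hd`: if `x` lies in two of them, at the coordinate `i` of `hd`: `|a i - a' i| ≤ |x i - a i| + |x i - a' i| < 2 η i`), of volume `∏ ofReal (2 η i)`
(`Real.volume_pi_Ioo` or `Real.volume_pi_ball` type lemma; `Q_a = Set.pi univ (fun i => Ioo (a i - η i) (a i + η i))`).  So the union `U` has volume `|S| ∏ 2 η i` (`MeasureTheory.measure_biUnion_finset`).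
The map `x ↦ (c i * x i)` multiplies volumes by `∏ c i` (`MeasureTheory.Measure.addHaar_image_linearMap` with `Matrix.toLin' (Matrix.diagonal c)` or `LinearMap.pi`; `Real.volume_preserving..`, `Matrix.det_diagonal`), and the image of `U` is inside `V`. -/

namespace TQ



/-- the image of the box around `a` -/
private def N2_Q {g : ℕ} (η c a : Fin g → ℝ) : Set (Fin g → ℝ) :=
  Set.pi Set.univ fun i => Set.Ioo (c i * (a i - η i)) (c i * (a i + η i))

private theorem N2_mem {g : ℕ} {η c a y : Fin g → ℝ} (hc : ∀ i, 0 < c i) (hy : y ∈ N2_Q η c a) (i : Fin g) :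
    |y i / c i - a i| < η i := by
  have h1 := hy i (Set.mem_univ i)
  have h2 : a i - η i < y i / c i := by
    rw [lt_div_iff₀ (hc i), mul_comm]
    exact h1.1
  have h3 : y i / c i < a i + η i := by
    rw [div_lt_iff₀ (hc i), mul_comm]
    exact h1.2
  rw [abs_lt]
  constructor <;> linarith

private theorem N2_vol {g : ℕ} {η c a : Fin g → ℝ} (hη : ∀ i, 0 < η i) (hc : ∀ i, 0 < c i) :
    MeasureTheory.volume (N2_Q η c a) = ENNReal.ofReal ((∏ i, c i) * ∏ i, (2 * η i)) := by
  unfold N2_Q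
  rw [Real.volume_pi_Ioo, ← ENNReal.ofReal_prod_of_nonneg]
  · rw [← Finset.prod_mul_distrib]
    exact congrArg _ (Finset.prod_congr rfl fun i _ => by ring)
  · intro i _
    have h1 := mul_pos (hc i) (hη i)
    nlinarith

theorem boxes {g : ℕ} (S : Finset (Fin g → ℝ)) (η c : Fin g → ℝ) (hη : ∀ i, 0 < η i) (hc : ∀ i, 0 < c i)
    (hd : ∀ a ∈ S, ∀ a' ∈ S, a ≠ a' → ∃ i, 2 * η i ≤ |a i - a' i|) (V : Set (Fin g → ℝ))
    (hV : ∀ a ∈ S, ∀ x : Fin g → ℝ, (∀ i, |x i - a i| < η i) → (fun i => c i * x i) ∈ V) :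
    ENNReal.ofReal ((S.card : ℝ) * (∏ i, c i) * ∏ i, (2 * η i)) ≤ MeasureTheory.volume V := by
  have h1 : (⋃ a ∈ S, N2_Q η c a) ⊆ V := by
    intro y hy
    obtain ⟨a, ha, hya⟩ := Set.mem_iUnion₂.1 hy
    have h2 := hV a ha (fun i => y i / c i) fun i => N2_mem hc hya i
    have h3 : (fun i => c i * (y i / c i)) = y := by
      funext i
      exact mul_div_cancel₀ _ (hc i).ne'
    rw [h3] at h2
    exact h2
  have hdis : Set.PairwiseDisjoint (S : Set (Fin g → ℝ)) (N2_Q η c) := by
    intro a ha a' ha' hne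
    refine Set.disjoint_left.2 fun y hy hy' => ?_
    obtain ⟨i, hi⟩ := hd a ha a' ha' hne
    have h2 := N2_mem hc hy i
    have h3 := N2_mem hc hy' i
    rw [abs_lt] at h2 h3
    have h4 : |a i - a' i| < 2 * η i := by
      rw [abs_lt]
      constructor <;> linarith [h2.1, h2.2, h3.1, h3.2]
    linarith
  have hmeas : ∀ a ∈ S, MeasurableSet (N2_Q η c a) := fun a _ =>
    MeasurableSet.univ_pi fun i => measurableSet_Ioo
  have h2 := MeasureTheory.measure_biUnion_finset (μ := MeasureTheory.volume) hdis hmeas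
  refine le_trans (le_of_eq ?_) (MeasureTheory.measure_mono h1)
  rw [h2, Finset.sum_congr rfl fun a _ => N2_vol hη hc, Finset.sum_const, nsmul_eq_mul, mul_assoc,
    ENNReal.ofReal_mul (Nat.cast_nonneg _), ENNReal.ofReal_natCast]

end TQ
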