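import Pool.Agent.Lib.MP_021685_agTQ.VC

/-! LEAF N3 (easy+).  The products.

PROOF.  (1) `eta_pos`: both branches are positive (`√q > 0`; `zpow_pos`).  (2) `eta_le`: for `2 ≤ i < g - J` the exponent `g - J - i` is `≥ 1 > 0` and `√q ≥ 1`, so `1/2 ≤ 1/2 (√q)^(..)` (`one_le_zpow₀`); otherwise equality.
(3) `eta_prod`: split the product over `Fin g` as a product over `Finset.range g` (`Finset.prod_range`); with `n = g - J ≥ 2`: the factor of `i = 0` is `s^n`, of `i = 1` it is `s^(n-1)`, of `2 ≤ i < n` it is `1`, and the factors with `i ≥ n` are those of the second product.  (`Fin.prod_univ` is awkward: write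
`2 η i = (if i < n then 2 η i else 1) * (if n ≤ i then 2 η i else 1)`, `Finset.prod_mul_distrib`, and for the first product `Finset.prod_eq_mul` of the two indices `0 ≠ 1`, all other factors are `1`.)
(4) `ch_prod`: `ch g i ≥ 1 / cosh (1/10)` (`Real.one_le_cosh`), `cosh (1/10) ≤ exp (1/200)` (`Real.cosh_le_exp_half_sq`), so the product is `≥ exp(-1/200)^g` (`Finset.prod_le_prod`, `Finset.prod_const`).  (5) `ch_le`: `cosh (i/(10 g)) ≤ cosh (1/10)` (`Real.cosh_le_cosh`, absolute values), and `ch_pos`. -/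

namespace TQ

open Polynomial TI

private theorem N3_sqrt {q : ℕ} (hq : 1 ≤ q) : (1 : ℝ) ≤ Real.sqrt q := by
  rw [Real.one_le_sqrt]
  exact_mod_cast hq

theorem eta_pos {q g J : ℕ} (hq : 1 ≤ q) (i : ℕ) : 0 < eta q g J i := by
  have h1 : (0 : ℝ) < Real.sqrt q := lt_of_lt_of_le one_pos (N3_sqrt hq)
  unfold eta
  split_ifs
  · norm_num
  · exact mul_pos (by norm_num) (zpow_pos h1 _)

theorem eta_le {q g J : ℕ} (hq : 1 ≤ q) (i : ℕ) :
    eta q g J i ≤ 1 / 2 * Real.sqrt q ^ ((g : ℤ) - (J : ℤ) - (i : ℤ)) := by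
  unfold eta
  split_ifs with h
  · have h1 : (1 : ℝ) ≤ Real.sqrt q ^ ((g : ℤ) - (J : ℤ) - (i : ℤ)) :=
      one_le_zpow₀ (N3_sqrt hq) (by omega)
    linarith
  · exact le_rfl

theorem eta_prod {q g J : ℕ} (hq : 1 ≤ q) (hn : 2 ≤ g - J) :
    ∏ i : Fin g, (2 * eta q g J i) = Real.sqrt q ^ (2 * (g - J) - 1) *
      ∏ i : Fin g, (if g - J ≤ (i : ℕ) then 2 * eta q g J i else 1) := by
  have h0 : (0 : ℝ) < Real.sqrt q := lt_of_lt_of_le one_pos (N3_sqrt hq)
  have hsplit : ∀ i : Fin g, 2 * eta q g J i =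
      (if (i : ℕ) < g - J then 2 * eta q g J i else 1) *
        (if g - J ≤ (i : ℕ) then 2 * eta q g J i else 1) := by
    intro i
    rcases lt_or_ge (i : ℕ) (g - J) with h | h
    · rw [if_pos h, if_neg (not_le.2 h), mul_one]
    · rw [if_neg (not_lt.2 h), if_pos h, one_mul]
  have hfirst : ∏ i : Fin g, (if (i : ℕ) < g - J then 2 * eta q g J i else 1) =
      Real.sqrt q ^ (2 * (g - J) - 1) := by
    have hg : 1 < g := by omega
    rw [Finset.prod_eq_mul_of_mem (⟨0, by omega⟩ : Fin g) (⟨1, hg⟩ : Fin g) (Finset.mem_univ _)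
      (Finset.mem_univ _) (by
        intro h
        rw [Fin.mk.injEq] at h
        omega)]
    · have e0 : (if ((⟨0, by omega⟩ : Fin g) : ℕ) < g - J then
          2 * eta q g J ((⟨0, by omega⟩ : Fin g) : ℕ) else 1) = Real.sqrt q ^ (g - J) := by
        rw [if_pos (show 0 < g - J by omega)]
        unfold eta
        rw [if_neg (by omega : ¬ (2 ≤ 0 ∧ 0 < g - J)), ← mul_assoc,
          show (g : ℤ) - J - ((0 : ℕ) : ℤ) = ((g - J : ℕ) : ℤ) by omega, zpow_natCast]
        norm_num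
      have e1 : (if ((⟨1, hg⟩ : Fin g) : ℕ) < g - J then
          2 * eta q g J ((⟨1, hg⟩ : Fin g) : ℕ) else 1) = Real.sqrt q ^ (g - J - 1) := by
        rw [if_pos (show 1 < g - J by omega)]
        unfold eta
        rw [if_neg (by omega : ¬ (2 ≤ 1 ∧ 1 < g - J)), ← mul_assoc,
          show (g : ℤ) - J - ((1 : ℕ) : ℤ) = ((g - J - 1 : ℕ) : ℤ) by omega, zpow_natCast]
        norm_num
      rw [e0, e1, ← pow_add]
      congr 1
      omega
    · rintro ⟨i, hi⟩ _ ⟨h1, h2⟩
      have h3 : i ≠ 0 := fun h => h1 (Fin.ext h)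
      have h4 : i ≠ 1 := fun h => h2 (Fin.ext h)
      by_cases h5 : i < g - J
      · rw [if_pos h5]
        unfold eta
        rw [if_pos (⟨by omega, h5⟩ : 2 ≤ i ∧ i < g - J)]
        norm_num
      · rw [if_neg h5]
  rw [← hfirst, ← Finset.prod_mul_distrib]
  exact Finset.prod_congr rfl fun i _ => hsplit i

theorem ch_pos (g i : ℕ) : 0 < ch g i := div_pos (Real.cosh_pos _) (Real.cosh_pos _)

theorem ch_le {g i : ℕ} (hi : i ≤ g) : ch g i ≤ 1 := by
  unfold ch
  rw [div_le_one (Real.cosh_pos _), Real.cosh_le_cosh]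
  have h1 : (i : ℝ) ≤ (g : ℝ) := by exact_mod_cast hi
  rw [abs_of_nonneg (by positivity), abs_of_nonneg (by norm_num)]
  rcases Nat.eq_zero_or_pos g with h | h
  · rw [h, Nat.cast_zero, mul_zero, div_zero]
    norm_num
  · have h2 : (0 : ℝ) < (g : ℝ) := by exact_mod_cast h
    rw [div_le_div_iff₀ (by positivity) (by norm_num)]
    linarith

theorem ch_prod (g : ℕ) : Real.exp (-((g : ℝ) / 200)) ≤ ∏ i : Fin g, ch g i := by
  have h1 : ∀ i : ℕ, Real.exp (-(1 / 200)) ≤ ch g i := by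
    intro i
    have h2 : Real.cosh (1 / 10) ≤ Real.exp (1 / 200) := by
      refine le_trans (Real.cosh_le_exp_half_sq (1 / 10)) (le_of_eq ?_)
      norm_num
    have h3 : (1 : ℝ) ≤ Real.cosh ((i : ℝ) / (10 * (g : ℝ))) := Real.one_le_cosh _
    have h4 : 0 < Real.cosh (1 / 10) := Real.cosh_pos _
    unfold ch
    rw [le_div_iff₀ h4]
    calc Real.exp (-(1 / 200)) * Real.cosh (1 / 10) ≤
          Real.exp (-(1 / 200)) * Real.exp (1 / 200) :=
          mul_le_mul_of_nonneg_left h2 (Real.exp_pos _).le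
      _ = 1 := by rw [← Real.exp_add, neg_add_cancel, Real.exp_zero]
      _ ≤ _ := h3
  have h5 : ∏ i : Fin g, Real.exp (-(1 / 200)) ≤ ∏ i : Fin g, ch g i :=
    Finset.prod_le_prod (fun i _ => (Real.exp_pos _).le) (fun i _ => h1 _)
  rw [Finset.prod_const, Finset.card_univ, Fintype.card_fin, ← Real.exp_nat_mul] at h5
  refine le_trans (le_of_eq ?_) h5
  congr 1
  ring

end TQ
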