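import Pool.Agent.Lib.MP_021685_agTQ.VS
import Pool.Agent.Lib.MP_021685_agTQ.N0
import Pool.Agent.Lib.MP_021685_agTQ.N1
import Pool.Agent.Lib.MP_021685_agTQ.N2
import Pool.Agent.Lib.MP_021685_agTQ.N3

/-! LEAF N4 (medium).  One slice.

PROOF.  Put `J = JJ g`, `n = g - J`.  For `h ∈ S` choose integers `b_h` with `h = bas q g + ∑ C (b_h i) bas_i` (`exists_coord`; the members of `Weil q g` are monic of degree `g`), and `a_h : Fin g → ℝ` their casts (`h.map = PE q a_h`, `map_coord`); `h ↦ a_h` is injective on `S` (equal coordinates give equal polynomials).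
`boxes` with `S' = S.image a`, `η i = eta q g (JJ g) i`, `c i = ch g i` and `V = {b | b ∈ Rg q g ∧ ∀ i, n ≤ i → |b i - β i| < eta q g (JJ g) i}`, `β i = ch g i * a_{h0} i` for a fixed `h0 ∈ S` (`S = ∅`: the left side is `0`).
(hd) two different members differ in a coordinate `i ≥ 2` (`pre_coord` with `k = g - 2` and `hne`), and they agree in the coordinates `≥ n` (`pre_coord` with `k = J` and `hsame`), so `2 ≤ i < n`, `2 eta q g (JJ g) i = 1 ≤ |difference of two different integers|`.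
(hV) `|x i - a i| < eta q g (JJ g) i`, put `e = x - a`: `shrink_mem` (`eta_le`) gives `(ch g i * x i) ∈ Rg`, and for `i ≥ n`: `a i = a_{h0} i`, `|ch g i * x i - ch g i * a i| ≤ |x i - a i| < eta q g (JJ g) i` (`ch_le`, `ch_pos`).
Then `slab_vol'` (`ENNReal.ofReal_le_ofReal_iff`, the right side is `≥ 0`), `eta_prod`, `ch_prod`; cancel the positive number `∏ i : Fin g, (if n ≤ i then 2 eta q g (JJ g) i else 1)`. -/

namespace TQ

open Polynomial TI

theorem slice_card (q : ℕ) (hq : 2 ≤ q) : ∃ g₀ : ℕ, ∀ g : ℕ, g₀ ≤ g → 1 ≤ JJ g → JJ g + 2 ≤ g → ∀ S : Finset ℤ[X],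
    (∀ h ∈ S, h ∈ Weil q g ∧ Reg q g h) → (∀ h ∈ S, ∀ h' ∈ S, pre g (JJ g) h = pre g (JJ g) h') →
    (∀ h ∈ S, ∀ h' ∈ S, h ≠ h' → pre g (g - 2) h ≠ pre g (g - 2) h') →
      (S.card : ℝ) * Real.exp (-((g : ℝ) / 200)) * Real.sqrt q ^ (2 * (g - JJ g) - 1) ≤
        (g.choose (JJ g) : ℝ) * (4 * (g : ℝ)) ^ JJ g * Real.sqrt q ^ (JJ g * (g - JJ g)) *
          Real.sqrt q ^ ((g - JJ g) * (g - JJ g + 1) / 2) * KK (g - JJ g) := by
  classical
  obtain ⟨g₀, H⟩ := shrink_mem q hq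
  refine ⟨g₀, fun g hg0 hJ hJg S hS hsame hne => ?_⟩
  have hq1 : 1 ≤ q := by omega
  have hq0 : (0 : ℝ) < Real.sqrt q := Real.sqrt_pos.2 (by exact_mod_cast (by omega : 0 < q))
  have hKK : 0 ≤ KK (g - JJ g) := ENNReal.toReal_nonneg
  rcases S.eq_empty_or_nonempty with hSe | ⟨h0, hh0⟩
  · rw [hSe, Finset.card_empty, Nat.cast_zero, zero_mul, zero_mul]
    positivity
  have hco : ∀ h : ℤ[X], ∃ b : ℕ → ℤ, h ∈ S →
      h = bas q g + ∑ i ∈ Finset.range g, C (b i) * bas q i := by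
    intro h
    by_cases hh : h ∈ S
    · obtain ⟨b, hb⟩ := exists_coord q g (hS h hh).1.1 (hS h hh).1.2.1
      exact ⟨b, fun _ => hb⟩
    · exact ⟨0, fun h' => absurd h' hh⟩
  choose B hB using hco
  obtain ⟨a, ha⟩ : ∃ a : ℤ[X] → Fin g → ℝ, a = fun h (i : Fin g) => ((B h (i : ℕ) : ℤ) : ℝ) := ⟨_, rfl⟩
  have hav : ∀ h (i : Fin g), a h i = ((B h (i : ℕ) : ℤ) : ℝ) := fun h i => by rw [ha]
  have hainj : Set.InjOn a S := by
    intro h hh h' hh' he
    calc h = bas q g + ∑ i ∈ Finset.range g, C (B h i) * bas q i := hB h hh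
      _ = bas q g + ∑ i ∈ Finset.range g, C (B h' i) * bas q i := by
          congr 1
          refine Finset.sum_congr rfl fun i hi => ?_
          have h1 : a h ⟨i, Finset.mem_range.1 hi⟩ = a h' ⟨i, Finset.mem_range.1 hi⟩ := by rw [he]
          rw [hav, hav] at h1
          have h2 : B h i = B h' i := by exact_mod_cast h1
          rw [h2]
      _ = h' := (hB h' hh').symm
  have hcard : (S.image a).card = S.card := Finset.card_image_of_injOn hainj
  have hmap : ∀ h ∈ S, h.map (Int.castRingHom ℝ) = PE q (a h) := by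
    intro h hh
    have h1 := map_coord q g (B h)
    rw [← hB h hh] at h1
    rw [h1, ha]
  have hs : ∀ h ∈ S, ∀ h' ∈ S, ∀ i, g - JJ g ≤ i → i < g → B h i = B h' i := by
    intro h hh h' hh'
    have h1 := pre_coord q (by omega : JJ g ≤ g) (B h) (B h')
    rw [← hB h hh, ← hB h' hh'] at h1
    exact h1.1 (hsame h hh h' hh')
  have hn' : ∀ h ∈ S, ∀ h' ∈ S, h ≠ h' → ∃ i, 2 ≤ i ∧ i < g ∧ B h i ≠ B h' i := by
    intro h hh h' hh' hne'
    by_contra hcon
    have h1 := pre_coord q (by omega : g - 2 ≤ g) (B h) (B h')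
    rw [← hB h hh, ← hB h' hh'] at h1
    refine hne h hh h' hh' hne' (h1.2 fun i hi hi' => ?_)
    by_contra h3
    exact hcon ⟨i, by omega, hi', h3⟩
  obtain ⟨V, hV⟩ : ∃ V : Set (Fin g → ℝ), V = {b : Fin g → ℝ | b ∈ Rg q g ∧
      ∀ i : Fin g, g - JJ g ≤ (i : ℕ) → |b i - (fun i : Fin g => ch g i * a h0 i) i| <
        (fun i : Fin g => eta q g (JJ g) i) i} := ⟨_, rfl⟩
  have hbox := boxes (S.image a) (fun i : Fin g => eta q g (JJ g) i) (fun i : Fin g => ch g i)
    (fun i => eta_pos hq1 i) (fun i => ch_pos g i)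
    (by
      intro a1 h1 a2 h2 hne'
      obtain ⟨h, hh, rfl⟩ := Finset.mem_image.1 h1
      obtain ⟨h', hh', rfl⟩ := Finset.mem_image.1 h2
      have hne2 : h ≠ h' := fun he => hne' (by rw [he])
      obtain ⟨i, hi2, hig, hBi⟩ := hn' h hh h' hh' hne2
      have hin : i < g - JJ g := by
        by_contra h3
        exact hBi (hs h hh h' hh' i (by omega) hig)
      refine ⟨⟨i, hig⟩, ?_⟩
      have h3 : (1 : ℤ) ≤ |B h i - B h' i| := Int.one_le_abs (sub_ne_zero.2 hBi)
      have h4 : (1 : ℝ) ≤ |((B h i : ℤ) : ℝ) - ((B h' i : ℤ) : ℝ)| := by exact_mod_cast h3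
      have h5 : eta q g (JJ g) i = 1 / 2 := if_pos ⟨hi2, hin⟩
      rw [hav, hav]
      show 2 * eta q g (JJ g) i ≤ |((B h i : ℤ) : ℝ) - ((B h' i : ℤ) : ℝ)|
      rw [h5]
      linarith) V
    (by
      intro a1 h1 x hx
      obtain ⟨h, hh, rfl⟩ := Finset.mem_image.1 h1
      rw [hV]
      refine ⟨?_, ?_⟩
      · have h2 := H g hg0 h (hS h hh).1 (hS h hh).2 (a h) (hmap h hh) (fun i => x i - a h i)
          (fun i => (hx i).le.trans (eta_le hq1 i))
        have h3 : (fun i : Fin g => ch g i * (a h i + (x i - a h i))) = fun i : Fin g => ch g i * x i := by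
          funext i
          ring
        rw [← h3]
        exact h2
      · intro i hi
        have h2 : a h i = a h0 i := by
          rw [hav, hav, hs h hh h0 hh0 i hi i.2]
        have h3 : ch g i * x i - ch g i * a h0 i = ch g i * (x i - a h i) := by
          rw [h2]
          ring
        show |ch g i * x i - ch g i * a h0 i| < eta q g (JJ g) i
        rw [h3, abs_mul, abs_of_pos (ch_pos g i)]
        refine lt_of_le_of_lt ?_ (hx i)
        exact mul_le_of_le_one_left (abs_nonneg _) (ch_le i.2.le))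
  have hslab := slab_vol' (q := q) (g := g) (J := JJ g) hq1 hJ (by omega)
    (fun i : Fin g => ch g i * a h0 i) (fun i : Fin g => eta q g (JJ g) i) (fun i => eta_pos hq1 i)
  rw [← hV] at hslab
  have hfin := hbox.trans hslab
  obtain ⟨P, hP⟩ : ∃ P : ℝ, P = ∏ i : Fin g, (if g - JJ g ≤ (i : ℕ) then 2 * eta q g (JJ g) i else 1) :=
    ⟨_, rfl⟩
  have hP0 : 0 < P := by
    rw [hP]
    refine Finset.prod_pos fun i _ => ?_
    split_ifs
    · have := eta_pos (q := q) (g := g) (J := JJ g) hq1 i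
      positivity
    · exact one_pos
  have hep := eta_prod (q := q) (g := g) (J := JJ g) hq1 (by omega)
  rw [hcard] at hfin
  rw [← hP] at hep
  have hfin2 : ENNReal.ofReal ((S.card : ℝ) * (∏ i : Fin g, ch g i) *
        (Real.sqrt q ^ (2 * (g - JJ g) - 1) * P)) ≤
      ENNReal.ofReal ((g.choose (JJ g) : ℝ) * (4 * (g : ℝ)) ^ JJ g *
        Real.sqrt q ^ (JJ g * (g - JJ g)) * P *
        Real.sqrt q ^ ((g - JJ g) * (g - JJ g + 1) / 2) * KK (g - JJ g)) := by
    rw [← hep, hP]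
    exact hfin
  rw [ENNReal.ofReal_le_ofReal_iff (by positivity)] at hfin2
  have hcp := ch_prod g
  refine le_of_mul_le_mul_right ?_ hP0
  calc (S.card : ℝ) * Real.exp (-((g : ℝ) / 200)) * Real.sqrt q ^ (2 * (g - JJ g) - 1) * P
      = (S.card : ℝ) * Real.exp (-((g : ℝ) / 200)) * (Real.sqrt q ^ (2 * (g - JJ g) - 1) * P) := by ring
    _ ≤ (S.card : ℝ) * (∏ i : Fin g, ch g i) * (Real.sqrt q ^ (2 * (g - JJ g) - 1) * P) := by
        refine mul_le_mul_of_nonneg_right (mul_le_mul_of_nonneg_left hcp (Nat.cast_nonneg _)) ?_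
        positivity
    _ ≤ _ := hfin2
    _ = _ := by ring

end TQ
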