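import Pool.Agent.Lib.MP_021685_agTQ.Defs
import Pool.Agent.Lib.MP_021685_agTJ.JA7

/-! LEAF N5 (medium-).  The number of slices.

PROOF.  `TJ.pre_card_le` and: `2 g + √g ≤ (5/2) g` (`g ≥ 4`); each factor of the product is at most `(31/10) s^(j+1)`, `s = √q ≥ 1`: `k - j - 1/5 ≥ 4/5 ≥ (89/100)²`, so the first summand is `≤ (1789/890) s^(j+1) ≤ (21/10) s^(j+1)` (divide by `j + 1 ≥ 1`), and `1/√g ≤ 1 ≤ s^(j+1)`.
The product of the powers is `s^(k(k+1)/2)` (`Finset.prod_pow_eq_pow_sum`, `Finset.sum_range_id_mul_two`), and `(5/2)(31/10) ≤ 9`. -/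

namespace TQ

open Polynomial TI

private theorem N5_sum (k : ℕ) : ∑ j ∈ Finset.range k, (j + 1) = k * (k + 1) / 2 := by
  have h := Finset.sum_range_id_mul_two (k + 1)
  rw [Finset.sum_range_succ'] at h
  simp only [add_zero, Nat.add_sub_cancel] at h
  have h2 : (k + 1) * k = k * (k + 1) := Nat.mul_comm _ _
  omega

private theorem N5_factor {s G : ℝ} {k j : ℕ} (hs : 1 ≤ s) (hG : 1 ≤ G) (hj : j < k) :
    (1789 / 1000) * s ^ (j + 1) / (((j : ℝ) + 1) * Real.sqrt ((k : ℝ) - j - 1 / 5)) +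
      1 / Real.sqrt G ≤ (31 / 10) * s ^ (j + 1) := by
  have hjk : (j : ℝ) + 1 ≤ (k : ℝ) := by exact_mod_cast hj
  have h1 : (89 / 100 : ℝ) ≤ Real.sqrt ((k : ℝ) - j - 1 / 5) := by
    apply Real.le_sqrt_of_sq_le
    nlinarith
  have hj0 : (0 : ℝ) ≤ (j : ℝ) := Nat.cast_nonneg j
  have hden : (89 / 100 : ℝ) ≤ ((j : ℝ) + 1) * Real.sqrt ((k : ℝ) - j - 1 / 5) := by
    nlinarith
  have hsp : (1 : ℝ) ≤ s ^ (j + 1) := one_le_pow₀ hs
  have hnum : (0 : ℝ) ≤ (1789 / 1000) * s ^ (j + 1) := by positivity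
  have h2 : (1789 / 1000) * s ^ (j + 1) / (((j : ℝ) + 1) * Real.sqrt ((k : ℝ) - j - 1 / 5)) ≤
      (1789 / 1000) * s ^ (j + 1) / (89 / 100) :=
    div_le_div_of_nonneg_left hnum (by norm_num) hden
  have h3 : (1789 / 1000) * s ^ (j + 1) / (89 / 100) ≤ (21 / 10) * s ^ (j + 1) := by
    rw [div_le_iff₀ (by norm_num)]
    nlinarith
  have h4 : 1 / Real.sqrt G ≤ 1 := by
    have hsq : 1 ≤ Real.sqrt G := Real.one_le_sqrt.mpr hG
    rw [div_le_one (by linarith)]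
    exact hsq
  linarith

theorem slices_card {q g k : ℕ} (hq : 1 ≤ q) (hg : 4 ≤ g) (hk : k ≤ g) :
    (((pre g k) '' Weil q g).ncard : ℝ) ≤ (9 * (g : ℝ)) ^ k * Real.sqrt q ^ (k * (k + 1) / 2) := by
  have hg1 : 1 ≤ g := le_trans (by norm_num) hg
  have hG4 : (4 : ℝ) ≤ (g : ℝ) := by exact_mod_cast hg
  have hG1 : (1 : ℝ) ≤ (g : ℝ) := by linarith
  have hq1 : (1 : ℝ) ≤ (q : ℝ) := by exact_mod_cast hq
  have hs : 1 ≤ Real.sqrt q := Real.one_le_sqrt.mpr hq1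
  have hs0 : 0 ≤ Real.sqrt q := Real.sqrt_nonneg _
  have hbase : 2 * (g : ℝ) + Real.sqrt g ≤ (5 / 2) * (g : ℝ) := by
    have h : Real.sqrt g ≤ (g : ℝ) / 2 := by
      apply Real.sqrt_le_iff.mpr
      constructor
      · linarith
      · nlinarith
    linarith
  have hbase0 : 0 ≤ 2 * (g : ℝ) + Real.sqrt g := by positivity
  have hprod : ∏ j ∈ Finset.range k,
        ((1789 / 1000) * Real.sqrt q ^ (j + 1) / (((j : ℝ) + 1) * Real.sqrt ((k : ℝ) - j - 1 / 5)) +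
          1 / Real.sqrt g) ≤ ∏ j ∈ Finset.range k, ((31 / 10) * Real.sqrt q ^ (j + 1)) := by
    apply Finset.prod_le_prod
    · intro j _
      positivity
    · intro j hj
      exact N5_factor hs hG1 (Finset.mem_range.mp hj)
  have hprod2 : ∏ j ∈ Finset.range k, ((31 / 10 : ℝ) * Real.sqrt q ^ (j + 1)) =
      (31 / 10) ^ k * Real.sqrt q ^ (k * (k + 1) / 2) := by
    rw [Finset.prod_mul_distrib, Finset.prod_const, Finset.card_range,
      Finset.prod_pow_eq_pow_sum, N5_sum]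
  have hp0 : (0 : ℝ) ≤ ∏ j ∈ Finset.range k, ((31 / 10 : ℝ) * Real.sqrt q ^ (j + 1)) :=
    Finset.prod_nonneg (fun j _ => by positivity)
  calc (((pre g k) '' Weil q g).ncard : ℝ) ≤ (2 * (g : ℝ) + Real.sqrt g) ^ k *
      ∏ j ∈ Finset.range k,
        ((1789 / 1000) * Real.sqrt q ^ (j + 1) / (((j : ℝ) + 1) * Real.sqrt ((k : ℝ) - j - 1 / 5)) +
          1 / Real.sqrt g) := TJ.pre_card_le hq hg1 hk
    _ ≤ (2 * (g : ℝ) + Real.sqrt g) ^ k *
        ∏ j ∈ Finset.range k, ((31 / 10 : ℝ) * Real.sqrt q ^ (j + 1)) :=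
        mul_le_mul_of_nonneg_left hprod (pow_nonneg hbase0 k)
    _ ≤ ((5 / 2) * (g : ℝ)) ^ k *
        ∏ j ∈ Finset.range k, ((31 / 10 : ℝ) * Real.sqrt q ^ (j + 1)) :=
        mul_le_mul_of_nonneg_right (pow_le_pow_left₀ hbase0 hbase k) hp0
    _ = (((5 / 2) * (g : ℝ)) * (31 / 10)) ^ k * Real.sqrt q ^ (k * (k + 1) / 2) := by
        rw [hprod2, mul_pow (((5 : ℝ) / 2) * (g : ℝ)) (31 / 10) k, mul_assoc]
    _ ≤ (9 * (g : ℝ)) ^ k * Real.sqrt q ^ (k * (k + 1) / 2) := by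
        apply mul_le_mul_of_nonneg_right _ (pow_nonneg hs0 _)
        apply pow_le_pow_left₀ (by positivity)
        nlinarith

end TQ
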