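import Pool.Agent.Lib.MP_021685_agTQ.Defs

/-! LEAF N6 (medium).  Numbers.

PROOF.  (1) `JJ_bounds`: `JJ g ≤ ⌈g^(9/10)⌉ + 1 ≤ g^(9/10) + 2`, `JJ g ≥ ⌈g^(9/10)⌉ ≥ 1` for `g ≥ 1`; `g^(9/10) + 2 + 2 ≤ g` for large `g`.
(2) `num_planes`: `C(g,J) ≤ g^J` (`Nat.choose_le_pow`), so the left side is at most `exp(J (log 36 + 3 log g + 2 log s) + log s)`, `J ≤ g^(9/10) + 2 ≤ 2 g^(9/10)`, and `2 g^(9/10) (log 36 + 3 log g + 2 log s) + log s ≤ g^(19/20)` for `g ≥ g₀(s)` (`isLittleO_log_rpow_atTop`, `tendsto_rpow_atTop`, or `Real.add_one_le_exp`; divide by `g^(9/10)`). -/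

namespace TQ

open Polynomial TI

private theorem N6_ev (r : ℝ) (hr : 0 < r) (c : ℝ) : ∀ᶠ g : ℕ in Filter.atTop, c ≤ (g : ℝ) ^ r :=
  ((tendsto_rpow_atTop hr).comp tendsto_natCast_atTop_atTop).eventually_ge_atTop c

private theorem N6_log (r : ℝ) (hr : 0 < r) (c : ℝ) (hc : 0 < c) :
    ∀ᶠ g : ℕ in Filter.atTop, Real.log (g : ℝ) ≤ c * (g : ℝ) ^ r := by
  have h1 := (isLittleO_log_rpow_atTop hr).bound hc
  have h2 := tendsto_natCast_atTop_atTop (R := ℝ) |>.eventually h1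
  refine h2.mono fun g hg => ?_
  have h3 : ‖(g : ℝ) ^ r‖ = (g : ℝ) ^ r := by
    rw [Real.norm_eq_abs, abs_of_nonneg (Real.rpow_nonneg (Nat.cast_nonneg g) r)]
  rw [h3] at hg
  exact (le_abs_self _).trans hg

theorem JJ_bounds : ∃ g₀ : ℕ, ∀ g : ℕ, g₀ ≤ g → 1 ≤ JJ g ∧ JJ g + 2 ≤ g ∧ (JJ g : ℝ) ≤ (g : ℝ) ^ (9 / 10 : ℝ) + 2 := by
  have h1 := N6_ev (1 / 10) (by norm_num) 2
  have h2 := N6_ev (9 / 10) (by norm_num) 4
  obtain ⟨g₀, h3⟩ := Filter.eventually_atTop.1 ((h1.and h2).and (Filter.eventually_ge_atTop 1))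
  refine ⟨g₀, fun g hg => ?_⟩
  obtain ⟨⟨h4, h5⟩, h6⟩ := h3 g hg
  obtain ⟨c, hc⟩ : ∃ c, c = ⌈(g : ℝ) ^ (9 / 10 : ℝ)⌉₊ := ⟨_, rfl⟩
  have hg0 : (0 : ℝ) < g := by exact_mod_cast h6
  have hpos : (0 : ℝ) ≤ (g : ℝ) ^ (9 / 10 : ℝ) := by linarith
  have hJ : JJ g = c ∨ JJ g = c + 1 := by
    unfold JJ
    rw [← hc]
    split_ifs
    · exact Or.inl rfl
    · exact Or.inr rfl
  have hlt : (c : ℝ) < (g : ℝ) ^ (9 / 10 : ℝ) + 1 := by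
    rw [hc]
    exact Nat.ceil_lt_add_one hpos
  have hle : (g : ℝ) ^ (9 / 10 : ℝ) ≤ c := by
    rw [hc]
    exact Nat.le_ceil _
  have hc4 : 4 ≤ c := by
    have : (4 : ℝ) ≤ c := h5.trans hle
    exact_mod_cast this
  have hJle : (JJ g : ℝ) ≤ (g : ℝ) ^ (9 / 10 : ℝ) + 2 := by
    rcases hJ with h | h
    · rw [h]
      linarith
    · rw [h]
      push_cast
      linarith
  have hmul : (g : ℝ) ^ (9 / 10 : ℝ) * (g : ℝ) ^ (1 / 10 : ℝ) = g := by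
    rw [← Real.rpow_add hg0]
    norm_num
  have hbig : (g : ℝ) ^ (9 / 10 : ℝ) + 4 ≤ g := by
    nlinarith [mul_le_mul_of_nonneg_left h4 hpos]
  refine ⟨?_, ?_, hJle⟩
  · omega
  · have : (JJ g : ℝ) + 2 ≤ g := by linarith
    exact_mod_cast this

theorem num_planes (s : ℝ) (hs : 1 ≤ s) : ∃ g₀ : ℕ, ∀ g : ℕ, g₀ ≤ g → ∀ J : ℕ, (J : ℝ) ≤ (g : ℝ) ^ (9 / 10 : ℝ) + 2 →
    (g.choose J : ℝ) * (36 * (g : ℝ) ^ 2) ^ J * s ^ (2 * J + 1) ≤ Real.exp ((g : ℝ) ^ (19 / 20 : ℝ)) := by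
  have hlogs : 0 ≤ Real.log s := Real.log_nonneg hs
  have hs0 : 0 < s := by linarith
  have h1 := N6_ev (1 / 20) (by norm_num) (2 * (2 * Real.log (36 * s ^ 2) + Real.log s))
  have h2 := N6_ev (9 / 10) (by norm_num) 2
  have h2' := N6_log (1 / 20) (by norm_num) (1 / 12) (by norm_num)
  obtain ⟨g₀, h3⟩ := Filter.eventually_atTop.1 (((h1.and h2).and h2').and (Filter.eventually_ge_atTop 1))
  refine ⟨g₀, fun g hg J hJ => ?_⟩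
  obtain ⟨⟨⟨h4, h5⟩, h6⟩, h7⟩ := h3 g hg
  have hg1 : (1 : ℝ) ≤ g := by exact_mod_cast h7
  have hg0 : (0 : ℝ) < g := by linarith
  have hlogg : 0 ≤ Real.log (g : ℝ) := Real.log_nonneg hg1
  have hB0 : 0 < 36 * s ^ 2 * (g : ℝ) ^ 3 := by positivity
  have h36 : (1 : ℝ) ≤ 36 * s ^ 2 := by nlinarith
  have hlog36 : 0 ≤ Real.log (36 * s ^ 2) := Real.log_nonneg h36
  have hlogB : Real.log (36 * s ^ 2 * (g : ℝ) ^ 3) = Real.log (36 * s ^ 2) + 3 * Real.log g := by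
    rw [Real.log_mul (by positivity) (by positivity), Real.log_pow]
    norm_num
  have hch : (g.choose J : ℝ) ≤ (g : ℝ) ^ J := by
    exact_mod_cast Nat.choose_le_pow g J
  have hstep1 : (g.choose J : ℝ) * (36 * (g : ℝ) ^ 2) ^ J * s ^ (2 * J + 1) ≤
      (36 * s ^ 2 * (g : ℝ) ^ 3) ^ J * s := by
    calc (g.choose J : ℝ) * (36 * (g : ℝ) ^ 2) ^ J * s ^ (2 * J + 1) ≤
          (g : ℝ) ^ J * (36 * (g : ℝ) ^ 2) ^ J * s ^ (2 * J + 1) := by gcongr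
      _ = (36 * s ^ 2 * (g : ℝ) ^ 3) ^ J * s := by
          have e1 : 36 * s ^ 2 * (g : ℝ) ^ 3 = (g : ℝ) * (36 * (g : ℝ) ^ 2) * s ^ 2 := by ring
          rw [pow_succ s (2 * J), pow_mul s 2 J, e1, mul_pow ((g : ℝ) * (36 * (g : ℝ) ^ 2)),
            mul_pow (g : ℝ) (36 * (g : ℝ) ^ 2), mul_assoc _ ((s ^ 2) ^ J) s]
  refine hstep1.trans ?_
  have hexp : (36 * s ^ 2 * (g : ℝ) ^ 3) ^ J * s =
      Real.exp ((J : ℝ) * Real.log (36 * s ^ 2 * (g : ℝ) ^ 3) + Real.log s) := by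
    rw [Real.exp_add, Real.exp_log hs0, mul_comm (J : ℝ), ← Real.rpow_def_of_pos hB0, Real.rpow_natCast]
  rw [hexp]
  apply Real.exp_le_exp.2
  obtain ⟨x, hx⟩ : ∃ x, x = (g : ℝ) ^ (9 / 10 : ℝ) := ⟨_, rfl⟩
  obtain ⟨y, hy⟩ : ∃ y, y = (g : ℝ) ^ (1 / 20 : ℝ) := ⟨_, rfl⟩
  have hxy : (g : ℝ) ^ (19 / 20 : ℝ) = x * y := by
    rw [hx, hy, ← Real.rpow_add hg0]
    norm_num
  rw [← hx] at h5 hJ
  rw [← hy] at h4 h6
  rw [hxy, hlogB]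
  have hJ2 : (J : ℝ) ≤ 2 * x := by linarith
  have hL0 : 0 ≤ Real.log (36 * s ^ 2) + 3 * Real.log g := by linarith
  have ha : (J : ℝ) * (Real.log (36 * s ^ 2) + 3 * Real.log g) ≤
      2 * x * (Real.log (36 * s ^ 2) + 3 * Real.log g) := mul_le_mul_of_nonneg_right hJ2 hL0
  have hb : Real.log s ≤ x * Real.log s := by nlinarith
  have hc : 2 * (Real.log (36 * s ^ 2) + 3 * Real.log g) + Real.log s ≤ y := by linarith
  have hd : x * (2 * (Real.log (36 * s ^ 2) + 3 * Real.log g) + Real.log s) ≤ x * y :=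
    mul_le_mul_of_nonneg_left hc (by linarith)
  nlinarith [ha, hb, hd]

end TQ
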