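import Pool.Agent.Lib.MP_021685_agTQ.N4
import Pool.Agent.Lib.MP_021685_agTQ.N5
import Pool.Agent.Lib.MP_021685_agTQ.N6
import Pool.Agent.Lib.MP_021685_agTI.Fi

/-! LEAF N7 (medium).  The sum over the slices.

PROOF.  (1) `card_slices` (pure): `R` finite, `f` (= `pre g (g-2)`), `p` (= `pre g J`); for every value `w ∈ p '' R` the set `f '' {h ∈ R | p h = w}` has at most `M` elements (choose a finite set `S` of representatives, one for each value of `f`: `Set.Finite.toFinset`, `Finset.exists_subset_image..`, or `Function.invFunOn`;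
`hM` applied to `S`), and `f '' R` is the union over `w`: `Set.ncard_iUnion..` / `Finset.card_biUnion_le`.
(2) `planes_le`: `R = {h | h ∈ Weil q g ∧ Reg q g h}` (finite by `TI.Weil_finite`), `slice_card` divided by `exp(-g/200) s^(2n-1)`: `M = (..) exp(g/200) / s^(2n-1)`, `(p '' R).ncard ≤ (p '' Weil q g).ncard ≤ (9g)^J s^(J(J+1)/2)` (`slices_card`).  Exponents, `n = g - J`: `J(J+1)/2 + J n + n(n+1)/2 = g(g+1)/2`
(`Nat.div` : both `J(J+1)` and `n(n+1)` are even), `2 g = (2 n - 1) + (2 J + 1)`; `(9g)^J (4g)^J = (36 g^2)^J`; `num_planes` with `s = √q`. -/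

namespace TQ

open Polynomial TI

private theorem N7_biUnion {α β : Type*} [DecidableEq β] (s : Finset β) (F : β → Set α) :
    (⋃ w ∈ s, F w).ncard ≤ ∑ w ∈ s, (F w).ncard := by
  induction s using Finset.induction_on with
  | empty => simp
  | insert a s ha ih =>
    rw [Finset.sum_insert ha, Finset.set_biUnion_insert]
    exact (Set.ncard_union_le _ _).trans (Nat.add_le_add_left ih _)

private theorem N7_exp (J n g : ℕ) (h : g = n + J) :
    J * (J + 1) / 2 + J * n + n * (n + 1) / 2 = g * (g + 1) / 2 := by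
  have h1 : 2 * (J * (J + 1) / 2) = J * (J + 1) := Nat.two_mul_div_two_of_even (Nat.even_mul_succ_self J)
  have h2 : 2 * (n * (n + 1) / 2) = n * (n + 1) := Nat.two_mul_div_two_of_even (Nat.even_mul_succ_self n)
  have h3 : 2 * (g * (g + 1) / 2) = g * (g + 1) := Nat.two_mul_div_two_of_even (Nat.even_mul_succ_self g)
  have h4 : g * (g + 1) = J * (J + 1) + 2 * (J * n) + n * (n + 1) := by
    rw [h]
    ring
  omega

theorem card_slices {A B D : Type} (R : Set A) (hR : R.Finite) (f : A → B) (p : A → D) {M : ℝ} (hM0 : 0 ≤ M)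
    (hM : ∀ S : Finset A, (∀ h ∈ S, h ∈ R) → (∀ h ∈ S, ∀ h' ∈ S, p h = p h') →
      (∀ h ∈ S, ∀ h' ∈ S, h ≠ h' → f h ≠ f h') → (S.card : ℝ) ≤ M) :
    ((f '' R).ncard : ℝ) ≤ ((p '' R).ncard : ℝ) * M := by
  classical
  have hpfin : (p '' R).Finite := hR.image p
  have hone : ∀ w ∈ hpfin.toFinset, ((f '' {h | h ∈ R ∧ p h = w}).ncard : ℝ) ≤ M := by
    intro w _
    obtain ⟨s', hs', hbij⟩ := Set.exists_subset_bijOn {h | h ∈ R ∧ p h = w} f
    have hfin : s'.Finite := hR.subset fun h hh => (hs' hh).1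
    have h1 : (f '' {h | h ∈ R ∧ p h = w}).ncard = hfin.toFinset.card := by
      rw [← hbij.image_eq, Set.InjOn.ncard_image hbij.injOn, Set.ncard_eq_toFinset_card _ hfin]
    rw [h1]
    refine hM _ (fun h hh => (hs' (hfin.mem_toFinset.1 hh)).1) (fun h hh h' hh' => ?_)
      (fun h hh h' hh' hne he => ?_)
    · rw [(hs' (hfin.mem_toFinset.1 hh)).2, (hs' (hfin.mem_toFinset.1 hh')).2]
    · exact hne (hbij.injOn (hfin.mem_toFinset.1 hh) (hfin.mem_toFinset.1 hh') he)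
  have hsub : f '' R ⊆ ⋃ w ∈ hpfin.toFinset, f '' {h | h ∈ R ∧ p h = w} := by
    rintro b ⟨a, ha, rfl⟩
    simp only [Set.mem_iUnion, Set.Finite.mem_toFinset]
    exact ⟨p a, ⟨a, ha, rfl⟩, a, ⟨ha, rfl⟩, rfl⟩
  have hUfin : (⋃ w ∈ hpfin.toFinset, f '' {h | h ∈ R ∧ p h = w}).Finite := by
    apply (hR.image f).subset
    intro b hb
    simp only [Set.mem_iUnion] at hb
    obtain ⟨w, _, a, ha, rfl⟩ := hb
    exact ⟨a, ha.1, rfl⟩
  have h2 : (f '' R).ncard ≤ ∑ w ∈ hpfin.toFinset, (f '' {h | h ∈ R ∧ p h = w}).ncard :=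
    (Set.ncard_le_ncard hsub hUfin).trans (N7_biUnion _ _)
  have h3 : ((f '' R).ncard : ℝ) ≤ ∑ w ∈ hpfin.toFinset, ((f '' {h | h ∈ R ∧ p h = w}).ncard : ℝ) := by
    exact_mod_cast h2
  refine h3.trans ((Finset.sum_le_sum hone).trans (le_of_eq ?_))
  rw [Finset.sum_const, nsmul_eq_mul, ← Set.ncard_eq_toFinset_card _ hpfin]

theorem planes_le' (q : ℕ) (hq : 2 ≤ q) : ∃ g₀ : ℕ, ∀ g : ℕ, g₀ ≤ g →
    ((pre g (g - 2) '' {h | h ∈ Weil q g ∧ Reg q g h}).ncard : ℝ) * Real.sqrt q ^ (2 * g) ≤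
      Real.exp ((g : ℝ) ^ (19 / 20 : ℝ)) * Real.exp ((g : ℝ) / 200) * Real.sqrt q ^ (g * (g + 1) / 2) *
        KK (g - JJ g) := by
  obtain ⟨g₁, h₁⟩ := slice_card q hq
  obtain ⟨g₂, h₂⟩ := JJ_bounds
  have hs1 : 1 ≤ Real.sqrt q := by
    rw [Real.one_le_sqrt]
    exact_mod_cast (by omega : 1 ≤ q)
  obtain ⟨g₃, h₃⟩ := num_planes (Real.sqrt q) hs1
  refine ⟨max (max g₁ g₂) (max g₃ 4), fun g hg => ?_⟩
  have hg1 : g₁ ≤ g := (le_max_left _ _).trans ((le_max_left _ _).trans hg)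
  have hg2 : g₂ ≤ g := (le_max_right _ _).trans ((le_max_left _ _).trans hg)
  have hg3 : g₃ ≤ g := (le_max_left _ _).trans ((le_max_right _ _).trans hg)
  have hg4 : 4 ≤ g := (le_max_right _ _).trans ((le_max_right _ _).trans hg)
  obtain ⟨hJ1, hJ2, hJ3⟩ := h₂ g hg2
  have hslice := h₁ g hg1 hJ1 hJ2
  have hnum := h₃ g hg3 (JJ g) hJ3
  obtain ⟨J, hJ⟩ : ∃ J : ℕ, J = JJ g := ⟨_, rfl⟩
  rw [← hJ] at hJ1 hJ2 hJ3 hslice hnum ⊢
  obtain ⟨n, hn⟩ : ∃ n : ℕ, n = g - J := ⟨_, rfl⟩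
  rw [← hn] at hslice ⊢
  obtain ⟨s, hs⟩ : ∃ s : ℝ, s = Real.sqrt q := ⟨_, rfl⟩
  have hcards := slices_card (q := q) (g := g) (k := J) (by omega) hg4 (by omega)
  rw [← hs] at hs1 hslice hnum hcards ⊢
  obtain ⟨E, hE⟩ : ∃ E : ℝ, E = Real.exp ((g : ℝ) / 200) := ⟨_, rfl⟩
  have hE0 : 0 < E := by rw [hE]; exact Real.exp_pos _
  have hE' : Real.exp (-((g : ℝ) / 200)) = E⁻¹ := by rw [hE, Real.exp_neg]
  rw [hE'] at hslice
  rw [← hE]
  have hs0 : 0 < s := by linarith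
  have hK0 : 0 ≤ KK n := ENNReal.toReal_nonneg
  have hg0 : (0 : ℝ) ≤ g := Nat.cast_nonneg g
  obtain ⟨Q, hQ⟩ : ∃ Q : ℝ, Q = (g.choose J : ℝ) * (4 * (g : ℝ)) ^ J * s ^ (J * n) *
    s ^ (n * (n + 1) / 2) * KK n := ⟨_, rfl⟩
  have hQ0 : 0 ≤ Q := by rw [hQ]; positivity
  have hfin : (Weil q g).Finite := Weil_finite q g
  have hRfin : ({h | h ∈ Weil q g ∧ Reg q g h} : Set ℤ[X]).Finite := hfin.subset fun h hh => hh.1
  have hmain := card_slices {h | h ∈ Weil q g ∧ Reg q g h} hRfin (pre g (g - 2)) (pre g J)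
    (M := Q * E / s ^ (2 * n - 1)) (by positivity) (by
      intro S hS1 hS2 hS3
      have h4 := hslice S hS1 hS2 hS3
      rw [← hQ] at h4
      rw [le_div_iff₀ (by positivity)]
      have h5 : (S.card : ℝ) * s ^ (2 * n - 1) = ((S.card : ℝ) * E⁻¹ * s ^ (2 * n - 1)) * E := by
        field_simp
      rw [h5]
      exact mul_le_mul_of_nonneg_right h4 hE0.le)
  have h6 : (((pre g J) '' {h | h ∈ Weil q g ∧ Reg q g h}).ncard : ℝ) ≤
      (9 * (g : ℝ)) ^ J * s ^ (J * (J + 1) / 2) := by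
    refine le_trans ?_ hcards
    have h12 : ({h | h ∈ Weil q g ∧ Reg q g h} : Set ℤ[X]) ⊆ Weil q g := fun h hh => hh.1
    exact_mod_cast Set.ncard_le_ncard (Set.image_mono h12) (hfin.image _)
  have h7 : ((pre g (g - 2) '' {h | h ∈ Weil q g ∧ Reg q g h}).ncard : ℝ) ≤
      (9 * (g : ℝ)) ^ J * s ^ (J * (J + 1) / 2) * (Q * E / s ^ (2 * n - 1)) :=
    hmain.trans (mul_le_mul_of_nonneg_right h6 (by positivity))
  have h8 : s ^ (2 * g) = s ^ (2 * n - 1) * s ^ (2 * J + 1) := by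
    rw [← pow_add]
    congr 1
    omega
  have h9 : s ^ (J * (J + 1) / 2) * s ^ (J * n) * s ^ (n * (n + 1) / 2) = s ^ (g * (g + 1) / 2) := by
    rw [← pow_add, ← pow_add, N7_exp J n g (by omega)]
  have h10 : (9 * (g : ℝ)) ^ J * (4 * (g : ℝ)) ^ J = (36 * (g : ℝ) ^ 2) ^ J := by
    rw [← mul_pow]
    congr 1
    ring
  refine (mul_le_mul_of_nonneg_right h7 (by positivity)).trans ?_
  have h11 : (9 * (g : ℝ)) ^ J * s ^ (J * (J + 1) / 2) * (Q * E / s ^ (2 * n - 1)) * s ^ (2 * g) =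
      ((g.choose J : ℝ) * (36 * (g : ℝ) ^ 2) ^ J * s ^ (2 * J + 1)) * (E * s ^ (g * (g + 1) / 2) * KK n) := by
    rw [h8, ← h9, ← h10, hQ]
    field_simp
  rw [h11]
  refine (mul_le_mul_of_nonneg_right hnum (by positivity)).trans (le_of_eq ?_)
  ring

end TQ
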