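import Pool.Agent.Lib.MP_021685_agTQ.Defs
import Pool.Agent.Lib.MP_021685_agTI.L1
import Pool.Agent.Lib.MP_021685_agTI.A3a

/-! Block PL (planes): definitions.

`s = √q`.  A member of a plane has `h''` in common with all the other members; `zz` lists `-2s`, the zeros of `h''`, `2s`.  The interval number `K`, `0 ≤ K ≤ g`, is `[zz (K-1), zz K]` (natural subtraction), so `{-2s}` for `K = 0` and `{2s}` for `K = g`.
The sign number `K` is `(-1)^(g-K)`. -/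

namespace TQ

open Polynomial TI

/-- the nodes `-2s = zz 0 ≤ .. ≤ zz (g-1) = 2s = zz g = ..` -/
structure Nodes (s : ℝ) (g : ℕ) (zz : ℕ → ℝ) : Prop where
  mono : Monotone zz
  z0 : zz 0 = -(2 * s)
  z1 : ∀ j, g - 1 ≤ j → zz j = 2 * s

/-- the data of a member `H` of the plane: the alternating points `w 0 = -2s`, the zeros of `H'`, `w g = 2s` -/
structure Dat (g : ℕ) (zz : ℕ → ℝ) (H : ℝ[X]) (w : ℕ → ℝ) : Prop where
  mem : ∀ K ≤ g, zz (K - 1) ≤ w K ∧ w K ≤ zz K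
  nonneg : ∀ K ≤ g, 0 ≤ (-1 : ℝ) ^ (g - K) * H.eval (w K)
  top : ∀ K ≤ g, ∀ x, zz (K - 1) ≤ x → x ≤ zz K →
    (-1 : ℝ) ^ (g - K) * H.eval x ≤ (-1 : ℝ) ^ (g - K) * H.eval (w K)
  crit : ∀ K, 0 < K → K < g → (derivative H).eval (w K) = 0
  anti : ∀ K, K ≤ g → ∀ x y, zz (K - 1) ≤ x → x ≤ y → y ≤ zz K →
    (-1 : ℝ) ^ (g - K) * (derivative H).eval y ≤ (-1 : ℝ) ^ (g - K) * (derivative H).eval x

theorem Nodes.lo {s : ℝ} {g : ℕ} {zz : ℕ → ℝ} (hz : Nodes s g zz) (j : ℕ) : -(2 * s) ≤ zz j := by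
  rw [← hz.z0]
  exact hz.mono (Nat.zero_le j)

theorem Nodes.hi {s : ℝ} {g : ℕ} {zz : ℕ → ℝ} (hz : Nodes s g zz) (j : ℕ) : zz j ≤ 2 * s := by
  rcases le_total (g - 1) j with h | h
  · rw [hz.z1 j h]
  · rw [← hz.z1 (g - 1) le_rfl]
    exact hz.mono h

/-- the points of the data are in `[-2s, 2s]` -/
theorem Dat.bd {s : ℝ} {g : ℕ} {zz : ℕ → ℝ} (hz : Nodes s g zz) {H : ℝ[X]} {w : ℕ → ℝ} (D : Dat g zz H w)
    {K : ℕ} (hK : K ≤ g) : -(2 * s) ≤ w K ∧ w K ≤ 2 * s :=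
  ⟨(hz.lo _).trans (D.mem K hK).1, (D.mem K hK).2.trans (hz.hi _)⟩

/-- two members of one plane: the interval number `K` is to the left of the interval number `K'` if `K < K'` -/
theorem Dat.lt {s : ℝ} {g : ℕ} {zz : ℕ → ℝ} (hz : Nodes s g zz) {H H' : ℝ[X]} {w w' : ℕ → ℝ} (D : Dat g zz H w)
    (D' : Dat g zz H' w') {K K' : ℕ} (h : K < K') (hK' : K' ≤ g) : w K ≤ w' K' :=
  (D.mem K (h.le.trans hK')).2.trans ((hz.mono (Nat.le_sub_one_of_lt h)).trans (D'.mem K' hK').1)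

theorem Dat.first {s : ℝ} {g : ℕ} {zz : ℕ → ℝ} (hz : Nodes s g zz) {H : ℝ[X]} {w : ℕ → ℝ} (D : Dat g zz H w) :
    w 0 = -(2 * s) := by
  have h1 := D.mem 0 (Nat.zero_le g)
  rw [Nat.zero_sub, hz.z0] at h1
  exact le_antisymm h1.2 h1.1

theorem Dat.last {s : ℝ} {g : ℕ} {zz : ℕ → ℝ} (hz : Nodes s g zz) {H : ℝ[X]} {w : ℕ → ℝ} (D : Dat g zz H w) :
    w g = 2 * s := by
  have h1 := D.mem g le_rfl
  rw [hz.z1 (g - 1) le_rfl, hz.z1 g (Nat.sub_le g 1)] at h1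
  exact le_antisymm h1.2 h1.1

end TQ
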