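import Mathlib

/-! LEAF P1 (medium, Mathlib only).  Rolle for sorted tuples with repetitions.

PROOF.  (1) `r` strictly increasing.  `P = ∏ (X - C (r i))` is monic of degree `n + 1`.  Rolle (`exists_hasDerivAt_eq_zero`) gives a zero `y i` of `P'` in the open interval `(r i.castSucc, r i.succ)`; the `y i` are strictly increasing, `P'` has degree `≤ n` and coefficient `n + 1` at `X^n`;
`C (n+1)⁻¹ * P'` is monic of degree `n` and vanishes at the `n` different points `y i`, so it is `∏ (X - C (y i))` (the model is `L1_prod` and `L1_rolle` of Lib/MP_021685_agTI/L1.lean, in the archive: `eq_of_monic_of_dvd_of_natDegree_le`, `Finset.prod_dvd_of_coprime`, `pairwise_coprime_X_sub_C`).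
(2) General `r`.  For `k : ℕ` put `r_k i = r i + i / (k + 1)`, strictly increasing, and let `y_k` be given by (1).  All `y_k` are in the compact set `Set.Icc (fun _ => r 0) (fun _ => r (Fin.last n) + n)` of `Fin n → ℝ` (`isCompact_Icc`), so a subsequence converges to some `y` (`IsCompact.tendsto_subseq`).
For every real `x`: `(derivative (∏ (X - C (r_k i)))).eval x = ∑ i, ∏_{j ≠ i} (x - r_k j)` (`Polynomial.derivative_prod`, or `derivative_prod_finset`) tends to the same expression with `r`, because it is a continuous function of the tuple; the right hand side `(n + 1) ∏ (x - y_k i)` tends to `(n + 1) ∏ (x - y i)`.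
So the two polynomials have the same values everywhere and are equal (`Polynomial.funext`).  The inequalities `r_k i.castSucc ≤ y_k i ≤ r_k i.succ` and the monotonicity pass to the limit (`le_of_tendsto_of_tendsto'`). -/

namespace TQ

open Polynomial

private theorem P1_prod {g : ℕ} (P : ℝ[X]) (hm : P.Monic) (hd : P.natDegree = g) (x : Fin g → ℝ)
    (hx : Function.Injective x) (hr : ∀ i, P.eval (x i) = 0) : P = ∏ i, (X - C (x i)) := by
  have h1 : (∏ i, (X - C (x i))).Monic := monic_prod_of_monic _ _ fun i _ => monic_X_sub_C _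
  have h2 : (∏ i, (X - C (x i))).natDegree = g := by
    rw [natDegree_prod_of_monic _ _ fun i _ => monic_X_sub_C _]
    simp
  refine (eq_of_monic_of_dvd_of_natDegree_le h1 hm ?_ (by rw [h2, hd]))
  refine Finset.prod_dvd_of_coprime ?_ fun i _ => dvd_iff_isRoot.2 (hr i)
  exact fun i _ j _ hij => pairwise_coprime_X_sub_C hx hij

private theorem P1_strict {n : ℕ} (r : Fin (n + 1) → ℝ) (hr : StrictMono r) :
    ∃ y : Fin n → ℝ, StrictMono y ∧ (∀ i : Fin n, r i.castSucc < y i ∧ y i < r i.succ) ∧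
      derivative (∏ i, (X - C (r i))) = C ((n : ℝ) + 1) * ∏ i, (X - C (y i)) := by
  obtain ⟨P, hP⟩ : ∃ P : ℝ[X], P = ∏ i, (X - C (r i)) := ⟨_, rfl⟩
  have hPm : P.Monic := by
    rw [hP]
    exact monic_prod_of_monic _ _ fun i _ => monic_X_sub_C _
  have hPd : P.natDegree = n + 1 := by
    rw [hP, natDegree_prod_of_monic _ _ fun i _ => monic_X_sub_C _]
    simp
  have hPr : ∀ i, P.eval (r i) = 0 := fun i => by
    rw [hP, eval_prod]
    refine Finset.prod_eq_zero (Finset.mem_univ i) ?_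
    simp
  rw [← hP]
  have h1 : ∀ i : Fin n, ∃ t, (r i.castSucc < t ∧ t < r i.succ) ∧ (derivative P).eval t = 0 := by
    intro i
    obtain ⟨t, ht, ht'⟩ := exists_hasDerivAt_eq_zero (f := fun y => P.eval y)
      (f' := fun y => (derivative P).eval y) (hr (Fin.castSucc_lt_succ (i := i)))
      P.continuousOn (by rw [hPr, hPr]) (fun y _ => P.hasDerivAt y)
    exact ⟨t, ht, ht'⟩
  choose y hy hy' using h1
  have hmono : StrictMono y := by
    intro i j hij
    have h2 : r i.succ ≤ r j.castSucc := hr.monotone (by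
      rw [Fin.le_def, Fin.val_succ, Fin.val_castSucc]
      exact hij)
    exact (hy i).2.trans_le (h2.trans (hy j).1.le)
  have hn : ((n : ℝ) + 1) ≠ 0 := by positivity
  have hc : (C ((n : ℝ) + 1)⁻¹ * derivative P).coeff n = 1 := by
    rw [coeff_C_mul, coeff_derivative, ← hPd, hPm.coeff_natDegree, one_mul, inv_mul_cancel₀ hn]
  have hd : (C ((n : ℝ) + 1)⁻¹ * derivative P).natDegree ≤ n := by
    refine (natDegree_C_mul_le _ _).trans ?_
    have h2 := natDegree_derivative_le P
    omega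
  have hQ := P1_prod (C ((n : ℝ) + 1)⁻¹ * derivative P)
    (monic_of_natDegree_le_of_coeff_eq_one n hd hc)
    (natDegree_eq_of_le_of_coeff_ne_zero hd (by rw [hc]; exact one_ne_zero)) y hmono.injective
    (fun i => by rw [eval_mul, hy', mul_zero])
  refine ⟨y, hmono, hy, ?_⟩
  rw [← hQ, ← mul_assoc, ← C_mul, mul_inv_cancel₀ hn, C_1, one_mul]

private theorem P1_eval {n : ℕ} (r : Fin (n + 1) → ℝ) (x : ℝ) :
    (derivative (∏ i, (X - C (r i)))).eval x = ∑ i, ∏ j ∈ Finset.univ.erase i, (x - r j) := by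
  classical
  rw [derivative_prod_finset, eval_finsetSum]
  refine Finset.sum_congr rfl fun i _ => ?_
  rw [derivative_X_sub_C, mul_one, eval_prod]
  refine Finset.prod_congr rfl fun j _ => ?_
  rw [eval_sub, eval_X, eval_C]

private theorem P1_cont {n : ℕ} (x : ℝ) : Continuous fun r : Fin (n + 1) → ℝ =>
    (derivative (∏ i, (X - C (r i)))).eval x := by
  simp only [P1_eval]
  fun_prop

theorem sorted_rolle {n : ℕ} (r : Fin (n + 1) → ℝ) (hr : Monotone r) :
    ∃ y : Fin n → ℝ, Monotone y ∧ (∀ i : Fin n, r i.castSucc ≤ y i ∧ y i ≤ r i.succ) ∧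
      derivative (∏ i, (X - C (r i))) = C ((n : ℝ) + 1) * ∏ i, (X - C (y i)) := by
  obtain ⟨R, hR⟩ : ∃ R : ℕ → Fin (n + 1) → ℝ, ∀ k i, R k i = r i + (i : ℕ) * (1 / ((k : ℝ) + 1)) :=
    ⟨fun k i => r i + (i : ℕ) * (1 / ((k : ℝ) + 1)), fun k i => rfl⟩
  have hRm : ∀ k, StrictMono (R k) := by
    intro k i j hij
    rw [hR, hR]
    have h1 := hr hij.le
    have h2 : ((i : ℕ) : ℝ) < ((j : ℕ) : ℝ) := by exact_mod_cast hij
    have h3 : (0 : ℝ) < 1 / ((k : ℝ) + 1) := by positivity
    have h4 := mul_lt_mul_of_pos_right h2 h3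
    linarith
  choose y hy1 hy2 hy3 using fun k => P1_strict (R k) (hRm k)
  have hk : ∀ k : ℕ, 0 ≤ 1 / ((k : ℝ) + 1) ∧ 1 / ((k : ℝ) + 1) ≤ 1 := by
    intro k
    refine ⟨by positivity, ?_⟩
    rw [div_le_one (by positivity)]
    have : (0 : ℝ) ≤ k := by positivity
    linarith
  have hmem : ∀ k, y k ∈ Set.Icc (fun _ : Fin n => r 0) (fun _ => r (Fin.last n) + n) := by
    intro k
    constructor
    · intro i
      have h1 := (hy2 k i).1
      rw [hR] at h1
      have h2 := hr (Fin.zero_le i.castSucc)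
      have h3 : 0 ≤ (((i.castSucc : Fin (n + 1)) : ℕ) : ℝ) * (1 / ((k : ℝ) + 1)) :=
        mul_nonneg (by positivity) (hk k).1
      show r 0 ≤ y k i
      linarith
    · intro i
      have h1 := (hy2 k i).2
      rw [hR] at h1
      have h2 := hr (Fin.le_last i.succ)
      have h3 : (((i.succ : Fin (n + 1)) : ℕ) : ℝ) * (1 / ((k : ℝ) + 1)) ≤ n := by
        have h4 : (((i.succ : Fin (n + 1)) : ℕ) : ℝ) ≤ n := by
          have := i.2
          rw [Fin.val_succ]
          exact_mod_cast this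
        have h5 : (0 : ℝ) ≤ (((i.succ : Fin (n + 1)) : ℕ) : ℝ) := by positivity
        calc (((i.succ : Fin (n + 1)) : ℕ) : ℝ) * (1 / ((k : ℝ) + 1))
            ≤ (((i.succ : Fin (n + 1)) : ℕ) : ℝ) * 1 := mul_le_mul_of_nonneg_left (hk k).2 h5
          _ ≤ n := by rw [mul_one]; exact h4
      show y k i ≤ r (Fin.last n) + n
      linarith
  obtain ⟨z, -, φ, hφ, hz⟩ := isCompact_Icc.tendsto_subseq hmem
  have hRt : Filter.Tendsto (R ∘ φ) Filter.atTop (nhds r) := by
    refine Filter.Tendsto.comp ?_ hφ.tendsto_atTop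
    rw [tendsto_pi_nhds]
    intro i
    simp only [hR]
    have h1 := (tendsto_one_div_add_atTop_nhds_zero_nat (𝕜 := ℝ)).const_mul (((i : ℕ) : ℝ))
    have h2 := h1.const_add (r i)
    rwa [mul_zero, add_zero] at h2
  have hzi : ∀ i, Filter.Tendsto (fun k => y (φ k) i) Filter.atTop (nhds (z i)) := fun i =>
    (tendsto_pi_nhds.1 hz) i
  have hRi : ∀ i, Filter.Tendsto (fun k => R (φ k) i) Filter.atTop (nhds (r i)) := fun i =>
    (tendsto_pi_nhds.1 hRt) i
  refine ⟨z, fun i j hij => le_of_tendsto_of_tendsto' (hzi i) (hzi j) fun k =>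
    (hy1 (φ k)).monotone hij, fun i => ⟨le_of_tendsto_of_tendsto' (hRi _) (hzi i) fun k =>
      (hy2 (φ k) i).1.le, le_of_tendsto_of_tendsto' (hzi i) (hRi _) fun k =>
      (hy2 (φ k) i).2.le⟩, ?_⟩
  refine Polynomial.funext fun x => ?_
  have h1 := ((P1_cont x).tendsto r).comp hRt
  have h2 : Filter.Tendsto (fun k => ((n : ℝ) + 1) * ∏ i, (x - y (φ k) i)) Filter.atTop
      (nhds (((n : ℝ) + 1) * ∏ i, (x - z i))) := by
    refine Filter.Tendsto.const_mul _ (tendsto_finsetProd _ fun i _ => ?_)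
    exact (hzi i).const_sub x
  have h3 : ∀ k, (derivative (∏ i, (X - C (R (φ k) i)))).eval x =
      ((n : ℝ) + 1) * ∏ i, (x - y (φ k) i) := fun k => by
    rw [hy3, eval_mul, eval_C, eval_prod]
    simp only [eval_sub, eval_X, eval_C]
  have h4 : ((fun r : Fin (n + 1) → ℝ => (derivative (∏ i, (X - C (r i)))).eval x) ∘ (R ∘ φ)) =
      fun k => ((n : ℝ) + 1) * ∏ i, (x - y (φ k) i) := funext h3
  rw [h4] at h1
  rw [tendsto_nhds_unique h1 h2, eval_mul, eval_C, eval_prod]
  simp only [eval_sub, eval_X, eval_C]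

end TQ
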