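import Pool.Agent.Lib.MP_021685_agTQ.P0

/-! LEAF P5 (easy+).  Strictly alternating values at points of `[-2√q, 2√q]` give a strict member.

PROOF.  `w K ≤ w (K+1)` and the strict signs at `w K` and `w (K+1)` are opposite, so `w K < w (K+1)`.  Now copy `L1_ivt` of Lib/MP_021685_agTI/L1.lean (private there, so copy it under the name `P5_ivt`; with `m + 1 = g`): `g` zeros `x_0 < .. < x_(g-1)`, `w i < x_i < w (i+1)`, so they are in the open interval `(-2√q, 2√q)`,
`x_i ^ 2 < 4 q`.  `L1_weil` (copy as `P5_weil`) gives `h ∈ Weil q g`, and the zeros give `h ∈ Strict q g`. -/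

namespace TQ

open Polynomial TI

private theorem P5_ivt {m : ℕ} (P : ℝ[X]) (z : ℕ → ℝ) (hz : ∀ j ≤ m, z j < z (j + 1))
    (hs : ∀ j ≤ m + 1, 0 < (-1) ^ (m + 1 - j) * P.eval (z j)) :
    ∃ x : Fin (m + 1) → ℝ, StrictMono x ∧ ∀ i : Fin (m + 1), z i < x i ∧ x i < z (i + 1) ∧ P.eval (x i) = 0 := by
  have hroot : ∀ j : Fin (m + 1), ∃ x : ℝ, z j < x ∧ x < z (j + 1) ∧ P.eval x = 0 := by
    intro j
    have h1 := hs j j.2.le
    have h2 := hs (j + 1) j.2
    have hle : z j ≤ z (j + 1) := (hz j (Nat.lt_succ_iff.1 j.2)).le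
    have hc : ContinuousOn (fun x : ℝ => (-1) ^ (m + 1 - ((j : ℕ) + 1)) * P.eval x)
        (Set.Icc (z j) (z (j + 1))) :=
      (continuous_const.mul P.continuous).continuousOn
    have h3 := intermediate_value_Ioo hle hc
    have hj : m + 1 - (j : ℕ) = (m + 1 - ((j : ℕ) + 1)) + 1 := by
      have := j.2
      omega
    rw [hj, pow_succ] at h1
    obtain ⟨x, ⟨hx1, hx2⟩, hx3⟩ := h3 (show (0 : ℝ) ∈ Set.Ioo _ _ from ⟨by linarith, h2⟩)
    refine ⟨x, hx1, hx2, ?_⟩
    have h5 : ((-1 : ℝ) ^ (m + 1 - ((j : ℕ) + 1))) ≠ 0 := pow_ne_zero _ (by norm_num)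
    exact (mul_eq_zero.1 hx3).resolve_left h5
  choose x hx1 hx2 hx3 using hroot
  have hzm : ∀ i j : ℕ, i ≤ j → j ≤ m + 1 → z i ≤ z j := by
    intro i j hij hj
    induction j with
    | zero =>
      have : i = 0 := by omega
      rw [this]
    | succ j ih =>
      rcases Nat.lt_or_ge i (j + 1) with h | h
      · exact (ih (by omega) (by omega)).trans (hz j (by omega)).le
      · have : i = j + 1 := by omega
        rw [this]
  refine ⟨x, fun i j hij => ?_, fun i => ⟨hx1 i, hx2 i, hx3 i⟩⟩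
  exact (hx2 i).trans_le ((hzm _ _ hij j.2.le).trans (hx1 j).le)

/-- A monic polynomial with `g` distinct roots in the interval is a Weil polynomial. -/
private theorem P5_weil {q g : ℕ} (f : ℤ[X]) (hmon : f.Monic) (hnd : f.natDegree = g) (x : Fin g → ℝ)
    (hxinj : Function.Injective x) (hx2 : ∀ i, x i ^ 2 < 4 * (q : ℝ))
    (hx3 : ∀ i, (f.map (Int.castRingHom ℝ)).eval (x i) = 0) : f ∈ Weil q g := by
  classical
  refine ⟨hmon, hnd, fun z hz => ?_⟩
  have hfc : ∀ j : Fin g, aeval ((x j : ℝ) : ℂ) f = 0 := by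
    intro j
    have h1 : aeval ((x j : ℝ) : ℂ) f = ((aeval (x j) f : ℝ) : ℂ) := by
      have h6 := Polynomial.hom_eval₂ f (algebraMap ℤ ℝ) Complex.ofRealHom (x j)
      have h7 : Complex.ofRealHom.comp (algebraMap ℤ ℝ) = algebraMap ℤ ℂ := RingHom.ext_int _ _
      rw [h7] at h6
      exact h6.symm
    have h2 : aeval (x j) f = 0 := by
      have h3 := hx3 j
      rw [Polynomial.eval_map] at h3
      rw [Polynomial.aeval_def]
      have h4 : algebraMap ℤ ℝ = Int.castRingHom ℝ := RingHom.ext_int _ _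
      rw [h4]
      exact h3
    rw [h1, h2, Complex.ofReal_zero]
  have hne : f.map (algebraMap ℤ ℂ) ≠ 0 := (hmon.map _).ne_zero
  have hex : ∃ j, ((x j : ℝ) : ℂ) = z := by
    by_contra hno
    push Not at hno
    let s : Finset ℂ := insert z (Finset.univ.image fun j => ((x j : ℝ) : ℂ))
    have hs1 : s.card = g + 1 := by
      rw [Finset.card_insert_of_notMem, Finset.card_image_of_injective _ (fun i j h => hxinj (Complex.ofReal_injective h)),
        Finset.card_univ, Fintype.card_fin]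
      rw [Finset.mem_image]
      rintro ⟨j, -, hj⟩
      exact hno j hj
    have hs2 : s ⊆ (f.map (algebraMap ℤ ℂ)).roots.toFinset := by
      intro w hw
      rw [Multiset.mem_toFinset, Polynomial.mem_roots hne, Polynomial.IsRoot.def, Polynomial.eval_map_algebraMap]
      rcases Finset.mem_insert.1 hw with h | h
      · rw [h]
        exact hz
      · obtain ⟨j, -, hj⟩ := Finset.mem_image.1 h
        rw [← hj]
        exact hfc j
    have h1 := Finset.card_le_card hs2
    have h2 := Multiset.toFinset_card_le (f.map (algebraMap ℤ ℂ)).roots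
    have h3 := Polynomial.card_roots' (f.map (algebraMap ℤ ℂ))
    have h4 : (f.map (algebraMap ℤ ℂ)).natDegree ≤ g := (Polynomial.natDegree_map_le).trans hnd.le
    omega
  obtain ⟨j, hj⟩ := hex
  exact ⟨x j, hj, (hx2 j).le⟩

theorem strict_of_alt {q g : ℕ} (hg : 1 ≤ g) {h : ℤ[X]} (hm : h.Monic) (hd : h.natDegree = g) (w : ℕ → ℝ)
    (hw : ∀ K < g, w K ≤ w (K + 1)) (hw0 : -(2 * Real.sqrt q) ≤ w 0) (hw1 : w g ≤ 2 * Real.sqrt q)
    (hs : ∀ K ≤ g, 0 < (-1 : ℝ) ^ (g - K) * (h.map (Int.castRingHom ℝ)).eval (w K)) : h ∈ Strict q g := by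
  obtain ⟨m, rfl⟩ : ∃ m, g = m + 1 := ⟨g - 1, by omega⟩
  have hlt : ∀ j ≤ m, w j < w (j + 1) := by
    intro j hj
    refine lt_of_le_of_ne (hw j (by omega)) fun heq => ?_
    have h1 := hs j (by omega)
    have h2 := hs (j + 1) (by omega)
    have h3 : m + 1 - j = (m + 1 - (j + 1)) + 1 := by omega
    rw [h3, pow_succ, heq] at h1
    linarith
  obtain ⟨x, hx, hx'⟩ := P5_ivt (h.map (Int.castRingHom ℝ)) w hlt hs
  have hwm : ∀ i j : ℕ, i ≤ j → j ≤ m + 1 → w i ≤ w j := by
    intro i j hij hj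
    induction j with
    | zero =>
      have : i = 0 := by omega
      rw [this]
    | succ j ih =>
      rcases Nat.lt_or_ge i (j + 1) with h | h
      · exact (ih (by omega) (by omega)).trans (hlt j (by omega)).le
      · have : i = j + 1 := by omega
        rw [this]
  have hsq : ∀ i, x i ^ 2 < 4 * (q : ℝ) := by
    intro i
    have h1 : 4 * (q : ℝ) = (2 * Real.sqrt q) ^ 2 := by
      rw [mul_pow, Real.sq_sqrt (Nat.cast_nonneg q)]
      norm_num
    rw [h1, sq_lt_sq, abs_of_nonneg (a := 2 * Real.sqrt q) (by positivity), abs_lt]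
    have hi := i.2
    constructor
    · exact lt_of_le_of_lt (hw0.trans (hwm 0 i (Nat.zero_le _) (by omega))) (hx' i).1
    · exact lt_of_lt_of_le (hx' i).2.1 ((hwm (i + 1) (m + 1) (by omega) le_rfl).trans hw1)
  exact ⟨P5_weil h hm hd x hx.injective hsq fun i => (hx' i).2.2, x, hx, fun i => ⟨hsq i, (hx' i).2.2⟩⟩

end TQ
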