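import Pool.Agent.Lib.MP_021685_agTQ.P5

/-! LEAF P6a (easy+).  Moving a member inside its plane.

`line_pair`: PROOF.  The finite set of the `J ≤ g` with `g - J` even is nonempty (`J = g`), the one with `g - J` odd is nonempty (`J = g - 1`, `g ≥ 1`): `Finset.exists_min_image`, `Finset.exists_max_image` on `(Finset.range (g+1)).filter ..`.

`move_strict`: PROOF.  `strict_of_alt` (P5) for `h + C d * X + C c` and the points `w` of `h`: monic of degree `g` because `g ≥ 2`; `w K ≤ w (K+1)` is `Dat.lt`; the value at `w K` is `H(w K) + d (w K) + c` and `|d (w K)| ≤ 2√q |d|` (`Dat.bd`).  `g - K` even: `≥ M - 2√q|d| + c > 0`; `g - K` odd: `≤ m + 2√q|d| + c < 0`.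

`line_weil`: PROOF.  `D'.nonneg K` says `0 ≤ (H + c)(w' K)` (`g - K` even), `D.top K (w' K)` (with `D'.mem K`) says `H(w' K) ≤ H(w K)`, so `0 ≤ H(w K) + c`.  The same with `K'` and the opposite sign. -/

namespace TQ

open Polynomial TI

theorem line_pair {g : ℕ} (hg : 1 ≤ g) (H : ℝ[X]) (w : ℕ → ℝ) :
    ∃ K K' : ℕ, K ≤ g ∧ K' ≤ g ∧ Even (g - K) ∧ Odd (g - K') ∧
      (∀ J ≤ g, Even (g - J) → H.eval (w K) ≤ H.eval (w J)) ∧
      (∀ J ≤ g, Odd (g - J) → H.eval (w J) ≤ H.eval (w K')) := by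
  classical
  obtain ⟨K, hK, hK'⟩ := Finset.exists_min_image ((Finset.range (g + 1)).filter fun J => Even (g - J))
    (fun J => H.eval (w J)) ⟨g, by
      rw [Finset.mem_filter, Finset.mem_range, Nat.sub_self]
      exact ⟨Nat.lt_succ_self g, Even.zero⟩⟩
  obtain ⟨L, hL, hL'⟩ := Finset.exists_max_image ((Finset.range (g + 1)).filter fun J => Odd (g - J))
    (fun J => H.eval (w J)) ⟨g - 1, by
      rw [Finset.mem_filter, Finset.mem_range, Nat.sub_sub_self hg]
      exact ⟨by omega, odd_one⟩⟩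
  rw [Finset.mem_filter, Finset.mem_range] at hK hL
  refine ⟨K, L, by omega, by omega, hK.2, hL.2, fun J hJ hJ' => hK' J ?_, fun J hJ hJ' => hL' J ?_⟩
  · rw [Finset.mem_filter, Finset.mem_range]
    exact ⟨by omega, hJ'⟩
  · rw [Finset.mem_filter, Finset.mem_range]
    exact ⟨by omega, hJ'⟩

theorem move_strict {q g : ℕ} (hg : 2 ≤ g) {zz w : ℕ → ℝ} (hz : Nodes (Real.sqrt q) g zz) {h : ℤ[X]}
    (hm : h.Monic) (hd : h.natDegree = g) (D : Dat g zz (h.map (Int.castRingHom ℝ)) w) {M m : ℝ}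
    (hM : ∀ J ≤ g, Even (g - J) → M ≤ (h.map (Int.castRingHom ℝ)).eval (w J))
    (hm' : ∀ J ≤ g, Odd (g - J) → (h.map (Int.castRingHom ℝ)).eval (w J) ≤ m) (d c : ℤ)
    (h1 : -M + 2 * Real.sqrt q * |(d : ℝ)| < c) (h2 : (c : ℝ) < -m - 2 * Real.sqrt q * |(d : ℝ)|) :
    h + C d * X + C c ∈ Strict q g := by
  have hdeg : (C d * X + C c : ℤ[X]).degree < h.degree := by
    rw [degree_eq_natDegree hm.ne_zero, hd]
    refine lt_of_le_of_lt degree_linear_le ?_
    exact_mod_cast (show 1 < g by omega)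
  have hm2 : (h + C d * X + C c).Monic := by
    rw [add_assoc]
    exact hm.add_of_left hdeg
  have hd2 : (h + C d * X + C c).natDegree = g := by
    rw [add_assoc, natDegree_add_eq_left_of_degree_lt hdeg, hd]
  refine strict_of_alt (by omega) hm2 hd2 w (fun K hK => D.lt hz D (Nat.lt_succ_self K) (by omega))
    (D.bd hz (Nat.zero_le g)).1 (D.bd hz le_rfl).2 fun K hK => ?_
  have hev : ((h + C d * X + C c).map (Int.castRingHom ℝ)).eval (w K) =
      (h.map (Int.castRingHom ℝ)).eval (w K) + d * w K + c := by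
    simp
  have hb := D.bd hz hK
  have habs : |w K| ≤ 2 * Real.sqrt q := abs_le.2 hb
  have h3 : |(d : ℝ) * w K| ≤ 2 * Real.sqrt q * |(d : ℝ)| := by
    rw [abs_mul, mul_comm]
    exact mul_le_mul_of_nonneg_right habs (abs_nonneg _)
  obtain ⟨h4, h5⟩ := abs_le.1 h3
  rw [hev]
  rcases Nat.even_or_odd (g - K) with he | ho
  · rw [he.neg_one_pow, one_mul]
    have := hM K hK he
    linarith
  · rw [ho.neg_one_pow]
    have := hm' K hK ho
    linarith

theorem line_weil {g : ℕ} {zz w w' : ℕ → ℝ} {H : ℝ[X]} {c : ℝ} (D : Dat g zz H w)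
    (D' : Dat g zz (H + C c) w') {K K' : ℕ} (hK : K ≤ g) (hK' : K' ≤ g) (e : Even (g - K)) (o : Odd (g - K')) :
    -H.eval (w K) ≤ c ∧ c ≤ -H.eval (w K') := by
  constructor
  · have h1 := D'.nonneg K hK
    have h2 := D.top K hK (w' K) (D'.mem K hK).1 (D'.mem K hK).2
    rw [e.neg_one_pow, one_mul, eval_add, eval_C] at h1
    rw [e.neg_one_pow, one_mul, one_mul] at h2
    linarith
  · have h1 := D'.nonneg K' hK'
    have h2 := D.top K' hK' (w' K') (D'.mem K' hK').1 (D'.mem K' hK').2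
    rw [o.neg_one_pow, eval_add, eval_C] at h1
    rw [o.neg_one_pow] at h2
    linarith

end TQ
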