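import Pool.Agent.Lib.MP_021685_agTQ.P0

/-! LEAF P7 (medium, the key).  Three members of a plane with large gaps between their linear coefficients cannot have the same pair of close extremal values.

PROOF.  `H₂ = H₁ + a X + c`, `H₃ = H₂ + b X + d`, `a, b ≥ T`.  All points `w_i J` are in `[-2s, 2s]` (`Dat.bd`); `(-1)^(g-K) = 1`, `(-1)^(g-K') = -1`, `K ≠ K'`.  If `T = 0` the first alternative holds (`0 ≤ L A`: `L ≥ H₂(w₂ K) - H₂(w₂ K') ≥ 0` by `nonneg`, and `A ≥ |H₂''(2s)| ≥ 0`; `s ≥ 0` because `-2s = w₂ 0 ≤ w₂ g = 2s`); let `T > 0`.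
LIPSCHITZ: for `x ≤ y` in `[-2s, 2s]`: `|H₂'(y) - H₂'(x)| ≤ A (y - x)` (mean value: `Convex.norm_image_sub_le_of_norm_deriv_le`, or `exists_hasDerivAt_eq_slope`).
CASE `K' < K`.  `d₀ = w₂ K - w₂ K' ≥ 0` (`Dat.lt`).
 (i) `L ≥ H₃(w₃ K) - H₃(w₃ K') ≥ H₃(w₂ K) - H₃(w₂ K')` (`D₃.top K (w₂ K)` and `D₃.top K' (w₂ K')`, the points are in the right intervals by `D₂.mem`) `= (H₂(w₂ K) - H₂(w₂ K')) + b (w₂ K - w₂ K') ≥ T d₀` (the first difference is `≥ 0` by `nonneg`).
 (ii) If `K = g` and `K' = 0`: `d₀ = 4s` (`Dat.first`, `Dat.last`), so `4 s T ≤ L`.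
 (iii) If `K < g` (and `0 < K`, because `K' < K`): `H₁'(w₁ K) = 0` so `H₂'(w₁ K) = a ≥ T > 0 = H₂'(w₂ K)`; `H₂'` is antitone on the interval number `K` (`D₂.anti`, sign `+`), so `w₁ K < w₂ K` and `T ≤ H₂'(w₁ K) - H₂'(w₂ K) ≤ A (w₂ K - w₁ K) ≤ A d₀`, because `w₂ K' ≤ w₁ K` (`Dat.lt`, two different members).
 (iv) If `K = g` and `0 < K'`: `H₂'(w₁ K') = a ≥ T`, `H₂'(w₂ K') = 0`, `H₂'` is monotone on the interval number `K'` (sign `-`), so `w₂ K' < w₁ K'` and `T ≤ A (w₁ K' - w₂ K') ≤ A d₀`, because `w₁ K' ≤ w₂ K` (`Dat.lt`).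
 In (iii) and (iv) `T ≤ A d₀` and `T d₀ ≤ L` give `T^2 ≤ A T d₀ ≤ A L`.
CASE `K < K'`.  Then `K' < g` (`g - K'` is odd, so not `0`).  `d₀ = w₂ K' - w₂ K ≥ 0`.
 (i) `L ≥ H₁(w₁ K) - H₁(w₁ K') ≥ H₁(w₂ K) - H₁(w₂ K')` (`D₁.top`) `= (H₂(w₂ K) - H₂(w₂ K')) + a (w₂ K' - w₂ K) ≥ T d₀`  (`H₁ = H₂ - a X - c`).
 (ii) `0 < K`: `H₂' = H₃' - b`, so `H₂'(w₃ K) = -b ≤ -T`, `H₂'(w₂ K) = 0`; `H₂'` antitone on the interval number `K`: `w₂ K < w₃ K`, `T ≤ A (w₃ K - w₂ K) ≤ A d₀` because `w₃ K ≤ w₂ K'`.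
 (iii) `K = 0`: `0 < K' < g`: `H₂'(w₃ K') = -b ≤ -T`, `H₂'(w₂ K') = 0`, `H₂'` monotone on the interval number `K'`: `w₃ K' < w₂ K'`, `T ≤ A (w₂ K' - w₃ K') ≤ A d₀` because `w₂ K ≤ w₃ K'`. -/

namespace TQ

open Polynomial TI

private theorem P7_lip {H : ℝ[X]} {s A : ℝ}
    (hA : ∀ x, |x| ≤ 2 * s → |(derivative (derivative H)).eval x| ≤ A) {x y : ℝ} (hx : -(2 * s) ≤ x) (hxy : x ≤ y)
    (hy : y ≤ 2 * s) : |(derivative H).eval y - (derivative H).eval x| ≤ A * (y - x) := by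
  rcases hxy.eq_or_lt with rfl | hlt
  · rw [sub_self, sub_self, abs_zero, mul_zero]
  obtain ⟨z, hz, he⟩ := exists_hasDerivAt_eq_slope (fun t => (derivative H).eval t)
    (fun t => (derivative (derivative H)).eval t) hlt (derivative H).continuous.continuousOn
    (fun t _ => (derivative H).hasDerivAt t)
  have h0 : y - x ≠ 0 := (sub_pos.2 hlt).ne'
  have h1 : (derivative H).eval y - (derivative H).eval x = (derivative (derivative H)).eval z * (y - x) := by
    have he' : (derivative (derivative H)).eval z = ((derivative H).eval y - (derivative H).eval x) / (y - x) := he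
    rw [he', div_mul_cancel₀ _ h0]
  rw [h1, abs_mul, abs_of_pos (sub_pos.2 hlt)]
  exact mul_le_mul_of_nonneg_right (hA z (abs_le.2 ⟨by linarith [hz.1], by linarith [hz.2]⟩)) (sub_pos.2 hlt).le

private theorem P7_fin {T A L d0 : ℝ} (hT : 0 ≤ T) (hA : 0 ≤ A) (h1 : T ≤ A * d0) (h2 : T * d0 ≤ L) :
    T ^ 2 ≤ L * A := by
  calc T ^ 2 = T * T := sq T
    _ ≤ T * (A * d0) := mul_le_mul_of_nonneg_left h1 hT
    _ = T * d0 * A := by ring
    _ ≤ L * A := mul_le_mul_of_nonneg_right h2 hA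

theorem key3 {s : ℝ} {g : ℕ} {zz : ℕ → ℝ} (hz : Nodes s g zz) {H₁ H₂ H₃ : ℝ[X]} {w₁ w₂ w₃ : ℕ → ℝ}
    (D₁ : Dat g zz H₁ w₁) (D₂ : Dat g zz H₂ w₂) (D₃ : Dat g zz H₃ w₃) {a b c d T A L : ℝ} (hT : 0 ≤ T)
    (ha : T ≤ a) (hb : T ≤ b) (e12 : H₂ = H₁ + C a * X + C c) (e23 : H₃ = H₂ + C b * X + C d)
    (hA : ∀ x, |x| ≤ 2 * s → |(derivative (derivative H₂)).eval x| ≤ A)
    {K K' : ℕ} (hK : K ≤ g) (hK' : K' ≤ g) (e : Even (g - K)) (o : Odd (g - K'))
    (v₁ : H₁.eval (w₁ K) - H₁.eval (w₁ K') ≤ L) (v₂ : H₂.eval (w₂ K) - H₂.eval (w₂ K') ≤ L)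
    (v₃ : H₃.eval (w₃ K) - H₃.eval (w₃ K') ≤ L) : T ^ 2 ≤ L * A ∨ 4 * s * T ≤ L := by
  have sK : (-1 : ℝ) ^ (g - K) = 1 := e.neg_one_pow
  have sK' : (-1 : ℝ) ^ (g - K') = -1 := o.neg_one_pow
  have hne : K ≠ K' := by
    rintro rfl
    exact (Nat.not_odd_iff_even.2 e) o
  have ev12 : ∀ x, H₂.eval x = H₁.eval x + a * x + c := by
    intro x
    rw [e12, eval_add, eval_add, eval_mul, eval_C, eval_X, eval_C]
  have ev23 : ∀ x, H₃.eval x = H₂.eval x + b * x + d := by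
    intro x
    rw [e23, eval_add, eval_add, eval_mul, eval_C, eval_X, eval_C]
  have dv12 : ∀ x, (derivative H₂).eval x = (derivative H₁).eval x + a := by
    intro x
    rw [e12, derivative_add, derivative_add, derivative_C_mul, derivative_X, derivative_C, add_zero, mul_one,
      eval_add, eval_C]
  have dv23 : ∀ x, (derivative H₃).eval x = (derivative H₂).eval x + b := by
    intro x
    rw [e23, derivative_add, derivative_add, derivative_C_mul, derivative_X, derivative_C, add_zero, mul_one,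
      eval_add, eval_C]
  have n2 := D₂.nonneg K hK
  have n2' := D₂.nonneg K' hK'
  rw [sK, one_mul] at n2
  rw [sK'] at n2'
  have b2 := D₂.bd hz hK
  have b2' := D₂.bd hz hK'
  have hs0 : 0 ≤ s := by linarith [b2.1, b2.2]
  have hA0 : 0 ≤ A := (abs_nonneg _).trans (hA (2 * s) (abs_of_nonneg (by linarith)).le)
  have hL0 : 0 ≤ L := by linarith
  rcases hT.eq_or_lt with hT0 | hT0
  · left
    rw [← hT0, zero_pow two_ne_zero]
    exact mul_nonneg hL0 hA0
  rcases lt_or_gt_of_ne hne with hlt | hlt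
  · -- `K < K'`
    have hK'g : K' < g := by
      rcases hK'.lt_or_eq with h | h
      · exact h
      · rw [h, Nat.sub_self] at o
        exact absurd o (by decide)
    have hd0 : w₂ K ≤ w₂ K' := Dat.lt hz D₂ D₂ hlt hK'
    have t1 := D₁.top K hK (w₂ K) (D₂.mem K hK).1 (D₂.mem K hK).2
    have t2 := D₁.top K' hK' (w₂ K') (D₂.mem K' hK').1 (D₂.mem K' hK').2
    rw [sK, one_mul, one_mul] at t1
    rw [sK'] at t2
    have hLd : T * (w₂ K' - w₂ K) ≤ L := by
      have h1 : T * (w₂ K' - w₂ K) ≤ a * (w₂ K' - w₂ K) :=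
        mul_le_mul_of_nonneg_right ha (sub_nonneg.2 hd0)
      have h2 := ev12 (w₂ K)
      have h3 := ev12 (w₂ K')
      have h4 : a * (w₂ K' - w₂ K) = a * w₂ K' - a * w₂ K := by ring
      linarith
    left
    refine P7_fin hT hA0 ?_ hLd
    rcases Nat.eq_zero_or_pos K with h0 | h0
    · have hK'0 : 0 < K' := by omega
      have c2 := D₂.crit K' hK'0 hK'g
      have c3 := D₃.crit K' hK'0 hK'g
      rw [dv23] at c3
      have hord : w₃ K' ≤ w₂ K' := by
        by_contra hcon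
        push Not at hcon
        have h1 := D₂.anti K' hK' (w₂ K') (w₃ K') (D₂.mem K' hK').1 hcon.le (D₃.mem K' hK').2
        rw [sK'] at h1
        linarith
      have h2 := P7_lip hA (D₃.bd hz hK').1 hord b2'.2
      rw [c2, zero_sub, abs_neg] at h2
      have h3 : T ≤ |(derivative H₂).eval (w₃ K')| := by
        rw [show (derivative H₂).eval (w₃ K') = -b by linarith, abs_neg]
        exact hb.trans (le_abs_self b)
      refine h3.trans (h2.trans (mul_le_mul_of_nonneg_left ?_ hA0))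
      have h4 : w₂ K ≤ w₃ K' := Dat.lt hz D₂ D₃ hlt hK'
      linarith
    · have hKg : K < g := hlt.trans_le hK'
      have c2 := D₂.crit K h0 hKg
      have c3 := D₃.crit K h0 hKg
      rw [dv23] at c3
      have hord : w₂ K ≤ w₃ K := by
        by_contra hcon
        push Not at hcon
        have h1 := D₂.anti K hK (w₃ K) (w₂ K) (D₃.mem K hK).1 hcon.le (D₂.mem K hK).2
        rw [sK, one_mul, one_mul] at h1
        linarith
      have h2 := P7_lip hA b2.1 hord (D₃.bd hz hK).2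
      rw [c2, sub_zero] at h2
      have h3 : T ≤ |(derivative H₂).eval (w₃ K)| := by
        rw [show (derivative H₂).eval (w₃ K) = -b by linarith, abs_neg]
        exact hb.trans (le_abs_self b)
      refine h3.trans (h2.trans (mul_le_mul_of_nonneg_left ?_ hA0))
      have h4 : w₃ K ≤ w₂ K' := Dat.lt hz D₃ D₂ hlt hK'
      linarith
  · -- `K' < K`
    have hd0 : w₂ K' ≤ w₂ K := Dat.lt hz D₂ D₂ hlt hK
    have t1 := D₃.top K hK (w₂ K) (D₂.mem K hK).1 (D₂.mem K hK).2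
    have t2 := D₃.top K' hK' (w₂ K') (D₂.mem K' hK').1 (D₂.mem K' hK').2
    rw [sK, one_mul, one_mul] at t1
    rw [sK'] at t2
    have hLd : T * (w₂ K - w₂ K') ≤ L := by
      have h1 : T * (w₂ K - w₂ K') ≤ b * (w₂ K - w₂ K') :=
        mul_le_mul_of_nonneg_right hb (sub_nonneg.2 hd0)
      have h2 := ev23 (w₂ K)
      have h3 := ev23 (w₂ K')
      have h4 : b * (w₂ K - w₂ K') = b * w₂ K - b * w₂ K' := by ring
      linarith
    rcases hK.lt_or_eq with hKg | hKg
    · left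
      refine P7_fin hT hA0 ?_ hLd
      have h0 : 0 < K := by omega
      have c1 := D₁.crit K h0 hKg
      have c2 := D₂.crit K h0 hKg
      have c1' := dv12 (w₁ K)
      rw [c1, zero_add] at c1'
      have hord : w₁ K ≤ w₂ K := by
        by_contra hcon
        push Not at hcon
        have h1 := D₂.anti K hK (w₂ K) (w₁ K) (D₂.mem K hK).1 hcon.le (D₁.mem K hK).2
        rw [sK, one_mul, one_mul] at h1
        linarith
      have h2 := P7_lip hA (D₁.bd hz hK).1 hord b2.2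
      rw [c2, zero_sub, abs_neg, c1'] at h2
      refine (ha.trans (le_abs_self a)).trans (h2.trans (mul_le_mul_of_nonneg_left ?_ hA0))
      have h4 : w₂ K' ≤ w₁ K := Dat.lt hz D₂ D₁ hlt hK
      linarith
    · rcases Nat.eq_zero_or_pos K' with h0 | h0
      · right
        have h1 : w₂ K = 2 * s := by
          rw [hKg]
          exact Dat.last hz D₂
        have h2 : w₂ K' = -(2 * s) := by
          rw [h0]
          exact Dat.first hz D₂
        rw [h1, h2] at hLd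
        linarith
      · left
        refine P7_fin hT hA0 ?_ hLd
        have hK'g : K' < g := hlt.trans_le hK
        have c1 := D₁.crit K' h0 hK'g
        have c2 := D₂.crit K' h0 hK'g
        have c1' := dv12 (w₁ K')
        rw [c1, zero_add] at c1'
        have hord : w₂ K' ≤ w₁ K' := by
          by_contra hcon
          push Not at hcon
          have h1 := D₂.anti K' hK' (w₁ K') (w₂ K') (D₁.mem K' hK').1 hcon.le (D₂.mem K' hK').2
          rw [sK'] at h1
          linarith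
        have h2 := P7_lip hA b2'.1 hord (D₁.bd hz hK').2
        rw [c2, sub_zero, c1'] at h2
        refine (ha.trans (le_abs_self a)).trans (h2.trans (mul_le_mul_of_nonneg_left ?_ hA0))
        have h4 : w₁ K' ≤ w₂ K := Dat.lt hz D₁ D₂ hlt hK
        linarith

end TQ
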