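import Mathlib

/-! LEAF P8 (easy, Mathlib only).  Two countings.

`gap_card`: PROOF.  Empty: clear.  `m = min S`.  The elements with `u < m + T` are integers in `[m, m + T)`, at most `⌈T⌉ < T + 1` of them (`Int.card_Ico`).  If there are others, let `m'` be the smallest of them, `m + T ≤ m'`; by hypothesis none of them is `≥ m' + T`, so they are in `[m', m' + T)`, again at most `T + 1`.

`card_two_step`: PROOF.  `S.card = ∑ b ∈ P, (S.filter (p · = b)).card` (`Finset.card_eq_sum_card_fiberwise`), each at most `B * F`: `(S.filter (p · = b)).card = ∑ t ∈ image u, (fibre of t).card` and each fibre is in `S.filter (u · = u a)` for some `a ∈ S` (`Finset.card_le_mul_card_image` gives this for natural bounds; with real bounds use the sum). -/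

namespace TQ

private theorem P8_aux {T : ℝ} (hT : 1 ≤ T) (m : ℤ) (S : Finset ℤ) (h : ∀ u ∈ S, m ≤ u ∧ (u : ℝ) < m + T) :
    (S.card : ℝ) ≤ T + 1 := by
  have h1 : S ⊆ Finset.Ico m (m + ⌈T⌉) := by
    intro u hu
    obtain ⟨h2, h3⟩ := h u hu
    rw [Finset.mem_Ico]
    refine ⟨h2, ?_⟩
    have h4 : (u : ℝ) < ((m + ⌈T⌉ : ℤ) : ℝ) := by
      push_cast
      have := Int.le_ceil T
      linarith
    exact_mod_cast h4
  have h2 := Finset.card_le_card h1
  rw [Int.card_Ico] at h2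
  have h3 : m + ⌈T⌉ - m = ⌈T⌉ := by ring
  rw [h3] at h2
  have h4 : (0 : ℤ) ≤ ⌈T⌉ := Int.ceil_nonneg (by linarith)
  have h5 : ((⌈T⌉.toNat : ℕ) : ℝ) = (⌈T⌉ : ℝ) := by
    have h6 : ((⌈T⌉.toNat : ℕ) : ℤ) = ⌈T⌉ := Int.toNat_of_nonneg h4
    exact_mod_cast congrArg (fun z : ℤ => (z : ℝ)) h6
  have h7 : (S.card : ℝ) ≤ ((⌈T⌉.toNat : ℕ) : ℝ) := by exact_mod_cast h2
  have h8 := Int.ceil_lt_add_one T
  rw [h5] at h7
  linarith

theorem gap_card {T : ℝ} (hT : 1 ≤ T) (S : Finset ℤ)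
    (h : ∀ u₁ ∈ S, ∀ u₂ ∈ S, ∀ u₃ ∈ S, (u₁ : ℝ) + T ≤ u₂ → (u₂ : ℝ) + T ≤ u₃ → False) :
    (S.card : ℝ) ≤ 2 * T + 2 := by
  classical
  rcases S.eq_empty_or_nonempty with hS | hS
  · rw [hS, Finset.card_empty, Nat.cast_zero]
    linarith
  set m := S.min' hS with hm
  have hmS : m ∈ S := S.min'_mem hS
  have hmin : ∀ u ∈ S, m ≤ u := fun u hu => S.min'_le u hu
  have hc := Finset.card_filter_add_card_filter_not (s := S) (fun u : ℤ => (u : ℝ) < m + T)
  have hA : ((S.filter fun u : ℤ => (u : ℝ) < m + T).card : ℝ) ≤ T + 1 := by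
    refine P8_aux hT m _ fun u hu => ?_
    obtain ⟨h1, h2⟩ := Finset.mem_filter.mp hu
    exact ⟨hmin u h1, h2⟩
  have hB : ((S.filter fun u : ℤ => ¬ (u : ℝ) < m + T).card : ℝ) ≤ T + 1 := by
    rcases (S.filter fun u : ℤ => ¬ (u : ℝ) < m + T).eq_empty_or_nonempty with hE | hE
    · rw [hE, Finset.card_empty, Nat.cast_zero]
      linarith
    set m' := (S.filter fun u : ℤ => ¬ (u : ℝ) < m + T).min' hE with hm'
    have hm'S : m' ∈ S.filter fun u : ℤ => ¬ (u : ℝ) < m + T := Finset.min'_mem _ hE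
    obtain ⟨h1, h2⟩ := Finset.mem_filter.mp hm'S
    rw [not_lt] at h2
    refine P8_aux hT m' _ fun u hu => ⟨Finset.min'_le _ u hu, ?_⟩
    by_contra h3
    rw [not_lt] at h3
    exact h m hmS m' h1 u (Finset.mem_filter.mp hu).1 h2 h3
  have hc' : (S.card : ℝ) = ((S.filter fun u : ℤ => (u : ℝ) < m + T).card : ℝ) +
      ((S.filter fun u : ℤ => ¬ (u : ℝ) < m + T).card : ℝ) := by
    rw [← hc]
    push_cast
    ring
  linarith

theorem card_two_step {α β : Type*} [DecidableEq α] [DecidableEq β] (S : Finset α) (P : Finset β) (p : α → β)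
    (u : α → ℤ) (hp : ∀ a ∈ S, p a ∈ P) {B F : ℝ} (hB0 : 0 ≤ B) (hF0 : 0 ≤ F)
    (hB : ∀ b ∈ P, (((S.filter (fun a => p a = b)).image u).card : ℝ) ≤ B)
    (hF : ∀ a ∈ S, ((S.filter (fun a' => u a' = u a)).card : ℝ) ≤ F) : (S.card : ℝ) ≤ P.card * B * F := by
  have h1 := Finset.card_eq_sum_card_fiberwise (s := S) (t := P) (f := p) (fun a ha => hp a ha)
  have h2 : ∀ b ∈ P, ((S.filter (fun a => p a = b)).card : ℝ) ≤ B * F := by
    intro b hb
    have h3 := Finset.card_eq_sum_card_image u (S.filter (fun a => p a = b))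
    rw [h3, Nat.cast_sum]
    have h4 : ∀ t ∈ (S.filter (fun a => p a = b)).image u,
        ((((S.filter (fun a => p a = b)).filter (fun a => u a = t)).card : ℕ) : ℝ) ≤ F := by
      intro t ht
      obtain ⟨a, ha, rfl⟩ := Finset.mem_image.mp ht
      refine le_trans ?_ (hF a (Finset.mem_filter.mp ha).1)
      rw [Nat.cast_le]
      refine Finset.card_le_card fun x hx => ?_
      obtain ⟨h5, h6⟩ := Finset.mem_filter.mp hx
      exact Finset.mem_filter.mpr ⟨(Finset.mem_filter.mp h5).1, h6⟩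
    refine (Finset.sum_le_sum h4).trans ?_
    rw [Finset.sum_const, nsmul_eq_mul]
    exact mul_le_mul_of_nonneg_right (hB b hb) hF0
  rw [h1, Nat.cast_sum]
  refine (Finset.sum_le_sum h2).trans ?_
  rw [Finset.sum_const, nsmul_eq_mul, mul_assoc]

end TQ
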