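import Pool.Agent.Lib.MP_021685_agTQ.P6b
import Pool.Agent.Lib.MP_021685_agTQ.P7
import Pool.Agent.Lib.MP_021685_agTQ.P8

/-! LEAF P9 (medium): the members of a plane which are on short lines.

PROOF.  `exists_dat` (P4) gives the nodes; `T = (L + 2) √A`.  For every `h` in the set (finite, `Weil_finite`) `line_facts` (P6b) gives the data `w_h`, the pair `(K, K')` with `0 ≤ H(w K) - H(w K') < L + 1` and less than `L + 2` members on the line of `h`.  For a fixed pair the set of the `u = h.coeff 1` has no three elements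
`u₁ + T ≤ u₂`, `u₂ + T ≤ u₃`: two members of the plane differ by `(u₂ - u₁) X + const`, and P7 (`key3`) with `L + 1` would give `(L+2)² A ≤ (L+1) A` or `4 √q (L+2) √A ≤ L + 1`.  So at most `2T + 2` values `u` (P8), and members with the same `u` are on one line: `card_two_step` with at most `(g+1)²` pairs gives
`(g+1)² (2T+2) (L+2) ≤ 2 (g+1)² (L+3) √A (L+2)`. -/

namespace TQ

open Polynomial TI

theorem P9_diff {q g : ℕ} (hg : 2 ≤ g) {h h' : ℤ[X]} (hh : h ∈ Weil q g) (hh' : h' ∈ Weil q g)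
    (hp : pre g (g - 2) h' = pre g (g - 2) h) :
    h' = h + C (h'.coeff 1 - h.coeff 1) * X + C (h'.coeff 0 - h.coeff 0) := by
  obtain ⟨hm, hd, -⟩ := hh
  obtain ⟨hm', hd', -⟩ := hh'
  ext i
  rw [coeff_add, coeff_add, coeff_C_mul, coeff_X, coeff_C]
  rcases Nat.eq_zero_or_pos i with rfl | hi0
  · rw [if_neg (by norm_num), if_pos rfl]
    ring
  · rcases Nat.eq_or_lt_of_le (Nat.succ_le_of_lt hi0) with h1 | h1
    · rw [← h1]
      simp
    · rw [if_neg (by omega), if_neg (by omega), mul_zero, add_zero, add_zero]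
      rcases Nat.lt_or_ge i g with h5 | h5
      · have h6 := congrFun hp ⟨g - 1 - i, by omega⟩
        unfold pre at h6
        simp only at h6
        have h7 : g - 1 - (g - 1 - i) = i := by omega
        rw [h7] at h6
        exact h6
      · rcases Nat.eq_or_lt_of_le h5 with h6 | h6
        · have e1 := hm.coeff_natDegree
          rw [hd] at e1
          have e2 := hm'.coeff_natDegree
          rw [hd'] at e2
          rw [← h6, e1, e2]
        · rw [coeff_eq_zero_of_natDegree_lt (by rw [hd']; exact h6),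
            coeff_eq_zero_of_natDegree_lt (by rw [hd]; exact h6)]

theorem P9_map (h : ℤ[X]) (a c : ℤ) : (h + C a * X + C c).map (Int.castRingHom ℝ) =
    h.map (Int.castRingHom ℝ) + C (a : ℝ) * X + C (c : ℝ) := by
  rw [Polynomial.map_add, Polynomial.map_add, Polynomial.map_mul, Polynomial.map_C, Polynomial.map_C, Polynomial.map_X]
  rfl

theorem P9_der (h : ℤ[X]) (a c : ℤ) :
    derivative (derivative (h + C a * X + C c)) = derivative (derivative h) := by
  have h1 : derivative (h + C a * X + C c) = derivative h + C a := by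
    rw [derivative_add, derivative_add, derivative_C, derivative_C_mul, derivative_X, mul_one, add_zero]
  rw [h1, derivative_add, derivative_C, add_zero]

theorem short_in_plane {q g : ℕ} (hq : 1 ≤ q) (hg : 3 ≤ g) {h₀ : ℤ[X]} (h0 : h₀ ∈ Weil q g) {A L : ℝ}
    (hA : 1 ≤ A) (hL : 1 ≤ L)
    (hd : ∀ x : ℝ, |x| ≤ 2 * Real.sqrt q →
      |((h₀.derivative.derivative).map (Int.castRingHom ℝ)).eval x| ≤ A) :
    (({h | h ∈ Weil q g ∧ pre g (g - 2) h = pre g (g - 2) h₀ ∧ (LN q g h : ℝ) < L} : Set ℤ[X]).ncard : ℝ) ≤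
      10 * ((g : ℝ) + 1) ^ 2 * (L + 3) ^ 2 * Real.sqrt A := by
  classical
  have hg2 : 2 ≤ g := by omega
  obtain ⟨zz, hz, hD⟩ := exists_dat hq hg2 h0
  obtain ⟨S, hS⟩ : ∃ S : Set ℤ[X], S = {h | h ∈ Weil q g ∧ pre g (g - 2) h = pre g (g - 2) h₀ ∧
    (LN q g h : ℝ) < L} := ⟨_, rfl⟩
  have hSm : ∀ h, h ∈ S ↔ h ∈ Weil q g ∧ pre g (g - 2) h = pre g (g - 2) h₀ ∧ (LN q g h : ℝ) < L := by
    intro h
    rw [hS]
    rfl
  have hfin : S.Finite := (Weil_finite q g).subset fun h hh => ((hSm h).1 hh).1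
  have hfact : ∀ h : ℤ[X], h ∈ S → ∃ (w : ℕ → ℝ) (K K' : ℕ), Dat g zz (h.map (Int.castRingHom ℝ)) w ∧
      K ≤ g ∧ K' ≤ g ∧ Even (g - K) ∧ Odd (g - K') ∧
      (h.map (Int.castRingHom ℝ)).eval (w K) - (h.map (Int.castRingHom ℝ)).eval (w K') ≤ L + 1 ∧
      (({h' | h' ∈ Weil q g ∧ pre g (g - 1) h' = pre g (g - 1) h} : Set ℤ[X]).ncard : ℝ) ≤ L + 2 := by
    intro h hh
    obtain ⟨h1, h2, h3⟩ := (hSm h).1 hh
    obtain ⟨w, K, K', a1, a2, a3, a4, a5, -, -, a6, a7⟩ := line_facts hg2 hz hD h1 h2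
    exact ⟨w, K, K', a1, a2, a3, a4, a5, by linarith, by linarith⟩
  choose! w K K' hDat hK hK' he ho hv hn using hfact
  rw [← hS, Set.ncard_eq_toFinset_card S hfin]
  have hsA : 1 ≤ Real.sqrt A := by
    rw [← Real.sqrt_one]
    exact Real.sqrt_le_sqrt hA
  have hsq : 1 ≤ Real.sqrt q := by
    rw [← Real.sqrt_one]
    exact Real.sqrt_le_sqrt (by exact_mod_cast hq)
  have hAA : Real.sqrt A * Real.sqrt A = A := Real.mul_self_sqrt (by linarith)
  have hT : 1 ≤ (L + 2) * Real.sqrt A := by nlinarith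
  have hfib : ∀ a ∈ hfin.toFinset, (((hfin.toFinset).filter
      (fun a' => (fun h : ℤ[X] => h.coeff 1) a' = (fun h : ℤ[X] => h.coeff 1) a)).card : ℝ) ≤ L + 2 := by
    intro a ha
    have ha' := (hfin.mem_toFinset).1 ha
    refine le_trans ?_ (hn a ha')
    have h1 : ({h' | h' ∈ Weil q g ∧ pre g (g - 1) h' = pre g (g - 1) a} : Set ℤ[X]).Finite :=
      (Weil_finite q g).subset fun h hh => hh.1
    rw [← Set.ncard_coe_finset]
    refine Nat.cast_le.2 (Set.ncard_le_ncard ?_ h1)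
    intro b hb
    rw [Finset.mem_coe, Finset.mem_filter] at hb
    obtain ⟨hb1, hb2⟩ := hb
    have hb1' := (hSm b).1 ((hfin.mem_toFinset).1 hb1)
    have ha2 := (hSm a).1 ha'
    refine ⟨hb1'.1, ?_⟩
    have h3 := P9_diff hg2 ha2.1 hb1'.1 (hb1'.2.1.trans ha2.2.1.symm)
    simp only at hb2
    rw [hb2, sub_self, C_0, zero_mul, add_zero] at h3
    funext i
    unfold pre
    rw [h3, coeff_add, coeff_C_of_ne_zero (by omega), add_zero]
  have hgap : ∀ b ∈ (Finset.range (g + 1)) ×ˢ (Finset.range (g + 1)),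
      ((((hfin.toFinset).filter (fun a => (fun h => (K h, K' h)) a = b)).image
        (fun h : ℤ[X] => h.coeff 1)).card : ℝ) ≤ 2 * ((L + 2) * Real.sqrt A) + 2 := by
    intro b _
    refine gap_card hT _ ?_
    intro u₁ hu₁ u₂ hu₂ u₃ hu₃ h12 h23
    rw [Finset.mem_image] at hu₁ hu₂ hu₃
    obtain ⟨p₁, hp₁, e₁⟩ := hu₁
    obtain ⟨p₂, hp₂, e₂⟩ := hu₂
    obtain ⟨p₃, hp₃, e₃⟩ := hu₃
    rw [Finset.mem_filter, hfin.mem_toFinset] at hp₁ hp₂ hp₃
    obtain ⟨m₁, b₁⟩ := hp₁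
    obtain ⟨m₂, b₂⟩ := hp₂
    obtain ⟨m₃, b₃⟩ := hp₃
    simp only at b₁ b₂ b₃ e₁ e₂ e₃
    have k₁ : K p₁ = K p₂ := congrArg Prod.fst (b₁.trans b₂.symm)
    have k₁' : K' p₁ = K' p₂ := congrArg Prod.snd (b₁.trans b₂.symm)
    have k₃ : K p₃ = K p₂ := congrArg Prod.fst (b₃.trans b₂.symm)
    have k₃' : K' p₃ = K' p₂ := congrArg Prod.snd (b₃.trans b₂.symm)
    have n₁ := (hSm p₁).1 m₁
    have n₂ := (hSm p₂).1 m₂
    have n₃ := (hSm p₃).1 m₃
    have d12 := P9_diff hg2 n₁.1 n₂.1 (n₂.2.1.trans n₁.2.1.symm)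
    have d23 := P9_diff hg2 n₂.1 n₃.1 (n₃.2.1.trans n₂.2.1.symm)
    have d02 := P9_diff hg2 h0 n₂.1 n₂.2.1
    have r12 : p₂.map (Int.castRingHom ℝ) = p₁.map (Int.castRingHom ℝ) +
        C ((p₂.coeff 1 - p₁.coeff 1 : ℤ) : ℝ) * X + C ((p₂.coeff 0 - p₁.coeff 0 : ℤ) : ℝ) := by
      conv_lhs => rw [d12]
      exact P9_map _ _ _
    have r23 : p₃.map (Int.castRingHom ℝ) = p₂.map (Int.castRingHom ℝ) +
        C ((p₃.coeff 1 - p₂.coeff 1 : ℤ) : ℝ) * X + C ((p₃.coeff 0 - p₂.coeff 0 : ℤ) : ℝ) := by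
      conv_lhs => rw [d23]
      exact P9_map _ _ _
    have hA2 : ∀ x : ℝ, |x| ≤ 2 * Real.sqrt q →
        |(derivative (derivative (p₂.map (Int.castRingHom ℝ)))).eval x| ≤ A := by
      intro x hx
      rw [derivative_map, derivative_map]
      have h5 : derivative (derivative p₂) = derivative (derivative h₀) := by
        rw [d02]
        exact P9_der _ _ _
      rw [h5]
      exact hd x hx
    have v1 := hv p₁ m₁
    rw [k₁, k₁'] at v1
    have v3 := hv p₃ m₃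
    rw [k₃, k₃'] at v3
    have key := key3 hz (hDat p₁ m₁) (hDat p₂ m₂) (hDat p₃ m₃) (T := (L + 2) * Real.sqrt A) (A := A) (L := L + 1)
      (by linarith) (a := ((p₂.coeff 1 - p₁.coeff 1 : ℤ) : ℝ)) (b := ((p₃.coeff 1 - p₂.coeff 1 : ℤ) : ℝ))
      (by rw [e₁, e₂, Int.cast_sub]; linarith) (by rw [e₂, e₃, Int.cast_sub]; linarith) r12 r23 hA2
      (hK p₂ m₂) (hK' p₂ m₂) (he p₂ m₂) (ho p₂ m₂) v1 (hv p₂ m₂) v3
    rcases key with key | key
    · have h6 : ((L + 2) * Real.sqrt A) ^ 2 = (L + 2) ^ 2 * A := by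
        rw [mul_pow, sq (Real.sqrt A), hAA]
      rw [h6] at key
      nlinarith
    · have h7 : (L + 2) * 1 ≤ (L + 2) * Real.sqrt A := mul_le_mul_of_nonneg_left hsA (by linarith)
      have h8 : 1 * ((L + 2) * Real.sqrt A) ≤ Real.sqrt q * ((L + 2) * Real.sqrt A) :=
        mul_le_mul_of_nonneg_right hsq (by linarith)
      nlinarith
  have hmain := card_two_step hfin.toFinset ((Finset.range (g + 1)) ×ˢ (Finset.range (g + 1)))
    (fun h => (K h, K' h)) (fun h : ℤ[X] => h.coeff 1) (fun a ha => by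
      have ha' := (hfin.mem_toFinset).1 ha
      rw [Finset.mem_product, Finset.mem_range, Finset.mem_range]
      exact ⟨Nat.lt_succ_of_le (hK a ha'), Nat.lt_succ_of_le (hK' a ha')⟩)
    (B := 2 * ((L + 2) * Real.sqrt A) + 2) (F := L + 2) (by linarith) (by linarith) hgap hfib
  refine hmain.trans ?_
  rw [Finset.card_product, Finset.card_range]
  push_cast
  have h9 : 2 * ((L + 2) * Real.sqrt A) + 2 ≤ 2 * ((L + 3) * Real.sqrt A) := by nlinarith
  have h10 : (2 * ((L + 2) * Real.sqrt A) + 2) * (L + 2) ≤ 2 * ((L + 3) * Real.sqrt A) * (L + 3) :=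
    mul_le_mul h9 (by linarith) (by linarith) (by positivity)
  have h11 : (((g : ℝ) + 1) * ((g : ℝ) + 1)) * ((2 * ((L + 2) * Real.sqrt A) + 2) * (L + 2)) ≤
      (((g : ℝ) + 1) * ((g : ℝ) + 1)) * (2 * ((L + 3) * Real.sqrt A) * (L + 3)) :=
    mul_le_mul_of_nonneg_left h10 (by positivity)
  have h12 : 0 ≤ ((g : ℝ) + 1) ^ 2 * (L + 3) ^ 2 * Real.sqrt A := by positivity
  nlinarith

end TQ
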