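import Pool.Agent.Lib.MP_021685_agTQ.Defs

/-! Block PF: definitions. -/

set_option autoImplicit false

namespace TQ

open MeasureTheory

/-- `f_k(t) = 2 sin ((k + 1) t)` -/
noncomputable def ff (k : ℕ) (t : ℝ) : ℝ := 2 * Real.sin (((k : ℕ) + 1 : ℝ) * t)

/-- the primitive of `ff k` which vanishes at `0` -/
noncomputable def FF (k : ℕ) (t : ℝ) : ℝ := 2 * (1 - Real.cos (((k : ℕ) + 1 : ℝ) * t)) / ((k : ℝ) + 1)

/-- `(i, e) ↦ 2 i + e` -/
def idx {m : ℕ} (a : Fin m × Fin 2) : ℕ := 2 * (a.1 : ℕ) + (a.2 : ℕ)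

/-- the sum over the permutations `s` of `sgn(s) ∏_k w(s(k,0), s(k,1))` (a Pfaffian) -/
noncomputable def SS {m : ℕ} (w : Fin m × Fin 2 → Fin m × Fin 2 → ℝ) : ℝ :=
  ∑ s : Equiv.Perm (Fin m × Fin 2), ((Equiv.Perm.sign s : ℤ) : ℝ) * ∏ k : Fin m, w (s (k, 0)) (s (k, 1))

/-- the point with the coordinates `u` (at `(j, 0)`) and `s` (at `(j, 1)`) -/
def mix {m : ℕ} (u s : Fin m → ℝ) (b : Fin m × Fin 2) : ℝ := if b.2 = 0 then u b.1 else s b.1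

/-- the determinant of the values of `f_0, .., f_(2m-1)` at the points `x` -/
noncomputable def DP {m : ℕ} (x : Fin m × Fin 2 → ℝ) : ℝ :=
  (Matrix.of fun a b : Fin m × Fin 2 => ff (idx a) (x b)).det

/-- the determinant with the columns `F(s_j), f(s_j)` -/
noncomputable def GG {m : ℕ} (s : Fin m → ℝ) : ℝ :=
  (Matrix.of fun a b : Fin m × Fin 2 => if b.2 = 0 then FF (idx a) (s b.1) else ff (idx a) (s b.1)).det

/-- `s_(j-1)`, and `0` for `j = 0` -/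
def pv {m : ℕ} (s : Fin m → ℝ) (j : Fin m) : ℝ :=
  if (j : ℕ) = 0 then 0 else s ⟨(j : ℕ) - 1, lt_of_le_of_lt (Nat.sub_le _ _) j.isLt⟩

/-- the strictly increasing points of `(0, π)` -/
def Ch (m : ℕ) : Set (Fin m → ℝ) := {s | StrictMono s ∧ ∀ j, s j ∈ Set.Ioo 0 Real.pi}

/-- the cube `(0, π)^m` -/
def Cube (m : ℕ) : Set (Fin m → ℝ) := {s | ∀ j, s j ∈ Set.Ioo 0 Real.pi}

/-- the box `s_(j-1) < u_j < s_j` -/
def Box {m : ℕ} (s : Fin m → ℝ) : Set (Fin m → ℝ) := {u | ∀ j, u j ∈ Set.Ioo (pv s j) (s j)}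

/-- the pairing `∫ F_a f_b` -/
noncomputable def ww {m : ℕ} (a b : Fin m × Fin 2) : ℝ := ∫ t in (0 : ℝ)..Real.pi, FF (idx a) t * ff (idx b) t

/-- the antisymmetric pairing `⟨f_a, f_b⟩ = ∫ (F_a f_b - F_b f_a)` -/
noncomputable def br {m : ℕ} (a b : Fin m × Fin 2) : ℝ := ww a b - ww b a

end TQ
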