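import Pool.Agent.Lib.MP_021685_agTQ.PA0

/-! Block PF, leaf PA1: the sign of the determinant. -/

set_option autoImplicit false

namespace TQ

/-- the polynomials `R_k` with `sin ((k+1) t) = sin t * R_k (2 cos t)` -/
private noncomputable def PA1_R : ℕ → Polynomial ℝ
  | 0 => 1
  | 1 => Polynomial.X
  | n + 2 => Polynomial.X * PA1_R (n + 1) - PA1_R n

private theorem PA1_deg (k : ℕ) : (PA1_R k).natDegree = k ∧ (PA1_R k).Monic := by
  induction k using Nat.strong_induction_on with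
  | _ k ih =>
    match k, ih with
    | 0, _ => exact ⟨Polynomial.natDegree_one, Polynomial.monic_one⟩
    | 1, _ => exact ⟨Polynomial.natDegree_X, Polynomial.monic_X⟩
    | n + 2, ih =>
      obtain ⟨h1, h2⟩ := ih (n + 1) (by omega)
      obtain ⟨h3, h4⟩ := ih n (by omega)
      have h5 : (Polynomial.X * PA1_R (n + 1)).Monic := Polynomial.monic_X.mul h2
      have h6 : (Polynomial.X * PA1_R (n + 1)).natDegree = n + 2 := by
        rw [Polynomial.monic_X.natDegree_mul h2, Polynomial.natDegree_X, h1]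
        ring
      have h7 : (PA1_R n).natDegree < (Polynomial.X * PA1_R (n + 1)).natDegree := by
        rw [h3, h6]
        omega
      refine ⟨?_, ?_⟩
      · show (Polynomial.X * PA1_R (n + 1) - PA1_R n).natDegree = n + 2
        rw [Polynomial.natDegree_sub_eq_left_of_natDegree_lt h7, h6]
      · show (Polynomial.X * PA1_R (n + 1) - PA1_R n).Monic
        exact h5.sub_of_left (Polynomial.degree_lt_degree h7)

private theorem PA1_sin (k : ℕ) (t : ℝ) :
    Real.sin (((k : ℕ) + 1 : ℝ) * t) = Real.sin t * (PA1_R k).eval (2 * Real.cos t) := by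
  induction k using Nat.strong_induction_on with
  | _ k ih =>
    match k, ih with
    | 0, _ =>
      show Real.sin ((((0 : ℕ) : ℝ) + 1) * t) = Real.sin t * (1 : Polynomial ℝ).eval (2 * Real.cos t)
      simp
    | 1, _ =>
      show Real.sin ((((1 : ℕ) : ℝ) + 1) * t) = Real.sin t * (Polynomial.X : Polynomial ℝ).eval (2 * Real.cos t)
      rw [Polynomial.eval_X]
      have h1 : (((1 : ℕ) : ℝ) + 1) * t = 2 * t := by push_cast; ring
      rw [h1, Real.sin_two_mul]
      ring
    | n + 2, ih =>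
      have h1 := ih (n + 1) (by omega)
      have h2 := ih n (by omega)
      show Real.sin ((((n + 2 : ℕ) : ℝ) + 1) * t) =
        Real.sin t * (Polynomial.X * PA1_R (n + 1) - PA1_R n).eval (2 * Real.cos t)
      rw [Polynomial.eval_sub, Polynomial.eval_mul, Polynomial.eval_X, mul_sub, ← h2, mul_left_comm, ← h1]
      have h3 : (((n + 2 : ℕ) : ℝ) + 1) * t = (((n + 1 : ℕ) : ℝ) + 1) * t + t := by push_cast; ring
      have h4 : ((n : ℝ) + 1) * t = (((n + 1 : ℕ) : ℝ) + 1) * t - t := by push_cast; ring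
      rw [h3, h4, Real.sin_add, Real.sin_sub]
      ring

/-- For `θ ∈ Ch n` the determinant of `2 sin ((k+1) θ_j)` has the sign `(-1) ^ (n (n-1) / 2)`, the same for all `θ`.
PROOF. `sin ((k+1) t) = sin t * U_k (cos t)`, and `S_k (2 cos t) = U_k (cos t)` where `S_k` is a monic polynomial of
degree `k` (in Mathlib: `Polynomial.Chebyshev.S ℝ k`; or prove by hand by strong induction: there are monic polynomials
`R_k` of degree `k` with `sin ((k+1) t) = sin t * R_k.eval (2 cos t)`, `R_0 = 1`, `R_1 = X`, `R_(k+2) = X R_(k+1) - R_k`,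
from `sin ((k+3) t) + sin ((k+1) t) = 2 cos t sin ((k+2) t)`). So the determinant is
`∏_j (2 sin θ_j) * det (R_k.eval (x_j))`, `x_j = 2 cos θ_j`, and `det (R_k.eval (x_j)) = det (vandermonde x)` up to a
transposition (`Matrix.det_eval_matrixOfPolynomials_eq_det_vandermonde`) `= ∏_(i < j) (x_j - x_i)` (`Matrix.det_vandermonde`).
For `θ ∈ Ch n`: `sin θ_j > 0`, and `x_j - x_i < 0` for `i < j` (`Real.strictAntiOn_cos`). Take
`ε = ∏_(i < j) (-1)`: `ε * det = ∏ 2 sin θ_j * ∏_(i<j) (x_i - x_j) ≥ 0`. -/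
theorem det_sign (n : ℕ) : ∃ ε : ℝ, (ε = 1 ∨ ε = -1) ∧ ∀ θ ∈ Ch n,
    0 ≤ ε * (Matrix.of fun k j : Fin n => ff (k : ℕ) (θ j)).det := by
  refine ⟨(-1) ^ (∑ i : Fin n, (Finset.Ioi i).card), neg_one_pow_eq_or ℝ _, ?_⟩
  intro θ hθ
  have h1 : (Matrix.of fun k j : Fin n => ff (k : ℕ) (θ j)) =
      Matrix.of fun k j : Fin n => (2 * Real.sin (θ j)) *
        (Matrix.of fun k j : Fin n => (PA1_R (k : ℕ)).eval (2 * Real.cos (θ j))) k j := by
    ext k j
    show 2 * Real.sin (((k : ℕ) + 1 : ℝ) * θ j) =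
      (2 * Real.sin (θ j)) * (PA1_R (k : ℕ)).eval (2 * Real.cos (θ j))
    rw [PA1_sin]
    ring
  have h2 : (Matrix.of fun k j : Fin n => (PA1_R (k : ℕ)).eval (2 * Real.cos (θ j))).det =
      ∏ i : Fin n, ∏ j ∈ Finset.Ioi i, (2 * Real.cos (θ j) - 2 * Real.cos (θ i)) := by
    rw [← Matrix.det_vandermonde (fun j : Fin n => 2 * Real.cos (θ j)),
      Matrix.det_eval_matrixOfPolynomials_eq_det_vandermonde (fun j : Fin n => 2 * Real.cos (θ j))
        (fun k : Fin n => PA1_R (k : ℕ)) (fun k => (PA1_deg k).1) (fun k => (PA1_deg k).2),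
      ← Matrix.det_transpose]
    rfl
  have h3 : ((-1 : ℝ) ^ (∑ i : Fin n, (Finset.Ioi i).card)) =
      ∏ i : Fin n, ∏ _j ∈ Finset.Ioi i, (-1 : ℝ) := by
    rw [← Finset.prod_pow_eq_pow_sum]
    refine Finset.prod_congr rfl fun i _ => ?_
    rw [Finset.prod_const]
  rw [h1, Matrix.det_mul_row, h2, mul_left_comm, h3, ← Finset.prod_mul_distrib]
  refine mul_nonneg ?_ ?_
  · refine Finset.prod_nonneg fun j _ => ?_
    have := Real.sin_pos_of_pos_of_lt_pi (hθ.2 j).1 (hθ.2 j).2
    positivity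
  · refine Finset.prod_nonneg fun i _ => ?_
    rw [← Finset.prod_mul_distrib]
    refine Finset.prod_nonneg fun j hj => ?_
    have hij : θ i < θ j := hθ.1 (Finset.mem_Ioi.1 hj)
    have h4 : Real.cos (θ j) < Real.cos (θ i) :=
      Real.strictAntiOn_cos ⟨(hθ.2 i).1.le, (hθ.2 i).2.le⟩ ⟨(hθ.2 j).1.le, (hθ.2 j).2.le⟩ hij
    linarith

end TQ
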