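import Pool.Agent.Lib.MP_021685_agTQ.PA0

/-! Block PF, leaf PA2: the integral over the ordered region as a double integral. -/

set_option autoImplicit false

namespace TQ

open MeasureTheory

/-- the point with the coordinates `u` at the even places and `s` at the odd places -/
private def PA2_th {m : ℕ} (u s : Fin m → ℝ) (k : Fin (2 * m)) : ℝ :=
  mix u s (⟨(k : ℕ) / 2, by omega⟩, ⟨(k : ℕ) % 2, by omega⟩)

private theorem PA2_th_even {m : ℕ} (u s : Fin m → ℝ) (j : Fin m) (h : 2 * (j : ℕ) < 2 * m) :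
    PA2_th u s ⟨2 * (j : ℕ), h⟩ = u j := by
  unfold PA2_th mix
  have h1 : (⟨(2 * (j : ℕ)) % 2, by omega⟩ : Fin 2) = 0 := by
    apply Fin.ext
    simp
  have h2 : (⟨(2 * (j : ℕ)) / 2, by omega⟩ : Fin m) = j := by
    apply Fin.ext
    simp
  simp only [h1, h2, if_true]

private theorem PA2_th_odd {m : ℕ} (u s : Fin m → ℝ) (j : Fin m) (h : 2 * (j : ℕ) + 1 < 2 * m) :
    PA2_th u s ⟨2 * (j : ℕ) + 1, h⟩ = s j := by
  unfold PA2_th mix
  have h1 : (⟨(2 * (j : ℕ) + 1) % 2, by omega⟩ : Fin 2) = 1 := by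
    apply Fin.ext
    simp only [Fin.val_one]
    omega
  have h2 : (⟨(2 * (j : ℕ) + 1) / 2, by omega⟩ : Fin m) = j := by
    apply Fin.ext
    simp only
    omega
  simp only [h1, h2, one_ne_zero, if_false]

private theorem PA2_split {m : ℕ} (k : Fin (2 * m)) :
    ∃ j : Fin m, ((k : ℕ) = 2 * (j : ℕ) ∧ ∀ u s : Fin m → ℝ, PA2_th u s k = u j) ∨
      ((k : ℕ) = 2 * (j : ℕ) + 1 ∧ ∀ u s : Fin m → ℝ, PA2_th u s k = s j) := by
  refine ⟨⟨(k : ℕ) / 2, by omega⟩, ?_⟩
  rcases Nat.mod_two_eq_zero_or_one (k : ℕ) with h | h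
  · left
    have hk : (k : ℕ) = 2 * ((k : ℕ) / 2) := by omega
    refine ⟨hk, fun u s => ?_⟩
    have := PA2_th_even u s ⟨(k : ℕ) / 2, by omega⟩ (by simp only; omega)
    have e : k = ⟨2 * ((k : ℕ) / 2), by omega⟩ := Fin.ext hk
    rw [← this]
    exact congrArg (PA2_th u s) e
  · right
    have hk : (k : ℕ) = 2 * ((k : ℕ) / 2) + 1 := by omega
    refine ⟨hk, fun u s => ?_⟩
    have := PA2_th_odd u s ⟨(k : ℕ) / 2, by omega⟩ (by simp only; omega)
    have e : k = ⟨2 * ((k : ℕ) / 2) + 1, by omega⟩ := Fin.ext hk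
    rw [← this]
    exact congrArg (PA2_th u s) e

private theorem PA2_pv_pos {m : ℕ} {s : Fin m → ℝ} (hs : s ∈ Ch m) (j : Fin m) : 0 ≤ pv s j := by
  unfold pv
  split_ifs
  · exact le_rfl
  · exact (hs.2 _).1.le

private theorem PA2_le_pv {m : ℕ} {s : Fin m → ℝ} (hs : s ∈ Ch m) {a b : Fin m} (h : a < b) : s a ≤ pv s b := by
  unfold pv
  have h' : (a : ℕ) < (b : ℕ) := h
  rw [if_neg (by omega)]
  apply hs.1.monotone
  show (a : ℕ) ≤ (b : ℕ) - 1
  omega

private theorem PA2_mem {m : ℕ} (u s : Fin m → ℝ) : PA2_th u s ∈ Ch (2 * m) ↔ s ∈ Ch m ∧ u ∈ Box s := by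
  constructor
  · intro h
    have h1 (j : Fin m) : 2 * (j : ℕ) < 2 * m := by omega
    have h2 (j : Fin m) : 2 * (j : ℕ) + 1 < 2 * m := by omega
    refine ⟨⟨fun a b hab => ?_, fun j => ?_⟩, fun j => ⟨?_, ?_⟩⟩
    · rw [← PA2_th_odd u s a (h2 a), ← PA2_th_odd u s b (h2 b)]
      apply h.1
      have hab' : (a : ℕ) < (b : ℕ) := hab
      show 2 * (a : ℕ) + 1 < 2 * (b : ℕ) + 1
      omega
    · rw [← PA2_th_odd u s j (h2 j)]
      exact h.2 _
    · rw [← PA2_th_even u s j (h1 j)]
      unfold pv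
      split_ifs with h0
      · exact (h.2 _).1
      · have h3 : 2 * ((j : ℕ) - 1) + 1 < 2 * m := by omega
        have h4 := PA2_th_odd u s ⟨(j : ℕ) - 1, by omega⟩ h3
        rw [← h4]
        apply h.1
        show 2 * ((j : ℕ) - 1) + 1 < 2 * (j : ℕ)
        omega
    · rw [← PA2_th_even u s j (h1 j)]
      have h4 := PA2_th_odd u s j (h2 j)
      rw [← h4]
      apply h.1
      show 2 * (j : ℕ) < 2 * (j : ℕ) + 1
      omega
  · rintro ⟨hs, hu⟩
    refine ⟨fun i j hij => ?_, fun k => ?_⟩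
    · have hij' : (i : ℕ) < (j : ℕ) := hij
      obtain ⟨a, ha⟩ := PA2_split i
      obtain ⟨b, hb⟩ := PA2_split j
      rcases lt_trichotomy a b with hab | hab | hab
      · have hi : PA2_th u s i ≤ s a := by
          rcases ha with ⟨_, ha⟩ | ⟨_, ha⟩
          · rw [ha]
            exact (hu a).2.le
          · rw [ha]
        have hj : pv s b < PA2_th u s j := by
          rcases hb with ⟨_, hb⟩ | ⟨_, hb⟩
          · rw [hb]
            exact (hu b).1
          · rw [hb]
            exact (hu b).1.trans (hu b).2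
        exact lt_of_le_of_lt (hi.trans (PA2_le_pv hs hab)) hj
      · subst hab
        rcases ha with ⟨ha', ha⟩ | ⟨ha', ha⟩ <;> rcases hb with ⟨hb', hb⟩ | ⟨hb', hb⟩
        · omega
        · rw [ha, hb]
          exact (hu a).2
        · omega
        · omega
      · have hab' : (b : ℕ) < (a : ℕ) := hab
        rcases ha with ⟨ha', ha⟩ | ⟨ha', ha⟩ <;> rcases hb with ⟨hb', hb⟩ | ⟨hb', hb⟩ <;> omega
    · obtain ⟨a, ⟨_, ha⟩ | ⟨_, ha⟩⟩ := PA2_split k
      · rw [ha]
        exact ⟨lt_of_le_of_lt (PA2_pv_pos hs a) (hu a).1, (hu a).2.trans (hs.2 a).2⟩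
      · rw [ha]
        exact hs.2 a

private theorem PA2_det {m : ℕ} (u s : Fin m → ℝ) :
    DP (mix u s) = (Matrix.of fun k j : Fin (2 * m) => ff (k : ℕ) (PA2_th u s j)).det := by
  have hE (a : Fin m × Fin 2) : (((finProdFinEquiv.trans (finCongr (mul_comm m 2))) a : Fin (2 * m)) : ℕ) = idx a := by
    unfold idx
    simp only [Equiv.trans_apply, finCongr_apply, Fin.val_cast, finProdFinEquiv_apply_val]
    ring
  rw [← Matrix.det_submatrix_equiv_self (finProdFinEquiv.trans (finCongr (mul_comm m 2)))]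
  unfold DP
  congr 1
  ext a b
  simp only [Matrix.of_apply, Matrix.submatrix_apply]
  rw [hE]
  congr 1
  obtain ⟨j, ⟨hj, hj'⟩ | ⟨hj, hj'⟩⟩ := PA2_split ((finProdFinEquiv.trans (finCongr (mul_comm m 2))) b)
  · rw [hE] at hj
    rw [hj']
    unfold idx at hj
    have hb := b.2.isLt
    have h1 : b.2 = 0 := by
      apply Fin.ext
      simp only [Fin.val_zero]
      omega
    have h2 : b.1 = j := by
      apply Fin.ext
      omega
    unfold mix
    rw [if_pos h1, h2]
  · rw [hE] at hj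
    rw [hj']
    unfold idx at hj
    have hb := b.2.isLt
    have h1 : b.2 ≠ 0 := by
      intro h
      rw [h] at hj
      simp only [Fin.val_zero] at hj
      omega
    have h2 : b.1 = j := by
      apply Fin.ext
      omega
    unfold mix
    rw [if_neg h1, h2]

private theorem PA2_meas (n : ℕ) : MeasurableSet (Ch n) := by
  have h : Ch n = (⋂ i : Fin n, ⋂ j : Fin n, ⋂ _ : i < j, {θ : Fin n → ℝ | θ i < θ j}) ∩
      ⋂ j : Fin n, {θ : Fin n → ℝ | 0 < θ j} ∩ {θ : Fin n → ℝ | θ j < Real.pi} := by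
    ext θ
    simp only [Ch, StrictMono, Set.mem_ofPred_eq, Set.mem_Ioo, Set.mem_inter_iff, Set.mem_iInter]
  rw [h]
  refine MeasurableSet.inter ?_ ?_
  · exact MeasurableSet.iInter fun i => MeasurableSet.iInter fun j => MeasurableSet.iInter fun _ =>
      measurableSet_lt (measurable_pi_apply i) (measurable_pi_apply j)
  · exact MeasurableSet.iInter fun j => (measurableSet_lt measurable_const (measurable_pi_apply j)).inter
      (measurableSet_lt (measurable_pi_apply j) measurable_const)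

private theorem PA2_meas_det (n : ℕ) :
    Measurable fun θ : Fin n → ℝ => ENNReal.ofReal |(Matrix.of fun k j : Fin n => ff (k : ℕ) (θ j)).det| := by
  refine ENNReal.measurable_ofReal.comp (Continuous.measurable ?_)
  refine continuous_abs.comp (Continuous.matrix_det ?_)
  refine continuous_matrix fun i j => ?_
  simp only [Matrix.of_apply]
  unfold ff
  fun_prop

/-- the numbering of the coordinates -/
private def PA2_e (m : ℕ) : Fin m ⊕ Fin m ≃ Fin (2 * m) where
  toFun := Sum.elim (fun j => ⟨2 * (j : ℕ), by omega⟩) (fun j => ⟨2 * (j : ℕ) + 1, by omega⟩)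
  invFun k := if (k : ℕ) % 2 = 0 then Sum.inl ⟨(k : ℕ) / 2, by omega⟩ else Sum.inr ⟨(k : ℕ) / 2, by omega⟩
  left_inv := by
    rintro (j | j)
    · have h : (2 * (j : ℕ)) % 2 = 0 := by omega
      have h2 : (2 * (j : ℕ)) / 2 = (j : ℕ) := by omega
      simp only [Sum.elim_inl, h, if_true, h2, Fin.eta]
    · have h : ¬ (2 * (j : ℕ) + 1) % 2 = 0 := by omega
      have h2 : (2 * (j : ℕ) + 1) / 2 = (j : ℕ) := by omega
      simp only [Sum.elim_inr, h, if_false, h2, Fin.eta]
  right_inv := by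
    intro k
    apply Fin.ext
    by_cases h : (k : ℕ) % 2 = 0
    · simp only [h, if_true, Sum.elim_inl]
      omega
    · simp only [h, if_false, Sum.elim_inr]
      omega

/-- the volume preserving equivalence -/
private noncomputable def PA2_Phi (m : ℕ) : (Fin m → ℝ) × (Fin m → ℝ) ≃ᵐ (Fin (2 * m) → ℝ) :=
  (MeasurableEquiv.sumPiEquivProdPi (fun _ : Fin m ⊕ Fin m => ℝ)).symm.trans
    (MeasurableEquiv.piCongrLeft (fun _ : Fin (2 * m) => ℝ) (PA2_e m))

private theorem PA2_Phi_mp (m : ℕ) : MeasurePreserving (PA2_Phi m) volume volume :=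
  (volume_measurePreserving_piCongrLeft (fun _ : Fin (2 * m) => ℝ) (PA2_e m)).comp
    (volume_measurePreserving_sumPiEquivProdPi_symm (fun _ : Fin m ⊕ Fin m => ℝ))

private theorem PA2_Phi_apply {m : ℕ} (u s : Fin m → ℝ) : PA2_Phi m (u, s) = PA2_th u s := by
  funext k
  obtain ⟨x, rfl⟩ := (PA2_e m).surjective k
  have h : PA2_Phi m (u, s) (PA2_e m x) = Sum.elim u s x := by
    unfold PA2_Phi
    simp only [MeasurableEquiv.trans_apply]
    rw [MeasurableEquiv.coe_piCongrLeft, Equiv.piCongrLeft_apply_apply]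
    rcases x with x | x <;> rfl
  rw [h]
  rcases x with j | j
  · exact (PA2_th_even u s j _).symm
  · exact (PA2_th_odd u s j _).symm

/-- For `s ∈ Ch m` and `u` in the box of `s` the point `θ` with `θ_(2j) = u_j`, `θ_(2j+1) = s_j` is in `Ch (2 m)`, and the
two determinants are the same. PROOF. `θ k = mix u s (⟨k / 2, _⟩, ⟨k % 2, _⟩)`. `StrictMono`: `Fin.strictMono_iff_lt_succ`
or compare `k / 2`, `k % 2` directly: `s_(j-1) < u_j < s_j` (`pv`), `s` is strictly monotone. The determinants: the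
bijection `Fin m × Fin 2 ≃ Fin (2 m)`, `(i, e) ↦ 2 i + e` (`finProdFinEquiv` and a cast, or `Equiv` by hand), and
`Matrix.det_submatrix_equiv_self`. -/
theorem mix_det {m : ℕ} {s u : Fin m → ℝ} (hs : s ∈ Ch m) (hu : u ∈ Box s) : ∃ θ ∈ Ch (2 * m),
    DP (mix u s) = (Matrix.of fun k j : Fin (2 * m) => ff (k : ℕ) (θ j)).det :=
  ⟨PA2_th u s, (PA2_mem u s).mpr ⟨hs, hu⟩, PA2_det u s⟩

/-- PROOF. Let `e : Fin m ⊕ Fin m ≃ Fin (2 m)`, `inl j ↦ 2 j` (the coordinate `u_j`), `inr j ↦ 2 j + 1` (the coordinate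
`s_j`). The maps `MeasurableEquiv.piCongrLeft` (`volume_measurePreserving_piCongrLeft`) and
`MeasurableEquiv.sumPiEquivProdPi` (`volume_measurePreserving_sumPiEquivProdPi`, `..._symm`) give a volume preserving
measurable equivalence between `Fin (2 m) → ℝ` and `(Fin m → ℝ) × (Fin m → ℝ)`, swap the factors
(`Measure.prod_swap`) or use `lintegral_prod_symm`. Under it `Ch (2 m)` is the set of the `(u, s)` with `s ∈ Ch m` and
`u ∈ Box s` (both directions: `θ_(2j-1) < θ_(2j) < θ_(2j+1)`), the integrand is `ENNReal.ofReal |DP (mix u s)|` (see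
`mix_det`). Write the set integral as the integral of an indicator function (`lintegral_indicator`), Tonelli
(`lintegral_prod`, the function is measurable: determinant of continuous functions, `Ch` and `Box` are given by
countably many strict inequalities), and back. (`KK n` is the integral over `Ch n`, by `rfl`, with `ff` unfolded.) -/
theorem kk_eq (m : ℕ) : KK (2 * m) =
    (∫⁻ s in Ch m, ∫⁻ u in Box s, ENNReal.ofReal |DP (mix u s)|).toReal := by
  have hK : KK (2 * m) = (∫⁻ θ in Ch (2 * m),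
      ENNReal.ofReal |(Matrix.of fun k j : Fin (2 * m) => ff (k : ℕ) (θ j)).det|).toReal := rfl
  rw [hK]
  congr 1
  have hB (s : Fin m → ℝ) : MeasurableSet (Box s) := by
    have h : Box s = Set.univ.pi fun j => Set.Ioo (pv s j) (s j) := by
      ext u
      simp only [Box, Set.mem_ofPred_eq, Set.mem_univ_pi]
    rw [h]
    exact MeasurableSet.univ_pi fun j => measurableSet_Ioo
  have hG := (PA2_meas_det (2 * m)).indicator (PA2_meas (2 * m))
  rw [← lintegral_indicator (PA2_meas (2 * m)), ← (PA2_Phi_mp m).lintegral_comp hG,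
    ← lintegral_indicator (PA2_meas m)]
  have hG2 : AEMeasurable (fun a : (Fin m → ℝ) × (Fin m → ℝ) => (Ch (2 * m)).indicator
      (fun θ => ENNReal.ofReal |(Matrix.of fun k j : Fin (2 * m) => ff (k : ℕ) (θ j)).det|) (PA2_Phi m a))
      ((volume : Measure (Fin m → ℝ)).prod volume) := (hG.comp (PA2_Phi m).measurable).aemeasurable
  rw [show (volume : Measure ((Fin m → ℝ) × (Fin m → ℝ))) = (volume : Measure (Fin m → ℝ)).prod volume from rfl,
    lintegral_prod_symm _ hG2]
  refine lintegral_congr fun s => ?_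
  by_cases hs : s ∈ Ch m
  · rw [Set.indicator_of_mem hs, ← lintegral_indicator (hB s)]
    refine lintegral_congr fun u => ?_
    rw [PA2_Phi_apply]
    by_cases hu : u ∈ Box s
    · rw [Set.indicator_of_mem ((PA2_mem u s).mpr ⟨hs, hu⟩), Set.indicator_of_mem hu, PA2_det]
    · rw [Set.indicator_of_notMem (fun h => hu ((PA2_mem u s).mp h).2), Set.indicator_of_notMem hu]
  · rw [Set.indicator_of_notMem hs]
    have h0 : ∀ u : Fin m → ℝ, (Ch (2 * m)).indicator
        (fun θ => ENNReal.ofReal |(Matrix.of fun k j : Fin (2 * m) => ff (k : ℕ) (θ j)).det|) (PA2_Phi m (u, s)) = 0 := by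
      intro u
      rw [PA2_Phi_apply, Set.indicator_of_notMem (fun h => hs ((PA2_mem u s).mp h).1)]
    simp only [h0, lintegral_zero]

end TQ
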