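import Pool.Agent.Lib.MP_021685_agTQ.PA0

/-! Block PF, leaf PA3: the integral over a box. -/

set_option autoImplicit false

namespace TQ

open MeasureTheory

private theorem PA3_cont (k : ℕ) : Continuous (ff k) := by
  unfold ff
  fun_prop

private theorem PA3_deriv (k : ℕ) (t : ℝ) : HasDerivAt (FF k) (ff k t) t := by
  have hk : ((k : ℝ) + 1) ≠ 0 := by positivity
  have h1 : HasDerivAt (fun t : ℝ => ((k : ℝ) + 1) * t) (((k : ℝ) + 1) * 1) t :=
    (hasDerivAt_id t).const_mul _
  have h3 := ((h1.cos.const_sub 1).const_mul 2).div_const ((k : ℝ) + 1)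
  have e : 2 * -(-Real.sin (((k : ℝ) + 1) * t) * (((k : ℝ) + 1) * 1)) / ((k : ℝ) + 1) = ff k t := by
    unfold ff
    field_simp
  rw [e] at h3
  exact h3

/-- `∫_a^b f_k = F_k(b) - F_k(a)`. PROOF. `F_k` has the derivative `f_k` (`HasDerivAt`), `f_k` is continuous:
`intervalIntegral.integral_eq_sub_of_hasDerivAt`, and `intervalIntegral.integral_of_le`, `integral_Ioc_eq_integral_Ioo`. -/
theorem int_ff (k : ℕ) {a b : ℝ} (h : a ≤ b) : ∫ t in Set.Ioo a b, ff k t = FF k b - FF k a := by
  rw [← integral_Ioc_eq_integral_Ioo, ← intervalIntegral.integral_of_le h]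
  exact intervalIntegral.integral_eq_sub_of_hasDerivAt (fun t _ => PA3_deriv k t)
    ((PA3_cont k).intervalIntegrable a b)

private theorem PA3_int (k : ℕ) (a b : ℝ) : IntegrableOn (ff k) (Set.Ioo a b) :=
  ((PA3_cont k).integrableOn_Icc (a := a) (b := b)).mono_set Set.Ioo_subset_Icc_self

/-- PROOF. Leibniz (`Matrix.det_apply` or `det_apply'`): `DP (mix u s) = ∑_σ sgn(σ) ∏_b f_(σ b)(mix u s b)` and the product
over `b : Fin m × Fin 2` is `∏_j f_(σ(j,0))(u_j) * f_(σ(j,1))(s_j)` (`Fintype.prod_prod_type`, `Fin.prod_univ_two`). `Box s` is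
`Set.pi Set.univ (fun j => Set.Ioo (pv s j) (s j))`, the volume restricted to it is a product measure
(`Measure.restrict_pi_pi`, `volume_pi`), so `∫ ∏_j f_(σ(j,0))(u_j) = ∏_j ∫ f_(σ(j,0))` (`integral_fintype_prod_eq_prod`), see
`int_ff`. Each summand is integrable: continuous and bounded on a set of finite measure (or `Integrable.fintype_prod`). -/
theorem box_int {m : ℕ} (s : Fin m → ℝ) (hs : ∀ j, pv s j ≤ s j) :
    IntegrableOn (fun u => DP (mix u s)) (Box s) ∧
    ∫ u in Box s, DP (mix u s) =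
      (Matrix.of fun a b : Fin m × Fin 2 =>
        if b.2 = 0 then FF (idx a) (s b.1) - FF (idx a) (pv s b.1) else ff (idx a) (s b.1)).det := by
  have hbox : Box s = Set.univ.pi (fun j => Set.Ioo (pv s j) (s j)) := by
    ext u
    simp only [Box, Set.mem_ofPred_eq, Set.mem_univ_pi]
  have hm : (volume : Measure (Fin m → ℝ)).restrict (Box s) =
      Measure.pi (fun j => (volume : Measure ℝ).restrict (Set.Ioo (pv s j) (s j))) := by
    rw [hbox, volume_pi, Measure.restrict_pi_pi]
  have hex : ∀ u : Fin m → ℝ, DP (mix u s) = ∑ σ : Equiv.Perm (Fin m × Fin 2),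
      (((Equiv.Perm.sign σ : ℤ) : ℝ) * ∏ j, ff (idx (σ (j, 1))) (s j)) *
        ∏ j, ff (idx (σ (j, 0))) (u j) := by
    intro u
    rw [DP, Matrix.det_apply']
    refine Finset.sum_congr rfl fun σ _ => ?_
    rw [Fintype.prod_prod_type, mul_assoc, ← Finset.prod_mul_distrib]
    refine congrArg _ (Finset.prod_congr rfl fun j _ => ?_)
    rw [Fin.prod_univ_two, Matrix.of_apply, Matrix.of_apply, mul_comm]
    rfl
  have hi : ∀ σ : Equiv.Perm (Fin m × Fin 2), Integrable (fun u : Fin m → ℝ =>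
      (((Equiv.Perm.sign σ : ℤ) : ℝ) * ∏ j, ff (idx (σ (j, 1))) (s j)) *
        ∏ j, ff (idx (σ (j, 0))) (u j))
      (Measure.pi (fun j => (volume : Measure ℝ).restrict (Set.Ioo (pv s j) (s j)))) := by
    intro σ
    exact (Integrable.fintype_prod (f := fun j t => ff (idx (σ (j, 0))) t)
      (fun j => PA3_int _ _ _)).const_mul _
  have hfun : (fun u : Fin m → ℝ => DP (mix u s)) = fun u => ∑ σ : Equiv.Perm (Fin m × Fin 2),
      (((Equiv.Perm.sign σ : ℤ) : ℝ) * ∏ j, ff (idx (σ (j, 1))) (s j)) *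
        ∏ j, ff (idx (σ (j, 0))) (u j) := funext hex
  refine ⟨?_, ?_⟩
  · rw [IntegrableOn, hm, hfun]
    exact integrable_finsetSum _ fun σ _ => hi σ
  · rw [hm, hfun, integral_finsetSum _ fun σ _ => hi σ, Matrix.det_apply']
    refine Finset.sum_congr rfl fun σ _ => ?_
    rw [integral_const_mul, integral_fintype_prod_eq_prod (fun j t => ff (idx (σ (j, 0))) t),
      Fintype.prod_prod_type, mul_assoc, ← Finset.prod_mul_distrib]
    refine congrArg _ (Finset.prod_congr rfl fun j _ => ?_)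
    rw [Fin.prod_univ_two, Matrix.of_apply, Matrix.of_apply, int_ff _ (hs j), mul_comm]
    rfl

end TQ
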