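import Pool.Agent.Lib.MP_021685_agTQ.PA0

/-! Block PF, leaf PA4: column operations. -/

set_option autoImplicit false

namespace TQ

private noncomputable def PA4_U (m : ℕ) : Matrix (Fin m × Fin 2) (Fin m × Fin 2) ℝ := fun b b' =>
  if b = b' then 1 else if b.2 = 0 ∧ b'.2 = 0 ∧ (b.1 : ℕ) + 1 = (b'.1 : ℕ) then -1 else 0

private theorem PA4_zero {m : ℕ} {b b' : Fin m × Fin 2} (h : b ≠ b')
    (h' : ¬ (b.2 = 0 ∧ b'.2 = 0 ∧ (b.1 : ℕ) + 1 = (b'.1 : ℕ))) : PA4_U m b b' = 0 := by
  unfold PA4_U
  rw [if_neg h, if_neg h']

private theorem PA4_det (m : ℕ) : (PA4_U m).det = 1 := by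
  have h : (PA4_U m).BlockTriangular (Prod.fst : Fin m × Fin 2 → Fin m) := by
    intro i j hij
    have h1 : (j.1 : ℕ) < (i.1 : ℕ) := hij
    unfold PA4_U
    rw [if_neg, if_neg]
    · rintro ⟨_, _, h2⟩
      omega
    · rintro rfl
      omega
  rw [h.det_fintype]
  refine Finset.prod_eq_one fun k _ => ?_
  have h2 : (PA4_U m).toSquareBlock (Prod.fst : Fin m × Fin 2 → Fin m) k = 1 := by
    ext i j
    have hi : i.1.1 = k := i.2
    have hj : j.1.1 = k := j.2
    show PA4_U m i.1 j.1 = _
    unfold PA4_U
    by_cases hij : i = j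
    · rw [if_pos (congrArg Subtype.val hij), hij, Matrix.one_apply_eq]
    · rw [if_neg (fun e => hij (Subtype.ext e)), if_neg, Matrix.one_apply_ne hij]
      rintro ⟨_, _, h3⟩
      rw [hi, hj] at h3
      omega
  rw [h2, Matrix.det_one]

/-- PROOF. `FF k 0 = 0`. Let `M` be the matrix of `GG s`. The matrix on the left is `M * U`, where `U b b' = 1` if
`b = b'`, `U (j-1, 0) (j, 0) = -1` for `j > 0`, and `U b b' = 0` otherwise. `det U = 1`: `U` is block triangular for the
map `b ↦ b.1` (`Matrix.BlockTriangular.det`, the diagonal blocks are identity matrices), or: by the Leibniz formula, or: let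
`c_j` be the columns `(j, 0)` of `M`; add to the column `(j, 0)` the earlier ones, one `j` after the other
(`Matrix.det_updateCol_add_smul_self`, induction on the number of columns already treated). -/
theorem col_ops {m : ℕ} (s : Fin m → ℝ) :
    (Matrix.of fun a b : Fin m × Fin 2 =>
        if b.2 = 0 then FF (idx a) (s b.1) - FF (idx a) (pv s b.1) else ff (idx a) (s b.1)).det = GG s := by
  have h : (Matrix.of fun a b : Fin m × Fin 2 =>
        if b.2 = 0 then FF (idx a) (s b.1) - FF (idx a) (pv s b.1) else ff (idx a) (s b.1)) =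
      (Matrix.of fun a b : Fin m × Fin 2 => if b.2 = 0 then FF (idx a) (s b.1) else ff (idx a) (s b.1)) *
        PA4_U m := by
    ext a b
    rw [Matrix.mul_apply]
    simp only [Matrix.of_apply]
    by_cases hb : b.2 = 0
    · by_cases h0 : (b.1 : ℕ) = 0
      · rw [Finset.sum_eq_single b]
        · have hF : FF (idx a) (pv s b.1) = 0 := by
            unfold pv FF
            rw [if_pos h0, mul_zero, Real.cos_zero, sub_self, mul_zero, zero_div]
          unfold PA4_U
          rw [if_pos hb, if_pos hb, if_pos rfl, hF, sub_zero, mul_one]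
        · intro c _ hc
          rw [PA4_zero hc, mul_zero]
          rintro ⟨_, _, h3⟩
          omega
        · intro h1
          exact absurd (Finset.mem_univ _) h1
      · let c : Fin m × Fin 2 := (⟨(b.1 : ℕ) - 1, lt_of_le_of_lt (Nat.sub_le _ _) b.1.isLt⟩, 0)
        have hcb : c ≠ b := by
          intro e
          have h1 : ((c.1 : Fin m) : ℕ) = (b.1 : ℕ) := by rw [e]
          have h2 : ((c.1 : Fin m) : ℕ) = (b.1 : ℕ) - 1 := rfl
          omega
        rw [Finset.sum_eq_add_of_mem b c (Finset.mem_univ _) (Finset.mem_univ _) (Ne.symm hcb)]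
        · have hpv : pv s b.1 = s c.1 := by
            unfold pv
            rw [if_neg h0]
          have hUb : PA4_U m b b = 1 := by
            unfold PA4_U
            rw [if_pos rfl]
          have hUc : PA4_U m c b = -1 := by
            unfold PA4_U
            rw [if_neg hcb, if_pos]
            refine ⟨rfl, hb, ?_⟩
            show (b.1 : ℕ) - 1 + 1 = (b.1 : ℕ)
            omega
          have hc2 : c.2 = 0 := rfl
          rw [if_pos hb, if_pos hb, if_pos hc2, hUb, hUc, hpv]
          ring
        · intro d _ hd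
          rw [PA4_zero hd.1, mul_zero]
          rintro ⟨h1, _, h3⟩
          apply hd.2
          refine Prod.ext (Fin.ext ?_) h1
          show (d.1 : ℕ) = (b.1 : ℕ) - 1
          omega
    · rw [Finset.sum_eq_single b]
      · unfold PA4_U
        rw [if_neg hb, if_neg hb, if_pos rfl, mul_one]
      · intro c _ hc
        rw [PA4_zero hc, mul_zero]
        rintro ⟨_, h2, _⟩
        exact hb h2
      · intro h1
        exact absurd (Finset.mem_univ _) h1
  rw [h, Matrix.det_mul, PA4_det, mul_one]
  rfl


end TQ
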