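import Pool.Agent.Lib.MP_021685_agTQ.PA0

/-! Block PF, leaf PA5: symmetry of `GG`. -/

set_option autoImplicit false

namespace TQ

/-- PROOF. The matrix of `GG (s ∘ p)` is the matrix of `GG s` with the columns permuted by `τ = p × id` on
`Fin m × Fin 2` (`Matrix.det_permute'`), and `sign τ = (sign p) ^ 2 = 1`: `τ` is the product of two permutations, the one on
`Fin m × {0}` and the one on `Fin m × {1}` (`Equiv.Perm.sign_prodCongrLeft`, `sign_prodCongrRight`), or: it is enough to
treat a transposition `p = swap i j` (`Equiv.Perm.swap_induction_on`), where `τ = swap (i,0) (j,0) * swap (i,1) (j,1)`. -/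
theorem gg_perm {m : ℕ} (s : Fin m → ℝ) (p : Equiv.Perm (Fin m)) : GG (s ∘ p) = GG s := by
  unfold GG
  have h : (Matrix.of fun a b : Fin m × Fin 2 => if b.2 = 0 then FF (idx a) ((s ∘ p) b.1) else ff (idx a) ((s ∘ p) b.1)) =
      (Matrix.of fun a b : Fin m × Fin 2 => if b.2 = 0 then FF (idx a) (s b.1) else ff (idx a) (s b.1)).submatrix id
        (Equiv.prodCongrLeft (fun _ : Fin 2 => p)) := by
    ext a b
    rfl
  rw [h, Matrix.det_permute', Equiv.Perm.sign_prodCongrLeft]
  have h2 : (∏ _k : Fin 2, Equiv.Perm.sign p) = 1 := by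
    rw [Fin.prod_univ_two]
    exact Int.units_mul_self _
  rw [h2]
  simp

/-- PROOF. If `s_i = s_j`, `i ≠ j`, the columns `(i, 1)` and `(j, 1)` are equal: `Matrix.det_zero_of_column_eq`. -/
theorem gg_zero {m : ℕ} (s : Fin m → ℝ) (h : ¬ Function.Injective s) : GG s = 0 := by
  unfold Function.Injective at h
  push Not at h
  obtain ⟨i, j, hij, hne⟩ := h
  unfold GG
  apply Matrix.det_zero_of_column_eq (i := (i, 1)) (j := (j, 1))
  · intro h
    exact hne (Prod.mk.inj h).1
  · intro k
    simp [hij]

end TQ
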