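import Pool.Agent.Lib.MP_021685_agTQ.PA0

/-! Block PF, leaf PA6: the chambers of the cube. -/

set_option autoImplicit false

namespace TQ

open MeasureTheory

private theorem PA6_meas (m : ℕ) : MeasurableSet (Ch m) := by
  have h1 : MeasurableSet {s : Fin m → ℝ | StrictMono s} := by
    have h : {s : Fin m → ℝ | StrictMono s} =
        ⋂ (i : Fin m), ⋂ (j : Fin m), ⋂ (_ : i < j), {s : Fin m → ℝ | s i < s j} := by
      ext s
      simp only [Set.mem_ofPred_eq, Set.mem_iInter]
      exact ⟨fun h i j hij => h hij, fun h i j hij => h i j hij⟩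
    rw [h]
    exact MeasurableSet.iInter fun i => MeasurableSet.iInter fun j => MeasurableSet.iInter fun _ =>
      measurableSet_lt (measurable_pi_apply i) (measurable_pi_apply j)
  have h2 : MeasurableSet {s : Fin m → ℝ | ∀ j, s j ∈ Set.Ioo 0 Real.pi} := by
    have h : {s : Fin m → ℝ | ∀ j, s j ∈ Set.Ioo 0 Real.pi} =
        ⋂ (j : Fin m), (fun s : Fin m → ℝ => s j) ⁻¹' (Set.Ioo 0 Real.pi) := by
      ext s
      simp only [Set.mem_ofPred_eq, Set.mem_iInter, Set.mem_preimage]
    rw [h]
    exact MeasurableSet.iInter fun j => (measurable_pi_apply j) measurableSet_Ioo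
  exact h1.inter h2

private theorem PA6_apply {m : ℕ} (p : Equiv.Perm (Fin m)) (s : Fin m → ℝ) :
    (MeasurableEquiv.piCongrLeft (fun _ : Fin m => ℝ) p.symm) s = s ∘ p := by
  funext j
  have h := Equiv.piCongrLeft_apply_apply (fun _ : Fin m => ℝ) p.symm s (p j)
  rw [Equiv.symm_apply_apply] at h
  exact h

private theorem PA6_mp {m : ℕ} (p : Equiv.Perm (Fin m)) :
    MeasurePreserving (fun s : Fin m → ℝ => s ∘ p) volume volume := by
  have h := volume_measurePreserving_piCongrLeft (fun _ : Fin m => ℝ) p.symm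
  have e : (fun s : Fin m → ℝ => s ∘ p) = (MeasurableEquiv.piCongrLeft (fun _ : Fin m => ℝ) p.symm) := by
    funext s
    exact (PA6_apply p s).symm
  rw [e]
  exact h

private theorem PA6_disj {m : ℕ} {s : Fin m → ℝ} {p q : Equiv.Perm (Fin m)} (hp : StrictMono (s ∘ p))
    (hq : StrictMono (s ∘ q)) : p = q := by
  have hr : Set.range (s ∘ p) = Set.range (s ∘ q) := by
    rw [Set.range_comp, Set.range_comp, p.surjective.range_eq, q.surjective.range_eq]
  have he : s ∘ p = s ∘ q := (StrictMono.range_inj hp hq).1 hr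
  have hi : Function.Injective s := by
    intro a b hab
    have h : (s ∘ p) (p.symm a) = (s ∘ p) (p.symm b) := by
      simp only [Function.comp_apply, Equiv.apply_symm_apply]
      exact hab
    exact p.symm.injective (hp.injective h)
  ext j
  have h := congrFun he j
  simp only [Function.comp_apply] at h
  rw [hi h]

/-- PROOF. For a permutation `p` let `C_p = {s | s ∘ p ∈ Ch m}`. The `C_p` are measurable, contained in `Cube m` and
pairwise disjoint (if `s ∘ p` and `s ∘ q` are strictly monotone then `p = q`: the composition `(s ∘ q)⁻¹ ∘ (s ∘ p) = q⁻¹ p` is a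
strictly monotone permutation of `Fin m`, so the identity; e.g. `StrictMono` maps with the same range on `Fin m` are equal,
`StrictMono.range_inj`). The map `s ↦ s ∘ p` is measurable and preserves the volume
(`volume_measurePreserving_piCongrLeft` or `MeasureTheory.volume_preserving_piCongrLeft`), so
`∫⁻_(C_p) f = ∫⁻_(C_p) f (s ∘ p) = ∫⁻_(Ch m) f` (`MeasurePreserving.setLIntegral_comp_preimage`). Add over the `m!`
permutations (`lintegral_iUnion` or `lintegral_finset_biUnion`, `Fintype.card_perm`) and use `lintegral_mono_set`. -/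
theorem chamber {m : ℕ} (f : (Fin m → ℝ) → ENNReal) (hf : Measurable f)
    (hsym : ∀ (p : Equiv.Perm (Fin m)) (s : Fin m → ℝ), f (s ∘ p) = f s) :
    (m.factorial : ENNReal) * ∫⁻ s in Ch m, f s ≤ ∫⁻ s in Cube m, f s := by
  have hC : ∀ p : Equiv.Perm (Fin m), MeasurableSet ((fun s : Fin m → ℝ => s ∘ p) ⁻¹' (Ch m)) := fun p =>
    (PA6_mp p).measurable (PA6_meas m)
  have hd : Pairwise (Function.onFun Disjoint
      (fun p : Equiv.Perm (Fin m) => (fun s : Fin m → ℝ => s ∘ p) ⁻¹' (Ch m))) := by
    intro p q hpq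
    refine Set.disjoint_left.2 fun s hs1 hs2 => hpq ?_
    exact PA6_disj hs1.1 hs2.1
  have hsub : (⋃ p : Equiv.Perm (Fin m), (fun s : Fin m → ℝ => s ∘ p) ⁻¹' (Ch m)) ⊆ Cube m := by
    intro s hs
    obtain ⟨p, hp⟩ := Set.mem_iUnion.1 hs
    intro j
    have h := hp.2 (p.symm j)
    simp only [Function.comp_apply, Equiv.apply_symm_apply] at h
    exact h
  have hI : ∀ p : Equiv.Perm (Fin m),
      ∫⁻ s in (fun s : Fin m → ℝ => s ∘ p) ⁻¹' (Ch m), f s = ∫⁻ s in Ch m, f s := by
    intro p
    rw [← (PA6_mp p).setLIntegral_comp_preimage (PA6_meas m) hf]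
    refine lintegral_congr fun s => ?_
    exact (hsym p s).symm
  calc (m.factorial : ENNReal) * ∫⁻ s in Ch m, f s
      = ∑ p : Equiv.Perm (Fin m), ∫⁻ s in (fun s : Fin m → ℝ => s ∘ p) ⁻¹' (Ch m), f s := by
        rw [Finset.sum_congr rfl (fun p _ => hI p), Finset.sum_const, Finset.card_univ, Fintype.card_perm,
          Fintype.card_fin, nsmul_eq_mul]
    _ = ∫⁻ s in ⋃ p : Equiv.Perm (Fin m), (fun s : Fin m → ℝ => s ∘ p) ⁻¹' (Ch m), f s := by
        rw [lintegral_iUnion hC hd, tsum_fintype]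
    _ ≤ ∫⁻ s in Cube m, f s := lintegral_mono_set hsub

end TQ
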