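import Pool.Agent.Lib.MP_021685_agTQ.PA0

/-! Block PF, leaf PA7: the integral over the cube. -/

set_option autoImplicit false

namespace TQ

open MeasureTheory

private noncomputable def pa7_h {m : ℕ} (σ : Equiv.Perm (Fin m × Fin 2)) (j : Fin m) (t : ℝ) : ℝ :=
  FF (idx (σ (j, 0))) t * ff (idx (σ (j, 1))) t

private theorem pa7_cont {m : ℕ} (σ : Equiv.Perm (Fin m × Fin 2)) (j : Fin m) :
    Continuous (pa7_h σ j) := by
  unfold pa7_h FF ff
  fun_prop

private theorem pa7_GG {m : ℕ} (s : Fin m → ℝ) :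
    GG s = ∑ σ : Equiv.Perm (Fin m × Fin 2), ((Equiv.Perm.sign σ : ℤ) : ℝ) *
      ∏ j : Fin m, pa7_h σ j (s j) := by
  unfold GG
  rw [Matrix.det_apply']
  refine Finset.sum_congr rfl fun σ _ => ?_
  congr 1
  rw [Fintype.prod_prod_type]
  refine Finset.prod_congr rfl fun j _ => ?_
  rw [Fin.prod_univ_two]
  simp [pa7_h]

private theorem pa7_cube (m : ℕ) : (volume : Measure (Fin m → ℝ)).restrict (Cube m) =
    Measure.pi (fun _ : Fin m => (volume : Measure ℝ).restrict (Set.Ioo 0 Real.pi)) := by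
  have h : Cube m = Set.pi Set.univ (fun _ : Fin m => Set.Ioo (0 : ℝ) Real.pi) := by
    ext s
    simp [Cube, Set.mem_pi]
  rw [h, volume_pi]
  exact Measure.restrict_pi_pi (fun _ : Fin m => (volume : Measure ℝ))
    (fun _ : Fin m => Set.Ioo (0 : ℝ) Real.pi)

private theorem pa7_int {m : ℕ} (σ : Equiv.Perm (Fin m × Fin 2)) (j : Fin m) :
    Integrable (pa7_h σ j) ((volume : Measure ℝ).restrict (Set.Ioo 0 Real.pi)) := by
  have h : IntegrableOn (pa7_h σ j) (Set.Icc 0 Real.pi) :=
    (pa7_cont σ j).continuousOn.integrableOn_compact isCompact_Icc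
  exact h.mono_set Set.Ioo_subset_Icc_self

/-- PROOF. Leibniz (`Matrix.det_apply` or `det_apply'`): `GG s = ∑_σ sgn(σ) ∏_j F_(σ(j,0))(s_j) * f_(σ(j,1))(s_j)`
(`Fintype.prod_prod_type`, `Fin.prod_univ_two`; `Matrix.det_apply` has the rows `σ b`, the columns `b`). `Cube m` is
`Set.pi Set.univ (fun _ => Set.Ioo 0 π)`, the restricted volume is a product measure (`Measure.restrict_pi_pi`,
`volume_pi`), `integral_fintype_prod_eq_prod`, and `∫_(Ioo 0 π) = ∫_0^π` (`intervalIntegral.integral_of_le`,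
`integral_Ioc_eq_integral_Ioo`). Each summand is integrable: continuous and bounded on a set of finite measure (or
`Integrable.fintype_prod`). -/
theorem cube_int (m : ℕ) : IntegrableOn (fun s : Fin m → ℝ => GG s) (Cube m) ∧
    ∫ s in Cube m, GG s = SS (fun a b : Fin m × Fin 2 => ww a b) := by
  have hG : (fun s : Fin m → ℝ => GG s) = fun s => ∑ σ : Equiv.Perm (Fin m × Fin 2),
      ((Equiv.Perm.sign σ : ℤ) : ℝ) * ∏ j : Fin m, pa7_h σ j (s j) := funext pa7_GG
  have hI : ∀ σ : Equiv.Perm (Fin m × Fin 2), Integrable (fun s : Fin m → ℝ =>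
      ((Equiv.Perm.sign σ : ℤ) : ℝ) * ∏ j : Fin m, pa7_h σ j (s j))
      (Measure.pi (fun _ : Fin m => (volume : Measure ℝ).restrict (Set.Ioo 0 Real.pi))) := by
    intro σ
    refine Integrable.const_mul ?_ _
    exact Integrable.fintype_prod (f := fun j => pa7_h σ j) fun j => pa7_int σ j
  constructor
  · unfold IntegrableOn
    rw [hG, pa7_cube]
    exact integrable_finsetSum _ fun σ _ => hI σ
  · rw [hG, pa7_cube, integral_finsetSum _ fun σ _ => hI σ]
    unfold SS
    refine Finset.sum_congr rfl fun σ _ => ?_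
    rw [integral_const_mul]
    congr 1
    rw [integral_fintype_prod_eq_prod (fun j => pa7_h σ j)]
    refine Finset.prod_congr rfl fun j _ => ?_
    change _ = ∫ t in (0 : ℝ)..Real.pi, FF (idx (σ (j, 0))) t * ff (idx (σ (j, 1))) t
    rw [intervalIntegral.integral_of_le Real.pi_pos.le, integral_Ioc_eq_integral_Ioo]
    rfl

end TQ
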