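import Pool.Agent.Lib.MP_021685_agTQ.PA0

/-! Block PF, leaf PA9: `SS` depends only on the antisymmetric part. -/

set_option autoImplicit false

namespace TQ

/-- the factor at `k`, with the difference for `k ∈ A` -/
private noncomputable def PA9_f {m : ℕ} (w : Fin m × Fin 2 → Fin m × Fin 2 → ℝ) (A : Finset (Fin m))
    (s : Equiv.Perm (Fin m × Fin 2)) (k : Fin m) : ℝ :=
  if k ∈ A then w (s (k, 0)) (s (k, 1)) - w (s (k, 1)) (s (k, 0)) else w (s (k, 0)) (s (k, 1))

private theorem PA9_step {m : ℕ} (w : Fin m × Fin 2 → Fin m × Fin 2 → ℝ) (A : Finset (Fin m)) (j : Fin m)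
    (hj : j ∉ A) (s : Equiv.Perm (Fin m × Fin 2)) :
    ∏ k : Fin m, PA9_f w (insert j A) s k
      = ∏ k : Fin m, PA9_f w A s k - ∏ k : Fin m, PA9_f w A (s * Equiv.swap (j, 0) (j, 1)) k := by
  have h1 : ∀ k ∈ Finset.univ.erase j, PA9_f w (insert j A) s k = PA9_f w A s k := by
    intro k hk
    have hkj : k ≠ j := (Finset.mem_erase.mp hk).1
    simp [PA9_f, Finset.mem_insert, hkj]
  have h2 : ∀ k ∈ Finset.univ.erase j, PA9_f w A (s * Equiv.swap (j, 0) (j, 1)) k = PA9_f w A s k := by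
    intro k hk
    have hkj : k ≠ j := (Finset.mem_erase.mp hk).1
    have e : ∀ e : Fin 2, (s * Equiv.swap (j, (0 : Fin 2)) (j, (1 : Fin 2)) : Equiv.Perm (Fin m × Fin 2)) (k, e)
        = s (k, e) := by
      intro e
      rw [Equiv.Perm.mul_apply, Equiv.swap_apply_of_ne_of_ne]
      · intro h; exact hkj (Prod.ext_iff.mp h).1
      · intro h; exact hkj (Prod.ext_iff.mp h).1
    simp only [PA9_f, e]
  rw [← Finset.mul_prod_erase Finset.univ _ (Finset.mem_univ j), ← Finset.mul_prod_erase Finset.univ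
    (PA9_f w A s) (Finset.mem_univ j), ← Finset.mul_prod_erase Finset.univ
    (PA9_f w A (s * Equiv.swap (j, 0) (j, 1))) (Finset.mem_univ j), Finset.prod_congr rfl h1, Finset.prod_congr rfl h2,
    ← sub_mul]
  congr 1
  simp [PA9_f, hj]

private theorem PA9_sum {m : ℕ} (w : Fin m × Fin 2 → Fin m × Fin 2 → ℝ) (A : Finset (Fin m)) :
    ∑ s : Equiv.Perm (Fin m × Fin 2), ((Equiv.Perm.sign s : ℤ) : ℝ) * ∏ k : Fin m, PA9_f w A s k
      = 2 ^ A.card * SS w := by
  induction A using Finset.induction_on with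
  | empty => simp [PA9_f, SS]
  | insert j A hj ih =>
    have h : ∀ s : Equiv.Perm (Fin m × Fin 2),
        ((Equiv.Perm.sign s : ℤ) : ℝ) * ∏ k : Fin m, PA9_f w (insert j A) s k
          = ((Equiv.Perm.sign s : ℤ) : ℝ) * ∏ k : Fin m, PA9_f w A s k
            + ((Equiv.Perm.sign (s * Equiv.swap (j, (0 : Fin 2)) (j, 1)) : ℤ) : ℝ)
              * ∏ k : Fin m, PA9_f w A (s * Equiv.swap (j, 0) (j, 1)) k := by
      intro s
      rw [PA9_step w A j hj s, Equiv.Perm.sign_mul, Equiv.Perm.sign_swap (by simp)]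
      push_cast
      ring
    rw [Finset.sum_congr rfl (fun s _ => h s), Finset.sum_add_distrib, ih]
    have h2 : ∑ s : Equiv.Perm (Fin m × Fin 2),
        ((Equiv.Perm.sign (s * Equiv.swap (j, (0 : Fin 2)) (j, 1)) : ℤ) : ℝ)
          * ∏ k : Fin m, PA9_f w A (s * Equiv.swap (j, 0) (j, 1)) k = 2 ^ A.card * SS w := by
      rw [← ih]
      exact Equiv.sum_comp (Equiv.mulRight (Equiv.swap (j, (0 : Fin 2)) (j, 1)))
        (fun s : Equiv.Perm (Fin m × Fin 2) => ((Equiv.Perm.sign s : ℤ) : ℝ) * ∏ k : Fin m, PA9_f w A s k)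
    rw [h2, Finset.card_insert_of_notMem hj, pow_succ]
    ring

/-- PROOF. Expand `∏_k (w(s(k,0), s(k,1)) - w(s(k,1), s(k,0)))` over the sets `A` of `k` (`Finset.prod_sub` or
`Finset.prod_add`): the summand is `(-1)^|A| ∏_(k ∈ A) w(s(k,1), s(k,0)) ∏_(k ∉ A) w(s(k,0), s(k,1))`. With the involution
`τ_A` of `Fin m × Fin 2` which exchanges `(k,0)` and `(k,1)` for `k ∈ A`, `sign τ_A = (-1)^|A|`, it is
`sign τ_A * ∏_k w((s τ_A)(k,0), (s τ_A)(k,1))`. Sum over `s`, substitute `s τ_A` for `s`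
(`Equiv.sum_comp (Equiv.mulRight _)`, `sign (s τ_A) = sign s * sign τ_A`): each `A` gives `SS w`, and there are `2^m` sets `A`.
(Or by induction on the number of `k` with the difference: one `k` at a time gives a factor `2`, with
`swap (k,0) (k,1)`.) -/
theorem ss_anti {m : ℕ} (w : Fin m × Fin 2 → Fin m × Fin 2 → ℝ) :
    SS (fun a b => w a b - w b a) = 2 ^ m * SS w := by
  have h := PA9_sum w (Finset.univ : Finset (Fin m))
  rw [Finset.card_univ, Fintype.card_fin] at h
  rw [← h, SS]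
  simp [PA9_f]

end TQ
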