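import Pool.Agent.Lib.MP_021685_agTQ.PA1
import Pool.Agent.Lib.MP_021685_agTQ.PA2
import Pool.Agent.Lib.MP_021685_agTQ.PA3
import Pool.Agent.Lib.MP_021685_agTQ.PA4
import Pool.Agent.Lib.MP_021685_agTQ.PA5
import Pool.Agent.Lib.MP_021685_agTQ.PA6
import Pool.Agent.Lib.MP_021685_agTQ.PA7
import Pool.Agent.Lib.MP_021685_agTQ.PA9

/-! Block PF, leaf PA8: assembly. -/

set_option autoImplicit false

namespace TQ

open MeasureTheory

private theorem PA8_measCh (m : ℕ) : MeasurableSet (Ch m) := by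
  have h1 : Ch m = (⋂ i : Fin m, ⋂ j : Fin m, ⋂ _h : i < j, {s : Fin m → ℝ | s i < s j}) ∩
      ⋂ j : Fin m, (fun s : Fin m → ℝ => s j) ⁻¹' Set.Ioo 0 Real.pi := by
    ext s
    simp only [Ch, Set.mem_inter_iff, Set.mem_iInter, Set.mem_preimage]
    constructor
    · rintro ⟨h1, h2⟩
      exact ⟨fun i j h => h1 h, h2⟩
    · rintro ⟨h1, h2⟩
      exact ⟨fun i j h => h1 i j h, h2⟩
  rw [h1]
  refine MeasurableSet.inter ?_ ?_
  · exact MeasurableSet.iInter fun i => MeasurableSet.iInter fun j => MeasurableSet.iInter fun _ =>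
      measurableSet_lt (measurable_pi_apply i) (measurable_pi_apply j)
  · exact MeasurableSet.iInter fun j => measurable_pi_apply j measurableSet_Ioo

private theorem PA8_measCube (m : ℕ) : MeasurableSet (Cube m) := by
  have h1 : Cube m = Set.pi Set.univ fun _ => Set.Ioo 0 Real.pi := by
    ext s
    simp [Cube]
  rw [h1]
  exact MeasurableSet.univ_pi fun _ => measurableSet_Ioo

private theorem PA8_measBox {m : ℕ} (s : Fin m → ℝ) : MeasurableSet (Box s) := by
  have h1 : Box s = Set.pi Set.univ fun j => Set.Ioo (pv s j) (s j) := by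
    ext u
    simp [Box]
  rw [h1]
  exact MeasurableSet.univ_pi fun _ => measurableSet_Ioo

private theorem PA8_cont (m : ℕ) : Continuous fun s : Fin m → ℝ => GG s := by
  unfold GG
  refine Continuous.matrix_det ?_
  refine continuous_matrix fun a b => ?_
  simp only [Matrix.of_apply]
  split_ifs
  · unfold FF
    fun_prop
  · unfold ff
    fun_prop

private theorem PA8_pv {m : ℕ} {s : Fin m → ℝ} (hs : s ∈ Ch m) (j : Fin m) : pv s j ≤ s j := by
  unfold pv
  split_ifs with h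
  · exact (hs.2 j).1.le
  · refine (hs.1 ?_).le
    rw [Fin.lt_def]
    simp only
    omega

private theorem PA8_abs {ε x : ℝ} (hε : ε = 1 ∨ ε = -1) (h : 0 ≤ ε * x) : |x| = ε * x := by
  rcases hε with rfl | rfl
  · rw [one_mul] at h ⊢
    exact abs_of_nonneg h
  · rw [neg_one_mul] at h ⊢
    exact abs_of_nonpos (by linarith)

private theorem PA8_box {m : ℕ} {ε : ℝ} (hε : ε = 1 ∨ ε = -1)
    (hdet : ∀ θ ∈ Ch (2 * m), 0 ≤ ε * (Matrix.of fun k j : Fin (2 * m) => ff (k : ℕ) (θ j)).det)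
    {s : Fin m → ℝ} (hs : s ∈ Ch m) :
    ∫⁻ u in Box s, ENNReal.ofReal |DP (mix u s)| = ENNReal.ofReal (ε * GG s) ∧ 0 ≤ ε * GG s := by
  have h1 : ∀ u ∈ Box s, 0 ≤ ε * DP (mix u s) := by
    intro u hu
    obtain ⟨θ, hθ, e⟩ := mix_det hs hu
    rw [e]
    exact hdet θ hθ
  obtain ⟨h2, h3⟩ := box_int s (PA8_pv hs)
  rw [col_ops] at h3
  have h4 : ∫ u in Box s, ε * DP (mix u s) = ε * GG s := by
    rw [integral_const_mul, h3]
  constructor
  · rw [setLIntegral_congr_fun (PA8_measBox s) (g := fun u => ENNReal.ofReal (ε * DP (mix u s))) (fun u hu => by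
      simp only
      rw [PA8_abs hε (h1 u hu)])]
    rw [← h4]
    refine (ofReal_integral_eq_lintegral_ofReal (h2.const_mul ε) ?_).symm
    exact (ae_restrict_iff' (PA8_measBox s)).2 (Filter.Eventually.of_forall h1)
  · rw [← h4]
    exact setIntegral_nonneg (PA8_measBox s) h1

private theorem PA8_cube {m : ℕ} {ε : ℝ} (hCh : ∀ s ∈ Ch m, 0 ≤ ε * GG s) {s : Fin m → ℝ} (hs : s ∈ Cube m) :
    0 ≤ ε * GG s := by
  by_cases hinj : Function.Injective s
  · have h1 : StrictMono (s ∘ Tuple.sort s) :=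
      (Tuple.monotone_sort s).strictMono_of_injective (hinj.comp (Tuple.sort s).injective)
    have h2 : s ∘ Tuple.sort s ∈ Ch m := ⟨h1, fun j => hs _⟩
    have h3 := hCh _ h2
    rw [gg_perm] at h3
    exact h3
  · rw [gg_zero s hinj, mul_zero]

/-- PROOF. Let `ε` be as in `det_sign (2 m)`. For `s ∈ Ch m`: on `Box s` we have `0 ≤ ε * DP (mix u s)` (`mix_det`), so
`|DP (mix u s)| = ε * DP (mix u s)`, and by `ofReal_integral_eq_lintegral_ofReal`, `box_int`, `col_ops`
`∫⁻_(Box s) ofReal |DP (mix u s)| = ofReal (ε * GG s)`, and `0 ≤ ε * GG s`. For all `s ∈ Cube m`: `0 ≤ ε * GG s`, as `GG s = 0`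
if `s` is not injective (`gg_zero`), and otherwise `s ∘ p ∈ Ch m` for `p = Tuple.sort s` (`Tuple.monotone_sort`), `gg_perm`.
So by `kk_eq`, `chamber` (with `f s = ofReal |GG s|`, which is measurable, symmetric, and equal to `ofReal (ε * GG s)` on the
cube) and `cube_int`: `m! * KK (2 m) ≤ (∫⁻_(Cube m) ofReal (ε * GG s)).toReal = ∫_(Cube m) ε * GG s = ε * SS ww ≤ |SS ww|`. -/
theorem kk_le_SS (m : ℕ) : KK (2 * m) ≤ |SS (fun a b : Fin m × Fin 2 => ww a b)| / (m.factorial : ℝ) := by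
  obtain ⟨ε, hε, hdet⟩ := det_sign (2 * m)
  have hCh : ∀ s ∈ Ch m, 0 ≤ ε * GG s := fun s hs => (PA8_box hε hdet hs).2
  have hfac : (0 : ℝ) < m.factorial := by exact_mod_cast m.factorial_pos
  have h1 : KK (2 * m) = (∫⁻ s in Ch m, ENNReal.ofReal |GG s|).toReal := by
    rw [kk_eq, setLIntegral_congr_fun (PA8_measCh m) (g := fun s => ENNReal.ofReal |GG s|) (fun s hs => by
      simp only
      rw [(PA8_box hε hdet hs).1, PA8_abs hε (hCh s hs)])]
  have h2 := chamber (fun s : Fin m → ℝ => ENNReal.ofReal |GG s|)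
    (ENNReal.measurable_ofReal.comp (PA8_cont m).abs.measurable) (fun p s => by
      rw [gg_perm])
  obtain ⟨h3, h4⟩ := cube_int m
  have h5 : ∫ s in Cube m, ε * GG s = ε * SS (fun a b : Fin m × Fin 2 => ww a b) := by
    rw [integral_const_mul, h4]
  have h6 : ∫⁻ s in Cube m, ENNReal.ofReal |GG s| = ENNReal.ofReal (ε * SS (fun a b : Fin m × Fin 2 => ww a b)) := by
    rw [setLIntegral_congr_fun (PA8_measCube m) (g := fun s => ENNReal.ofReal (ε * GG s)) (fun s hs => by
      simp only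
      rw [PA8_abs hε (PA8_cube hCh hs)])]
    rw [← h5]
    refine (ofReal_integral_eq_lintegral_ofReal (h3.const_mul ε) ?_).symm
    exact (ae_restrict_iff' (PA8_measCube m)).2 (Filter.Eventually.of_forall fun s hs => PA8_cube hCh hs)
  have h7 : ε * SS (fun a b : Fin m × Fin 2 => ww a b) ≤ |SS (fun a b : Fin m × Fin 2 => ww a b)| := by
    rcases hε with rfl | rfl
    · rw [one_mul]
      exact le_abs_self _
    · rw [neg_one_mul]
      exact neg_le_abs _
  have h8 := le_trans (le_trans h2 (le_of_eq h6)) (ENNReal.ofReal_le_ofReal h7)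
  have h9 := ENNReal.toReal_mono ENNReal.ofReal_ne_top h8
  rw [ENNReal.toReal_mul, ENNReal.toReal_natCast, ENNReal.toReal_ofReal (abs_nonneg _), ← h1] at h9
  rw [le_div_iff₀ hfac, mul_comm]
  exact h9

/-- PROOF. `kk_le_SS` and `ss_anti`. -/
theorem kk_le_br (m : ℕ) : KK (2 * m) ≤ |SS (fun a b : Fin m × Fin 2 => br a b)| / (2 ^ m * (m.factorial : ℝ)) := by
  have h1 : SS (fun a b : Fin m × Fin 2 => br a b) = 2 ^ m * SS (fun a b : Fin m × Fin 2 => ww a b) :=
    ss_anti fun a b : Fin m × Fin 2 => ww a b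
  have h2 : (0 : ℝ) < 2 ^ m := by positivity
  rw [h1, abs_mul, abs_of_pos h2, mul_div_mul_left _ _ h2.ne']
  exact kk_le_SS m

end TQ
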