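import Pool.Agent.Lib.MP_021685_agTQ.A15

/-! FINAL: `TQ.main_count`, `TQ.mod_count`, `TQ.ord_count` and `TQ.good_tuples` for every `q ≥ 2`. -/
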