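import Pool.Agent.Lib.MP_021685_agTQ.VD

/-! Definition of the contraction. -/

namespace TQ

open Polynomial TI

/-- the factors of the contraction -/
noncomputable def ch (g i : ℕ) : ℝ := Real.cosh ((i : ℝ) / (10 * (g : ℝ))) / Real.cosh (1 / 10)

end TQ
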