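import Pool.Agent.Lib.MP_021685_agTQ.VD
import Pool.Agent.Lib.MP_021685_agTQ.VC

/-! Block VOL, first part (W = averaging, U = change of variables): definitions. -/

namespace TQ

open Polynomial TI

/-- the real polynomial of `Pb` -/
noncomputable def PbP (q : ℕ) {g : ℕ} (b : Fin g → ℝ) : ℝ[X] :=
  1 + X ^ (2 * g) + ∑ i : Fin g, C (b i * Real.sqrt q ^ (((i : ℕ) : ℤ) - (g : ℤ))) *
    (if (i : ℕ) = 0 then X ^ g else X ^ (g - (i : ℕ)) + X ^ (g + (i : ℕ)))

/-- the values of the Dickson polynomials at the points `0, 1, .., n-1` -/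
noncomputable def BB (q n : ℕ) : Matrix (Fin n) (Fin n) ℝ :=
  Matrix.of fun l i : Fin n => (DD q i).eval ((l : ℕ) : ℝ)

/-- the values of `RP q t - DD q n` at the points `0, 1, .., n-1` -/
noncomputable def VV (q : ℕ) {n : ℕ} (t : Fin n → ℝ) (l : Fin n) : ℝ :=
  (∏ j, (((l : ℕ) : ℝ) - 2 * Real.sqrt q * Real.cos (t j))) - (DD q n).eval ((l : ℕ) : ℝ)

/-- the coordinates as functions of the angles -/
noncomputable def Ph (q : ℕ) {n : ℕ} (t : Fin n → ℝ) : Fin n → ℝ := (BB q n)⁻¹.mulVec (VV q t)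

/-- the values of the polynomials `∏_(j ≠ k) (X - x_j)` -/
noncomputable def MM {n : ℕ} (x y : Fin n → ℝ) : Matrix (Fin n) (Fin n) ℝ :=
  Matrix.of fun l k : Fin n => ∏ j ∈ Finset.univ.erase k, (y l - x j)

/-- the derivative of `Ph` -/
noncomputable def LL (q : ℕ) {n : ℕ} (t : Fin n → ℝ) : (Fin n → ℝ) →L[ℝ] (Fin n → ℝ) :=
  (Matrix.toLin' ((BB q n)⁻¹ * MM (fun j => 2 * Real.sqrt q * Real.cos (t j)) (fun l => ((l : ℕ) : ℝ)) *
    Matrix.diagonal (fun k => 2 * Real.sqrt q * Real.sin (t k)))).toContinuousLinearMap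

end TQ
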