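import Pool.Agent.Lib.MP_021685_agTQ.X5

/-! Block VOL, V3 and V4 (the map from the angles to the coordinates): `TQ.exists_phi`, `TQ.vol_image` (file X5), `TQ.jac_vand` (file X3). -/
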