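import Pool.Agent.Lib.MP_021685_agTQ.VE

/-! LEAF V5a (medium).  The top coordinates of `h * PE c` are a unitriangular affine function of `c`.

PROOF.  For `l ≤ J` the polynomial `h * DD q l` is monic of degree `n + l`, so (`PE_surj`, file VE) `h * DD q l = PE q (m_l)` with `m_l : Fin (n + l) → ℝ`, that is `DD q (n + l) + ∑_{i < n + l} C (m_l i) * DD q i`.  Then
`h * PE q c = h * DD q J + ∑_l C (c l) * (h * DD q l) = PE q (m_J) + ∑_l C (c l) * (DD q (n + l) + ∑_{i < n + l} C (m_l i) * DD q i) = PE q b`, where `b i = m_J i + ∑_l c l * a_l i` and `a_l i = m_l i` if `i < n + l`, `1` if `i = n + l`, `0` if `i > n + l`.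
So (`PE_inj`) `b (n + k) = v k + ∑_l U k l * c l` with `v k = m_J (n + k)`, `U k l = a_l (n + k)`: it is `0` for `l < k` and `1` for `l = k`. -/

namespace TQ

open Polynomial TI

private noncomputable def V5a_a {M : ℕ} (m : Fin M → ℝ) (i : ℕ) : ℝ :=
  if h : i < M then m ⟨i, h⟩ else if i = M then 1 else 0

private theorem V5a_sum (q : ℕ) {M N : ℕ} (hN : M < N) (m : Fin M → ℝ) :
    DD q M + ∑ i : Fin M, C (m i) * DD q i = ∑ i : Fin N, C (V5a_a m i) * DD q i := by
  rw [Fin.sum_univ_eq_sum_range (fun i => C (V5a_a m i) * DD q i) N]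
  have h1 : ∑ i ∈ Finset.range N, C (V5a_a m i) * DD q i =
      ∑ i ∈ Finset.range (M + 1), C (V5a_a m i) * DD q i := by
    symm
    apply Finset.sum_subset
    · intro i hi
      rw [Finset.mem_range] at *
      omega
    · intro i _ hi
      rw [Finset.mem_range] at hi
      have h0 : V5a_a m i = 0 := by
        unfold V5a_a
        rw [dif_neg (by omega), if_neg (by omega)]
      rw [h0, C_0, zero_mul]
  rw [h1, Finset.sum_range_succ]
  have h2 : V5a_a m M = 1 := by
    unfold V5a_a
    rw [dif_neg (lt_irrefl _), if_pos rfl]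
  have h3 : ∑ i ∈ Finset.range M, C (V5a_a m i) * DD q i = ∑ i : Fin M, C (m i) * DD q i := by
    rw [← Fin.sum_univ_eq_sum_range (fun i => C (V5a_a m i) * DD q i) M]
    apply Finset.sum_congr rfl
    intro i _
    have h0 : V5a_a m i = m i := by
      unfold V5a_a
      rw [dif_pos i.2]
    rw [h0]
  rw [h2, h3, C_1, one_mul, add_comm]

theorem top_affine (q : ℕ) {n J : ℕ} {h : ℝ[X]} (hm : h.Monic) (hd : h.natDegree = n) :
    ∃ (v : Fin J → ℝ) (U : Matrix (Fin J) (Fin J) ℝ), (∀ k l, l < k → U k l = 0) ∧ (∀ l, U l l = 1) ∧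
      ∀ (c : Fin J → ℝ) (b : Fin (n + J) → ℝ), PE q b = h * PE q c →
        ∀ l, b (Fin.natAdd n l) = v l + (U.mulVec c) l := by
  have hex : ∀ l : ℕ, ∃ m : Fin (n + l) → ℝ, PE q m = h * DD q l := by
    intro l
    obtain ⟨h1, h2⟩ := DD_monic q l
    apply PE_surj q (hm.mul h1)
    rw [hm.natDegree_mul h1, hd, h2]
  choose m hm' using hex
  refine ⟨fun k => m J (Fin.natAdd n k), Matrix.of fun k l : Fin J => V5a_a (m l) (n + k),
    ?_, ?_, ?_⟩
  · intro k l hkl
    have hkl' : (l : ℕ) < (k : ℕ) := hkl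
    show V5a_a (m l) (n + k) = 0
    unfold V5a_a
    rw [dif_neg (by omega), if_neg (by omega)]
  · intro l
    show V5a_a (m l) (n + l) = 1
    unfold V5a_a
    rw [dif_neg (lt_irrefl _), if_pos rfl]
  · intro c b hb k
    have hb' : PE q b =
        PE q (fun i : Fin (n + J) => m J i + ∑ l : Fin J, c l * V5a_a (m l) i) := by
      have h1 : ∀ l : Fin J, h * (C (c l) * DD q l) =
          C (c l) * ∑ i : Fin (n + J), C (V5a_a (m l) i) * DD q i := by
        intro l
        have hl := l.2
        rw [← V5a_sum q (by omega) (m l)]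
        have h2 := hm' l
        unfold PE at h2
        rw [h2]
        ring
      have h3 : h * PE q c = PE q (m J) +
          ∑ l : Fin J, C (c l) * ∑ i : Fin (n + J), C (V5a_a (m l) i) * DD q i := by
        rw [hm' J]
        conv_lhs => unfold PE
        rw [mul_add, Finset.mul_sum]
        congr 1
        exact Finset.sum_congr rfl fun l _ => h1 l
      rw [hb, h3]
      unfold PE
      rw [add_assoc]
      congr 1
      simp only [Finset.mul_sum]
      rw [Finset.sum_comm, ← Finset.sum_add_distrib]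
      apply Finset.sum_congr rfl
      intro i _
      rw [C_add, add_mul, map_sum, Finset.sum_mul]
      congr 1
      apply Finset.sum_congr rfl
      intro l _
      rw [C_mul]
      ring
    have h2 := PE_inj hb'
    rw [h2]
    show m J (Fin.natAdd n k) + ∑ l : Fin J, c l * V5a_a (m l) (n + k) =
      m J (Fin.natAdd n k) + ∑ l : Fin J, V5a_a (m l) (n + k) * c l
    congr 1
    exact Finset.sum_congr rfl fun l _ => mul_comm _ _

end TQ
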