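import Mathlib

/-! LEAF V5b (easy+, Mathlib only).  The volume of the preimage of a box under a unitriangular affine map.

PROOF.  `det U = 1`: `Matrix.det_of_upperTriangular` (`BlockTriangular id`: `U k l = 0` for `l < k`).  The set is the preimage under the linear map `Matrix.toLin' U` of the box `{y | ∀ l, |v l + y l - β l| < e l} = Set.pi univ (fun l => Ioo (β l - v l - e l) (β l - v l + e l))`; its volume is `∏ ofReal (2 e l)` (`Real.volume_pi_Ioo`),
and `Measure.addHaar_preimage_linearMap` with `LinearMap.det_toLin'` gives the factor `1`. -/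

namespace TQ

open MeasureTheory

theorem vol_affine_box {J : ℕ} (v : Fin J → ℝ) (U : Matrix (Fin J) (Fin J) ℝ)
    (h0 : ∀ k l, l < k → U k l = 0) (h1 : ∀ l, U l l = 1) (β e : Fin J → ℝ) :
    volume {c : Fin J → ℝ | ∀ l, |v l + (U.mulVec c) l - β l| < e l} = ∏ l, ENNReal.ofReal (2 * e l) := by
  have hdet : U.det = 1 := by
    rw [Matrix.det_of_upperTriangular (M := U) (fun k l hkl => h0 k l hkl)]
    exact Finset.prod_eq_one fun l _ => h1 l
  have hset : {c : Fin J → ℝ | ∀ l, |v l + (U.mulVec c) l - β l| < e l} =
      (Matrix.toLin' U) ⁻¹' (Set.pi Set.univ fun l => Set.Ioo (β l - v l - e l) (β l - v l + e l)) := by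
    ext c
    simp only [Set.mem_setOf_eq, Set.mem_preimage, Set.mem_pi, Set.mem_univ, true_implies, Set.mem_Ioo,
      Matrix.toLin'_apply, abs_lt]
    refine forall_congr' fun l => ?_
    constructor
    · rintro ⟨h2, h3⟩
      constructor <;> linarith
    · rintro ⟨h2, h3⟩
      constructor <;> linarith
  rw [hset, Measure.addHaar_preimage_linearMap volume (by rw [LinearMap.det_toLin', hdet]; exact one_ne_zero),
    LinearMap.det_toLin', hdet, Real.volume_pi_Ioo]
  simp only [inv_one, abs_one, ENNReal.ofReal_one, one_mul]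
  refine Finset.prod_congr rfl fun l _ => ?_
  congr 1
  ring

end TQ
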