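import Pool.Agent.Lib.MP_021685_agTQ.V4i
import Pool.Agent.Lib.MP_021685_agTQ.V5a
import Pool.Agent.Lib.MP_021685_agTQ.V5b

/-! LEAF V5 (medium).  The inner slab.

PROOF.  `meas_ord`: `ord n` is open: the conditions `t i < t j` for `i < j` and `0 < t j < π` are open and finitely many (`isOpen_iInter_of_finite`, `isOpen_lt`); so it is measurable.
`inner_slab`: let `v`, `U` be as in `top_affine` (file V5a) and `Θ` the set of the statement.  With `Φ` of `exists_phi` (file V4i, size `J`): `PE q (Φ t) = RP q t`, and the polynomial `h * PE q (Φ t)` is monic of degree `n + J`, so it is `PE q b` for exactly one `b` (`PE_surj`, `PE_inj`, `PE_monic`), and then `b (n + l) = v l + (U.mulVec (Φ t)) l`.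
So `Θ = {t ∈ ord J | ∀ l, |v l + (U.mulVec (Φ t)) l - β l| < e l}`, an open set (`Φ` is continuous), so measurable, inside `ord J`.  By `vol_image` (V4i) the integral is the volume of `{c | ∃ t ∈ Θ, PE q c = RP q t}`; for such `c`: `c = Φ t` (`PE_inj`), so this set is inside `{c | ∀ l, |v l + (U.mulVec c) l - β l| < e l}`, of volume `∏ ofReal (2 e l)` (`vol_affine_box`, file V5b). -/

namespace TQ

open Polynomial TI MeasureTheory

theorem meas_ord (n : ℕ) : MeasurableSet (ord n) := by
  have h1 : IsOpen (ord n) := by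
    have h2 : ord n = (⋂ i : Fin n, ⋂ j : Fin n, ⋂ _ : i < j, {t : Fin n → ℝ | t i < t j}) ∩
        ⋂ j : Fin n, {t : Fin n → ℝ | 0 < t j ∧ t j < Real.pi} := by
      ext t
      simp only [ord, Set.mem_ofPred_eq, Set.mem_inter_iff, Set.mem_iInter, Set.mem_Ioo]
      constructor
      · rintro ⟨h3, h4⟩
        exact ⟨fun i j hij => h3 hij, h4⟩
      · rintro ⟨h3, h4⟩
        exact ⟨fun i j hij => h3 i j hij, h4⟩
    rw [h2]
    refine IsOpen.inter ?_ ?_
    · refine isOpen_iInter_of_finite fun i => isOpen_iInter_of_finite fun j =>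
        isOpen_iInter_of_finite fun _ => ?_
      exact isOpen_lt (continuous_apply i) (continuous_apply j)
    · refine isOpen_iInter_of_finite fun j => ?_
      exact (isOpen_lt continuous_const (continuous_apply j)).inter
        (isOpen_lt (continuous_apply j) continuous_const)
  exact h1.measurableSet

theorem inner_slab {q n J : ℕ} (hq : 1 ≤ q) {h : ℝ[X]} (hm : h.Monic) (hd : h.natDegree = n)
    (β e : Fin J → ℝ) :
    ∫⁻ t in {t : Fin J → ℝ | t ∈ ord J ∧ ∃ b : Fin (n + J) → ℝ, PE q b = h * RP q t ∧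
      ∀ l, |b (Fin.natAdd n l) - β l| < e l}, ENNReal.ofReal (Jac q J t) ≤ ∏ l, ENNReal.ofReal (2 * e l) := by
  obtain ⟨v, U, hU0, hU1, hUv⟩ := top_affine q (J := J) hm hd
  obtain ⟨Φ, hΦc, hΦ⟩ := exists_phi q J
  obtain ⟨Θ, hΘe⟩ : ∃ Θ : Set (Fin J → ℝ), Θ = {t : Fin J → ℝ | t ∈ ord J ∧ ∃ b : Fin (n + J) → ℝ,
      PE q b = h * RP q t ∧ ∀ l, |b (Fin.natAdd n l) - β l| < e l} := ⟨_, rfl⟩
  have hΘ2 : Θ = ord J ∩ {t | ∀ l, |v l + (U.mulVec (Φ t)) l - β l| < e l} := by
    rw [hΘe]
    ext t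
    constructor
    · rintro ⟨h1, b, h2, h3⟩
      refine ⟨h1, fun l => ?_⟩
      rw [← hΦ t] at h2
      rw [← hUv (Φ t) b h2 l]
      exact h3 l
    · rintro ⟨h1, h2⟩
      have h3 := PE_monic q (Φ t)
      have h4 : (h * PE q (Φ t)).Monic := hm.mul h3.1
      have h5 : (h * PE q (Φ t)).natDegree = n + J := by
        rw [hm.natDegree_mul h3.1, hd, h3.2]
      obtain ⟨b, hb⟩ := PE_surj q h4 h5
      refine ⟨h1, b, by rw [hb, hΦ], fun l => ?_⟩
      rw [hUv (Φ t) b hb l]
      exact h2 l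
  have hmeas : MeasurableSet Θ := by
    rw [hΘ2]
    refine (meas_ord J).inter ?_
    have h1 : IsOpen {t : Fin J → ℝ | ∀ l, |v l + (U.mulVec (Φ t)) l - β l| < e l} := by
      rw [Set.ofPred_forall]
      refine isOpen_iInter_of_finite fun l => ?_
      have h2 : Continuous fun t : Fin J → ℝ => (U.mulVec (Φ t)) l :=
        (continuous_apply l).comp (Continuous.matrix_mulVec continuous_const hΦc)
      exact isOpen_lt ((continuous_const.add h2).sub continuous_const).abs continuous_const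
    exact h1.measurableSet
  have hsub : Θ ⊆ ord J := by
    rw [hΘ2]
    exact Set.inter_subset_left
  rw [← hΘe, ← vol_image hq hmeas hsub, ← vol_affine_box v U hU0 hU1 β e]
  refine measure_mono ?_
  rintro c ⟨t, ht, hc⟩
  rw [← hΦ t] at hc
  have h1 : c = Φ t := PE_inj hc
  rw [hΘ2] at ht
  rw [h1]
  exact ht.2

end TQ
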