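import Pool.Agent.Lib.MP_021685_agTQ.VE

/-! LEAF V6b (medium).  The discriminant bound.

PROOF.  `A l j = (DD q j).eval (x l)`, a `g x g` matrix.  `DD q j` is monic of degree `j` (`DD_monic`, file VE), so `det A = det (vandermonde x) = ∏_{i < k} (x k - x i)` (`Matrix.det_eval_matrixOfPolynomials_eq_det_vandermonde`, `Matrix.det_vandermonde`).
`x l = 2 √q cos θ` with `θ = arccos (x l / (2 √q))`, so `|A l j| ≤ 2 √q ^ j` (`TI.bas_eval`, file TI/B0.lean, for `j ≥ 1`; for `j = 0` the basis element is `1`).  Hadamard (`TJ.hadamard`, file TJ/JB3.lean: `|A.det| ≤ ∏ j, √(∑ i, A i j ^ 2)`): the factor number `j` is at most `√(g · 4 q^j) = 2 √g √q^j`, and `∏_{j<g} √q^j = √q^(g(g-1)/2)`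
(`Finset.prod_pow_eq_pow_sum`, `Finset.sum_range_id`). -/

namespace TQ

open Polynomial TI

private theorem V6b_entry {q : ℕ} (hq : 1 ≤ q) (j : ℕ) {x : ℝ} (hx : |x| ≤ 2 * Real.sqrt q) :
    |(DD q j).eval x| ≤ 2 * Real.sqrt q ^ j := by
  have hs : 0 < Real.sqrt q := Real.sqrt_pos.mpr (by exact_mod_cast hq)
  rcases Nat.eq_zero_or_pos j with rfl | hj
  · have h1 : DD q 0 = 1 := by
      unfold DD bas
      rw [if_pos rfl, Polynomial.map_one]
    rw [h1, Polynomial.eval_one, abs_one, pow_zero]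
    norm_num
  · have h2 : x = 2 * Real.sqrt q * Real.cos (Real.arccos (x / (2 * Real.sqrt q))) := by
      have h3 : |x / (2 * Real.sqrt q)| ≤ 1 := by
        rw [abs_div, abs_of_pos (by positivity : (0 : ℝ) < 2 * Real.sqrt q)]
        exact (div_le_one (by positivity)).mpr hx
      rw [Real.cos_arccos (abs_le.mp h3).1 (abs_le.mp h3).2, mul_div_cancel₀ x (by positivity : 2 * Real.sqrt q ≠ 0)]
    rw [h2]
    unfold DD
    rw [bas_eval q j hj, abs_mul, abs_of_nonneg (by positivity : (0 : ℝ) ≤ 2 * Real.sqrt q ^ j)]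
    calc 2 * Real.sqrt q ^ j * |Real.cos ((j : ℝ) * Real.arccos (x / (2 * Real.sqrt q)))|
        ≤ 2 * Real.sqrt q ^ j * 1 := mul_le_mul_of_nonneg_left (Real.abs_cos_le_one _) (by positivity)
      _ = 2 * Real.sqrt q ^ j := mul_one _

theorem vand_le {q g : ℕ} (hq : 1 ≤ q) (x : Fin g → ℝ) (hx : ∀ i, |x i| ≤ 2 * Real.sqrt q) :
    ∏ i, ∏ k ∈ Finset.Ioi i, |x i - x k| ≤ (2 * Real.sqrt g) ^ g * Real.sqrt q ^ (g * (g - 1) / 2) := by
  have h1 : ∏ i, ∏ k ∈ Finset.Ioi i, |x i - x k| = |(Matrix.vandermonde x).det| := by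
    rw [Matrix.det_vandermonde, Finset.abs_prod]
    refine Finset.prod_congr rfl fun i _ => ?_
    rw [Finset.abs_prod]
    exact Finset.prod_congr rfl fun k _ => abs_sub_comm _ _
  have h2 : (Matrix.vandermonde x).det = (Matrix.of fun i j : Fin g => (DD q j).eval (x i)).det :=
    Matrix.det_eval_matrixOfPolynomials_eq_det_vandermonde x (fun j : Fin g => DD q j) (fun j => (DD_monic q j).2)
      (fun j => (DD_monic q j).1)
  rw [h1, h2]
  refine (TJ.hadamard _).trans ?_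
  have h3 : ∀ j : Fin g, Real.sqrt (∑ i, (Matrix.of fun i j : Fin g => (DD q j).eval (x i)) i j ^ 2) ≤
      2 * Real.sqrt g * Real.sqrt q ^ (j : ℕ) := by
    intro j
    have h4 : ∑ i, (Matrix.of fun i j : Fin g => (DD q j).eval (x i)) i j ^ 2 ≤
        (2 * Real.sqrt g * Real.sqrt q ^ (j : ℕ)) ^ 2 := by
      have h5 : ∀ i : Fin g, (Matrix.of fun i j : Fin g => (DD q j).eval (x i)) i j ^ 2 ≤
          (2 * Real.sqrt q ^ (j : ℕ)) ^ 2 := by
        intro i
        rw [Matrix.of_apply, ← sq_abs]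
        exact pow_le_pow_left₀ (abs_nonneg _) (V6b_entry hq j (hx i)) 2
      refine (Finset.sum_le_sum fun i _ => h5 i).trans (le_of_eq ?_)
      rw [Finset.sum_const, Finset.card_univ, Fintype.card_fin, nsmul_eq_mul]
      have h6 : Real.sqrt g ^ 2 = (g : ℝ) := Real.sq_sqrt (Nat.cast_nonneg g)
      calc (g : ℝ) * (2 * Real.sqrt q ^ (j : ℕ)) ^ 2 = Real.sqrt g ^ 2 * (2 * Real.sqrt q ^ (j : ℕ)) ^ 2 := by rw [h6]
        _ = (2 * Real.sqrt g * Real.sqrt q ^ (j : ℕ)) ^ 2 := by ring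
    calc Real.sqrt (∑ i, (Matrix.of fun i j : Fin g => (DD q j).eval (x i)) i j ^ 2)
        ≤ Real.sqrt ((2 * Real.sqrt g * Real.sqrt q ^ (j : ℕ)) ^ 2) := Real.sqrt_le_sqrt h4
      _ = 2 * Real.sqrt g * Real.sqrt q ^ (j : ℕ) := Real.sqrt_sq (by positivity)
  refine (Finset.prod_le_prod (fun j _ => Real.sqrt_nonneg _) fun j _ => h3 j).trans (le_of_eq ?_)
  rw [Finset.prod_mul_distrib, Finset.prod_const, Finset.card_univ, Fintype.card_fin, Finset.prod_pow_eq_pow_sum,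
    Fin.sum_univ_eq_sum_range (fun i => i) g, Finset.sum_range_id]

end TQ
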