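import Pool.Agent.Lib.MP_021685_agTQ.V6a
import Pool.Agent.Lib.MP_021685_agTQ.V6b

/-! LEAF V6 (medium-).  The choice of the subset.

PROOF.  `g = n + J`, `B = (4 g)^J √q^(J n)`, `N = g.choose n ≥ 1`, `c = (g-2).choose (n-1)`.  Suppose that all the products are `> B`.  Then `B^N < ∏ S (..)` (`Finset.prod_lt_prod_of_nonempty`, `Finset.card_powersetCard`) `= V^(2c)` (`prod_subsets` with `d i k = |x i - x k|`) with `V ≤ (2 √g)^g √q^(g(g-1)/2)` (`vand_le`),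
so `V^(2c) ≤ (4 g)^(g c) √q^(g(g-1)c)`.  Now `g (g-1) c = N n J` (`Nat.choose` identities: `g.choose n * n = g * (g-1).choose (n-1)` and `(g-1).choose (n-1) * (g-n) = (g-1) * (g-2).choose (n-1)`: `Nat.succ_mul_choose_eq`, `Nat.add_one_mul_choose_eq`, `Nat.choose_mul_succ_eq`), and `g c ≤ N J`, because `n ≤ g - 1`.
Since `4 g ≥ 1`: `V^(2c) ≤ (4 g)^(N J) √q^(N n J) = B^N`, a contradiction. -/

namespace TQ

private theorem v6_nat (n J : ℕ) (hn : 1 ≤ n) (hJ : 1 ≤ J) :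
    (n + J) * (n + J - 1) * (n + J - 2).choose (n - 1) = (n + J).choose n * n * J ∧
    (n + J) * (n + J - 2).choose (n - 1) ≤ (n + J).choose n * J := by
  obtain ⟨a, rfl⟩ : ∃ a, n = a + 1 := ⟨n - 1, by omega⟩
  obtain ⟨b, rfl⟩ : ∃ b, J = b + 1 := ⟨J - 1, by omega⟩
  have e1 : a + 1 + (b + 1) - 1 = a + b + 1 := by omega
  have e2 : a + 1 + (b + 1) - 2 = a + b := by omega
  have e3 : a + 1 - 1 = a := by omega
  have e4 : a + 1 + (b + 1) = a + b + 1 + 1 := by omega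
  rw [e1, e2, e3, e4]
  have h1 : (a + b + 1 + 1) * (a + b + 1).choose a = (a + b + 1 + 1).choose (a + 1) * (a + 1) :=
    Nat.add_one_mul_choose_eq (a + b + 1) a
  have h2 : (a + b).choose a * (a + b + 1) = (a + b + 1).choose a * (a + b + 1 - a) :=
    Nat.choose_mul_succ_eq (a + b) a
  have e5 : a + b + 1 - a = b + 1 := by omega
  rw [e5] at h2
  have h3 : (a + b + 1 + 1) * (a + b + 1) * (a + b).choose a =
      (a + b + 1 + 1).choose (a + 1) * (a + 1) * (b + 1) := by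
    calc (a + b + 1 + 1) * (a + b + 1) * (a + b).choose a
        = (a + b + 1 + 1) * ((a + b).choose a * (a + b + 1)) := by ring
      _ = (a + b + 1 + 1) * (a + b + 1).choose a * (b + 1) := by rw [h2]; ring
      _ = _ := by rw [h1]
  refine ⟨h3, ?_⟩
  have h4 : (a + b + 1 + 1) * (a + b).choose a * (a + b + 1) ≤
      (a + b + 1 + 1).choose (a + 1) * (b + 1) * (a + b + 1) := by
    calc (a + b + 1 + 1) * (a + b).choose a * (a + b + 1)
        = (a + b + 1 + 1) * (a + b + 1) * (a + b).choose a := by ring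
      _ = (a + b + 1 + 1).choose (a + 1) * (a + 1) * (b + 1) := h3
      _ = (a + b + 1 + 1).choose (a + 1) * (b + 1) * (a + 1) := by ring
      _ ≤ (a + b + 1 + 1).choose (a + 1) * (b + 1) * (a + b + 1) :=
        Nat.mul_le_mul_left _ (by omega)
  exact Nat.le_of_mul_le_mul_right h4 (by omega)

theorem choose_S {q n J : ℕ} (hq : 1 ≤ q) (hn : 1 ≤ n) (hJ : 1 ≤ J) (x : Fin (n + J) → ℝ)
    (hx : ∀ i, |x i| ≤ 2 * Real.sqrt q) :
    ∃ S ∈ Finset.powersetCard n (Finset.univ : Finset (Fin (n + J))),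
      ∏ i ∈ S, ∏ k ∈ Sᶜ, |x i - x k| ≤ (4 * ((n : ℝ) + J)) ^ J * Real.sqrt q ^ (J * n) := by
  classical
  by_contra hcon
  push Not at hcon
  obtain ⟨g, hg⟩ : ∃ g, g = n + J := ⟨_, rfl⟩
  have hgR : (n : ℝ) + J = (g : ℝ) := by rw [hg]; push_cast; ring
  rw [hgR] at hcon
  have hg1 : (1 : ℝ) ≤ g := by
    have : 1 ≤ g := by omega
    exact_mod_cast this
  have hq1 : (1 : ℝ) ≤ Real.sqrt q := by
    rw [Real.one_le_sqrt]
    exact_mod_cast hq
  obtain ⟨B, hB⟩ : ∃ B : ℝ, B = (4 * (g : ℝ)) ^ J * Real.sqrt q ^ (J * n) := ⟨_, rfl⟩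
  rw [← hB] at hcon
  have hB0 : 0 < B := by rw [hB]; positivity
  have hne : (Finset.powersetCard n (Finset.univ : Finset (Fin (n + J)))).Nonempty := by
    rw [Finset.powersetCard_nonempty, Finset.card_univ, Fintype.card_fin]
    omega
  have h1 := Finset.prod_lt_prod_of_nonempty (s := Finset.powersetCard n (Finset.univ : Finset (Fin (n + J))))
    (f := fun _ => B) (g := fun S => ∏ i ∈ S, ∏ k ∈ Sᶜ, |x i - x k|)
    (fun _ _ => hB0) (fun S hS => hcon S hS) hne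
  rw [Finset.prod_const, Finset.card_powersetCard, Finset.card_univ, Fintype.card_fin,
    prod_subsets (fun i k => |x i - x k|) (fun i k => abs_sub_comm _ _) hn (by omega)] at h1
  have h2 := vand_le hq x hx
  have h0 : 0 ≤ ∏ i, ∏ k ∈ Finset.Ioi i, |x i - x k| :=
    Finset.prod_nonneg fun i _ => Finset.prod_nonneg fun k _ => abs_nonneg _
  obtain ⟨V, hV⟩ : ∃ V : ℝ, V = ∏ i, ∏ k ∈ Finset.Ioi i, |x i - x k| := ⟨_, rfl⟩
  rw [← hV] at h0 h1 h2
  have h3 := pow_le_pow_left₀ h0 h2 (2 * (n + J - 2).choose (n - 1))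
  obtain ⟨n1, n2⟩ := v6_nat n J hn hJ
  rw [← hg] at h1 h3 n1 n2
  obtain ⟨c, hc⟩ : ∃ c, c = (g - 2).choose (n - 1) := ⟨_, rfl⟩
  obtain ⟨N, hN⟩ : ∃ N, N = g.choose n := ⟨_, rfl⟩
  rw [← hc] at h1 h3 n1 n2
  rw [← hN] at h1 n1 n2
  have h4 : ((2 * Real.sqrt ((g : ℕ) : ℝ)) ^ g * Real.sqrt q ^ (g * (g - 1) / 2)) ^ (2 * c) =
      (4 * (g : ℝ)) ^ (g * c) * Real.sqrt q ^ (N * n * J) := by
    rw [mul_pow, ← pow_mul, ← pow_mul]
    have e1 : g * (2 * c) = 2 * (g * c) := by ring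
    have e2 : g * (g - 1) / 2 * (2 * c) = N * n * J := by
      rw [← n1]
      have e3 : g * (g - 1) / 2 * 2 = g * (g - 1) :=
        Nat.div_mul_cancel (Nat.even_mul_pred_self g).two_dvd
      calc g * (g - 1) / 2 * (2 * c) = g * (g - 1) / 2 * 2 * c := by ring
        _ = g * (g - 1) * c := by rw [e3]
    rw [e1, e2, pow_mul (2 * Real.sqrt ((g : ℕ) : ℝ)) 2, mul_pow, Real.sq_sqrt (by positivity)]
    norm_num
  rw [h4] at h3
  have h5 : (4 * (g : ℝ)) ^ (g * c) ≤ (4 * (g : ℝ)) ^ (J * N) :=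
    pow_le_pow_right₀ (by linarith) (by rw [mul_comm J N]; exact n2)
  have h6 : B ^ N = (4 * (g : ℝ)) ^ (J * N) * Real.sqrt q ^ (N * n * J) := by
    rw [hB, mul_pow, ← pow_mul, ← pow_mul]
    congr 2
    ring
  have h7 : (4 * (g : ℝ)) ^ (g * c) * Real.sqrt q ^ (N * n * J) ≤ B ^ N := by
    rw [h6]
    exact mul_le_mul_of_nonneg_right h5 (by positivity)
  have h8 : V ^ (2 * c) ≤ B ^ N := h3.trans h7
  exact absurd (h1.trans_le h8) (lt_irrefl _)

end TQ
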