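import Mathlib

/-! LEAF V6a (medium, Mathlib only).  The product over all subsets of the product over the pairs which they separate.

PROOF.  For a symmetric function `d` (values in a commutative monoid, here real numbers).  The left side is `∏ S, ∏ i, ∏ k, if i ∈ S ∧ k ∉ S then d i k else 1`; exchange the products (`Finset.prod_comm`): `∏ i, ∏ k, d i k ^ N(i,k)` with `N(i,k)` the number of the `S` of `n` elements with `i ∈ S`, `k ∉ S`, which is `0` for `i = k` and `(g-2).choose (n-1)` for `i ≠ k`
(`S ↦ S.erase i` is a bijection to the subsets of `n - 1` elements of `univ \ {i, k}`: `Finset.card_powersetCard`).  The product over the ordered pairs `i ≠ k` is the product over `i < k` of `d i k * d k i = (d i k)^2` (split in `i < k` and `k < i`, exchange in the second one). -/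

namespace TQ

private theorem V6a_card {g n : ℕ} (h1 : 1 ≤ n) (i k : Fin g) (hik : i ≠ k) :
    ((Finset.powersetCard n (Finset.univ : Finset (Fin g))).filter
      (fun S => i ∈ S ∧ k ∉ S)).card = (g - 2).choose (n - 1) := by
  classical
  have hc : (((Finset.univ : Finset (Fin g)).erase i).erase k).card = g - 2 := by
    rw [Finset.card_erase_of_mem (Finset.mem_erase.2 ⟨hik.symm, Finset.mem_univ k⟩),
      Finset.card_erase_of_mem (Finset.mem_univ i), Finset.card_univ, Fintype.card_fin]
    omega
  rw [← hc, ← Finset.card_powersetCard]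
  refine Finset.card_bij' (fun S _ => S.erase i) (fun T _ => insert i T) ?_ ?_ ?_ ?_
  · intro S hS
    rw [Finset.mem_filter, Finset.mem_powersetCard] at hS
    obtain ⟨⟨-, hcard⟩, hi, hk⟩ := hS
    rw [Finset.mem_powersetCard]
    refine ⟨fun x hx => ?_, ?_⟩
    · rw [Finset.mem_erase] at hx
      rw [Finset.mem_erase, Finset.mem_erase]
      refine ⟨fun h => hk (h ▸ hx.2), hx.1, Finset.mem_univ x⟩
    · rw [Finset.card_erase_of_mem hi, hcard]
  · intro T hT
    rw [Finset.mem_powersetCard] at hT
    obtain ⟨hsub, hcard⟩ := hT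
    have hi : i ∉ T := fun h => by
      have h2 := hsub h
      rw [Finset.mem_erase, Finset.mem_erase] at h2
      exact h2.2.1 rfl
    have hk : k ∉ T := fun h => by
      have h2 := hsub h
      rw [Finset.mem_erase] at h2
      exact h2.1 rfl
    rw [Finset.mem_filter, Finset.mem_powersetCard]
    refine ⟨⟨Finset.subset_univ _, ?_⟩, Finset.mem_insert_self i T, ?_⟩
    · rw [Finset.card_insert_of_notMem hi, hcard]
      omega
    · rw [Finset.mem_insert, not_or]
      exact ⟨hik.symm, hk⟩
  · intro S hS
    rw [Finset.mem_filter] at hS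
    exact Finset.insert_erase hS.2.1
  · intro T hT
    rw [Finset.mem_powersetCard] at hT
    have hi : i ∉ T := fun h => by
      have h2 := hT.1 h
      rw [Finset.mem_erase, Finset.mem_erase] at h2
      exact h2.2.1 rfl
    exact Finset.erase_insert hi

theorem prod_subsets {g n : ℕ} (d : Fin g → Fin g → ℝ) (hs : ∀ i k, d i k = d k i) (h1 : 1 ≤ n) (h2 : n < g) :
    ∏ S ∈ Finset.powersetCard n (Finset.univ : Finset (Fin g)), ∏ i ∈ S, ∏ k ∈ Sᶜ, d i k =
      (∏ i, ∏ k ∈ Finset.Ioi i, d i k) ^ (2 * (g - 2).choose (n - 1)) := by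
  classical
  have hstep : ∀ S : Finset (Fin g), ∏ i ∈ S, ∏ k ∈ Sᶜ, d i k =
      ∏ i, ∏ k, if i ∈ S ∧ k ∉ S then d i k else 1 := by
    intro S
    rw [← Finset.prod_subset (Finset.subset_univ S) (fun i _ hi => ?_)]
    · refine Finset.prod_congr rfl fun i hi => ?_
      rw [← Finset.prod_subset (Finset.subset_univ Sᶜ) (fun k _ hk => ?_)]
      · refine Finset.prod_congr rfl fun k hk => ?_
        rw [if_pos ⟨hi, Finset.mem_compl.1 hk⟩]
      · rw [if_neg fun h => hk (Finset.mem_compl.2 h.2)]
    · exact Finset.prod_eq_one fun k _ => if_neg fun h => hi h.1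
  have hL : ∏ S ∈ Finset.powersetCard n (Finset.univ : Finset (Fin g)), ∏ i ∈ S, ∏ k ∈ Sᶜ, d i k =
      ∏ i, ∏ k, ∏ S ∈ Finset.powersetCard n (Finset.univ : Finset (Fin g)),
        if i ∈ S ∧ k ∉ S then d i k else 1 := by
    rw [Finset.prod_congr rfl fun S _ => hstep S, Finset.prod_comm]
    refine Finset.prod_congr rfl fun i _ => ?_
    rw [Finset.prod_comm]
  rw [hL]
  have hR : ∏ i, ∏ k ∈ ({i} : Finset (Fin g))ᶜ, d k i = (∏ i, ∏ k ∈ Finset.Ioi i, d i k) ^ 2 := by
    rw [← Finset.prod_prod_Ioi_mul_eq_prod_prod_off_diag (fun i k => d i k), ← Finset.prod_pow]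
    refine Finset.prod_congr rfl fun i _ => ?_
    rw [← Finset.prod_pow]
    refine Finset.prod_congr rfl fun k _ => ?_
    rw [hs k i]
    ring
  rw [pow_mul, ← hR, ← Finset.prod_pow]
  refine Finset.prod_congr rfl fun i _ => ?_
  rw [← Finset.prod_pow, ← Finset.prod_subset (Finset.subset_univ ({i} : Finset (Fin g))ᶜ) (fun k _ hk => ?_)]
  · refine Finset.prod_congr rfl fun k hk => ?_
    have hik : i ≠ k := by
      rw [Finset.mem_compl, Finset.mem_singleton] at hk
      exact fun h => hk h.symm
    rw [← Finset.prod_filter, Finset.prod_const, V6a_card h1 i k hik, hs k i]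
  · have hik : k = i := by
      by_contra h
      exact hk (by rw [Finset.mem_compl, Finset.mem_singleton]; exact h)
    refine Finset.prod_eq_one fun S _ => if_neg fun h => ?_
    rw [hik] at h
    exact h.2 h.1

end TQ
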