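import Pool.Agent.Lib.MP_021685_agTQ.V4i

/-! LEAF V7a (medium).  The Jacobian of a union of two sets of angles.

PROOF.  `jac_vand` (file V4i) for the three Jacobians.  The factors `|2 √q sin|`: `Equiv.prod_comp e`, `Fintype.prod_sum_type`.  The Vandermonde factors: for `y : Fin m → ℝ` put `W y = |∏ i, ∏ j ∈ Ioi i, (y j - y i)| = ∏_{i<j} |y j - y i| ≥ 0`; then `(W y)^2 = ∏ i, ∏ j, (if i = j then 1 else |y i - y j|)` (ordered pairs; split in `i < j` and `j < i`).
The right side is invariant under a bijection of the index set (`Equiv.prod_comp`), so with `x = 2 √q cos ∘ t`, `a = x ∘ e ∘ inl`, `b = x ∘ e ∘ inr`: `(W x)^2 = ∏ p, ∏ r : Fin n ⊕ Fin J (if p = r then 1 else |x (e p) - x (e r)|) = (W a)^2 (W b)^2 (∏ i, ∏ k |a i - b k|)^2` (`Fintype.prod_sum_type` twice, `Finset.prod_comm`, `abs_sub_comm`).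
Both sides are squares of nonnegative numbers: `W x = W a * W b * ∏∏ |a i - b k|` (`pow_left_injective` / `abs_eq_abs`, `sq_eq_sq'`). -/

namespace TQ

private theorem V7a_ioi {m : ℕ} (y : Fin m → ℝ) :
    |∏ i, ∏ j ∈ Finset.Ioi i, (y j - y i)| = ∏ i, ∏ j, (if i < j then |y i - y j| else 1) := by
  rw [Finset.abs_prod]
  refine Finset.prod_congr rfl fun i _ => ?_
  rw [Finset.abs_prod, ← Finset.filter_lt_eq_Ioi, Finset.prod_filter]
  refine Finset.prod_congr rfl fun j _ => ?_
  rw [abs_sub_comm]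

private theorem V7a_sq {m : ℕ} (y : Fin m → ℝ) :
    |∏ i, ∏ j ∈ Finset.Ioi i, (y j - y i)| ^ 2 = ∏ i, ∏ j, (if i = j then 1 else |y i - y j|) := by
  have h1 : ∏ i, ∏ j, (if i = j then 1 else |y i - y j|) =
      (∏ i, ∏ j, (if i < j then |y i - y j| else 1)) * ∏ i, ∏ j, (if j < i then |y i - y j| else 1) := by
    rw [← Finset.prod_mul_distrib]
    refine Finset.prod_congr rfl fun i _ => ?_
    rw [← Finset.prod_mul_distrib]
    refine Finset.prod_congr rfl fun j _ => ?_
    rcases lt_trichotomy i j with h | h | h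
    · rw [if_neg h.ne, if_pos h, if_neg (not_lt.2 h.le), mul_one]
    · subst h
      rw [if_pos rfl, if_neg (lt_irrefl _), mul_one]
    · rw [if_neg h.ne', if_neg (not_lt.2 h.le), if_pos h, one_mul]
  have h2 : ∏ i, ∏ j, (if j < i then |y i - y j| else 1) = ∏ i, ∏ j, (if i < j then |y i - y j| else 1) := by
    rw [Finset.prod_comm]
    refine Finset.prod_congr rfl fun i _ => Finset.prod_congr rfl fun j _ => ?_
    rw [abs_sub_comm]
  rw [h1, h2, V7a_ioi, sq]

private theorem V7a_vand {n J : ℕ} (e : Fin n ⊕ Fin J ≃ Fin (n + J)) (x : Fin (n + J) → ℝ) :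
    |∏ i, ∏ j ∈ Finset.Ioi i, (x j - x i)| =
      |∏ i : Fin n, ∏ j ∈ Finset.Ioi i, (x (e (Sum.inl j)) - x (e (Sum.inl i)))| *
      |∏ i : Fin J, ∏ j ∈ Finset.Ioi i, (x (e (Sum.inr j)) - x (e (Sum.inr i)))| *
      ∏ i : Fin n, ∏ k : Fin J, |x (e (Sum.inl i)) - x (e (Sum.inr k))| := by
  have hP : 0 ≤ ∏ i : Fin n, ∏ k : Fin J, |x (e (Sum.inl i)) - x (e (Sum.inr k))| :=
    Finset.prod_nonneg fun i _ => Finset.prod_nonneg fun k _ => abs_nonneg _
  have hA := V7a_sq (fun i : Fin n => x (e (Sum.inl i)))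
  have hB := V7a_sq (fun i : Fin J => x (e (Sum.inr i)))
  have hX := V7a_sq x
  have h1 : ∏ i, ∏ j, (if i = j then 1 else |x i - x j|) =
      (∏ i : Fin n, ∏ j : Fin n, (if i = j then 1 else |x (e (Sum.inl i)) - x (e (Sum.inl j))|)) *
      (∏ i : Fin J, ∏ j : Fin J, (if i = j then 1 else |x (e (Sum.inr i)) - x (e (Sum.inr j))|)) *
      (∏ i : Fin n, ∏ k : Fin J, |x (e (Sum.inl i)) - x (e (Sum.inr k))|) ^ 2 := by
    rw [← Equiv.prod_comp e (fun i => ∏ j, (if i = j then 1 else |x i - x j|)), Fintype.prod_sum_type]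
    have hi : ∀ i : Fin n, ∏ j, (if e (Sum.inl i) = j then 1 else |x (e (Sum.inl i)) - x j|) =
        (∏ j : Fin n, (if i = j then 1 else |x (e (Sum.inl i)) - x (e (Sum.inl j))|)) *
          ∏ k : Fin J, |x (e (Sum.inl i)) - x (e (Sum.inr k))| := by
      intro i
      rw [← Equiv.prod_comp e (fun j => (if e (Sum.inl i) = j then 1 else |x (e (Sum.inl i)) - x j|)),
        Fintype.prod_sum_type]
      refine congrArg₂ (· * ·) (Finset.prod_congr rfl fun j _ => ?_) (Finset.prod_congr rfl fun k _ => ?_)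
      · by_cases h : i = j
        · subst h
          rw [if_pos rfl, if_pos rfl]
        · rw [if_neg h, if_neg]
          intro h'
          exact h (Sum.inl_injective (e.injective h'))
      · rw [if_neg]
        intro h'
        exact Sum.inl_ne_inr (e.injective h')
    have hk : ∀ k : Fin J, ∏ j, (if e (Sum.inr k) = j then 1 else |x (e (Sum.inr k)) - x j|) =
        (∏ i : Fin n, |x (e (Sum.inl i)) - x (e (Sum.inr k))|) *
        (∏ j : Fin J, (if k = j then 1 else |x (e (Sum.inr k)) - x (e (Sum.inr j))|)) := by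
      intro k
      rw [← Equiv.prod_comp e (fun j => (if e (Sum.inr k) = j then 1 else |x (e (Sum.inr k)) - x j|)),
        Fintype.prod_sum_type]
      refine congrArg₂ (· * ·) (Finset.prod_congr rfl fun i _ => ?_) (Finset.prod_congr rfl fun j _ => ?_)
      · rw [if_neg, abs_sub_comm]
        intro h'
        exact Sum.inr_ne_inl (e.injective h')
      · by_cases h : k = j
        · subst h
          rw [if_pos rfl, if_pos rfl]
        · rw [if_neg h, if_neg]
          intro h'
          exact h (Sum.inr_injective (e.injective h'))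
    rw [Finset.prod_congr rfl (fun i _ => hi i), Finset.prod_congr rfl (fun k _ => hk k),
      Finset.prod_mul_distrib, Finset.prod_mul_distrib,
      Finset.prod_comm (f := fun (k : Fin J) (i : Fin n) => |x (e (Sum.inl i)) - x (e (Sum.inr k))|)]
    ring
  refine (sq_eq_sq₀ (abs_nonneg _) (mul_nonneg (mul_nonneg (abs_nonneg _) (abs_nonneg _)) hP)).1 ?_
  rw [hX, h1, mul_pow, mul_pow, hA, hB]

theorem jac_split {q n J : ℕ} (e : Fin n ⊕ Fin J ≃ Fin (n + J)) (t : Fin (n + J) → ℝ) :
    Jac q (n + J) t = Jac q n (fun i => t (e (Sum.inl i))) * Jac q J (fun k => t (e (Sum.inr k))) *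
      ∏ i : Fin n, ∏ k : Fin J,
        |2 * Real.sqrt q * Real.cos (t (e (Sum.inl i))) - 2 * Real.sqrt q * Real.cos (t (e (Sum.inr k)))| := by
  rw [jac_vand, jac_vand, jac_vand,
    V7a_vand e (fun k => 2 * Real.sqrt q * Real.cos (t k)),
    ← Equiv.prod_comp e (fun k => |2 * Real.sqrt q * Real.sin (t k)|), Fintype.prod_sum_type]
  ring

end TQ
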