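import Mathlib

/-! LEAF V7b (medium, Mathlib only).  Tonelli for a splitting of the coordinates.

PROOF.  The map `t ↦ (t ∘ e ∘ inl, t ∘ e ∘ inr)` from `Fin (n + J) → ℝ` to `(Fin n → ℝ) × (Fin J → ℝ)` is measure preserving: `volume_measurePreserving_piCongrLeft` (or `volume_preserving_piCongrLeft`) for `e` and `volume_measurePreserving_sumPiEquivProdPi` (`MeasurableEquiv.sumPiEquivProdPi`).
So `∫⁻ t in Θ, F t = ∫⁻ t, Θ.indicator F t` (`Θ` measurable) `≤ ∫⁻ t, G (t ∘ e ∘ inl, t ∘ e ∘ inr) = ∫⁻ z, G z` with `G (s, u) = A.indicator a s * (B s).indicator j u` (`MeasurePreserving.lintegral_comp_emb` or `MeasurableEquiv` version, which needs no measurability of `G`: `MeasurePreserving.lintegral_comp_emb`),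
`≤ ∫⁻ s, ∫⁻ u, G (s, u)` (`MeasureTheory.lintegral_prod_le`: no measurability needed) `= ∫⁻ s, A.indicator a s * ∫⁻ u, (B s).indicator j u` (`lintegral_const_mul'`, the constant is finite or use `ha`) `≤ ∫⁻ s, A.indicator a s * c` (`lintegral_indicator_le`; outside `A` the first factor is `0`) `≤ c * ∫⁻ s in A, a s`. -/

namespace TQ

open MeasureTheory ENNReal

theorem split_integral {n J : ℕ} (e : Fin n ⊕ Fin J ≃ Fin (n + J)) {F : (Fin (n + J) → ℝ) → ℝ≥0∞}
    {Θ : Set (Fin (n + J) → ℝ)} (hΘ : MeasurableSet Θ) {A : Set (Fin n → ℝ)} {a : (Fin n → ℝ) → ℝ≥0∞}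
    (ha : ∀ s, a s ≠ ⊤) {B : (Fin n → ℝ) → Set (Fin J → ℝ)} {j : (Fin J → ℝ) → ℝ≥0∞} {c : ℝ≥0∞} (hc : c ≠ ⊤)
    (h1 : ∀ t ∈ Θ, (fun i => t (e (Sum.inl i))) ∈ A ∧
      (fun k => t (e (Sum.inr k))) ∈ B (fun i => t (e (Sum.inl i))) ∧
      F t ≤ a (fun i => t (e (Sum.inl i))) * j (fun k => t (e (Sum.inr k))))
    (h2 : ∀ s ∈ A, ∫⁻ u in B s, j u ≤ c) :
    ∫⁻ t in Θ, F t ≤ c * ∫⁻ s in A, a s := by
  obtain ⟨M, hMdef⟩ : ∃ M : (Fin (n + J) → ℝ) ≃ᵐ (Fin n → ℝ) × (Fin J → ℝ),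
      M = (MeasurableEquiv.piCongrLeft (fun _ => ℝ) e).symm.trans
        (MeasurableEquiv.sumPiEquivProdPi (fun _ => ℝ)) := ⟨_, rfl⟩
  have hM : MeasurePreserving M volume volume := by
    rw [hMdef]
    exact (volume_measurePreserving_piCongrLeft (fun _ => ℝ) e).symm.trans
      (volume_measurePreserving_sumPiEquivProdPi (fun _ => ℝ))
  have hMv : ∀ t, M t = (fun i => t (e (Sum.inl i)), fun k => t (e (Sum.inr k))) := by
    intro t
    rw [hMdef]
    rfl
  obtain ⟨G, hG⟩ : ∃ G : (Fin n → ℝ) × (Fin J → ℝ) → ℝ≥0∞,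
      G = fun z => A.indicator a z.1 * (B z.1).indicator j z.2 := ⟨_, rfl⟩
  have hle : ∀ t, Θ.indicator F t ≤ G (M t) := by
    intro t
    by_cases ht : t ∈ Θ
    · obtain ⟨hA, hB, hF⟩ := h1 t ht
      rw [Set.indicator_of_mem ht, hG, hMv]
      simp only
      rw [Set.indicator_of_mem hA, Set.indicator_of_mem hB]
      exact hF
    · rw [Set.indicator_of_notMem ht]
      exact zero_le
  have hin : ∀ s, ∫⁻ u, G (s, u) ≤ c * A.indicator a s := by
    intro s
    by_cases hs : s ∈ A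
    · have e1 : ∫⁻ u, G (s, u) = a s * ∫⁻ u, (B s).indicator j u := by
        rw [← lintegral_const_mul' _ _ (ha s)]
        refine lintegral_congr fun u => ?_
        rw [hG]
        simp only
        rw [Set.indicator_of_mem hs]
      rw [e1, Set.indicator_of_mem hs, mul_comm]
      exact mul_le_mul_left ((lintegral_indicator_le _ _).trans (h2 s hs)) _
    · have e1 : ∫⁻ u, G (s, u) = 0 := by
        rw [← lintegral_zero (μ := (volume : Measure (Fin J → ℝ)))]
        refine lintegral_congr fun u => ?_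
        rw [hG]
        simp only
        rw [Set.indicator_of_notMem hs, zero_mul]
      rw [e1]
      exact zero_le
  calc ∫⁻ t in Θ, F t = ∫⁻ t, Θ.indicator F t := (lintegral_indicator hΘ _).symm
    _ ≤ ∫⁻ t, G (M t) := lintegral_mono hle
    _ = ∫⁻ z, G z := hM.lintegral_comp_emb M.measurableEmbedding G
    _ ≤ ∫⁻ s, ∫⁻ u, G (s, u) := lintegral_prod_le G
    _ ≤ ∫⁻ s, c * A.indicator a s := lintegral_mono hin
    _ = c * ∫⁻ s, A.indicator a s := lintegral_const_mul' _ _ hc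
    _ ≤ c * ∫⁻ s in A, a s := mul_le_mul_right (lintegral_indicator_le _ _) _

end TQ
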