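import Pool.Agent.Lib.MP_021685_agTQ.V5
import Pool.Agent.Lib.MP_021685_agTQ.V7a
import Pool.Agent.Lib.MP_021685_agTQ.V7b

/-! LEAF V7 (medium).  The splitting.

`meas_slab`: PROOF.  With `Φ` of `exists_phi` (file V4i): `b = Φ t` by `PE_inj`, so the set is `ord (n + J) ∩ {t | ∀ l, |Φ t (natAdd n l) - β l| < ε l}`, `meas_ord` (file V5) and an open set.

`split`: PROOF.  `split_integral` (file V7b) with `Θ` the set of the statement (measurable: `meas_slab` and the closed condition `Res ≤ B`, a continuous function of `t`), `A = ord n`, `a s = ofReal B * ofReal (Jac q n s)`, `B s = {u | u ∈ ord J ∧ ∃ b, PE q b = RP q s * RP q u ∧ ∀ l, |b (natAdd n l) - β l| < ε l}`, `j u = ofReal (Jac q J u)`, `c = ∏ ofReal (2 ε l)`.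
(h1): `t ∈ ord (n + J)` and `e ∘ inl`, `e ∘ inr` strictly increasing give `t ∘ e ∘ inl ∈ ord n`, `t ∘ e ∘ inr ∈ ord J`; `RP q t = RP q (t ∘ e ∘ inl) * RP q (t ∘ e ∘ inr)` (`Equiv.prod_comp e`, `Fintype.prod_sum_type`); `jac_split` (file V7a) and `Res ≤ B` give `Jac q (n+J) t ≤ B * Jac q n (..) * Jac q J (..)` (all factors `≥ 0`; `B ≥ Res ≥ 0`), `ENNReal.ofReal_mul`.
(h2): `inner_slab` (file V5) with `h = RP q s`, monic of degree `n` (`RP_monic`, file VE).  Finally take the constant `ofReal B` out of the integral (`lintegral_const_mul'`). -/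

namespace TQ

open Polynomial TI MeasureTheory

theorem meas_slab {q n J : ℕ} (β ε : Fin J → ℝ) :
    MeasurableSet {t : Fin (n + J) → ℝ | t ∈ ord (n + J) ∧ ∃ b : Fin (n + J) → ℝ, PE q b = RP q t ∧
      ∀ l, |b (Fin.natAdd n l) - β l| < ε l} := by
  obtain ⟨Φ, hΦ, h⟩ := exists_phi q (n + J)
  have hset : {t : Fin (n + J) → ℝ | t ∈ ord (n + J) ∧ ∃ b : Fin (n + J) → ℝ, PE q b = RP q t ∧
      ∀ l, |b (Fin.natAdd n l) - β l| < ε l} =
      ord (n + J) ∩ {t | ∀ l : Fin J, |Φ t (Fin.natAdd n l) - β l| < ε l} := by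
    ext t
    constructor
    · rintro ⟨ht, b, hb, hl⟩
      have hbt : b = Φ t := PE_inj (hb.trans (h t).symm)
      rw [hbt] at hl
      exact ⟨ht, hl⟩
    · rintro ⟨ht, hl⟩
      exact ⟨ht, Φ t, h t, hl⟩
  rw [hset]
  refine (meas_ord _).inter (IsOpen.measurableSet ?_)
  rw [Set.setOf_forall]
  refine isOpen_iInter_of_finite fun l => ?_
  refine isOpen_lt ?_ continuous_const
  exact (((continuous_apply (Fin.natAdd n l)).comp hΦ).sub continuous_const).abs

private theorem V7_jac_nonneg (q n : ℕ) (t : Fin n → ℝ) : 0 ≤ Jac q n t :=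
  mul_nonneg (pow_nonneg (Real.sqrt_nonneg _) _) (abs_nonneg _)

theorem split {q n J : ℕ} (hq : 1 ≤ q) (e : Fin n ⊕ Fin J ≃ Fin (n + J))
    (h1 : StrictMono fun i : Fin n => e (Sum.inl i)) (h2 : StrictMono fun k : Fin J => e (Sum.inr k))
    {B : ℝ} (β ε : Fin J → ℝ) :
    ∫⁻ t in {t : Fin (n + J) → ℝ | (t ∈ ord (n + J) ∧ ∃ b : Fin (n + J) → ℝ, PE q b = RP q t ∧
        ∀ l, |b (Fin.natAdd n l) - β l| < ε l) ∧
        ∏ i : Fin n, ∏ k : Fin J, |2 * Real.sqrt q * Real.cos (t (e (Sum.inl i))) -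
          2 * Real.sqrt q * Real.cos (t (e (Sum.inr k)))| ≤ B}, ENNReal.ofReal (Jac q (n + J) t) ≤
      (ENNReal.ofReal B * ∏ l, ENNReal.ofReal (2 * ε l)) * ∫⁻ s in ord n, ENNReal.ofReal (Jac q n s) := by
  have hc : ∏ l, ENNReal.ofReal (2 * ε l) ≠ ⊤ := ENNReal.prod_ne_top fun l _ => ENNReal.ofReal_ne_top
  have hmeas : MeasurableSet {t : Fin (n + J) → ℝ | (t ∈ ord (n + J) ∧ ∃ b : Fin (n + J) → ℝ,
      PE q b = RP q t ∧ ∀ l, |b (Fin.natAdd n l) - β l| < ε l) ∧
        ∏ i : Fin n, ∏ k : Fin J, |2 * Real.sqrt q * Real.cos (t (e (Sum.inl i))) -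
          2 * Real.sqrt q * Real.cos (t (e (Sum.inr k)))| ≤ B} := by
    have hcont : Continuous fun t : Fin (n + J) → ℝ => ∏ i : Fin n, ∏ k : Fin J,
        |2 * Real.sqrt q * Real.cos (t (e (Sum.inl i))) - 2 * Real.sqrt q * Real.cos (t (e (Sum.inr k)))| := by
      fun_prop
    exact (meas_slab (q := q) β ε).inter (isClosed_le hcont continuous_const).measurableSet
  have key := split_integral e (F := fun t => ENNReal.ofReal (Jac q (n + J) t)) hmeas (A := ord n)
    (a := fun s => ENNReal.ofReal B * ENNReal.ofReal (Jac q n s))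
    (fun s => ENNReal.mul_ne_top ENNReal.ofReal_ne_top ENNReal.ofReal_ne_top)
    (B := fun s => {u : Fin J → ℝ | u ∈ ord J ∧ ∃ b : Fin (n + J) → ℝ, PE q b = RP q s * RP q u ∧
      ∀ l, |b (Fin.natAdd n l) - β l| < ε l})
    (j := fun u => ENNReal.ofReal (Jac q J u)) (c := ∏ l, ENNReal.ofReal (2 * ε l)) hc ?_ ?_
  · refine key.trans (le_of_eq ?_)
    rw [lintegral_const_mul' _ _ ENNReal.ofReal_ne_top]
    ring
  · rintro t ⟨⟨ht, b, hb, hl⟩, hB⟩
    have hs : (fun i => t (e (Sum.inl i))) ∈ ord n := ⟨ht.1.comp h1, fun j => ht.2 _⟩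
    have hu : (fun k => t (e (Sum.inr k))) ∈ ord J := ⟨ht.1.comp h2, fun j => ht.2 _⟩
    have hRP : RP q t = RP q (fun i => t (e (Sum.inl i))) * RP q (fun k => t (e (Sum.inr k))) := by
      simp only [RP]
      rw [← Equiv.prod_comp e, Fintype.prod_sum_type]
    refine ⟨hs, ⟨hu, b, hb.trans hRP, hl⟩, ?_⟩
    show ENNReal.ofReal (Jac q (n + J) t) ≤ ENNReal.ofReal B *
      ENNReal.ofReal (Jac q n fun i => t (e (Sum.inl i))) * ENNReal.ofReal (Jac q J fun k => t (e (Sum.inr k)))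
    have hres : 0 ≤ ∏ i : Fin n, ∏ k : Fin J, |2 * Real.sqrt q * Real.cos (t (e (Sum.inl i))) -
          2 * Real.sqrt q * Real.cos (t (e (Sum.inr k)))| :=
      Finset.prod_nonneg fun i _ => Finset.prod_nonneg fun k _ => abs_nonneg _
    have hB0 : 0 ≤ B := hres.trans hB
    have hn := V7_jac_nonneg q n fun i => t (e (Sum.inl i))
    have hJ := V7_jac_nonneg q J fun k => t (e (Sum.inr k))
    rw [← ENNReal.ofReal_mul hB0, ← ENNReal.ofReal_mul (mul_nonneg hB0 hn)]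
    refine ENNReal.ofReal_le_ofReal ?_
    rw [jac_split e t]
    calc Jac q n (fun i => t (e (Sum.inl i))) * Jac q J (fun k => t (e (Sum.inr k))) *
          (∏ i : Fin n, ∏ k : Fin J, |2 * Real.sqrt q * Real.cos (t (e (Sum.inl i))) -
          2 * Real.sqrt q * Real.cos (t (e (Sum.inr k)))|)
        ≤ Jac q n (fun i => t (e (Sum.inl i))) * Jac q J (fun k => t (e (Sum.inr k))) * B :=
          mul_le_mul_of_nonneg_left hB (mul_nonneg hn hJ)
      _ = B * Jac q n (fun i => t (e (Sum.inl i))) * Jac q J (fun k => t (e (Sum.inr k))) := by ring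
  · intro s _
    exact inner_slab hq (RP_monic q s).1 (RP_monic q s).2 β ε

end TQ
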