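import Pool.Agent.Lib.MP_021685_agTQ.VD

/-! LEAF V8a (easy+).  The integral of the Jacobian over the ordered angles.

PROOF.  `ofReal (√q^N * |det|) = ofReal (√q^N) * ofReal |det|`, the constant comes out (`lintegral_const_mul'`), and `∫⁻ over ord n of ofReal |det| = ofReal (KK n)` by the definition of `KK` (`ord n` is literally the set there) once the integral is finite (`ENNReal.ofReal_toReal`):
`|det| ≤ n! 2^n` (`Matrix.det_apply`, `Finset.abs_sum_le_sum_abs`, `|2 sin| ≤ 2`), and the volume of `ord n ⊆ Set.pi univ (fun _ => Ioo 0 π)` is at most `π^n < ∞` (`Real.volume_pi_Ioo`). -/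

namespace TQ

open Polynomial TI MeasureTheory

private lemma V8a_det (n : ℕ) (s : Fin n → ℝ) :
    |(Matrix.of fun k j : Fin n => 2 * Real.sin (((k : ℕ) + 1 : ℝ) * s j)).det| ≤ (n.factorial : ℝ) * 2 ^ n := by
  rw [Matrix.det_apply']
  refine (Finset.abs_sum_le_sum_abs _ _).trans ?_
  refine (Finset.sum_le_card_nsmul _ _ (2 ^ n) fun σ _ => ?_).trans ?_
  · have h1 : |(((Equiv.Perm.sign σ : ℤˣ) : ℤ) : ℝ)| = 1 := by
      rcases Int.units_eq_one_or (Equiv.Perm.sign σ) with h | h <;> rw [h] <;> simp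
    rw [abs_mul, h1, one_mul, Finset.abs_prod]
    refine (Finset.prod_le_prod (fun i _ => abs_nonneg _) fun i _ => (?_ :
      |(Matrix.of fun k j : Fin n => 2 * Real.sin (((k : ℕ) + 1 : ℝ) * s j)) (σ i) i| ≤ 2)).trans (le_of_eq ?_)
    · rw [Matrix.of_apply, abs_mul, abs_two]
      have := Real.abs_sin_le_one ((((σ i : Fin n) : ℕ) + 1 : ℝ) * s i)
      linarith
    · rw [Finset.prod_const, Finset.card_univ, Fintype.card_fin]
  · rw [Finset.card_univ, Fintype.card_perm, Fintype.card_fin, nsmul_eq_mul]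

private lemma V8a_fin (n : ℕ) : ∫⁻ s in ord n,
    ENNReal.ofReal |(Matrix.of fun k j : Fin n => 2 * Real.sin (((k : ℕ) + 1 : ℝ) * s j)).det| ≠ ⊤ := by
  have h1 : ∫⁻ s in ord n,
      ENNReal.ofReal |(Matrix.of fun k j : Fin n => 2 * Real.sin (((k : ℕ) + 1 : ℝ) * s j)).det| ≤
      ∫⁻ _ in ord n, ENNReal.ofReal ((n.factorial : ℝ) * 2 ^ n) :=
    lintegral_mono fun s => ENNReal.ofReal_le_ofReal (V8a_det n s)
  rw [setLIntegral_const] at h1
  have h2 : volume (ord n) ≠ ⊤ := by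
    have h3 : ord n ⊆ Set.pi Set.univ fun _ : Fin n => Set.Ioo (0 : ℝ) Real.pi := fun s hs j _ => hs.2 j
    have h4 : volume (Set.pi Set.univ fun _ : Fin n => Set.Ioo (0 : ℝ) Real.pi) ≠ ⊤ := by
      rw [Real.volume_pi_Ioo]
      exact (ENNReal.prod_lt_top fun i _ => ENNReal.ofReal_lt_top).ne
    exact ((measure_mono h3).trans_lt (lt_top_iff_ne_top.2 h4)).ne
  exact (h1.trans_lt (ENNReal.mul_lt_top ENNReal.ofReal_lt_top (lt_top_iff_ne_top.2 h2))).ne

theorem lint_ord (q n : ℕ) :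
    ∫⁻ s in ord n, ENNReal.ofReal (Jac q n s) = ENNReal.ofReal (Real.sqrt q ^ (n * (n + 1) / 2) * KK n) := by
  have h0 : (0 : ℝ) ≤ Real.sqrt q ^ (n * (n + 1) / 2) := pow_nonneg (Real.sqrt_nonneg _) _
  have h1 : ∫⁻ s in ord n, ENNReal.ofReal (Jac q n s) = ∫⁻ s in ord n,
      ENNReal.ofReal (Real.sqrt q ^ (n * (n + 1) / 2)) *
        ENNReal.ofReal |(Matrix.of fun k j : Fin n => 2 * Real.sin (((k : ℕ) + 1 : ℝ) * s j)).det| :=
    lintegral_congr fun s => ENNReal.ofReal_mul h0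
  rw [h1, lintegral_const_mul' _ _ ENNReal.ofReal_ne_top, ENNReal.ofReal_mul h0]
  congr 1
  exact (ENNReal.ofReal_toReal (V8a_fin n)).symm

end TQ
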