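import Pool.Agent.Lib.MP_021685_agTQ.V6
import Pool.Agent.Lib.MP_021685_agTQ.V7
import Pool.Agent.Lib.MP_021685_agTQ.V8a

/-! LEAF V8 (medium): the volume of a slab of the regular set.

PROOF.  `Θ = {t ∈ ord (n + J) | ∃ b, PE q b = RP q t ∧ ∀ l, |b (natAdd n l) - β l| < ε l}`, measurable (`meas_slab`).  The set of the statement is `{b | ∃ t ∈ Θ, PE q b = RP q t}` (`PE_inj`), so by `vol_image` (file V4i) its volume is the integral of the Jacobian over `Θ`.  For `t ∈ Θ` the numbers `x i = 2 √q cos (t i)` are in `[-2√q, 2√q]`,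
so `choose_S` (file V6) gives a set `S` of `n` elements with `∏_{i ∈ S} ∏_{k ∉ S} |x i - x k| ≤ B = (4 (n + J))^J √q^(J n)`; with `e_S = finSumEquivOfFinset (hS : S.card = n) (hSc : Sᶜ.card = J)` the product is the one of `split` (file V7; `Finset.orderEmbOfFin`, `Finset.prod_image`/`Finset.prod_coe_sort`), and `e_S ∘ inl`, `e_S ∘ inr` are strictly increasing.
So `Θ ⊆ ⋃_S Θ_S` over `Finset.powersetCard n univ` (of `(n+J).choose n = (n+J).choose J` elements), and the integral is at most the sum of the integrals over the `Θ_S` (`lintegral_mono_set`, `lintegral_biUnion_finset_le`-style: `MeasureTheory.lintegral_iUnion_le`), each at most `ofReal B * ∏ ofReal (2 ε l) * ofReal (√q^(n(n+1)/2) KK n)` (`split`, `lint_ord`).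
Finally `ofReal` of the product (all factors `≥ 0`; `KK n ≥ 0`: `ENNReal.toReal_nonneg`). -/

namespace TQ

open Polynomial TI MeasureTheory

theorem slab_vol {q n J : ℕ} (hq : 1 ≤ q) (hn : 1 ≤ n) (hJ : 1 ≤ J) (β ε : Fin J → ℝ) (hε : ∀ l, 0 ≤ ε l) :
    volume {b : Fin (n + J) → ℝ | b ∈ Rg q (n + J) ∧ ∀ l : Fin J, |b (Fin.natAdd n l) - β l| < ε l} ≤
      ENNReal.ofReal (((n + J).choose J : ℝ) * (4 * ((n : ℝ) + J)) ^ J * Real.sqrt q ^ (J * n) *
        (∏ l, (2 * ε l)) * (Real.sqrt q ^ (n * (n + 1) / 2) * KK n)) := by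
  classical
  obtain ⟨B, hB⟩ : ∃ B : ℝ, B = (4 * ((n : ℝ) + J)) ^ J * Real.sqrt q ^ (J * n) := ⟨_, rfl⟩
  have hB0 : 0 ≤ B := by
    rw [hB]
    positivity
  obtain ⟨Θ, hΘ⟩ : ∃ Θ : Set (Fin (n + J) → ℝ), Θ = {t : Fin (n + J) → ℝ | t ∈ ord (n + J) ∧
      ∃ b : Fin (n + J) → ℝ, PE q b = RP q t ∧ ∀ l, |b (Fin.natAdd n l) - β l| < ε l} := ⟨_, rfl⟩
  have hmeas : MeasurableSet Θ := by
    rw [hΘ]
    exact meas_slab β ε
  have hord : Θ ⊆ ord (n + J) := by
    rw [hΘ]
    exact fun t ht => ht.1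
  have hstep : volume {b : Fin (n + J) → ℝ | b ∈ Rg q (n + J) ∧ ∀ l : Fin J, |b (Fin.natAdd n l) - β l| < ε l} ≤
      ∫⁻ t in Θ, ENNReal.ofReal (Jac q (n + J) t) := by
    rw [← vol_image hq hmeas hord]
    refine measure_mono ?_
    rintro b ⟨⟨t, ht, hbt⟩, hb⟩
    refine ⟨t, ?_, hbt⟩
    rw [hΘ]
    exact ⟨ht, b, hbt, hb⟩
  refine hstep.trans ?_
  -- the union over the subsets
  obtain ⟨T, hT⟩ : ∃ T : Finset (Fin (n + J)) → Set (Fin (n + J) → ℝ), ∀ S, T S = {t : Fin (n + J) → ℝ | t ∈ Θ ∧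
      ∏ i ∈ S, ∏ k ∈ Sᶜ, |2 * Real.sqrt q * Real.cos (t i) - 2 * Real.sqrt q * Real.cos (t k)| ≤ B} :=
    ⟨_, fun S => rfl⟩
  have hcov : Θ ⊆ ⋃ S : {S // S ∈ Finset.powersetCard n (Finset.univ : Finset (Fin (n + J)))}, T S.1 := by
    intro t ht
    obtain ⟨S, hS, hprod⟩ := choose_S hq hn hJ (fun i => 2 * Real.sqrt q * Real.cos (t i)) (fun i => by
      rw [abs_mul, abs_of_nonneg (by positivity : 0 ≤ 2 * Real.sqrt q)]
      exact mul_le_of_le_one_right (by positivity) (Real.abs_cos_le_one _))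
    rw [Set.mem_iUnion]
    refine ⟨⟨S, hS⟩, ?_⟩
    rw [hT]
    refine ⟨ht, ?_⟩
    rw [hB]
    exact hprod
  have hone : ∀ S ∈ Finset.powersetCard n (Finset.univ : Finset (Fin (n + J))),
      ∫⁻ t in T S, ENNReal.ofReal (Jac q (n + J) t) ≤
        (ENNReal.ofReal B * ∏ l, ENNReal.ofReal (2 * ε l)) *
          ENNReal.ofReal (Real.sqrt q ^ (n * (n + 1) / 2) * KK n) := by
    intro S hS
    have hc : S.card = n := (Finset.mem_powersetCard.1 hS).2
    have hc' : Sᶜ.card = J := by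
      rw [Finset.card_compl, Fintype.card_fin, hc]
      omega
    have h1 := split hq (finSumEquivOfFinset hc hc')
      (fun i j hij => by
        show finSumEquivOfFinset hc hc' (Sum.inl i) < finSumEquivOfFinset hc hc' (Sum.inl j)
        rw [finSumEquivOfFinset_inl, finSumEquivOfFinset_inl]
        exact (S.orderEmbOfFin hc).strictMono hij)
      (fun i j hij => by
        show finSumEquivOfFinset hc hc' (Sum.inr i) < finSumEquivOfFinset hc hc' (Sum.inr j)
        rw [finSumEquivOfFinset_inr, finSumEquivOfFinset_inr]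
        exact (Sᶜ.orderEmbOfFin hc').strictMono hij) (B := B) β ε
    rw [lint_ord] at h1
    refine le_trans (le_of_eq ?_) h1
    have h2 : T S = {t : Fin (n + J) → ℝ | (t ∈ ord (n + J) ∧ ∃ b : Fin (n + J) → ℝ, PE q b = RP q t ∧
        ∀ l, |b (Fin.natAdd n l) - β l| < ε l) ∧
        ∏ i : Fin n, ∏ k : Fin J, |2 * Real.sqrt q * Real.cos (t (finSumEquivOfFinset hc hc' (Sum.inl i))) -
          2 * Real.sqrt q * Real.cos (t (finSumEquivOfFinset hc hc' (Sum.inr k)))| ≤ B} := by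
      rw [hT, hΘ]
      ext t
      have h3 : ∏ i ∈ S, ∏ k ∈ Sᶜ, |2 * Real.sqrt q * Real.cos (t i) - 2 * Real.sqrt q * Real.cos (t k)| =
          ∏ i : Fin n, ∏ k : Fin J, |2 * Real.sqrt q * Real.cos (t (finSumEquivOfFinset hc hc' (Sum.inl i))) -
            2 * Real.sqrt q * Real.cos (t (finSumEquivOfFinset hc hc' (Sum.inr k)))| := by
        have h4 : ∀ i, ∏ k ∈ Sᶜ, |2 * Real.sqrt q * Real.cos (t i) - 2 * Real.sqrt q * Real.cos (t k)| =
            ∏ k : Fin J, |2 * Real.sqrt q * Real.cos (t i) -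
              2 * Real.sqrt q * Real.cos (t (finSumEquivOfFinset hc hc' (Sum.inr k)))| := by
          intro i
          have h5 := Finset.prod_map Finset.univ (Sᶜ.orderEmbOfFin hc').toEmbedding
            (fun k => |2 * Real.sqrt q * Real.cos (t i) - 2 * Real.sqrt q * Real.cos (t k)|)
          rw [Finset.map_orderEmbOfFin_univ] at h5
          rw [h5]
          refine Finset.prod_congr rfl fun k _ => ?_
          rw [finSumEquivOfFinset_inr]
          rfl
        rw [Finset.prod_congr rfl fun i _ => h4 i]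
        have h5 := Finset.prod_map Finset.univ (S.orderEmbOfFin hc).toEmbedding
          (fun i => ∏ k : Fin J, |2 * Real.sqrt q * Real.cos (t i) -
              2 * Real.sqrt q * Real.cos (t (finSumEquivOfFinset hc hc' (Sum.inr k)))|)
        rw [Finset.map_orderEmbOfFin_univ] at h5
        rw [h5]
        refine Finset.prod_congr rfl fun i _ => ?_
        rw [finSumEquivOfFinset_inl]
        rfl
      rw [Set.mem_ofPred_eq, Set.mem_ofPred_eq, Set.mem_ofPred_eq, h3]
    rw [h2]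
  calc ∫⁻ t in Θ, ENNReal.ofReal (Jac q (n + J) t)
      ≤ ∫⁻ t in ⋃ S : {S // S ∈ Finset.powersetCard n (Finset.univ : Finset (Fin (n + J)))}, T S.1,
          ENNReal.ofReal (Jac q (n + J) t) := lintegral_mono_set hcov
    _ ≤ ∑' S : {S // S ∈ Finset.powersetCard n (Finset.univ : Finset (Fin (n + J)))},
          ∫⁻ t in T S.1, ENNReal.ofReal (Jac q (n + J) t) := lintegral_iUnion_le _ _
    _ = ∑ S : {S // S ∈ Finset.powersetCard n (Finset.univ : Finset (Fin (n + J)))},
          ∫⁻ t in T S.1, ENNReal.ofReal (Jac q (n + J) t) := tsum_fintype _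
    _ ≤ ∑ _S : {S // S ∈ Finset.powersetCard n (Finset.univ : Finset (Fin (n + J)))},
          (ENNReal.ofReal B * ∏ l, ENNReal.ofReal (2 * ε l)) *
            ENNReal.ofReal (Real.sqrt q ^ (n * (n + 1) / 2) * KK n) :=
        Finset.sum_le_sum fun S _ => hone S.1 S.2
    _ = ENNReal.ofReal (((n + J).choose J : ℝ) * (4 * ((n : ℝ) + J)) ^ J * Real.sqrt q ^ (J * n) *
        (∏ l, (2 * ε l)) * (Real.sqrt q ^ (n * (n + 1) / 2) * KK n)) := by
        have h6 : Fintype.card {S // S ∈ Finset.powersetCard n (Finset.univ : Finset (Fin (n + J)))} =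
            (n + J).choose J := by
          rw [Fintype.card_coe, Finset.card_powersetCard, Finset.card_univ, Fintype.card_fin,
            ← Nat.choose_symm_add]
        have hp : 0 ≤ ∏ l, (2 * ε l) := Finset.prod_nonneg fun l _ => mul_nonneg zero_le_two (hε l)
        rw [Finset.sum_const, Finset.card_univ, h6, nsmul_eq_mul,
          ← ENNReal.ofReal_prod_of_nonneg fun l _ => mul_nonneg zero_le_two (hε l),
          ← ENNReal.ofReal_mul hB0, ← ENNReal.ofReal_mul (mul_nonneg hB0 hp), ← ENNReal.ofReal_natCast,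
          ← ENNReal.ofReal_mul (Nat.cast_nonneg _), hB]
        congr 1
        ring

end TQ
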