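import Pool.Agent.Lib.MP_021685_agTQ.ML
import Pool.Agent.Lib.MP_021685_agTJ.JB3

/-! Block VOL: definitions. -/

namespace TQ

open Polynomial TI

/-- the real Dickson polynomial of degree `i` -/
noncomputable def DD (q i : ℕ) : ℝ[X] := (bas q i).map (Int.castRingHom ℝ)

/-- the monic polynomial of degree `g` with the coordinates `b` -/
noncomputable def PE (q : ℕ) {g : ℕ} (b : Fin g → ℝ) : ℝ[X] := DD q g + ∑ i : Fin g, C (b i) * DD q i

/-- ordered angles -/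
def ord (n : ℕ) : Set (Fin n → ℝ) := {t | StrictMono t ∧ ∀ j, t j ∈ Set.Ioo 0 Real.pi}

/-- `∏ (X - 2 √q cos t_j)` -/
noncomputable def RP (q : ℕ) {n : ℕ} (t : Fin n → ℝ) : ℝ[X] :=
  ∏ j, (X - C (2 * Real.sqrt q * Real.cos (t j)))

/-- the regular set: the coordinates of the polynomials with `g` different zeros in `(-2√q, 2√q)` -/
def Rg (q g : ℕ) : Set (Fin g → ℝ) := {b | ∃ t ∈ ord g, PE q b = RP q t}

/-- the Jacobian of the map from the angles to the coordinates -/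
noncomputable def Jac (q n : ℕ) (t : Fin n → ℝ) : ℝ :=
  Real.sqrt q ^ (n * (n + 1) / 2) * |(Matrix.of fun k j : Fin n => 2 * Real.sin (((k : ℕ) + 1 : ℝ) * t j)).det|

/-- the half sides of the boxes: `1/2` for `2 ≤ i < g - J`, `(1/2) √q ^ (g - J - i)` otherwise -/
noncomputable def eta (q g J i : ℕ) : ℝ :=
  if 2 ≤ i ∧ i < g - J then 1 / 2 else 1 / 2 * Real.sqrt q ^ (((g : ℤ) - J - i : ℤ))

/-- `1 + z^(2g) + ∑ b_i √q^(i-g) (z^(g-i) + z^(g+i)) + b_0 √q^(-g) z^g` -/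
noncomputable def Pb (q : ℕ) {g : ℕ} (b : Fin g → ℝ) (z : ℂ) : ℂ :=
  1 + z ^ (2 * g) + ∑ i : Fin g, ((b i : ℂ) * ((Real.sqrt q : ℝ) : ℂ) ^ (((i : ℕ) : ℤ) - (g : ℤ))) *
    (if (i : ℕ) = 0 then z ^ g else z ^ (g - (i : ℕ)) + z ^ (g + (i : ℕ)))

end TQ
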