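import Pool.Agent.Lib.MP_021685_agTQ.VD

/-! LEAF VE (easy+).  Coordinates in the Dickson basis.

PROOF.  `DD q i` is monic of degree `i`: `TI.bas_monic` (file TI/B0.lean) and `Monic.map`, `Monic.natDegree_map`.  `PE_monic`: the sum has degree `< g` (`degree_sum_lt`, `Monic.add_of_left`; `natDegree_add_eq_left_of_natDegree_lt`).
`PE_surj`: strong induction on `g` for the statement: every polynomial of degree `< g` is `∑ i : Fin g, C (b i) * DD q i` (subtract `C (coeff (g-1)) * DD q (g-1)` and use the induction hypothesis, `Fin.snoc`, `Fin.sum_univ_castSucc`); apply it to `P - DD q g` (degree `< g`: both monic of degree `g`, `degree_sub_lt`).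
`PE_inj`: the difference `∑ C (b i - b' i) * DD q i = 0`; the largest `i` with `b i ≠ b' i` gives a nonzero leading coefficient (or induction on `g` with `Fin.sum_univ_castSucc`: coefficient of `X^(g-1)`; the model is `TI.bas_inj`, file TI/B0.lean).
`RP_monic`: `monic_prod_of_monic`, `natDegree_prod_of_monic`. -/

namespace TQ

open Polynomial TI

theorem DD_monic (q i : ℕ) : (DD q i).Monic ∧ (DD q i).natDegree = i := by
  obtain ⟨h1, h2⟩ := bas_monic q i
  unfold DD
  exact ⟨h1.map _, by rw [h1.natDegree_map, h2]⟩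

private theorem VE_top (q i : ℕ) : (DD q i).coeff i = 1 := by
  have h := (DD_monic q i).1
  have h2 := (DD_monic q i).2
  unfold Polynomial.Monic Polynomial.leadingCoeff at h
  rw [h2] at h
  exact h

private theorem VE_hi (q i m : ℕ) (h : i < m) : (DD q i).coeff m = 0 :=
  coeff_eq_zero_of_natDegree_lt (by rw [(DD_monic q i).2]; exact h)

private theorem VE_low (q : ℕ) {g : ℕ} (b : Fin g → ℝ) (m : ℕ) (hm : g ≤ m) :
    (∑ i : Fin g, C (b i) * DD q i).coeff m = 0 := by
  rw [finsetSum_coeff]
  refine Finset.sum_eq_zero fun i _ => ?_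
  rw [coeff_C_mul, VE_hi q i m (lt_of_lt_of_le i.2 hm), mul_zero]

private theorem VE_deg (q : ℕ) {g : ℕ} (b : Fin g → ℝ) :
    (∑ i : Fin g, C (b i) * DD q i).degree < (DD q g).degree := by
  rw [degree_eq_natDegree (DD_monic q g).1.ne_zero, (DD_monic q g).2, degree_lt_iff_coeff_zero]
  exact fun m hm => VE_low q b m hm

theorem PE_monic (q : ℕ) {g : ℕ} (b : Fin g → ℝ) : (PE q b).Monic ∧ (PE q b).natDegree = g := by
  unfold PE
  refine ⟨(DD_monic q g).1.add_of_left (VE_deg q b), ?_⟩
  rw [natDegree_add_eq_left_of_degree_lt (VE_deg q b), (DD_monic q g).2]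

private theorem VE_span (q : ℕ) : ∀ (g : ℕ) (P : ℝ[X]), (∀ m, g ≤ m → P.coeff m = 0) →
    ∃ b : Fin g → ℝ, ∑ i : Fin g, C (b i) * DD q i = P := by
  intro g
  induction g with
  | zero =>
    intro P hP
    refine ⟨Fin.elim0, ?_⟩
    rw [Finset.univ_eq_empty, Finset.sum_empty]
    ext m
    rw [hP m (Nat.zero_le m), coeff_zero]
  | succ g ih =>
    intro P hP
    obtain ⟨b, hb⟩ := ih (P - C (P.coeff g) * DD q g) (by
      intro m hm
      rw [coeff_sub, coeff_C_mul]
      rcases hm.eq_or_lt with h | h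
      · rw [← h, VE_top, mul_one, sub_self]
      · rw [hP m h, VE_hi q g m h, mul_zero, sub_zero])
    refine ⟨Fin.snoc b (P.coeff g), ?_⟩
    rw [Fin.sum_univ_castSucc]
    simp only [Fin.snoc_castSucc, Fin.snoc_last, Fin.val_castSucc, Fin.val_last]
    rw [hb, sub_add_cancel]

theorem PE_surj (q : ℕ) {g : ℕ} {P : ℝ[X]} (hm : P.Monic) (hd : P.natDegree = g) :
    ∃ b : Fin g → ℝ, PE q b = P := by
  obtain ⟨b, hb⟩ := VE_span q g (P - DD q g) (by
    intro m h
    rw [coeff_sub]
    rcases h.eq_or_lt with h | h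
    · have h1 : P.coeff g = 1 := by
        unfold Polynomial.Monic Polynomial.leadingCoeff at hm
        rw [hd] at hm
        exact hm
      rw [← h, VE_top, h1, sub_self]
    · rw [VE_hi q g m h, coeff_eq_zero_of_natDegree_lt (by rw [hd]; exact h), sub_zero])
  refine ⟨b, ?_⟩
  unfold PE
  rw [hb, add_sub_cancel]

private theorem VE_inj (q : ℕ) : ∀ (g : ℕ) (b b' : Fin g → ℝ),
    ∑ i : Fin g, C (b i) * DD q i = ∑ i : Fin g, C (b' i) * DD q i → b = b' := by
  intro g
  induction g with
  | zero =>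
    intro b b' _
    funext i
    exact i.elim0
  | succ g ih =>
    intro b b' h
    rw [Fin.sum_univ_castSucc, Fin.sum_univ_castSucc] at h
    simp only [Fin.val_castSucc, Fin.val_last] at h
    have h1 := congrArg (fun p : ℝ[X] => p.coeff g) h
    simp only [coeff_add, coeff_C_mul] at h1
    rw [VE_low q (fun i : Fin g => b i.castSucc) g le_rfl,
      VE_low q (fun i : Fin g => b' i.castSucc) g le_rfl, VE_top, mul_one, mul_one, zero_add,
      zero_add] at h1
    rw [h1] at h
    have h2 := ih (fun i => b i.castSucc) (fun i => b' i.castSucc) (add_right_cancel h)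
    funext i
    refine Fin.lastCases h1 (fun j => ?_) i
    exact congrFun h2 j

theorem PE_inj {q g : ℕ} {b b' : Fin g → ℝ} (h : PE q b = PE q b') : b = b' := by
  unfold PE at h
  exact VE_inj q g b b' (add_left_cancel h)

theorem RP_monic (q : ℕ) {n : ℕ} (t : Fin n → ℝ) : (RP q t).Monic ∧ (RP q t).natDegree = n := by
  unfold RP
  refine ⟨monic_prod_of_monic _ _ fun j _ => monic_X_sub_C _, ?_⟩
  rw [natDegree_prod_of_monic _ _ fun j _ => monic_X_sub_C _]
  simp only [natDegree_X_sub_C]
  rw [Finset.sum_const, Finset.card_univ, Fintype.card_fin, smul_eq_mul, mul_one]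

end TQ
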