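import Mathlib

/-! LEAF W4 (medium, Mathlib only).  A continuous argument.

PROOF.  Let `Q = P.map (algebraMap ℝ ℂ)`, `m` the multiset of its roots; `0` is not a root.  `Q = C lead * ∏_(w ∈ m) (X - C w)` (`IsAlgClosed.splits`, `Polynomial.Splits.eq_prod_roots`), at `0`: `1 = lead * ∏ (-w)`, so for all `z`: `aeval z P = Q.eval z = ∏_(w ∈ m) (1 - z / w)`
(`P ≠ 0` because `P.eval 0 = 1`; `aeval z P = Q.eval z` is `Polynomial.aeval_def`, `eval_map`).  All `w ∈ m` have `‖w‖ > exp (-D)`, so for `‖z‖ = exp (-D)`: `‖z / w‖ < 1`, `(1 - z / w).re > 0`.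
`ψ t = ∑_(w ∈ m) arg (1 - exp (t I - D) / w)`: continuous (`Complex.continuousAt_arg`, `Complex.mem_slitPlane_iff`; for the sum over the multiset use induction on the multiset: state a lemma `for all multisets m of nonzero w with ‖w‖ > exp (-D) the function is continuous and ∏ (1 - z / w) = ‖∏‖ * exp (ψ t I)` (`Complex.norm_mul_exp_arg_mul_I`)).
`ψ 0 = 0`: `exp (0 - D) = r` is real; `Q.map (starRingEnd ℂ) = Q`, so `m.map (starRingEnd ℂ) = m` (`Polynomial.Splits.roots_map` or `Polynomial.roots_map`), so `ψ 0 = ∑ arg (1 - r / conj w) = ∑ arg (conj (1 - r / w)) = - ψ 0` (`Complex.arg_conj`, `arg ≠ π` because the real part is positive).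
`ψ π = 0`: the same with `exp (π I - D) = - r` (`Complex.exp_pi_mul_I`). -/

namespace TQ

open Polynomial

private theorem W4_re {z w : ℂ} (h : ‖z‖ < ‖w‖) : 0 < (1 - z / w).re := by
  have hw : 0 < ‖w‖ := lt_of_le_of_lt (norm_nonneg _) h
  have h1 : ‖z / w‖ < 1 := by
    rw [norm_div, div_lt_one hw]
    exact h
  have h2 : (z / w).re ≤ ‖z / w‖ := (le_abs_self _).trans (Complex.abs_re_le_norm _)
  rw [Complex.sub_re, Complex.one_re]
  linarith

private theorem W4_prod (z : ℂ) (m : Multiset ℂ) : (m.map (fun w => 1 - z / w)).prod =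
    (‖(m.map (fun w => 1 - z / w)).prod‖ : ℂ) *
      Complex.exp ((((m.map (fun w => Complex.arg (1 - z / w))).sum : ℝ) : ℂ) * Complex.I) := by
  induction m using Multiset.induction_on with
  | empty =>
    rw [Multiset.map_zero, Multiset.map_zero, Multiset.prod_zero, Multiset.sum_zero, norm_one,
      Complex.ofReal_zero, zero_mul, Complex.exp_zero, Complex.ofReal_one, one_mul]
  | cons a m ih =>
    rw [Multiset.map_cons, Multiset.map_cons, Multiset.prod_cons, Multiset.sum_cons, norm_mul,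
      Complex.ofReal_mul, Complex.ofReal_add, add_mul, Complex.exp_add]
    have h1 := Complex.norm_mul_exp_arg_mul_I (1 - z / a)
    generalize (m.map (fun w => 1 - z / w)).prod = B at ih ⊢
    generalize (m.map (fun w => Complex.arg (1 - z / w))).sum = c at ih ⊢
    calc (1 - z / a) * B = ((‖1 - z / a‖ : ℂ) * Complex.exp ((Complex.arg (1 - z / a) : ℂ) * Complex.I)) *
          ((‖B‖ : ℂ) * Complex.exp ((c : ℂ) * Complex.I)) := by rw [h1, ← ih]
      _ = _ := by ring

private theorem W4_zero (m : Multiset ℂ) (hm : m.map (starRingEnd ℂ) = m) (r : ℝ)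
    (hr : ∀ w ∈ m, ‖(r : ℂ)‖ < ‖w‖) : (m.map (fun w => Complex.arg (1 - (r : ℂ) / w))).sum = 0 := by
  have h1 : (m.map (fun w => Complex.arg (1 - (r : ℂ) / w))).sum =
      -(m.map (fun w => Complex.arg (1 - (r : ℂ) / w))).sum := by
    have h2 : (m.map (fun w => Complex.arg (1 - (r : ℂ) / w))) =
        m.map (fun w => -Complex.arg (1 - (r : ℂ) / w)) := by
      calc (m.map (fun w => Complex.arg (1 - (r : ℂ) / w))) =
            ((m.map (starRingEnd ℂ)).map (fun w => Complex.arg (1 - (r : ℂ) / w))) := by rw [hm]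
        _ = m.map (fun w => -Complex.arg (1 - (r : ℂ) / w)) := by
          rw [Multiset.map_map]
          refine Multiset.map_congr rfl fun w hw => ?_
          have h3 : 1 - (r : ℂ) / (starRingEnd ℂ) w = (starRingEnd ℂ) (1 - (r : ℂ) / w) := by
            rw [map_sub, map_one, map_div₀, Complex.conj_ofReal]
          have h4 : Complex.arg (1 - (r : ℂ) / w) ≠ Real.pi := by
            intro h
            have h5 := (Complex.arg_eq_pi_iff.1 h).1
            have h6 := W4_re (hr w hw)
            linarith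
          rw [Function.comp_apply, h3, Complex.arg_conj, if_neg h4]
    exact (congrArg Multiset.sum h2).trans Multiset.sum_map_neg
  linarith

private theorem W4_cont (m : Multiset ℂ) (D : ℝ) (hm : ∀ w ∈ m, Real.exp (-D) < ‖w‖) :
    Continuous fun t : ℝ => (m.map (fun w => Complex.arg
      (1 - Complex.exp ((t : ℂ) * Complex.I - (D : ℂ)) / w))).sum := by
  refine continuous_multiset_sum m fun w hw => ?_
  rw [continuous_iff_continuousAt]
  intro t
  have hn : ‖Complex.exp ((t : ℂ) * Complex.I - (D : ℂ))‖ = Real.exp (-D) := by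
    have h0 : ((t : ℂ) * Complex.I - (D : ℂ)).re = -D := by simp
    rw [Complex.norm_exp, h0]
  have h1 : (1 - Complex.exp ((t : ℂ) * Complex.I - (D : ℂ)) / w) ∈ Complex.slitPlane := by
    refine Complex.mem_slitPlane_iff.2 (Or.inl (W4_re ?_))
    rw [hn]
    exact hm w hw
  have h2 : Continuous fun t : ℝ => 1 - Complex.exp ((t : ℂ) * Complex.I - (D : ℂ)) / w := by
    fun_prop
  exact ContinuousAt.comp (f := fun t : ℝ => 1 - Complex.exp ((t : ℂ) * Complex.I - (D : ℂ)) / w)
    (g := Complex.arg) (Complex.continuousAt_arg h1) h2.continuousAt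

theorem exists_psi (P : ℝ[X]) (h0 : P.eval 0 = 1) (D : ℝ) (hz : ∀ z : ℂ, ‖z‖ ≤ Real.exp (-D) → aeval z P ≠ 0) :
    ∃ ψ : ℝ → ℝ, Continuous ψ ∧ ψ 0 = 0 ∧ ψ Real.pi = 0 ∧ ∀ t : ℝ,
      aeval (Complex.exp ((t : ℂ) * Complex.I - (D : ℂ))) P =
        (‖aeval (Complex.exp ((t : ℂ) * Complex.I - (D : ℂ))) P‖ : ℂ) * Complex.exp ((ψ t : ℂ) * Complex.I) := by
  have hev : ∀ z : ℂ, aeval z P = (P.map (algebraMap ℝ ℂ)).eval z := by
    intro z
    rw [aeval_def, eval_map]
  have hs : (P.map (algebraMap ℝ ℂ)).Splits := IsAlgClosed.splits _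
  have hQ0 : P.map (algebraMap ℝ ℂ) ≠ 0 := by
    intro h
    have h1 : P = 0 := (Polynomial.map_eq_zero _).1 h
    rw [h1, eval_zero] at h0
    exact zero_ne_one h0
  have hbig : ∀ w ∈ (P.map (algebraMap ℝ ℂ)).roots, Real.exp (-D) < ‖w‖ := by
    intro w hw
    by_contra hcon
    rw [not_lt] at hcon
    refine hz w hcon ?_
    rw [hev]
    exact ((Polynomial.mem_roots hQ0).1 hw)
  have hne : ∀ w ∈ (P.map (algebraMap ℝ ℂ)).roots, w ≠ 0 := by
    intro w hw h
    have h1 := hbig w hw
    rw [h, norm_zero] at h1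
    exact absurd h1 (not_lt.2 (Real.exp_pos _).le)
  have hprod : ∀ z : ℂ, (P.map (algebraMap ℝ ℂ)).eval z = (P.map (algebraMap ℝ ℂ)).leadingCoeff *
      ((P.map (algebraMap ℝ ℂ)).roots.map (fun w => z - w)).prod := by
    intro z
    have h1 := congrArg (eval z) hs.eq_prod_roots
    rw [eval_mul, eval_C, eval_multiset_prod, Multiset.map_map] at h1
    rw [h1]
    refine congrArg _ (congrArg _ (Multiset.map_congr rfl fun w _ => ?_))
    rw [Function.comp_apply, eval_sub, eval_X, eval_C]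
  have hone : (1 : ℂ) = (P.map (algebraMap ℝ ℂ)).leadingCoeff *
      ((P.map (algebraMap ℝ ℂ)).roots.map (fun w => 0 - w)).prod := by
    rw [← hprod 0, ← map_zero (algebraMap ℝ ℂ), eval_map_algebraMap, aeval_algebraMap_apply,
      coe_aeval_eq_eval, h0, map_one]
  have hval : ∀ z : ℂ, aeval z P =
      ((P.map (algebraMap ℝ ℂ)).roots.map (fun w => 1 - z / w)).prod := by
    intro z
    have h1 : ((P.map (algebraMap ℝ ℂ)).roots.map (fun w => z - w)).prod =
        ((P.map (algebraMap ℝ ℂ)).roots.map (fun w => 0 - w)).prod *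
          ((P.map (algebraMap ℝ ℂ)).roots.map (fun w => 1 - z / w)).prod := by
      rw [← Multiset.prod_map_mul]
      refine congrArg _ (Multiset.map_congr rfl fun w hw => ?_)
      have h2 := hne w hw
      field_simp
      ring
    rw [hev, hprod, h1, ← mul_assoc, ← hone, one_mul]
  have hconj : (P.map (algebraMap ℝ ℂ)).roots.map (starRingEnd ℂ) = (P.map (algebraMap ℝ ℂ)).roots := by
    rw [← hs.roots_map (starRingEnd ℂ), Polynomial.map_map]
    have h1 : (starRingEnd ℂ).comp (algebraMap ℝ ℂ) = algebraMap ℝ ℂ := by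
      ext x
      exact Complex.conj_ofReal x
    rw [h1]
  refine ⟨fun t => ((P.map (algebraMap ℝ ℂ)).roots.map (fun w => Complex.arg
      (1 - Complex.exp ((t : ℂ) * Complex.I - (D : ℂ)) / w))).sum, W4_cont _ D hbig, ?_, ?_, ?_⟩
  · have h1 : Complex.exp (((0 : ℝ) : ℂ) * Complex.I - (D : ℂ)) = ((Real.exp (-D) : ℝ) : ℂ) := by
      rw [Complex.ofReal_exp, Complex.ofReal_zero, zero_mul, zero_sub, Complex.ofReal_neg]
    show ((P.map (algebraMap ℝ ℂ)).roots.map (fun w => Complex.arg
      (1 - Complex.exp (((0 : ℝ) : ℂ) * Complex.I - (D : ℂ)) / w))).sum = 0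
    rw [h1]
    refine W4_zero _ hconj _ fun w hw => ?_
    rw [Complex.norm_real, Real.norm_of_nonneg (Real.exp_pos _).le]
    exact hbig w hw
  · have h1 : Complex.exp (((Real.pi : ℝ) : ℂ) * Complex.I - (D : ℂ)) = ((-Real.exp (-D) : ℝ) : ℂ) := by
      rw [Complex.exp_sub, Complex.exp_pi_mul_I, Complex.ofReal_neg, Real.exp_neg, Complex.ofReal_inv,
        Complex.ofReal_exp, neg_div, one_div]
    show ((P.map (algebraMap ℝ ℂ)).roots.map (fun w => Complex.arg
      (1 - Complex.exp (((Real.pi : ℝ) : ℂ) * Complex.I - (D : ℂ)) / w))).sum = 0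
    rw [h1]
    refine W4_zero _ hconj _ fun w hw => ?_
    rw [Complex.norm_real, norm_neg, Real.norm_of_nonneg (Real.exp_pos _).le]
    exact hbig w hw
  · intro t
    rw [hval]
    exact W4_prod _ _

end TQ
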