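import Mathlib

/-! LEAF W5 (easy+, Mathlib only).  Points where the phase is a multiple of `π`.

PROOF.  For `k ≤ g` the set `A_k = {t ∈ [0, π] | g t - ψ t = k π}` is compact and not empty: `g 0 - ψ 0 = 0 ≤ k π ≤ g π = g π - ψ π`, intermediate value theorem (`intermediate_value_Icc`).  Let `t_k` be its least element (`IsCompact.exists_isLeast`).
`t_k < t_(k+1)`: on `[0, t_(k+1)]` the function goes from `0` to `(k+1) π`, so it takes the value `k π` at some `t ≤ t_(k+1)`, so `t_k ≤ t ≤ t_(k+1)`, and `t_k ≠ t_(k+1)` because the values differ.  `Fin.strictMono_iff_lt_succ`. -/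

namespace TQ

theorem exists_phases (g : ℕ) (ψ : ℝ → ℝ) (hc : Continuous ψ) (h0 : ψ 0 = 0) (hπ : ψ Real.pi = 0) :
    ∃ t : Fin (g + 1) → ℝ, StrictMono t ∧ (∀ k, t k ∈ Set.Icc 0 Real.pi) ∧
      ∀ k, (g : ℝ) * t k - ψ (t k) = ((k : ℕ) : ℝ) * Real.pi := by
  have hpi := Real.pi_pos
  obtain ⟨f, hf⟩ : ∃ f : ℝ → ℝ, f = fun t => (g : ℝ) * t - ψ t := ⟨_, rfl⟩
  have hfc : Continuous f := by
    rw [hf]
    exact (continuous_const.mul continuous_id).sub hc
  have hf0 : f 0 = 0 := by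
    rw [hf]
    simp only [mul_zero, h0, sub_zero]
  have hfπ : f Real.pi = (g : ℝ) * Real.pi := by
    rw [hf]
    simp only [hπ, sub_zero]
  have hcomp : ∀ k : ℕ, IsCompact (Set.Icc 0 Real.pi ∩ f ⁻¹' {(k : ℝ) * Real.pi}) := fun k =>
    isCompact_Icc.inter_right (isClosed_singleton.preimage hfc)
  have hne : ∀ k : Fin (g + 1), (Set.Icc 0 Real.pi ∩ f ⁻¹' {((k : ℕ) : ℝ) * Real.pi}).Nonempty := by
    intro k
    have hk : ((k : ℕ) : ℝ) ≤ g := by exact_mod_cast Nat.lt_succ_iff.mp k.isLt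
    have h1 : ((k : ℕ) : ℝ) * Real.pi ∈ Set.Icc (f 0) (f Real.pi) := by
      rw [hf0, hfπ]
      exact ⟨by positivity, mul_le_mul_of_nonneg_right hk hpi.le⟩
    obtain ⟨x, hx, hx'⟩ := intermediate_value_Icc hpi.le hfc.continuousOn h1
    exact ⟨x, hx, hx'⟩
  choose t ht using fun k : Fin (g + 1) => (hcomp (k : ℕ)).exists_isLeast (hne k)
  have hmem : ∀ k, t k ∈ Set.Icc 0 Real.pi := fun k => (ht k).1.1
  have hval : ∀ k, f (t k) = ((k : ℕ) : ℝ) * Real.pi := fun k => (ht k).1.2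
  refine ⟨t, Fin.strictMono_iff_lt_succ.mpr fun i => ?_, hmem, fun k => ?_⟩
  · have h1 : ((i : ℕ) : ℝ) * Real.pi ∈ Set.Icc (f 0) (f (t i.succ)) := by
      rw [hf0, hval]
      refine ⟨by positivity, mul_le_mul_of_nonneg_right ?_ hpi.le⟩
      simp only [Fin.val_succ]
      push_cast
      linarith
    obtain ⟨x, hx, hx'⟩ := intermediate_value_Icc (hmem i.succ).1 hfc.continuousOn h1
    have h2 : t i.castSucc ≤ x := (ht i.castSucc).2 ⟨⟨hx.1, hx.2.trans (hmem i.succ).2⟩, hx'⟩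
    refine lt_of_le_of_ne (h2.trans hx.2) fun he => ?_
    have h3 := hval i.castSucc
    have h4 := hval i.succ
    rw [he, h4] at h3
    simp only [Fin.val_succ, Fin.val_castSucc] at h3
    push_cast at h3
    have h5 : Real.pi = 0 := by linarith
    exact absurd h5 hpi.ne'
  · have h1 := hval k
    rw [hf] at h1
    exact h1

end TQ
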