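import Pool.Agent.Lib.MP_021685_agTQ.UD

/-! LEAF W6 (medium-).  Alternating values give real zeros.

PROOF.  `G t = P.eval (2 √q cos t)` is continuous; for each `k : Fin g` the values at `t_k` and `t_(k+1)` have opposite signs, so there is a zero `θ_k` in the open interval `(t_k, t_(k+1))` (`intermediate_value_Ioo` / `Ioo'`, or `mem_image_Ioo..`; a zero in the closed interval is enough since the values at the ends are not zero).
`θ` is strictly monotone with values in `(0, π)`; the numbers `2 √q cos θ_k` are different (`Real.injOn_cos`, `√q > 0`).  `P` and `RP q θ` are monic of degree `g` (`monic_prod_of_monic`, `natDegree_prod_of_monic`), they agree (both vanish) at the `g` different points, so they are equal: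
`Polynomial.eq_of_degree_sub_lt_of_eval_index_eq` (the difference has degree `< g`: `degree_sub_lt`) or count the roots (`Polynomial.card_roots'`). -/

namespace TQ

open Polynomial TI

theorem exists_ord {q : ℕ} (hq : 1 ≤ q) {g : ℕ} (hg : 1 ≤ g) {P : ℝ[X]} (hm : P.Monic) (hd : P.natDegree = g)
    {t : Fin (g + 1) → ℝ} (ht : StrictMono t) (h : ∀ k, t k ∈ Set.Icc 0 Real.pi)
    (hs : ∀ k : Fin (g + 1), 0 < (-1) ^ (k : ℕ) * P.eval (2 * Real.sqrt q * Real.cos (t k))) :
    ∃ θ ∈ ord g, P = RP q θ := by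
  classical
  have hsq : 0 < Real.sqrt q := Real.sqrt_pos.2 (by exact_mod_cast hq)
  have hcont : Continuous fun s : ℝ => P.eval (2 * Real.sqrt q * Real.cos s) :=
    P.continuous.comp (continuous_const.mul Real.continuous_cos)
  have hex : ∀ k : Fin g, ∃ s ∈ Set.Ioo (t k.castSucc) (t k.succ), P.eval (2 * Real.sqrt q * Real.cos s) = 0 := by
    intro k
    have h1 := hs k.castSucc
    have h2 := hs k.succ
    rw [Fin.val_castSucc] at h1
    rw [Fin.val_succ, pow_succ] at h2
    have hlt : t k.castSucc < t k.succ := ht Fin.castSucc_lt_succ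
    have h3 := intermediate_value_Ioo' hlt.le
      ((continuous_const.mul hcont : Continuous fun s : ℝ => (-1) ^ (k : ℕ) *
        P.eval (2 * Real.sqrt q * Real.cos s)).continuousOn)
    have h4 : (0 : ℝ) ∈ Set.Ioo ((-1) ^ (k : ℕ) * P.eval (2 * Real.sqrt q * Real.cos (t k.succ)))
        ((-1) ^ (k : ℕ) * P.eval (2 * Real.sqrt q * Real.cos (t k.castSucc))) := by
      refine ⟨?_, h1⟩
      linarith
    obtain ⟨s, hs1, hs2⟩ := h3 h4
    refine ⟨s, hs1, ?_⟩
    exact (mul_eq_zero.1 hs2).resolve_left (pow_ne_zero _ (neg_ne_zero.2 one_ne_zero))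
  choose θ hθ1 hθ2 using hex
  have hmono : StrictMono θ := by
    intro k l hkl
    have h1 : t k.succ ≤ t l.castSucc := ht.monotone (by
      rw [Fin.le_def, Fin.val_succ, Fin.val_castSucc]
      exact hkl)
    exact (hθ1 k).2.trans_le (h1.trans (hθ1 l).1.le)
  have hIoo : ∀ j, θ j ∈ Set.Ioo 0 Real.pi := fun j =>
    ⟨lt_of_le_of_lt (h j.castSucc).1 (hθ1 j).1, lt_of_lt_of_le (hθ1 j).2 (h j.succ).2⟩
  have hinj : Function.Injective fun j : Fin g => 2 * Real.sqrt q * Real.cos (θ j) := by
    intro j l hjl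
    have h1 : Real.cos (θ j) = Real.cos (θ l) := mul_left_cancel₀ (by positivity) hjl
    exact hmono.injective (Real.injOn_cos ⟨(hIoo j).1.le, (hIoo j).2.le⟩ ⟨(hIoo l).1.le, (hIoo l).2.le⟩ h1)
  refine ⟨θ, ⟨hmono, hIoo⟩, ?_⟩
  have hdvd : RP q θ ∣ P := by
    unfold RP
    refine Finset.prod_dvd_of_coprime (fun i _ j _ hij => pairwise_coprime_X_sub_C hinj hij) fun j _ => ?_
    exact dvd_iff_isRoot.2 (hθ2 j)
  have hmon : (RP q θ).Monic := by
    unfold RP
    exact monic_prod_of_monic _ _ fun j _ => monic_X_sub_C _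
  have hdeg : (RP q θ).natDegree = g := by
    unfold RP
    rw [natDegree_prod_of_monic _ _ fun j _ => monic_X_sub_C _]
    simp only [natDegree_X_sub_C, Finset.sum_const, Finset.card_univ, Fintype.card_fin, smul_eq_mul, mul_one]
  exact eq_of_monic_of_dvd_of_natDegree_le hmon hm hdvd (by rw [hd, hdeg])

end TQ
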