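import Pool.Agent.Lib.MP_021685_agTQ.W3
import Pool.Agent.Lib.MP_021685_agTQ.W4
import Pool.Agent.Lib.MP_021685_agTQ.W5
import Pool.Agent.Lib.MP_021685_agTQ.W6
import Pool.Agent.Lib.MP_021685_agTQ.VE

/-! LEAF W7 (medium, assembly).  Averaging makes all zeros real.

PROOF.  (1) `aeval_PbP`: unfold, `map_add`, `map_sum`, `aeval_C`, split on `i = 0`; `eval_PbP`: at `0` every power has exponent `≥ 1`.
(2) `avg_mem`: `exists_psi` for `PbP q b` gives `ψ`; `exists_phases` gives `t`.  `b' i = cosh (i D) / cosh (g D) * b i`; `PE_monic` for `PE q b'`.  By `re_eval` at `t = t_k`: with `z = exp (t I - D)`, `z⁻¹ ^ g = exp (g D) exp (-g t I)`, so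
`cosh (g D) * (PE q b').eval (2 s cos t) = (s^g exp (g D) ‖Pb‖ * exp ((ψ t - g t) I)).re = s^g exp (g D) ‖Pb‖ cos (g t - ψ t)`, and at `t_k`: `cos (k π) = (-1) ^ k` (`Real.cos_nat_mul_pi`).
`‖Pb q b z‖ > 0` as `‖z‖ = exp (-D)` (`Complex.norm_exp`).  So `(-1)^k * (PE q b').eval (..) > 0`, `exists_ord`. -/

namespace TQ

open Polynomial TI

private theorem W7_DD (q i : ℕ) : (DD q i).Monic ∧ (DD q i).natDegree = i := by
  have h := TI.bas_monic q i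
  unfold DD
  refine ⟨h.1.map _, ?_⟩
  rw [h.1.natDegree_map]
  exact h.2

private theorem W7_PE (q : ℕ) {g : ℕ} (b : Fin g → ℝ) : (PE q b).Monic ∧ (PE q b).natDegree = g := by
  have hD := W7_DD q g
  have hdeg : (DD q g).degree = (g : ℕ) := by
    rw [degree_eq_natDegree hD.1.ne_zero, hD.2]
  have hsum : (∑ i : Fin g, C (b i) * DD q i).degree < (DD q g).degree := by
    rw [hdeg]
    refine (degree_sum_le _ _).trans_lt ?_
    refine (Finset.sup_lt_iff (WithBot.bot_lt_coe g)).2 fun i _ => ?_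
    have hi := W7_DD q i
    have h1 : (C (b i) * DD q i).degree ≤ (DD q i).degree := by
      refine (degree_mul_le _ _).trans ?_
      calc (C (b i)).degree + (DD q i).degree ≤ 0 + (DD q i).degree := add_le_add degree_C_le le_rfl
        _ = (DD q i).degree := zero_add _
    refine h1.trans_lt ?_
    rw [degree_eq_natDegree hi.1.ne_zero, hi.2]
    exact WithBot.coe_lt_coe.2 i.2
  unfold PE
  refine ⟨hD.1.add_of_left hsum, ?_⟩
  rw [natDegree_add_eq_left_of_degree_lt hsum, hD.2]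

private theorem W7_norm (t D : ℝ) : ‖Complex.exp ((t : ℂ) * Complex.I - (D : ℂ))‖ = Real.exp (-D) := by
  rw [Complex.norm_exp]
  congr 1
  simp

private theorem W7_val (s : ℝ) (g : ℕ) (D t φ : ℝ) (w : ℂ)
    (h : w = (‖w‖ : ℂ) * Complex.exp ((φ : ℂ) * Complex.I)) :
    (((s : ℂ)) ^ g * (Complex.exp ((t : ℂ) * Complex.I - (D : ℂ)))⁻¹ ^ g * w).re =
      s ^ g * Real.exp ((g : ℝ) * D) * ‖w‖ * Real.cos ((g : ℝ) * t - φ) := by
  have h1 : (Complex.exp ((t : ℂ) * Complex.I - (D : ℂ)))⁻¹ ^ g =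
      Complex.exp (((g : ℝ) * D : ℝ) : ℂ) * Complex.exp (((-((g : ℝ) * t) : ℝ) : ℂ) * Complex.I) := by
    rw [← Complex.exp_neg, ← Complex.exp_nat_mul, ← Complex.exp_add]
    congr 1
    push_cast
    ring
  have h2 : ((s : ℂ)) ^ g * (Complex.exp ((t : ℂ) * Complex.I - (D : ℂ)))⁻¹ ^ g * w =
      ((s ^ g * Real.exp ((g : ℝ) * D) * ‖w‖ : ℝ) : ℂ) * Complex.exp (((φ - (g : ℝ) * t : ℝ) : ℂ) * Complex.I) := by
    have h3 : Complex.exp (((φ - (g : ℝ) * t : ℝ) : ℂ) * Complex.I) =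
        Complex.exp (((-((g : ℝ) * t) : ℝ) : ℂ) * Complex.I) * Complex.exp ((φ : ℂ) * Complex.I) := by
      rw [← Complex.exp_add]
      congr 1
      push_cast
      ring
    rw [h3, h1]
    calc ((s : ℂ)) ^ g * (Complex.exp (((g : ℝ) * D : ℝ) : ℂ) *
          Complex.exp (((-((g : ℝ) * t) : ℝ) : ℂ) * Complex.I)) * w =
        ((s : ℂ)) ^ g * (Complex.exp (((g : ℝ) * D : ℝ) : ℂ) *
          Complex.exp (((-((g : ℝ) * t) : ℝ) : ℂ) * Complex.I)) *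
          ((‖w‖ : ℂ) * Complex.exp ((φ : ℂ) * Complex.I)) := by rw [← h]
      _ = _ := by
        rw [← Complex.ofReal_exp]
        push_cast
        ring
  rw [h2, Complex.re_ofReal_mul, Complex.exp_ofReal_mul_I_re]
  congr 1
  rw [← Real.cos_neg]
  congr 1
  ring

theorem aeval_PbP (q : ℕ) {g : ℕ} (b : Fin g → ℝ) (z : ℂ) : aeval z (PbP q b) = Pb q b z := by
  unfold PbP Pb
  rw [map_add, map_add, map_one, map_pow, aeval_X, map_sum]
  congr 1
  refine Finset.sum_congr rfl fun i _ => ?_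
  rw [map_mul, aeval_C]
  have h1 : (algebraMap ℝ ℂ) (b i * Real.sqrt q ^ (((i : ℕ) : ℤ) - (g : ℤ))) =
      (b i : ℂ) * ((Real.sqrt q : ℝ) : ℂ) ^ (((i : ℕ) : ℤ) - (g : ℤ)) := by
    show ((b i * Real.sqrt q ^ (((i : ℕ) : ℤ) - (g : ℤ)) : ℝ) : ℂ) = _
    rw [Complex.ofReal_mul, Complex.ofReal_zpow]
  rw [h1]
  congr 1
  split_ifs
  · rw [map_pow, aeval_X]
  · rw [map_add, map_pow, map_pow, aeval_X]

theorem eval_PbP (q : ℕ) {g : ℕ} (hg : 1 ≤ g) (b : Fin g → ℝ) : (PbP q b).eval 0 = 1 := by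
  unfold PbP
  rw [eval_add, eval_add, eval_one, eval_pow, eval_X, zero_pow (by omega), add_zero, eval_finsetSum]
  rw [Finset.sum_eq_zero, add_zero]
  intro i _
  have hi := i.2
  rw [eval_mul]
  have h1 : (if (i : ℕ) = 0 then (X : ℝ[X]) ^ g else X ^ (g - (i : ℕ)) + X ^ (g + (i : ℕ))).eval 0 = 0 := by
    split_ifs
    · rw [eval_pow, eval_X, zero_pow (by omega)]
    · rw [eval_add, eval_pow, eval_pow, eval_X, zero_pow (by omega), zero_pow (by omega), add_zero]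
  rw [h1, mul_zero]

theorem avg_mem {q : ℕ} (hq : 1 ≤ q) {g : ℕ} (hg : 1 ≤ g) (b : Fin g → ℝ) (D : ℝ)
    (hz : ∀ z : ℂ, ‖z‖ ≤ Real.exp (-D) → Pb q b z ≠ 0) :
    (fun i : Fin g => Real.cosh (((i : ℕ) : ℝ) * D) / Real.cosh ((g : ℝ) * D) * b i) ∈ Rg q g := by
  obtain ⟨ψ, hc, h0, hπ, hψ⟩ := exists_psi (PbP q b) (eval_PbP q hg b) D
    (fun z h => by rw [aeval_PbP]; exact hz z h)
  obtain ⟨t, ht, htI, htφ⟩ := exists_phases g ψ hc h0 hπ
  have hm := W7_PE q (fun i : Fin g => Real.cosh (((i : ℕ) : ℝ) * D) / Real.cosh ((g : ℝ) * D) * b i)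
  refine exists_ord hq hg hm.1 hm.2 ht htI fun k => ?_
  have h1 := hψ (t k)
  rw [aeval_PbP] at h1
  have h2 := W7_val (Real.sqrt q) g D (t k) (ψ (t k)) _ h1
  rw [re_eval hq hg b D (t k), htφ k, Real.cos_nat_mul_pi] at h2
  have hq0 : (0 : ℝ) < q := by exact_mod_cast hq
  have hs : 0 < Real.sqrt q := Real.sqrt_pos.2 hq0
  have hP : 0 < ‖Pb q b (Complex.exp ((t k : ℂ) * Complex.I - (D : ℂ)))‖ :=
    norm_pos_iff.2 (hz _ (W7_norm (t k) D).le)
  have hcosh : 0 < Real.cosh ((g : ℝ) * D) := Real.cosh_pos _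
  obtain ⟨E, hE⟩ : ∃ E, E = (PE q (fun i : Fin g => Real.cosh (((i : ℕ) : ℝ) * D) / Real.cosh ((g : ℝ) * D) * b i)).eval
      (2 * Real.sqrt q * Real.cos (t k)) := ⟨_, rfl⟩
  rw [← hE] at h2 ⊢
  have h3 : Real.cosh ((g : ℝ) * D) * ((-1) ^ (k : ℕ) * E) =
      Real.sqrt q ^ g * Real.exp ((g : ℝ) * D) * ‖Pb q b (Complex.exp ((t k : ℂ) * Complex.I - (D : ℂ)))‖ := by
    have h4 : ((-1 : ℝ) ^ (k : ℕ)) * (-1) ^ (k : ℕ) = 1 := by
      rw [← mul_pow]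
      norm_num
    calc Real.cosh ((g : ℝ) * D) * ((-1) ^ (k : ℕ) * E) = (-1) ^ (k : ℕ) * (Real.cosh ((g : ℝ) * D) * E) := by ring
      _ = Real.sqrt q ^ g * Real.exp ((g : ℝ) * D) *
          ‖Pb q b (Complex.exp ((t k : ℂ) * Complex.I - (D : ℂ)))‖ * (((-1 : ℝ) ^ (k : ℕ)) * (-1) ^ (k : ℕ)) := by
        rw [h2]
        ring
      _ = _ := by rw [h4, mul_one]
  have h5 : 0 < Real.cosh ((g : ℝ) * D) * ((-1) ^ (k : ℕ) * E) := by
    rw [h3]
    positivity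
  exact (mul_pos_iff_of_pos_left hcosh).1 h5

end TQ
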