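import Pool.Agent.Lib.MP_021685_agTQ.UD

/-! LEAF W8 (easy+).  Perturbation.

PROOF.  The difference is `∑_i e_i s^(i-g) (z^g or z^(g-i) + z^(g+i))`; each term has norm `≤ (1/2) s^(g-J-i) s^(i-g) * 2 = s^(-J)` because `‖z‖ ≤ 1` (`zpow_add₀`, `s > 0`, `norm_sum_le`, `pow_le_one₀`); there are `g` terms. -/

namespace TQ

open Polynomial TI

theorem Pb_pert {q : ℕ} (hq : 1 ≤ q) {g : ℕ} (J : ℕ) (b e : Fin g → ℝ)
    (he : ∀ i, |e i| ≤ 1 / 2 * Real.sqrt q ^ ((g : ℤ) - (J : ℤ) - ((i : ℕ) : ℤ))) {z : ℂ} (hz : ‖z‖ ≤ 1) :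
    ‖Pb q (fun i => b i + e i) z - Pb q b z‖ ≤ (g : ℝ) * (Real.sqrt q ^ J)⁻¹ := by
  have hs : (0 : ℝ) < Real.sqrt q := by
    rw [Real.sqrt_pos]
    exact_mod_cast hq
  have h1 : Pb q (fun i => b i + e i) z - Pb q b z =
      ∑ i : Fin g, ((e i : ℂ) * ((Real.sqrt q : ℝ) : ℂ) ^ (((i : ℕ) : ℤ) - (g : ℤ))) *
        (if (i : ℕ) = 0 then z ^ g else z ^ (g - (i : ℕ)) + z ^ (g + (i : ℕ))) := by
    unfold Pb
    rw [add_sub_add_left_eq_sub, ← Finset.sum_sub_distrib]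
    refine Finset.sum_congr rfl fun i _ => ?_
    rw [Complex.ofReal_add]
    ring
  have h2 : ∀ i : Fin g, ‖((e i : ℂ) * ((Real.sqrt q : ℝ) : ℂ) ^ (((i : ℕ) : ℤ) - (g : ℤ))) *
      (if (i : ℕ) = 0 then z ^ g else z ^ (g - (i : ℕ)) + z ^ (g + (i : ℕ)))‖ ≤
        (Real.sqrt q ^ J)⁻¹ := by
    intro i
    have hp : ∀ m : ℕ, ‖z ^ m‖ ≤ 1 := by
      intro m
      rw [norm_pow]
      exact pow_le_one₀ (norm_nonneg _) hz
    have hW : ‖(if (i : ℕ) = 0 then z ^ g else z ^ (g - (i : ℕ)) + z ^ (g + (i : ℕ)))‖ ≤ 2 := by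
      split_ifs
      · exact (hp g).trans one_le_two
      · refine (norm_add_le _ _).trans ?_
        have h3 := hp (g - (i : ℕ))
        have h4 := hp (g + (i : ℕ))
        linarith
    rw [norm_mul, norm_mul, norm_zpow, Complex.norm_real, Complex.norm_real, Real.norm_eq_abs,
      Real.norm_eq_abs, abs_of_pos hs]
    have h5 : 0 < Real.sqrt q ^ (((i : ℕ) : ℤ) - (g : ℤ)) := zpow_pos hs _
    have h6 : |e i| * Real.sqrt q ^ (((i : ℕ) : ℤ) - (g : ℤ)) ≤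
        1 / 2 * Real.sqrt q ^ ((g : ℤ) - (J : ℤ) - ((i : ℕ) : ℤ)) *
          Real.sqrt q ^ (((i : ℕ) : ℤ) - (g : ℤ)) := mul_le_mul_of_nonneg_right (he i) h5.le
    have h7 : 1 / 2 * Real.sqrt q ^ ((g : ℤ) - (J : ℤ) - ((i : ℕ) : ℤ)) *
        Real.sqrt q ^ (((i : ℕ) : ℤ) - (g : ℤ)) = 1 / 2 * (Real.sqrt q ^ J)⁻¹ := by
      rw [mul_assoc, ← zpow_add₀ hs.ne', show (g : ℤ) - (J : ℤ) - ((i : ℕ) : ℤ) +
        (((i : ℕ) : ℤ) - (g : ℤ)) = -(J : ℤ) by ring, zpow_neg, zpow_natCast]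
    rw [h7] at h6
    have h8 := mul_le_mul h6 hW (norm_nonneg _) (by positivity)
    refine h8.trans (le_of_eq ?_)
    ring
  rw [h1]
  refine (norm_sum_le _ _).trans ((Finset.sum_le_sum fun i _ => h2 i).trans (le_of_eq ?_))
  rw [Finset.sum_const, Finset.card_univ, Fintype.card_fin, nsmul_eq_mul]

end TQ
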