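import Pool.Agent.Lib.MP_021685_agTQ.Defs

/-! LEAF W9 (easy+, real analysis).  Numerics.

PROOF.  `s = √q ≥ √2 ≥ exp (1/3)` (`exp (2/3) ≤ 2`, `Real.exp_one_lt_d9`, or `Real.log_two_gt_d9`: `log √2 = log 2 / 2 > 0.34`), `JJ g ≥ g^(9/10)` (`Nat.le_ceil`, both branches of `JJ`), so `g / s ^ JJ g ≤ g exp (-g^(9/10) / 3)`.
Need `log g + g^(17/20) < g^(9/10) / 3` for large `g`: `g^(17/20) = g^(9/10) g^(-1/20)`, and `log g / g^(9/10) → 0`, `g^(-1/20) → 0` (`tendsto_rpow_neg_atTop`, `Real.isLittleO_log_rpow_atTop` / `tendsto_log_div_rpow..`); pass to natural numbers with `tendsto_natCast_atTop_atTop`, `Filter.eventually_atTop`. -/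

namespace TQ

open Polynomial TI

private theorem W9_JJ (g : ℕ) : (g : ℝ) ^ (9 / 10 : ℝ) ≤ (JJ g : ℝ) := by
  have h1 : (g : ℝ) ^ (9 / 10 : ℝ) ≤ ((⌈(g : ℝ) ^ (9 / 10 : ℝ)⌉₊ : ℕ) : ℝ) := Nat.le_ceil _
  unfold JJ
  split_ifs
  · exact h1
  · push_cast
    linarith

private theorem W9_sqrt {q : ℕ} (hq : 2 ≤ q) : Real.exp (1 / 3) ≤ Real.sqrt q := by
  apply Real.le_sqrt_of_sq_le
  have h1 : (Real.exp (1 / 3) ^ 2) ^ 3 ≤ (2 : ℝ) ^ 3 := by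
    rw [← pow_mul, ← Real.exp_nat_mul]
    have h2 : ((2 * 3 : ℕ) : ℝ) * (1 / 3) = 1 + 1 := by norm_num
    rw [h2, Real.exp_add]
    have h3 := Real.exp_one_lt_d9
    have h4 : 0 < Real.exp 1 := Real.exp_pos 1
    nlinarith
  have h2 : Real.exp (1 / 3) ^ 2 ≤ 2 := by
    by_contra h
    push Not at h
    exact absurd h1 (not_le.2 (pow_lt_pow_left₀ h (by norm_num) (by norm_num)))
  exact h2.trans (by exact_mod_cast hq)

private theorem W9_pow {G : ℝ} (hG : (2000 : ℝ) ^ 20 ≤ G) :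
    G ^ (17 / 20 : ℝ) ≤ G ^ (9 / 10 : ℝ) / 2000 ∧ Real.log G ≤ G ^ (9 / 10 : ℝ) / 2000 := by
  have hG0 : 0 < G := lt_of_lt_of_le (by positivity) hG
  have hG1 : 1 ≤ G := le_trans (by norm_num) hG
  have h20 : (2000 : ℝ) ≤ G ^ (1 / 20 : ℝ) := by
    have e : (2000 : ℝ) = ((2000 : ℝ) ^ 20) ^ (1 / 20 : ℝ) := by
      rw [← Real.rpow_natCast, ← Real.rpow_mul (by norm_num)]
      norm_num
    calc (2000 : ℝ) = ((2000 : ℝ) ^ 20) ^ (1 / 20 : ℝ) := e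
      _ ≤ G ^ (1 / 20 : ℝ) := Real.rpow_le_rpow (by positivity) hG (by norm_num)
  have hx0 : 0 < G ^ (1 / 20 : ℝ) := by positivity
  have h1 : G ^ (9 / 10 : ℝ) = G ^ (17 / 20 : ℝ) * G ^ (1 / 20 : ℝ) := by
    rw [← Real.rpow_add hG0]
    norm_num
  constructor
  · rw [le_div_iff₀ (by norm_num), h1]
    exact mul_le_mul_of_nonneg_left h20 (by positivity)
  · have h2 : Real.log G = 20 * Real.log (G ^ (1 / 20 : ℝ)) := by
      rw [Real.log_rpow hG0]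
      ring
    have h3 : Real.log (G ^ (1 / 20 : ℝ)) ≤ G ^ (1 / 20 : ℝ) :=
      (Real.log_le_sub_one_of_pos hx0).trans (by linarith)
    have h4 : G ^ (9 / 10 : ℝ) = G ^ (1 / 20 : ℝ) * G ^ (17 / 20 : ℝ) := by rw [h1, mul_comm]
    have h5 : (40000 : ℝ) ≤ G ^ (17 / 20 : ℝ) := by
      have e1 : G ^ (17 / 20 : ℝ) = G ^ (1 / 20 : ℝ) * G ^ (16 / 20 : ℝ) := by
        rw [← Real.rpow_add hG0]
        norm_num
      have e2 : G ^ (1 / 20 : ℝ) ≤ G ^ (16 / 20 : ℝ) := Real.rpow_le_rpow_of_exponent_le hG1 (by norm_num)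
      rw [e1]
      nlinarith
    rw [le_div_iff₀ (by norm_num), h2, h4]
    nlinarith

theorem pert_num (q : ℕ) (hq : 2 ≤ q) : ∃ g₀ : ℕ, ∀ g : ℕ, g₀ ≤ g →
    (g : ℝ) * (Real.sqrt q ^ JJ g)⁻¹ < Real.exp (-((g : ℝ) ^ (17 / 20 : ℝ))) := by
  refine ⟨2000 ^ 20, fun g hg => ?_⟩
  have hG : (2000 : ℝ) ^ 20 ≤ (g : ℝ) := by exact_mod_cast hg
  have hG0 : (0 : ℝ) < g := lt_of_lt_of_le (by positivity) hG
  obtain ⟨h1, h2⟩ := W9_pow hG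
  have h3 := W9_JJ g
  have hx : 0 < (g : ℝ) ^ (9 / 10 : ℝ) := by positivity
  have h4 : (Real.sqrt q ^ JJ g)⁻¹ ≤ Real.exp (-((g : ℝ) ^ (9 / 10 : ℝ) / 3)) := by
    rw [Real.exp_neg]
    apply inv_anti₀ (Real.exp_pos _)
    calc Real.exp ((g : ℝ) ^ (9 / 10 : ℝ) / 3) ≤ Real.exp ((JJ g : ℕ) * (1 / 3)) := by
          rw [Real.exp_le_exp]
          linarith
      _ = Real.exp (1 / 3) ^ JJ g := Real.exp_nat_mul _ _
      _ ≤ Real.sqrt q ^ JJ g := pow_le_pow_left₀ (Real.exp_pos _).le (W9_sqrt hq) _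
  calc (g : ℝ) * (Real.sqrt q ^ JJ g)⁻¹ ≤ (g : ℝ) * Real.exp (-((g : ℝ) ^ (9 / 10 : ℝ) / 3)) :=
        mul_le_mul_of_nonneg_left h4 hG0.le
    _ = Real.exp (Real.log g + -((g : ℝ) ^ (9 / 10 : ℝ) / 3)) := by
        rw [Real.exp_add, Real.exp_log hG0]
    _ < Real.exp (-((g : ℝ) ^ (17 / 20 : ℝ))) := by
        rw [Real.exp_lt_exp]
        linarith

end TQ
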