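import Pool.Agent.Lib.MP_021685_agTQ.W2
import Pool.Agent.Lib.MP_021685_agTQ.W7
import Pool.Agent.Lib.MP_021685_agTQ.W8
import Pool.Agent.Lib.MP_021685_agTQ.W9
import Pool.Agent.Lib.MP_021685_agTQ.ML

/-! LEAF W10 (easy+, assembly).  The contraction of a neighbourhood of a regular member.

PROOF.  `g₀` = the maximum of those of `reg_bound`, `pert_num` and `1`.  `Reg q g h`: angles `θ`, `h.map .. = RP q θ` (`IsAngles` unfolds to this), `exp (-g^(8/5)) ≤ En θ`.  So `PE q b = RP q θ`, `Pb q b z = PP θ z` (`Pb_eq`).  With `D = 1 / (10 g)`: `‖z‖ ≤ exp (-D)` implies `‖z‖ ≤ 1` and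
`‖Pb q (b + e) z‖ ≥ ‖PP θ z‖ - ‖difference‖ ≥ exp (-g^(17/20)) - g (s ^ JJ g)⁻¹ > 0` (`reg_bound`, `Pb_pert`, `pert_num`).  `avg_mem` with this `D`; `cosh (i * D) / cosh (g * D) = ch g i` because `i * (1 / (10 g)) = i / (10 g)` and `g * (1 / (10 g)) = 1 / 10`. -/

namespace TQ

open Polynomial TI

theorem shrink_mem' (q : ℕ) (hq : 2 ≤ q) : ∃ g₀ : ℕ, ∀ g : ℕ, g₀ ≤ g → ∀ h ∈ Weil q g, Reg q g h →
    ∀ b : Fin g → ℝ, h.map (Int.castRingHom ℝ) = PE q b →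
      ∀ e : Fin g → ℝ, (∀ i, |e i| ≤ 1 / 2 * Real.sqrt q ^ ((g : ℤ) - (JJ g : ℤ) - ((i : ℕ) : ℤ))) →
        (fun i : Fin g => ch g i * (b i + e i)) ∈ Rg q g := by
  obtain ⟨g1, h1⟩ := reg_bound
  obtain ⟨g2, h2⟩ := pert_num q hq
  refine ⟨max (max g1 g2) 1, fun g hg h hh hreg b hb e he => ?_⟩
  have hg1 : g1 ≤ g := ((le_max_left _ _).trans (le_max_left _ _)).trans hg
  have hg2 : g2 ≤ g := ((le_max_right _ _).trans (le_max_left _ _)).trans hg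
  have hg0 : 1 ≤ g := (le_max_right _ _).trans hg
  have hgR : (0 : ℝ) < g := by exact_mod_cast hg0
  obtain ⟨θ, hθ, hEn⟩ := hreg
  have hRP : PE q b = RP q θ := by
    rw [← hb]
    exact hθ
  have hz : ∀ z : ℂ, ‖z‖ ≤ Real.exp (-(1 / (10 * (g : ℝ)))) → Pb q (fun i => b i + e i) z ≠ 0 := by
    intro z hz h0
    have hz1 : ‖z‖ ≤ 1 := hz.trans (Real.exp_le_one_iff.2 (by
      have : (0 : ℝ) ≤ 1 / (10 * (g : ℝ)) := by positivity
      linarith))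
    have k1 := (h1 g hg1 θ hEn z hz).1
    have k2 := Pb_pert (by omega : 1 ≤ q) (JJ g) b e he hz1
    have k3 := h2 g hg2
    rw [h0, zero_sub, norm_neg, Pb_eq (by omega : 1 ≤ q) hg0 hRP z] at k2
    linarith
  have key := avg_mem (by omega : 1 ≤ q) hg0 (fun i => b i + e i) (1 / (10 * (g : ℝ))) hz
  have e1 : (fun i : Fin g => ch g i * (b i + e i)) = fun i : Fin g =>
      Real.cosh (((i : ℕ) : ℝ) * (1 / (10 * (g : ℝ)))) / Real.cosh ((g : ℝ) * (1 / (10 * (g : ℝ)))) * (b i + e i) := by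
    funext i
    have e2 : (g : ℝ) * (1 / (10 * (g : ℝ))) = 1 / 10 := by
      field_simp
    have e3 : ((i : ℕ) : ℝ) * (1 / (10 * (g : ℝ))) = ((i : ℕ) : ℝ) / (10 * (g : ℝ)) := by
      rw [mul_one_div]
    rw [e2, e3]
    rfl
  rw [e1]
  exact key

end TQ
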