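import Pool.Agent.Lib.MP_021685_agTQ.VC
import Pool.Agent.Lib.MP_021685_agTQ.W10

/-! Block VOL, V1 + V2 (contraction). -/

namespace TQ

open Polynomial TI

theorem shrink_mem (q : ℕ) (hq : 2 ≤ q) : ∃ g₀ : ℕ, ∀ g : ℕ, g₀ ≤ g → ∀ h ∈ Weil q g, Reg q g h →
    ∀ b : Fin g → ℝ, h.map (Int.castRingHom ℝ) = PE q b →
      ∀ e : Fin g → ℝ, (∀ i, |e i| ≤ 1 / 2 * Real.sqrt q ^ ((g : ℤ) - (JJ g : ℤ) - ((i : ℕ) : ℤ))) →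
        (fun i : Fin g => ch g i * (b i + e i)) ∈ Rg q g :=
  shrink_mem' q hq

end TQ
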