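import Pool.Agent.Lib.MP_021685_agTQ.UD

/-! LEAF W1 (medium).  Values at complex points.

PROOF.  (1) `DD_cx`: `DD q i` is the image of `dickson 1 q i` for `i ≥ 1` (`TI.bas`), two-step induction on `i` as in `TI.bas_eval` (file TI/B0.lean, private `B0_eval`, copy it): `D_0 = 2`, `D_1 = X`, `D_(n+2) = X D_(n+1) - q D_n` (`dickson_zero`, `dickson_one`, `dickson_add_two`),
with `x = s (z + z⁻¹)`, `s ^ 2 = q`: `x * s^(n+1) (z^(n+1) + z⁻¹^(n+1)) - s^2 s^n (z^n + z⁻¹^n) = s^(n+2) (z^(n+2) + z⁻¹^(n+2))`.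
(2) `PE_cx`: multiply `PE q b` at `x` by `z ^ g`: the term `DD q g` gives `s ^ g (z^(2g) + 1)` (here `g ≥ 1`), the term `i ≥ 1` gives `b_i s^i (z^(g+i) + z^(g-i)) = s^g (b_i s^(i-g)) (..)`, the term `i = 0` (`DD q 0 = 1`) gives `b_0 z^g`.
(`zpow_sub₀`, `zpow_natCast`, `s ≠ 0` since `q ≥ 1`.) -/

namespace TQ

open Polynomial TI

private theorem W1_sq (q : ℕ) : ((Real.sqrt q : ℝ) : ℂ) ^ 2 = (q : ℂ) := by
  rw [← Complex.ofReal_pow, Real.sq_sqrt (Nat.cast_nonneg q)]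
  simp

private theorem W1_dick (q : ℕ) {z : ℂ} (hz : z ≠ 0) : ∀ n : ℕ,
    aeval (((Real.sqrt q : ℝ) : ℂ) * (z + z⁻¹)) (dickson 1 (q : ℤ) n) =
      ((Real.sqrt q : ℝ) : ℂ) ^ n * (z ^ n + z⁻¹ ^ n) ∧
    aeval (((Real.sqrt q : ℝ) : ℂ) * (z + z⁻¹)) (dickson 1 (q : ℤ) (n + 1)) =
      ((Real.sqrt q : ℝ) : ℂ) ^ (n + 1) * (z ^ (n + 1) + z⁻¹ ^ (n + 1)) := by
  intro n
  induction n with
  | zero =>
    constructor
    · rw [dickson_zero, map_sub, map_natCast, map_ofNat, pow_zero, pow_zero, pow_zero]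
      norm_num
    · rw [zero_add, dickson_one]
      simp
  | succ n ih =>
    refine ⟨ih.2, ?_⟩
    obtain ⟨h1, h2⟩ := ih
    have h5 : dickson 1 (q : ℤ) (n + 1 + 1) = X * dickson 1 (q : ℤ) (n + 1) -
        C (q : ℤ) * dickson 1 (q : ℤ) n := dickson_add_two 1 (q : ℤ) n
    rw [h5, map_sub, map_mul, map_mul, aeval_X, aeval_C, h1, h2]
    have h6 : (algebraMap ℤ ℂ) (q : ℤ) = ((Real.sqrt q : ℝ) : ℂ) ^ 2 := by
      rw [W1_sq]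
      simp
    rw [h6]
    have h7 : z * z⁻¹ = 1 := mul_inv_cancel₀ hz
    generalize z⁻¹ = w at h7
    generalize ((Real.sqrt q : ℝ) : ℂ) = s
    have h8 : z * w ^ (n + 1) = w ^ n := by
      rw [pow_succ', ← mul_assoc, h7, one_mul]
    have h9 : w * z ^ (n + 1) = z ^ n := by
      rw [pow_succ', ← mul_assoc, mul_comm w z, h7, one_mul]
    calc s * (z + w) * (s ^ (n + 1) * (z ^ (n + 1) + w ^ (n + 1))) - s ^ 2 * (s ^ n * (z ^ n + w ^ n))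
        = s ^ (n + 1 + 1) * (z ^ (n + 1 + 1) + w ^ (n + 1 + 1) + (z * w ^ (n + 1) + w * z ^ (n + 1))) -
          s ^ (n + 1 + 1) * (z ^ n + w ^ n) := by ring
      _ = s ^ (n + 1 + 1) * (z ^ (n + 1 + 1) + w ^ (n + 1 + 1)) := by
        rw [h8, h9]
        ring

theorem DD_cx (q : ℕ) {i : ℕ} (hi : 1 ≤ i) {z : ℂ} (hz : z ≠ 0) :
    aeval (((Real.sqrt q : ℝ) : ℂ) * (z + z⁻¹)) (DD q i) = ((Real.sqrt q : ℝ) : ℂ) ^ i * (z ^ i + z⁻¹ ^ i) := by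
  have h1 : DD q i = (dickson 1 (q : ℤ) i).map (algebraMap ℤ ℝ) := by
    unfold DD bas
    rw [if_neg (by omega)]
    rfl
  rw [h1, aeval_map_algebraMap]
  exact (W1_dick q hz i).1

theorem PE_cx {q : ℕ} (hq : 1 ≤ q) {g : ℕ} (hg : 1 ≤ g) (b : Fin g → ℝ) {z : ℂ} (hz : z ≠ 0) :
    z ^ g * aeval (((Real.sqrt q : ℝ) : ℂ) * (z + z⁻¹)) (PE q b) = ((Real.sqrt q : ℝ) : ℂ) ^ g * Pb q b z := by
  have hs : ((Real.sqrt q : ℝ) : ℂ) ≠ 0 := by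
    have h1 : 0 < Real.sqrt q := Real.sqrt_pos.2 (by exact_mod_cast hq)
    exact_mod_cast h1.ne'
  have hzz : z * z⁻¹ = 1 := mul_inv_cancel₀ hz
  have hpow : ∀ i : ℕ, i ≤ g → z ^ g * z⁻¹ ^ i = z ^ (g - i) := by
    intro i hi
    rw [← Nat.sub_add_cancel hi, pow_add, mul_assoc, ← mul_pow, hzz, one_pow, mul_one, Nat.add_sub_cancel]
  have hzp : ∀ i : ℕ, ((Real.sqrt q : ℝ) : ℂ) ^ g * ((Real.sqrt q : ℝ) : ℂ) ^ ((i : ℤ) - (g : ℤ)) =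
      ((Real.sqrt q : ℝ) : ℂ) ^ i := by
    intro i
    rw [← zpow_natCast ((Real.sqrt q : ℝ) : ℂ) g, ← zpow_add₀ hs, add_sub_cancel, zpow_natCast]
  unfold PE Pb
  rw [map_add, map_sum, DD_cx q hg hz]
  refine (mul_add _ _ _).trans (Eq.trans ?_ (mul_add _ _ _).symm)
  rw [Finset.mul_sum, Finset.mul_sum]
  have h1 : z ^ g * (((Real.sqrt q : ℝ) : ℂ) ^ g * (z ^ g + z⁻¹ ^ g)) =
      ((Real.sqrt q : ℝ) : ℂ) ^ g * (1 + z ^ (2 * g)) := by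
    have h2 := hpow g le_rfl
    rw [Nat.sub_self, pow_zero] at h2
    calc z ^ g * (((Real.sqrt q : ℝ) : ℂ) ^ g * (z ^ g + z⁻¹ ^ g))
        = ((Real.sqrt q : ℝ) : ℂ) ^ g * (z ^ g * z⁻¹ ^ g + z ^ (2 * g)) := by ring
      _ = _ := by rw [h2]
  rw [h1]
  congr 1
  refine Finset.sum_congr rfl fun i _ => ?_
  rw [map_mul, aeval_C]
  have h3 : (algebraMap ℝ ℂ) (b i) = (b i : ℂ) := rfl
  rw [h3]
  by_cases hi : (i : ℕ) = 0
  · rw [if_pos hi, hi]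
    have h4 : DD q 0 = 1 := by
      unfold DD bas
      rw [if_pos rfl, Polynomial.map_one]
    have h5 := hzp 0
    rw [pow_zero] at h5
    rw [h4, map_one]
    calc z ^ g * ((b i : ℂ) * 1) = 1 * ((b i : ℂ) * z ^ g) := by ring
      _ = _ := by
        rw [← h5]
        ring
  · rw [if_neg hi, DD_cx q (by omega) hz]
    have h5 := hzp (i : ℕ)
    have h6 := hpow (i : ℕ) i.isLt.le
    calc z ^ g * ((b i : ℂ) * (((Real.sqrt q : ℝ) : ℂ) ^ (i : ℕ) * (z ^ (i : ℕ) + z⁻¹ ^ (i : ℕ))))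
        = (b i : ℂ) * ((Real.sqrt q : ℝ) : ℂ) ^ (i : ℕ) * (z ^ g * z⁻¹ ^ (i : ℕ) + z ^ (g + (i : ℕ))) := by
          rw [pow_add]
          ring
      _ = _ := by
        rw [h6, ← h5]
        ring

end TQ
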