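import Pool.Agent.Lib.MP_021685_agTQ.W1

/-! LEAF W2 (easy+).  `Pb` in terms of the angles.

PROOF.  `z = 0`: both sides are `1` (`g ≥ 1`: `zero_pow`).  `z ≠ 0`: by `PE_cx` with `PE q b = RP q t`: `s ^ g * Pb q b z = z ^ g * ∏ (s (z + z⁻¹) - 2 s cos t_j) = ∏ (z * (..)) = s ^ g * ∏ (z^2 + 1 - 2 cos t_j z)`
(`map_prod`, `Finset.prod_mul_distrib`, `Finset.prod_const`, `Finset.card_univ`); cancel `s ^ g ≠ 0`. -/

namespace TQ

open Polynomial TI

theorem Pb_eq {q : ℕ} (hq : 1 ≤ q) {g : ℕ} (hg : 1 ≤ g) {b t : Fin g → ℝ} (h : PE q b = RP q t) (z : ℂ) :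
    Pb q b z = PP t z := by
  by_cases hz : z = 0
  · subst hz
    unfold Pb PP
    have h1 : (0 : ℂ) ^ (2 * g) = 0 := zero_pow (by omega)
    have h2 : ∀ i : Fin g, (if (i : ℕ) = 0 then (0 : ℂ) ^ g else (0 : ℂ) ^ (g - (i : ℕ)) + (0 : ℂ) ^ (g + (i : ℕ))) = 0 := by
      intro i
      have hi := i.2
      split_ifs
      · exact zero_pow (by omega)
      · rw [zero_pow (by omega), zero_pow (by omega), add_zero]
    rw [h1, Finset.sum_eq_zero (fun i _ => by rw [h2 i, mul_zero])]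
    simp
  · have hs : ((Real.sqrt q : ℝ) : ℂ) ≠ 0 := by
      have : (0 : ℝ) < Real.sqrt q := Real.sqrt_pos.mpr (by exact_mod_cast hq)
      exact_mod_cast this.ne'
    have h1 := PE_cx hq hg b hz
    rw [h] at h1
    have h2 : aeval (((Real.sqrt q : ℝ) : ℂ) * (z + z⁻¹)) (RP q t) =
        ∏ j : Fin g, (((Real.sqrt q : ℝ) : ℂ) * (z + z⁻¹) - ((2 * Real.sqrt q * Real.cos (t j) : ℝ) : ℂ)) := by
      unfold RP
      rw [map_prod]
      refine Finset.prod_congr rfl fun j _ => ?_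
      rw [map_sub, aeval_X, aeval_C]
      rfl
    have h3 : ((Real.sqrt q : ℝ) : ℂ) ^ g * PP t z = z ^ g *
        ∏ j : Fin g, (((Real.sqrt q : ℝ) : ℂ) * (z + z⁻¹) - ((2 * Real.sqrt q * Real.cos (t j) : ℝ) : ℂ)) := by
      have e1 : z ^ g = ∏ _j : Fin g, z := by simp
      have e2 : ((Real.sqrt q : ℝ) : ℂ) ^ g = ∏ _j : Fin g, ((Real.sqrt q : ℝ) : ℂ) := by simp
      rw [e1, e2]
      unfold PP
      rw [← Finset.prod_mul_distrib, ← Finset.prod_mul_distrib]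
      refine Finset.prod_congr rfl fun j _ => ?_
      push_cast
      field_simp
      try ring
    rw [h2, ← h3] at h1
    exact (mul_left_cancel₀ (pow_ne_zero g hs) h1).symm

end TQ
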