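import Pool.Agent.Lib.MP_021685_agTQ.W1

/-! LEAF W3 (medium).  The real part on the circle of radius `exp (-D)`.

PROOF.  Put `z = exp (t i - D) ≠ 0`.  By `PE_cx`, `s ^ g * z⁻¹ ^ g * Pb q b z = aeval (s (z + z⁻¹)) (PE q b) = s^g (z^g + z⁻¹^g) + ∑_(i ≥ 1) b_i s^i (z^i + z⁻¹^i) + b_0` (`DD_cx`, `DD q 0 = 1`).
`z ^ i = exp (i (t I - D))` has real part `exp (-i D) cos (i t)` (`Complex.exp_re`, `Complex.exp_nat_mul`), `z⁻¹ ^ i` has real part `exp (i D) cos (i t)`; the sum is `2 cosh (i D) cos (i t)` (`Real.cosh_eq`).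
On the right: `cosh (g D) * (DD q g at 2 s cos t) = cosh (g D) * 2 s^g cos (g t)` (`TI.bas_eval`; `DD q i = (bas q i).map ..`), and `cosh (g D) * (cosh (i D) / cosh (g D) * b_i) = cosh (i D) b_i` (`Real.cosh_pos`), for `i = 0`: `cosh 0 = 1`. -/

namespace TQ

open Polynomial TI

private theorem W3_one (q : ℕ) (i : ℕ) (D t : ℝ) :
    (aeval (((Real.sqrt q : ℝ) : ℂ) * (Complex.exp ((t : ℂ) * Complex.I - (D : ℂ)) +
      (Complex.exp ((t : ℂ) * Complex.I - (D : ℂ)))⁻¹)) (DD q i)).re =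
      Real.cosh ((i : ℝ) * D) * (DD q i).eval (2 * Real.sqrt q * Real.cos t) := by
  rcases Nat.eq_zero_or_pos i with h0 | h1
  · subst h0
    have h2 : DD q 0 = 1 := by
      unfold DD bas
      rw [if_pos rfl, Polynomial.map_one]
    rw [h2, map_one, eval_one, Nat.cast_zero, zero_mul, Real.cosh_zero, Complex.one_re, mul_one]
  · rw [DD_cx q h1 (Complex.exp_ne_zero _)]
    have h3 : (DD q i).eval (2 * Real.sqrt q * Real.cos t) =
        2 * Real.sqrt q ^ i * Real.cos (i * t) := bas_eval q i h1 t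
    have h4 : (Complex.exp ((t : ℂ) * Complex.I - (D : ℂ)) ^ i).re =
        Real.exp (-((i : ℝ) * D)) * Real.cos (i * t) := by
      rw [← Complex.exp_nat_mul, Complex.exp_re]
      have h5 : ((i : ℂ) * ((t : ℂ) * Complex.I - (D : ℂ))).re = -((i : ℝ) * D) := by
        simp
      have h6 : ((i : ℂ) * ((t : ℂ) * Complex.I - (D : ℂ))).im = (i : ℝ) * t := by
        simp
      rw [h5, h6]
    have h7 : ((Complex.exp ((t : ℂ) * Complex.I - (D : ℂ)))⁻¹ ^ i).re =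
        Real.exp ((i : ℝ) * D) * Real.cos (i * t) := by
      rw [← Complex.exp_neg, ← Complex.exp_nat_mul, Complex.exp_re]
      have h5 : ((i : ℂ) * -((t : ℂ) * Complex.I - (D : ℂ))).re = (i : ℝ) * D := by
        simp
      have h6 : ((i : ℂ) * -((t : ℂ) * Complex.I - (D : ℂ))).im = -((i : ℝ) * t) := by
        simp
      rw [h5, h6, Real.cos_neg]
    rw [h3, ← Complex.ofReal_pow, Complex.re_ofReal_mul, Complex.add_re, h4, h7, Real.cosh_eq]
    ring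

theorem re_eval {q : ℕ} (hq : 1 ≤ q) {g : ℕ} (hg : 1 ≤ g) (b : Fin g → ℝ) (D t : ℝ) :
    (((Real.sqrt q : ℝ) : ℂ) ^ g * (Complex.exp ((t : ℂ) * Complex.I - (D : ℂ)))⁻¹ ^ g *
        Pb q b (Complex.exp ((t : ℂ) * Complex.I - (D : ℂ)))).re =
      Real.cosh ((g : ℝ) * D) *
        (PE q (fun i : Fin g => Real.cosh (((i : ℕ) : ℝ) * D) / Real.cosh ((g : ℝ) * D) * b i)).eval
          (2 * Real.sqrt q * Real.cos t) := by
  have hz : Complex.exp ((t : ℂ) * Complex.I - (D : ℂ)) ≠ 0 := Complex.exp_ne_zero _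
  have h1 := PE_cx hq hg b hz
  have h2 : ((Real.sqrt q : ℝ) : ℂ) ^ g * (Complex.exp ((t : ℂ) * Complex.I - (D : ℂ)))⁻¹ ^ g *
        Pb q b (Complex.exp ((t : ℂ) * Complex.I - (D : ℂ))) =
      aeval (((Real.sqrt q : ℝ) : ℂ) * (Complex.exp ((t : ℂ) * Complex.I - (D : ℂ)) +
        (Complex.exp ((t : ℂ) * Complex.I - (D : ℂ)))⁻¹)) (PE q b) := by
    calc ((Real.sqrt q : ℝ) : ℂ) ^ g * (Complex.exp ((t : ℂ) * Complex.I - (D : ℂ)))⁻¹ ^ g *
          Pb q b (Complex.exp ((t : ℂ) * Complex.I - (D : ℂ)))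
        = (Complex.exp ((t : ℂ) * Complex.I - (D : ℂ)))⁻¹ ^ g * (((Real.sqrt q : ℝ) : ℂ) ^ g *
          Pb q b (Complex.exp ((t : ℂ) * Complex.I - (D : ℂ)))) := by ring
      _ = (Complex.exp ((t : ℂ) * Complex.I - (D : ℂ)))⁻¹ ^ g *
          (Complex.exp ((t : ℂ) * Complex.I - (D : ℂ)) ^ g *
            aeval (((Real.sqrt q : ℝ) : ℂ) * (Complex.exp ((t : ℂ) * Complex.I - (D : ℂ)) +
              (Complex.exp ((t : ℂ) * Complex.I - (D : ℂ)))⁻¹)) (PE q b)) := by rw [h1]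
      _ = aeval (((Real.sqrt q : ℝ) : ℂ) * (Complex.exp ((t : ℂ) * Complex.I - (D : ℂ)) +
              (Complex.exp ((t : ℂ) * Complex.I - (D : ℂ)))⁻¹)) (PE q b) := by
          rw [← mul_assoc, ← mul_pow, inv_mul_cancel₀ hz, one_pow, one_mul]
  have hc : Real.cosh ((g : ℝ) * D) ≠ 0 := (Real.cosh_pos _).ne'
  rw [h2]
  unfold PE
  rw [map_add, map_sum, Complex.add_re, Complex.re_sum, W3_one, eval_add, eval_finsetSum,
    mul_add (Real.cosh ((g : ℝ) * D)), Finset.mul_sum]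
  congr 1
  refine Finset.sum_congr rfl fun i _ => ?_
  rw [map_mul, aeval_C, eval_mul, eval_C]
  have h5 : (algebraMap ℝ ℂ) (b i) = ((b i : ℝ) : ℂ) := rfl
  rw [h5, Complex.re_ofReal_mul, W3_one]
  field_simp

end TQ
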