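import Pool.Agent.Lib.MP_021685_agTQ.VE

/-! LEAF X1 (medium).  The map from the angles to the coordinates and its derivative.

PROOF.  Fix the `n` different points `y l = l` (`l : Fin n`) and the matrix `B l i = (DD q i).eval (y l)`.  `DD q i` is monic of degree `i` (`DD_monic`, file VE), so `det B` is the Vandermonde determinant of `y` (`Matrix.det_eval_matrixOfPolynomials_eq_det_vandermonde`), not zero (`Matrix.det_vandermonde_ne_zero_iff`).
`val t l = ∏ j, (y l - 2 √q cos (t j))` has the derivative `∑ k, (∏ j ∈ univ.erase k, (y l - 2 √q cos (t j))) * 2 √q sin (t k) * dt_k` (`HasFDerivAt.finset_prod`, or by `HasFDerivAt.mul` and induction).  Put `Φ t = B⁻¹ (val t - (DD q n).eval (y ·))` (`Matrix.mulVec`) and `L t` = the composition with the linear map `B⁻¹`.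
`PE q (Φ t) = RP q t`: both are monic of degree `n` (`PE_monic`, `RP_monic`) and agree at the `n` points `y l` (`PE q b` at `y l` is `(DD q n).eval (y l) + (B b) l`), so their difference has degree `< n` and `n` zeros (`Polynomial.eq_of_degree_sub_lt_of_eval_index_eq`, or `eq_zero_of_natDegree_lt_card_of_eval_eq_zero`).
The identity for the derivative: both sides are polynomials of degree `< n`, and they agree at the `n` points `y l`: the left side at `y l` is `(B (L t (Pi.single k 1))) l`, the derivative of `val · l` in the direction `k`, which is the right side at `y l`. -/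

namespace TQ

open Polynomial TI

private theorem X1_unit (q n : ℕ) :
    IsUnit (Matrix.of fun l i : Fin n => (DD q (i : ℕ)).eval ((l : ℕ) : ℝ)).det := by
  rw [isUnit_iff_ne_zero, ← Matrix.det_eval_matrixOfPolynomials_eq_det_vandermonde (fun l : Fin n => ((l : ℕ) : ℝ))
    (fun i : Fin n => DD q (i : ℕ)) (fun i => (DD_monic q i).2) (fun i => (DD_monic q i).1),
    Matrix.det_vandermonde_ne_zero_iff]
  intro l l' h
  have h1 : ((l : ℕ) : ℝ) = ((l' : ℕ) : ℝ) := h
  exact Fin.ext (by exact_mod_cast h1)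

private theorem X1_inj (n : ℕ) : Set.InjOn (fun l : Fin n => ((l : ℕ) : ℝ)) (Finset.univ : Finset (Fin n)) := by
  intro l _ l' _ h
  have h1 : ((l : ℕ) : ℝ) = ((l' : ℕ) : ℝ) := h
  exact Fin.ext (by exact_mod_cast h1)

private theorem X1_deriv (c : ℝ) {n : ℕ} (x : ℝ) (t : Fin n → ℝ) :
    HasFDerivAt (fun t : Fin n → ℝ => ∏ j, (x - c * Real.cos (t j)))
      (∑ k, (∏ j ∈ Finset.univ.erase k, (x - c * Real.cos (t j))) •
        ((c * Real.sin (t k)) • ContinuousLinearMap.proj (R := ℝ) (φ := fun _ : Fin n => ℝ) k)) t := by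
  have h1 : ∀ k ∈ (Finset.univ : Finset (Fin n)), HasFDerivAt (fun t : Fin n → ℝ => x - c * Real.cos (t k))
      ((c * Real.sin (t k)) • ContinuousLinearMap.proj (R := ℝ) (φ := fun _ : Fin n => ℝ) k) t := by
    intro k _
    have h2 : HasFDerivAt (fun t : Fin n → ℝ => t k)
        (ContinuousLinearMap.proj (R := ℝ) (φ := fun _ : Fin n => ℝ) k) t := hasFDerivAt_apply k t
    have h3 := (Real.hasDerivAt_cos (t k)).comp_hasFDerivAt t h2
    have h4 := (h3.const_mul c).const_sub x
    refine h4.congr_fderiv ?_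
    ext v
    simp [mul_assoc]
  exact HasFDerivAt.finsetProd h1

private theorem X1_deg (q : ℕ) {n : ℕ} (b : Fin n → ℝ) : (∑ i : Fin n, C (b i) * DD q i).degree < (n : WithBot ℕ) := by
  rw [← mem_degreeLT]
  refine Submodule.sum_mem _ fun i _ => ?_
  rw [mem_degreeLT]
  have h1 : (C (b i) * DD q i).natDegree ≤ (i : ℕ) :=
    (natDegree_C_mul_le _ _).trans (DD_monic q i).2.le
  exact degree_le_natDegree.trans_lt (Nat.cast_lt.2 (lt_of_le_of_lt h1 i.isLt))

theorem exists_phi_deriv (q n : ℕ) :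
    ∃ (Φ : (Fin n → ℝ) → (Fin n → ℝ)) (L : (Fin n → ℝ) → ((Fin n → ℝ) →L[ℝ] (Fin n → ℝ))),
      (∀ t, PE q (Φ t) = RP q t) ∧ (∀ t, HasFDerivAt Φ (L t) t) ∧
      ∀ t k, ∑ i : Fin n, C (L t (Pi.single k 1) i) * DD q i =
        C (2 * Real.sqrt q * Real.sin (t k)) *
          ∏ j ∈ Finset.univ.erase k, (X - C (2 * Real.sqrt q * Real.cos (t j))) := by
  classical
  set c : ℝ := 2 * Real.sqrt q with hc
  set B : Matrix (Fin n) (Fin n) ℝ := Matrix.of fun l i : Fin n => (DD q (i : ℕ)).eval ((l : ℕ) : ℝ) with hB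
  have hBu : IsUnit B.det := X1_unit q n
  have hBB : ∀ w : Fin n → ℝ, B.mulVec (B⁻¹.mulVec w) = w := by
    intro w
    rw [Matrix.mulVec_mulVec, Matrix.mul_nonsing_inv B hBu, Matrix.one_mulVec]
  let M : (Fin n → ℝ) →L[ℝ] (Fin n → ℝ) := LinearMap.toContinuousLinearMap (Matrix.mulVecLin B⁻¹)
  have hM : ∀ w, M w = B⁻¹.mulVec w := fun w => rfl
  let W : (Fin n → ℝ) → ((Fin n → ℝ) →L[ℝ] (Fin n → ℝ)) := fun t =>
    ContinuousLinearMap.pi fun l : Fin n =>
      ∑ k, (∏ j ∈ Finset.univ.erase k, (((l : ℕ) : ℝ) - c * Real.cos (t j))) •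
        ((c * Real.sin (t k)) • ContinuousLinearMap.proj (R := ℝ) (φ := fun _ : Fin n => ℝ) k)
  let V : (Fin n → ℝ) → Fin n → ℝ := fun t l => ∏ j, (((l : ℕ) : ℝ) - c * Real.cos (t j))
  let e : Fin n → ℝ := fun l => (DD q n).eval ((l : ℕ) : ℝ)
  have hV : ∀ t, HasFDerivAt V (W t) t := by
    intro t
    rw [hasFDerivAt_pi']
    intro l
    refine (X1_deriv c ((l : ℕ) : ℝ) t).congr_fderiv ?_
    rfl
  have hev : ∀ (b : Fin n → ℝ) (l : Fin n),
      (∑ i : Fin n, C (b i) * DD q i).eval ((l : ℕ) : ℝ) = B.mulVec b l := by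
    intro b l
    rw [eval_finsetSum]
    show _ = ∑ i, B l i * b i
    refine Finset.sum_congr rfl fun i _ => ?_
    rw [eval_mul, eval_C, mul_comm]
    rfl
  refine ⟨fun t => M (V t - e), fun t => M.comp (W t), fun t => ?_, fun t => ?_, fun t k => ?_⟩
  · refine eq_of_degree_sub_lt_of_eval_index_eq (s := Finset.univ) (v := fun l : Fin n => ((l : ℕ) : ℝ)) (X1_inj n)
      ?_ fun l _ => ?_
    · obtain ⟨h1, h2⟩ := PE_monic q (M (V t - e))
      obtain ⟨h3, h4⟩ := RP_monic q t
      have h5 : (PE q (M (V t - e))).degree = (n : WithBot ℕ) := by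
        rw [degree_eq_natDegree h1.ne_zero, h2]
      have h6 : (RP q t).degree = (n : WithBot ℕ) := by
        rw [degree_eq_natDegree h3.ne_zero, h4]
      rw [Finset.card_univ, Fintype.card_fin, ← h5]
      refine degree_sub_lt_left (h5.trans h6.symm) h1.ne_zero ?_
      rw [h1.leadingCoeff, h3.leadingCoeff]
    · unfold PE RP
      rw [eval_add, hev]
      show (DD q n).eval ((l : ℕ) : ℝ) + B.mulVec (B⁻¹.mulVec (V t - e)) l = _
      rw [hBB, eval_prod]
      simp only [eval_sub, eval_X, eval_C]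
      show (DD q n).eval ((l : ℕ) : ℝ) + (V t l - (DD q n).eval ((l : ℕ) : ℝ)) = _
      rw [add_sub_cancel]
  · exact M.hasFDerivAt.comp t ((hV t).sub_const e)
  · refine eq_of_degrees_lt_of_eval_index_eq (s := Finset.univ) (v := fun l : Fin n => ((l : ℕ) : ℝ)) (X1_inj n)
      ?_ ?_ fun l _ => ?_
    · rw [Finset.card_univ, Fintype.card_fin]
      exact X1_deg q _
    · rw [Finset.card_univ, Fintype.card_fin]
      have h1 : (∏ j ∈ Finset.univ.erase k, (X - C (c * Real.cos (t j)))).natDegree = n - 1 := by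
        rw [natDegree_prod_of_monic _ _ fun j _ => monic_X_sub_C _]
        simp only [natDegree_X_sub_C, Finset.sum_const, smul_eq_mul, mul_one]
        rw [Finset.card_erase_of_mem (Finset.mem_univ k), Finset.card_univ, Fintype.card_fin]
      have h2 := natDegree_C_mul_le (c * Real.sin (t k)) (∏ j ∈ Finset.univ.erase k, (X - C (c * Real.cos (t j))))
      rw [h1] at h2
      have h3 := k.isLt
      exact degree_le_natDegree.trans_lt (Nat.cast_lt.2 (by omega))
    · rw [hev]
      show B.mulVec (B⁻¹.mulVec (W t (Pi.single k 1))) l = _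
      rw [hBB, eval_mul, eval_C, eval_prod]
      simp only [eval_sub, eval_X, eval_C]
      show (∑ k', (∏ j ∈ Finset.univ.erase k', (((l : ℕ) : ℝ) - c * Real.cos (t j))) •
        ((c * Real.sin (t k')) • ContinuousLinearMap.proj (R := ℝ) (φ := fun _ : Fin n => ℝ) k'))
          (Pi.single k 1) = _
      rw [sum_apply, Finset.sum_eq_single k]
      · simp only [smul_apply, ContinuousLinearMap.proj_apply, Pi.single_eq_same, smul_eq_mul, mul_one]
        ring
      · intro k' _ hk'
        simp [hk']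
      · intro h
        exact absurd (Finset.mem_univ k) h

end TQ
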