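import Pool.Agent.Lib.MP_021685_agTQ.VE

/-! LEAF X2 (medium).  The determinant of the derivative.

PROOF.  `x j = 2 √q cos (t j)`, different for different `j`.  `W i k = L (Pi.single k 1) i` is the matrix of `L` (`LinearMap.toMatrix'`), `L.det = W.det` (`ContinuousLinearMap.det`, `LinearMap.det_toMatrix'`).  `A l i = (DD q i).eval (x l)`: `det A = ∏ i, ∏ j ∈ Ioi i, (x j - x i) = V ≠ 0` (`DD_monic`, file VE, `Matrix.det_eval_matrixOfPolynomials_eq_det_vandermonde`, `Matrix.det_vandermonde`).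
Evaluating the hypothesis at `x l`: `(A * W) l k = 2 √q sin (t k) * ∏ j ∈ univ.erase k, (x l - x j)`, which is `0` for `l ≠ k` (the factor `j = l`) and `c k = 2 √q sin (t k) * ∏ j ∈ univ.erase k, (x k - x j)` for `l = k`: `A * W = diagonal c`.
So `V * det W = ∏ c k`, and `∏ k, ∏ j ∈ univ.erase k, |x k - x j| = V^2` in absolute value (ordered pairs: `j > k` and `j < k`).  Divide by `|V|`. -/

namespace TQ

open Polynomial TI

private theorem X2_pairs {n : ℕ} (x : Fin n → ℝ) :
    |∏ k, ∏ j ∈ Finset.univ.erase k, (x k - x j)| = |∏ i, ∏ j ∈ Finset.Ioi i, (x j - x i)| ^ 2 := by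
  have h1 : ∀ k : Fin n, ∏ j ∈ Finset.univ.erase k, |x k - x j| =
      (∏ j ∈ Finset.Ioi k, |x k - x j|) * ∏ j ∈ Finset.Iio k, |x k - x j| := by
    intro k
    rw [← Finset.prod_union]
    · refine Finset.prod_congr ?_ fun _ _ => rfl
      ext j
      simp only [Finset.mem_erase, Finset.mem_univ, and_true, Finset.mem_union, Finset.mem_Ioi, Finset.mem_Iio]
      exact ne_comm.trans lt_or_lt_iff_ne.symm
    · rw [Finset.disjoint_left]
      intro j hj hj'
      rw [Finset.mem_Ioi] at hj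
      rw [Finset.mem_Iio] at hj'
      exact lt_asymm hj hj'
  have h2 : ∏ k : Fin n, ∏ j ∈ Finset.Iio k, |x k - x j| = ∏ i : Fin n, ∏ j ∈ Finset.Ioi i, |x j - x i| := by
    refine Finset.prod_comm' fun a b => ?_
    simp only [Finset.mem_univ, true_and, and_true, Finset.mem_Iio, Finset.mem_Ioi]
  have h3 : ∏ k : Fin n, ∏ j ∈ Finset.Ioi k, |x k - x j| = ∏ i : Fin n, ∏ j ∈ Finset.Ioi i, |x j - x i| :=
    Finset.prod_congr rfl fun k _ => Finset.prod_congr rfl fun j _ => abs_sub_comm _ _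
  rw [Finset.abs_prod, Finset.abs_prod]
  simp_rw [Finset.abs_prod]
  rw [Finset.prod_congr rfl fun k _ => h1 k, Finset.prod_mul_distrib, h2, h3, sq]

theorem det_deriv (q : ℕ) {n : ℕ} (t : Fin n → ℝ)
    (hx : Function.Injective fun j => 2 * Real.sqrt q * Real.cos (t j))
    (L : (Fin n → ℝ) →L[ℝ] (Fin n → ℝ))
    (h : ∀ k, ∑ i : Fin n, C (L (Pi.single k 1) i) * DD q i =
        C (2 * Real.sqrt q * Real.sin (t k)) *
          ∏ j ∈ Finset.univ.erase k, (X - C (2 * Real.sqrt q * Real.cos (t j)))) :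
    |L.det| = |∏ i, ∏ j ∈ Finset.Ioi i, (2 * Real.sqrt q * Real.cos (t j) - 2 * Real.sqrt q * Real.cos (t i))| *
      ∏ k, |2 * Real.sqrt q * Real.sin (t k)| := by
  classical
  set x : Fin n → ℝ := fun j => 2 * Real.sqrt q * Real.cos (t j) with hxx
  have hV : ∏ i, ∏ j ∈ Finset.Ioi i, (x j - x i) ≠ 0 := by
    refine Finset.prod_ne_zero_iff.2 fun i _ => Finset.prod_ne_zero_iff.2 fun j hj => ?_
    rw [Finset.mem_Ioi] at hj
    exact sub_ne_zero.2 fun he => hj.ne' (hx he)
  let W : Matrix (Fin n) (Fin n) ℝ := Matrix.of fun i k => L (Pi.single k 1) i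
  let A : Matrix (Fin n) (Fin n) ℝ := Matrix.of fun l i : Fin n => (DD q (i : ℕ)).eval (x l)
  have hLW : L.det = W.det := by
    have h1 : LinearMap.toMatrix' (L : (Fin n → ℝ) →ₗ[ℝ] (Fin n → ℝ)) = W := by
      ext i k
      rw [LinearMap.toMatrix'_apply]
      simp only [W, Matrix.of_apply]
      rfl
    rw [← h1, LinearMap.det_toMatrix']
  have hA : A.det = ∏ i, ∏ j ∈ Finset.Ioi i, (x j - x i) := by
    rw [← Matrix.det_vandermonde]
    exact (Matrix.det_eval_matrixOfPolynomials_eq_det_vandermonde x (fun i : Fin n => DD q (i : ℕ))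
      (fun i => (DD_monic q i).2) (fun i => (DD_monic q i).1)).symm
  have hAW : A * W = Matrix.diagonal fun k => 2 * Real.sqrt q * Real.sin (t k) *
      ∏ j ∈ Finset.univ.erase k, (x k - x j) := by
    ext l k
    have h1 : (A * W) l k = 2 * Real.sqrt q * Real.sin (t k) * ∏ j ∈ Finset.univ.erase k, (x l - x j) := by
      have h2 := congrArg (Polynomial.eval (x l)) (h k)
      rw [Polynomial.eval_finsetSum, Polynomial.eval_mul, Polynomial.eval_C, Polynomial.eval_prod] at h2
      simp only [Polynomial.eval_mul, Polynomial.eval_C, Polynomial.eval_sub, Polynomial.eval_X] at h2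
      rw [← h2, Matrix.mul_apply]
      refine Finset.sum_congr rfl fun i _ => ?_
      simp only [A, W, Matrix.of_apply]
      exact mul_comm _ _
    rw [h1]
    by_cases hlk : l = k
    · subst hlk
      rw [Matrix.diagonal_apply_eq]
    · rw [Matrix.diagonal_apply_ne _ hlk]
      have h2 : ∏ j ∈ Finset.univ.erase k, (x l - x j) = 0 :=
        Finset.prod_eq_zero (Finset.mem_erase.2 ⟨hlk, Finset.mem_univ l⟩) (sub_self _)
      rw [h2, mul_zero]
  have h4 := congrArg Matrix.det hAW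
  rw [Matrix.det_mul, hA, Matrix.det_diagonal, Finset.prod_mul_distrib] at h4
  have h5 := congrArg abs h4
  rw [abs_mul, abs_mul, X2_pairs x, Finset.abs_prod (f := fun k => 2 * Real.sqrt q * Real.sin (t k))] at h5
  rw [hLW]
  have hV' : |∏ i, ∏ j ∈ Finset.Ioi i, (x j - x i)| ≠ 0 := abs_ne_zero.2 hV
  apply mul_left_cancel₀ hV'
  rw [h5]
  ring


end TQ
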