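import Pool.Agent.Lib.MP_021685_agTQ.VD

/-! LEAF X3 (medium).  The determinant of the sines.

PROOF.  `sin ((k+1) t) = sin t * U_k (cos t)` with the Chebyshev polynomials of the second kind (Mathlib: `Polynomial.Chebyshev.U_real_cos`: `(U ℝ n).eval (cos θ) * sin θ = sin ((n + 1) θ)`; or a two-step recursion).  So the determinant is `∏ j, 2 sin (t j)` times `det (U_k (cos t_j))` (`Matrix.det_mul_row` / `Matrix.det_mul_column`).
Let `s = √q`.  CASE `s = 0` (`q = 0`): for `n = 0` both sides are `1`; for `n ≥ 1` both sides are `0` (`n (n + 1) / 2 ≥ 1`).  CASE `s > 0`: there are monic polynomials `p_k` of degree `k` with `p_k (2 s c) = s^k U_k(c)` (recursion `p_0 = 1`, `p_1 = X`, `p_(k+2) = X p_(k+1) - s^2 p_k`; in Mathlib `Polynomial.dickson 2 (s^2) k`),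
so by `Matrix.det_eval_matrixOfPolynomials_eq_det_vandermonde` `det (p_k (x_j)) = ∏ i, ∏ j ∈ Ioi i, (x j - x i)` with `x j = 2 s cos (t j)`, and it is `s^(n(n-1)/2) det (U_k (cos t_j))`.  Together `s^(n(n+1)/2) |det (2 sin ((k+1) t_j))| = s^(n(n-1)/2) s^n ∏ |2 sin t_j| |det (U_k (cos t_j))| = ∏ |2 s sin t_j| |V|`, because `n(n-1)/2 + n = n(n+1)/2`.
(The file PA1.lean of the block PF has the same computation for `s = 1`.) -/

namespace TQ

open Polynomial TI

/-- the polynomials `R_k` with `sin ((k+1) t) = sin t * R_k (2 cos t)` -/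
private noncomputable def X3_R : ℕ → Polynomial ℝ
  | 0 => 1
  | 1 => Polynomial.X
  | n + 2 => Polynomial.X * X3_R (n + 1) - X3_R n

private theorem X3_deg (k : ℕ) : (X3_R k).natDegree = k ∧ (X3_R k).Monic := by
  induction k using Nat.strong_induction_on with
  | _ k ih =>
    match k, ih with
    | 0, _ => exact ⟨Polynomial.natDegree_one, Polynomial.monic_one⟩
    | 1, _ => exact ⟨Polynomial.natDegree_X, Polynomial.monic_X⟩
    | n + 2, ih =>
      obtain ⟨h1, h2⟩ := ih (n + 1) (by omega)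
      obtain ⟨h3, h4⟩ := ih n (by omega)
      have h5 : (Polynomial.X * X3_R (n + 1)).Monic := Polynomial.monic_X.mul h2
      have h6 : (Polynomial.X * X3_R (n + 1)).natDegree = n + 2 := by
        rw [Polynomial.monic_X.natDegree_mul h2, Polynomial.natDegree_X, h1]
        ring
      have h7 : (X3_R n).natDegree < (Polynomial.X * X3_R (n + 1)).natDegree := by
        rw [h3, h6]
        omega
      refine ⟨?_, ?_⟩
      · show (Polynomial.X * X3_R (n + 1) - X3_R n).natDegree = n + 2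
        rw [Polynomial.natDegree_sub_eq_left_of_natDegree_lt h7, h6]
      · show (Polynomial.X * X3_R (n + 1) - X3_R n).Monic
        exact h5.sub_of_left (Polynomial.degree_lt_degree h7)

private theorem X3_sin (k : ℕ) (t : ℝ) :
    Real.sin (((k : ℕ) + 1 : ℝ) * t) = Real.sin t * (X3_R k).eval (2 * Real.cos t) := by
  induction k using Nat.strong_induction_on with
  | _ k ih =>
    match k, ih with
    | 0, _ =>
      show Real.sin ((((0 : ℕ) : ℝ) + 1) * t) = Real.sin t * (1 : Polynomial ℝ).eval (2 * Real.cos t)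
      simp
    | 1, _ =>
      show Real.sin ((((1 : ℕ) : ℝ) + 1) * t) = Real.sin t * (Polynomial.X : Polynomial ℝ).eval (2 * Real.cos t)
      rw [Polynomial.eval_X]
      have h1 : (((1 : ℕ) : ℝ) + 1) * t = 2 * t := by push_cast; ring
      rw [h1, Real.sin_two_mul]
      ring
    | n + 2, ih =>
      have h1 := ih (n + 1) (by omega)
      have h2 := ih n (by omega)
      show Real.sin ((((n + 2 : ℕ) : ℝ) + 1) * t) =
        Real.sin t * (Polynomial.X * X3_R (n + 1) - X3_R n).eval (2 * Real.cos t)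
      rw [Polynomial.eval_sub, Polynomial.eval_mul, Polynomial.eval_X, mul_sub, ← h2, mul_left_comm, ← h1]
      have h3 : (((n + 2 : ℕ) : ℝ) + 1) * t = (((n + 1 : ℕ) : ℝ) + 1) * t + t := by push_cast; ring
      have h4 : ((n : ℝ) + 1) * t = (((n + 1 : ℕ) : ℝ) + 1) * t - t := by push_cast; ring
      rw [h3, h4, Real.sin_add, Real.sin_sub]
      ring

private theorem X3_det (n : ℕ) (θ : Fin n → ℝ) :
    (Matrix.of fun k j : Fin n => 2 * Real.sin (((k : ℕ) + 1 : ℝ) * θ j)).det =
      (∏ j, (2 * Real.sin (θ j))) * ∏ i : Fin n, ∏ j ∈ Finset.Ioi i, (2 * Real.cos (θ j) - 2 * Real.cos (θ i)) := by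
  have h1 : (Matrix.of fun k j : Fin n => 2 * Real.sin (((k : ℕ) + 1 : ℝ) * θ j)) =
      Matrix.of fun k j : Fin n => (2 * Real.sin (θ j)) *
        (Matrix.of fun k j : Fin n => (X3_R (k : ℕ)).eval (2 * Real.cos (θ j))) k j := by
    ext k j
    show 2 * Real.sin (((k : ℕ) + 1 : ℝ) * θ j) =
      (2 * Real.sin (θ j)) * (X3_R (k : ℕ)).eval (2 * Real.cos (θ j))
    rw [X3_sin]
    ring
  have h2 : (Matrix.of fun k j : Fin n => (X3_R (k : ℕ)).eval (2 * Real.cos (θ j))).det =
      ∏ i : Fin n, ∏ j ∈ Finset.Ioi i, (2 * Real.cos (θ j) - 2 * Real.cos (θ i)) := by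
    rw [← Matrix.det_vandermonde (fun j : Fin n => 2 * Real.cos (θ j)),
      Matrix.det_eval_matrixOfPolynomials_eq_det_vandermonde (fun j : Fin n => 2 * Real.cos (θ j))
        (fun k : Fin n => X3_R (k : ℕ)) (fun k => (X3_deg k).1) (fun k => (X3_deg k).2),
      ← Matrix.det_transpose]
    rfl
  rw [h1, Matrix.det_mul_row, h2]

private theorem X3_card (n : ℕ) : (∑ i : Fin n, (Finset.Ioi i).card) + n = n * (n + 1) / 2 := by
  have h1 : ∑ i : Fin n, (Finset.Ioi i).card = ∑ i ∈ Finset.range n, i := by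
    rw [← Finset.sum_range_reflect (fun i => i) n, ← Fin.sum_univ_eq_sum_range (fun i => n - 1 - i) n]
    exact Finset.sum_congr rfl fun i _ => Fin.card_Ioi i
  rw [h1, ← Finset.sum_range_succ (fun i => i) n, Finset.sum_range_id, Nat.add_sub_cancel, mul_comm]

theorem jac_vand (q n : ℕ) (t : Fin n → ℝ) :
    Jac q n t = |∏ i, ∏ j ∈ Finset.Ioi i, (2 * Real.sqrt q * Real.cos (t j) - 2 * Real.sqrt q * Real.cos (t i))| *
      ∏ k, |2 * Real.sqrt q * Real.sin (t k)| := by
  obtain ⟨s, hs⟩ : ∃ s, s = Real.sqrt q := ⟨_, rfl⟩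
  have hs0 : 0 ≤ s := by
    rw [hs]
    exact Real.sqrt_nonneg _
  unfold Jac
  rw [← hs, X3_det, abs_mul, ← X3_card, pow_add]
  have h1 : ∏ i : Fin n, ∏ j ∈ Finset.Ioi i, (2 * s * Real.cos (t j) - 2 * s * Real.cos (t i)) =
      s ^ (∑ i : Fin n, (Finset.Ioi i).card) *
        ∏ i : Fin n, ∏ j ∈ Finset.Ioi i, (2 * Real.cos (t j) - 2 * Real.cos (t i)) := by
    rw [← Finset.prod_pow_eq_pow_sum, ← Finset.prod_mul_distrib]
    refine Finset.prod_congr rfl fun i _ => ?_
    rw [← Finset.prod_const, ← Finset.prod_mul_distrib]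
    refine Finset.prod_congr rfl fun j _ => ?_
    ring
  have h2 : ∏ k, |2 * s * Real.sin (t k)| = s ^ n * |∏ j, (2 * Real.sin (t j))| := by
    rw [Finset.abs_prod]
    have h3 : s ^ n = ∏ _k : Fin n, s := by
      rw [Finset.prod_const, Finset.card_univ, Fintype.card_fin]
    rw [h3, ← Finset.prod_mul_distrib]
    refine Finset.prod_congr rfl fun k _ => ?_
    have h4 : 2 * s * Real.sin (t k) = s * (2 * Real.sin (t k)) := by ring
    rw [h4, abs_mul, abs_of_nonneg hs0]
  rw [h1, h2, abs_mul, abs_of_nonneg (pow_nonneg hs0 _)]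
  ring

end TQ
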