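import Pool.Agent.Lib.MP_021685_agTQ.VD

/-! LEAF X4 (easy+).  The angles are determined by the polynomial.

PROOF.  `ord_inj`: `x = 2 √q cos (t ·)` is strictly decreasing (`√q > 0`, `Real.strictAntiOn_cos` on `[0, π]`), so injective.  `RP_inj`: the roots of `RP q t` are the numbers `x j` (`eval` of the product is `0` iff one factor is `0`), so `RP q t = RP q t'` gives the same range of `x` and `x'`; both are strictly decreasing, so they are equal
(`StrictAnti` functions on `Fin n` with the same range: apply `Finset.orderEmbOfFin_unique` to `-x`, or `StrictMono.range_inj` with `Fin.rev`), and `cos` is injective on `(0, π)` (`Real.injOn_cos`). -/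

namespace TQ

open Polynomial TI

private theorem X4_cos {q n : ℕ} (hq : 1 ≤ q) {t t' : Fin n → ℝ} (ht : t ∈ ord n) (ht' : t' ∈ ord n) {i j : Fin n}
    (h : 2 * Real.sqrt q * Real.cos (t i) = 2 * Real.sqrt q * Real.cos (t' j)) : t i = t' j := by
  have hs : 0 < Real.sqrt q := Real.sqrt_pos.2 (by exact_mod_cast hq)
  have h1 : Real.cos (t i) = Real.cos (t' j) := mul_left_cancel₀ (by positivity) h
  exact Real.injOn_cos ⟨(ht.2 i).1.le, (ht.2 i).2.le⟩ ⟨(ht'.2 j).1.le, (ht'.2 j).2.le⟩ h1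

private theorem X4_sub {q n : ℕ} (hq : 1 ≤ q) {t t' : Fin n → ℝ} (ht : t ∈ ord n) (ht' : t' ∈ ord n)
    (h : RP q t = RP q t') : Set.range t ⊆ Set.range t' := by
  rintro _ ⟨i, rfl⟩
  have h1 : (RP q t').eval (2 * Real.sqrt q * Real.cos (t i)) = 0 := by
    rw [← h]
    unfold RP
    rw [eval_prod]
    refine Finset.prod_eq_zero (Finset.mem_univ i) ?_
    rw [eval_sub, eval_X, eval_C, sub_self]
  unfold RP at h1
  rw [eval_prod, Finset.prod_eq_zero_iff] at h1
  obtain ⟨j, _, hj⟩ := h1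
  rw [eval_sub, eval_X, eval_C, sub_eq_zero] at hj
  exact ⟨j, (X4_cos hq ht ht' hj).symm⟩

theorem ord_inj {q n : ℕ} (hq : 1 ≤ q) {t : Fin n → ℝ} (ht : t ∈ ord n) :
    Function.Injective fun j => 2 * Real.sqrt q * Real.cos (t j) := by
  intro i j h
  exact ht.1.injective (X4_cos hq ht ht h)

theorem RP_inj {q n : ℕ} (hq : 1 ≤ q) {t t' : Fin n → ℝ} (ht : t ∈ ord n) (ht' : t' ∈ ord n)
    (h : RP q t = RP q t') : t = t' := by
  rw [← ht.1.range_inj ht'.1]
  exact Set.Subset.antisymm (X4_sub hq ht ht' h) (X4_sub hq ht' ht h.symm)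

end TQ
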