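import Pool.Agent.Lib.MP_021685_agTQ.X1
import Pool.Agent.Lib.MP_021685_agTQ.X2
import Pool.Agent.Lib.MP_021685_agTQ.X3
import Pool.Agent.Lib.MP_021685_agTQ.X4

/-! LEAF X5 (this file V4i.lean; easy+).  The change of variables.

PROOF.  `exists_phi`: from `exists_phi_deriv` (file X1), a differentiable function is continuous (`HasFDerivAt.continuousAt`, `continuous_iff_continuousAt`).
`vol_image`: take `Φ`, `L` of `exists_phi_deriv`.  `Φ` is injective on `Θ ⊆ ord n`: `Φ t = Φ t'` gives `RP q t = RP q t'`, `RP_inj` (file X4).  The set of the statement is `Φ '' Θ` (`PE_inj`, file VE).  `MeasureTheory.lintegral_abs_det_fderiv_eq_addHaar_image volume hΘ (fun t _ => (hasFDerivAt t).hasFDerivWithinAt) injOn`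
says that the integral over `Θ` of `ofReal |(L t).det|` is `volume (Φ '' Θ)`; on `Θ` (`MeasureTheory.setLIntegral_congr_fun`) `|(L t).det| = Jac q n t` by `det_deriv` (file X2, `ord_inj` of file X4) and `jac_vand` (file X3). -/

namespace TQ

open Polynomial TI MeasureTheory

/-- (V3) the coordinates are continuous functions of the angles -/
theorem exists_phi (q n : ℕ) : ∃ Φ : (Fin n → ℝ) → (Fin n → ℝ), Continuous Φ ∧ ∀ t, PE q (Φ t) = RP q t := by
  obtain ⟨Φ, L, h1, h2, _⟩ := exists_phi_deriv q n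
  exact ⟨Φ, continuous_iff_continuousAt.2 fun t => (h2 t).continuousAt, h1⟩

/-- (V4) the change of variables -/
theorem vol_image {q n : ℕ} (hq : 1 ≤ q) {Θ : Set (Fin n → ℝ)} (hΘ : MeasurableSet Θ) (h : Θ ⊆ ord n) :
    volume {b : Fin n → ℝ | ∃ t ∈ Θ, PE q b = RP q t} = ∫⁻ t in Θ, ENNReal.ofReal (Jac q n t) := by
  obtain ⟨Φ, L, h1, h2, h3⟩ := exists_phi_deriv q n
  have hinj : Set.InjOn Φ Θ := fun t ht t' ht' e =>
    RP_inj hq (h ht) (h ht') (by rw [← h1 t, ← h1 t', e])
  have hset : {b : Fin n → ℝ | ∃ t ∈ Θ, PE q b = RP q t} = Φ '' Θ := by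
    ext b
    constructor
    · rintro ⟨t, ht, e⟩
      exact ⟨t, ht, PE_inj ((h1 t).trans e.symm)⟩
    · rintro ⟨t, ht, rfl⟩
      exact ⟨t, ht, h1 t⟩
  rw [hset, ← lintegral_abs_det_fderiv_eq_addHaar_image volume hΘ (fun t _ => (h2 t).hasFDerivWithinAt) hinj]
  refine setLIntegral_congr_fun hΘ fun t ht => ?_
  show ENNReal.ofReal |(L t).det| = ENNReal.ofReal (Jac q n t)
  rw [det_deriv q t (ord_inj hq (h ht)) (L t) (h3 t), jac_vand]

end TQ
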